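import Mathlib

namespace Pool.Agent.Lib.helper22.AntA

open Finset

variable {α : Type*} [DecidableEq α] {r : α → α → Prop}

def Ind (r : α → α → Prop) (S : Finset α) : Prop := ∀ x ∈ S, ∀ y ∈ S, ¬ r x y

open Classical in
noncomputable def ind (r : α → α → Prop) (V : Finset α) : Finset (Finset α) :=
  V.powerset.filter (Ind r)

open Classical in
noncomputable def F (r : α → α → Prop) (L S : Finset α) : Finset α :=
  L.filter (fun y => ∀ x ∈ S, ¬ r x y)

omit [DecidableEq α] in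
lemma mem_ind {S V : Finset α} : S ∈ ind r V ↔ S ⊆ V ∧ Ind r S := by simp [ind]

omit [DecidableEq α] in
lemma mem_F {L S : Finset α} {y : α} : y ∈ F r L S ↔ y ∈ L ∧ ∀ x ∈ S, ¬ r x y := by simp [F]

omit [DecidableEq α] in
lemma F_sub (L S : Finset α) : F r L S ⊆ L := fun _ h => (mem_F.mp h).1

omit [DecidableEq α] in
lemma F_empty (L : Finset α) : F r L ∅ = L := by ext; simp [mem_F]

lemma G (hs : ∀ x y, r x y → r y x) {C L : Finset α} (h : Disjoint C L) :
    (ind r (C ∪ L)).card = ∑ S ∈ ind r C, (ind r (F r L S)).card := by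
  rw [← card_sigma]
  have hd := disjoint_left.mp h
  refine card_nbij' (fun T => ⟨T ∩ C, T ∩ L⟩) (fun p => p.1 ∪ p.2) ?_ ?_ ?_ ?_
  · intro T hT
    obtain ⟨h1, h2⟩ := mem_ind.mp hT
    simp only [coe_sigma, Set.mem_sigma_iff, mem_coe, mem_ind]
    refine ⟨⟨inter_subset_right, fun x hx y hy => h2 x (mem_inter.mp hx).1 y (mem_inter.mp hy).1⟩,
      fun y hy => mem_F.mpr ⟨(mem_inter.mp hy).2, fun x hx =>
        h2 x (mem_inter.mp hx).1 y (mem_inter.mp hy).1⟩,
      fun x hx y hy => h2 x (mem_inter.mp hx).1 y (mem_inter.mp hy).1⟩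
  · rintro ⟨S, U⟩ hp
    simp only [coe_sigma, Set.mem_sigma_iff, mem_coe, mem_ind] at hp
    obtain ⟨⟨h1, h2⟩, h3, h4⟩ := hp
    refine mem_ind.mpr ⟨union_subset_union h1 (h3.trans (F_sub _ _)), fun x hx y hy => ?_⟩
    rcases mem_union.mp hx with hx | hx <;> rcases mem_union.mp hy with hy | hy
    · exact h2 x hx y hy
    · exact (mem_F.mp (h3 hy)).2 x hx
    · exact fun hr => (mem_F.mp (h3 hx)).2 y hy (hs _ _ hr)
    · exact h4 x hx y hy
  · intro T hT
    obtain ⟨h1, _⟩ := mem_ind.mp hT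
    simp only
    rw [← inter_union_distrib_left, inter_eq_left.mpr h1]
  · rintro ⟨S, U⟩ hp
    simp only [coe_sigma, Set.mem_sigma_iff, mem_coe, mem_ind] at hp
    obtain ⟨⟨h1, _⟩, h3, _⟩ := hp
    have h5 := h3.trans (F_sub _ _)
    have e1 : (S ∪ U) ∩ C = S := by
      ext x
      simp only [mem_inter, mem_union]
      exact ⟨fun ⟨h6, h7⟩ => h6.elim id fun h8 => absurd (h5 h8) (hd h7),
        fun h6 => ⟨Or.inl h6, h1 h6⟩⟩
    have e2 : (S ∪ U) ∩ L = U := by
      ext x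
      simp only [mem_inter, mem_union]
      exact ⟨fun ⟨h6, h7⟩ => h6.elim (fun h8 => absurd h7 (hd (h1 h8))) id,
        fun h6 => ⟨Or.inr h6, h5 h6⟩⟩
    simp only [e1, e2]

omit [DecidableEq α] in
lemma mono {V W : Finset α} (h : V ⊆ W) : (ind r V).card ≤ (ind r W).card :=
  card_le_card fun _ hS => mem_ind.mpr ⟨(mem_ind.mp hS).1.trans h, (mem_ind.mp hS).2⟩

omit [DecidableEq α] in
lemma up (V : Finset α) : (ind r V).card ≤ 2 ^ V.card := by
  rw [← card_powerset]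
  exact card_le_card fun _ hS => mem_powerset.mpr (mem_ind.mp hS).1

omit [DecidableEq α] in
lemma free {V : Finset α} (h : Ind r V) : (ind r V).card = 2 ^ V.card := by
  rw [← card_powerset]
  congr 1
  ext S
  rw [mem_ind, mem_powerset]
  exact ⟨fun h => h.1, fun h1 => ⟨h1, fun x hx y hy => h x (h1 hx) y (h1 hy)⟩⟩

lemma sub (hs : ∀ x y, r x y → r y x) {C L : Finset α} (h : Disjoint C L) :
    (ind r (C ∪ L)).card ≤ (ind r C).card * (ind r L).card := by
  rw [G hs h, ← smul_eq_mul]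
  exact sum_le_card_nsmul _ _ _ fun S _ => mono (F_sub _ _)

lemma star {x : α} {L : Finset α} (h : ∀ y ∈ L, r x y) :
    (ind r (insert x L)).card ≤ 2 ^ L.card + 1 := by
  rw [← card_powerset]
  refine le_trans (card_le_card (t := insert {x} L.powerset) fun S hS => ?_) (card_insert_le _ _)
  obtain ⟨h1, h2⟩ := mem_ind.mp hS
  by_cases hx : x ∈ S
  · refine mem_insert.mpr (Or.inl (eq_singleton_iff_unique_mem.mpr ⟨hx, fun y hy => ?_⟩))
    rcases mem_insert.mp (h1 hy) with h3 | h3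
    · exact h3
    · exact absurd (h y h3) (h2 x hx y hy)
  · exact mem_insert_of_mem (mem_powerset.mpr ((subset_insert_iff_of_notMem hx).mp h1))

lemma R (hs : ∀ x y, r x y → r y x) (hi : ∀ x, ¬ r x x) {x : α} {L : Finset α} (h : x ∉ L) :
    (ind r (insert x L)).card = (ind r L).card + (ind r (F r L {x})).card := by
  have e : ind r {x} = {∅, {x}} := by
    ext S
    simp only [mem_ind, subset_singleton_iff, mem_insert, mem_singleton]
    refine ⟨fun h => h.1, fun h => ⟨h, ?_⟩⟩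
    rcases h with rfl | rfl
    · simp [Ind]
    · simp [Ind, hi]
  rw [insert_eq, G hs (disjoint_singleton_left.mpr h), e, sum_pair (singleton_ne_empty x).symm,
    F_empty]

lemma edge (hs : ∀ x y, r x y → r y x) (hi : ∀ x, ¬ r x x) {V : Finset α} {x y : α} (hx : x ∈ V)
    (hy : y ∈ V) (h : r x y) : (ind r V).card ≤ 3 * (ind r (V \ {x, y})).card ∧
      (V \ {x, y}).card + 2 = V.card := by
  have hsub : ({x, y} : Finset α) ⊆ V := by simp [insert_subset_iff, hx, hy]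
  have hne : x ≠ y := fun e => hi x (by rwa [← e] at h)
  constructor
  · have := sub hs (disjoint_sdiff (s := ({x, y} : Finset α)) (t := V))
    rw [union_sdiff_of_subset hsub] at this
    refine this.trans (Nat.mul_le_mul_right _ ?_)
    simpa using star (r := r) (x := x) (L := {y}) (by simpa using h)
  · rw [← card_pair hne, card_sdiff_add_card_eq_card hsub]

open Classical in
noncomputable def NI (r : α → α → Prop) (V : Finset α) : Finset α :=
  V.filter (fun x => ∃ y ∈ V, r x y)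

omit [DecidableEq α] in
lemma mem_NI {V : Finset α} {x : α} : x ∈ NI r V ↔ x ∈ V ∧ ∃ y ∈ V, r x y := by simp [NI]

lemma matching (hs : ∀ x y, r x y → r y x) (hi : ∀ x, ¬ r x x) (N : α → Finset α)
    (hN : ∀ x y, r x y → y ∈ N x) (j : ℕ) : ∀ V : Finset α, (∀ x ∈ V, (N x).card ≤ 7) →
    14 * j ≤ (NI r V).card → 4 ^ j * (ind r V).card ≤ 3 ^ j * 2 ^ V.card := by
  induction j with
  | zero => intro V _ _; simpa using up V
  | succ j ih =>
    intro V hV h
    obtain ⟨x, hx⟩ : (NI r V).Nonempty := card_pos.mp (by omega)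
    obtain ⟨hx, y, hy, hxy⟩ := mem_NI.mp hx
    obtain ⟨h1, h2⟩ := edge hs hi hx hy hxy
    have h3 : NI r V ⊆ NI r (V \ {x, y}) ∪ (N x ∪ N y) := by
      intro z hz
      obtain ⟨hz, t, ht, hzt⟩ := mem_NI.mp hz
      simp only [mem_union, mem_NI, mem_sdiff, mem_insert, mem_singleton]
      by_cases h4 : z = x
      · exact Or.inr (Or.inr (h4 ▸ hN _ _ (hs _ _ hxy)))
      by_cases h5 : z = y
      · exact Or.inr (Or.inl (h5 ▸ hN _ _ hxy))
      by_cases h6 : t = x
      · exact Or.inr (Or.inl (h6 ▸ hN _ _ (hs _ _ hzt)))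
      by_cases h7 : t = y
      · exact Or.inr (Or.inr (h7 ▸ hN _ _ (hs _ _ hzt)))
      exact Or.inl ⟨⟨hz, by tauto⟩, t, ⟨ht, by tauto⟩, hzt⟩
    have h4 := (card_le_card h3).trans ((card_union_le _ _).trans
      (Nat.add_le_add_left (card_union_le _ _) _))
    have h5 := hV x hx
    have h6 := hV y hy
    have h7 := ih (V \ {x, y}) (fun z hz => hV z (mem_sdiff.mp hz).1) (by omega)
    rw [← h2, pow_succ, pow_succ, pow_add]
    have := Nat.mul_le_mul_left (4 ^ j * 4) h1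
    nlinarith

lemma form (hs : ∀ x y, r x y → r y x) {L V : Finset α} (h : V ⊆ L) :
    ∃ c e, (ind r V).card = c * 2 ^ e ∧ c ≤ 2 ^ (NI r L).card := by
  refine ⟨(ind r (NI r V)).card, (V \ NI r V).card, ?_, (up _).trans
    (Nat.pow_le_pow_right two_pos (card_le_card fun x hx => ?_))⟩
  · have h1 : NI r V ⊆ V := fun x hx => (mem_NI.mp hx).1
    have := G hs (disjoint_sdiff (s := NI r V) (t := V))
    rw [union_sdiff_of_subset h1] at this
    rw [this, ← smul_eq_mul, ← sum_const]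
    refine sum_congr rfl fun S hS => ?_
    have e : F r (V \ NI r V) S = V \ NI r V := by
      ext y
      refine ⟨fun h => (mem_F.mp h).1, fun hy => mem_F.mpr ⟨hy, fun x hx hr => ?_⟩⟩
      exact (mem_sdiff.mp hy).2 (mem_NI.mpr ⟨(mem_sdiff.mp hy).1, x,
        h1 ((mem_ind.mp hS).1 hx), hs _ _ hr⟩)
    rw [e]
    exact free fun x hx y hy hr => (mem_sdiff.mp hx).2 (mem_NI.mpr ⟨(mem_sdiff.mp hx).1, y,
      (mem_sdiff.mp hy).1, hr⟩)
  · obtain ⟨h1, y, h2, h3⟩ := mem_NI.mp hx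
    exact mem_NI.mpr ⟨h h1, y, h h2, h3⟩

lemma cut {ι : Type*} [Nonempty ι] (s : Finset ι) (hs : s.card ≤ 8) (t : ι → ℕ)
    (ht : ∀ j ∈ s, ∃ c e, t j = c * 2 ^ e ∧ c ≤ 2 ^ 112) (p : ℕ) :
    ∃ θ, p ≤ θ ∧ θ ≤ p + 936 ∧ ∀ lo hi, ∑ j ∈ s, t j = lo + hi → lo < 2 ^ θ → 2 ^ θ ∣ hi →
      ∑ j ∈ s with ¬ 2 ^ θ ∣ t j, t j = lo := by
  classical
  choose! c e hce using ht
  obtain ⟨i, hi, h⟩ : ∃ i < 9, ∀ j ∈ s, p + 117 * i ≤ e j ∨ e j + 116 ≤ p + 117 * i := by
    by_contra hc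
    push Not at hc
    choose! f hf using hc
    have := card_le_card_of_injOn (s := range 9) (t := s) f
      (fun i hi => (hf i (by simpa using hi)).1) (fun i hi i' hi' hii => by
        have h1 := (hf i (by simpa using hi)).2
        have h2 := (hf i' (by simpa using hi')).2
        rw [hii] at h1
        omega)
    rw [card_range] at this
    omega
  refine ⟨p + 117 * i, by omega, by omega, fun lo hi h1 h2 h3 => ?_⟩
  set θ := p + 117 * i
  have h4 : ∑ j ∈ s with ¬ 2 ^ θ ∣ t j, 16 * t j ≤ 8 * 2 ^ θ := by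
    refine (sum_le_card_nsmul _ _ (2 ^ θ) fun j hj => ?_).trans
      (Nat.mul_le_mul_right _ ((card_filter_le _ _).trans hs))
    obtain ⟨hj, hj2⟩ := mem_filter.mp hj
    obtain ⟨h5, h6⟩ := hce j hj
    rcases h j hj with h7 | h7
    · exact absurd (h5 ▸ Dvd.dvd.mul_left (pow_dvd_pow 2 h7) _) hj2
    · calc 16 * t j ≤ 2 ^ 4 * (2 ^ 112 * 2 ^ e j) := by
            rw [h5]; exact Nat.mul_le_mul_left _ (Nat.mul_le_mul_right _ h6)
        _ = 2 ^ (e j + 116) := by rw [← pow_add, ← pow_add]; congr 1; omega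
        _ ≤ 2 ^ θ := Nat.pow_le_pow_right two_pos h7
  rw [← mul_sum] at h4
  have h5 := sum_filter_add_sum_filter_not s (fun j => 2 ^ θ ∣ t j) t
  obtain ⟨a, ha⟩ : 2 ^ θ ∣ ∑ j ∈ s with 2 ^ θ ∣ t j, t j :=
    dvd_sum fun j hj => (mem_filter.mp hj).2
  obtain ⟨b, hb⟩ := h3
  have h6 : (2 ^ θ * a + ∑ j ∈ s with ¬ 2 ^ θ ∣ t j, t j) % 2 ^ θ = (lo + 2 ^ θ * b) % 2 ^ θ := by
    rw [← ha, h5, h1, hb]
  rwa [Nat.mul_add_mod, Nat.add_mul_mod_self_left, Nat.mod_eq_of_lt h2,
    Nat.mod_eq_of_lt (by omega)] at h6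

end Pool.Agent.Lib.helper22.AntA
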