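import Mathlib
import Pool.Agent.Lib.helper22.AntA

namespace Pool.Agent.Lib.helper22.AntB

open Finset Pool.Agent.Lib.helper22.AntA

def K (u : ℕ) : ℕ := 1 + 2 ^ (4 * u) + 2 ^ (5 * u) + 2 ^ (6 * u) + 2 ^ (7 * u) + 2 ^ (17 * u)

lemma dbl {a b : ℕ} (h : a < b) : 2 * 2 ^ a ≤ 2 ^ b := by
  rw [← pow_succ']; exact Nat.pow_le_pow_right two_pos h

lemma chain {ι : Type*} [Nonempty ι] (s : Finset ι) (hs : s.card ≤ 8) (t : ι → ℕ)
    (ht : ∀ j ∈ s, ∃ c e, t j = c * 2 ^ e ∧ c ≤ 2 ^ 112) {u : ℕ} (hu : 2000 ≤ u)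
    (h : ∑ j ∈ s, t j = K u) :
    6 ≤ s.card ∧ ∃ θ, 7 * u < 2 * θ ∧ ∑ j ∈ s with ¬ 2 ^ θ ∣ t j, t j = 1 := by
  have step : ∀ a b : ℕ, a ≤ b → ∑ j ∈ s with ¬ 2 ^ a ∣ t j, t j < ∑ j ∈ s with ¬ 2 ^ b ∣ t j, t j →
      (s.filter fun j => ¬ 2 ^ a ∣ t j).card < (s.filter fun j => ¬ 2 ^ b ∣ t j).card := by
    intro a b hab h1
    refine card_lt_card (Finset.ssubset_iff_subset_ne.mpr ⟨fun j hj => mem_filter.mpr
      ⟨(mem_filter.mp hj).1, fun h2 => (mem_filter.mp hj).2 ((pow_dvd_pow 2 hab).trans h2)⟩,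
      fun h2 => ?_⟩)
    rw [h2] at h1
    exact lt_irrefl _ h1
  obtain ⟨θ1, a1, b1, c1⟩ := cut s hs t ht (4 * u - 936)
  obtain ⟨θ2, a2, b2, c2⟩ := cut s hs t ht (4 * u + 1)
  obtain ⟨θ3, a3, b3, c3⟩ := cut s hs t ht (5 * u + 1)
  obtain ⟨θ4, a4, b4, c4⟩ := cut s hs t ht (6 * u + 1)
  obtain ⟨θ5, a5, b5, c5⟩ := cut s hs t ht (7 * u + 1)
  have d0 := dbl (show 0 < 4 * u by omega)
  have d1 := dbl (show 4 * u < 5 * u by omega)
  have d2 := dbl (show 5 * u < 6 * u by omega)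
  have d3 := dbl (show 6 * u < 7 * u by omega)
  have d4 := dbl (show 7 * u < 17 * u by omega)
  have f1 := dbl (show 0 < θ1 by omega)
  have f2 := dbl (show 4 * u < θ2 by omega)
  have f3 := dbl (show 5 * u < θ3 by omega)
  have f4 := dbl (show 6 * u < θ4 by omega)
  have f5 := dbl (show 7 * u < θ5 by omega)
  rw [pow_zero] at d0 f1
  have v : ∀ {a b : ℕ}, a ≤ b → 2 ^ a ∣ 2 ^ b := fun h => pow_dvd_pow 2 h
  have e1 := c1 1 (2 ^ (4 * u) + 2 ^ (5 * u) + 2 ^ (6 * u) + 2 ^ (7 * u) + 2 ^ (17 * u))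
    (by rw [h, K]; ring) (by omega) (dvd_add (dvd_add (dvd_add (dvd_add (v (by omega))
      (v (by omega))) (v (by omega))) (v (by omega))) (v (by omega)))
  have e2 := c2 (1 + 2 ^ (4 * u)) (2 ^ (5 * u) + 2 ^ (6 * u) + 2 ^ (7 * u) + 2 ^ (17 * u))
    (by rw [h, K]; ring) (by omega) (dvd_add (dvd_add (dvd_add (v (by omega))
      (v (by omega))) (v (by omega))) (v (by omega)))
  have e3 := c3 (1 + 2 ^ (4 * u) + 2 ^ (5 * u)) (2 ^ (6 * u) + 2 ^ (7 * u) + 2 ^ (17 * u))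
    (by rw [h, K]; ring) (by omega) (dvd_add (dvd_add (v (by omega))
      (v (by omega))) (v (by omega)))
  have e4 := c4 (1 + 2 ^ (4 * u) + 2 ^ (5 * u) + 2 ^ (6 * u)) (2 ^ (7 * u) + 2 ^ (17 * u))
    (by rw [h, K]; ring) (by omega) (dvd_add (v (by omega)) (v (by omega)))
  have e5 := c5 (1 + 2 ^ (4 * u) + 2 ^ (5 * u) + 2 ^ (6 * u) + 2 ^ (7 * u)) (2 ^ (17 * u))
    (by rw [h, K]) (by omega) (v (by omega))
  have s1 := step 0 θ1 (by omega) (by simp [e1])
  have s2 := step θ1 θ2 (by omega) (by omega)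
  have s3 := step θ2 θ3 (by omega) (by omega)
  have s4 := step θ3 θ4 (by omega) (by omega)
  have s5 := step θ4 θ5 (by omega) (by omega)
  have s6 : (s.filter fun j => ¬ 2 ^ θ5 ∣ t j).card < s.card := by
    refine card_lt_card (Finset.ssubset_iff_subset_ne.mpr ⟨filter_subset _ _, fun h2 => ?_⟩)
    rw [h2, h, K] at e5
    omega
  exact ⟨by omega, θ1, by omega, e1⟩

variable {α : Type*} [DecidableEq α] {r : α → α → Prop}

open Classical in
lemma cardF1 (L : Finset α) (a : α) : (F r L {a}).card = ∑ y ∈ L, if r a y then 0 else 1 := by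
  rw [F, card_filter]; exact sum_congr rfl fun y _ => by simp

open Classical in
lemma cardF2 (L : Finset α) (a b : α) :
    (F r L {a, b}).card = ∑ y ∈ L, if r a y ∨ r b y then 0 else 1 := by
  rw [F, card_filter]; exact sum_congr rfl fun y _ => by by_cases r a y <;> simp [*]

open Classical in
lemma cardF3 (L : Finset α) (a b c : α) :
    (F r L {a, b, c}).card = ∑ y ∈ L, if r a y ∨ r b y ∨ r c y then 0 else 1 := by
  rw [F, card_filter]
  exact sum_congr rfl fun y _ => by by_cases r a y <;> by_cases r b y <;> simp [*]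

omit [DecidableEq α] in
lemma F_anti (L : Finset α) {S T : Finset α} (h : S ⊆ T) : (F r L T).card ≤ (F r L S).card :=
  card_le_card fun _ hy => mem_F.mpr ⟨(mem_F.mp hy).1, fun x hx => (mem_F.mp hy).2 x (h hx)⟩

lemma submod (L : Finset α) (a b c : α) :
    (F r L {a, b}).card + (F r L {a, c}).card ≤ (F r L {a, b, c}).card + (F r L {a}).card := by
  rw [cardF1, cardF2, cardF2, cardF3, ← sum_add_distrib, ← sum_add_distrib]
  exact sum_le_sum fun y _ => by by_cases r a y <;> by_cases r b y <;> by_cases r c y <;> simp [*]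

lemma core [PartialOrder α] (hr : ∀ x y, r x y ↔ x < y ∨ y < x) {a b c : α} {L : Finset α}
    (hL : Ind r L) (hab : r a b) (hac : ¬ r a c) (hbc : ¬ r b c) {u θ : ℕ} (hθ : 7 * u < 2 * θ)
    (h0 : (F r L {b, c}).card = 0) (h1 : θ ≤ (F r L {a, c}).card) (h2 : θ ≤ (F r L {b}).card)
    (h3 : (F r L {a}).card ≤ 7 * u) (h4 : (F r L {b}).card ≤ 7 * u)
    (h5 : (F r L {c}).card ≤ 7 * u) (h6 : L.card = 17 * u) (hu : 0 < u) : False := by
  obtain ⟨x, hx, x1, x2, x3⟩ : ∃ x ∈ L, r a x ∧ r c x ∧ ¬ r b x := by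
    by_contra hc
    push Not at hc
    have : (F r L {a, c}).card + (F r L {b}).card ≤ (F r L {b, c}).card + (F r L {a}).card := by
      rw [cardF1, cardF1, cardF2, cardF2, ← sum_add_distrib, ← sum_add_distrib]
      refine sum_le_sum fun y hy => ?_
      have := hc y hy
      by_cases k1 : r a y <;> by_cases k2 : r b y <;> by_cases k3 : r c y <;>
        simp [k1, k2, k3] at this ⊢
    omega
  obtain ⟨y, hy, y1, y2⟩ : ∃ y ∈ L, r b y ∧ ¬ r a y := by
    by_contra hc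
    push Not at hc
    have : (F r L {a, c}).card ≤ (F r L {b, c}).card := by
      rw [cardF2, cardF2]
      refine sum_le_sum fun y hy => ?_
      have := hc y hy
      by_cases k1 : r a y <;> by_cases k2 : r b y <;> by_cases k3 : r c y <;>
        simp [k1, k2, k3] at this ⊢
    omega
  obtain ⟨z, hz, z1, z2⟩ : ∃ z ∈ L, r b z ∧ r c z := by
    by_contra hc
    push Not at hc
    have : L.card ≤ (F r L {b}).card + (F r L {c}).card := by
      rw [cardF1, cardF1, ← sum_add_distrib, card_eq_sum_ones]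
      refine sum_le_sum fun y hy => ?_
      have := hc y hy
      by_cases k2 : r b y <;> by_cases k3 : r c y <;> simp [k2, k3] at this ⊢
    omega
  have h7 := hL x hx z hz
  have h8 := hL y hy z hz
  simp only [hr, not_or] at *
  obtain ⟨_, _⟩ := h7
  obtain ⟨_, _⟩ := h8
  obtain ⟨_, _⟩ := x3
  obtain ⟨_, _⟩ := y2
  obtain ⟨_, _⟩ := hac
  obtain ⟨_, _⟩ := hbc
  rcases hab with _ | _ <;> rcases x1 with _ | _ <;> rcases x2 with _ | _ <;>
    rcases y1 with _ | _ <;> rcases z1 with _ | _ <;> rcases z2 with _ | _ <;> order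

end Pool.Agent.Lib.helper22.AntB
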