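import Mathlib
import Pool.Agent.Lib.helper22.AntB

namespace Pool.Agent.Lib.helper22.AntC

open Finset Pool.Agent.Lib.helper22.AntA Pool.Agent.Lib.helper22.AntB

variable {α : Type*} [DecidableEq α] {r : α → α → Prop}

lemma ind1 (hi : ∀ x, ¬ r x x) {C : Finset α} {a : α} (ha : a ∈ C) : {a} ∈ ind r C :=
  mem_ind.mpr ⟨by simpa using ha, by simp [Ind, hi]⟩

lemma ind2 (hs : ∀ x y, r x y → r y x) (hi : ∀ x, ¬ r x x) {C : Finset α} {a b : α} (ha : a ∈ C)
    (hb : b ∈ C) (h : ¬ r a b) : {a, b} ∈ ind r C := by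
  have h' : ¬ r b a := fun e => h (hs _ _ e)
  exact mem_ind.mpr ⟨by simp [insert_subset_iff, ha, hb], by simp [Ind, hi, h, h']⟩

lemma one [PartialOrder α] (hr : ∀ x y, r x y ↔ x < y ∨ y < x) {a b c : α} {C L : Finset α}
    (hC : ∀ y, y ∈ C ↔ y = a ∨ y = b ∨ y = c) (ac : a ≠ c) (bc : b ≠ c)
    (hL : Ind r L) (hab : r a b) (hac : ¬ r a c) (hbc : ¬ r b c) {u θ : ℕ} (hθ : 7 * u < 2 * θ)
    (h0 : ∃ S ∈ ind r C, (F r L S).card = 0)
    (h1 : ∀ S ∈ ind r C, ∀ T ∈ ind r C, S ≠ T → θ ≤ (F r L S).card ∨ θ ≤ (F r L T).card)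
    (h2 : ∀ S ∈ ind r C, S ≠ ∅ → (F r L S).card ≤ 7 * u) (h6 : L.card = 17 * u) (hu : 0 < u) :
    False := by
  have hs : ∀ x y, r x y → r y x := fun x y h => (hr _ _).mpr ((hr _ _).mp h).symm
  have hi : ∀ x, ¬ r x x := fun x h => by simpa using (hr _ _).mp h
  have ab : a ≠ b := fun e => hi a (by rwa [← e] at hab)
  have ma : a ∈ C := (hC _).mpr (by simp)
  have mb : b ∈ C := (hC _).mpr (by simp)
  have mc : c ∈ C := (hC _).mpr (by simp)
  have ia := ind1 hi ma
  have ib := ind1 hi mb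
  have ic := ind1 hi mc
  have iac := ind2 hs hi ma mc hac
  have ibc := ind2 hs hi mb mc hbc
  have n1 : ({a, c} : Finset α) ≠ {b, c} := fun e => by
    have : a ∈ ({b, c} : Finset α) := e ▸ mem_insert_self _ _
    simp [ab, ac] at this
  have n2 : ({b, c} : Finset α) ≠ {b} := fun e => by
    have : c ∈ ({b} : Finset α) := e ▸ (by simp)
    simp [bc.symm] at this
  have n3 : ({a, c} : Finset α) ≠ {a} := fun e => by
    have : c ∈ ({a} : Finset α) := e ▸ (by simp)
    simp [ac.symm] at this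
  have t1 := h1 _ iac _ ibc n1
  have t2 := h1 _ ibc _ ib n2
  have t3 := h1 _ iac _ ia n3
  have u1 := h2 _ ia (singleton_ne_empty _)
  have u2 := h2 _ ib (singleton_ne_empty _)
  have u3 := h2 _ ic (singleton_ne_empty _)
  obtain ⟨S, hS, h0⟩ := h0
  obtain ⟨s1, s2⟩ := mem_ind.mp hS
  by_cases ha : a ∈ S
  · have : S ⊆ {a, c} := fun y hy => by
      rcases (hC y).mp (s1 hy) with h | h | h
      · simp [h]
      · exact absurd hab (s2 a ha b (h ▸ hy))
      · simp [h]
    have := F_anti (r := r) L this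
    exact core hr hL (hs _ _ hab) hbc hac hθ (by omega) (by omega) (by omega) u2 u1 u3 h6 hu
  · have : S ⊆ {b, c} := fun y hy => by
      rcases (hC y).mp (s1 hy) with h | h | h
      · exact absurd (h ▸ hy) ha
      · simp [h]
      · simp [h]
    have := F_anti (r := r) L this
    exact core hr hL hab hac hbc hθ (by omega) (by omega) (by omega) u1 u2 u3 h6 hu

lemma two {a b c : α} {C : Finset α} (hC : ∀ y, y ∈ C ↔ y = a ∨ y = b ∨ y = c) (hab : r a b)
    (hac : r a c) : (ind r C).card ≤ 5 := by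
  have e : C = insert a {b, c} := by ext y; simp [hC]
  have := star (r := r) (x := a) (L := {b, c}) (by simp [hab, hac])
  have h2 : 2 ^ ({b, c} : Finset α).card ≤ 2 ^ 2 := Nat.pow_le_pow_right two_pos card_le_two
  rw [e]; omega

lemma caseB [PartialOrder α] (hr : ∀ x y, r x y ↔ x < y ∨ y < x) {a b c : α} {L : Finset α}
    (ab : a ≠ b) (ac : a ≠ c) (bc : b ≠ c) (hL : Ind r L) {u : ℕ} (hu : 2000 ≤ u)
    (h6 : L.card = 17 * u) (h : ∑ S ∈ ind r {a, b, c}, 2 ^ (F r L S).card = K u) : False := by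
  have hs : ∀ x y, r x y → r y x := fun x y h => (hr _ _).mpr ((hr _ _).mp h).symm
  have hi : ∀ x, ¬ r x x := fun x h => by simpa using (hr _ _).mp h
  set C : Finset α := {a, b, c} with hC'
  have hC : ∀ y, y ∈ C ↔ y = a ∨ y = b ∨ y = c := by simp [hC']
  have p1 : ∀ y, y ∈ C ↔ y = b ∨ y = a ∨ y = c := fun y => by rw [hC, or_left_comm]
  have p2 : ∀ y, y ∈ C ↔ y = a ∨ y = c ∨ y = b := fun y => by rw [hC, or_comm (a := y = b)]
  have p3 : ∀ y, y ∈ C ↔ y = c ∨ y = a ∨ y = b := fun y => by rw [p2, or_left_comm]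
  have p4 : ∀ y, y ∈ C ↔ y = b ∨ y = c ∨ y = a := fun y => by rw [p1, or_comm (a := y = a)]
  have h8 : (ind r C).card ≤ 8 :=
    (up C).trans (Nat.pow_le_pow_right two_pos (card_le_three (a := a) (b := b) (c := c)))
  obtain ⟨h5, θ, hθ, e⟩ := chain _ h8 _ (fun S _ => ⟨1, _, (one_mul _).symm, Nat.one_le_two_pow⟩)
    hu h
  have h0 : ∃ S ∈ ind r C, (F r L S).card = 0 := by
    obtain ⟨S, hS, -⟩ := exists_ne_zero_of_sum_ne_zero (e ▸ one_ne_zero)
    refine ⟨S, (mem_filter.mp hS).1, ?_⟩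
    have := single_le_sum (f := fun S => 2 ^ (F r L S).card) (fun _ _ => Nat.zero_le _) hS
    rw [e] at this
    by_contra h1
    have := Nat.one_lt_two_pow h1
    omega
  have h1 : ∀ S ∈ ind r C, ∀ T ∈ ind r C, S ≠ T → θ ≤ (F r L S).card ∨ θ ≤ (F r L T).card := by
    intro S hS T hT hne
    by_contra hc
    push Not at hc
    have := add_le_sum (f := fun S => 2 ^ (F r L S).card)
      (s := (ind r C).filter fun S => ¬ 2 ^ θ ∣ 2 ^ (F r L S).card) (fun _ _ => Nat.zero_le _)
      (mem_filter.mpr ⟨hS, by rw [Nat.pow_dvd_pow_iff_le_right one_lt_two]; omega⟩)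
      (mem_filter.mpr ⟨hT, by rw [Nat.pow_dvd_pow_iff_le_right one_lt_two]; omega⟩) hne
    rw [e] at this
    have h2 := Nat.one_le_two_pow (n := (F r L S).card)
    have h3 := Nat.one_le_two_pow (n := (F r L T).card)
    omega
  have h2 : ∀ S ∈ ind r C, S ≠ ∅ → (F r L S).card ≤ 7 * u := by
    intro S hS hne
    have := add_le_sum (f := fun S => 2 ^ (F r L S).card) (fun _ _ => Nat.zero_le _) hS
      (mem_ind.mpr ⟨empty_subset _, by simp [Ind]⟩) hne
    rw [h, F_empty, h6, K] at this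
    by_contra hc
    have d0 := dbl (show 0 < 4 * u by omega)
    have d1 := dbl (show 4 * u < 5 * u by omega)
    have d2 := dbl (show 5 * u < 6 * u by omega)
    have d3 := dbl (show 6 * u < 7 * u by omega)
    have d4 := dbl (not_le.mp hc)
    omega
  by_cases hab : r a b <;> by_cases hac : r a c <;> by_cases hbc : r b c
  · have := two hC hab hac; omega
  · have := two hC hab hac; omega
  · have := two p1 (hs _ _ hab) hbc
    omega
  · exact one hr hC ac bc hL hab hac hbc hθ h0 h1 h2 h6 (by omega)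
  · have := two p3 (hs _ _ hac)
      (hs _ _ hbc)
    omega
  · exact one hr p2 ab bc.symm hL hac hab
      (fun e => hbc (hs _ _ e)) hθ h0 h1 h2 h6 (by omega)
  · exact one hr p4 ab.symm ac.symm hL hbc
      (fun e => hab (hs _ _ e)) (fun e => hac (hs _ _ e)) hθ h0 h1 h2 h6 (by omega)
  · have ma : a ∈ C := (hC _).mpr (by simp)
    have mb : b ∈ C := (hC _).mpr (by simp)
    have mc : c ∈ C := (hC _).mpr (by simp)
    have hba : ¬ r b a := fun e => hab (hs _ _ e)
    have hca : ¬ r c a := fun e => hac (hs _ _ e)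
    have hcb : ¬ r c b := fun e => hbc (hs _ _ e)
    have iC : C ∈ ind r C := mem_ind.mpr ⟨subset_rfl, by
      simp [hC', Ind, hi, hab, hac, hbc, hba, hca, hcb]⟩
    obtain ⟨S, hS, h0⟩ := h0
    have k1 := F_anti (r := r) L (mem_ind.mp hS).1
    have k2 := h1 _ iC _ (ind2 hs hi ma mb hab) (fun e => by
      have : c ∈ ({a, b} : Finset α) := e ▸ mc
      simp [ac.symm, bc.symm] at this)
    have k3 := h1 _ iC _ (ind2 hs hi ma mc hac) (fun e => by
      have : b ∈ ({a, c} : Finset α) := e ▸ mb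
      simp [ab.symm, bc] at this)
    have k4 := h2 _ (ind1 hi ma) (singleton_ne_empty _)
    have k5 := submod (r := r) L a b c
    rw [← hC'] at k5
    omega

theorem noposet [Fintype α] [PartialOrder α] (hr : ∀ x y, r x y ↔ x < y ∨ y < x) {u : ℕ}
    (hu : 2000 ≤ u) (hn : Fintype.card α = 17 * u + 3) : (ind r univ).card ≠ K u := by
  classical
  intro h
  have hs : ∀ x y, r x y → r y x := fun x y h => (hr _ _).mpr ((hr _ _).mp h).symm
  have hi : ∀ x, ¬ r x x := fun x h => by simpa using (hr _ _).mp h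
  haveI : Nonempty α := Fintype.card_pos_iff.mp (by omega)
  set N : α → Finset α := fun x => univ.filter (r x) with hN
  set H : Finset α := univ.filter fun x => 8 ≤ (N x).card with hH
  have hK : 2 ^ (17 * u) ≤ K u := Nat.le_add_left _ _
  have split : ∀ C : Finset α, C ∪ (univ \ C) = univ := fun C =>
    union_sdiff_of_subset (subset_univ _)
  have csplit : ∀ C : Finset α, (univ \ C).card + C.card = 17 * u + 3 := fun C => by
    rw [card_sdiff_add_card_eq_card (subset_univ _), card_univ, hn]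
  by_cases hc : 2 < H.card
  · obtain ⟨a, b, c, ha, hb, hc, ab, ac, bc⟩ := two_lt_card_iff.mp hc
    have hG := G hs (disjoint_sdiff (s := ({a, b, c} : Finset α)) (t := univ))
    have h3 : ({a, b, c} : Finset α).card = 3 := card_eq_three.mpr ⟨a, b, c, ab, ac, bc, rfl⟩
    have h6 := csplit {a, b, c}
    rw [split, h] at hG
    set C : Finset α := {a, b, c} with hC'
    set L := univ \ C with hL'
    have hL : Ind r L := by
      intro x hx y hy hxy
      obtain ⟨e1, e2⟩ := edge hs hi hx hy hxy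
      have e3 := up (r := r) (L \ {x, y})
      have e4 : (∅ : Finset α) ∈ ind r C := mem_ind.mpr ⟨empty_subset _, by simp [Ind]⟩
      rw [← add_sum_erase _ _ e4, F_empty] at hG
      have e5 : ∑ S ∈ (ind r C).erase ∅, (ind r (F r L S)).card ≤
          ((ind r C).erase ∅).card • 2 ^ (17 * u - 5) := by
        refine sum_le_card_nsmul _ _ _ fun S hS => (up _).trans (Nat.pow_le_pow_right two_pos ?_)
        obtain ⟨z, hz⟩ := nonempty_iff_ne_empty.mpr (mem_erase.mp hS).1
        have z1 : z ∈ H := by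
          have := (mem_ind.mp (mem_erase.mp hS).2).1 hz
          simp only [hC', mem_insert, mem_singleton] at this
          rcases this with rfl | rfl | rfl <;> assumption
        have z2 : 8 ≤ (N z).card := (mem_filter.mp z1).2
        have z3 : F r L S ⊆ univ \ N z := fun t ht => mem_sdiff.mpr ⟨mem_univ _, fun h1 =>
          (mem_F.mp ht).2 z hz (mem_filter.mp h1).2⟩
        have := card_le_card z3
        have := csplit (N z)
        omega
      have e6 := up (r := r) C
      rw [card_erase_of_mem e4, smul_eq_mul] at e5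
      have e7 : ((ind r C).card - 1) * 2 ^ (17 * u - 5) ≤ 7 * 2 ^ (17 * u - 5) :=
        Nat.mul_le_mul_right _ (by rw [h3] at e6; omega)
      have e8 : 2 ^ (17 * u) = 32 * 2 ^ (17 * u - 5) := by
        rw [show 32 = 2 ^ 5 by norm_num, ← pow_add]; congr 1; omega
      have e9 : 2 ^ (L \ {x, y}).card = 8 * 2 ^ (17 * u - 5) := by
        rw [show 8 = 2 ^ 3 by norm_num, ← pow_add]; congr 1; omega
      have := Nat.one_le_two_pow (n := 17 * u - 5)
      omega
    refine caseB hr ab ac bc hL hu (by omega) (hG ▸ sum_congr rfl fun S _ => (free ?_).symm)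
    exact fun x hx y hy => hL x (F_sub _ _ hx) y (F_sub _ _ hy)
  · have hG := G hs (disjoint_sdiff (s := H) (t := univ))
    have hS := sub hs (disjoint_sdiff (s := H) (t := univ))
    rw [split, h] at hG hS
    have e1 := up (r := r) H
    have e2 : 2 ^ H.card ≤ 2 ^ 2 := Nat.pow_le_pow_right two_pos (by omega)
    by_cases hw : 14 * 8 ≤ (NI r (univ \ H)).card
    · have e3 := matching hs hi N (fun x y h => mem_filter.mpr ⟨mem_univ _, h⟩) 8 (univ \ H)
        (fun x hx => by
          have := (mem_sdiff.mp hx).2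
          simp only [hH, mem_filter, mem_univ, true_and] at this
          omega) hw
      have e4 : 2 ^ (univ \ H).card * 2 ^ H.card = 8 * 2 ^ (17 * u) := by
        rw [← pow_add, csplit, pow_add]; ring
      have e5 := hS.trans (Nat.mul_le_mul_right _ e1)
      have e6 := Nat.mul_le_mul_right (2 ^ H.card) e3
      have := Nat.one_le_two_pow (n := 17 * u)
      rw [mul_assoc, mul_assoc, e4, mul_comm (ind r (univ \ H)).card] at e6
      omega
    · have := (chain _ (by omega) _ (fun S _ => by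
        obtain ⟨c, e, h1, h2⟩ := form hs (F_sub (r := r) (univ \ H) S)
        exact ⟨c, e, h1, h2.trans (Nat.pow_le_pow_right two_pos (by omega))⟩) hu hG.symm).1
      omega

lemma three (hs : ∀ x y, r x y → r y x) (hi : ∀ x, ¬ r x x) {a b c : α} {L : Finset α}
    (ha : a ∉ L) (hb : b ∉ L) (hc : c ∉ L) (ac : a ≠ c) (bc : b ≠ c) (hL : Ind r L)
    (hab : r a b) (hac : ¬ r a c) (hbc : ¬ r b c) :
    (ind r (insert a (insert b (insert c L)))).card = 2 ^ L.card + 2 ^ (F r L {c}).card +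
      (2 ^ (F r L {b}).card + 2 ^ (F r L {b, c}).card) +
      (2 ^ (F r L {a}).card + 2 ^ (F r L {a, c}).card) := by
  have ab : a ≠ b := fun e => hi a (by rwa [← e] at hab)
  have hF : ∀ S, (ind r (F r L S)).card = 2 ^ (F r L S).card := fun S =>
    free fun x hx y hy => hL x (F_sub _ _ hx) y (F_sub _ _ hy)
  have e1 : F r (insert b (insert c L)) {a} = insert c (F r L {a}) := by
    ext y
    simp only [mem_F, mem_insert, mem_singleton, forall_eq]
    constructor
    · rintro ⟨rfl | rfl | h, h2⟩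
      · exact absurd hab h2
      · exact Or.inl rfl
      · exact Or.inr ⟨h, h2⟩
    · rintro (rfl | ⟨h, h2⟩)
      · exact ⟨Or.inr (Or.inl rfl), hac⟩
      · exact ⟨Or.inr (Or.inr h), h2⟩
  have e2 : F r (insert c L) {b} = insert c (F r L {b}) := by
    ext y
    simp only [mem_F, mem_insert, mem_singleton, forall_eq]
    constructor
    · rintro ⟨rfl | h, h2⟩
      · exact Or.inl rfl
      · exact Or.inr ⟨h, h2⟩
    · rintro (rfl | ⟨h, h2⟩)
      · exact ⟨Or.inl rfl, hbc⟩
      · exact ⟨Or.inr h, h2⟩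
  have e3 : ∀ x, F r (F r L {x}) {c} = F r L {x, c} := fun x => by
    ext y; simp [mem_F, and_assoc]
  rw [R hs hi (by simp [ab, ac, ha]), R hs hi (by simp [bc, hb]), R hs hi hc, e1, e2,
    R hs hi (fun h => hc (F_sub _ _ h)), R hs hi (fun h => hc (F_sub _ _ h)), e3, e3, free hL,
    hF, hF, hF, hF, hF]

def ρ (u i j : ℕ) : Prop :=
  (i = 0 ∧ j = 1) ∨ (i = 0 ∧ 3 ≤ j ∧ (j < u + 3 ∨ 8 * u + 3 ≤ j)) ∨
    (i = 1 ∧ 3 ≤ j ∧ (j < 5 * u + 3 ∨ 11 * u + 3 ≤ j)) ∨ (i = 2 ∧ 5 * u + 3 ≤ j)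

lemma cardI {n lo hi : ℕ} (h : hi ≤ n) {T : Finset (Fin n)}
    (hT : ∀ y, y ∈ T ↔ lo ≤ y.1 ∧ y.1 < hi) : T.card = hi - lo := by
  rw [← card_map Fin.valEmbedding, ← Nat.card_Ico]
  congr 1
  ext y
  simp only [mem_map, hT, Fin.valEmbedding_apply, mem_Ico]
  exact ⟨fun ⟨z, h1, h2⟩ => h2 ▸ h1, fun h1 => ⟨⟨y, by omega⟩, h1, rfl⟩⟩

omit [DecidableEq α] in
lemma forall_mem_singleton' {a : α} {p : α → Prop} : (∀ x ∈ ({a} : Finset α), p x) ↔ p a := by
  simp

theorem graph (u : ℕ) : ∃ r : Fin (17 * u + 3) → Fin (17 * u + 3) → Prop,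
    (∀ x y, r x y → r y x) ∧ (∀ x, ¬ r x x) ∧ (ind r univ).card = K u := by
  set r : Fin (17 * u + 3) → Fin (17 * u + 3) → Prop := fun x y => ρ u x y ∨ ρ u y x with hr
  have hs : ∀ x y, r x y → r y x := fun x y h => h.symm
  have hi : ∀ x, ¬ r x x := fun x h => by simp only [hr, ρ] at h; omega
  refine ⟨r, hs, hi, ?_⟩
  obtain ⟨a, ha⟩ : ∃ z : Fin (17 * u + 3), z.1 = 0 := ⟨⟨0, by omega⟩, rfl⟩
  obtain ⟨b, hb⟩ : ∃ z : Fin (17 * u + 3), z.1 = 1 := ⟨⟨1, by omega⟩, rfl⟩
  obtain ⟨c, hc⟩ : ∃ z : Fin (17 * u + 3), z.1 = 2 := ⟨⟨2, by omega⟩, rfl⟩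
  set L : Finset (Fin (17 * u + 3)) := univ.filter fun y => 3 ≤ y.1 with hL
  have mL : ∀ y, y ∈ L ↔ 3 ≤ y.1 := by simp [hL]
  have e : univ = insert a (insert b (insert c L)) := by
    ext y
    simp only [mem_univ, mem_insert, mL, Fin.ext_iff, true_iff]
    omega
  have ra : ∀ y : Fin (17 * u + 3), 3 ≤ y.1 → (¬ r a y ↔ u + 3 ≤ y.1 ∧ y.1 < 8 * u + 3) :=
    fun y hy => by
      have h1 : y.1 ≠ 0 := by omega
      have h2 : y.1 ≠ 1 := by omega
      have h3 : y.1 ≠ 2 := by omega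
      simp only [hr, ρ, ha, h1, h2, h3, hy]; simp
  have rb : ∀ y : Fin (17 * u + 3), 3 ≤ y.1 → (¬ r b y ↔ 5 * u + 3 ≤ y.1 ∧ y.1 < 11 * u + 3) :=
    fun y hy => by
      have h1 : y.1 ≠ 0 := by omega
      have h2 : y.1 ≠ 1 := by omega
      have h3 : y.1 ≠ 2 := by omega
      simp only [hr, ρ, hb, h1, h2, h3, hy]; simp
  have rc : ∀ y : Fin (17 * u + 3), 3 ≤ y.1 → (¬ r c y ↔ y.1 < 5 * u + 3) :=
    fun y hy => by
      have h1 : y.1 ≠ 0 := by omega
      have h2 : y.1 ≠ 1 := by omega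
      have h3 : y.1 ≠ 2 := by omega
      simp only [hr, ρ, hc, h1, h2, h3, hy]; simp
  have c0 : L.card = 17 * u + 3 - 3 := cardI le_rfl fun y => by simp [mL]
  have c1 : (F r L {c}).card = 5 * u + 3 - 3 := cardI (by omega) fun y => by
    rw [mem_F, mL, forall_mem_singleton', and_congr_right (rc y)]
  have c2 : (F r L {b}).card = 11 * u + 3 - (5 * u + 3) := cardI (by omega) fun y => by
    rw [mem_F, mL, forall_mem_singleton', and_congr_right (rb y)]; omega
  have c3 : (F r L {a}).card = 8 * u + 3 - (u + 3) := cardI (by omega) fun y => by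
    rw [mem_F, mL, forall_mem_singleton', and_congr_right (ra y)]; omega
  have c4 : (F r L {b, c}).card = 0 - 0 := cardI (by omega) fun y => by
    rw [mem_F, mL, forall_mem_insert, forall_mem_singleton',
      and_congr_right fun h => and_congr (rb y h) (rc y h)]; omega
  have c5 : (F r L {a, c}).card = 5 * u + 3 - (u + 3) := cardI (by omega) fun y => by
    rw [mem_F, mL, forall_mem_insert, forall_mem_singleton',
      and_congr_right fun h => and_congr (ra y h) (rc y h)]; omega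
  rw [e, three hs hi (by simp [mL, ha]) (by simp [mL, hb]) (by simp [mL, hc])
    (by simp [Fin.ext_iff, ha, hc]) (by simp [Fin.ext_iff, hb, hc]) (fun x hx y hy h => by
      simp only [hr, ρ, mL] at hx hy h; omega) (by simp only [hr, ρ]; omega)
    (by simp only [hr, ρ]; omega) (by simp only [hr, ρ]; omega), c0, c1, c2, c3, c4, c5, K,
    show 17 * u + 3 - 3 = 17 * u by omega, show 5 * u + 3 - 3 = 5 * u by omega,
    show 11 * u + 3 - (5 * u + 3) = 6 * u by omega, show 8 * u + 3 - (u + 3) = 7 * u by omega,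
    show 5 * u + 3 - (u + 3) = 4 * u by omega]
  ring

end Pool.Agent.Lib.helper22.AntC
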