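import Mathlib

set_option autoImplicit false

namespace Pool.Agent.Lib.helper22.Bard

variable {G W : Type} [Group G] [Lattice G] [MulLeftMono G] [MulRightMono G] [LinearOrder W]

def lab (c : W → G) (v w : W) : G := if v = w then c v else 1

structure Om (c : W → G) where
  g : G
  w : W
  s : Bool

variable {c : W → G}

instance : PartialOrder (Om c) where
  le x y := (x.s = y.s ∧ x.w = y.w ∧ x.g ≤ y.g) ∨
    (x.s = false ∧ y.s = true ∧ x.w ≤ y.w ∧ x.g * lab c x.w y.w ≤ y.g)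
  le_refl x := Or.inl ⟨rfl, rfl, le_rfl⟩
  le_trans := by
    rintro ⟨g, u, r⟩ ⟨h, v, s⟩ ⟨k, w, t⟩ (⟨h1, h2, h3⟩ | ⟨h1, h2, h3, h4⟩)
      (⟨h5, h6, h7⟩ | ⟨h5, h6, h7, h8⟩) <;> simp only at * <;> subst_vars
    · exact Or.inl ⟨rfl, rfl, h3.trans h7⟩
    · exact Or.inr ⟨rfl, rfl, h7, (mul_le_mul_left h3 _).trans h8⟩
    · exact Or.inr ⟨rfl, rfl, h3, h4.trans h7⟩
    · simp at h5
  le_antisymm := by
    rintro ⟨g, u, r⟩ ⟨h, v, s⟩ (⟨h1, h2, h3⟩ | ⟨h1, h2, h3, h4⟩)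
      (⟨h5, h6, h7⟩ | ⟨h5, h6, h7, h8⟩) <;> simp only at * <;> subst_vars
    · rw [le_antisymm h3 h7]
    · simp at h6
    · simp at h5
    · simp at h5

theorem le_def (x y : Om c) : x ≤ y ↔ (x.s = y.s ∧ x.w = y.w ∧ x.g ≤ y.g) ∨
    (x.s = false ∧ y.s = true ∧ x.w ≤ y.w ∧ x.g * lab c x.w y.w ≤ y.g) := Iff.rfl

theorem up_iff [NoMaxOrder W] (x : Om c) :
    (∀ y z, x ≤ y → x ≤ z → ∃ u, y ≤ u ∧ z ≤ u) ↔ x.s = true := by
  obtain ⟨g, v, s⟩ := x
  constructor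
  · intro h
    cases s with
    | true => rfl
    | false =>
      obtain ⟨w, hw⟩ := exists_gt v
      obtain ⟨u, h1, h2⟩ := h ⟨g * lab c v v, v, true⟩ ⟨g * lab c v w, w, true⟩
        (by simp [le_def]) (by simp [le_def, hw.le])
      simp only [le_def, Bool.true_eq_false, false_and, or_false] at h1 h2
      exact absurd (h1.2.1.trans h2.2.1.symm) hw.ne
  · rintro rfl ⟨h, u, r⟩ ⟨k, w, t⟩ h1 h2
    simp only [le_def, Bool.true_eq_false, false_and, or_false] at h1 h2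
    obtain ⟨rfl, rfl, -⟩ := h1
    obtain ⟨rfl, rfl, -⟩ := h2
    exact ⟨⟨h ⊔ k, v, true⟩, by simp [le_def], by simp [le_def]⟩

theorem side [NoMaxOrder W] (φ : Om c ≃o Om c) (x : Om c) : (φ x).s = x.s := by
  rw [Bool.eq_iff_iff, ← up_iff, ← up_iff]
  constructor
  · intro h y z hy hz
    obtain ⟨u, h1, h2⟩ := h (φ y) (φ z) (φ.monotone hy) (φ.monotone hz)
    exact ⟨φ.symm u, φ.le_symm_apply.2 h1, φ.le_symm_apply.2 h2⟩
  · intro h y z hy hz
    obtain ⟨u, h1, h2⟩ := h (φ.symm y) (φ.symm z) (φ.le_symm_apply.2 hy) (φ.le_symm_apply.2 hz)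
    exact ⟨φ u, φ.symm_apply_le.1 h1, φ.symm_apply_le.1 h2⟩

theorem layer [NoMaxOrder W] (φ : Om c ≃o Om c) (g : G) (w : W) (s : Bool) :
    (φ ⟨g, w, s⟩).w = (φ ⟨1, w, s⟩).w := by
  have key : ∀ g h : G, g ≤ h → (φ ⟨g, w, s⟩).w = (φ ⟨h, w, s⟩).w := by
    intro g h hgh
    have : φ ⟨g, w, s⟩ ≤ φ ⟨h, w, s⟩ := φ.monotone (Or.inl ⟨rfl, rfl, hgh⟩)
    rcases this with h1 | h1
    · exact h1.2.1
    · rw [side, side] at h1
      exact absurd (h1.1.symm.trans h1.2.1) (by simp)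
  exact (key _ _ le_sup_left).trans (key _ _ le_sup_right).symm

theorem edge [NoMaxOrder W] (φ : Om c ≃o Om c) (v w : W) (h : v ≤ w) :
    (φ ⟨1, v, false⟩).w ≤ (φ ⟨1, w, true⟩).w := by
  have : φ ⟨1, v, false⟩ ≤ φ ⟨lab c v w, w, true⟩ := φ.monotone (by simp [le_def, h])
  rcases this with h1 | h1
  · rw [side, side] at h1
    exact absurd h1.1 (by simp)
  · rw [← layer φ (lab c v w) w true]
    exact h1.2.2.1

theorem back [NoMaxOrder W] (φ : Om c ≃o Om c) (w : W) (s : Bool) :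
    (φ.symm ⟨1, (φ ⟨1, w, s⟩).w, s⟩).w = w := by
  rw [← layer φ.symm (φ ⟨1, w, s⟩).g]
  have : (⟨(φ ⟨1, w, s⟩).g, (φ ⟨1, w, s⟩).w, s⟩ : Om c) = φ ⟨1, w, s⟩ := by
    have := side φ ⟨1, w, s⟩
    generalize φ ⟨1, w, s⟩ = y at this ⊢
    cases y
    simp_all
  rw [this, φ.symm_apply_apply]

theorem edge_iff [NoMaxOrder W] (φ : Om c ≃o Om c) (v w : W) :
    (φ ⟨1, v, false⟩).w ≤ (φ ⟨1, w, true⟩).w ↔ v ≤ w :=
  ⟨fun h => by simpa only [back] using edge φ.symm _ _ h, edge φ v w⟩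

theorem fix [NoMaxOrder W] [WellFoundedLT W] (φ : Om c ≃o Om c) (x : Om c) : (φ x).w = x.w := by
  have key : ∀ (φ : Om c ≃o Om c) (w : W), w ≤ (φ ⟨1, w, true⟩).w := by
    intro φ w
    have : StrictMono fun w => (φ ⟨1, w, true⟩).w := fun a b hab =>
      (not_le.1 fun h => hab.not_ge ((edge_iff φ b a).1 h)).trans_le (edge φ b b le_rfl)
    exact this.le_apply
  have k2 : ∀ w, (φ ⟨1, w, true⟩).w = w := fun w =>
    le_antisymm (by simpa only [back] using key φ.symm (φ ⟨1, w, true⟩).w) (key φ w)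
  obtain ⟨g, w, s⟩ := x
  rw [layer]
  cases s with
  | true => exact k2 w
  | false => exact eq_of_forall_ge_iff fun u => by rw [← edge_iff φ w u, k2]

theorem main [NoMaxOrder W] [WellFoundedLT W] (hc : ∀ g, ∃ v w, v < w ∧ c w = g)
    (φ : Om c ≃o Om c) : ∃ a : G, ∀ x : Om c, φ x = ⟨a * x.g, x.w, x.s⟩ := by
  have form : ∀ (φ : Om c ≃o Om c) (x : Om c), φ x = ⟨(φ x).g, x.w, x.s⟩ := by
    intro φ x
    rw [← fix φ x, ← side φ x]
  have key : ∀ g v w, v ≤ w → (φ ⟨g * lab c v w, w, true⟩).g = (φ ⟨g, v, false⟩).g * lab c v w := by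
    intro g v w h
    refine eq_of_forall_ge_iff fun k => ?_
    have e1 : φ ⟨g * lab c v w, w, true⟩ ≤ ⟨k, w, true⟩ ↔ φ ⟨g, v, false⟩ ≤ ⟨k, w, true⟩ := by
      rw [← φ.le_symm_apply, ← φ.le_symm_apply, form φ.symm]
      simp [le_def, h]
    rw [form φ ⟨_, w, true⟩, form φ ⟨_, v, false⟩] at e1
    simpa [le_def, h] using e1
  have k1 : ∀ g v w, v < w → (φ ⟨g, w, true⟩).g = (φ ⟨g, v, false⟩).g := by
    intro g v w h
    simpa [lab, h.ne] using key g v w h.le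
  have k2 : ∀ g v w, (φ ⟨g, v, false⟩).g = (φ ⟨g, w, false⟩).g := by
    intro g v w
    obtain ⟨u, hu⟩ := exists_gt (max v w)
    rw [← k1 g v u ((le_max_left _ _).trans_lt hu), k1 g w u ((le_max_right _ _).trans_lt hu)]
  obtain ⟨v0, -⟩ := hc 1
  have k3 : ∀ g v, (φ ⟨g, v, false⟩).g = (φ ⟨1, v0, false⟩).g * g := by
    intro g v
    obtain ⟨u, w, huw, rfl⟩ := hc g
    have := key 1 w w le_rfl
    simp only [lab, if_true, one_mul] at this
    rw [k2 _ v u, ← k1 _ u w huw, this, k2 1 w v0]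
  refine ⟨(φ ⟨1, v0, false⟩).g, fun ⟨g, w, s⟩ => ?_⟩
  rw [form φ]
  cases s with
  | false => rw [k3]
  | true =>
    have := key (g * (lab c w w)⁻¹) w w le_rfl
    rw [inv_mul_cancel_right, k3, mul_assoc, inv_mul_cancel_right] at this
    rw [this]

def act (c : W → G) (a : G) : Om c ≃o Om c where
  toFun x := ⟨a * x.g, x.w, x.s⟩
  invFun x := ⟨a⁻¹ * x.g, x.w, x.s⟩
  left_inv x := by simp
  right_inv x := by simp
  map_rel_iff' := by
    intro x y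
    simp [le_def, mul_assoc]

theorem final [NoMaxOrder W] [WellFoundedLT W] (c : W → G) (hc : ∀ g, ∃ v w, v < w ∧ c w = g) :
    ∃ (Ω : Type) (_ : PartialOrder Ω) (φ : G → (Ω ≃o Ω)),
      Function.Bijective φ ∧ (∀ a b : G, φ (a * b) = (φ b).trans (φ a)) ∧
      (∀ a b : G, a ≤ b ↔ ∀ x : Ω, φ a x ≤ φ b x) := by
  obtain ⟨v0, -⟩ := hc 1
  refine ⟨Om c, inferInstance, act c, ⟨fun a b h => ?_, fun φ => ?_⟩, fun a b => ?_, fun a b => ?_⟩
  · simpa [act] using congrArg (fun ψ : Om c ≃o Om c => (ψ ⟨1, v0, false⟩).g) h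
  · obtain ⟨a, ha⟩ := main hc φ
    exact ⟨a, OrderIso.ext (funext fun x => (ha x).symm)⟩
  · exact OrderIso.ext (funext fun x => by simp [act, mul_assoc])
  · refine ⟨fun h x => Or.inl ⟨rfl, rfl, mul_le_mul_left h _⟩, fun h => ?_⟩
    simpa [act, le_def] using h ⟨1, v0, false⟩

theorem exists_W (G : Type) : ∃ (W : Type) (_ : LinearOrder W) (_ : NoMaxOrder W)
    (_ : WellFoundedLT W) (c : W → G), ∀ g, ∃ v w, v < w ∧ c w = g := by
  obtain ⟨i1, i2⟩ := exists_wellFoundedLT (α := G)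
  exact ⟨Lex (G × ℕ), inferInstance,
    ⟨fun x => ⟨toLex ((ofLex x).1, (ofLex x).2 + 1), Prod.Lex.right _ (Nat.lt_succ_self _)⟩⟩,
    inferInstance, fun w => (ofLex w).1,
    fun g => ⟨toLex (g, 0), toLex (g, 1), Prod.Lex.right _ one_pos, rfl⟩⟩

end Pool.Agent.Lib.helper22.Bard
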