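import Mathlib

set_option autoImplicit false
open Set

namespace Pool.Agent.Lib.helper22.Bj

variable {L : Type} [CompleteLattice L]

def InF (a : L) (E : Set L) (F : L) : Prop := a ≤ F ∧ F ≤ a ⊔ sSup {p | p ∈ E ∧ p ≤ F}

inductive Flag (t : L) : L → Set L → Prop
  | base {F : L} : F ⋖ t → Flag t F {F}
  | step {F G : L} {m : Set L} : F ⋖ G → Flag t G m → Flag t F (insert F m)

theorem Flag.mem {t F : L} {m : Set L} (h : Flag t F m) : F ∈ m := by
  cases h <;> simp

theorem Flag.bd {t F : L} {m : Set L} (h : Flag t F m) : ∀ y ∈ m, F ≤ y ∧ y < t := by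
  induction h with
  | base h => rintro y rfl; exact ⟨le_rfl, h.lt⟩
  | step h h' ih =>
    rintro y (rfl | hy)
    · exact ⟨le_rfl, h.lt.trans (ih _ h'.mem).2⟩
    · exact ⟨h.le.trans (ih y hy).1, (ih y hy).2⟩

theorem Flag.chain {t F : L} {m : Set L} (h : Flag t F m) : IsChain (· ≤ ·) m := by
  induction h with
  | base h => exact IsChain.singleton
  | step h h' ih => exact ih.insert fun y hy _ => Or.inl (h.le.trans (h'.bd y hy).1)

theorem Flag.finite {t F : L} {m : Set L} (h : Flag t F m) : m.Finite := by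
  induction h with
  | base h => exact finite_singleton _
  | step h h' ih => exact ih.insert _

theorem Flag.max {t F : L} {m : Set L} (h : Flag t F m) :
    ∀ y, F ≤ y → y < t → (∀ z ∈ m, y ≤ z ∨ z ≤ y) → y ∈ m := by
  induction h with
  | base h =>
    intro y h1 h2 _
    rcases h.eq_or_eq h1 h2.le with h3 | h3
    · exact h3
    · exact absurd h3 h2.ne
  | step h h' ih =>
    intro y h1 h2 h3
    rcases h3 _ (Or.inr h'.mem) with h4 | h4
    · rcases h.eq_or_eq h1 h4 with h5 | h5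
      · exact Or.inl h5
      · exact Or.inr (h5 ▸ h'.mem)
    · exact Or.inr (ih y h4 h2 fun z hz => h3 z (Or.inr hz))

theorem InF.mono {a F : L} {E E' : Set L} (h : InF a E F) (hE : E ⊆ E') : InF a E' F :=
  ⟨h.1, h.2.trans (sup_le_sup_left (sSup_le_sSup fun _ hp => And.intro (hE hp.1) hp.2) _)⟩

theorem InF.le {a F G : L} {E : Set L} (h : InF a E F) (ha : a ≤ G)
    (hG : ∀ p ∈ E, p ≤ F → p ≤ G) : F ≤ G :=
  h.2.trans (sup_le ha (sSup_le fun p hp => hG p hp.1 hp.2))

theorem InF.sup {a F p : L} {E : Set L} (h : InF a E F) (hp : p ∈ E) : InF a E (F ⊔ p) :=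
  ⟨h.1.trans le_sup_left, sup_le (h.le le_sup_left fun _ hq hF =>
    le_sup_of_le_right (le_sSup ⟨hq, hF.trans le_sup_left⟩))
    (le_sup_of_le_right (le_sSup ⟨hp, le_sup_right⟩))⟩

theorem InF.base (a : L) (E : Set L) : InF a E a := ⟨le_rfl, le_sup_left⟩

theorem InF.top (a : L) (E : Set L) : InF a E (a ⊔ sSup E) :=
  ⟨le_sup_left, sup_le_sup_left (sSup_le_sSup fun _ hp =>
    And.intro hp ((le_sSup hp).trans le_sup_right)) _⟩

theorem cov [IsUpperModularLattice L] {a p b : L} (hp : a ⋖ p) (hb : a ≤ b) (hn : ¬ p ≤ b) :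
    b ⋖ b ⊔ p := by
  refine covBy_sup_of_inf_covBy_right ?_
  rcases hp.eq_or_eq (le_inf hb hp.le) inf_le_right with h | h
  · rw [h]; exact hp
  · exact absurd (h ▸ inf_le_left) hn

theorem pt_eq {a p q : L} (hp : a ⋖ p) (hq : a ⋖ q) (h : p ≤ q) : p = q := by
  rcases hq.eq_or_eq hp.le h with h | h
  · exact absurd h hp.ne'
  · exact h

open Classical in
noncomputable def gs (E : Finset L) (w : L → ℚ) (F : L) : ℚ := ∑ p ∈ E with p ≤ F, w p

open Classical in
noncomputable def Cov (E : Finset L) (b G : L) : Finset L :=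
  (E.filter fun p => p ≤ G ∧ ¬ p ≤ b).image (b ⊔ ·)

theorem mem_Cov {E : Finset L} {b G c : L} :
    c ∈ Cov E b G ↔ ∃ p ∈ E, p ≤ G ∧ ¬ p ≤ b ∧ b ⊔ p = c := by
  simp [Cov, and_assoc]

theorem sumcov [IsUpperModularLattice L] {a : L} {E : Finset L} (hE : ∀ p ∈ E, a ⋖ p) (w : L → ℚ)
    {b G : L} (hb : a ≤ b) (hG : b ≤ G) :
    gs E w G - gs E w b = ∑ c ∈ Cov E b G, (gs E w c - gs E w b) := by
  classical
  have h1 : ∀ F, b ≤ F → gs E w F - gs E w b = ∑ p ∈ E with (p ≤ F ∧ ¬ p ≤ b), w p := by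
    intro F hF
    simp only [gs, Finset.sum_filter]
    rw [← Finset.sum_sub_distrib]
    refine Finset.sum_congr rfl fun p _ => ?_
    by_cases h : p ≤ b
    · simp [h, h.trans hF]
    · simp [h]
  rw [h1 G hG, ← Finset.sum_fiberwise_of_maps_to (t := Cov E b G) (g := (b ⊔ ·))
    (fun p hp => mem_Cov.2 ⟨p, (Finset.mem_filter.1 hp).1, (Finset.mem_filter.1 hp).2.1,
      (Finset.mem_filter.1 hp).2.2, rfl⟩)]
  refine Finset.sum_congr rfl fun c hc => ?_
  obtain ⟨q, hq, q1, q2, rfl⟩ := mem_Cov.1 hc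
  rw [h1 _ le_sup_left, Finset.filter_filter]
  refine Finset.sum_congr (Finset.filter_congr fun p hp => ?_) fun _ _ => rfl
  constructor
  · rintro ⟨⟨-, h2⟩, h3⟩
    exact ⟨h3 ▸ le_sup_right, h2⟩
  · rintro ⟨h2, h3⟩
    refine ⟨⟨h2.trans (sup_le hG q1), h3⟩, ?_⟩
    exact pt_eq (cov (hE p hp) hb h3) (cov (hE q hq) hb q2) (sup_le le_sup_left h2)

theorem greene_aux [IsUpperModularLattice L] [WellFoundedGT L] {a : L} {E : Finset L}
    (hE : ∀ p ∈ E, a ⋖ p) (w : L → ℚ) {G : L} (hG : InF a E G) (c : ℚ)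
    (hc : ∀ F, InF a E F → F ⋖ G → gs E w F = c) (b : L) :
    InF a E b → b < G → ¬ b ⋖ G → (gs E w b < c → c < gs E w G) ∧ (c < gs E w b → gs E w G < c) ∧
      (gs E w b = c → gs E w G = c) := by
  induction b using WellFoundedGT.induction with
  | ind b ih =>
  intro hb hbG hn
  have hs := sumcov hE w hb.1 hbG.le
  have h1 : ∀ d ∈ Cov E b G, gs E w d = c ∨ ((gs E w d < c → c < gs E w G) ∧
      (c < gs E w d → gs E w G < c) ∧ (gs E w d = c → gs E w G = c)) := by
    intro d hd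
    obtain ⟨p, hp, p1, p2, rfl⟩ := mem_Cov.1 hd
    have h2 := cov (hE p hp) hb.1 p2
    by_cases h3 : b ⊔ p ⋖ G
    · exact Or.inl (hc _ (hb.sup hp) h3)
    · refine Or.inr (ih _ h2.lt (hb.sup hp) (lt_of_le_of_ne (sup_le hbG.le p1) ?_) h3)
      intro h
      exact hn (h ▸ h2)
  have h2 : 2 ≤ (Cov E b G).card := by
    by_contra hlt
    have hsub := Finset.card_le_one.1 (Nat.lt_succ_iff.1 (not_le.1 hlt))
    have : ∃ p ∈ E, p ≤ G ∧ ¬ p ≤ b := by
      by_contra hne
      push Not at hne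
      exact hbG.not_ge (hG.le hb.1 hne)
    obtain ⟨p, hp, p1, p2⟩ := this
    have : G ≤ b ⊔ p := hG.le (hb.1.trans le_sup_left) fun q hq q1 => by
      by_cases q2 : q ≤ b
      · exact q2.trans le_sup_left
      · rw [hsub _ (mem_Cov.2 ⟨p, hp, p1, p2, rfl⟩) _ (mem_Cov.2 ⟨q, hq, q1, q2, rfl⟩)]
        exact le_sup_right
    exact hn (le_antisymm (sup_le hbG.le p1) this ▸ cov (hE p hp) hb.1 p2)
  have h2' : (2 : ℚ) ≤ (Cov E b G).card := by exact_mod_cast h2
  have lo : gs E w G ≤ c → ((Cov E b G).card : ℚ) * (c - gs E w b) ≤ gs E w G - gs E w b := by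
    intro h
    rw [hs, ← nsmul_eq_mul]
    refine Finset.card_nsmul_le_sum _ _ _ fun d hd => sub_le_sub_right ?_ _
    rcases h1 d hd with h3 | h3
    · exact h3.ge
    · exact not_lt.1 fun h4 => absurd (h3.1 h4) (not_lt.2 h)
  have hi : c ≤ gs E w G → gs E w G - gs E w b ≤ ((Cov E b G).card : ℚ) * (c - gs E w b) := by
    intro h
    rw [hs, ← nsmul_eq_mul]
    refine Finset.sum_le_card_nsmul _ _ _ fun d hd => sub_le_sub_right ?_ _
    rcases h1 d hd with h3 | h3
    · exact h3.le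
    · exact not_lt.1 fun h4 => absurd (h3.2.1 h4) (not_lt.2 h)
  refine ⟨fun h => ?_, fun h => ?_, fun h => ?_⟩
  · by_contra h'
    have := lo (not_lt.1 h')
    nlinarith
  · by_contra h'
    have := hi (not_lt.1 h')
    nlinarith
  · rcases le_total (gs E w G) c with h' | h'
    · have := lo h'
      rw [h] at this
      linarith
    · have := hi h'
      rw [h] at this
      linarith

theorem gs_pt {a : L} {E : Finset L} (hE : ∀ p ∈ E, a ⋖ p) (w : L → ℚ) {p : L} (hp : p ∈ E) :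
    gs E w p = w p := by
  classical
  unfold gs
  rw [Finset.sum_eq_single p]
  · intro q hq hne
    exact absurd (pt_eq (hE q (Finset.mem_filter.1 hq).1) (hE p hp) (Finset.mem_filter.1 hq).2) hne
  · intro h
    exact absurd (by simpa using hp) h

theorem greene [IsUpperModularLattice L] [WellFoundedGT L] {a : L} {E : Finset L}
    (hE : ∀ p ∈ E, a ⋖ p) (w : L → ℚ) {G : L} (hG : InF a E G) (haG : a < G) (hn : ¬ a ⋖ G)
    (hc : ∀ F, InF a E F → F ⋖ G → gs E w F = 0) : gs E w G = 0 ∧ ∀ p ∈ E, p ≤ G → w p = 0 := by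
  classical
  have h0 : gs E w a = 0 := Finset.sum_eq_zero fun p hp =>
    absurd (Finset.mem_filter.1 hp).2 (hE p (Finset.mem_filter.1 hp).1).lt.not_ge
  have h1 := (greene_aux hE w hG 0 hc a (InF.base _ _) haG hn).2.2 h0
  refine ⟨h1, fun p hp hpG => ?_⟩
  rw [← gs_pt hE w hp]
  have hF : InF a E p := by
    have := (InF.base a (E : Set L)).sup hp
    rwa [sup_eq_right.2 (hE p hp).le] at this
  by_cases h : p ⋖ G
  · exact hc p hF h
  · have := greene_aux hE w hG 0 hc p hF (lt_of_le_of_ne hpG fun e => hn (e ▸ hE p hp)) h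
    rcases lt_trichotomy (gs E w p) 0 with h3 | h3 | h3
    · exact absurd (this.1 h3) (by rw [h1]; exact lt_irrefl _)
    · exact h3
    · exact absurd (this.2.1 h3) (by rw [h1]; exact lt_irrefl _)

def Goal (a : L) (E : Set L) : Prop :=
  ∃ ch : L → Set L, (∀ p ∈ E, Flag (a ⊔ sSup E) p (ch p) ∧ ∀ y ∈ ch p, InF a E y) ∧
    ∀ p ∈ E, ∀ q ∈ E, p ≠ q → Disjoint (ch p) (ch q)

theorem fin_case [IsUpperModularLattice L] [WellFoundedGT L] (ρ : L → ℕ) (hρ : StrictMono ρ)
    {a : L} {E : Finset L} (hE : ∀ p ∈ E, a ⋖ p) (ht : ∀ p ∈ E, p ≠ a ⊔ sSup (E : Set L)) :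
    Goal a (E : Set L) := by
  classical
  set t := a ⊔ sSup (E : Set L) with ht'
  rcases E.eq_empty_or_nonempty with rfl | ⟨p₀, hp₀⟩
  · exact ⟨fun _ => ∅, by simp, by simp⟩
  have hpt : ∀ p ∈ E, p ≤ t := fun p hp => (le_sSup (Finset.mem_coe.2 hp)).trans le_sup_right
  have hnt : ¬ a ⋖ t := fun h => h.2 (hE p₀ hp₀).lt (lt_of_le_of_ne (hpt p₀ hp₀) (ht p₀ hp₀))
  let Sep : Finset L → Prop := fun B => ∀ w : L → ℚ, (∀ F ∈ B, gs E w F = 0) → ∀ p ∈ E, w p = 0
  let Inv : Finset L × (L → Set L) → Prop := fun s =>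
    (∀ F ∈ s.1, InF a E F ∧ a < F ∧ Flag t F (s.2 F) ∧ ∀ y ∈ s.2 F, InF a E y) ∧
    (∀ F ∈ s.1, ∀ F' ∈ s.1, F ≠ F' → Disjoint (s.2 F) (s.2 F')) ∧
    (∀ F ∈ s.1, ∀ F' ∈ s.1, ∀ y ∈ s.2 F', y ≠ F' → ¬ y < F) ∧ Sep s.1
  have hfin : {F | InF a E F ∧ F ⋖ t}.Finite := by
    refine ((E.finite_toSet.powerset).image fun S => a ⊔ sSup S).subset ?_
    rintro F ⟨hF, -⟩
    exact ⟨{p | p ∈ (E : Set L) ∧ p ≤ F}, fun p hp => hp.1,
      le_antisymm (sup_le hF.1 (sSup_le fun p hp => hp.2)) hF.2⟩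
  have h0 : Inv (hfin.toFinset, fun F => {F}) := by
    refine ⟨fun F hF => ?_, fun F _ F' _ h => disjoint_singleton.2 h, fun F _ F' _ y hy h =>
      absurd hy h, fun w hw p hp => ?_⟩
    · obtain ⟨h1, h2⟩ := hfin.mem_toFinset.1 hF
      exact ⟨h1, lt_of_le_of_ne h1.1 fun e => hnt (e ▸ h2), Flag.base h2, by rintro y rfl; exact h1⟩
    · exact (greene hE w (InF.top a E) ((hE p hp).lt.trans_le (hpt p hp)) hnt
        fun F h1 h2 => hw F (hfin.mem_toFinset.2 ⟨h1, h2⟩)).2 p hp (hpt p hp)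
  obtain ⟨⟨B, ch⟩, ⟨i1, i2, i3, i4⟩, hmin⟩ := (measure fun s : Finset L × (L → Set L) =>
    ∑ F ∈ s.1, (ρ F + 1)).wf.has_min {s | Inv s} ⟨_, h0⟩
  simp only at i1 i2 i3 i4
  have hmin' : ∀ s, Inv s → ¬ ∑ F ∈ s.1, (ρ F + 1) < ∑ F ∈ B, (ρ F + 1) := hmin
  have hall : ∀ F ∈ B, a ⋖ F := by
    by_contra hne
    push Not at hne
    obtain ⟨F₀, hF₀, hF₀'⟩ := hne
    obtain ⟨G, hG⟩ := (B.filter fun F => ¬ a ⋖ F).exists_maximal
      ⟨F₀, Finset.mem_filter.2 ⟨hF₀, hF₀'⟩⟩
    obtain ⟨hGB, hGn⟩ := Finset.mem_filter.1 hG.1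
    have hGmax : ∀ F ∈ B, ¬ G < F := fun F hF h => by
      by_cases h' : a ⋖ F
      · exact h'.2 (i1 G hGB).2.1 h
      · exact h.not_ge (hG.2 (Finset.mem_filter.2 ⟨hF, h'⟩) h.le)
    have hsum : ∑ F ∈ B.erase G, (ρ F + 1) + (ρ G + 1) = ∑ F ∈ B, (ρ F + 1) :=
      Finset.sum_erase_add _ _ hGB
    have me : ∀ F ∈ B.erase G, F ∈ B := fun F h => Finset.mem_of_mem_erase h
    by_cases hs : Sep (B.erase G)
    · refine hmin' (B.erase G, ch) ⟨fun F h => i1 F (me F h), fun F h F' h' => i2 F (me F h) F'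
        (me F' h'), fun F h F' h' => i3 F (me F h) F' (me F' h'), hs⟩ ?_
      simp only
      omega
    · simp only [Sep] at hs
      push Not at hs
      obtain ⟨w₀, w1, p₁, hp₁, w2⟩ := hs
      have w3 : gs E w₀ G ≠ 0 := fun h => w2 (i4 w₀ (fun F hF => by
        by_cases e : F = G
        · rw [e]; exact h
        · exact w1 F (Finset.mem_erase.2 ⟨e, hF⟩)) p₁ hp₁)
      have : ∃ F, InF a E F ∧ F ⋖ G ∧ gs E w₀ F ≠ 0 := by
        by_contra hne
        push Not at hne
        exact w3 (greene hE w₀ (i1 G hGB).1 (i1 G hGB).2.1 hGn hne).1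
      obtain ⟨F, f1, f2, f3⟩ := this
      have f4 : F ∉ B.erase G := fun h => f3 (w1 F h)
      have up : ∀ F' ∈ B.erase G, Function.update ch F (insert F (ch G)) F' = ch F' :=
        fun F' h => Function.update_of_ne (fun e : F' = F => f4 (e ▸ h)) _ _
      have dj : ∀ F' ∈ B.erase G, Disjoint (insert F (ch G)) (ch F') := fun F' h => by
        rw [Set.disjoint_left]
        rintro y (rfl | hy) hy'
        · exact i3 G hGB F' (me F' h) y hy' (fun e => f4 (e ▸ h)) f2.lt
        · exact Set.disjoint_left.1 (i2 G hGB F' (me F' h) (Finset.ne_of_mem_erase h).symm) hy hy'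
      refine hmin' (insert F (B.erase G), Function.update ch F (insert F (ch G)))
        ⟨fun F' h => ?_, fun F' h F'' h' hne => ?_, fun F' h F'' h' y hy hne hlt => ?_,
          fun w hw => ?_⟩ ?_
      · rcases Finset.mem_insert.1 h with rfl | h
        · simp only [Function.update_self]
          refine ⟨f1, lt_of_le_of_ne f1.1 fun e => hGn (e ▸ f2), Flag.step f2 (i1 G hGB).2.2.1, ?_⟩
          rintro y (rfl | hy)
          · exact f1
          · exact (i1 G hGB).2.2.2 y hy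
        · simp only [up F' h]
          exact i1 F' (me F' h)
      · rcases Finset.mem_insert.1 h with k | k <;> rcases Finset.mem_insert.1 h' with k' | k'
        · exact absurd (k.trans k'.symm) hne
        · simp only [k, Function.update_self, up F'' k']
          exact dj F'' k'
        · simp only [k', Function.update_self, up F' k]
          exact (dj F' k).symm
        · simp only [up F' k, up F'' k']
          exact i2 F' (me F' k) F'' (me F'' k') hne
      · have : ∃ F₁ ∈ B, y < F₁ := by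
          rcases Finset.mem_insert.1 h with rfl | h
          · exact ⟨G, hGB, hlt.trans f2.lt⟩
          · exact ⟨F', me F' h, hlt⟩
        obtain ⟨F₁, g1, g2⟩ := this
        rcases Finset.mem_insert.1 h' with rfl | h'
        · simp only [Function.update_self] at hy
          rcases hy with rfl | hy
          · exact hne rfl
          · by_cases e : y = G
            · exact hGmax F₁ g1 (e ▸ g2)
            · exact i3 F₁ g1 G hGB y hy e g2
        · simp only [up F'' h'] at hy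
          exact i3 F₁ g1 F'' (me F'' h') y hy hne g2
      · have lin : ∀ (k : ℚ) (X : L), gs E (fun p => w p - k * w₀ p) X = gs E w X - k * gs E w₀ X :=
          fun k X => by simp only [gs, Finset.sum_sub_distrib, Finset.mul_sum]
        set k := gs E w G / gs E w₀ G with hk
        have z1 := i4 (fun p => w p - k * w₀ p) fun X hX => by
          rw [lin]
          by_cases e : X = G
          · rw [e, hk, div_mul_cancel₀ _ w3, sub_self]
          · rw [hw X (Finset.mem_insert_of_mem (Finset.mem_erase.2 ⟨e, hX⟩)),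
              w1 X (Finset.mem_erase.2 ⟨e, hX⟩)]
            ring
        have z2 : gs E (fun p => w p - k * w₀ p) F = 0 :=
          Finset.sum_eq_zero fun p hp => z1 p (Finset.mem_filter.1 hp).1
        rw [lin, hw F (Finset.mem_insert_self _ _), zero_sub, neg_eq_zero, mul_eq_zero] at z2
        have z3 : k = 0 := z2.resolve_right f3
        intro p hp
        have := z1 p hp
        simpa [z3] using this
      · simp only
        rw [Finset.sum_insert f4]
        have := hρ f2.lt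
        omega
  have hin : ∀ p ∈ E, p ∈ B := fun p hp => by
    by_contra hn
    have := i4 (fun q => if q = p then 1 else 0) (fun F hF => Finset.sum_eq_zero fun q hq => by
      rw [if_neg]
      rintro rfl
      exact hn (pt_eq (hE q hp) (hall F hF) (Finset.mem_filter.1 hq).2 ▸ hF)) p hp
    simp at this
  exact ⟨ch, fun p hp => (i1 p (hin p hp)).2.2, fun p hp q hq => i2 p (hin p hp) q (hin q hq)⟩

end Pool.Agent.Lib.helper22.Bj
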