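import Mathlib

set_option autoImplicit false
open Cardinal Set Order

namespace Pool.Agent.Lib.helper22.Riv

theorem rec_ex {ι X : Type} [LinearOrder ι] [WellFoundedLT ι] (F : ι → Set X → X) :
    ∃ g : ι → X, ∀ a, g a = F a (g '' Iio a) := by
  let g : ι → X := WellFounded.fix (wellFounded_lt (α := ι))
    (fun a rec => F a (range fun b : Iio a => rec b.1 b.2))
  refine ⟨g, fun a => ?_⟩
  have : g a = F a (range fun b : Iio a => g b.1) := WellFounded.fix_eq _ _ _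
  rw [this, image_eq_range]

theorem small_order (ι : Type) : ∃ (_ : LinearOrder ι) (_ : WellFoundedLT ι),
    ∀ a : ι, #(Iio a) < #ι := by
  obtain ⟨l, w, h⟩ := exists_ord_eq_type_lt ι
  exact ⟨l, w, fun a => mk_Iio_lt a h⟩

theorem bU_le {α β : Type} {s : Set α} {t : α → Set β} {c : Cardinal} (hc : ℵ₀ ≤ c)
    (hs : #s ≤ c) (ht : ∀ a ∈ s, #(t a) ≤ c) : #(⋃ a ∈ s, t a) ≤ c := by
  have := (card_biUnion_lt_iff_forall_of_isRegular (t := fun a _ => t a) (isRegular_succ hc)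
    (lt_succ_of_le hs)).2 fun a ha => lt_succ_of_le (ht a ha)
  exact lt_succ_iff.1 this

theorem bU_lt {α β : Type} {s : Set α} {t : α → Set β} {c : Cardinal} (hc : c.IsRegular)
    (hs : #s < c) (ht : ∀ a ∈ s, #(t a) < c) : #(⋃ a ∈ s, t a) < c :=
  (card_biUnion_lt_iff_forall_of_isRegular (t := fun a _ => t a) hc hs).2 ht

theorem U_le {β : Type} {s t : Set β} {c : Cardinal} (hc : ℵ₀ ≤ c)
    (hs : #s ≤ c) (ht : #t ≤ c) : #(s ∪ t : Set β) ≤ c :=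
  (mk_union_le s t).trans (add_le_of_le hc hs ht)

theorem U_lt {β : Type} {s t : Set β} {c : Cardinal} (hc : ℵ₀ ≤ c)
    (hs : #s < c) (ht : #t < c) : #(s ∪ t : Set β) < c :=
  (mk_union_le s t).trans_lt (add_lt_of_lt hc hs ht)

theorem closure_ex {X : Type} {c : Cardinal} (hc : ℵ₀ ≤ c) (F : X → Set X) (hF : ∀ x, #(F x) ≤ c)
    (Z₀ : Set X) (h₀ : #Z₀ ≤ c) : ∃ Z : Set X, Z₀ ⊆ Z ∧ #Z ≤ c ∧ ∀ x ∈ Z, F x ⊆ Z := by
  let Z : ℕ → Set X := fun n => Nat.rec Z₀ (fun _ Y => ⋃ x ∈ Y, F x) n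
  have hZ : ∀ n, #(↥(Z n)) ≤ c := by
    intro n
    induction n with
    | zero => exact h₀
    | succ n ih => exact bU_le hc ih fun a _ => hF a
  refine ⟨⋃ n ∈ (univ : Set ℕ), Z n, ?_, bU_le hc (by simpa using hc) fun n _ => hZ n, ?_⟩
  · exact fun x hx => mem_biUnion (mem_univ 0) hx
  · intro x hx y hy
    simp only [mem_iUnion] at hx
    obtain ⟨n, -, hn⟩ := hx
    exact mem_biUnion (mem_univ (n + 1)) (mem_biUnion hn hy)

theorem idx_ex (X : Type) : ∃ idx : Set X → X → Cardinal.{0},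
    (∀ Y : Set X, ∀ y ∈ Y, idx Y y < #Y) ∧ ∀ (Y : Set X) (c : Cardinal), ℵ₀ ≤ c →
      #{y | y ∈ Y ∧ idx Y y < c} ≤ c := by
  classical
  have : ∀ Y : Set X, ∃ f : X → Cardinal.{0}, (∀ y ∈ Y, f y < #Y) ∧ ∀ c : Cardinal, ℵ₀ ≤ c →
      #{y | y ∈ Y ∧ f y < c} ≤ c := by
    intro Y
    obtain ⟨l, w, h⟩ := small_order Y
    refine ⟨fun y => if hy : y ∈ Y then #(Iio (⟨y, hy⟩ : Y)) else 0, fun y hy => by
      simpa [hy] using h _, fun c hc => ?_⟩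
    have e : {y | y ∈ Y ∧ (if hy : y ∈ Y then #(Iio (⟨y, hy⟩ : Y)) else 0) < c} =
        Subtype.val '' {y : Y | #(Iio y) < c} := by
      ext y
      constructor
      · rintro ⟨hy, h2⟩
        exact ⟨⟨y, hy⟩, by simpa [hy] using h2, rfl⟩
      · rintro ⟨⟨y, hy⟩, h2, rfl⟩
        exact ⟨hy, by simpa [hy] using h2⟩
    rw [e]
    refine mk_image_le.trans ?_
    by_contra hlt
    push Not at hlt
    obtain ⟨T, hT, hTc⟩ := le_mk_iff_exists_subset.1 (succ_le_of_lt hlt)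
    -- T has size succ c; some element of T has at least c predecessors
    have hsm : ∀ y ∈ T, #(Iic y) ≤ c := fun y hy => by
      rw [← Iio_insert]
      exact (mk_insert_le).trans (add_le_of_le hc (le_of_lt (hT hy)) (one_le_aleph0.trans hc))
    obtain ⟨T', hT', hT'c⟩ := le_mk_iff_exists_subset.1 ((le_succ c).trans hTc.ge)
    have h1 : #(⋃ y ∈ T', Iic y) ≤ c := bU_le hc hT'c.le fun y hy => hsm y (hT' hy)
    have h2 : ¬ T ⊆ ⋃ y ∈ T', Iic y := fun hs =>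
      absurd ((hTc.ge.trans (mk_le_mk_of_subset hs)).trans h1) (not_le.2 (lt_succ c))
    obtain ⟨z, hz, hz'⟩ := not_subset.1 h2
    have h3 : T' ⊆ Iio z := fun y hy => by
      by_contra hn
      exact hz' (mem_biUnion hy (not_lt.1 hn))
    exact absurd (hT'c.ge.trans (mk_le_mk_of_subset h3)) (not_le.2 (hT hz))
  choose f hf using this
  exact ⟨f, fun Y => (hf Y).1, fun Y => (hf Y).2⟩

theorem sing_ex {μ : Cardinal.{0}} (h0 : ℵ₀ ≤ μ) (hμ : ¬ μ.IsRegular) :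
    ∃ (ι : Type) (_ : LinearOrder ι) (_ : WellFoundedLT ι) (m : ι → Cardinal.{0}),
      #ι < μ ∧ (∀ a, m a < μ) ∧ (∀ a, ⨆ b : Iio a, m b.1 < μ) ∧ ∀ c < μ, ∃ a, c ≤ m a := by
  obtain ⟨ι, f, hf, hι⟩ := Ordinal.exists_lsub_cof μ.ord
  obtain ⟨l, w, h⟩ := small_order ι
  have hm : ∀ a, (f a).card < μ := fun a => by
    rw [← lt_ord, ← hf]; exact Ordinal.lt_lsub f a
  refine ⟨ι, l, w, fun a => (f a).card, ?_, hm, fun a => ?_, fun c hc => ?_⟩
  · rw [hι]; exact (IsSingular.of_not_isRegular h0 hμ).cof_ord_lt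
  · exact iSup_lt_of_lt_cof_ord (hι ▸ h a) fun b => hm b
  · have : c.ord < Ordinal.lsub f := by rw [hf]; exact ord_lt_ord.2 hc
    obtain ⟨a, ha⟩ := Ordinal.lt_lsub_iff.1 this
    exact ⟨a, ord_le.1 ha⟩

section Ksys
variable {P : Type} [PartialOrder P]

def Up (A : Cardinal.{0} → Set P) : Cardinal.{0} → Set P :=
  fun i => {x | ∃ j, i ≤ j ∧ j.IsRegular ∧ j ≤ #(Ioi x ∩ A j : Set P)}

def Dn (A : Cardinal.{0} → Set P) : Cardinal.{0} → Set P :=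
  fun i => {x | ∃ j, i ≤ j ∧ j.IsRegular ∧ j ≤ #(Iio x ∩ A j : Set P)}

theorem Up_mono {A A' : Cardinal.{0} → Set P} (h : A ≤ A') : Up A ≤ Up A' := by
  rintro i x ⟨j, h1, h2, h3⟩
  exact ⟨j, h1, h2, h3.trans (mk_le_mk_of_subset (inter_subset_inter_right _ (h j)))⟩

theorem Dn_mono {A A' : Cardinal.{0} → Set P} (h : A ≤ A') : Dn A ≤ Dn A' := by
  rintro i x ⟨j, h1, h2, h3⟩
  exact ⟨j, h1, h2, h3.trans (mk_le_mk_of_subset (inter_subset_inter_right _ (h j)))⟩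

theorem Ksys [WellFoundedLT P] [WellFoundedGT P] : ∃ K : Cardinal.{0} → Set P,
    (∀ x i j, x ∈ K i → i ≤ j → j.IsRegular → #({y | x ≤ y ∨ y ≤ x} ∩ K j : Set P) < j) ∧
    (∀ x i, x ∉ K i → ∃ j, i ≤ j ∧ j.IsRegular ∧ j ≤ #({y | x ≤ y ∨ y ≤ x} ∩ K j : Set P)) := by
  let φ : (Cardinal.{0} → Set P) →o (Cardinal.{0} → Set P) :=
    ⟨fun A => (Dn (Up A)ᶜ)ᶜ, fun A A' h =>
      compl_le_compl (Dn_mono (compl_le_compl (Up_mono h)))⟩
  let A := φ.lfp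
  let B := (Up A)ᶜ
  have hA : A = (Dn B)ᶜ := φ.map_lfp.symm
  have mA : ∀ i x, x ∈ A i ↔ x ∉ Dn B i := fun i x => by
    constructor
    · intro h; rw [hA] at h; exact h
    · intro h; rw [hA]; exact h
  have mB : ∀ i x, x ∈ B i ↔ x ∉ Up A i := fun i x => Iff.rfl
  refine ⟨fun i => A i ∩ B i, fun x i j hx hij hj => ?_, fun x i hx => ?_⟩
  · have h1 : #(Ioi x ∩ A j : Set P) < j := by
      by_contra h
      exact (mB i x).1 hx.2 ⟨j, hij, hj, not_lt.1 h⟩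
    have h2 : #(Iio x ∩ B j : Set P) < j := by
      by_contra h
      exact (mA i x).1 hx.1 ⟨j, hij, hj, not_lt.1 h⟩
    have h3 : #({x} : Set P) < j := by
      rw [mk_singleton]; exact one_lt_aleph0.trans_le hj.1
    refine lt_of_le_of_lt (mk_le_mk_of_subset ?_) (U_lt hj.1 h3 (U_lt hj.1 h1 h2))
    rintro y ⟨hy | hy, ha, hb⟩
    · rcases hy.eq_or_lt with h | h
      · exact Or.inl h.symm
      · exact Or.inr (Or.inl ⟨h, ha⟩)
    · rcases hy.eq_or_lt with h | h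
      · exact Or.inl h
      · exact Or.inr (Or.inr ⟨h, hb⟩)
  · by_cases hb : x ∈ B i
    · have ha : x ∈ Dn B i := by
        by_contra h
        exact hx ⟨(mA i x).2 h, hb⟩
      obtain ⟨y, ⟨hyx, j, h1, h2, h3⟩, hmin⟩ :=
        (wellFounded_lt (α := P)).has_min {y | y ≤ x ∧ y ∈ Dn B i} ⟨x, le_rfl, ha⟩
      refine ⟨j, h1, h2, h3.trans (mk_le_mk_of_subset ?_)⟩
      rintro z ⟨hz, hzB⟩
      refine ⟨Or.inr (hz.le.trans hyx), (mA j z).2 ?_, hzB⟩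
      rintro ⟨j', g1, g2, g3⟩
      exact hmin z ⟨hz.le.trans hyx, j', h1.trans g1, g2, g3⟩ hz
    · have ha : x ∈ Up A i := by
        by_contra h
        exact hb h
      obtain ⟨y, ⟨hyx, j, h1, h2, h3⟩, hmin⟩ :=
        (wellFounded_gt (α := P)).has_min {y | x ≤ y ∧ y ∈ Up A i} ⟨x, le_rfl, ha⟩
      refine ⟨j, h1, h2, h3.trans (mk_le_mk_of_subset ?_)⟩
      rintro z ⟨hz, hzA⟩
      refine ⟨Or.inl (hyx.trans hz.le), hzA, (mB j z).2 ?_⟩
      rintro ⟨j', g1, g2, g3⟩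
      exact hmin z ⟨hyx.trans hz.le, j', h1.trans g1, g2, g3⟩ hz

end Ksys

end Pool.Agent.Lib.helper22.Riv
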