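import Mathlib
import Pool.Agent.Lib.helper22.BjA
import Pool.Agent.Lib.helper22.RivA

set_option autoImplicit false
open Set Cardinal

namespace Pool.Agent.Lib.helper22.Bj

open Pool.Agent.Lib.helper22.Riv

variable {L : Type} [CompleteLattice L]

theorem two_pts {a x y l : L} (hx : a ⋖ x) (hy : a ⋖ y) (hne : x ≠ y) (h1 : x ⋖ l) (h2 : y ≤ l) :
    x ⊔ y = l := by
  rcases h1.eq_or_eq le_sup_left (sup_le h1.le h2) with h | h
  · exact absurd (pt_eq hy hx (h ▸ le_sup_right)).symm hne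
  · exact h

theorem line_cov [IsUpperModularLattice L] {a x y l : L} (hx : a ⋖ x) (hy : a ⋖ y) (h1 : x ⋖ l)
    (h2 : y ≤ l) : y ⋖ l := by
  by_cases h : x = y
  · exact h ▸ h1
  · rw [← two_pts hx hy h h1 h2, sup_comm]
    exact cov hx hy.le fun e => h (pt_eq hx hy e)

theorem longline [IsUpperModularLattice L] [WellFoundedGT L] {a l : L} {E : Set L}
    (hE : ∀ p ∈ E, a ⋖ p) (hl : ∀ x ∈ E, x ≤ l → x ⋖ l) (hlt : l ≤ a ⊔ sSup E) (u : L) :
    ∀ W, l ⊔ W = u → InF a {p | p ∈ E ∧ ¬ p ≤ l} W → (∀ x ∈ E, x ≤ l → ¬ l ≤ x ⊔ W) →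
      ∃ 𝒲 : Set L, (∀ W' ∈ 𝒲, InF a {p | p ∈ E ∧ ¬ p ≤ l} W' ∧ ∀ x ∈ E, x ≤ l → ¬ l ≤ x ⊔ W') ∧
        ∀ x ∈ E, x ≤ l → Flag (a ⊔ sSup E) (x ⊔ W) ((x ⊔ ·) '' 𝒲) := by
  induction u using WellFoundedGT.induction with
  | ind u ih =>
  rintro W rfl hW hx
  by_cases h : ∀ p ∈ E, p ≤ l ⊔ W
  · have e : a ⊔ sSup E = l ⊔ W := le_antisymm (sup_le (hW.1.trans le_sup_right) (sSup_le h))
      (sup_le hlt (hW.le le_sup_left fun p hp _ => le_sup_of_le_right (le_sSup hp.1)))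
    refine ⟨{W}, by rintro _ rfl; exact ⟨hW, hx⟩, fun x hxE hxl => ?_⟩
    rw [image_singleton, e]
    refine Flag.base ?_
    have := cov (hl x hxE hxl) (le_sup_left (b := W)) (hx x hxE hxl)
    rwa [sup_right_comm, sup_eq_right.2 hxl] at this
  · push Not at h
    obtain ⟨y, hy, hy2⟩ := h
    have c : ∀ x ∈ E, x ≤ l → x ⊔ W ⋖ x ⊔ (W ⊔ y) := fun x hxE hxl => by
      rw [← sup_assoc]
      exact cov (hE y hy) (hW.1.trans le_sup_right) fun e =>
        hy2 (e.trans (sup_le_sup_right hxl _))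
    obtain ⟨𝒲, w1, w2⟩ := ih (l ⊔ (W ⊔ y)) (lt_of_le_of_ne (sup_le_sup_left le_sup_left _)
      fun e => hy2 (e ▸ le_sup_of_le_right le_sup_right)) (W ⊔ y) rfl
      (hW.sup ⟨hy, fun e => hy2 (e.trans le_sup_left)⟩) fun x hxE hxl e => by
        rcases (c x hxE hxl).eq_or_eq (sup_le_sup_right hxl W)
          (sup_le e (le_sup_of_le_right le_sup_left)) with h | h
        · exact hx x hxE hxl (h ▸ le_sup_left)
        · exact hy2 (h ▸ le_sup_of_le_right le_sup_right)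
    refine ⟨insert W 𝒲, ?_, fun x hxE hxl => ?_⟩
    · rintro W' (rfl | h)
      · exact ⟨hW, hx⟩
      · exact w1 W' h
    · rw [image_insert_eq]
      exact Flag.step (c x hxE hxl) (w2 x hxE hxl)

theorem fin_bU_lt {α β : Type} {s : Set α} {t : α → Set β} {c : Cardinal} (hc : ℵ₀ ≤ c)
    (hs : #s < c) (ht : ∀ a ∈ s, (t a).Finite) : #(⋃ a ∈ s, t a) < c := by
  by_cases h : s.Finite
  · exact (h.biUnion ht).lt_aleph0.trans_le hc
  · have h1 : ℵ₀ ≤ #s := by
      rw [← infinite_iff]; exact Set.Infinite.to_subtype h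
    exact (bU_le h1 le_rfl fun a ha => (ht a ha).lt_aleph0.le.trans h1).trans_lt hs

theorem InF_card [WellFoundedGT L] {a : L} {Y : Set L} {c : Cardinal} (hc : ℵ₀ ≤ c) (hY : #Y < c) :
    #{F | InF a Y F} < c := by
  classical
  have h1 : #(Finset Y) < c := by
    by_cases h : Y.Finite
    · haveI := h.fintype
      exact (lt_aleph0_of_finite _).trans_le hc
    · haveI := Set.Infinite.to_subtype h
      rwa [mk_finset_of_infinite]
  refine lt_of_le_of_lt ?_ (mk_range_le (f := fun S : Finset Y => a ⊔ S.sup Subtype.val) |>.trans_lt h1)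
  refine mk_le_mk_of_subset fun F hF => ?_
  obtain ⟨S, s1, s2⟩ := CompleteLattice.WellFoundedGT.isSupFiniteCompact L {p | p ∈ Y ∧ p ≤ F}
  refine ⟨S.subtype (· ∈ Y), le_antisymm (sup_le hF.1 (Finset.sup_le fun p hp =>
    (s1 (Finset.mem_subtype.1 hp)).2)) (hF.2.trans (sup_le_sup_left ?_ _))⟩
  rw [s2]
  exact Finset.sup_le fun p hp =>
    Finset.le_sup (f := Subtype.val) (b := ⟨p, (s1 hp).1⟩) (Finset.mem_subtype.2 hp)

theorem greedy {X : Type} (E : Set X) (M : X → Set X → Prop)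
    (hf : ∀ x m, M x m → m.Finite) (hc : ℵ₀ ≤ #E) (N : Set X) (U : Set X) (hU : U.Finite)
    (hN : N ⊆ E) (h : ∀ x ∈ N, ∀ V : Set X, #V < #E → ∃ m, M x m ∧ Disjoint m V) :
    ∃ f : X → Set X, (∀ x ∈ N, M x (f x) ∧ Disjoint (f x) U) ∧
      ∀ x ∈ N, ∀ y ∈ N, x ≠ y → Disjoint (f x) (f y) := by
  classical
  obtain ⟨ι, l, w, e, hw⟩ : ∃ (ι : Type) (_ : LinearOrder ι) (_ : WellFoundedLT ι)
      (_ : ι ≃ N), ∀ a : ι, #(Iio a) < #N := by
    obtain ⟨l, w, hw⟩ := small_order N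
    exact ⟨N, l, w, Equiv.refl _, hw⟩
  obtain ⟨g, hg⟩ := rec_ex (ι := ι) (X := Set X) fun i 𝒢 =>
    Classical.epsilon fun m => M (e i) m ∧ Disjoint m (U ∪ ⋃₀ 𝒢)
  have key : ∀ i, M (e i) (g i) ∧ Disjoint (g i) (U ∪ ⋃₀ (g '' Iio i)) := by
    intro i
    induction i using WellFoundedLT.induction with
    | ind i ih =>
      rw [hg i]
      refine Classical.epsilon_spec (h _ (e i).2 _ (U_lt hc (hU.lt_aleph0.trans_le hc) ?_))
      rw [sUnion_image]
      exact fin_bU_lt hc ((hw i).trans_le (mk_le_mk_of_subset hN)) fun j hj => hf _ _ (ih j hj).1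
  have dj : ∀ i j, j < i → Disjoint (g i) (g j) := fun i j hij =>
    (key i).2.mono_right (subset_union_of_subset_right (subset_sUnion_of_mem (mem_image_of_mem g (mem_Iio.2 hij))) _)
  refine ⟨fun x => if hx : x ∈ N then g (e.symm ⟨x, hx⟩) else ∅, fun x hx => ?_,
    fun x hx y hy hne => ?_⟩
  · simp only [dif_pos hx]
    have := key (e.symm ⟨x, hx⟩)
    rw [e.apply_symm_apply] at this
    exact ⟨this.1, this.2.mono_right subset_union_left⟩
  · simp only [dif_pos hx, dif_pos hy]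
    rcases lt_trichotomy (e.symm ⟨x, hx⟩) (e.symm ⟨y, hy⟩) with h | h | h
    · exact (dj _ _ h).symm
    · exact absurd (congrArg Subtype.val (e.symm.injective h)) hne
    · exact dj _ _ h

theorem main [IsUpperModularLattice L] [WellFoundedGT L] (ρ : L → ℕ) (hρ : StrictMono ρ) (a : L) :
    ∀ (κ : Cardinal) (E : Set L), #E = κ → (∀ p ∈ E, a ⋖ p) → (∀ p ∈ E, p ≠ a ⊔ sSup E) →
      Goal a E := by
  classical
  induction a using WellFoundedGT.induction with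
  | ind a iha =>
  intro κ
  induction κ using WellFoundedLT.induction with
  | ind κ ihκ =>
  rintro E rfl hE ht
  by_cases hfin : E.Finite
  · have := fin_case ρ hρ (a := a) (E := hfin.toFinset) (by simpa using hE) (by simpa using ht)
    simpa using this
  have hc : ℵ₀ ≤ #E := by
    rw [← infinite_iff]; exact Set.Infinite.to_subtype hfin
  set t := a ⊔ sSup E with ht'
  have hpt : ∀ p ∈ E, p ≤ t := fun p hp => (le_sSup hp).trans le_sup_right
  have hF : ∀ p ∈ E, InF a E p := fun p hp => by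
    have := (InF.base a E).sup hp
    rwa [sup_eq_right.2 (hE p hp).le] at this
  by_cases hA : ∃ x ∈ E, x ⋖ t
  · obtain ⟨x, hx, hx2⟩ := hA
    exact ⟨fun p => {p}, fun p hp => ⟨Flag.base (line_cov (hE x hx) (hE p hp) hx2 (hpt p hp)),
      by rintro _ rfl; exact hF _ hp⟩, fun p _ q _ h => disjoint_singleton.2 h⟩
  push Not at hA
  let C : L → Set L := fun x => (x ⊔ ·) '' (E \ {x})
  have c1 : ∀ x ∈ E, ∀ q ∈ C x, x ⋖ q := by
    rintro x hx _ ⟨p, ⟨hp, hne⟩, rfl⟩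
    exact cov (hE p hp) (hE x hx).le fun e => hne (pt_eq (hE p hp) (hE x hx) e)
  have c2 : ∀ x ∈ E, x ⊔ sSup (C x) = t := fun x hx => by
    refine le_antisymm (sup_le (hpt x hx) (sSup_le ?_)) (sup_le ((hE x hx).le.trans le_sup_left)
      (sSup_le fun p hp => ?_))
    · rintro _ ⟨p, hp, rfl⟩
      exact sup_le (hpt x hx) (hpt p hp.1)
    · by_cases e : p = x
      · exact e ▸ le_sup_left
      · exact le_sup_of_le_right (le_sup_right.trans (le_sSup ⟨p, ⟨hp, e⟩, rfl⟩))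
  have c3 : ∀ x ∈ E, ∀ F, InF x (C x) F → InF a E F := fun x hx F h =>
    ⟨(hE x hx).le.trans h.1, h.le (le_sup_of_le_right (le_sSup ⟨hx, h.1⟩)) (by
      rintro _ ⟨p, hp, rfl⟩ h2
      exact le_sup_of_le_right (sup_le (le_sSup ⟨hx, h.1⟩)
        (le_sSup ⟨hp.1, le_sup_right.trans h2⟩)))⟩
  by_cases hB : {x | x ∈ E ∧ #(C x) < #E}.Subsingleton
  · have ig : ∀ x ∈ E, Goal x (C x) := fun x hx =>
      iha x (hE x hx).lt _ (C x) rfl (c1 x hx) fun q hq e => hA x hx (c2 x hx ▸ e ▸ c1 x hx q hq)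
    let M : L → Set L → Prop := fun x m => (∃ q, x ⋖ q ∧ Flag t q m) ∧ ∀ y ∈ m, InF a E y
    have m0 : ∀ x ∈ E, ∃ m, M x m := fun x hx => by
      obtain ⟨ch, h1, -⟩ := ig x hx
      have : (C x).Nonempty := by
        by_contra hn
        rw [not_nonempty_iff_eq_empty] at hn
        have := c2 x hx
        rw [hn, sSup_empty, sup_bot_eq] at this
        exact ht x hx this
      obtain ⟨q, hq⟩ := this
      exact ⟨ch q, ⟨q, c1 x hx q hq, c2 x hx ▸ (h1 q hq).1⟩, fun y hy => c3 x hx y ((h1 q hq).2 y hy)⟩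
    choose! d hd using m0
    have mf : ∀ x m, M x m → m.Finite := fun x m ⟨⟨_, _, h⟩, _⟩ => h.finite
    obtain ⟨f, f1, f2⟩ := greedy E M mf hc {x | x ∈ E ∧ ¬ #(C x) < #E}
      (⋃ x ∈ {x | x ∈ E ∧ #(C x) < #E}, d x) (hB.finite.biUnion fun x hx => mf x _ (hd x hx.1))
      (fun x hx => hx.1) (by
        rintro x ⟨hx, hx2⟩ V hV
        obtain ⟨ch, h1, h2⟩ := ig x hx
        have : ∃ q ∈ C x, Disjoint (ch q) V := by
          by_contra hn
          push Not at hn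
          simp only [Set.not_disjoint_iff] at hn
          choose! v hv using hn
          refine hx2 (lt_of_le_of_lt (mk_le_of_injective
            (f := fun q : C x => (⟨v q.1, (hv q.1 q.2).2⟩ : V)) fun q q' e => ?_) hV)
          by_contra hne
          have e' : v q.1 = v q'.1 := congrArg Subtype.val e
          exact Set.disjoint_left.1 (h2 q.1 q.2 q'.1 q'.2 fun e => hne (Subtype.ext e))
            (hv q.1 q.2).1 (e' ▸ (hv q'.1 q'.2).1)
        obtain ⟨q, hq, hq2⟩ := this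
        exact ⟨ch q, ⟨⟨q, c1 x hx q hq, c2 x hx ▸ (h1 q hq).1⟩,
          fun y hy => c3 x hx y ((h1 q hq).2 y hy)⟩, hq2⟩)
    let k : L → Set L := fun x => if #(C x) < #E then d x else f x
    have k1 : ∀ x ∈ E, M x (k x) := fun x hx => by
      by_cases h : #(C x) < #E
      · simp only [k, if_pos h]; exact hd x hx
      · simp only [k, if_neg h]; exact (f1 x ⟨hx, h⟩).1
    have k2 : ∀ x ∈ E, ∀ y ∈ E, x ≠ y → Disjoint (k x) (k y) := fun x hx y hy hne => by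
      by_cases h : #(C x) < #E <;> by_cases h' : #(C y) < #E
      · exact absurd (hB ⟨hx, h⟩ ⟨hy, h'⟩) hne
      · simp only [k, if_pos h, if_neg h']
        exact ((f1 y ⟨hy, h'⟩).2.mono_right (subset_biUnion_of_mem (u := d) (And.intro hx h))).symm
      · simp only [k, if_neg h, if_pos h']
        exact (f1 x ⟨hx, h⟩).2.mono_right (subset_biUnion_of_mem (u := d) (And.intro hy h'))
      · simp only [k, if_neg h, if_neg h']
        exact f2 x ⟨hx, h⟩ y ⟨hy, h'⟩ hne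
    have k3 : ∀ x ∈ E, ∀ y ∈ E, x ∉ k y := fun x hx y hy h => by
      obtain ⟨⟨q, q1, q2⟩, -⟩ := k1 y hy
      exact (hE x hx).2 (hE y hy).lt (q1.lt.trans_le (q2.bd x h).1)
    refine ⟨fun x => insert x (k x), fun x hx => ?_, fun x hx y hy hne => ?_⟩
    · obtain ⟨⟨q, q1, q2⟩, q3⟩ := k1 x hx
      refine ⟨Flag.step q1 q2, ?_⟩
      rintro y (rfl | hy)
      · exact hF _ hx
      · exact q3 y hy
    · rw [Set.disjoint_left]
      rintro z (rfl | hz) (e | hz')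
      · exact hne e
      · exact k3 _ hx y hy hz'
      · exact k3 y hy x hx (e ▸ hz)
      · exact Set.disjoint_left.1 (k2 x hx y hy hne) hz hz'
  · rw [not_subsingleton_iff] at hB
    obtain ⟨x₁, ⟨h1, h1'⟩, x₂, ⟨h2, h2'⟩, hne⟩ := hB
    set l := x₁ ⊔ x₂ with hl'
    have hl1 : x₁ ⋖ l := c1 x₁ h1 _ ⟨x₂, ⟨h2, hne.symm⟩, rfl⟩
    have hl : ∀ x ∈ E, x ≤ l → x ⋖ l := fun x hx h => line_cov (hE _ h1) (hE x hx) hl1 h
    have tp : ∀ x ∈ E, ∀ y ∈ E, x ≤ l → y ≤ l → x ≠ y → ∀ F, x ≤ F → y ≤ F → l ≤ F :=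
      fun x hx y hy a1 a2 a3 F a4 a5 =>
        two_pts (hE x hx) (hE y hy) a3 (hl x hx a1) a2 ▸ sup_le a4 a5
    set Y := {p | p ∈ E ∧ ¬ p ≤ l} with hY'
    have hY : #Y < #E := by
      refine lt_of_le_of_lt (mk_le_of_injective (f := fun p : Y =>
        ((⟨x₁ ⊔ p.1, p.1, ⟨p.2.1, fun e => p.2.2 (e ▸ le_sup_left)⟩, rfl⟩ : C x₁),
         (⟨x₂ ⊔ p.1, p.1, ⟨p.2.1, fun e => p.2.2 (e ▸ le_sup_right)⟩, rfl⟩ : C x₂))) ?_) ?_
      · rintro ⟨p, hp, hp2⟩ ⟨q, hq, hq2⟩ e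
        have e1 : x₁ ⊔ p = x₁ ⊔ q := congrArg (fun z : C x₁ × C x₂ => z.1.1) e
        have e2 : x₂ ⊔ p = x₂ ⊔ q := congrArg (fun z : C x₁ × C x₂ => z.2.1) e
        by_contra hn
        have hn' : p ≠ q := fun e => hn (Subtype.ext e)
        have g : ∀ x ∈ E, x ≤ l → x ⊔ p = x ⊔ q → p ⊔ q = x ⊔ p := fun x hx hxl e =>
          two_pts (hE p hp) (hE q hq) hn' (sup_comm p x ▸ cov (hE x hx) (hE p hp).le fun e' =>
            hp2 (pt_eq (hE x hx) (hE p hp) e' ▸ hxl)) (e ▸ le_sup_right)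
        have g1 := g x₁ h1 le_sup_left e1
        have g2 := g x₂ h2 le_sup_right e2
        have g3 : l ≤ x₁ ⊔ p := sup_le le_sup_left (g1 ▸ g2 ▸ le_sup_left)
        have g4 : x₁ ⋖ x₁ ⊔ p := c1 x₁ h1 _ ⟨p, ⟨hp, fun e => hp2 (e ▸ le_sup_left)⟩, rfl⟩
        exact hp2 (pt_eq hl1 g4 g3 ▸ le_sup_right)
      · simp only [mk_prod, lift_id]
        exact mul_lt_of_lt hc h1' h2'
    let Bad : Set L := {x | x ∈ E ∧ x ≤ l ∧ ∃ F, InF a Y F ∧ ¬ l ≤ F ∧ x ≤ F}
    have hBad : #Bad < #E := by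
      have : ∀ x ∈ Bad, ∃ F, InF a Y F ∧ ¬ l ≤ F ∧ x ≤ F := fun x hx => hx.2.2
      choose! Φ hΦ using this
      refine lt_of_le_of_lt (mk_le_of_injective
        (f := fun x : Bad => (⟨Φ x.1, (hΦ x.1 x.2).1⟩ : {F | InF a Y F})) fun x y e => ?_)
        (InF_card hc hY)
      by_contra hn
      have e' : Φ x.1 = Φ y.1 := congrArg Subtype.val e
      exact (hΦ x.1 x.2).2.1 (tp x.1 x.2.1 y.1 y.2.1 x.2.2.1 y.2.2.1 (fun e => hn (Subtype.ext e))
        _ (hΦ x.1 x.2).2.2 (e' ▸ (hΦ y.1 y.2).2.2))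
    let E' : Set L := Y ∪ ({x₁, x₂} ∪ Bad)
    have hE' : E' ⊆ E := by
      rintro p (hp | (rfl | rfl) | hp)
      · exact hp.1
      · exact h1
      · exact h2
      · exact hp.1
    have ht2 : a ⊔ sSup E' = t := by
      refine le_antisymm (sup_le_sup_left (sSup_le_sSup hE') _) (sup_le le_sup_left
        (sSup_le fun p hp => le_sup_of_le_right ?_))
      by_cases h : p ≤ l
      · exact h.trans (sup_le (le_sSup (Or.inr (Or.inl (Or.inl rfl))))
          (le_sSup (Or.inr (Or.inl (Or.inr rfl)))))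
      · exact le_sSup (Or.inl ⟨hp, h⟩)
    obtain ⟨ch, g1, g2⟩ := ihκ _ (U_lt hc hY (U_lt hc
      ((toFinite ({x₁, x₂} : Set L)).lt_aleph0.trans_le hc) hBad)) E' rfl
      (fun p hp => hE p (hE' hp)) fun p hp => ht2 ▸ ht p (hE' hp)
    rw [ht2] at g1
    obtain ⟨𝒲, w1, w2⟩ := longline hE hl (sup_le (hpt _ h1) (hpt _ h2)) _ a rfl (InF.base _ _)
      fun x hx hxl e => (hl x hx hxl).lt.not_ge (e.trans (sup_le le_rfl (hE x hx).le))
    have nl : ∀ x ∈ E, x ∉ E' → x ≤ l := fun x hx h => by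
      by_contra h'
      exact h (Or.inl ⟨hx, h'⟩)
    have dj : ∀ x ∈ E, x ∉ E' → ∀ p ∈ E', Disjoint ((x ⊔ ·) '' 𝒲) (ch p) := by
      intro x hx hx' p hp
      rw [Set.disjoint_left]
      rintro _ ⟨W, hW, rfl⟩ h
      have a1 := (g1 p hp).2 _ h
      have a2 := (w1 W hW).2 x hx (nl x hx hx')
      refine hx' (Or.inr (Or.inr ⟨hx, nl x hx hx', x ⊔ W, ⟨a1.1, a1.le le_sup_left fun q hq hq2 =>
        le_sup_of_le_right (le_sSup ⟨⟨hE' hq, fun e => ?_⟩, hq2⟩)⟩, a2, le_sup_left⟩))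
      exact a2 (tp x hx q (hE' hq) (nl x hx hx') e (fun e' => hx' (e' ▸ hq)) _ le_sup_left hq2)
    refine ⟨fun x => if x ∈ E' then ch x else (x ⊔ ·) '' 𝒲, fun x hx => ?_,
      fun x hx y hy hne => ?_⟩
    · by_cases h : x ∈ E'
      · simp only [if_pos h]
        exact ⟨(g1 x h).1, fun y hy => ((g1 x h).2 y hy).mono hE'⟩
      · simp only [if_neg h]
        have := w2 x hx (nl x hx h)
        rw [sup_eq_left.2 (hE x hx).le] at this
        refine ⟨this, ?_⟩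
        rintro _ ⟨W, hW, rfl⟩
        have := ((w1 W hW).1.mono fun p hp => hp.1).sup hx
        rwa [sup_comm] at this
    · by_cases h : x ∈ E' <;> by_cases h' : y ∈ E'
      · simp only [if_pos h, if_pos h']
        exact g2 x h y h' hne
      · simp only [if_pos h, if_neg h']
        exact (dj y hy h' x h).symm
      · simp only [if_neg h, if_pos h']
        exact dj x hx h y h'
      · simp only [if_neg h, if_neg h']
        rw [Set.disjoint_left]
        rintro _ ⟨W, hW, rfl⟩ ⟨W', -, e⟩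
        exact (w1 W hW).2 x hx (nl x hx h) (tp x hx y hy (nl x hx h) (nl y hy h') hne _
          le_sup_left (le_sup_left.trans (le_of_eq e)))

end Pool.Agent.Lib.helper22.Bj
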