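import Mathlib

set_option autoImplicit false

namespace Pool.Agent.Lib.helper22.Bu

open Set

/-- Abstract packaging of a piecewise distance-preserving doubling. -/
theorem pack {E : Type} [MetricSpace E] (X : Set E) (hX : IsCompact X)
    {ι : Type} [Fintype ι] [Nonempty ι] (K : ι → ℕ → Set E) (hK : ∀ i k, IsClosed (K i k))
    (hKX : ∀ i k, K i k ⊆ X) (hcov : ∀ x ∈ X, ∃ i k, x ∈ K i k)
    (φ : Bool → ι → ℕ → E → E) (hmap : ∀ e i k, MapsTo (φ e i k) (K i k) X)
    (hiso : ∀ e i k l, ∀ x ∈ K i k, ∀ y ∈ K i l, dist (φ e i k x) (φ e i l y) = dist x y)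
    (hdisj : ∀ e i k e' i' l, ∀ x ∈ K i k, ∀ y ∈ K i' l,
      φ e i k x = φ e' i' l y → e = e' ∧ i = i')
    [MeasurableSpace X] [BorelSpace X] :
    ∃ (n m : ℕ) (A C : Fin n → Set X) (B D : Fin m → Set X)
          (f : Fin n → X → X) (g : Fin m → X → X),
        1 ≤ n ∧ 1 ≤ m ∧
        (∀ i j : Fin n, i ≠ j → Disjoint (A i) (A j)) ∧
        (∀ i j : Fin m, i ≠ j → Disjoint (B i) (B j)) ∧
        (∀ (i : Fin n) (j : Fin m), Disjoint (A i) (B j)) ∧
        (∀ i : Fin n, MeasurableSet (A i)) ∧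
        (∀ j : Fin m, MeasurableSet (B j)) ∧
        (∀ i : Fin n, Set.BijOn (f i) (A i) (C i) ∧
          ∀ x ∈ A i, ∀ y ∈ A i, dist (f i x) (f i y) = dist x y) ∧
        (∀ j : Fin m, Set.BijOn (g j) (B j) (D j) ∧
          ∀ x ∈ B j, ∀ y ∈ B j, dist (g j x) (g j y) = dist x y) ∧
        (⋃ i, C i) = Set.univ ∧
        (⋃ j, D j) = Set.univ := by
  classical
  let A : Bool → ι → Set X := fun e i => {z | ∃ k, ∃ x ∈ K i k, φ e i k x = z.1}
  let C : ι → Set X := fun i => {z | ∃ k, z.1 ∈ K i k}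
  have hex : ∀ e i (z : X), ∃ w : X, z ∈ A e i → ∃ k, w.1 ∈ K i k ∧ φ e i k w.1 = z.1 := by
    intro e i z
    by_cases h : z ∈ A e i
    · obtain ⟨k, x, hx, hxz⟩ := h
      exact ⟨⟨x, hKX i k hx⟩, fun _ => ⟨k, hx, hxz⟩⟩
    · exact ⟨z, fun h' => absurd h' h⟩
  choose f hf using hex
  have hdist : ∀ e i, ∀ x ∈ A e i, ∀ y ∈ A e i, dist (f e i x) (f e i y) = dist x y := by
    intro e i x hx y hy
    obtain ⟨k, hk, hkx⟩ := hf e i x hx
    obtain ⟨l, hl, hly⟩ := hf e i y hy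
    have := hiso e i k l _ hk _ hl
    rw [hkx, hly] at this
    exact this.symm
  have hbij : ∀ e i, BijOn (f e i) (A e i) (C i) := by
    intro e i
    refine ⟨?_, ?_, ?_⟩
    · intro x hx
      obtain ⟨k, hk, _⟩ := hf e i x hx
      exact ⟨k, hk⟩
    · intro x hx y hy hxy
      have := hdist e i x hx y hy
      rw [hxy, dist_self] at this
      exact dist_eq_zero.mp this.symm
    · rintro w ⟨k, hk⟩
      have hz : (⟨φ e i k w.1, hmap e i k hk⟩ : X) ∈ A e i := ⟨k, w.1, hk, rfl⟩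
      refine ⟨_, hz, ?_⟩
      obtain ⟨l, hl, hly⟩ := hf e i _ hz
      have := hiso e i l k _ hl _ hk
      rw [hly, dist_self] at this
      exact Subtype.ext (dist_eq_zero.mp this.symm)
  have hAd : ∀ e i e' i', ¬ (e = e' ∧ i = i') → Disjoint (A e i) (A e' i') := by
    intro e i e' i' h
    rw [Set.disjoint_left]
    rintro z ⟨k, x, hx, hxz⟩ ⟨l, y, hy, hyz⟩
    exact h (hdisj e i k e' i' l x hx y hy (hxz.trans hyz.symm))
  have hAm : ∀ e i, MeasurableSet (A e i) := by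
    intro e i
    have : A e i = ⋃ k, (Subtype.val ⁻¹' (φ e i k '' K i k) : Set X) := by
      ext z
      simp only [A, mem_setOf_eq, mem_iUnion, mem_preimage, mem_image]
    rw [this]
    refine MeasurableSet.iUnion fun k => ?_
    refine IsClosed.measurableSet (IsClosed.preimage continuous_subtype_val ?_)
    refine IsCompact.isClosed ?_
    refine IsCompact.image_of_continuousOn (hX.of_isClosed_subset (hK i k) (hKX i k)) ?_
    have : LipschitzOnWith 1 (φ e i k) (K i k) := by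
      refine LipschitzOnWith.of_dist_le_mul fun x hx y hy => ?_
      rw [hiso e i k k x hx y hy]
      simp
    exact this.continuousOn
  let σ := (Fintype.equivFin ι).symm
  have hC : (⋃ i, C (σ i)) = univ := by
    refine eq_univ_of_forall fun z => ?_
    obtain ⟨i, k, h⟩ := hcov z.1 z.2
    refine mem_iUnion.mpr ⟨σ.symm i, k, ?_⟩
    simpa using h
  refine ⟨Fintype.card ι, Fintype.card ι, fun i => A false (σ i), fun i => C (σ i),
    fun i => A true (σ i), fun i => C (σ i), fun i => f false (σ i), fun i => f true (σ i),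
    Fintype.card_pos, Fintype.card_pos, ?_, ?_, ?_, fun i => hAm _ _, fun i => hAm _ _,
    fun i => ⟨hbij _ _, hdist _ _⟩, fun i => ⟨hbij _ _, hdist _ _⟩, hC, hC⟩
  · intro i j hij
    exact hAd _ _ _ _ fun h => hij (σ.injective h.2)
  · intro i j hij
    exact hAd _ _ _ _ fun h => hij (σ.injective h.2)
  · intro i j
    exact hAd _ _ _ _ fun h => absurd h.1 (by simp)

/-- One step of the staircase. -/
def step (p : ℕ × ℕ × ℕ × Bool) : ℕ × ℕ × ℕ × Bool :=
  if p.2.2.2 = true then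
    (if p.2.1 + 1 = 2 ^ (p.2.2.1 + 1) then (p.1, p.2.1 + 1, p.2.2.1 + 1, false)
      else (p.1, p.2.1 + 1, p.2.2.1, true))
  else
    (if p.1 + 1 = 2 ^ (p.2.2.1 + 1) then (p.1 + 1, p.2.1, p.2.2.1 + 1, true)
      else (p.1 + 1, p.2.1, p.2.2.1, false))

def st : ℕ → ℕ × ℕ × ℕ × Bool
  | 0 => (1, 1, 0, true)
  | k + 1 => step (st k)

def Inv (k : ℕ) (p : ℕ × ℕ × ℕ × Bool) : Prop :=
  p.1 + p.2.1 = k + 2 ∧ 1 ≤ p.1 ∧ 1 ≤ p.2.1 ∧ p.1 < 2 ^ (p.2.2.1 + 1) ∧
    p.2.1 < 2 ^ (p.2.2.1 + 1) ∧ (p.2.2.2 = true → p.1 = 2 ^ p.2.2.1) ∧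
    (p.2.2.2 = false → p.2.1 = 2 ^ p.2.2.1) ∧ p.2.2.1 ≤ k

theorem inv_st (k : ℕ) : Inv k (st k) := by
  induction k with
  | zero => simp [Inv, st]
  | succ k ih =>
    rw [st]
    generalize st k = p at ih
    obtain ⟨s, t, j, b⟩ := p
    obtain ⟨h1, h2, h3, h4, h5, h6, h7, h8⟩ := ih
    simp only at h1 h2 h3 h4 h5 h6 h7 h8
    have hp : 2 ^ (j + 1 + 1) = 2 * 2 ^ (j + 1) := by ring
    cases b with
    | true =>
      by_cases h : t + 1 = 2 ^ (j + 1)
      · simp only [step, h, if_true, Inv]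
        refine ⟨by omega, by omega, by omega, by omega, by omega, by simp, by simp, by omega⟩
      · simp only [step, h, if_true, if_false, Inv]
        refine ⟨by omega, by omega, by omega, by omega, by omega, fun _ => h6 rfl, by simp,
          by omega⟩
    | false =>
      by_cases h : s + 1 = 2 ^ (j + 1)
      · simp only [step, h, if_true, Inv, Bool.false_eq_true, if_false]
        refine ⟨by omega, by omega, by omega, by omega, by omega, by simp, by simp, by omega⟩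
      · simp only [step, h, if_true, if_false, Inv, Bool.false_eq_true]
        refine ⟨by omega, by omega, by omega, by omega, by omega, by simp, fun _ => h7 rfl,
          by omega⟩

theorem stair : ∃ (s t j : ℕ → ℕ) (b : ℕ → Bool), j 0 = 0 ∧ (∀ k, s k + t k = k + 2) ∧
    (∀ k, 1 ≤ s k ∧ 1 ≤ t k ∧ s k < 2 ^ (j k + 1) ∧ t k < 2 ^ (j k + 1)) ∧
    (∀ k, 2 ^ (j k) ∣ s k ∨ 2 ^ (j k) ∣ t k) ∧ (∀ k, j (k + 1) ≤ j k + 1) ∧ (∀ k, j k ≤ k) ∧
    (∀ k, s (k + 1) = s k + (if b k = true then 0 else 1) ∧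
      t (k + 1) = t k + (if b k = true then 1 else 0)) := by
  refine ⟨fun k => (st k).1, fun k => (st k).2.1, fun k => (st k).2.2.1, fun k => (st k).2.2.2,
    rfl, fun k => (inv_st k).1, fun k => ⟨(inv_st k).2.1, (inv_st k).2.2.1, (inv_st k).2.2.2.1,
      (inv_st k).2.2.2.2.1⟩, fun k => ?_, fun k => ?_, fun k => (inv_st k).2.2.2.2.2.2.2,
      fun k => ?_⟩
  · cases h : (st k).2.2.2 with
    | true => left; exact dvd_of_eq ((inv_st k).2.2.2.2.2.1 h).symm
    | false => right; exact dvd_of_eq ((inv_st k).2.2.2.2.2.2.1 h).symm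
  · simp only [st, step]
    split_ifs <;> simp
  · simp only [st, step]
    split_ifs <;> simp

end Pool.Agent.Lib.helper22.Bu
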