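import Mathlib
import Pool.Agent.Lib.helper22.BuA

set_option autoImplicit false

namespace Pool.Agent.Lib.helper22.Bu

open Set

abbrev Z2 : Type := ℤ_[2]

theorem dvd_iff_norm (x : Z2) (j : ℕ) : (2 : Z2) ^ j ∣ x ↔ ‖x‖ ≤ (2 : ℝ) ^ (-(j : ℤ)) := by
  have := PadicInt.norm_le_pow_iff_mem_span_pow x j
  rw [Ideal.mem_span_singleton] at this
  exact_mod_cast this.symm

theorem closed_dvd (j : ℕ) : IsClosed {x : Z2 | (2 : Z2) ^ j ∣ x} := by
  simp only [dvd_iff_norm]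
  exact isClosed_le continuous_norm continuous_const

theorem norm_ge (a b j : ℕ) (h : ¬ ((2 : ℤ) ^ (j + 1) ∣ (a : ℤ) - b)) :
    (2 : ℝ) ^ (-(j : ℤ)) ≤ dist (a : Z2) (b : Z2) := by
  by_contra hlt
  push Not at hlt
  apply h
  have h1 := (PadicInt.norm_le_pow_iff_norm_lt_pow_add_one ((a : Z2) - (b : Z2)) (-((j + 1 : ℕ) : ℤ))).mpr
    (by
      rw [dist_eq_norm] at hlt
      have : (-((j + 1 : ℕ) : ℤ)) + 1 = -(j : ℤ) := by push_cast; ring
      rw [this]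
      exact_mod_cast hlt)
  have h2 := (PadicInt.norm_int_le_pow_iff_dvd (p := 2) (k := (a : ℤ) - b) (n := j + 1)).mp
    (by exact_mod_cast h1)
  exact_mod_cast h2

theorem digit (u : Z2) (j : ℕ) (h : (2 : Z2) ^ j ∣ u) :
    ∃ f : Fin 2, (2 : Z2) ^ (j + 1) ∣ u - ((f : ℕ) : Z2) * 2 ^ j := by
  obtain ⟨c, rfl⟩ := h
  refine ⟨⟨PadicInt.zmodRepr c, PadicInt.zmodRepr_lt_p c⟩, ?_⟩
  have := PadicInt.sub_zmodRepr_mem c
  rw [PadicInt.maximalIdeal_eq_span_p, Ideal.mem_span_singleton] at this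
  obtain ⟨d, hd⟩ := this
  refine ⟨d, ?_⟩
  have hd' : c - (PadicInt.zmodRepr c : Z2) = 2 * d := by exact_mod_cast hd
  simp only
  linear_combination (2 : Z2) ^ j * hd'

theorem not_dvd_aux (a b N : ℕ) (ha : a < N) (hb : b < N) (h : (N : ℤ) ∣ (a : ℤ) - b) : a = b := by
  have := Int.eq_zero_of_abs_lt_dvd h (by rw [abs_lt]; constructor <;> omega)
  omega

theorem xsep (s t j : ℕ → ℕ) (h1 : ∀ k, s k + t k = k + 2)
    (h2 : ∀ k, 1 ≤ s k ∧ 1 ≤ t k ∧ s k < 2 ^ (j k + 1) ∧ t k < 2 ^ (j k + 1))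
    (h3 : ∀ k, 2 ^ (j k) ∣ s k ∨ 2 ^ (j k) ∣ t k) (k l : ℕ) (hkl : k ≠ l) (hj : j k ≤ j l) :
    (2 : ℝ) ^ (-(j k : ℤ)) ≤ dist ((s k : Z2), (t k : Z2)) ((s l : Z2), (t l : Z2)) := by
  rw [Prod.dist_eq]
  by_cases hs : ((2 : ℤ) ^ (j k + 1) ∣ (s k : ℤ) - s l)
  swap
  · exact le_max_of_le_left (norm_ge _ _ _ hs)
  by_cases ht : ((2 : ℤ) ^ (j k + 1) ∣ (t k : ℤ) - t l)
  swap
  · exact le_max_of_le_right (norm_ge _ _ _ ht)
  exfalso
  obtain ⟨a1, a2, a3, a4⟩ := h2 k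
  obtain ⟨b1, b2, b3, b4⟩ := h2 l
  rcases hj.eq_or_lt with he | hlt
  · rw [← he] at b3 b4
    have e1 := not_dvd_aux _ _ _ a3 b3 (by exact_mod_cast hs)
    have e2 := not_dvd_aux _ _ _ a4 b4 (by exact_mod_cast ht)
    have := h1 k
    have := h1 l
    omega
  · have hd : 2 ^ (j k + 1) ∣ 2 ^ (j l) := pow_dvd_pow 2 hlt
    rcases h3 l with h | h
    · have h' : ((2 ^ (j k + 1) : ℕ) : ℤ) ∣ (s l : ℤ) := Int.natCast_dvd_natCast.mpr (hd.trans h)
      have h'' : ((2 ^ (j k + 1) : ℕ) : ℤ) ∣ (s k : ℤ) := by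
        have := dvd_add (show ((2 ^ (j k + 1) : ℕ) : ℤ) ∣ (s k : ℤ) - s l by exact_mod_cast hs) h'
        simpa using this
      have := Nat.le_of_dvd a1 (Int.natCast_dvd_natCast.mp h'')
      omega
    · have h' : ((2 ^ (j k + 1) : ℕ) : ℤ) ∣ (t l : ℤ) := Int.natCast_dvd_natCast.mpr (hd.trans h)
      have h'' : ((2 ^ (j k + 1) : ℕ) : ℤ) ∣ (t k : ℤ) := by
        have := dvd_add (show ((2 ^ (j k + 1) : ℕ) : ℤ) ∣ (t k : ℤ) - t l by exact_mod_cast ht) h'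
        simpa using this
      have := Nat.le_of_dvd a2 (Int.natCast_dvd_natCast.mp h'')
      omega

abbrev E : Type := (Z2 × Z2) × ((Z2 × Z2) × Z2)

/-- The time `k` layer. -/
def S (x : ℕ → Z2 × Z2) (j : ℕ → ℕ) (k : ℕ) : Set E :=
  {p | p.1 = x k ∧ (2 : Z2) ^ j k ∣ p.2.1.1 ∧ (2 : Z2) ^ j k ∣ p.2.1.2 ∧
    ∃ c : ℕ, p.2.2 = ((2 ^ j k * c : ℕ) : Z2) ∧ 2 ^ j k * c < 2 ^ (4 * k + 1)}

theorem closed_nat (P : ℕ → Prop) (g : ℕ → ℕ) (N : ℕ) (h : ∀ c, P c → g c < N) :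
    IsClosed {w : Z2 | ∃ c : ℕ, w = (g c : Z2) ∧ P c} := by
  refine Set.Finite.isClosed (((Set.finite_lt_nat N).image (fun n : ℕ => (n : Z2))).subset ?_)
  rintro w ⟨c, rfl, hc⟩
  exact ⟨g c, h c hc, rfl⟩

theorem closed_S (x : ℕ → Z2 × Z2) (j : ℕ → ℕ) (k : ℕ) : IsClosed (S x j k) := by
  refine IsClosed.and (isClosed_eq continuous_fst continuous_const) (IsClosed.and ?_ (IsClosed.and ?_ ?_))
  · exact (closed_dvd (j k)).preimage (f := fun p : E => p.2.1.1) (by fun_prop)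
  · exact (closed_dvd (j k)).preimage (f := fun p : E => p.2.1.2) (by fun_prop)
  · exact (closed_nat (fun c => 2 ^ j k * c < 2 ^ (4 * k + 1)) (fun c => 2 ^ j k * c) _
      (fun c hc => hc)).preimage (f := fun p : E => p.2.2) (by fun_prop)

theorem S_norm (x : ℕ → Z2 × Z2) (j : ℕ → ℕ) (k m : ℕ) (hm : m ≤ j k) (p : E) (hp : p ∈ S x j k) :
    (2 : Z2) ^ m ∣ p.2.1.1 ∧ (2 : Z2) ^ m ∣ p.2.1.2 ∧ (2 : Z2) ^ m ∣ p.2.2 := by
  obtain ⟨_, h1, h2, c, h3, _⟩ := hp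
  have hd : (2 : Z2) ^ m ∣ 2 ^ j k := pow_dvd_pow 2 hm
  refine ⟨hd.trans h1, hd.trans h2, hd.trans ⟨c, ?_⟩⟩
  rw [h3]; push_cast; ring

theorem sep (x : ℕ → Z2 × Z2) (j : ℕ → ℕ) (k l : ℕ)
    (h : (2 : ℝ) ^ (-((min (j k) (j l) : ℕ) : ℤ)) ≤ dist (x k) (x l))
    (p : E) (hp : p ∈ S x j k) (q : E) (hq : q ∈ S x j l) : dist p q = dist (x k) (x l) := by
  obtain ⟨a1, a2, a3⟩ := S_norm x j k _ (min_le_left (j k) (j l)) p hp
  obtain ⟨b1, b2, b3⟩ := S_norm x j l _ (min_le_right (j k) (j l)) q hq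
  rw [Prod.dist_eq, hp.1, hq.1]
  refine max_eq_left (le_trans ?_ h)
  rw [Prod.dist_eq, Prod.dist_eq, dist_eq_norm, dist_eq_norm, dist_eq_norm]
  exact max_le (max_le ((dvd_iff_norm _ _).mp (dvd_sub a1 b1))
    ((dvd_iff_norm _ _).mp (dvd_sub a2 b2))) ((dvd_iff_norm _ _).mp (dvd_sub a3 b3))

def XX (x : ℕ → Z2 × Z2) (j : ℕ → ℕ) : Set E := {p | p.2 = 0} ∪ ⋃ k, S x j k

theorem closed_XX (x : ℕ → Z2 × Z2) (j : ℕ → ℕ) (hj : ∀ r, ∃ N, ∀ k, N ≤ k → r ≤ j k) :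
    IsClosed (XX x j) := by
  rw [← isOpen_compl_iff, isOpen_iff_mem_nhds]
  intro p hp
  have hp0 : p.2 ≠ 0 := fun h => hp (Or.inl h)
  have hpos : 0 < ‖p.2‖ := norm_pos_iff.mpr hp0
  obtain ⟨r, hr⟩ := exists_pow_lt_of_lt_one hpos (show (1 / 2 : ℝ) < 1 by norm_num)
  have hr' : (2 : ℝ) ^ (-(r : ℤ)) < ‖p.2‖ := by
    rw [zpow_neg, zpow_natCast, ← inv_pow]
    simpa using hr
  obtain ⟨N, hN⟩ := hj r
  have hU : IsOpen ({q : E | (2 : ℝ) ^ (-(r : ℤ)) < ‖q.2‖} ∩ ⋂ k ∈ Finset.range N, (S x j k)ᶜ) := by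
    refine IsOpen.inter (isOpen_lt continuous_const (by fun_prop)) ?_
    exact isOpen_biInter_finset fun k _ => (closed_S x j k).isOpen_compl
  refine Filter.mem_of_superset (hU.mem_nhds ⟨hr', ?_⟩) ?_
  · simp only [mem_iInter]
    intro k _ hk
    exact hp (Or.inr (mem_iUnion.mpr ⟨k, hk⟩))
  · rintro q ⟨hq1, hq2⟩ (h0 | h0)
    · have h0' : q.2 = 0 := h0
      have hq1' : (2 : ℝ) ^ (-(r : ℤ)) < ‖q.2‖ := hq1
      rw [h0', norm_zero] at hq1'
      exact absurd hq1' (not_lt.mpr (by positivity))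
    · obtain ⟨k, hk⟩ := mem_iUnion.mp h0
      by_cases hkN : k < N
      · simp only [mem_iInter] at hq2
        exact hq2 k (Finset.mem_range.mpr hkN) hk
      · obtain ⟨a1, a2, a3⟩ := S_norm x j k r (hN k (not_lt.mp hkN)) q hk
        have : ‖q.2‖ ≤ (2 : ℝ) ^ (-(r : ℤ)) := by
          rw [Prod.norm_def, Prod.norm_def]
          exact max_le (max_le ((dvd_iff_norm _ _).mp a1) ((dvd_iff_norm _ _).mp a2))
            ((dvd_iff_norm _ _).mp a3)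
        exact absurd hq1 (not_lt.mpr this)

abbrev Idx : Type := Option (Bool × Fin 2 × Fin 2 × Fin 2)

def KK (x : ℕ → Z2 × Z2) (j : ℕ → ℕ) (b : ℕ → Bool) : Idx → ℕ → Set E
  | none, _ => {p | p.2 = 0}
  | some i, k => {p | b k = i.1 ∧ p.1 = x k ∧
      (2 : Z2) ^ (j k + 1) ∣ p.2.1.1 - ((i.2.1 : ℕ) : Z2) * 2 ^ j k ∧
      (2 : Z2) ^ (j k + 1) ∣ p.2.1.2 - ((i.2.2.1 : ℕ) : Z2) * 2 ^ j k ∧
      ∃ c : ℕ, p.2.2 = ((2 ^ j k * (2 * c + i.2.2.2) : ℕ) : Z2) ∧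
        2 ^ j k * (2 * c + i.2.2.2) < 2 ^ (4 * k + 1)}

def code (e : Bool) (i : Bool × Fin 2 × Fin 2 × Fin 2) : ℕ :=
  i.2.1 + 2 * i.2.2.1 + 4 * i.2.2.2 + 8 * e.toNat

noncomputable def phi (x : ℕ → Z2 × Z2) (j : ℕ → ℕ) (e : Bool) : Idx → ℕ → E → E
  | none, _, p => (x 0, p.1, (e.toNat : Z2))
  | some i, k, p => (x (k + 1), (p.2.1.1 - ((i.2.1 : ℕ) : Z2) * 2 ^ j k,
      p.2.1.2 - ((i.2.2.1 : ℕ) : Z2) * 2 ^ j k),
      p.2.2 - ((i.2.2.2 : ℕ) : Z2) * 2 ^ j k + ((code e i * 2 ^ (4 * k + 1) : ℕ) : Z2))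

theorem KK_S (x : ℕ → Z2 × Z2) (j : ℕ → ℕ) (b : ℕ → Bool) (i : Bool × Fin 2 × Fin 2 × Fin 2)
    (k : ℕ) : KK x j b (some i) k ⊆ S x j k := by
  rintro p ⟨_, h1, h2, h3, c, h4, h5⟩
  have hd : (2 : Z2) ^ j k ∣ 2 ^ (j k + 1) := pow_dvd_pow 2 (Nat.le_succ _)
  refine ⟨h1, ?_, ?_, _, h4, h5⟩
  · have := dvd_add (hd.trans h2) (Dvd.intro_left ((i.2.1 : ℕ) : Z2) rfl : (2 : Z2) ^ j k ∣ _)
    simpa using this
  · have := dvd_add (hd.trans h3) (Dvd.intro_left ((i.2.2.1 : ℕ) : Z2) rfl : (2 : Z2) ^ j k ∣ _)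
    simpa using this

theorem code_lt (e : Bool) (i : Bool × Fin 2 × Fin 2 × Fin 2) : code e i < 16 := by
  have h1 := i.2.1.2
  have h2 := i.2.2.1.2
  have h3 := i.2.2.2.2
  have h4 : e.toNat ≤ 1 := Bool.toNat_le e
  unfold code
  omega

theorem phi_w (x : ℕ → Z2 × Z2) (j : ℕ → ℕ) (e : Bool) (i : Bool × Fin 2 × Fin 2 × Fin 2)
    (k c : ℕ) (p : E) (h4 : p.2.2 = ((2 ^ j k * (2 * c + i.2.2.2) : ℕ) : Z2)) :
    (phi x j e (some i) k p).2.2 = ((2 ^ (j k + 1) * c + code e i * 2 ^ (4 * k + 1) : ℕ) : Z2) := by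
  simp only [phi, h4]
  push_cast
  ring

theorem phi_S (x : ℕ → Z2 × Z2) (j : ℕ → ℕ) (b : ℕ → Bool) (hj1 : ∀ k, j (k + 1) ≤ j k + 1)
    (hj2 : ∀ k, j k ≤ k) (e : Bool) (i : Bool × Fin 2 × Fin 2 × Fin 2) (k : ℕ) :
    MapsTo (phi x j e (some i) k) (KK x j b (some i) k) (S x j (k + 1)) := by
  rintro p ⟨_, h1, h2, h3, c, h4, h5⟩
  have hd : (2 : Z2) ^ j (k + 1) ∣ 2 ^ (j k + 1) := pow_dvd_pow 2 (hj1 k)
  refine ⟨rfl, hd.trans h2, hd.trans h3, ?_⟩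
  have hdn : 2 ^ j (k + 1) ∣ 2 ^ (j k + 1) * c + code e i * 2 ^ (4 * k + 1) := by
    refine dvd_add (Dvd.dvd.mul_right (pow_dvd_pow 2 (hj1 k)) _)
      (Dvd.dvd.mul_left (pow_dvd_pow 2 ?_) _)
    have := hj1 k
    have := hj2 k
    omega
  obtain ⟨c', hc'⟩ := hdn
  refine ⟨c', by rw [phi_w x j e i k c p h4, hc'], ?_⟩
  rw [← hc']
  have e1 : 2 ^ (j k + 1) * c ≤ 2 ^ j k * (2 * c + i.2.2.2) := by
    rw [pow_succ, mul_assoc]
    exact Nat.mul_le_mul_left _ (Nat.le_add_right _ _)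
  have e2 : 2 ^ (4 * (k + 1) + 1) = 16 * 2 ^ (4 * k + 1) := by ring
  have e3 : code e i * 2 ^ (4 * k + 1) ≤ 15 * 2 ^ (4 * k + 1) :=
    Nat.mul_le_mul_right _ (by have := code_lt e i; omega)
  omega

theorem main : ∃ X : Set E, IsCompact X ∧ X.Nonempty ∧
    ∃ (K : Idx → ℕ → Set E) (φ : Bool → Idx → ℕ → E → E), (∀ i k, IsClosed (K i k)) ∧
    (∀ i k, K i k ⊆ X) ∧ (∀ x ∈ X, ∃ i k, x ∈ K i k) ∧ (∀ e i k, MapsTo (φ e i k) (K i k) X) ∧
    (∀ e i k l, ∀ x ∈ K i k, ∀ y ∈ K i l, dist (φ e i k x) (φ e i l y) = dist x y) ∧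
    (∀ e i k e' i' l, ∀ x ∈ K i k, ∀ y ∈ K i' l,
      φ e i k x = φ e' i' l y → e = e' ∧ i = i') := by
  obtain ⟨s, t, j, b, hj0, h1, h2, h3, hj1, hj2, hst⟩ := stair
  let x : ℕ → Z2 × Z2 := fun k => ((s k : Z2), (t k : Z2))
  have hsep : ∀ k l, k ≠ l → (2 : ℝ) ^ (-((min (j k) (j l) : ℕ) : ℤ)) ≤ dist (x k) (x l) := by
    intro k l hkl
    rcases le_total (j k) (j l) with h | h
    · rw [min_eq_left h]; exact xsep s t j h1 h2 h3 k l hkl h
    · rw [min_eq_right h, dist_comm]; exact xsep s t j h1 h2 h3 l k hkl.symm h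
  have hinj : ∀ k l, x k = x l → k = l := by
    intro k l h
    by_contra hkl
    have := hsep k l hkl
    rw [h, dist_self] at this
    exact absurd this (not_le.mpr (by positivity))
  have hjinf : ∀ r, ∃ N, ∀ k, N ≤ k → r ≤ j k := by
    intro r
    refine ⟨2 ^ (r + 1), fun k hk => ?_⟩
    by_contra hlt
    push Not at hlt
    have e1 : 2 ^ (j k + 1) ≤ 2 ^ r := Nat.pow_le_pow_right (by norm_num) hlt
    have := h1 k
    have := h2 k
    have e2 : 2 ^ (r + 1) = 2 * 2 ^ r := by ring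
    omega
  refine ⟨XX x j, (closed_XX x j hjinf).isCompact, ⟨0, Or.inl rfl⟩, KK x j b, phi x j, ?_, ?_, ?_,
    ?_, ?_, ?_⟩
  · rintro (_ | i) k
    · exact isClosed_eq continuous_snd continuous_const
    · refine IsClosed.and isClosed_const (IsClosed.and (isClosed_eq continuous_fst continuous_const)
        (IsClosed.and ?_ (IsClosed.and ?_ ?_)))
      · exact (closed_dvd (j k + 1)).preimage
          (f := fun p : E => p.2.1.1 - ((i.2.1 : ℕ) : Z2) * 2 ^ j k) (by fun_prop)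
      · exact (closed_dvd (j k + 1)).preimage
          (f := fun p : E => p.2.1.2 - ((i.2.2.1 : ℕ) : Z2) * 2 ^ j k) (by fun_prop)
      · exact (closed_nat (fun c => 2 ^ j k * (2 * c + i.2.2.2) < 2 ^ (4 * k + 1))
          (fun c => 2 ^ j k * (2 * c + i.2.2.2)) _
          (fun c hc => hc)).preimage (f := fun p : E => p.2.2) (by fun_prop)
  · rintro (_ | i) k p hp
    · exact Or.inl hp
    · exact Or.inr (mem_iUnion.mpr ⟨k, KK_S x j b i k hp⟩)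
  · rintro p (hp | hp)
    · exact ⟨none, 0, hp⟩
    · obtain ⟨k, a1, a2, a3, c, a4, a5⟩ := mem_iUnion.mp hp
      obtain ⟨f1, hf1⟩ := digit _ _ a2
      obtain ⟨f2, hf2⟩ := digit _ _ a3
      have hc : 2 * (c / 2) + c % 2 = c := Nat.div_add_mod c 2
      refine ⟨some (b k, f1, f2, ⟨c % 2, Nat.mod_lt _ (by norm_num)⟩), k, rfl, a1, hf1, hf2,
        c / 2, ?_, ?_⟩
      · simp only [hc]; exact a4
      · simp only [hc]; exact a5
  · rintro e (_ | i) k p hp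
    · refine Or.inr (mem_iUnion.mpr ⟨0, rfl, by simp [hj0], by simp [hj0], e.toNat, ?_, ?_⟩)
      · simp [phi, hj0]
      · have h4 : e.toNat ≤ 1 := Bool.toNat_le e
        simp only [hj0]
        omega
    · exact Or.inr (mem_iUnion.mpr ⟨k + 1, phi_S x j b hj1 hj2 e i k hp⟩)
  · rintro e (_ | i) k l p hp q hq
    · have hp' : p.2 = 0 := hp
      have hq' : q.2 = 0 := hq
      simp only [phi, Prod.dist_eq (x := p), hp', hq', dist_self]
      rw [Prod.dist_eq, Prod.dist_eq]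
      simp
    · by_cases hkl : k = l
      · subst hkl
        have e1 : p.1 = q.1 := hp.2.1.trans hq.2.1.symm
        simp only [phi, Prod.dist_eq, e1, dist_self, dist_sub_right, dist_add_right]
      · rw [sep x j k l (hsep k l hkl) p (KK_S x j b i k hp) q (KK_S x j b i l hq),
          sep x j (k + 1) (l + 1) (hsep _ _ (by omega)) _ (phi_S x j b hj1 hj2 e i k hp) _
            (phi_S x j b hj1 hj2 e i l hq)]
        have hb : b k = b l := hp.1.trans hq.1.symm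
        simp only [x, (hst k).1, (hst k).2, (hst l).1, (hst l).2, hb, Prod.dist_eq]
        push_cast
        simp only [dist_add_right]
  · rintro e (_ | i) k e' (_ | i') l p hp q hq h
    · refine ⟨?_, rfl⟩
      have h' : (e.toNat : Z2) = (e'.toNat : Z2) := congrArg (fun z : E => z.2.2) h
      have h'' : e.toNat = e'.toNat := by exact_mod_cast h'
      cases e <;> cases e' <;> simp_all
    · have := hinj 0 (l + 1) (congrArg Prod.fst h)
      omega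
    · have := hinj (k + 1) 0 (congrArg Prod.fst h)
      omega
    · have hkl : k = l := by
        have := hinj (k + 1) (l + 1) (congrArg Prod.fst h)
        omega
      subst hkl
      obtain ⟨a0, _, _, _, c, a4, a5⟩ := hp
      obtain ⟨b0, _, _, _, c', b4, b5⟩ := hq
      have h' : (phi x j e (some i) k p).2.2 = (phi x j e' (some i') k q).2.2 :=
        congrArg (fun z : E => z.2.2) h
      rw [phi_w x j e i k c p a4, phi_w x j e' i' k c' q b4] at h'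
      have h'' : 2 ^ (j k + 1) * c + code e i * 2 ^ (4 * k + 1) =
          2 ^ (j k + 1) * c' + code e' i' * 2 ^ (4 * k + 1) := by exact_mod_cast h'
      have e1 : 2 ^ (j k + 1) * c ≤ 2 ^ j k * (2 * c + i.2.2.2) := by
        rw [pow_succ, mul_assoc]
        exact Nat.mul_le_mul_left _ (Nat.le_add_right _ _)
      have e2 : 2 ^ (j k + 1) * c' ≤ 2 ^ j k * (2 * c' + i'.2.2.2) := by
        rw [pow_succ, mul_assoc]
        exact Nat.mul_le_mul_left _ (Nat.le_add_right _ _)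
      have hpos : 0 < 2 ^ (4 * k + 1) := by positivity
      have hcode : code e i = code e' i' := by
        have d1 : (2 ^ (j k + 1) * c + code e i * 2 ^ (4 * k + 1)) / 2 ^ (4 * k + 1) = code e i := by
          rw [Nat.add_mul_div_right _ _ hpos, Nat.div_eq_of_lt (by omega), zero_add]
        have d2 : (2 ^ (j k + 1) * c' + code e' i' * 2 ^ (4 * k + 1)) / 2 ^ (4 * k + 1) =
            code e' i' := by
          rw [Nat.add_mul_div_right _ _ hpos, Nat.div_eq_of_lt (by omega), zero_add]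
        rw [← d1, h'', d2]
      obtain ⟨i0, i1, i2, i3⟩ := i
      obtain ⟨i0', i1', i2', i3'⟩ := i'
      have g0 : i0 = i0' := a0.symm.trans b0
      have := i1.2
      have := i2.2
      have := i3.2
      have := i1'.2
      have := i2'.2
      have := i3'.2
      simp only [code] at hcode
      have g4 : e = e' := by
        cases e <;> cases e' <;> simp only [Bool.toNat_true, Bool.toNat_false] at hcode <;>
          first | rfl | omega
      subst g4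
      have g1 : i1 = i1' := Fin.ext (by omega)
      have g2 : i2 = i2' := Fin.ext (by omega)
      have g3 : i3 = i3' := Fin.ext (by omega)
      subst g0 g1 g2 g3
      exact ⟨rfl, rfl⟩

end Pool.Agent.Lib.helper22.Bu
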