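import Mathlib
import Pool.Agent.Lib.helper22.CfgD

namespace Pool.Agent.Lib.helper22.CfgE

open Pool.Agent.Lib.helper22.CfgD

set_option maxRecDepth 100000

def lin (c : ℕ × ℕ × ℕ) (p : ℕ × ℕ) : ℕ :=
  Nat.add (Nat.add (Nat.mul c.1 p.1) (Nat.mul c.2.1 p.2)) c.2.2

def test (p : ℕ × ℕ) (l : (ℕ × ℕ × ℕ) × (ℕ × ℕ × ℕ)) : Bool := Nat.beq (lin l.1 p) (lin l.2 p)

def tb (M i : ℕ) : ℕ := Nat.mod (Nat.shiftRight M (Nat.mul 10 i)) 1024

def nl (M i : ℕ) : List ℕ := [tb M (4 * i), tb M (4 * i + 1), tb M (4 * i + 2), tb M (4 * i + 3)]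

def nbOf (p : ℕ × ℕ) : List ℕ := (lns.zipIdx.filter fun q => test p q.1).map Prod.snd

def bP (i : ℕ) : ℕ := if i < 210 then i / 35 else 6 + (i - 210) / 34

def bL (j : ℕ) : ℕ := if j < 204 then j / 34 else 6 + (j - 204) / 35

def al (a b : ℕ) : Prop := a = b ∨ (a, b) ∈ [(0, 8), (0, 9), (1, 7), (1, 9), (1, 11), (2, 6), (2, 9),
  (2, 10), (3, 6), (3, 7), (3, 8), (4, 8), (4, 10), (4, 11), (5, 7), (5, 10)]

instance (a b : ℕ) : Decidable (al a b) := by unfold al; infer_instance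

def adjB (u v : ℕ) : Bool :=
  if u < 414 then decide (414 ≤ v) && decide (v - 414 ∈ nl MP u)
  else decide (v < 414) && decide (u - 414 ∈ nl MP v)

def go : ℕ → List ℕ → Bool
  | _, [] => true
  | v, x :: p => adjB v x && go x p

lemma c1 : pts.length = 414 ∧ lns.length = 414 := by decide +kernel

lemma c2 : pts.map nbOf = (List.range 414).map (nl MP) := by decide +kernel

lemma c3 : ∀ l ∈ lns, l.1.1 ≠ l.2.1 ∨ l.1.2.1 ≠ l.2.2.1 := by decide +kernel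

lemma c4 : ∀ i < 414, (nl MP i).Nodup ∧ (∀ j ∈ nl MP i, j < 414 ∧ i ∈ nl ML j ∧ al (bP i) (bL j)) ∧
    ∀ k ∈ nl ML (tb MP (4 * i)), k ∈ nl ML (tb MP (4 * i + 1)) → k = i := by decide +kernel

lemma c5 : ∀ j < 414, (nl ML j).Nodup ∧ (∀ i ∈ nl ML j, i < 414 ∧ j ∈ nl MP i) ∧
    ∀ k ∈ nl MP (tb ML (4 * j)), k ∈ nl MP (tb ML (4 * j + 1)) → k = j := by decide +kernel

lemma c6 : cert.map Prod.fst = List.range' 4 824 := by decide +kernel

lemma c7 : ∀ c ∈ cert, c.2.length = 4 ∧ c.2.flatten.Nodup ∧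
    ∀ p ∈ c.2, go c.1 p = true ∧ tb MR (p.getLastD c.1) < tb MR c.1 := by decide +kernel

lemma c8 : ∀ c ∈ pairs, c.2.2.length = 4 ∧ c.2.2.flatten.Nodup ∧
    ∀ p ∈ c.2.2, go c.1 p = true ∧ adjB (p.getLastD c.1) c.2.1 = true := by decide +kernel

lemma c9 : ∀ u < 4, ∀ v < 4, u < v → ∃ c ∈ pairs, c.1 = u ∧ c.2.1 = v := by decide +kernel

lemma c10 : ∀ a < 12, ((Finset.range 414).filter fun i => bP i = a).card = (if a < 6 then 35 else 34)
    ∧ ((Finset.range 414).filter fun i => bL i = a).card = (if a < 6 then 34 else 35) := by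
  decide +kernel

end Pool.Agent.Lib.helper22.CfgE
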