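import Mathlib
import Pool.Agent.Lib.helper22.CfgE

namespace Pool.Agent.Lib.helper22.CfgF

open Finset Pool.Agent.Lib.helper22.CfgD Pool.Agent.Lib.helper22.CfgE

structure Ok {A B : Type*} (G : SimpleGraph (A ⊕ B)) (fA : ℕ → A) (fB : ℕ → B) : Prop where
  adj : ∀ i < 414, ∀ j < 414, G.Adj (.inl (fA i)) (.inr (fB j)) ↔ j ∈ nl MP i
  ll : ∀ a a', ¬ G.Adj (.inl a) (.inl a')
  rr : ∀ a a', ¬ G.Adj (.inr a) (.inr a')
  sA : ∀ a, ∃ i < 414, fA i = a
  sB : ∀ a, ∃ i < 414, fB i = a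
  iA : ∀ i < 414, ∀ k < 414, fA i = fA k → i = k
  iB : ∀ i < 414, ∀ k < 414, fB i = fB k → i = k

variable {A B : Type*} {G : SimpleGraph (A ⊕ B)} {fA : ℕ → A} {fB : ℕ → B}

def en (fA : ℕ → A) (fB : ℕ → B) (v : ℕ) : A ⊕ B :=
  if v < 414 then .inl (fA v) else .inr (fB (v - 414))

lemma en_adj (h : Ok G fA fB) {u v : ℕ} (huv : adjB u v = true) :
    v < 828 ∧ G.Adj (en fA fB u) (en fA fB v) := by
  unfold adjB at huv
  split_ifs at huv with hu
  · simp only [Bool.and_eq_true, decide_eq_true_eq] at huv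
    have := ((c4 u hu).2.1 _ huv.2).1
    refine ⟨by omega, ?_⟩
    rw [en, en, if_pos hu, if_neg (by omega)]
    exact (h.adj _ hu _ this).mpr huv.2
  · simp only [Bool.and_eq_true, decide_eq_true_eq] at huv
    have := ((c4 v huv.1).2.1 _ huv.2).1
    refine ⟨by omega, ?_⟩
    rw [en, en, if_neg hu, if_pos huv.1]
    exact ((h.adj _ huv.1 _ this).mpr huv.2).symm

lemma en_inj (h : Ok G fA fB) {u v : ℕ} (hu : u < 828) (hv : v < 828)
    (e : en fA fB u = en fA fB v) : u = v := by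
  unfold en at e
  split_ifs at e with h1 h2 h2
  · exact h.iA _ h1 _ h2 (Sum.inl.inj e)
  · have := h.iB _ (by omega) _ (by omega) (Sum.inr.inj e)
    omega

lemma en_surj (h : Ok G fA fB) (w : A ⊕ B) : ∃ v < 828, en fA fB v = w := by
  rcases w with a | a
  · obtain ⟨i, hi, rfl⟩ := h.sA a
    exact ⟨i, by omega, if_pos hi⟩
  · obtain ⟨i, hi, rfl⟩ := h.sB a
    exact ⟨i + 414, by omega, by simp [en]⟩

lemma go_lt (h : Ok G fA fB) : ∀ (p : List ℕ) (v : ℕ), go v p = true → ∀ x ∈ p, x < 828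
  | [], _, _ => by simp
  | y :: p, v, hg => by
    simp only [go, Bool.and_eq_true] at hg
    intro x hx
    rcases List.mem_cons.mp hx with rfl | hx
    · exact (en_adj h hg.1).1
    · exact go_lt h p y hg.2 x hx

def Rch (G : SimpleGraph (A ⊕ B)) (S : Finset (A ⊕ B)) (x y : A ⊕ B) : Prop :=
  ∃ (hx : x ∈ (S : Set (A ⊕ B))ᶜ) (hy : y ∈ (S : Set (A ⊕ B))ᶜ),
    (G.induce (S : Set (A ⊕ B))ᶜ).Reachable ⟨x, hx⟩ ⟨y, hy⟩

lemma Rch.trans {S : Finset (A ⊕ B)} {x y z : A ⊕ B} (h1 : Rch G S x y) (h2 : Rch G S y z) :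
    Rch G S x z := ⟨h1.1, h2.2.1, h1.2.2.trans h2.2.2⟩

lemma Rch.symm {S : Finset (A ⊕ B)} {x y : A ⊕ B} (h1 : Rch G S x y) : Rch G S y x :=
  ⟨h1.2.1, h1.1, h1.2.2.symm⟩

lemma rch_adj {S : Finset (A ⊕ B)} {x y : A ⊕ B} (hx : x ∉ S) (hy : y ∉ S) (h : G.Adj x y) :
    Rch G S x y := ⟨hx, hy, SimpleGraph.Adj.reachable h⟩

lemma chain (h : Ok G fA fB) (S : Finset (A ⊕ B)) : ∀ (p : List ℕ) (v : ℕ), en fA fB v ∉ S →
    go v p = true → (∀ x ∈ p, en fA fB x ∉ S) → Rch G S (en fA fB v) (en fA fB (p.getLastD v))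
  | [], _, hv, _, _ => ⟨hv, hv, .refl _⟩
  | y :: p, v, hv, hg, hp => by
    simp only [go, Bool.and_eq_true] at hg
    rw [List.getLastD_cons]
    have hy := hp y List.mem_cons_self
    exact (rch_adj hv hy (en_adj h hg.1).2).trans
      (chain h S p y hy hg.2 fun x hx => hp x (List.mem_cons_of_mem _ hx))

lemma cnt (q : ℕ → Bool) : ∀ ps : List (List ℕ), (∀ p ∈ ps, ∃ x ∈ p, q x = true) →
    ps.length ≤ (ps.flatten.filter q).length
  | [], _ => by simp
  | p :: ps, h => by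
    have h1 := cnt q ps fun p hp => h p (List.mem_cons_of_mem _ hp)
    obtain ⟨x, hx, hq⟩ := h p List.mem_cons_self
    have h2 := List.length_pos_of_mem (List.mem_filter.mpr ⟨hx, hq⟩)
    rw [List.flatten_cons, List.filter_append, List.length_append, List.length_cons]
    omega

lemma pick (h : Ok G fA fB) {S : Finset (A ⊕ B)} (hS : S.card < 4) {ps : List (List ℕ)}
    (h1 : ps.length = 4) (h2 : ps.flatten.Nodup) (h3 : ∀ p ∈ ps, ∀ x ∈ p, x < 828) :
    ∃ p ∈ ps, ∀ x ∈ p, en fA fB x ∉ S := by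
  classical
  by_contra hc
  push Not at hc
  have h4 := cnt (fun x => decide (en fA fB x ∈ S)) ps (by simpa using hc)
  set l := ps.flatten.filter fun x => decide (en fA fB x ∈ S) with hl
  have h5 : ∀ x ∈ l, x < 828 := fun x hx => by
    obtain ⟨p, hp, hx⟩ := List.mem_flatten.mp (List.mem_filter.mp hx).1
    exact h3 p hp x hx
  have h6 : (l.map (en fA fB)).Nodup :=
    (h2.filter _).map_on fun x hx y hy e => en_inj h (h5 x hx) (h5 y hy) e
  have h7 : (l.map (en fA fB)).toFinset ⊆ S := fun w hw => by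
    obtain ⟨x, hx, rfl⟩ := List.mem_map.mp (List.mem_toFinset.mp hw)
    simpa using (List.mem_filter.mp hx).2
  have := card_le_card h7
  rw [List.toFinset_card_of_nodup h6, List.length_map] at this
  omega

lemma down (h : Ok G fA fB) {S : Finset (A ⊕ B)} (hS : S.card < 4) (r : ℕ) : ∀ v < 828,
    tb MR v < r → en fA fB v ∉ S → ∃ b < 4, Rch G S (en fA fB v) (en fA fB b) := by
  induction r with
  | zero => intro v _ h1; omega
  | succ r ih =>
    intro v hv hr hvS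
    by_cases h4 : v < 4
    · exact ⟨v, h4, hvS, hvS, .refl _⟩
    have : v ∈ cert.map Prod.fst := by rw [c6, List.mem_range'_1]; omega
    obtain ⟨c, hc, rfl⟩ := List.mem_map.mp this
    obtain ⟨k1, k2, k3⟩ := c7 c hc
    obtain ⟨p, hp, k4⟩ := pick h hS k1 k2 fun p hp => go_lt h p _ (k3 p hp).1
    have k5 := chain h S p _ hvS (k3 p hp).1 k4
    have k6 : p.getLastD c.1 < 828 := by
      rcases List.mem_cons.mp (List.getLastD_mem_cons (l := p) (a := c.1)) with e | e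
      · omega
      · exact go_lt h p _ (k3 p hp).1 _ e
    obtain ⟨b, hb, k7⟩ := ih _ k6 (by have := (k3 p hp).2; omega) k5.2.1
    exact ⟨b, hb, k5.trans k7⟩

lemma base (h : Ok G fA fB) {S : Finset (A ⊕ B)} (hS : S.card < 4) {u v : ℕ} (hu : u < 4)
    (hv : v < 4) (huv : u < v) (h1 : en fA fB u ∉ S) (h2 : en fA fB v ∉ S) :
    Rch G S (en fA fB u) (en fA fB v) := by
  obtain ⟨c, hc, rfl, rfl⟩ := c9 u hu v hv huv
  obtain ⟨k1, k2, k3⟩ := c8 c hc
  obtain ⟨p, hp, k4⟩ := pick h hS k1 k2 fun p hp => go_lt h p _ (k3 p hp).1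
  have k5 := chain h S p _ h1 (k3 p hp).1 k4
  exact k5.trans (rch_adj k5.2.1 h2 (en_adj h (k3 p hp).2).2)

theorem conn (h : Ok G fA fB) (S : Finset (A ⊕ B)) (hS : S.card < 4) :
    (G.induce (S : Set (A ⊕ B))ᶜ).Connected := by
  obtain ⟨p, hp, k⟩ := pick h hS (ps := [[0], [1], [2], [3]]) rfl (by decide) (by decide)
  obtain ⟨x, hx⟩ : ∃ x, x ∈ p := by
    simp only [List.mem_cons, List.not_mem_nil, or_false] at hp
    rcases hp with rfl | rfl | rfl | rfl <;> simp
  refine { preconnected := ?_, nonempty := ⟨⟨_, k x hx⟩⟩ }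
  rintro ⟨x, hx⟩ ⟨y, hy⟩
  obtain ⟨u, hu, rfl⟩ := en_surj h x
  obtain ⟨v, hv, rfl⟩ := en_surj h y
  obtain ⟨a, ha, k1⟩ := down h hS _ u hu (Nat.lt_succ_self _) hx
  obtain ⟨b, hb, k2⟩ := down h hS _ v hv (Nat.lt_succ_self _) hy
  have : Rch G S (en fA fB a) (en fA fB b) := by
    rcases lt_trichotomy a b with e | rfl | e
    · exact base h hS ha hb e k1.2.1 k2.2.1
    · exact ⟨k1.2.1, k1.2.1, .refl _⟩
    · exact (base h hS hb ha e k2.2.1 k1.2.1).symm
  exact (k1.trans (this.trans k2.symm)).2.2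

set_option maxHeartbeats 4000000 in
lemma fin (z : ℕ → ℕ → ℕ) (h0 : ∀ a b, ¬ al a b → z a b = 0)
    (hr : ∀ a < 12, ∑ b ∈ range 12, z a b = 2 * if a < 6 then 35 else 34)
    (hc : ∀ b < 12, ∑ a ∈ range 12, z a b = 2 * if b < 6 then 34 else 35)
    (hx : ∀ X : List ℕ, (∃ a < 12, a ∈ X) → (∃ a < 12, a ∉ X) →
      ∃ a b, al a b ∧ ¬ (a ∈ X ↔ b ∈ X) ∧ 0 < z a b) : False := by
  have e : ∀ a b, z a b = if al a b then z a b else 0 := fun a b => by
    split_ifs with h
    · rfl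
    · exact h0 a b h
  have hr' : ∀ a < 12, ∑ b ∈ range 12, (if al a b then z a b else 0) =
      2 * if a < 6 then 35 else 34 := fun a ha => by
    rw [← hr a ha]; exact sum_congr rfl fun b _ => (e a b).symm
  have hc' : ∀ b < 12, ∑ a ∈ range 12, (if al a b then z a b else 0) =
      2 * if b < 6 then 34 else 35 := fun b hb => by
    rw [← hc b hb]; exact sum_congr rfl fun a _ => (e a b).symm
  have hx' : ∀ X : List ℕ, (∃ a < 12, a ∈ X) → (∃ a < 12, a ∉ X) →
      0 < ([(0, 8), (0, 9), (1, 7), (1, 9), (1, 11), (2, 6), (2, 9), (2, 10), (3, 6), (3, 7),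
        (3, 8), (4, 8), (4, 10), (4, 11), (5, 7), (5, 10)].map fun q : ℕ × ℕ =>
          if q.1 ∈ X ↔ q.2 ∈ X then 0 else z q.1 q.2).sum := by
    intro X h1 h2
    obtain ⟨a, b, h3, h4, h5⟩ := hx X h1 h2
    rcases h3 with rfl | h3
    · simp at h4
    · refine h5.trans_le (List.single_le_sum (fun _ _ => Nat.zero_le _) _
        (List.mem_map.mpr ⟨(a, b), h3, if_neg h4⟩))
  have r0 := hr' 0 (by omega); have r1 := hr' 1 (by omega); have r2 := hr' 2 (by omega)
  have r3 := hr' 3 (by omega); have r4 := hr' 4 (by omega); have r5 := hr' 5 (by omega)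
  have r6 := hr' 6 (by omega); have r7 := hr' 7 (by omega); have r8 := hr' 8 (by omega)
  have r9 := hr' 9 (by omega); have r10 := hr' 10 (by omega); have r11 := hr' 11 (by omega)
  have s0 := hc' 0 (by omega); have s1 := hc' 1 (by omega); have s2 := hc' 2 (by omega)
  have s3 := hc' 3 (by omega); have s4 := hc' 4 (by omega); have s5 := hc' 5 (by omega)
  have s6 := hc' 6 (by omega); have s7 := hc' 7 (by omega); have s8 := hc' 8 (by omega)
  have s9 := hc' 9 (by omega); have s10 := hc' 10 (by omega); have s11 := hc' 11 (by omega)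
  have x0 := hx' [0, 8] (by decide) (by decide)
  have x1 := hx' [0, 9] (by decide) (by decide)
  have x2 := hx' [5, 7] (by decide) (by decide)
  have x3 := hx' [5, 10] (by decide) (by decide)
  have x4 := hx' [2, 6] (by decide) (by decide)
  have x5 := hx' [3, 6] (by decide) (by decide)
  have x6 := hx' [1, 11] (by decide) (by decide)
  have x7 := hx' [4, 11] (by decide) (by decide)
  have x8 := hx' [1, 7, 5, 10, 4, 11] (by decide) (by decide)
  have x9 := hx' [7, 3, 6, 2, 10, 5] (by decide) (by decide)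
  simp [sum_range_succ, al] at r0 r1 r2 r3 r4 r5 r6 r7 r8 r9 r10 r11
  simp [sum_range_succ, al] at s0 s1 s2 s3 s4 s5 s6 s7 s8 s9 s10 s11
  simp [-add_pos_iff, -Nat.add_pos_iff_pos_or_pos] at x0 x1 x2 x3 x4 x5 x6 x7 x8 x9
  omega

end Pool.Agent.Lib.helper22.CfgF
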