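import Mathlib
import Pool.Agent.Lib.helper22.CfgF

namespace Pool.Agent.Lib.helper22.CfgG

open Finset Pool.Agent.Lib.helper22.CfgD Pool.Agent.Lib.helper22.CfgE Pool.Agent.Lib.helper22.CfgF

lemma bP_lt {i : ℕ} (h : i < 414) : bP i < 12 := by unfold bP; split_ifs <;> omega

lemma bL_lt {i : ℕ} (h : i < 414) : bL i < 12 := by unfold bL; split_ifs <;> omega

lemma rowsum (x : ℕ → ℕ → Prop) [∀ i j, Decidable (x i j)] (f g : ℕ → ℕ)
    (hg : ∀ j < 414, g j < 12) (h : ∀ i < 414, ((range 414).filter fun j => x i j).card = 2)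
    (a : ℕ) : ∑ b ∈ range 12, ∑ i ∈ range 414, ∑ j ∈ range 414,
      (if x i j ∧ f i = a ∧ g j = b then 1 else 0) =
      2 * ((range 414).filter fun i => f i = a).card := by
  rw [sum_comm, card_filter, mul_sum]
  refine sum_congr rfl fun i hi => ?_
  rw [sum_comm, ← h i (mem_range.mp hi), card_filter, sum_mul]
  refine sum_congr rfl fun j hj => ?_
  rw [sum_eq_single_of_mem (g j) (mem_range.mpr (hg j (mem_range.mp hj)))
    (fun b _ hb => if_neg fun h => hb h.2.2.symm)]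
  by_cases h1 : x i j <;> by_cases h2 : f i = a <;> simp [h1, h2]

lemma nh (x : ℕ → ℕ → Prop) [∀ i j, Decidable (x i j)]
    (h0 : ∀ i < 414, ∀ j < 414, x i j → j ∈ nl MP i)
    (h1 : ∀ i < 414, ((range 414).filter fun j => x i j).card = 2)
    (h2 : ∀ j < 414, ((range 414).filter fun i => x i j).card = 2)
    (h3 : ∀ X : List ℕ, (∃ a < 12, a ∈ X) → (∃ a < 12, a ∉ X) →
      ∃ i < 414, ∃ j < 414, x i j ∧ ¬ (bP i ∈ X ↔ bL j ∈ X)) : False := by
  refine fin (fun a b => ∑ i ∈ range 414, ∑ j ∈ range 414,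
    if x i j ∧ bP i = a ∧ bL j = b then 1 else 0) (fun a b hab => ?_) (fun a ha => ?_)
    (fun b hb => ?_) (fun X k1 k2 => ?_)
  · refine sum_eq_zero fun i hi => sum_eq_zero fun j hj => if_neg ?_
    rintro ⟨k, rfl, rfl⟩
    exact hab ((c4 i (mem_range.mp hi)).2.1 j (h0 i (mem_range.mp hi) j (mem_range.mp hj) k)).2.2
  · rw [rowsum x bP bL (fun _ => bL_lt) h1, (c10 a ha).1]
  · rw [← (c10 b hb).2, ← rowsum (fun j i => x i j) bL bP (fun _ => bP_lt) h2]
    refine sum_congr rfl fun a _ => ?_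
    rw [sum_comm]
    exact sum_congr rfl fun j _ => sum_congr rfl fun i _ => by simp only [and_comm]
  · obtain ⟨i, hi, j, hj, k3, k4⟩ := h3 X k1 k2
    refine ⟨bP i, bL j, ((c4 i hi).2.1 j (h0 i hi j hj k3)).2.2, k4, ?_⟩
    refine lt_of_lt_of_le ?_ (single_le_sum (f := fun i' => ∑ j' ∈ range 414,
      if x i' j' ∧ bP i' = bP i ∧ bL j' = bL j then 1 else 0) (fun _ _ => Nat.zero_le _)
      (mem_range.mpr hi))
    refine lt_of_lt_of_le ?_ (single_le_sum (f := fun j' =>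
      if x i j' ∧ bP i = bP i ∧ bL j' = bL j then 1 else 0) (fun _ _ => Nat.zero_le _)
      (mem_range.mpr hj))
    simp [k3]

variable {A B : Type*} {G : SimpleGraph (A ⊕ B)} {fA : ℕ → A} {fB : ℕ → B}

theorem nonham [Fintype (A ⊕ B)] [DecidableEq (A ⊕ B)] (h : Ok G fA fB) : ¬ G.IsHamiltonian := by
  classical
  intro hG
  haveI : Nontrivial (A ⊕ B) := ⟨.inl (fA 0), .inr (fB 0), by simp⟩
  obtain ⟨c, hc⟩ := hG.exists_isHamiltonianCycle (.inl (fA 0))
  have h2 := fun v => SimpleGraph.Walk.IsCycle.ncard_neighborSet_toSubgraph_eq_two hc.isCycle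
    (hc.mem_support v)
  set H := c.toSubgraph with hH
  refine nh (fun i j => H.Adj (.inl (fA i)) (.inr (fB j)))
    (fun i hi j hj k => (h.adj i hi j hj).mp (H.adj_sub k)) (fun i hi => ?_) (fun j hj => ?_)
    (fun X k1 k2 => ?_)
  · rw [← h2 (.inl (fA i)), ← card_image_of_injOn (f := fun j => (.inr (fB j) : A ⊕ B))
      (fun a ha b hb e => h.iB a (mem_range.mp (mem_filter.mp ha).1) b
        (mem_range.mp (mem_filter.mp hb).1) (Sum.inr.inj e)), ← Set.ncard_coe_finset]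
    congr 1
    ext w
    simp only [coe_image, coe_filter, mem_range, Set.mem_image, Set.mem_setOf_eq,
      SimpleGraph.Subgraph.mem_neighborSet]
    refine ⟨fun ⟨j, k, e⟩ => e ▸ k.2, fun k => ?_⟩
    rcases w with a | b
    · exact absurd (H.adj_sub k) (h.ll _ _)
    · obtain ⟨j, hj, rfl⟩ := h.sB b
      exact ⟨j, ⟨hj, k⟩, rfl⟩
  · rw [← h2 (.inr (fB j)), ← card_image_of_injOn (f := fun j => (.inl (fA j) : A ⊕ B))
      (fun a ha b hb e => h.iA a (mem_range.mp (mem_filter.mp ha).1) b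
        (mem_range.mp (mem_filter.mp hb).1) (Sum.inl.inj e)), ← Set.ncard_coe_finset]
    congr 1
    ext w
    simp only [coe_image, coe_filter, mem_range, Set.mem_image, Set.mem_setOf_eq,
      SimpleGraph.Subgraph.mem_neighborSet]
    refine ⟨fun ⟨j, k, e⟩ => e ▸ k.2.symm, fun k => ?_⟩
    rcases w with a | b
    · obtain ⟨i, hi, rfl⟩ := h.sA a
      exact ⟨i, ⟨hi, k.symm⟩, rfl⟩
    · exact absurd (H.adj_sub k) (h.rr _ _)
  · have ex : ∀ a < 12, ∃ i < 414, bP i = a := fun a ha => by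
      have : 0 < ((range 414).filter fun i => bP i = a).card := by
        rw [(c10 a ha).1]; split_ifs <;> omega
      obtain ⟨i, hi⟩ := card_pos.mp this
      exact ⟨i, mem_range.mp (mem_filter.mp hi).1, (mem_filter.mp hi).2⟩
    obtain ⟨a, ha, k1⟩ := k1
    obtain ⟨b, hb, k2⟩ := k2
    obtain ⟨s, hs, rfl⟩ := ex a ha
    obtain ⟨t, ht, rfl⟩ := ex b hb
    have hv : ∀ v, v ∈ H.verts := fun v => c.mem_verts_toSubgraph.mpr (hc.mem_support v)
    obtain ⟨p⟩ := c.toSubgraph_connected.coe.preconnected ⟨.inl (fA s), hv _⟩ ⟨.inl (fA t), hv _⟩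
    set T : Set (A ⊕ B) := {w | (∃ i < 414, w = .inl (fA i) ∧ bP i ∈ X) ∨
      ∃ j < 414, w = .inr (fB j) ∧ bL j ∈ X} with hT
    have m1 : ∀ i < 414, .inl (fA i) ∈ T ↔ bP i ∈ X := fun i hi => by
      refine ⟨?_, fun k => Or.inl ⟨i, hi, rfl, k⟩⟩
      rintro (⟨k, hk, e, k3⟩ | ⟨k, hk, e, k3⟩)
      · rwa [h.iA i hi k hk (Sum.inl.inj e)]
      · cases e
    have m2 : ∀ i < 414, .inr (fB i) ∈ T ↔ bL i ∈ X := fun i hi => by
      refine ⟨?_, fun k => Or.inr ⟨i, hi, rfl, k⟩⟩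
      rintro (⟨k, hk, e, k3⟩ | ⟨k, hk, e, k3⟩)
      · cases e
      · rwa [h.iB i hi k hk (Sum.inr.inj e)]
    obtain ⟨⟨⟨⟨u, hu⟩, ⟨v, hv⟩⟩, hd⟩, -, d1, d2⟩ := p.exists_boundary_dart {w | w.1 ∈ T}
      ((m1 s hs).mpr k1) (fun k => k2 ((m1 t ht).mp k))
    have hd : H.Adj u v := hd
    have d1 : u ∈ T := d1
    have d2 : v ∉ T := d2
    rcases u with u | u <;> rcases v with v | v
    · exact absurd (H.adj_sub hd) (h.ll _ _)
    · obtain ⟨i, hi, rfl⟩ := h.sA u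
      obtain ⟨j, hj, rfl⟩ := h.sB v
      exact ⟨i, hi, j, hj, hd, fun k => d2 ((m2 j hj).mpr (k.mp ((m1 i hi).mp d1)))⟩
    · obtain ⟨i, hi, rfl⟩ := h.sA v
      obtain ⟨j, hj, rfl⟩ := h.sB u
      exact ⟨i, hi, j, hj, hd.symm, fun k => d2 ((m1 i hi).mpr (k.mpr ((m2 j hj).mp d1)))⟩
    · exact absurd (H.adj_sub hd) (h.rr _ _)

abbrev E2 := EuclideanSpace ℝ (Fin 2)

noncomputable def phi (a b : ℝ) : E2 →ₗ[ℝ] ℝ where
  toFun p := a * p 0 + b * p 1
  map_add' p q := by simp; ring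
  map_smul' t p := by simp; ring

noncomputable def lineOf (a b c : ℝ) : AffineSubspace ℝ E2 :=
  AffineSubspace.mk' !₂[- c * a / (a ^ 2 + b ^ 2), - c * b / (a ^ 2 + b ^ 2)]
    (LinearMap.ker (phi a b))

lemma mem_lineOf {a b c : ℝ} (h : a ≠ 0 ∨ b ≠ 0) (p : E2) :
    p ∈ lineOf a b c ↔ a * p 0 + b * p 1 + c = 0 := by
  have h1 : a ^ 2 + b ^ 2 ≠ 0 := by rcases h with h | h <;> positivity
  rw [lineOf, AffineSubspace.mem_mk', LinearMap.mem_ker, vsub_eq_sub, map_sub]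
  have : phi a b !₂[- c * a / (a ^ 2 + b ^ 2), - c * b / (a ^ 2 + b ^ 2)] = - c := by
    simp [phi]; field_simp; ring
  rw [this, sub_neg_eq_add]; rfl

lemma rank_lineOf {a b : ℝ} (h : a ≠ 0 ∨ b ≠ 0) (c : ℝ) :
    Module.finrank ℝ (lineOf a b c).direction = 1 := by
  rw [lineOf, AffineSubspace.direction_mk']
  have h1 : phi a b ≠ 0 := fun e => by
    have h2 : phi a b !₂[1, 0] = 0 := by rw [e]; rfl
    have h3 : phi a b !₂[0, 1] = 0 := by rw [e]; rfl
    simp [phi] at h2 h3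
    tauto
  have := Module.Dual.finrank_ker_add_one_of_ne_zero h1
  rw [finrank_euclideanSpace_fin] at this
  omega

noncomputable def pt (i : ℕ) : E2 := !₂[((pts.getD i 0).1 : ℝ), ((pts.getD i 0).2 : ℝ)]

noncomputable def ln (j : ℕ) : AffineSubspace ℝ E2 :=
  lineOf (((lns.getD j 0).1.1 : ℝ) - (lns.getD j 0).2.1)
    (((lns.getD j 0).1.2.1 : ℝ) - (lns.getD j 0).2.2.1)
    (((lns.getD j 0).1.2.2 : ℝ) - (lns.getD j 0).2.2.2)

lemma nondeg {j : ℕ} (hj : j < 414) : ((lns.getD j 0).1.1 : ℝ) - (lns.getD j 0).2.1 ≠ 0 ∨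
    ((lns.getD j 0).1.2.1 : ℝ) - (lns.getD j 0).2.2.1 ≠ 0 := by
  have h1 : j < lns.length := c1.2 ▸ hj
  rw [List.getD_eq_getElem _ _ h1]
  simpa only [sub_ne_zero, ne_eq, Nat.cast_inj] using c3 _ (List.getElem_mem h1)

lemma inc {i j : ℕ} (hi : i < 414) (hj : j < 414) : pt i ∈ ln j ↔ j ∈ nl MP i := by
  have h1 : j < lns.length := c1.2 ▸ hj
  have h2 : i < pts.length := c1.1 ▸ hi
  have h3 : nbOf (pts.getD i 0) = nl MP i := by
    have := congrArg (fun l => l[i]?) c2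
    simpa [h2, hi] using this
  have h4 : test (pts.getD i 0) (lns.getD j 0) = true ↔ j ∈ nl MP i := by
    rw [← h3, nbOf]
    simp only [List.mem_map, List.mem_filter, List.mem_zipIdx_iff_getElem?]
    refine ⟨fun k => ⟨(lns.getD j 0, j), ⟨by simp [h1], k⟩, rfl⟩, ?_⟩
    rintro ⟨q, ⟨k1, k2⟩, rfl⟩
    rwa [List.getD_eq_getElem?_getD (l := lns), k1]
  rw [← h4, ln, mem_lineOf (nondeg hj), test, Nat.beq_eq, ← Nat.cast_inj (R := ℝ)]
  simp only [lin, pt, Nat.add_eq, Nat.mul_eq]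
  push_cast
  constructor <;> intro k <;> linarith

lemma inc' {i j : ℕ} (hi : i < 414) (hj : j < 414) : pt i ∈ ln j ↔ i ∈ nl ML j :=
  (inc hi hj).trans ⟨fun k => ((c4 i hi).2.1 j k).2.1, fun k => ((c5 j hj).2.1 i k).2⟩

lemma pt_inj : ∀ i < 414, ∀ k < 414, pt i = pt k → i = k := by
  intro i hi k hk e
  have h : ∀ j ∈ nl MP i, k ∈ nl ML j := fun j hj => by
    have h1 := ((c4 i hi).2.1 j hj).1
    exact (inc' hk h1).mp (e ▸ (inc hi h1).mpr hj)
  exact ((c4 i hi).2.2 k (h _ (by simp [nl])) (h _ (by simp [nl]))).symm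

lemma ln_inj : ∀ i < 414, ∀ k < 414, ln i = ln k → i = k := by
  intro i hi k hk e
  have h : ∀ j ∈ nl ML i, k ∈ nl MP j := fun j hj => by
    have h1 := ((c5 i hi).2.1 j hj).1
    exact (inc h1 hk).mp (e ▸ (inc' h1 hi).mpr hj)
  exact ((c5 i hi).2.2 k (h _ (by simp [nl])) (h _ (by simp [nl]))).symm

open Classical in
theorem main : ∃ (P : Finset E2) (L : Finset (AffineSubspace ℝ E2)),
    P.Nonempty ∧ (∀ l ∈ L, Module.finrank ℝ l.direction = 1) ∧
    (∀ p ∈ P, (L.filter (fun l => p ∈ l)).card = 4) ∧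
    (∀ l ∈ L, (P.filter (fun p => p ∈ l)).card = 4) ∧
    ∃ (fA : ℕ → {p // p ∈ P}) (fB : ℕ → {l // l ∈ L}), Ok (SimpleGraph.fromRel
      (fun a b : {p // p ∈ P} ⊕ {l // l ∈ L} =>
        ∃ p l, a = Sum.inl p ∧ b = Sum.inr l ∧ (p : E2) ∈ (l : AffineSubspace ℝ E2))) fA fB := by
  refine ⟨(range 414).image pt, (range 414).image ln, by simp, ?_, ?_, ?_,
    fun i => ⟨pt (i % 414), mem_image_of_mem _ (mem_range.mpr (Nat.mod_lt _ (by omega)))⟩,
    fun i => ⟨ln (i % 414), mem_image_of_mem _ (mem_range.mpr (Nat.mod_lt _ (by omega)))⟩,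
    fun i hi j hj => ?_, by simp, by simp, ?_, ?_, fun i hi k hk e => ?_, fun i hi k hk e => ?_⟩
  · intro l hl
    obtain ⟨j, hj, rfl⟩ := mem_image.mp hl
    exact rank_lineOf (nondeg (mem_range.mp hj)) _
  · intro p hp
    obtain ⟨i, hi, rfl⟩ := mem_image.mp hp
    have hi := mem_range.mp hi
    rw [filter_image, card_image_of_injOn (fun a ha b hb e => ln_inj a
      (mem_range.mp (mem_filter.mp ha).1) b (mem_range.mp (mem_filter.mp hb).1) e),
      show ((range 414).filter fun j => pt i ∈ ln j) = (nl MP i).toFinset by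
        ext j
        rw [mem_filter, mem_range, List.mem_toFinset]
        exact ⟨fun k => (inc hi k.1).mp k.2, fun k => ⟨((c4 i hi).2.1 j k).1,
          (inc hi ((c4 i hi).2.1 j k).1).mpr k⟩⟩, List.toFinset_card_of_nodup (c4 i hi).1]
    rfl
  · intro l hl
    obtain ⟨i, hi, rfl⟩ := mem_image.mp hl
    have hi := mem_range.mp hi
    rw [filter_image, card_image_of_injOn (fun a ha b hb e => pt_inj a
      (mem_range.mp (mem_filter.mp ha).1) b (mem_range.mp (mem_filter.mp hb).1) e),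
      show ((range 414).filter fun j => pt j ∈ ln i) = (nl ML i).toFinset by
        ext j
        rw [mem_filter, mem_range, List.mem_toFinset]
        exact ⟨fun k => (inc' k.1 hi).mp k.2, fun k => ⟨((c5 i hi).2.1 j k).1,
          (inc' ((c5 i hi).2.1 j k).1 hi).mpr k⟩⟩, List.toFinset_card_of_nodup (c5 i hi).1]
    rfl
  · rw [SimpleGraph.fromRel_adj, ← inc hi hj]
    simp only [Nat.mod_eq_of_lt hi, Nat.mod_eq_of_lt hj]
    refine ⟨?_, fun k => ⟨by simp, Or.inl ⟨_, _, rfl, rfl, k⟩⟩⟩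
    rintro ⟨-, ⟨p, l, e1, e2, k⟩ | ⟨p, l, e1, -⟩⟩
    · cases e1; cases e2; exact k
    · cases e1
  · rintro ⟨p, hp⟩
    obtain ⟨i, hi, rfl⟩ := mem_image.mp hp
    exact ⟨i, mem_range.mp hi, by simp [Nat.mod_eq_of_lt (mem_range.mp hi)]⟩
  · rintro ⟨p, hp⟩
    obtain ⟨i, hi, rfl⟩ := mem_image.mp hp
    exact ⟨i, mem_range.mp hi, by simp [Nat.mod_eq_of_lt (mem_range.mp hi)]⟩
  · exact pt_inj i hi k hk (by simpa [Nat.mod_eq_of_lt hi, Nat.mod_eq_of_lt hk] using e)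
  · exact ln_inj i hi k hk (by simpa [Nat.mod_eq_of_lt hi, Nat.mod_eq_of_lt hk] using e)

lemma card_gt [Fintype (A ⊕ B)] (h : Ok G fA fB) : 4 < Fintype.card (A ⊕ B) := by
  have := Fintype.card_le_of_injective (fun i : Fin 5 => en fA fB i) fun a b e =>
    Fin.ext (en_inj h (by omega) (by omega) e)
  rw [Fintype.card_fin] at this
  omega

end Pool.Agent.Lib.helper22.CfgG
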