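import Mathlib

namespace Pool.Agent.Lib.helper22.DblA

open Finset
open scoped InnerProductSpace

variable {E : Type*} [NormedAddCommGroup E] [InnerProductSpace ℂ E] [FiniteDimensional ℂ E]
  [CompleteSpace E] {n : ℕ}

noncomputable def q (T : E →L[ℂ] E) (v : E) : ℝ := (⟪v, T v⟫_ℂ).re

def Sy (T : E →L[ℂ] E) : Prop := ∀ x y, ⟪T x, y⟫_ℂ = ⟪x, T y⟫_ℂ

def Eig (T : E →L[ℂ] E) (b : OrthonormalBasis (Fin n) ℂ E) (d : Fin n → ℝ) : Prop :=
  ∀ i, T (b i) = (d i : ℂ) • b i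

def Le (M N : E →L[ℂ] E) : Prop :=
  ∃ U ∈ unitary (E →L[ℂ] E), ∀ v, q M v ≤ q N (U v)

omit [FiniteDimensional ℂ E] [CompleteSpace E] in
lemma q_add (M N : E →L[ℂ] E) (v : E) : q (M + N) v = q M v + q N v := by
  simp [q, inner_add_right]

omit [FiniteDimensional ℂ E] [CompleteSpace E] in
lemma q_sub (M N : E →L[ℂ] E) (v : E) : q (M - N) v = q M v - q N v := by
  simp [q, inner_sub_right]

omit [FiniteDimensional ℂ E] [CompleteSpace E] in
lemma q_neg (M : E →L[ℂ] E) (v : E) : q (-M) v = - q M v := by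
  simp [q]

omit [FiniteDimensional ℂ E] [CompleteSpace E] in
lemma q_smul (c : ℝ) (M : E →L[ℂ] E) (v : E) : q ((c : ℂ) • M) v = c * q M v := by
  simp [q, inner_smul_right]

omit [FiniteDimensional ℂ E] [CompleteSpace E] in
lemma q_zero (M : E →L[ℂ] E) : q M 0 = 0 := by simp [q]

omit [FiniteDimensional ℂ E] [CompleteSpace E] in
lemma Sy.add {M N : E →L[ℂ] E} (h : Sy M) (h' : Sy N) : Sy (M + N) := fun x y => by
  simp [inner_add_left, inner_add_right, h x y, h' x y]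

omit [FiniteDimensional ℂ E] [CompleteSpace E] in
lemma Sy.sub {M N : E →L[ℂ] E} (h : Sy M) (h' : Sy N) : Sy (M - N) := fun x y => by
  simp [inner_sub_left, inner_sub_right, h x y, h' x y]

omit [FiniteDimensional ℂ E] [CompleteSpace E] in
lemma Sy.neg {M : E →L[ℂ] E} (h : Sy M) : Sy (-M) := fun x y => by
  simp [h x y]

omit [FiniteDimensional ℂ E] [CompleteSpace E] in
lemma Sy.smul {M : E →L[ℂ] E} (h : Sy M) (c : ℝ) : Sy ((c : ℂ) • M) := fun x y => by
  simp [inner_smul_left, inner_smul_right, h x y]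

omit [FiniteDimensional ℂ E] [CompleteSpace E] in
lemma Eig.apply {T : E →L[ℂ] E} {b : OrthonormalBasis (Fin n) ℂ E} {d : Fin n → ℝ}
    (h : Eig T b d) (v : E) : T v = ∑ i, (⟪b i, v⟫_ℂ * d i) • b i := by
  conv_lhs => rw [← b.sum_repr' v]
  simp only [map_sum, map_smul, h _, smul_smul]

omit [FiniteDimensional ℂ E] [CompleteSpace E] in
lemma Eig.inner {T : E →L[ℂ] E} {b : OrthonormalBasis (Fin n) ℂ E} {d : Fin n → ℝ}
    (h : Eig T b d) (v : E) (j : Fin n) : ⟪b j, T v⟫_ℂ = d j * ⟪b j, v⟫_ℂ := by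
  rw [h.apply, b.orthonormal.inner_right_fintype, mul_comm]

omit [FiniteDimensional ℂ E] [CompleteSpace E] in
lemma Eig.q {T : E →L[ℂ] E} {b : OrthonormalBasis (Fin n) ℂ E} {d : Fin n → ℝ}
    (h : Eig T b d) (v : E) : q T v = ∑ i, d i * ‖⟪b i, v⟫_ℂ‖ ^ 2 := by
  rw [DblA.q, ← b.sum_inner_mul_inner, Complex.re_sum]
  refine sum_congr rfl fun i _ => ?_
  rw [h.inner, ← inner_conj_symm v, mul_left_comm, Complex.conj_mul']
  norm_cast

omit [FiniteDimensional ℂ E] [CompleteSpace E] in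
lemma Eig.sy {T : E →L[ℂ] E} {b : OrthonormalBasis (Fin n) ℂ E} {d : Fin n → ℝ}
    (h : Eig T b d) : Sy T := by
  intro x y
  rw [← b.sum_inner_mul_inner, ← b.sum_inner_mul_inner x]
  refine sum_congr rfl fun i _ => ?_
  rw [h.inner y, ← inner_conj_symm (T x), h.inner x, map_mul, inner_conj_symm,
    Complex.conj_ofReal]
  ring

omit [FiniteDimensional ℂ E] [CompleteSpace E] in
lemma Eig.neg {T : E →L[ℂ] E} {b : OrthonormalBasis (Fin n) ℂ E} {d : Fin n → ℝ}
    (h : Eig T b d) : Eig (-T) b (fun i => - d i) := fun i => by simp [h i]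

omit [CompleteSpace E] in
lemma Sy.eig {T : E →L[ℂ] E} (h : Sy T) (hn : Module.finrank ℂ E = n) :
    ∃ (b : OrthonormalBasis (Fin n) ℂ E) (d : Fin n → ℝ), Eig T b d := by
  have hT : (T : E →ₗ[ℂ] E).IsSymmetric := h
  exact ⟨hT.eigenvectorBasis hn, hT.eigenvalues hn, fun i => hT.apply_eigenvectorBasis hn i⟩

omit [CompleteSpace E] in
lemma exists_dg (b : OrthonormalBasis (Fin n) ℂ E) (d : Fin n → ℝ) :
    ∃ T : E →L[ℂ] E, Eig T b d :=
  ⟨LinearMap.toContinuousLinearMap (b.toBasis.constr ℂ (fun i => (d i : ℂ) • b i)), fun i =>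
    b.toBasis.constr_basis ℂ (fun i => (d i : ℂ) • b i) i⟩

omit [CompleteSpace E] in
lemma exists_orth (hn : Module.finrank ℂ E = n) (I J : Finset (Fin n)) (a g : Fin n → E)
    (h : I.card + J.card < n) :
    ∃ v : E, v ≠ 0 ∧ (∀ i ∈ I, ⟪a i, v⟫_ℂ = 0) ∧ ∀ j ∈ J, ⟪g j, v⟫_ℂ = 0 := by
  classical
  set S : Finset E := I.image a ∪ J.image g with hS
  set L : Submodule ℂ E := Submodule.span ℂ (S : Set E) with hL
  have hLr : Module.finrank ℂ L ≤ I.card + J.card := by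
    refine (finrank_span_finset_le_card S).trans ?_
    exact (card_union_le _ _).trans (add_le_add card_image_le card_image_le)
  have hdim := L.finrank_add_finrank_orthogonal
  have hpos : Lᗮ ≠ ⊥ := by
    intro h0
    rw [h0, finrank_bot] at hdim
    omega
  obtain ⟨v, hv, hv0⟩ := Submodule.exists_mem_ne_zero_of_ne_bot hpos
  have hm : ∀ s ∈ S, ⟪s, v⟫_ℂ = 0 := fun s hs => hv s (Submodule.subset_span hs)
  exact ⟨v, hv0, fun i hi => hm _ (mem_union_left _ (mem_image_of_mem _ hi)),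
    fun i hi => hm _ (mem_union_right _ (mem_image_of_mem _ hi))⟩

lemma comb (μ ξ : Fin n → ℝ)
    (h : ∀ t, (univ.filter fun i => t < μ i).card ≤ (univ.filter fun i => t < ξ i).card) :
    ∃ s : Equiv.Perm (Fin n), ∀ i, μ i ≤ ξ (s i) := by
  have ha := Tuple.monotone_sort μ
  have hb := Tuple.monotone_sort ξ
  set a := Tuple.sort μ
  set b := Tuple.sort ξ
  have key : ∀ i, μ (a i) ≤ ξ (b i) := by
    intro i
    by_contra hlt
    have hlt := not_le.mp hlt
    have h1 : (Finset.Ici i).card ≤ (univ.filter fun j => ξ (b i) < μ j).card := by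
      refine card_le_card_of_injOn a (fun j hj => ?_) a.injective.injOn
      simp only [coe_filter, mem_univ, true_and, Set.mem_setOf_eq]
      exact hlt.trans_le (ha (by simpa using hj))
    have h2 : (univ.filter fun j => ξ (b i) < ξ j).card ≤ (Finset.Ioi i).card := by
      refine card_le_card_of_injOn b.symm (fun j hj => ?_) b.symm.injective.injOn
      simp only [coe_filter, mem_univ, true_and, Set.mem_setOf_eq] at hj
      simp only [coe_Ioi, Set.mem_Ioi]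
      by_contra hle
      have := hb (not_lt.mp hle)
      simp only [Function.comp_apply, Equiv.apply_symm_apply] at this
      linarith
    have h3 := h (ξ (b i))
    rw [Fin.card_Ici] at h1
    rw [Fin.card_Ioi] at h2
    have := i.2
    omega
  refine ⟨a.symm.trans b, fun i => ?_⟩
  simpa using key (a.symm i)

omit [CompleteSpace E] in
lemma match_of_fam (hn : Module.finrank ℂ E = n) {M : E →L[ℂ] E}
    {m : OrthonormalBasis (Fin n) ℂ E} {μ : Fin n → ℝ} (hM : Eig M m μ) (ξ : Fin n → ℝ)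
    (h : ∀ t, ∃ g : Fin n → E, ∀ v, (∀ j, t < ξ j → ⟪g j, v⟫_ℂ = 0) → q M v ≤ t * ‖v‖ ^ 2) :
    ∃ s : Equiv.Perm (Fin n), ∀ i, μ i ≤ ξ (s i) := by
  refine comb μ ξ fun t => ?_
  by_contra hlt
  obtain ⟨g, hg⟩ := h t
  have hc := card_filter_add_card_filter_not (s := (univ : Finset (Fin n))) (fun i => t < μ i)
  rw [card_univ, Fintype.card_fin] at hc
  obtain ⟨v, hv0, hv1, hv2⟩ := exists_orth hn (univ.filter fun i => ¬ t < μ i)
    (univ.filter fun i => t < ξ i) m g (by omega)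
  have h1 := hg v (fun j hj => hv2 j (by simp [hj]))
  rw [hM.q, ← m.sum_sq_norm_inner_right, mul_sum] at h1
  have h2 : ∀ i, t * ‖⟪m i, v⟫_ℂ‖ ^ 2 ≤ μ i * ‖⟪m i, v⟫_ℂ‖ ^ 2 := by
    intro i
    by_cases hi : t < μ i
    · exact mul_le_mul_of_nonneg_right hi.le (sq_nonneg _)
    · rw [hv1 i (by simp [not_lt.mp hi])]; simp
  have h3 := (sum_eq_sum_iff_of_le (fun i _ => h2 i)).mp
    (le_antisymm (sum_le_sum fun i _ => h2 i) h1)
  apply hv0
  rw [← m.sum_repr' v]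
  refine sum_eq_zero fun i _ => ?_
  by_cases hi : t < μ i
  · have := h3 i (mem_univ _)
    have h4 : ‖⟪m i, v⟫_ℂ‖ ^ 2 = 0 := by
      by_contra h5
      have := mul_right_cancel₀ h5 this
      linarith
    rw [norm_eq_zero.mp (pow_eq_zero_iff two_ne_zero |>.mp h4), zero_smul]
  · rw [hv1 i (by simp [not_lt.mp hi]), zero_smul]

omit [FiniteDimensional ℂ E] in
lemma le_of_match {M N : E →L[ℂ] E} {m x : OrthonormalBasis (Fin n) ℂ E} {μ ξ : Fin n → ℝ}
    (hM : Eig M m μ) (hN : Eig N x ξ) (s : Equiv.Perm (Fin n)) (h : ∀ i, μ i ≤ ξ (s i)) :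
    Le M N := by
  set e := m.equiv x s
  refine ⟨(Unitary.linearIsometryEquiv.symm e : unitary (E →L[ℂ] E)),
    (Unitary.linearIsometryEquiv.symm e).2, fun v => ?_⟩
  change q M v ≤ q N (e v)
  rw [hM.q, hN.q, ← Equiv.sum_comp s (fun j => ξ j * ‖⟪x j, e v⟫_ℂ‖ ^ 2)]
  refine sum_le_sum fun i _ => ?_
  have : x (s i) = e (m i) := by simp [e]
  rw [this, e.inner_map_map]
  exact mul_le_mul_of_nonneg_right (h i) (sq_nonneg _)

omit [FiniteDimensional ℂ E] [CompleteSpace E] in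
lemma Eig.q_le {N : E →L[ℂ] E} {x : OrthonormalBasis (Fin n) ℂ E} {ξ : Fin n → ℝ}
    (hN : Eig N x ξ) {t : ℝ} {v : E} (hv : ∀ j, t < ξ j → ⟪x j, v⟫_ℂ = 0) :
    DblA.q N v ≤ t * ‖v‖ ^ 2 := by
  rw [hN.q, ← x.sum_sq_norm_inner_right, mul_sum]
  refine sum_le_sum fun i _ => ?_
  by_cases hi : t < ξ i
  · rw [hv i hi]; simp
  · exact mul_le_mul_of_nonneg_right (not_lt.mp hi) (sq_nonneg _)

lemma match_of_le (hn : Module.finrank ℂ E = n) {M N : E →L[ℂ] E}
    {m x : OrthonormalBasis (Fin n) ℂ E} {μ ξ : Fin n → ℝ}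
    (hM : Eig M m μ) (hN : Eig N x ξ) (h : Le M N) :
    ∃ s : Equiv.Perm (Fin n), ∀ i, μ i ≤ ξ (s i) := by
  obtain ⟨U, hU, h⟩ := h
  refine match_of_fam hn hM ξ fun t => ⟨fun j => star U (x j), fun v hv => (h v).trans ?_⟩
  rw [← U.norm_map_of_mem_unitary hU v]
  refine hN.q_le fun j hj => ?_
  rw [← hv j hj, ContinuousLinearMap.star_eq_adjoint, ContinuousLinearMap.adjoint_inner_left]

lemma le_of_fam (hn : Module.finrank ℂ E = n) {M N : E →L[ℂ] E} (hM : Sy M)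
    {x : OrthonormalBasis (Fin n) ℂ E} {ξ : Fin n → ℝ} (hN : Eig N x ξ)
    (h : ∀ t, ∃ g : Fin n → E, ∀ v, (∀ j, t < ξ j → ⟪g j, v⟫_ℂ = 0) → q M v ≤ t * ‖v‖ ^ 2) :
    Le M N := by
  obtain ⟨m, μ, hm⟩ := hM.eig hn
  obtain ⟨s, hs⟩ := match_of_fam hn hm ξ h
  exact le_of_match hm hN s hs

omit [FiniteDimensional ℂ E] in
lemma le_of_q {M N : E →L[ℂ] E} (h : ∀ v, q M v ≤ q N v) : Le M N :=
  ⟨1, one_mem _, h⟩

omit [FiniteDimensional ℂ E] in
lemma Le.trans {M N P : E →L[ℂ] E} (h : Le M N) (h' : Le N P) : Le M P := by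
  obtain ⟨U, hU, h⟩ := h
  obtain ⟨V, hV, h'⟩ := h'
  exact ⟨V * U, mul_mem hV hU, fun v => (h v).trans (h' _)⟩

omit [FiniteDimensional ℂ E] in
lemma us {U : E →L[ℂ] E} (hU : U ∈ unitary (E →L[ℂ] E)) (v : E) : U (star U v) = v := by
  have := Unitary.mul_star_self_of_mem hU
  exact congr($this v)

omit [FiniteDimensional ℂ E] in
lemma Le.neg {M N : E →L[ℂ] E} (h : Le M N) : Le (-N) (-M) := by
  obtain ⟨U, hU, h⟩ := h
  refine ⟨star U, Unitary.star_mem hU, fun v => ?_⟩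
  have := h (star U v)
  rw [us hU] at this
  rw [q_neg, q_neg]; linarith

noncomputable def tr (T : E →L[ℂ] E) : ℝ := (LinearMap.trace ℂ E (T : E →ₗ[ℂ] E)).re

omit [CompleteSpace E] in
lemma tr_eq (T : E →L[ℂ] E) (b : OrthonormalBasis (Fin n) ℂ E) : tr T = ∑ i, q T (b i) := by
  rw [tr, LinearMap.trace_eq_sum_inner _ b, Complex.re_sum]; rfl

omit [CompleteSpace E] in
lemma Eig.tr {T : E →L[ℂ] E} {b : OrthonormalBasis (Fin n) ℂ E} {d : Fin n → ℝ}
    (h : Eig T b d) : tr T = ∑ i, d i := by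
  rw [tr_eq T b]
  refine sum_congr rfl fun i _ => ?_
  rw [DblA.q, h i, inner_smul_right, inner_self_eq_norm_sq_to_K, b.orthonormal.1 i]
  simp

omit [FiniteDimensional ℂ E] [CompleteSpace E] in
lemma tr_sub (M N : E →L[ℂ] E) : tr (M - N) = tr M - tr N := by simp [tr]

omit [FiniteDimensional ℂ E] [CompleteSpace E] in
lemma tr_neg (M : E →L[ℂ] E) : tr (-M) = - tr M := by simp [tr]

omit [CompleteSpace E] in
lemma apply_eq_zero (hn : Module.finrank ℂ E = n) {P : E →L[ℂ] E} (hP : Sy P)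
    (h0 : ∀ v, 0 ≤ q P v) {v : E} (hv : q P v ≤ 0) : P v = 0 := by
  obtain ⟨b, d, hb⟩ := hP.eig hn
  have hd : ∀ i, 0 ≤ d i := by
    intro i
    have := h0 (b i)
    rw [q, hb i, inner_smul_right, inner_self_eq_norm_sq_to_K, b.orthonormal.1 i] at this
    simpa using this
  rw [hb.q] at hv
  have h1 := (sum_eq_zero_iff_of_nonneg (fun i _ => mul_nonneg (hd i) (sq_nonneg _))).mp
    (le_antisymm hv (sum_nonneg fun i _ => mul_nonneg (hd i) (sq_nonneg _)))
  rw [hb.apply]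
  refine sum_eq_zero fun i _ => ?_
  rcases mul_eq_zero.mp (h1 i (mem_univ _)) with h | h
  · simp [h]
  · rw [norm_eq_zero.mp (pow_eq_zero_iff two_ne_zero |>.mp h)]; simp

end Pool.Agent.Lib.helper22.DblA
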