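import Mathlib
import Pool.Agent.Lib.helper22.DblA

namespace Pool.Agent.Lib.helper22.DblB

open Finset Pool.Agent.Lib.helper22.DblA InnerProductSpace
open scoped InnerProductSpace

variable {E : Type*} [NormedAddCommGroup E] [InnerProductSpace ℂ E] [FiniteDimensional ℂ E]
  [CompleteSpace E] {n : ℕ}

omit [FiniteDimensional ℂ E] [CompleteSpace E] in
lemma q_rank (a v : E) : q (rankOne ℂ a a) v = ‖⟪a, v⟫_ℂ‖ ^ 2 := by
  rw [q, rankOne_apply, inner_smul_right, ← inner_conj_symm v a, Complex.mul_conj']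
  norm_cast

omit [FiniteDimensional ℂ E] [CompleteSpace E] in
lemma q_rank2 (a b v : E) : q (rankOne ℂ a b + rankOne ℂ b a) v =
    2 * (starRingEnd ℂ ⟪a, v⟫_ℂ * ⟪b, v⟫_ℂ).re := by
  rw [q_add, q, q, rankOne_apply, rankOne_apply, inner_smul_right, inner_smul_right,
    ← inner_conj_symm v a, ← inner_conj_symm v b]
  simp only [Complex.mul_re, Complex.conj_re, Complex.conj_im]
  ring

omit [FiniteDimensional ℂ E] [CompleteSpace E] in
lemma sy_rank (a : E) : Sy (rankOne ℂ a a) := fun x y => by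
  simp [inner_smul_left, inner_smul_right, mul_comm]

omit [FiniteDimensional ℂ E] [CompleteSpace E] in
lemma sy_rank2 (a b : E) : Sy (rankOne ℂ a b + rankOne ℂ b a) := fun x y => by
  simp [inner_smul_left, inner_smul_right, inner_add_left, inner_add_right, mul_comm, add_comm]

omit [FiniteDimensional ℂ E] [CompleteSpace E] in
lemma bes (b : OrthonormalBasis (Fin n) ℂ E) (H : Finset (Fin n)) {y : E} (hy1 : ‖y‖ = 1)
    (hy : ∀ i, i ∉ H → ⟪b i, y⟫_ℂ = 0) (v : E) :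
    ‖⟪y, v⟫_ℂ‖ ^ 2 ≤ ∑ i ∈ H, ‖⟪b i, v⟫_ℂ‖ ^ 2 := by
  have h1 : ⟪y, v⟫_ℂ = ∑ i ∈ H, ⟪y, b i⟫_ℂ * ⟪b i, v⟫_ℂ := by
    rw [← b.sum_inner_mul_inner]
    refine (sum_subset (subset_univ H) fun i _ hi => ?_).symm
    rw [← inner_conj_symm y, hy i hi]; simp
  have h2 : ‖⟪y, v⟫_ℂ‖ ≤ ∑ i ∈ H, ‖⟪y, b i⟫_ℂ‖ * ‖⟪b i, v⟫_ℂ‖ := by
    rw [h1]; exact (norm_sum_le _ _).trans (le_of_eq (by simp))
  have h3 := sum_mul_sq_le_sq_mul_sq H (fun i => ‖⟪y, b i⟫_ℂ‖) (fun i => ‖⟪b i, v⟫_ℂ‖)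
  have h4 : ∑ i ∈ H, ‖⟪y, b i⟫_ℂ‖ ^ 2 ≤ 1 := by
    have := b.sum_sq_norm_inner_left y
    rw [hy1, one_pow] at this
    rw [← this]
    exact sum_le_sum_of_subset_of_nonneg (subset_univ H) fun _ _ _ => sq_nonneg _
  have h5 : 0 ≤ ∑ i ∈ H, ‖⟪b i, v⟫_ℂ‖ ^ 2 := sum_nonneg fun _ _ => sq_nonneg _
  have h6 := pow_le_pow_left₀ (norm_nonneg _) h2 2
  nlinarith

omit [FiniteDimensional ℂ E] [CompleteSpace E] in
lemma q_eigvec {T : E →L[ℂ] E} {b : OrthonormalBasis (Fin n) ℂ E} {d : Fin n → ℝ}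
    (h : Eig T b d) (i : Fin n) : q T (b i) = d i := by
  rw [q, h i, inner_smul_right, inner_self_eq_norm_sq_to_K, b.orthonormal.1 i]
  simp

lemma stepA (hn : Module.finrank ℂ E = n) {P : E →L[ℂ] E} (hP : Sy P) (h0 : ∀ v, 0 ≤ q P v)
    {u : E} {s : ℝ} (hs : 0 < s) (hu : P u ≠ 0) :
    ∃ Q : E →L[ℂ] E, Sy Q ∧ (∀ v, 0 ≤ q Q v) ∧
      (∀ v, q (P - (s : ℂ) • rankOne ℂ u u) v ≤ q Q v) ∧ Le Q P ∧ tr Q < tr P := by
  obtain ⟨e, d, he⟩ := (hP.sub ((sy_rank u).smul s)).eig hn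
  obtain ⟨Q, hQ⟩ := exists_dg e (fun i => max (d i) 0)
  obtain ⟨p, π, hp⟩ := hP.eig hn
  have hDP : Le (P - (s : ℂ) • rankOne ℂ u u) P := le_of_q fun v => by
    rw [q_sub, q_smul, q_rank]
    have : 0 ≤ s * ‖⟪u, v⟫_ℂ‖ ^ 2 := by positivity
    linarith
  obtain ⟨r, hr⟩ := match_of_le hn he hp hDP
  refine ⟨Q, hQ.sy, fun v => ?_, fun v => ?_, ?_, ?_⟩
  · rw [hQ.q]; exact sum_nonneg fun i _ => mul_nonneg (le_max_right _ _) (sq_nonneg _)
  · rw [hQ.q, he.q]
    exact sum_le_sum fun i _ => mul_le_mul_of_nonneg_right (le_max_left _ _) (sq_nonneg _)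
  · refine le_of_match hQ hp r fun i => max_le (hr i) ?_
    rw [← q_eigvec hp]; exact h0 _
  · rw [hQ.tr, tr_eq P e]
    have hd : ∀ i, d i = q P (e i) - s * ‖⟪u, e i⟫_ℂ‖ ^ 2 := fun i => by
      rw [← q_eigvec he, q_sub, q_smul, q_rank]
    have hle : ∀ i, max (d i) 0 ≤ q P (e i) := fun i => by
      refine max_le ?_ (h0 _)
      rw [hd]
      have : 0 ≤ s * ‖⟪u, e i⟫_ℂ‖ ^ 2 := by positivity
      linarith
    refine sum_lt_sum (fun i _ => hle i) ?_
    by_contra hcon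
    push Not at hcon
    apply hu
    rw [← e.sum_repr' u, map_sum]
    refine sum_eq_zero fun i _ => ?_
    rw [map_smul]
    have h1 := hcon i (mem_univ _)
    rcases le_max_iff.mp h1 with h2 | h2
    · rw [hd] at h2
      have h3 : ‖⟪u, e i⟫_ℂ‖ ^ 2 ≤ 0 := by nlinarith
      have h4 : ⟪u, e i⟫_ℂ = 0 := norm_eq_zero.mp (pow_eq_zero_iff two_ne_zero |>.mp
        (le_antisymm h3 (sq_nonneg _)))
      rw [← inner_conj_symm, h4]; simp
    · rw [apply_eq_zero hn hP h0 h2, smul_zero]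

def Good (X Z W : E →L[ℂ] E) : Prop :=
  ∃ X' Z' : E →L[ℂ] E, Sy X' ∧ Sy Z' ∧ Le X' X ∧ Le Z Z' ∧ (∀ v, 0 ≤ q (Z' - X') v) ∧
    Le (Z' - X') (W - X) ∧ tr (Z' - X') < tr (W - X)

lemma finish (hn : Module.finrank ℂ E = n) {X Z W X1 W1 : E →L[ℂ] E} (hX : Sy X1) (hW : Sy W1)
    (hP : W1 - X1 = W - X) (h0 : ∀ v, 0 ≤ q (W - X) v) (hX1 : Le X1 X) {u : E} {s : ℝ}
    (hs : 0 < s) (hu : (W - X) u ≠ 0) (hZ : Le Z (W1 - (s : ℂ) • rankOne ℂ u u)) :
    Good X Z W := by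
  obtain ⟨Q, hQ, hQ0, hQ1, hQ2, hQ3⟩ := stepA hn (hP ▸ hW.sub hX) h0 hs hu
  have e : W1 - (s : ℂ) • rankOne ℂ u u - (W1 - (s : ℂ) • rankOne ℂ u u - Q) = Q := by abel
  refine ⟨W1 - (s : ℂ) • rankOne ℂ u u - Q, W1 - (s : ℂ) • rankOne ℂ u u,
    (hW.sub ((sy_rank u).smul s)).sub hQ, hW.sub ((sy_rank u).smul s), ?_, hZ, ?_, ?_, ?_⟩
  · refine (le_of_q fun v => ?_).trans hX1
    have := hQ1 v
    rw [← hP] at this
    simp only [q_sub] at this ⊢
    linarith
  · rw [e]; exact hQ0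
  · rw [e]; exact hQ2
  · rw [e]; exact hQ3

omit [FiniteDimensional ℂ E] [CompleteSpace E] in
lemma eig_low {W : E →L[ℂ] E} {w : OrthonormalBasis (Fin n) ℂ E} {ζ : Fin n → ℝ}
    (hw : Eig W w ζ) (k : Fin n) (g : ℝ) :
    Eig (W - (g : ℂ) • rankOne ℂ (w k) (w k)) w (fun j => if j = k then ζ k - g else ζ j) := by
  intro j
  simp only [ContinuousLinearMap.sub_apply, ContinuousLinearMap.smul_apply, rankOne_apply, hw j]
  by_cases h : j = k
  · subst h
    rw [inner_self_eq_norm_sq_to_K, w.orthonormal.1 j]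
    simp [sub_smul]
  · rw [w.orthonormal.2 (Ne.symm h)]
    simp [h]

lemma cross (a b : ℂ) : |(starRingEnd ℂ a * b).re| ≤ ‖a‖ * ‖b‖ :=
  (Complex.abs_re_le_norm _).trans (le_of_eq (by simp))

lemma improve (hn : Module.finrank ℂ E = n) {X Z W : E →L[ℂ] E} (hX : Sy X) (hZ : Sy Z)
    (hW : Sy W) (hXZ : Le X Z) (hZW : Le Z W) (h0 : ∀ v, 0 ≤ q (W - X) v) (ht : tr Z < tr W) :
    Good X Z W := by
  classical
  obtain ⟨w, ζ, hw⟩ := hW.eig hn
  obtain ⟨b, z, hb⟩ := hZ.eig hn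
  obtain ⟨x, ξ, hx⟩ := hX.eig hn
  obtain ⟨s, hs⟩ := match_of_le hn hb hw hZW
  obtain ⟨r, hr⟩ := match_of_le hn hx hb hXZ
  obtain ⟨i1, hi1⟩ : ∃ i, z i < ζ (s i) := by
    by_contra hc
    push Not at hc
    rw [hb.tr, hw.tr, ← Equiv.sum_comp s ζ] at ht
    exact absurd (sum_le_sum fun i _ => hc i) (not_le.mpr ht)
  have low : ∀ s' : Equiv.Perm (Fin n), (∀ i, z i ≤ ζ (s' i)) →
      Le Z (W - ((ζ (s' i1) - z i1 : ℝ) : ℂ) • rankOne ℂ (w (s' i1)) (w (s' i1))) := by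
    intro s' hs'
    refine le_of_match hb (eig_low hw (s' i1) _) s' fun i => ?_
    by_cases h : s' i = s' i1
    · rw [if_pos h, s'.injective h]; linarith
    · rw [if_neg h]; exact hs' i
  by_cases hc : ∃ k, ζ k = ζ (s i1) ∧ (W - X) (w k) ≠ 0
  · obtain ⟨k, hk, hk0⟩ := hc
    have e : (s.trans (Equiv.swap (s i1) k)) i1 = k := by simp
    have := low (s.trans (Equiv.swap (s i1) k)) (fun i => by
      simp only [Equiv.trans_apply, Equiv.swap_apply_def]
      split_ifs with h1 h2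
      · rw [hk, ← h1]; exact hs i
      · rw [← hk, ← h2]; exact hs i
      · exact hs i)
    rw [e] at this
    exact finish hn hX hW rfl h0 (le_of_q fun _ => le_rfl) (by rw [hk]; linarith) hk0 this
  push Not at hc
  set i0 := s i1 with hi0
  set c := ζ i0 with hcdef
  set g := c - z i1 with hg
  have hg0 : 0 < g := by linarith
  set u := w i0 with hu
  have hu1 : ‖u‖ = 1 := w.orthonormal.1 i0
  have hxw : ∀ k j, ζ k = c → ξ j ≠ c → ⟪x j, w k⟫_ℂ = 0 := by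
    intro k j hk hj
    have h1 := hc k hk
    rw [ContinuousLinearMap.sub_apply, sub_eq_zero, hw k] at h1
    have h2 := hx.inner (w k) j
    rw [← h1, inner_smul_right, hk] at h2
    by_contra h3
    exact hj (by exact_mod_cast (mul_right_cancel₀ h3 h2).symm)
  have hcard : (univ.filter fun i => ζ i < c).card + (univ.filter fun j => c ≤ ξ j).card < n := by
    have h1 : (univ.filter fun j => c ≤ ξ j).card ≤
        ((univ.filter fun i => ¬ ζ i < c).erase i0).card := by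
      refine card_le_card_of_injOn (fun j => s (r j)) (fun j hj => ?_)
        (s.injective.comp r.injective).injOn
      simp only [coe_filter, mem_univ, true_and, Set.mem_setOf_eq] at hj
      have h2 := hr j
      have h3 := hs (r j)
      simp only [coe_erase, coe_filter, mem_univ, true_and, Set.mem_diff, Set.mem_setOf_eq,
        Set.mem_singleton_iff]
      refine ⟨by linarith, fun h4 => ?_⟩
      rw [s.injective h4] at h2
      linarith
    rw [card_erase_of_mem (by simp [hcdef])] at h1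
    have h2 := card_filter_add_card_filter_not (s := (univ : Finset (Fin n))) (fun i => ζ i < c)
    rw [card_univ, Fintype.card_fin] at h2
    have h3 : 0 < (univ.filter fun i => ¬ ζ i < c).card := card_pos.mpr ⟨i0, by simp [hcdef]⟩
    omega
  obtain ⟨y0, hy0, hy1, hy2⟩ := exists_orth hn _ _ w x hcard
  set y : E := ((‖y0‖⁻¹ : ℝ) : ℂ) • y0 with hy
  have hyn : ‖y‖ = 1 := by
    rw [hy, norm_smul, Complex.norm_real, norm_inv, norm_norm,
      inv_mul_cancel₀ (norm_ne_zero_iff.mpr hy0)]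
  have hyw : ∀ i, ζ i < c → ⟪w i, y⟫_ℂ = 0 := fun i hi => by
    rw [hy, inner_smul_right, hy1 i (by simp [hi]), mul_zero]
  have hyx : ∀ j, c ≤ ξ j → ⟪x j, y⟫_ℂ = 0 := fun i hi => by
    rw [hy, inner_smul_right, hy2 i (by simp [hi]), mul_zero]
  obtain ⟨γ, hγ, hγ'⟩ : ∃ γ > 0, ∀ j, ξ j < c → ξ j + γ ≤ c := by
    by_cases hne : (univ.filter fun j => ξ j < c).Nonempty
    · obtain ⟨j0, hj0, hj1⟩ := exists_max_image _ ξ hne
      refine ⟨c - ξ j0, by simpa using hj0, fun j hj => ?_⟩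
      have := hj1 j (by simp [hj])
      linarith
    · exact ⟨1, one_pos, fun j hj => absurd ⟨j, by simp [hj]⟩ hne⟩
  obtain ⟨T, hT, hT'⟩ : ∃ T > 0, ∀ i, ζ i < c + T := by
    refine ⟨∑ i, |ζ i - c| + 1, by positivity, fun i => ?_⟩
    have := single_le_sum (f := fun i => |ζ i - c|) (fun i _ => abs_nonneg _) (mem_univ i)
    have := le_abs_self (ζ i - c)
    linarith
  have hPy : (W - X) y ≠ 0 := by
    intro h
    have h1 : q (W - X) y = 0 := by simp [q, h]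
    have h2 := hw.neg.q_le (t := -c) (v := y) fun j hj => hyw j (by linarith)
    have h3 := hx.q_le (t := c - γ) (v := y) fun j hj => hyx j (by
      by_contra h4
      have := hγ' j (not_le.mp h4)
      linarith)
    rw [q_neg, hyn] at h2
    rw [hyn] at h3
    rw [q_sub] at h1
    linarith
  set κ := g / 4 with hκ
  set ε := min (g / 8) γ with hε
  have hε0 : 0 < ε := lt_min (by linarith) hγ
  have hε1 : ε ≤ g / 8 := min_le_left _ _
  have hε2 : ε ≤ γ := min_le_right _ _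
  set α := ε / (κ + T) with hα
  have hα0 : 0 < α := div_pos hε0 (by linarith)
  have hα1 : α * (κ + T) = ε := div_mul_cancel₀ _ (by linarith)
  set s' := g / (4 * (1 + α) ^ 2) with hs'
  have hs0 : 0 < s' := by positivity
  have hs1 : s' * (1 + α) ^ 2 = g / 4 := by rw [hs']; field_simp
  set Δ : E →L[ℂ] E := (ε : ℂ) • (rankOne ℂ u y + rankOne ℂ y u) - (κ : ℂ) • rankOne ℂ u u
    with hΔ
  have hΔs : Sy Δ := ((sy_rank2 u y).smul ε).sub ((sy_rank u).smul κ)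
  have hΔq : ∀ v, q Δ v = ε * (2 * (starRingEnd ℂ ⟪u, v⟫_ℂ * ⟪y, v⟫_ℂ).re) -
      κ * ‖⟪u, v⟫_ℂ‖ ^ 2 := fun v => by
    rw [hΔ, q_sub, q_smul, q_smul, q_rank, q_rank2]
  set u' := u - (α : ℂ) • y with hu'
  have hu'v : ∀ v, ⟪u', v⟫_ℂ = ⟪u, v⟫_ℂ - α * ⟪y, v⟫_ℂ := fun v => by
    rw [hu', inner_sub_left, inner_smul_left, Complex.conj_ofReal]
  refine finish hn (X1 := X + Δ) (W1 := W + Δ) (hX.add hΔs) (hW.add hΔs) (by abel) h0 ?_
    (u := u') hs0 ?_ ?_
  · refine le_of_fam hn (hX.add hΔs) hx fun t => ⟨x, fun v hv => ?_⟩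
    rw [q_add, hΔq]
    rcases lt_or_ge t c with htc | htc
    · have : ⟪u, v⟫_ℂ = 0 := by
        rw [← x.sum_inner_mul_inner]
        refine sum_eq_zero fun j _ => ?_
        by_cases hj : t < ξ j
        · rw [hv j hj, mul_zero]
        · rw [← inner_conj_symm, hxw i0 j rfl (by linarith)]; simp
      rw [this]
      simpa using hx.q_le hv
    · have h1 := bes x (univ.filter fun j => ξ j < c) hyn
        (fun i hi => hyx i (by simpa using hi)) v
      have h2 : q X v + γ * ∑ i ∈ univ.filter (fun j => ξ j < c), ‖⟪x i, v⟫_ℂ‖ ^ 2 ≤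
          t * ‖v‖ ^ 2 := by
        rw [hx.q, ← x.sum_sq_norm_inner_right, sum_filter, mul_sum, mul_sum, ← sum_add_distrib]
        refine sum_le_sum fun j _ => ?_
        by_cases hj : t < ξ j
        · rw [hv j hj]; simp
        · split_ifs with h3
          · have := hγ' j h3
            nlinarith [sq_nonneg ‖⟪x j, v⟫_ℂ‖]
          · nlinarith [sq_nonneg ‖⟪x j, v⟫_ℂ‖]
      have h3 := (le_abs_self _).trans (cross ⟪u, v⟫_ℂ ⟪y, v⟫_ℂ)
      set A := ‖⟪u, v⟫_ℂ‖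
      set B := ‖⟪y, v⟫_ℂ‖
      have h4 := mul_le_mul_of_nonneg_left h1 hγ.le
      have h5 := mul_le_mul_of_nonneg_left h3 hε0.le
      have h6 : 0 ≤ ε * (A - B) ^ 2 := by positivity
      have h7 : ε * A ^ 2 ≤ κ * A ^ 2 := mul_le_mul_of_nonneg_right (by linarith) (sq_nonneg _)
      have h8 : ε * B ^ 2 ≤ γ * B ^ 2 := mul_le_mul_of_nonneg_right hε2 (sq_nonneg _)
      nlinarith
  · rw [hu', map_sub, map_smul, hc i0 rfl, zero_sub, neg_ne_zero]
    exact smul_ne_zero (by exact_mod_cast hα0.ne') hPy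
  · refine (low s hs).trans ?_
    have hsy := (hW.add hΔs).sub ((sy_rank u').smul s')
    have := (le_of_fam hn hsy.neg (eig_low hw i0 g).neg fun t =>
      ⟨fun j => if j = i0 then u' else w j, fun v hv => ?_⟩).neg
    · rwa [neg_neg, neg_neg] at this
    rw [q_neg, q_sub, q_add, q_smul, q_rank, hΔq, hw.q]
    have hv' : ∀ j, j ≠ i0 → t < - ζ j → ⟪w j, v⟫_ℂ = 0 := fun j hj ht' => by
      have := hv j (by simpa [hj] using ht')
      simpa [hj] using this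
    rcases lt_or_ge t (-(c - g)) with htc | htc
    · have h1 : ⟪u', v⟫_ℂ = 0 := by
        have := hv i0 (by simpa using htc)
        simpa using this
      have h2 : ⟪u, v⟫_ℂ = α * ⟪y, v⟫_ℂ := by rw [hu'v] at h1; exact sub_eq_zero.mp h1
      have h3 : (starRingEnd ℂ ⟪u, v⟫_ℂ * ⟪y, v⟫_ℂ).re = α * ‖⟪y, v⟫_ℂ‖ ^ 2 := by
        rw [h2, map_mul, Complex.conj_ofReal, mul_assoc, Complex.conj_mul']
        norm_cast
      have h4 : ‖⟪u, v⟫_ℂ‖ ^ 2 = α ^ 2 * ‖⟪y, v⟫_ℂ‖ ^ 2 := by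
        rw [h2, norm_mul, Complex.norm_real, Real.norm_of_nonneg hα0.le, mul_pow]
      have h5 : -t * ‖v‖ ^ 2 ≤ ∑ i, ζ i * ‖⟪w i, v⟫_ℂ‖ ^ 2 + (-t - c) * ‖⟪u, v⟫_ℂ‖ ^ 2 := by
        have e : (-t - c) * ‖⟪u, v⟫_ℂ‖ ^ 2 =
            ∑ i, if i = i0 then (-t - c) * ‖⟪w i, v⟫_ℂ‖ ^ 2 else 0 := by simp [hu]
        rw [e, ← w.sum_sq_norm_inner_right, mul_sum, ← sum_add_distrib]
        refine sum_le_sum fun j _ => ?_
        split_ifs with hj
        · rw [hj, ← hcdef]; linarith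
        · by_cases h6 : t < - ζ j
          · rw [hv' j hj h6]; simp
          · nlinarith [sq_nonneg ‖⟪w j, v⟫_ℂ‖]
      rw [h1, h3, h4]
      rw [h4] at h5
      set B := ‖⟪y, v⟫_ℂ‖ ^ 2 with hB
      have hB0 : 0 ≤ B := sq_nonneg _
      rcases le_or_gt (-t - c) T with h6 | h6
      · have h7 := mul_le_mul_of_nonneg_right h6 (show 0 ≤ α ^ 2 * B by positivity)
        have h8 : ε * α * B = (κ + T) * (α ^ 2 * B) := by rw [← hα1]; ring
        have h9 : 0 ≤ ε * α * B := by positivity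
        simp only [norm_zero]
        nlinarith
      · have h7 := bes w (univ.filter fun j => j ≠ i0) hyn (fun i hi => by
          have : i = i0 := by simpa using hi
          rw [this, ← x.sum_inner_mul_inner]
          refine sum_eq_zero fun j _ => ?_
          by_cases hj : c ≤ ξ j
          · rw [hyx j hj, mul_zero]
          · rw [← inner_conj_symm, hxw i0 j rfl (by linarith)]; simp) v
        rw [sum_eq_zero (fun i hi => by
          rw [hv' i (by simpa using hi) (by have := hT' i; linarith)]; simp)] at h7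
        have h8 : B = 0 := le_antisymm h7 hB0
        rw [h8] at h5 ⊢
        simp only [norm_zero]
        nlinarith
    · set H := univ.filter (fun j => c ≤ ζ j) with hH
      have h1 := bes w H hyn (fun i hi => hyw i (by simpa [hH] using hi)) v
      have h2 := bes w H hu1 (fun i hi => w.orthonormal.2 (by
        rintro rfl; simp [hH, hcdef] at hi)) v
      set S := ∑ i ∈ H, ‖⟪w i, v⟫_ℂ‖ ^ 2 with hS
      have h3 : -t * ‖v‖ ^ 2 + g * S ≤ ∑ i, ζ i * ‖⟪w i, v⟫_ℂ‖ ^ 2 := by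
        rw [hS, hH, ← w.sum_sq_norm_inner_right, sum_filter, mul_sum, mul_sum, ← sum_add_distrib]
        refine sum_le_sum fun j _ => ?_
        split_ifs with hj
        · nlinarith [sq_nonneg ‖⟪w j, v⟫_ℂ‖]
        · by_cases h6 : t < - ζ j
          · rw [hv' j (by rintro rfl; exact hj le_rfl) h6]; simp
          · nlinarith [sq_nonneg ‖⟪w j, v⟫_ℂ‖]
      have h4 := (neg_le_abs _).trans (cross ⟪u, v⟫_ℂ ⟪y, v⟫_ℂ)
      have h5 : ‖⟪u', v⟫_ℂ‖ ≤ ‖⟪u, v⟫_ℂ‖ + α * ‖⟪y, v⟫_ℂ‖ := by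
        rw [hu'v]
        refine (norm_sub_le _ _).trans (le_of_eq ?_)
        rw [norm_mul, Complex.norm_real, Real.norm_of_nonneg hα0.le]
      have h6 := pow_le_pow_left₀ (norm_nonneg _) h5 2
      set A := ‖⟪u, v⟫_ℂ‖
      set B := ‖⟪y, v⟫_ℂ‖
      have h7 : A * B ≤ S := by nlinarith [sq_nonneg (A - B)]
      have h8 : (A + α * B) ^ 2 ≤ (1 + α) ^ 2 * S := by
        have := mul_le_mul_of_nonneg_left h7 hα0.le
        have := mul_le_mul_of_nonneg_left h1 (sq_nonneg α)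
        nlinarith
      have h9 : s' * ‖⟪u', v⟫_ℂ‖ ^ 2 ≤ g / 4 * S := by
        rw [← hs1, mul_assoc]
        exact mul_le_mul_of_nonneg_left (h6.trans h8) hs0.le
      have hS0 : 0 ≤ S := (sq_nonneg _).trans h1
      have h10 := mul_le_mul_of_nonneg_left (h4.trans h7) hε0.le
      have h11 := mul_le_mul_of_nonneg_right hε1 hS0
      have h12 := mul_le_mul_of_nonneg_left h2 (show 0 ≤ κ by linarith)
      have h13 : 0 ≤ g * S := by positivity
      nlinarith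

end Pool.Agent.Lib.helper22.DblB
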