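import Mathlib
import Pool.Agent.Lib.helper22.DblB

namespace Pool.Agent.Lib.helper22.DblC

open Finset Pool.Agent.Lib.helper22.DblA Pool.Agent.Lib.helper22.DblB InnerProductSpace
open scoped InnerProductSpace

variable {E : Type*} [NormedAddCommGroup E] [InnerProductSpace ℂ E] [FiniteDimensional ℂ E]
  [CompleteSpace E] {n : ℕ}

lemma eq_of_tr (hn : Module.finrank ℂ E = n) {M N : E →L[ℂ] E} (hM : Sy M) (hN : Sy N)
    (h : Le M N) (ht : tr N ≤ tr M) :
    ∃ U ∈ unitary (E →L[ℂ] E), ∀ v, q M v = q N (U v) := by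
  obtain ⟨m, μ, hm⟩ := hM.eig hn
  obtain ⟨x, ξ, hx⟩ := hN.eig hn
  obtain ⟨s, hs⟩ := match_of_le hn hm hx h
  rw [hm.tr, hx.tr, ← Equiv.sum_comp s ξ] at ht
  have he := (sum_eq_sum_iff_of_le (fun i _ => hs i)).mp
    (le_antisymm (sum_le_sum fun i _ => hs i) ht)
  set e := m.equiv x s
  refine ⟨(Unitary.linearIsometryEquiv.symm e : unitary (E →L[ℂ] E)),
    (Unitary.linearIsometryEquiv.symm e).2, fun v => ?_⟩
  change q M v = q N (e v)
  rw [hm.q, hx.q, ← Equiv.sum_comp s (fun j => ξ j * ‖⟪x j, e v⟫_ℂ‖ ^ 2)]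
  refine sum_congr rfl fun i hi => ?_
  have : x (s i) = e (m i) := by simp [e]
  rw [this, e.inner_map_map, he i hi]

omit [FiniteDimensional ℂ E] [CompleteSpace E] in
lemma abs_q_le (T : E →L[ℂ] E) (v : E) : |q T v| ≤ ‖T‖ * ‖v‖ ^ 2 := by
  refine (Complex.abs_re_le_norm _).trans ((norm_inner_le_norm _ _).trans ?_)
  have := mul_le_mul_of_nonneg_left (T.le_opNorm v) (norm_nonneg v)
  nlinarith

omit [CompleteSpace E] in
lemma norm_le (hn : Module.finrank ℂ E = n) {T : E →L[ℂ] E} (hT : Sy T) {C : ℝ} (hC : 0 ≤ C)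
    (h : ∀ v, |q T v| ≤ C * ‖v‖ ^ 2) : ‖T‖ ≤ C := by
  obtain ⟨b, d, hb⟩ := hT.eig hn
  refine T.opNorm_le_bound hC fun v => ?_
  refine abs_le_of_sq_le_sq' ?_ (by positivity) |>.2
  rw [mul_pow, ← b.sum_sq_norm_inner_right, ← b.sum_sq_norm_inner_right, mul_sum]
  refine sum_le_sum fun i _ => ?_
  rw [hb.inner, norm_mul, mul_pow, Complex.norm_real, Real.norm_eq_abs]
  refine mul_le_mul_of_nonneg_right (pow_le_pow_left₀ (abs_nonneg _) ?_ 2) (sq_nonneg _)
  have := h (b i)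
  rwa [q_eigvec hb, b.orthonormal.1 i, one_pow, mul_one] at this

omit [FiniteDimensional ℂ E] [CompleteSpace E] in
lemma cont_q {α : Type*} [TopologicalSpace α] {T : α → E →L[ℂ] E} {v : α → E}
    (hT : Continuous T) (hv : Continuous v) : Continuous fun a => q (T a) (v a) :=
  Complex.continuous_re.comp (hv.inner (hT.clm_apply hv))

lemma closed_le : IsClosed {p : (E →L[ℂ] E) × (E →L[ℂ] E) | Le p.1 p.2} := by
  have hc : IsCompact (unitary (E →L[ℂ] E) : Set (E →L[ℂ] E)) := by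
    haveI := FiniteDimensional.proper ℂ (E →L[ℂ] E)
    refine Metric.isCompact_of_isClosed_isBounded isClosed_unitary ?_
    refine (Metric.isBounded_closedBall (x := 0) (r := 1)).subset fun U hU => ?_
    rw [mem_closedBall_zero_iff]
    exact U.opNorm_le_bound zero_le_one fun v => by
      rw [U.norm_map_of_mem_unitary hU, one_mul]
  haveI : CompactSpace (unitary (E →L[ℂ] E)) := isCompact_iff_compactSpace.mp hc
  have h1 : IsClosed {a : unitary (E →L[ℂ] E) × ((E →L[ℂ] E) × (E →L[ℂ] E)) |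
      ∀ v, q a.2.1 v ≤ q a.2.2 ((a.1 : E →L[ℂ] E) v)} := by
    rw [Set.setOf_forall]
    refine isClosed_iInter fun v => isClosed_le (cont_q (by fun_prop) continuous_const)
      (cont_q (by fun_prop) ?_)
    exact (continuous_subtype_val.comp continuous_fst).clm_apply continuous_const
  convert isClosedMap_snd_of_compactSpace _ h1 using 1
  ext p
  constructor
  · rintro ⟨U, hU, h⟩
    exact ⟨(⟨U, hU⟩, p), h, rfl⟩
  · rintro ⟨a, h, rfl⟩
    exact ⟨a.1, a.1.2, h⟩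

omit [FiniteDimensional ℂ E] [CompleteSpace E] in
lemma closed_sy : IsClosed {T : E →L[ℂ] E | Sy T} := by
  simp only [Sy, Set.setOf_forall]
  refine isClosed_iInter fun x => isClosed_iInter fun y => isClosed_eq ?_ ?_
  · exact (continuous_id.clm_apply continuous_const).inner continuous_const
  · exact continuous_const.inner (continuous_id.clm_apply continuous_const)

theorem sandwich (hn : Module.finrank ℂ E = n) {X Z Y X0 : E →L[ℂ] E} (hX : Sy X) (hZ : Sy Z)
    (hXZ : Le X Z) (h1 : Sy X0) (h2 : Le X0 X) (h3 : ∀ v, 0 ≤ q (Z - X0) v)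
    (h4 : Le (Z - X0) Y) :
    ∃ U ∈ unitary (E →L[ℂ] E), ∃ V ∈ unitary (E →L[ℂ] E), ∀ v,
      0 ≤ q Z v - q X (U v) ∧ q Z v - q X (U v) ≤ q Y (V v) := by
  set K : Set ((E →L[ℂ] E) × (E →L[ℂ] E)) := {p | Sy p.1 ∧ Sy p.2 ∧ Le p.1 X ∧ Le Z p.2 ∧
    (∀ v, 0 ≤ q (p.2 - p.1) v) ∧ Le (p.2 - p.1) Y} with hK
  have hne : K.Nonempty := ⟨(X0, Z), h1, hZ, h2, le_of_q fun _ => le_rfl, h3, h4⟩
  have hcl : IsClosed K := by
    refine (closed_sy.preimage continuous_fst).inter ((closed_sy.preimage continuous_snd).inter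
      ((closed_le.preimage (f := fun p : (E →L[ℂ] E) × (E →L[ℂ] E) => (p.1, X))
        (by fun_prop)).inter
      ((closed_le.preimage (f := fun p : (E →L[ℂ] E) × (E →L[ℂ] E) => (Z, p.2))
        (by fun_prop)).inter (IsClosed.inter ?_
      (closed_le.preimage (f := fun p : (E →L[ℂ] E) × (E →L[ℂ] E) => (p.2 - p.1, Y))
        (by fun_prop))))))
    change IsClosed {p : (E →L[ℂ] E) × (E →L[ℂ] E) | ∀ v, 0 ≤ q (p.2 - p.1) v}
    rw [Set.setOf_forall]
    exact isClosed_iInter fun v => isClosed_le continuous_const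
      (cont_q (by fun_prop) continuous_const)
  have hc : IsCompact K := by
    haveI := FiniteDimensional.proper ℂ (E →L[ℂ] E)
    refine Metric.isCompact_of_isClosed_isBounded hcl ?_
    refine (Metric.isBounded_closedBall (x := 0) (r := ‖X‖ + ‖Y‖ + ‖Z‖)).subset ?_
    rintro p ⟨a1, a2, ⟨U, hU, a3⟩, ⟨W, hW, a4⟩, a5, ⟨V, hV, a6⟩⟩
    have key : ∀ v, |q p.1 v| ≤ (‖X‖ + ‖Y‖ + ‖Z‖) * ‖v‖ ^ 2 ∧
        |q p.2 v| ≤ (‖X‖ + ‖Y‖ + ‖Z‖) * ‖v‖ ^ 2 := by
      intro v
      have b1 := abs_le.mp (abs_q_le X (U v))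
      have b2 := abs_le.mp (abs_q_le Y (V v))
      have b3 := abs_le.mp (abs_q_le Z (star W v))
      rw [U.norm_map_of_mem_unitary hU] at b1
      rw [V.norm_map_of_mem_unitary hV] at b2
      rw [(star W).norm_map_of_mem_unitary (Unitary.star_mem hW)] at b3
      have c1 := a3 v
      have c2 := a4 (star W v)
      rw [us hW] at c2
      have c3 := a5 v
      have c4 := a6 v
      rw [q_sub] at c3 c4
      have d1 : 0 ≤ ‖X‖ * ‖v‖ ^ 2 := by positivity
      have d2 : 0 ≤ ‖Y‖ * ‖v‖ ^ 2 := by positivity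
      have d3 : 0 ≤ ‖Z‖ * ‖v‖ ^ 2 := by positivity
      constructor <;> rw [abs_le] <;> constructor <;> nlinarith
    rw [mem_closedBall_zero_iff, Prod.norm_def]
    exact max_le (norm_le hn a1 (by positivity) fun v => (key v).1)
      (norm_le hn a2 (by positivity) fun v => (key v).2)
  obtain ⟨b, _, _⟩ := hX.eig hn
  have hcont : Continuous fun p : (E →L[ℂ] E) × (E →L[ℂ] E) => tr (p.2 - p.1) := by
    simp_rw [tr_eq _ b]
    exact continuous_finset_sum _ fun i _ => cont_q (by fun_prop) continuous_const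
  obtain ⟨p, ⟨a1, a2, a3, a4, a5, a6⟩, hmin⟩ := hc.exists_isMinOn hne hcont.continuousOn
  have t1 : tr p.2 ≤ tr Z := by
    by_contra hlt
    obtain ⟨X', Z', b1, b2, b3, b4, b5, b6, b7⟩ :=
      improve hn a1 hZ a2 (a3.trans hXZ) a4 a5 (not_le.mp hlt)
    have : (X', Z') ∈ K := ⟨b1, b2, b3.trans a3, b4, b5, b6.trans a6⟩
    exact absurd (hmin this) (not_le.mpr b7)
  have t2 : tr X ≤ tr p.1 := by
    by_contra hlt
    have e : -p.1 - -p.2 = p.2 - p.1 := by abel
    obtain ⟨X', Z', b1, b2, b3, b4, b5, b6, b7⟩ :=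
      improve hn a2.neg hX.neg a1.neg (hXZ.trans a4).neg a3.neg (e ▸ a5)
        (by rw [tr_neg, tr_neg]; linarith)
    have e' : -X' - -Z' = Z' - X' := by abel
    rw [e] at b6 b7
    have c1 := b4.neg
    have c2 := b3.neg
    rw [neg_neg] at c1 c2
    have : (-Z', -X') ∈ K := ⟨b2.neg, b1.neg, c1, a4.trans c2, e' ▸ b5, e' ▸ b6.trans a6⟩
    have h := hmin this
    simp only [Set.mem_setOf_eq, e'] at h
    exact absurd h (not_le.mpr b7)
  obtain ⟨U, hU, hU'⟩ := eq_of_tr hn a1 hX a3 t2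
  obtain ⟨W, hW, hW'⟩ := eq_of_tr hn hZ a2 a4 t1
  obtain ⟨V, hV, hV'⟩ := a6
  refine ⟨U * W, mul_mem hU hW, V * W, mul_mem hV hW, fun v => ?_⟩
  have e : q Z v - q X ((U * W) v) = q (p.2 - p.1) (W v) := by
    rw [q_sub, hW', hU']; rfl
  rw [e]
  exact ⟨a5 _, hV' _⟩

end Pool.Agent.Lib.helper22.DblC
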