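import Mathlib
import Pool.Agent.Lib.helper22.DblC

namespace Pool.Agent.Lib.helper22.DblD

open Finset Pool.Agent.Lib.helper22.DblA Pool.Agent.Lib.helper22.DblB
  Pool.Agent.Lib.helper22.DblC
open scoped InnerProductSpace

variable {E : Type*} [NormedAddCommGroup E] [InnerProductSpace ℂ E] [FiniteDimensional ℂ E]
  [CompleteSpace E] {n : ℕ}

lemma jen {g : ℝ → ℝ} (hg : ConcaveOn ℝ (Set.Ici 0) g) (hm : MonotoneOn g (Set.Ici 0))
    (h0 : g 0 = 0) (p s : Fin n → ℝ) (hp : ∀ i, 0 ≤ p i) (hs : ∀ i, 0 ≤ s i) {N a : ℝ}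
    (ha : 0 ≤ a) (h1 : ∑ i, p i ≤ N) (h2 : ∑ i, p i * s i ≤ a * N) :
    ∑ i, p i * g (s i) ≤ g a * N := by
  have hN : 0 ≤ N := (sum_nonneg fun i _ => hp i).trans h1
  rcases hN.eq_or_lt with hN | hN
  · have : ∀ i ∈ univ, p i = 0 := (sum_eq_zero_iff_of_nonneg (fun i _ => hp i)).mp
      (le_antisymm (hN ▸ h1) (sum_nonneg fun i _ => hp i))
    rw [← hN, mul_zero]
    exact le_of_eq (sum_eq_zero fun i hi => by rw [this i hi, zero_mul])
  · have h3 : ∑ i, p i / N ≤ 1 := by rw [← sum_div, div_le_one hN]; exact h1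
    have := hg.map_add_sum_le (t := univ) (w := fun i => p i / N) (v := 1 - ∑ i, p i / N)
      (p := s) (q := 0) (fun i _ => div_nonneg (hp i) hN.le) (by ring) (fun i _ => hs i)
      (by linarith) (le_refl (0 : ℝ))
    simp only [smul_eq_mul, h0, mul_zero, zero_add] at this
    have e1 : ∑ i, p i / N * g (s i) = (∑ i, p i * g (s i)) / N := by
      rw [sum_div]; exact sum_congr rfl fun i _ => by ring
    have e2 : ∑ i, p i / N * s i = (∑ i, p i * s i) / N := by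
      rw [sum_div]; exact sum_congr rfl fun i _ => by ring
    rw [e1, e2, div_le_iff₀ hN] at this
    refine this.trans (mul_le_mul_of_nonneg_right (hm ?_ ha ?_) hN.le)
    · exact div_nonneg (sum_nonneg fun i _ => mul_nonneg (hp i) (hs i)) hN.le
    · rw [div_le_iff₀ hN]; exact h2

omit [FiniteDimensional ℂ E] [CompleteSpace E] in
lemma eig_norm {T : E →L[ℂ] E} {b : OrthonormalBasis (Fin n) ℂ E} {d : Fin n → ℝ}
    (h : Eig T b d) (v : E) : ‖T v‖ ^ 2 = ∑ i, d i ^ 2 * ‖⟪b i, v⟫_ℂ‖ ^ 2 := by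
  rw [← b.sum_sq_norm_inner_right]
  refine sum_congr rfl fun i _ => ?_
  rw [h.inner, norm_mul, mul_pow, Complex.norm_real, Real.norm_eq_abs, sq_abs]

omit [FiniteDimensional ℂ E] [CompleteSpace E] in
lemma re_le (x y : E) : (⟪x, y⟫_ℂ).re ≤ ‖x‖ * ‖y‖ :=
  (Complex.re_le_norm _).trans (norm_inner_le_norm _ _)

lemma sq_aux {x y : ℝ} (hx : 0 ≤ x) (hy : 0 ≤ y) (h : x ^ 2 ≤ y * x) : x ≤ y := by
  rcases hx.eq_or_lt with h0 | h0
  · rw [← h0]; exact hy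
  · nlinarith

lemma ab (hn : Module.finrank ℂ E = n) {g : ℝ → ℝ} (hg : ConcaveOn ℝ (Set.Ici 0) g)
    (hm : MonotoneOn g (Set.Ici 0)) (h0 : g 0 = 0) {S T A GA : E →L[ℂ] E}
    {w u : OrthonormalBasis (Fin n) ℂ E} {s a : Fin n → ℝ} (hs : ∀ i, 0 ≤ s i)
    (ha : ∀ i, 0 ≤ a i) (hS : Eig S w s) (hT : Eig T w fun i => √(g (s i) / s i))
    (hA : Eig A u a) (hGA : Eig GA u fun i => g (a i)) (hAS : ∀ v, q A v ≤ q S v) :
    Le (T * A * T) GA := by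
  have gnn : ∀ x, 0 ≤ x → 0 ≤ g x := fun x hx => h0 ▸ hm (le_refl (0 : ℝ)) hx hx
  have hsy : Sy (T * A * T) := fun x y => by
    change ⟪T (A (T x)), y⟫_ℂ = ⟪x, T (A (T y))⟫_ℂ
    rw [hT.sy, hA.sy, hT.sy]
  refine le_of_fam hn hsy hGA fun t => ?_
  by_cases hJ : (univ.filter fun j => g (a j) ≤ t).Nonempty
  swap
  · refine ⟨u, fun v hv => ?_⟩
    have : v = 0 := by
      rw [← u.sum_repr' v]
      refine sum_eq_zero fun i _ => ?_
      rw [hv i, zero_smul]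
      by_contra hi
      exact hJ ⟨i, by simpa using hi⟩
    rw [this, q_zero]; simp
  obtain ⟨j0, hj0, hmax⟩ := exists_max_image _ a hJ
  have hj0 : g (a j0) ≤ t := by simpa using hj0
  refine ⟨fun j => T (u j), fun v hv => ?_⟩
  obtain ⟨R, hR⟩ := exists_dg u fun i => √(a i)
  obtain ⟨G, hG⟩ := exists_dg w fun i => (s i)⁻¹
  have hRA : ∀ z, ‖R z‖ ^ 2 = q A z := fun z => by
    rw [eig_norm hR, hA.q]
    exact sum_congr rfl fun i _ => by rw [Real.sq_sqrt (ha i)]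
  set r := R (T v) with hr
  have e1 : q (T * A * T) v = ‖r‖ ^ 2 := by
    rw [hRA]
    change (⟪v, T (A (T v))⟫_ℂ).re = (⟪T v, A (T v)⟫_ℂ).re
    rw [hT.sy]
  have e2 : ‖R r‖ ^ 2 ≤ a j0 * ‖r‖ ^ 2 := by
    rw [hRA]
    refine hA.q_le fun j hj => ?_
    rw [hr, hR.inner, ← hT.sy, hv j, mul_zero]
    by_contra hi
    have := hmax j (by simpa using hi)
    linarith
  set p : Fin n → ℝ := fun i => (s i)⁻¹ * ‖⟪w i, R r⟫_ℂ‖ ^ 2 with hp
  have hp0 : ∀ i, 0 ≤ p i := fun i => mul_nonneg (inv_nonneg.mpr (hs i)) (sq_nonneg _)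
  have e3 : ∑ i, p i ≤ ‖r‖ ^ 2 := by
    have f1 : ∑ i, p i ≤ ‖r‖ * ‖R (G (R r))‖ := by
      rw [← hG.q, q, hR.sy]; exact re_le _ _
    have f2 : ‖R (G (R r))‖ ^ 2 ≤ ∑ i, p i := by
      rw [hRA]
      refine (hAS _).trans (le_of_eq ?_)
      rw [hS.q]
      refine sum_congr rfl fun i _ => ?_
      rw [hG.inner, norm_mul, mul_pow, Complex.norm_real, Real.norm_eq_abs, sq_abs]
      simp only [hp]
      rcases eq_or_ne (s i) 0 with h | h
      · simp [h]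
      · field_simp
    have f3 : ‖R (G (R r))‖ ≤ ‖r‖ := sq_aux (norm_nonneg _) (norm_nonneg _) (f2.trans f1)
    have := mul_le_mul_of_nonneg_left f3 (norm_nonneg r)
    nlinarith
  have e4 : ∑ i, p i * s i ≤ a j0 * ‖r‖ ^ 2 := by
    refine le_trans ?_ e2
    rw [← w.sum_sq_norm_inner_right]
    refine sum_le_sum fun i _ => ?_
    simp only [hp]
    rcases eq_or_ne (s i) 0 with h | h
    · simp [h]
    · exact le_of_eq (by field_simp)
  have e5 := jen hg hm h0 p s hp0 hs (ha j0) e3 e4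
  have e6 : ‖T (R r)‖ ^ 2 = ∑ i, p i * g (s i) := by
    rw [eig_norm hT]
    refine sum_congr rfl fun i _ => ?_
    rw [Real.sq_sqrt (div_nonneg (gnn _ (hs i)) (hs i))]
    simp only [hp]
    ring
  have e7 : ‖r‖ ^ 2 ≤ ‖v‖ * ‖T (R r)‖ := by
    refine le_trans (le_of_eq ?_) (re_le _ _)
    rw [← hT.sy, ← hR.sy, ← hr, inner_self_eq_norm_sq_to_K]
    norm_cast
  have ht : 0 ≤ t := (gnn _ (ha j0)).trans hj0
  have e8 : ‖T (R r)‖ ^ 2 ≤ t * ‖r‖ ^ 2 := by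
    rw [e6]; exact e5.trans (mul_le_mul_of_nonneg_right hj0 (sq_nonneg _))
  rw [e1]
  have e9 := pow_le_pow_left₀ (sq_nonneg _) e7 2
  rw [mul_pow] at e9
  have e10 := mul_le_mul_of_nonneg_left e8 (sq_nonneg ‖v‖)
  exact sq_aux (sq_nonneg _) (mul_nonneg ht (sq_nonneg _)) (by nlinarith)

theorem main0 (hn : Module.finrank ℂ E = n) {g : ℝ → ℝ} (hg : ConcaveOn ℝ (Set.Ici 0) g)
    (hm : MonotoneOn g (Set.Ici 0)) (h0 : g 0 = 0) {A B GA GB GS : E →L[ℂ] E}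
    {w u x : OrthonormalBasis (Fin n) ℂ E} {s a b : Fin n → ℝ} (hs : ∀ i, 0 ≤ s i)
    (ha : ∀ i, 0 ≤ a i) (hb : ∀ i, 0 ≤ b i) (hS : Eig (A + B) w s) (hA : Eig A u a)
    (hB : Eig B x b) (hGS : Eig GS w fun i => g (s i)) (hGA : Eig GA u fun i => g (a i))
    (hGB : Eig GB x fun i => g (b i)) :
    ∃ U ∈ unitary (E →L[ℂ] E), ∃ V ∈ unitary (E →L[ℂ] E), ∀ v,
      0 ≤ q GS v - q GA (U v) ∧ q GS v - q GA (U v) ≤ q GB (V v) := by
  have gnn : ∀ x, 0 ≤ x → 0 ≤ g x := fun x hx => h0 ▸ hm (le_refl (0 : ℝ)) hx hx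
  obtain ⟨T, hT⟩ := exists_dg w fun i => √(g (s i) / s i)
  have hA0 : ∀ v, 0 ≤ q A v := fun v => by
    rw [hA.q]; exact sum_nonneg fun i _ => mul_nonneg (ha i) (sq_nonneg _)
  have hB0 : ∀ v, 0 ≤ q B v := fun v => by
    rw [hB.q]; exact sum_nonneg fun i _ => mul_nonneg (hb i) (sq_nonneg _)
  have hAS : ∀ v, q A v ≤ q (A + B) v := fun v => by rw [q_add]; linarith [hB0 v]
  have hBS : ∀ v, q B v ≤ q (A + B) v := fun v => by rw [q_add]; linarith [hA0 v]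
  have hq : ∀ (M : E →L[ℂ] E) v, q (T * M * T) v = q M (T v) := fun M v => by
    change (⟪v, T (M (T v))⟫_ℂ).re = (⟪T v, M (T v)⟫_ℂ).re
    rw [hT.sy]
  have e1 : ∀ v, q GS v = q (A + B) (T v) := fun v => by
    rw [hGS.q, hS.q]
    refine sum_congr rfl fun i _ => ?_
    rw [hT.inner, norm_mul, mul_pow, Complex.norm_real, Real.norm_eq_abs, sq_abs,
      Real.sq_sqrt (div_nonneg (gnn _ (hs i)) (hs i))]
    rcases eq_or_ne (s i) 0 with h | h
    · simp [h, h0]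
    · field_simp
  have e2 : ∀ v, q (GS - T * A * T) v = q (T * B * T) v := fun v => by
    rw [q_sub, e1, hq, hq, q_add]; ring
  have hsy : Sy (T * A * T) := fun x y => by
    change ⟪T (A (T x)), y⟫_ℂ = ⟪x, T (A (T y))⟫_ℂ
    rw [hT.sy, hA.sy, hT.sy]
  obtain ⟨σ, hσ⟩ := match_of_le hn hA hS (le_of_q hAS)
  refine sandwich hn hGA.sy hGS.sy (le_of_match hGA hGS σ fun i => hm (ha i) (hs _) (hσ i)) hsy
    (ab hn hg hm h0 hs ha hS hT hA hGA hAS) (fun v => by rw [e2, hq]; exact hB0 _) ?_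
  exact (le_of_q fun v => (e2 v).le).trans (ab hn hg hm h0 hs hb hS hT hB hGB hBS)

theorem main1 (hn : Module.finrank ℂ E = n) {f : ℝ → ℝ} (hg : ConcaveOn ℝ (Set.Ici 0) f)
    (hm : MonotoneOn f (Set.Ici 0)) (h0 : 0 ≤ f 0) {A B FA FB FS : E →L[ℂ] E}
    {w u x : OrthonormalBasis (Fin n) ℂ E} {s a b : Fin n → ℝ} (hs : ∀ i, 0 ≤ s i)
    (ha : ∀ i, 0 ≤ a i) (hb : ∀ i, 0 ≤ b i) (hS : Eig (A + B) w s) (hA : Eig A u a)
    (hB : Eig B x b) (hFS : Eig FS w fun i => f (s i)) (hFA : Eig FA u fun i => f (a i))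
    (hFB : Eig FB x fun i => f (b i)) :
    ∃ U ∈ unitary (E →L[ℂ] E), ∃ V ∈ unitary (E →L[ℂ] E), ∀ v,
      0 ≤ q FS v - q FA (U v) ∧ q FS v - q FA (U v) ≤ q FB (V v) := by
  obtain ⟨GS, hGS⟩ := exists_dg w fun i => f (s i) - f 0
  obtain ⟨GA, hGA⟩ := exists_dg u fun i => f (a i) - f 0
  obtain ⟨GB, hGB⟩ := exists_dg x fun i => f (b i) - f 0
  have key : ∀ {F G : E →L[ℂ] E} {y : OrthonormalBasis (Fin n) ℂ E} {d : Fin n → ℝ},
      Eig F y d → Eig G y (fun i => d i - f 0) → ∀ v, q F v = q G v + f 0 * ‖v‖ ^ 2 := by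
    intro F G y d h1 h2 v
    rw [h1.q, h2.q, ← y.sum_sq_norm_inner_right, mul_sum, ← sum_add_distrib]
    exact sum_congr rfl fun i _ => by ring
  obtain ⟨U, hU, V, hV, h⟩ := main0 hn (g := fun t => f t - f 0) (hg.add_const (- f 0))
    (fun _ h1 _ h2 h3 => sub_le_sub_right (hm h1 h2 h3) _) (sub_self _) hs ha hb hS hA hB
    hGS hGA hGB
  refine ⟨U, hU, V, hV, fun v => ?_⟩
  rw [key hFS hGS, key hFA hGA, key hFB hGB, U.norm_map_of_mem_unitary hU]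
  have := mul_nonneg h0 (sq_nonneg ‖V v‖)
  obtain ⟨h1, h2⟩ := h v
  constructor <;> linarith

end Pool.Agent.Lib.helper22.DblD
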