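import Mathlib
import Pool.Agent.Lib.helper22.DblD

namespace Pool.Agent.Lib.helper22.DblE

open Finset Matrix Pool.Agent.Lib.helper22.DblA Pool.Agent.Lib.helper22.DblD
open scoped InnerProductSpace ComplexOrder

variable {n : ℕ}

noncomputable abbrev Φ (P : Matrix (Fin n) (Fin n) ℂ) :
    EuclideanSpace ℂ (Fin n) →L[ℂ] EuclideanSpace ℂ (Fin n) := toEuclideanCLM (𝕜 := ℂ) P

noncomputable abbrev fm {P : Matrix (Fin n) (Fin n) ℂ} (hP : P.IsHermitian) (f : ℝ → ℝ) :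
    Matrix (Fin n) (Fin n) ℂ :=
  (hP.eigenvectorUnitary : Matrix (Fin n) (Fin n) ℂ) *
    Matrix.diagonal (fun i => ((f (hP.eigenvalues i) : ℝ) : ℂ)) *
    star (hP.eigenvectorUnitary : Matrix (Fin n) (Fin n) ℂ)

lemma fm_eig {P : Matrix (Fin n) (Fin n) ℂ} (hP : P.IsHermitian) (f : ℝ → ℝ) :
    Eig (Φ (fm hP f)) hP.eigenvectorBasis fun i => f (hP.eigenvalues i) := by
  intro i
  change toEuclideanLin (fm hP f) _ = _
  ext j
  simp only [fm, toLpLin_apply, ← mulVec_mulVec, hP.star_eigenvectorUnitary_mulVec,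
    diagonal_mulVec_single, mul_one]
  rw [show (Pi.single i ((f (hP.eigenvalues i) : ℝ) : ℂ) : Fin n → ℂ) =
    (f (hP.eigenvalues i) : ℂ) • (Pi.single i 1 : Fin n → ℂ) by
      ext k; by_cases h : k = i <;> simp [h], mulVec_smul, hP.eigenvectorUnitary_mulVec]
  rfl

lemma herm_eig {P : Matrix (Fin n) (Fin n) ℂ} (hP : P.IsHermitian) :
    Eig (Φ P) hP.eigenvectorBasis hP.eigenvalues := by
  intro i
  change toEuclideanLin P _ = _
  ext j
  simp only [toLpLin_apply, hP.mulVec_eigenvectorBasis]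
  simp

lemma psd {P : Matrix (Fin n) (Fin n) ℂ} (h1 : Sy (Φ P)) (h2 : ∀ v, 0 ≤ q (Φ P) v) :
    P.PosSemidef := by
  refine isPositive_toEuclideanLin_iff.mp ⟨h1, fun x => ?_⟩
  rw [inner_re_symm]
  exact h2 x

lemma conj {U : EuclideanSpace ℂ (Fin n) →L[ℂ] EuclideanSpace ℂ (Fin n)}
    (hU : U ∈ unitary _) : ∃ W ∈ Matrix.unitaryGroup (Fin n) ℂ,
      ∀ F : Matrix (Fin n) (Fin n) ℂ, (Sy (Φ F) → Sy (Φ (W * F * star W))) ∧
        ∀ v, q (Φ (W * F * star W)) v = q (Φ F) (U v) := by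
  refine ⟨(toEuclideanCLM (𝕜 := ℂ)).symm (star U), ?_, fun F => ?_⟩
  · rw [mem_unitaryGroup_iff, ← map_star, ← map_mul, star_star,
      Unitary.star_mul_self_of_mem hU, map_one]
  · have e : Φ ((toEuclideanCLM (𝕜 := ℂ)).symm (star U) * F *
        star ((toEuclideanCLM (𝕜 := ℂ)).symm (star U))) = star U * Φ F * U := by
      simp only [Φ, map_mul, map_star, StarAlgEquiv.apply_symm_apply, star_star]
    rw [e, ContinuousLinearMap.star_eq_adjoint]
    refine ⟨fun h x y => ?_, fun v => ?_⟩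
    · change ⟪ContinuousLinearMap.adjoint U (Φ F (U x)), y⟫_ℂ =
        ⟪x, ContinuousLinearMap.adjoint U (Φ F (U y))⟫_ℂ
      rw [ContinuousLinearMap.adjoint_inner_left, ContinuousLinearMap.adjoint_inner_right, h]
    · change (⟪v, ContinuousLinearMap.adjoint U (Φ F (U v))⟫_ℂ).re = _
      rw [ContinuousLinearMap.adjoint_inner_right]; rfl

theorem fin (n : ℕ) (f : ℝ → ℝ) (hf : ConcaveOn ℝ (Set.Ici 0) f) (hm : MonotoneOn f (Set.Ici 0))
    (h0 : 0 ≤ f 0) (A B : Matrix (Fin n) (Fin n) ℂ) (hA : A.PosSemidef) (hB : B.PosSemidef)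
    (hS : (A + B).PosSemidef) :
    ∃ U ∈ Matrix.unitaryGroup (Fin n) ℂ, ∃ V ∈ Matrix.unitaryGroup (Fin n) ℂ,
      (fm hS.isHermitian f - U * fm hA.isHermitian f * star U).PosSemidef ∧
      (V * fm hB.isHermitian f * star V -
        (fm hS.isHermitian f - U * fm hA.isHermitian f * star U)).PosSemidef := by
  have hS' : Eig (Φ A + Φ B) hS.isHermitian.eigenvectorBasis hS.isHermitian.eigenvalues := by
    have := herm_eig hS.isHermitian
    rwa [Φ, map_add] at this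
  obtain ⟨U, hU, V, hV, h⟩ := main1 finrank_euclideanSpace_fin hf hm h0 hS.eigenvalues_nonneg
    hA.eigenvalues_nonneg hB.eigenvalues_nonneg hS' (herm_eig hA.isHermitian)
    (herm_eig hB.isHermitian) (fm_eig hS.isHermitian f) (fm_eig hA.isHermitian f)
    (fm_eig hB.isHermitian f)
  obtain ⟨U', hU', eU⟩ := conj hU
  obtain ⟨V', hV', eV⟩ := conj hV
  have s1 := (fm_eig hS.isHermitian f).sy
  have s2 := (eU _).1 (fm_eig hA.isHermitian f).sy
  have s3 := (eV _).1 (fm_eig hB.isHermitian f).sy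
  refine ⟨U', hU', V', hV', psd ?_ fun v => ?_, psd ?_ fun v => ?_⟩
  · rw [Φ, map_sub]; exact s1.sub s2
  · rw [Φ, map_sub, q_sub, (eU _).2]; exact (h v).1
  · rw [Φ, map_sub, map_sub]; exact s3.sub (s1.sub s2)
  · rw [Φ, map_sub, map_sub, q_sub, q_sub, (eU _).2, (eV _).2]; exact sub_nonneg.mpr (h v).2

end Pool.Agent.Lib.helper22.DblE
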