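import Mathlib

set_option autoImplicit false

namespace Pool.Agent.Lib.H22Dpg

open Classical SimpleGraph

/-- `M` is a matching of `G`: a subgraph in which every vertex has at most one neighbour. -/
def IsMatchingOf {V : Type} (M G : SimpleGraph V) : Prop :=
  M ≤ G ∧ ∀ v a b, M.Adj v a → M.Adj v b → a = b

/-- Growth step: delete the edges of `M` and join a new vertex `none` to all endpoints of `M`. -/
def grow {V : Type} (G M : SimpleGraph V) : SimpleGraph (Option V) where
  Adj x y := match x, y with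
    | some u, some v => G.Adj u v ∧ ¬ M.Adj u v
    | none, some v => ∃ z, M.Adj v z
    | some u, none => ∃ z, M.Adj u z
    | none, none => False
  symm := ⟨fun x y h => by
    cases x <;> cases y
    · exact h
    · exact h
    · exact h
    · exact ⟨h.1.symm, fun h' => h.2 h'.symm⟩⟩
  loopless := ⟨fun x h => by
    cases x
    · exact h
    · exact G.loopless.1 _ h.1⟩

/-- `Wins k t V G`: from the current graph `G`, Builder can guarantee that after exactly `t` more
rounds the graph contains a clique on `k` vertices. -/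
def Wins (k : ℕ) : ℕ → (V : Type) → SimpleGraph V → Prop
  | 0, _, G => ¬ G.CliqueFree k
  | t + 1, V, G => ∃ M : SimpleGraph V, IsMatchingOf M G ∧
      ∃ E0 E1 : SimpleGraph (Option V), E0 ⊔ E1 = grow G M ∧ Disjoint E0 E1 ∧
        Wins k t (Option V) E0 ∧ Wins k t (Option V) E1

def EmbF {W V : Type} (f : W → V) (P : SimpleGraph W) (G : SimpleGraph V) : Prop :=
  (∀ x y, P.Adj x y → G.Adj (f x) (f y)) ∧ ∀ x y x' y', P.Adj x x' → P.Adj y y' → f x = f y → x = y

def Emb {W V : Type} (P : SimpleGraph W) (G : SimpleGraph V) : Prop := ∃ f, EmbF f P G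

lemma EmbF.comp {U W V : Type} {P : SimpleGraph U} {Q : SimpleGraph W} {G : SimpleGraph V}
    {f : U → W} {g : W → V} (h1 : EmbF f P Q) (h2 : EmbF g Q G) : EmbF (g ∘ f) P G :=
  ⟨fun x y h => h2.1 _ _ (h1.1 x y h), fun x y x' y' hx hy h =>
    h1.2 x y x' y' hx hy (h2.2 _ _ _ _ (h1.1 _ _ hx) (h1.1 _ _ hy) h)⟩

def Good (k t : ℕ) {W : Type} (P : SimpleGraph W) : Prop :=
  ∀ (V : Type) (G : SimpleGraph V), Emb P G → Wins k t V G

lemma Good.mono {k t : ℕ} {U W : Type} {P : SimpleGraph U} {Q : SimpleGraph W}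
    (h : Good k t P) (e : Emb P Q) : Good k t Q := by
  rintro V G ⟨g, hg⟩
  obtain ⟨f, hf⟩ := e
  exact h V G ⟨_, hf.comp hg⟩

def img {W V : Type} (f : W → V) (P : SimpleGraph W) : SimpleGraph V where
  Adj x y := x ≠ y ∧ ∃ u v, P.Adj u v ∧ f u = x ∧ f v = y
  symm := ⟨fun _ _ ⟨h, u, v, h1, h2, h3⟩ => ⟨h.symm, v, u, h1.symm, h3, h2⟩⟩
  loopless := ⟨fun _ h => h.1 rfl⟩

lemma emb_grow {W V : Type} {P M : SimpleGraph W} {G : SimpleGraph V} {f : W → V}
    (hf : EmbF f P G) (hM : IsMatchingOf M P) :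
    IsMatchingOf (img f M) G ∧ EmbF (Option.map f) (grow P M) (grow G (img f M)) := by
  have sup : ∀ u x', (grow P M).Adj (some u) x' → ∃ z, P.Adj u z := by
    intro u x' h
    cases x' with
    | none => obtain ⟨z, hz⟩ := h; exact ⟨z, hM.1 hz⟩
    | some v => exact ⟨v, h.1⟩
  refine ⟨⟨?_, ?_⟩, ?_, ?_⟩
  · rintro _ _ ⟨-, u, v, h, rfl, rfl⟩
    exact hf.1 _ _ (hM.1 h)
  · rintro _ _ _ ⟨-, u, v, h, rfl, rfl⟩ ⟨-, u', v', h', e, rfl⟩
    have := hf.2 _ _ _ _ (hM.1 h') (hM.1 h) e
    subst this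
    rw [hM.2 _ _ _ h h']
  · intro x y h
    cases x <;> cases y
    · exact h
    · obtain ⟨z, hz⟩ := h
      exact ⟨f z, (hf.1 _ _ (hM.1 hz)).ne, _, _, hz, rfl, rfl⟩
    · obtain ⟨z, hz⟩ := h
      exact ⟨f z, (hf.1 _ _ (hM.1 hz)).ne, _, _, hz, rfl, rfl⟩
    · refine ⟨hf.1 _ _ h.1, ?_⟩
      rintro ⟨-, u, v, h', e1, e2⟩
      have a1 := hf.2 _ _ _ _ (hM.1 h') h.1 e1
      have a2 := hf.2 _ _ _ _ (hM.1 h').symm h.1.symm e2
      subst a1 a2
      exact h.2 h'
  · intro x y x' y' hx hy h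
    cases x <;> cases y
    · rfl
    · simp at h
    · simp at h
    · obtain ⟨z, hz⟩ := sup _ _ hx
      obtain ⟨z', hz'⟩ := sup _ _ hy
      simp only [Option.map_some, Option.some.injEq] at h
      rw [hf.2 _ _ _ _ hz hz' h]

lemma round {k t : ℕ} {U W : Type} {P' : SimpleGraph U} {P M : SimpleGraph W}
    (h : Good k t P') (hM : IsMatchingOf M P) (f0 f1 : U → Option W)
    (h0 : EmbF f0 P' (grow P M)) (h1 : EmbF f1 P' (grow P M))
    (hd : ∀ x y x' y', P'.Adj x y → P'.Adj x' y' → f0 x = f1 x' → f0 y = f1 y' → False) :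
    Good k (t + 1) P := by
  rintro V G ⟨f, hf⟩
  obtain ⟨a1, a2⟩ := emb_grow hf hM
  have b0 := h0.comp a2
  have b1 := h1.comp a2
  have hle : img (Option.map f ∘ f0) P' ≤ grow G (img f M) := by
    rintro _ _ ⟨-, u, v, h, rfl, rfl⟩
    exact b0.1 _ _ h
  refine ⟨img f M, a1, img (Option.map f ∘ f0) P', grow G (img f M) \ img (Option.map f ∘ f0) P',
    sup_sdiff_cancel_right hle, disjoint_sdiff_self_right, h _ _ ⟨_, ?_, b0.2⟩, h _ _ ⟨_, ?_, b1.2⟩⟩
  · intro x y hxy
    exact ⟨(b0.1 _ _ hxy).ne, x, y, hxy, rfl, rfl⟩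
  · intro x y hxy
    rw [sdiff_adj]
    refine ⟨b1.1 _ _ hxy, ?_⟩
    rintro ⟨-, u, v, huv, e1, e2⟩
    exact hd u v x y huv hxy (a2.2 _ _ _ _ (h0.1 _ _ huv) (h1.1 _ _ hxy) e1)
      (a2.2 _ _ _ _ (h0.1 _ _ huv).symm (h1.1 _ _ hxy).symm e2)

inductive Vx (I C A S : Type)
  | hub (i : I)
  | core (i : I) (c : C) (a : A)
  | leaf (i : I) (c : C) (a : A) (s : S)
  | ext (i : I) (c : C) (a : A)

open Vx

inductive PR {I C A S : Type} (D : Set I) : Vx I C A S → Vx I C A S → Prop
  | cc (i c a a') : PR D (core i c a) (core i c a')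
  | cl (i c a s) : PR D (core i c a) (leaf i c a s)
  | hc (i c a) : i ∈ D → PR D (hub i) (core i c a)
  | he (i c a) : i ∈ D → PR D (hub i) (ext i c a)
  | ce (i c a) : i ∉ D → PR D (core i c a) (ext i c a)

def Pat {I : Type} (D : Set I) (C A S : Type) : SimpleGraph (Vx I C A S) := fromRel (PR D)

inductive MR {I C A S : Type} (j : I) : Vx I C A S → Vx I C A S → Prop
  | ce (c a) : MR j (core j c a) (ext j c a)

noncomputable def half {I C A S : Type} (j : I) (b : Bool) :
    Vx I C A S → Option (Vx I (Bool × C) A S)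
  | hub i => if i = j then none else some (hub i)
  | core i c a => some (core i (b, c) a)
  | leaf i c a s => some (leaf i (b, c) a s)
  | ext i c a => some (ext i (b, c) a)

lemma embF_of {W V : Type} {f : W → V} {R : W → W → Prop} {G : SimpleGraph V}
    (h1 : ∀ x y, x ≠ y → R x y → G.Adj (f x) (f y))
    (h2 : ∀ x y x' y', R x x' ∨ R x' x → R y y' ∨ R y' y → f x = f y → x = y) :
    EmbF f (fromRel R) G := by
  refine ⟨fun x y h => ?_, fun x y x' y' hx hy => ?_⟩
  · rw [fromRel_adj] at h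
    rcases h.2 with h' | h'
    · exact h1 _ _ h.1 h'
    · exact (h1 _ _ h.1.symm h').symm
  · rw [fromRel_adj] at hx hy
    exact h2 _ _ _ _ hx.2 hy.2

lemma half_emb {I C A S : Type} (D : Set I) (j : I) (hj : j ∉ D) (b : Bool) :
    EmbF (half j b) (Pat (insert j D) C A S) (grow (Pat D (Bool × C) A S) (fromRel (MR j))) := by
  refine embF_of ?_ ?_
  · intro x y hne h
    cases h with
    | cc i c a a' =>
      refine ⟨(fromRel_adj _ _ _).2 ⟨by simpa using hne, Or.inl (PR.cc _ _ _ _)⟩, ?_⟩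
      rw [fromRel_adj]; rintro ⟨-, h | h⟩ <;> cases h
    | cl i c a s =>
      refine ⟨(fromRel_adj _ _ _).2 ⟨by simp, Or.inl (PR.cl _ _ _ _)⟩, ?_⟩
      rw [fromRel_adj]; rintro ⟨-, h | h⟩ <;> cases h
    | hc i c a hi =>
      by_cases e : i = j
      · subst e
        simp only [half, if_true]
        exact ⟨ext i (b, c) a, (fromRel_adj _ _ _).2 ⟨by simp, Or.inl (MR.ce _ _)⟩⟩
      · simp only [half, e, if_false]
        refine ⟨(fromRel_adj _ _ _).2 ⟨by simp, Or.inl (PR.hc _ _ _ (hi.resolve_left e))⟩, ?_⟩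
        rw [fromRel_adj]; rintro ⟨-, h | h⟩ <;> cases h
    | he i c a hi =>
      by_cases e : i = j
      · subst e
        simp only [half, if_true]
        exact ⟨core i (b, c) a, (fromRel_adj _ _ _).2 ⟨by simp, Or.inr (MR.ce _ _)⟩⟩
      · simp only [half, e, if_false]
        refine ⟨(fromRel_adj _ _ _).2 ⟨by simp, Or.inl (PR.he _ _ _ (hi.resolve_left e))⟩, ?_⟩
        rw [fromRel_adj]; rintro ⟨-, h | h⟩ <;> cases h
    | ce i c a hi =>
      refine ⟨(fromRel_adj _ _ _).2 ⟨by simp, Or.inl (PR.ce _ _ _ fun h => hi (Or.inr h))⟩, ?_⟩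
      rw [fromRel_adj]; rintro ⟨-, h | h⟩ <;> cases h
      exact hi (Or.inl rfl)
  · intro x y _ _ _ _ h
    cases x <;> cases y <;> simp only [half] at h <;> (try split_ifs at h) <;> simp_all

lemma pat_round {k t : ℕ} {I C A S : Type} (D : Set I) (j : I) (hj : j ∉ D)
    (h : Good k t (Pat (insert j D) C A S)) : Good k (t + 1) (Pat D (Bool × C) A S) := by
  refine round h (M := fromRel (MR j)) ⟨?_, ?_⟩ (half j false) (half j true)
    (half_emb D j hj _) (half_emb D j hj _) ?_
  · intro x y h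
    rw [fromRel_adj] at h
    refine (fromRel_adj _ _ _).2 ⟨h.1, ?_⟩
    rcases h.2 with h | h <;> cases h
    · exact Or.inl (PR.ce _ _ _ hj)
    · exact Or.inr (PR.ce _ _ _ hj)
  · intro v a b h1 h2
    rw [fromRel_adj] at h1 h2
    rcases h1.2 with h | h <;> cases h <;> rcases h2.2 with h | h <;> cases h <;> rfl
  · have key : ∀ x x' : Vx I C A S, half j false x = half j true x' → ∃ i, x = hub i := by
      intro x x' h
      cases x <;> cases x' <;> simp only [half] at h <;> (try split_ifs at h) <;> simp_all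
    intro x y x' y' h1 _ e1 e2
    obtain ⟨i, rfl⟩ := key _ _ e1
    obtain ⟨i', rfl⟩ := key _ _ e2
    rw [Pat, fromRel_adj] at h1
    rcases h1.2 with h | h <;> cases h

lemma phase {k t : ℕ} {I C A S : Type} [Finite I] [Finite C] [Nonempty C]
    (h : Good k t (Pat (Set.univ : Set I) C A S)) (d : ℕ) : ∀ D : Set I, Dᶜ.ncard = d →
    ∃ (C' : Type) (_ : Finite C') (_ : Nonempty C'), Good k (t + d) (Pat D C' A S) := by
  induction d with
  | zero =>
    intro D hD
    rw [Set.ncard_eq_zero, Set.compl_empty_iff] at hD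
    subst hD
    exact ⟨C, inferInstance, inferInstance, h⟩
  | succ d ih =>
    intro D hD
    obtain ⟨j, hj⟩ := Set.nonempty_of_ncard_ne_zero (s := Dᶜ) (by omega)
    obtain ⟨C', _, _, h'⟩ := ih (insert j D) (by
      have e : (insert j D)ᶜ = Dᶜ \ {j} := by ext x; simp [and_comm]
      rw [e, Set.ncard_diff_singleton_of_mem hj]; omega)
    exact ⟨Bool × C', inferInstance, inferInstance, pat_round D j hj h'⟩

inductive SR {I A S : Type} : I × A × Option S → I × A × Option S → Prop
  | cc (i a a') : SR (i, a, none) (i, a', none)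
  | cl (i a s) : SR (i, a, none) (i, a, some s)

def Sp (I A S : Type) : SimpleGraph (I × A × Option S) := fromRel SR

lemma emb_end (I A S : Type) [Nonempty A] :
    Emb (Sp I (Option A) S) (Pat (Set.univ : Set I) (Option S) A S) := by
  obtain ⟨a0⟩ := ‹Nonempty A›
  refine ⟨fun x => match x with
    | (i, none, none) => hub i
    | (i, none, some s) => ext i (some s) a0
    | (i, some a, none) => core i none a
    | (i, some a, some s) => leaf i none a s, embF_of ?_ ?_⟩
  · intro x y hne h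
    cases h with
    | cc i a a' =>
      cases a <;> cases a'
      · exact absurd rfl hne
      · exact (fromRel_adj _ _ _).2 ⟨by simp, Or.inl (PR.hc _ _ _ trivial)⟩
      · exact (fromRel_adj _ _ _).2 ⟨by simp, Or.inr (PR.hc _ _ _ trivial)⟩
      · exact (fromRel_adj _ _ _).2 ⟨by simpa using hne, Or.inl (PR.cc _ _ _ _)⟩
    | cl i a s =>
      cases a
      · exact (fromRel_adj _ _ _).2 ⟨by simp, Or.inl (PR.he _ _ _ trivial)⟩
      · exact (fromRel_adj _ _ _).2 ⟨by simp, Or.inl (PR.cl _ _ _ _)⟩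
  · rintro ⟨i, a, s⟩ ⟨i', a', s'⟩ _ _ _ _ h
    cases a <;> cases s <;> cases a' <;> cases s' <;> simp_all

lemma emb_start (I C A S : Type) [Nonempty C] [Nonempty A] :
    Emb (Pat (∅ : Set I) C A S) (Sp (I × C) A (Option S)) := by
  obtain ⟨a0⟩ := ‹Nonempty A›
  obtain ⟨c0⟩ := ‹Nonempty C›
  refine ⟨fun x => match x with
    | hub i => ((i, c0), a0, none)
    | core i c a => ((i, c), a, none)
    | leaf i c a s => ((i, c), a, some (some s))
    | ext i c a => ((i, c), a, some none), embF_of ?_ ?_⟩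
  · intro x y hne h
    cases h with
    | cc i c a a' => exact (fromRel_adj _ _ _).2 ⟨by simpa using hne, Or.inl (SR.cc _ _ _)⟩
    | cl i c a s => exact (fromRel_adj _ _ _).2 ⟨by simp, Or.inl (SR.cl _ _ _)⟩
    | hc i c a hi => exact absurd hi (Set.notMem_empty _)
    | he i c a hi => exact absurd hi (Set.notMem_empty _)
    | ce i c a hi => exact (fromRel_adj _ _ _).2 ⟨by simp, Or.inl (SR.cl _ _ _)⟩
  · have nh : ∀ (i : I) (y : Vx I C A S), ¬ (PR ∅ (hub i) y ∨ PR ∅ y (hub i)) := by
      rintro i y (h | h) <;> cases h <;> simp_all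
    intro x y x' y' hx hy h
    cases x <;> cases y <;>
      first | exact absurd hx (nh _ _) | exact absurd hy (nh _ _) | simp_all

lemma build (k : ℕ) (hk : 2 ≤ k) (n : ℕ) : ∀ (A : Type) [Finite A] [Nonempty A],
    k ≤ Nat.card A + n → ∃ (t : ℕ) (I S : Type) (_ : Finite I) (_ : Finite S),
      Good k t (Sp I A S) := by
  induction n with
  | zero =>
    intro A _ _ hA
    refine ⟨0, Unit, Empty, inferInstance, inferInstance, ?_⟩
    rintro V G ⟨f, hf⟩
    haveI := Fintype.ofFinite A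
    rw [Nat.card_eq_fintype_card, add_zero] at hA
    have hadj : ∀ a b : A, a ≠ b → G.Adj (f ((), a, none)) (f ((), b, none)) := fun a b h =>
      hf.1 _ _ ((fromRel_adj _ _ _).2 ⟨by simpa using h, Or.inl (SR.cc _ _ _)⟩)
    have hinj : Function.Injective (fun a : A => f ((), a, none)) := by
      intro a b h
      by_contra hne
      exact (hadj a b hne).ne h
    have hc : G.IsNClique (Fintype.card A) (Finset.univ.image fun a : A => f ((), a, none)) := by
      refine ⟨?_, by rw [Finset.card_image_of_injective _ hinj, Finset.card_univ]⟩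
      intro x hx y hy hne
      obtain ⟨a, -, rfl⟩ := Finset.mem_image.1 (Finset.mem_coe.1 hx)
      obtain ⟨b, -, rfl⟩ := Finset.mem_image.1 (Finset.mem_coe.1 hy)
      exact hadj a b (fun h => hne (by rw [h]))
    exact fun hfree => (hfree.mono hA) _ hc
  | succ n ih =>
    intro A _ _ hA
    obtain ⟨t, I, S, _, _, h⟩ := ih (Option A) (by rw [Finite.card_option]; omega)
    obtain ⟨C', _, _, h'⟩ := phase (h.mono (emb_end I A S)) _ ∅ rfl
    exact ⟨_, I × C', Option S, inferInstance, inferInstance, h'.mono (emb_start I C' A S)⟩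

lemma sp_acyclic (I S : Type) : (Sp I Unit S).IsAcyclic := by
  intro v p hp
  have leaf1 : ∀ (i : I) (s : S), (i, (), some s) ∉ p.support := by
    intro i s hm
    have h2 := hp.ncard_neighborSet_toSubgraph_eq_two hm
    have h3 : p.toSubgraph.neighborSet (i, (), some s) ⊆ {(i, (), none)} := by
      intro y hy
      have hy' : (Sp I Unit S).Adj (i, (), some s) y := (show p.toSubgraph.Adj _ y from hy).adj_sub
      rw [Sp, fromRel_adj] at hy'
      rcases hy'.2 with h | h <;> cases h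
      rfl
    have := Set.ncard_le_ncard h3 (Set.toFinite _)
    rw [Set.ncard_singleton] at this
    omega
  cases p with
  | nil => exact hp.ne_nil rfl
  | @cons _ w _ h q =>
    have h' := h
    rw [Sp, fromRel_adj] at h'
    rcases h'.2 with h1 | h1
    · cases h1 with
      | cc i a a' => exact h'.1 rfl
      | cl i a s => exact leaf1 i s (by simp)
    · cases h1 with
      | cc i a a' => exact h'.1 rfl
      | cl i a s => exact leaf1 i s (by simp)

theorem forest_wins (k : ℕ) (hk : 2 ≤ k) :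
    ∃ (n : ℕ) (G : SimpleGraph (Fin n)), G.IsAcyclic ∧ ∃ t, Wins k t (Fin n) G := by
  obtain ⟨t, I, S, _, _, h⟩ := build k hk k Unit (by omega)
  haveI := Fintype.ofFinite I
  haveI := Fintype.ofFinite S
  let e := (Fintype.equivFin (I × Unit × Option S)).symm
  refine ⟨_, (Sp I Unit S).comap e, (sp_acyclic I S).of_comap e.toEmbedding, t,
    h _ _ ⟨e.symm, fun x y hxy => by simpa using hxy, fun x y _ _ _ _ h => e.symm.injective h⟩⟩

end Pool.Agent.Lib.H22Dpg
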