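import Mathlib

set_option autoImplicit false

namespace Pool.Agent.Lib.helper22.Ray

open Set

universe u v

/-- an order tree: a least element, and every set `⌈t⌉ = {s | s ≤ t}` is well-ordered -/
structure IsOrderTree (T : Type u) [PartialOrder T] : Prop where
  root : ∃ r : T, ∀ t, r ≤ t
  wo : ∀ t : T, IsWellOrder (Iic t) (· < ·)

/-- a union of countably many antichains -/
def Special (T : Type u) [PartialOrder T] : Prop :=
  ∃ A : ℕ → Set T, (∀ n, IsAntichain (· ≤ ·) (A n)) ∧ ⋃ n, A n = univ

/-- a ray: a downward closed chain with no maximal element. The empty set counts as a ray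
exactly when `e` holds, so that both conventions are covered. -/
def IsRay {T : Type u} [PartialOrder T] (e : Prop) (R : Set T) : Prop :=
  IsLowerSet R ∧ IsChain (· ≤ ·) R ∧ (∀ a ∈ R, ∃ b ∈ R, a < b) ∧ (e ∨ R.Nonempty)

/-- the ray space -/
def RaySp (e : Prop) (T : Type u) [PartialOrder T] : Type u := {R : Set T // IsRay e R}

/-- the characteristic function of a ray -/
noncomputable def chi {e : Prop} {T : Type u} [PartialOrder T] (R : RaySp e T) : T → Bool :=
  fun t => @decide (t ∈ R.1) (Classical.dec _)

/-- the subspace topology from `2^T` -/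
noncomputable instance rayTop (e : Prop) (T : Type u) [PartialOrder T] :
    TopologicalSpace (RaySp e T) :=
  TopologicalSpace.induced chi inferInstance

/-- `X` is homeomorphic to the ray space of an order tree -/
def IsRaySpace (e : Prop) (X : Type v) [TopologicalSpace X] : Prop :=
  ∃ (T : Type u) (_ : PartialOrder T), IsOrderTree T ∧ Nonempty (X ≃ₜ RaySp e T)

lemma IsOrderTree.wf {T : Type u} [PartialOrder T] (h : IsOrderTree T) :
    IsWellFounded T (· < ·) := by
  refine ⟨⟨fun t => ?_⟩⟩
  have : ∀ x : Iic t, Acc (· < ·) x.1 := by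
    intro x
    induction x using (h.wo t).wf.induction with
    | _ x ih => exact ⟨_, fun y hy => ih ⟨y, le_trans hy.le x.2⟩ hy⟩
  exact this ⟨t, le_rfl⟩

/-- the height of a node: the order type of its strict predecessors -/
noncomputable def IsOrderTree.ht {T : Type u} [PartialOrder T] (h : IsOrderTree T) (t : T) :
    Ordinal.{u} :=
  @IsWellFounded.rank T (· < ·) h.wf t

/-- height `ω₁`, all levels and all chains countable -/
def Aronszajn {T : Type u} [PartialOrder T] (h : IsOrderTree T) : Prop :=
  (∀ t, h.ht t < Ordinal.omega 1) ∧ (∀ o < Ordinal.omega 1, ∃ t, h.ht t = o) ∧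
  (∀ o, {t | h.ht t = o}.Countable) ∧ ∀ C : Set T, IsChain (· ≤ ·) C → C.Countable

end Pool.Agent.Lib.helper22.Ray
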