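import Mathlib
import Pool.Agent.Lib.helper22.RayDef

set_option autoImplicit false

namespace Pool.Agent.Lib.helper22.Ray

open Set Filter Topology

universe u v

variable {T : Type u} [PartialOrder T] {e : Prop}

lemma IsOrderTree.comp (h : IsOrderTree T) {a b t : T} (ha : a ≤ t) (hb : b ≤ t) :
    a ≤ b ∨ b ≤ a := by
  have := h.wo t
  rcases trichotomous_of (· < ·) (⟨a, ha⟩ : Iic t) ⟨b, hb⟩ with h1 | h1 | h1
  · exact Or.inl (le_of_lt h1)
  · exact Or.inl (le_of_eq (congrArg Subtype.val h1))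
  · exact Or.inr (le_of_lt h1)

lemma RaySp.lower (R : RaySp e T) {a b : T} (hab : a ≤ b) (hb : b ∈ R.1) : a ∈ R.1 :=
  R.2.1 hab hb

lemma RaySp.comp (R : RaySp e T) {a b : T} (ha : a ∈ R.1) (hb : b ∈ R.1) : a ≤ b ∨ b ≤ a :=
  R.2.2.1.total ha hb

lemma cont_chi : Continuous (chi : RaySp e T → T → Bool) := continuous_induced_dom

lemma clopen_cone (t : T) : IsClopen {R : RaySp e T | t ∈ R.1} := by
  have : {R : RaySp e T | t ∈ R.1} = (fun R : RaySp e T => chi R t) ⁻¹' {true} := by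
    ext R; simp [chi]
  rw [this]
  exact (isClopen_discrete _).preimage ((continuous_apply t).comp cont_chi)

lemma tendsto_ray {ι : Type*} {l : Filter ι} {f : ι → RaySp e T} {R : RaySp e T}
    (h : ∀ t, ∀ᶠ n in l, (t ∈ (f n).1 ↔ t ∈ R.1)) : Tendsto f l (𝓝 R) := by
  rw [nhds_induced, tendsto_comap_iff, tendsto_pi_nhds]
  intro t
  rw [nhds_discrete, tendsto_pure]
  filter_upwards [h t] with n hn
  simp [chi, hn]

instance : T1Space (RaySp e T) := by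
  have : Topology.IsEmbedding (chi : RaySp e T → T → Bool) := by
    refine ⟨⟨rfl⟩, fun R Q h => Subtype.ext (Set.ext fun t => ?_)⟩
    have := congrFun h t
    simpa [chi] using this
  exact this.t1Space

/-- `v` is a top of `R` -/
def IsTop' (R : Set T) (v : T) : Prop := v ∉ R ∧ (∀ u < v, u ∈ R) ∧ ∀ u ∈ R, u < v

def N (a V : Set T) : Set (RaySp e T) := {Q | a ⊆ Q.1 ∧ ∀ v ∈ V, v ∉ Q.1}

lemma open_N {a V : Set T} (ha : a.Finite) (hV : V.Finite) : IsOpen (N a V : Set (RaySp e T)) := by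
  have : (N a V : Set (RaySp e T)) = (⋂ t ∈ a, {R : RaySp e T | t ∈ R.1}) ∩
      ⋂ v ∈ V, {R : RaySp e T | v ∈ R.1}ᶜ := by
    ext Q; simp [N, subset_def]
  rw [this]
  exact (ha.isOpen_biInter fun t _ => (clopen_cone t).isOpen).inter
    (hV.isOpen_biInter fun t _ => (clopen_cone t).compl.isOpen)

lemma basis (h : IsOrderTree T) (R : RaySp e T) {s : Set (RaySp e T)} (hs : s ∈ 𝓝 R) :
    ∃ a V : Set T, a.Finite ∧ V.Finite ∧ a ⊆ R.1 ∧ (∀ v ∈ V, IsTop' R.1 v) ∧ N a V ⊆ s := by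
  rw [nhds_induced, mem_comap] at hs
  obtain ⟨w, hw, hws⟩ := hs
  rw [nhds_pi, Filter.mem_pi] at hw
  obtain ⟨I, hI, t, ht, hIt⟩ := hw
  have key : ∀ b : T, ∃ a V : Set T, a.Finite ∧ V.Finite ∧ a ⊆ R.1 ∧ (∀ v ∈ V, IsTop' R.1 v) ∧
      ∀ Q ∈ (N a V : Set (RaySp e T)), (b ∈ Q.1 ↔ b ∈ R.1) := by
    intro b
    by_cases hb : b ∈ R.1
    · exact ⟨{b}, ∅, finite_singleton _, finite_empty, by simpa, by simp,
        fun Q hQ => iff_of_true (hQ.1 rfl) hb⟩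
    by_cases h2 : ∃ u ∈ R.1, ¬ u ≤ b
    · obtain ⟨u, hu, hub⟩ := h2
      refine ⟨{u}, ∅, finite_singleton _, finite_empty, by simpa, by simp,
        fun Q hQ => iff_of_false (fun hbQ => ?_) hb⟩
      rcases Q.comp (hQ.1 rfl) hbQ with h3 | h3
      · exact hub h3
      · exact hb (R.lower h3 hu)
    · push Not at h2
      obtain ⟨v, hv, hmin⟩ := h.wf.wf.has_min {x | x ≤ b ∧ x ∉ R.1} ⟨b, le_rfl, hb⟩
      refine ⟨∅, {v}, finite_empty, finite_singleton _, by simp, ?_,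
        fun Q hQ => iff_of_false (fun hbQ => hQ.2 v rfl (Q.lower hv.1 hbQ)) hb⟩
      rintro _ rfl
      refine ⟨hv.2, fun u hu => ?_, fun u hu => ?_⟩
      · by_contra h3
        exact hmin u ⟨hu.le.trans hv.1, h3⟩ hu
      · rcases h.comp (h2 u hu) hv.1 with h3 | h3
        · exact lt_of_le_of_ne h3 fun h4 => hv.2 (h4 ▸ hu)
        · exact absurd (R.lower h3 hu) hv.2
  choose a V h1 h2 h3 h4 h5 using key
  refine ⟨⋃ b ∈ I, a b, ⋃ b ∈ I, V b, hI.biUnion fun b _ => h1 b, hI.biUnion fun b _ => h2 b,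
    iUnion₂_subset fun b _ => h3 b, ?_, fun Q hQ => hws (hIt fun b hb => ?_)⟩
  · intro v hv
    obtain ⟨b, -, hv⟩ := mem_iUnion₂.1 hv
    exact h4 b v hv
  · have : chi Q b = chi R b := by
      have := h5 b Q ⟨(subset_biUnion_of_mem (u := a) hb).trans hQ.1,
        fun v hv => hQ.2 v (mem_biUnion hb hv)⟩
      simp [chi, this]
    rw [this]
    exact mem_of_mem_nhds (ht b)

/-- separated sets have disjoint open neighbourhoods -/
def Sep (X : Type v) [TopologicalSpace X] : Prop :=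
  ∀ A B : Set X, Disjoint (closure A) B → Disjoint A (closure B) →
    ∃ U V : Set X, IsOpen U ∧ IsOpen V ∧ A ⊆ U ∧ B ⊆ V ∧ Disjoint U V

lemma sep_ray (h : IsOrderTree T) : Sep (RaySp e T) := by
  intro A B hA hB
  have k : ∀ C : Set (RaySp e T), ∀ R : RaySp e T, ∃ a V : Set T, R ∉ closure C →
      a.Finite ∧ V.Finite ∧ a ⊆ R.1 ∧ (∀ v ∈ V, IsTop' R.1 v) ∧ N a V ⊆ Cᶜ := by
    intro C R
    by_cases hR : R ∈ closure C
    · exact ⟨∅, ∅, fun h => absurd hR h⟩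
    · obtain ⟨a, V, h1, h2, h3, h4, h5⟩ := basis h R (isClosed_closure.isOpen_compl.mem_nhds hR)
      exact ⟨a, V, fun _ => ⟨h1, h2, h3, h4, h5.trans (compl_subset_compl.2 subset_closure)⟩⟩
  choose a V hk using k
  have hA' : ∀ R ∈ A, R ∉ closure B := fun R hR => Set.disjoint_left.1 hB hR
  have hB' : ∀ R ∈ B, R ∉ closure A := fun R hR => Set.disjoint_right.1 hA hR
  refine ⟨⋃ R ∈ A, N (a B R) (V B R), ⋃ R ∈ B, N (a A R) (V A R),
    isOpen_biUnion fun R hR => open_N (hk B R (hA' R hR)).1 (hk B R (hA' R hR)).2.1,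
    isOpen_biUnion fun R hR => open_N (hk A R (hB' R hR)).1 (hk A R (hB' R hR)).2.1,
    fun R hR => mem_biUnion hR ⟨(hk B R (hA' R hR)).2.2.1,
      fun v hv => ((hk B R (hA' R hR)).2.2.2.1 v hv).1⟩,
    fun R hR => mem_biUnion hR ⟨(hk A R (hB' R hR)).2.2.1,
      fun v hv => ((hk A R (hB' R hR)).2.2.2.1 v hv).1⟩, ?_⟩
  rw [Set.disjoint_left]
  intro Q hQ1 hQ2
  obtain ⟨R, hR, hQ1⟩ := mem_iUnion₂.1 hQ1
  obtain ⟨S, hS, hQ2⟩ := mem_iUnion₂.1 hQ2
  obtain ⟨-, -, r1, r2, r3⟩ := hk B R (hA' R hR)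
  obtain ⟨-, -, s1, s2, s3⟩ := hk A S (hB' S hS)
  have e1 : (∃ u ∈ a B R, u ∉ S.1) ∨ ∃ v ∈ V B R, v ∈ S.1 := by
    by_contra hne
    push Not at hne
    exact r3 ⟨hne.1, hne.2⟩ hS
  have e2 : (∃ u ∈ a A S, u ∉ R.1) ∨ ∃ v ∈ V A S, v ∈ R.1 := by
    by_contra hne
    push Not at hne
    exact s3 ⟨hne.1, hne.2⟩ hR
  rcases e1 with ⟨u, hu, hu'⟩ | ⟨v, hv, hv'⟩ <;> rcases e2 with ⟨x, hx, hx'⟩ | ⟨y, hy, hy'⟩
  · rcases Q.comp (hQ1.1 hu) (hQ2.1 hx) with h1 | h1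
    · exact hu' (S.lower h1 (s1 hx))
    · exact hx' (R.lower h1 (r1 hu))
  · rcases R.comp (r1 hu) hy' with h1 | h1
    · rcases eq_or_lt_of_le h1 with h2 | h2
      · exact hQ2.2 y hy (h2 ▸ hQ1.1 hu)
      · exact hu' ((s2 y hy).2.1 u h2)
    · exact hQ2.2 y hy (Q.lower h1 (hQ1.1 hu))
  · rcases S.comp (s1 hx) hv' with h1 | h1
    · rcases eq_or_lt_of_le h1 with h2 | h2
      · exact hQ1.2 v hv (h2 ▸ hQ2.1 hx)
      · exact hx' ((r2 v hv).2.1 x h2)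
    · exact hQ1.2 v hv (Q.lower h1 (hQ2.1 hx))
  · exact lt_asymm ((r2 v hv).2.2 y hy') ((s2 y hy).2.2 v hv')

lemma Sep.homeo {X : Type u} {Y : Type v} [TopologicalSpace X] [TopologicalSpace Y]
    (f : X ≃ₜ Y) (h : Sep Y) : Sep X := by
  intro A B hA hB
  obtain ⟨U, V, h1, h2, h3, h4, h5⟩ := h (f '' A) (f '' B)
    (by rw [← f.image_closure]; exact (disjoint_image_iff f.injective).2 hA)
    (by rw [← f.image_closure]; exact (disjoint_image_iff f.injective).2 hB)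
  exact ⟨f ⁻¹' U, f ⁻¹' V, h1.preimage f.continuous, h2.preimage f.continuous,
    image_subset_iff.1 h3, image_subset_iff.1 h4, h5.preimage f⟩

lemma katetov {X : Type u} {Y : Type v} [TopologicalSpace X] [TopologicalSpace Y] [T1Space Y]
    (h : Sep (X × Y)) (y : Y) (ys : ℕ → Y) (hy : y ∈ closure (range ys)) (hne : ∀ n, ys n ≠ y)
    {F : Set X} (hF : IsClosed F) :
    ∃ U : ℕ → Set X, (∀ n, IsOpen (U n) ∧ F ⊆ U n) ∧ ∀ x, (∀ n, x ∈ U n) → x ∈ F := by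
  obtain ⟨U, V, h1, h2, h3, h4, h5⟩ := h (F ×ˢ range ys) (Fᶜ ×ˢ {y})
    (by
      rw [closure_prod_eq, hF.closure_eq, Set.disjoint_left]
      exact fun p hp hq => hq.1 hp.1)
    (by
      rw [closure_prod_eq, closure_singleton, Set.disjoint_left]
      rintro p ⟨-, n, hn⟩ ⟨-, hq⟩
      exact hne n (hn.trans hq))
  refine ⟨fun n => {x | (x, ys n) ∈ U}, fun n => ⟨h1.preimage (by fun_prop),
    fun x hx => h3 ⟨hx, n, rfl⟩⟩, fun x hx => ?_⟩
  by_contra hxF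
  have : IsOpen {z | (x, z) ∈ V} := h2.preimage (by fun_prop)
  obtain ⟨_, hz, n, rfl⟩ := mem_closure_iff.1 hy _ this (h4 ⟨hxF, rfl⟩)
  exact Set.disjoint_left.1 h5 (hx n) hz

lemma firstCountable (h : IsOrderTree T) (h1 : ∀ R : RaySp e T, R.1.Countable)
    (h2 : ∀ R : RaySp e T, {v | IsTop' R.1 v}.Countable) : FirstCountableTopology (RaySp e T) := by
  refine ⟨fun R => ⟨⟨(fun t => {Q : RaySp e T | t ∈ Q.1}) '' R.1 ∪
    (fun t => {Q : RaySp e T | t ∈ Q.1}ᶜ) '' {v | IsTop' R.1 v},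
    ((h1 R).image _).union ((h2 R).image _), le_antisymm ?_ ?_⟩⟩⟩
  · rw [le_generate_iff]
    rintro _ (⟨t, ht, rfl⟩ | ⟨t, ht, rfl⟩)
    · exact (clopen_cone t).isOpen.mem_nhds ht
    · exact (clopen_cone t).compl.isOpen.mem_nhds ht.1
  · intro s hs
    obtain ⟨a, V, k1, k2, k3, k4, k5⟩ := basis h R hs
    refine mem_of_superset ?_ k5
    have : (N a V : Set (RaySp e T)) = (⋂ t ∈ a, {R : RaySp e T | t ∈ R.1}) ∩
        ⋂ v ∈ V, {R : RaySp e T | v ∈ R.1}ᶜ := by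
      ext Q; simp [N, subset_def]
    rw [this]
    exact inter_mem ((biInter_mem k1).2 fun t ht => mem_generate_of_mem (Or.inl ⟨t, k3 ht, rfl⟩))
      ((biInter_mem k2).2 fun t ht => mem_generate_of_mem (Or.inr ⟨t, k4 t ht, rfl⟩))

end Pool.Agent.Lib.helper22.Ray
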