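import Mathlib

set_option autoImplicit false

namespace Pool.Agent.Lib.helper22

open Set Cardinal

universe u

/-- injective choice from few large sets -/
theorem inj_choice {ι α : Type u} (S : ι → Set α) (h : ∀ i, #ι ≤ #(S i)) :
    ∃ f : ι → α, Function.Injective f ∧ ∀ i, f i ∈ S i := by
  obtain ⟨r, wo, hr⟩ := Cardinal.ord_eq ι
  have key : ∀ (i : ι) (g : (j : ι) → r j i → α), ∃ x ∈ S i, ∀ j (hj : r j i), g j hj ≠ x := by
    intro i g
    by_contra hn
    push Not at hn
    have h1 : S i ⊆ range fun j : {j // r j i} => g j.1 j.2 := fun x hx => by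
      obtain ⟨j, hj, e⟩ := hn x hx
      exact ⟨⟨j, hj⟩, e⟩
    have h2 : #{j // r j i} < #ι := by
      rw [← Ordinal.card_typein, ← lt_ord, hr]
      exact Ordinal.typein_lt_type r i
    exact absurd ((h i).trans ((mk_le_mk_of_subset h1).trans mk_range_le)) (not_le.2 h2)
  choose c h1 h2 using key
  let f : ι → α := wo.wf.fix c
  have hf : ∀ i, f i = c i fun j _ => f j := fun i => wo.wf.fix_eq c i
  refine ⟨f, fun i j e => ?_, fun i => hf i ▸ h1 i _⟩
  rcases trichotomous_of r i j with h | h | h
  · exact absurd (e.trans (hf j)) (h2 j (fun k _ => f k) i h)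
  · exact h
  · exact absurd (e.symm.trans (hf i)) (h2 i (fun k _ => f k) j h)

end Pool.Agent.Lib.helper22
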