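import Mathlib

set_option autoImplicit false

namespace Pool.Agent.Lib.helper22.Ir

open Complex Filter Topology Set
open scoped Real

theorem exists_log (H : ℝ × ℝ → ℂ) (hc : Continuous H) (h0 : ∀ x, H x ≠ 0) :
    ∃ φ : ℝ × ℝ → ℂ, Continuous φ ∧ ∀ x, exp (φ x) = H x := by
  obtain ⟨F, ⟨_, h2⟩, -⟩ := Complex.isCoveringMapOn_exp.existsUnique_continuousMap_lifts
    (⟨H, hc⟩ : C(ℝ × ℝ, ℂ)) (a₀ := 0) (e₀ := log (H 0)) (exp_log (h0 0)) (fun x => h0 x)
  exact ⟨F, F.continuous, fun x => congrFun h2 x⟩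

theorem log_unique {φ ψ : ℝ → ℂ} (hφ : Continuous φ) (hψ : Continuous ψ)
    (h : ∀ x, exp (φ x) = exp (ψ x)) (x y : ℝ) : φ x - ψ x = φ y - ψ y := by
  obtain ⟨n, hn⟩ := exp_eq_exp_iff_exists_int.1 (h y)
  have := Complex.isCoveringMap_exp.eq_of_comp_eq hφ
    (g₂ := fun x => ψ x + n * (2 * π * I)) (hψ.add continuous_const) ?_ y hn
  · rw [this]; ring
  · funext x
    simp only [Function.comp]
    apply Subtype.ext
    simp only
    rw [h x, exp_add, exp_int_mul_two_pi_mul_I, mul_one]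

/-- the loop `g` has logarithmic increment `c` -/
def W (g : ℝ → ℂ) (c : ℂ) : Prop :=
  ∃ L : ℝ → ℂ, Continuous L ∧ (∀ θ, exp (L θ) = g θ) ∧ L (2 * π) - L 0 = c

theorem W.unique {g : ℝ → ℂ} {c d : ℂ} (h : W g c) (h' : W g d) : c = d := by
  obtain ⟨L, h1, h2, rfl⟩ := h
  obtain ⟨M, h3, h4, rfl⟩ := h'
  have := log_unique h1 h3 (fun x => (h2 x).trans (h4 x).symm) (2 * π) 0
  linear_combination this

theorem W.neg {g : ℝ → ℂ} {c : ℂ} (h : W g c) : W (fun θ => -g θ) c := by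
  obtain ⟨L, h1, h2, rfl⟩ := h
  exact ⟨fun θ => L θ + π * I, by fun_prop, fun θ => by rw [exp_add_pi_mul_I, h2], by ring⟩

theorem W.homotopy (G : ℝ × ℝ → ℂ) (hc : Continuous G) (h0 : ∀ x, G x ≠ 0)
    (hp : ∀ t, G (2 * π, t) = G (0, t)) {c : ℂ} (h : W (fun θ => G (θ, 0)) c) :
    W (fun θ => G (θ, 1)) c := by
  obtain ⟨L, h1, h2⟩ := exists_log G hc h0
  have e0 : W (fun θ => G (θ, 0)) (L (2 * π, 0) - L (0, 0)) :=
    ⟨fun θ => L (θ, 0), by fun_prop, fun θ => h2 _, rfl⟩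
  refine ⟨fun θ => L (θ, 1), by fun_prop, fun θ => h2 _, ?_⟩
  rw [h.unique e0]
  exact log_unique (φ := fun t => L (2 * π, t)) (ψ := fun t => L (0, t)) (by fun_prop) (by fun_prop)
    (fun t => by rw [h2, h2, hp]) 1 0

theorem W.torus (T : ℝ × ℝ → ℂ) (hc : Continuous T) (h0 : ∀ x, T x ≠ 0)
    (hp : ∀ t, T (t, 2 * π) = T (t, 0)) {c d : ℂ} (h : W (fun θ => T (θ, 0)) c)
    (h' : W (fun θ => T (0, θ)) d) : W (fun θ => T (θ, θ)) (c + d) := by
  obtain ⟨L, h1, h2⟩ := exists_log T hc h0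
  have e0 : W (fun θ => T (θ, 0)) (L (2 * π, 2 * π) - L (0, 2 * π)) :=
    ⟨fun θ => L (θ, 2 * π), by fun_prop, fun θ => by rw [h2, hp], rfl⟩
  have e1 : W (fun θ => T (0, θ)) (L (0, 2 * π) - L (0, 0)) :=
    ⟨fun θ => L (0, θ), by fun_prop, fun θ => h2 _, rfl⟩
  refine ⟨fun θ => L (θ, θ), by fun_prop, fun θ => h2 _, ?_⟩
  rw [h.unique e0, h'.unique e1]
  ring

theorem W.exists (g : ℝ → ℂ) (hc : Continuous g) (h0 : ∀ x, g x ≠ 0) (hp : g (2 * π) = g 0) :
    ∃ c, W g c ∧ exp c = 1 := by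
  obtain ⟨L, h1, h2⟩ := exists_log (fun p => g p.1) (by fun_prop) (fun x => h0 _)
  refine ⟨_, ⟨fun θ => L (θ, 0), by fun_prop, fun θ => h2 _, rfl⟩, ?_⟩
  rw [exp_sub, h2, h2]
  simp only [hp]
  exact div_self (h0 0)

theorem W.odd {g : ℝ → ℂ} {c : ℂ} (h : W g (c + c)) (hc : exp c = 1)
    (ho : ∀ θ, g (θ + π) = -g θ) : False := by
  obtain ⟨L, h1, h2, h3⟩ := h
  have := log_unique (φ := fun θ => L (θ + π)) (ψ := fun θ => L θ + π * I) (by fun_prop)
    (by fun_prop) (fun θ => by rw [exp_add_pi_mul_I, h2, h2, ho]) π 0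
  simp only [zero_add, ← two_mul] at this
  have e : L π = L 0 + c := by linear_combination (h3 - this) / 2
  have e2 := h2 π
  have e3 := ho 0
  rw [zero_add, ← h2 0, ← e2, e, exp_add, hc, mul_one] at e3
  exact exp_ne_zero (L 0) (by linear_combination e3 / 2)

/-- clip to the unit interval -/
noncomputable def cl (t : ℝ) : ℝ := max 0 (min t 1)

theorem cl_cont : Continuous cl := by unfold cl; fun_prop
theorem cl_zero : cl 0 = 0 := by simp [cl]
theorem cl_one : cl 1 = 1 := by simp [cl]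
theorem cl_nonneg (t : ℝ) : 0 ≤ cl t := le_max_left _ _
theorem cl_le (t : ℝ) : cl t ≤ 1 := max_le zero_le_one (min_le_right _ _)

theorem sepa (g : ℝ × ℝ → ℂ) (hc : Continuous g) (hp : ∀ s θ, g (s, θ + 2 * π) = g (s, θ))
    (hi : ∀ s θ s' θ', 0 ≤ s → 0 ≤ s' → g (s, θ) = g (s', θ') →
      s = s' ∧ exp (θ * I) = exp (θ' * I))
    (s0 θ0 ρ s1 θ1 : ℝ) (h0 : 0 ≤ s0) (h1 : s0 < ρ) (h2 : ρ < s1) (c : ℂ) (hc1 : exp c = 1)
    (hA : W (fun θ => g (ρ, θ) - g (s0, θ0)) c) (hB : W (fun θ => g (ρ, θ) - g (s1, θ1)) c) :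
    False := by
  have hcl := cl_cont
  have hp' : ∀ s, g (s, 2 * π) = g (s, 0) := fun s => by simpa using hp s 0
  have hA' : W (fun θ => g (s1, θ) - g (ρ, 0)) c := by
    have := W.homotopy (fun p => g (ρ + cl p.2 * (s1 - ρ), p.1) -
      g (s0 + cl p.2 * (ρ - s0), θ0 - cl p.2 * θ0)) (by fun_prop) (fun p h => by
        have a := cl_nonneg p.2
        have b := cl_le p.2
        have := (hi _ _ _ _ (by nlinarith) (by nlinarith) (sub_eq_zero.mp h)).1
        have k1 := mul_nonneg (sub_nonneg.2 b) (sub_pos.2 h1).le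
        rcases eq_or_lt_of_le a with k | k
        · rw [← k] at this; linarith
        · have k2 := mul_pos k (sub_pos.2 h2)
          nlinarith) (fun t => by simp only [hp']) (c := c) (by simpa [cl_zero] using hA)
    simpa [cl_one] using this
  have hB' : W (fun θ => g (s1, 0) - g (ρ, θ)) c := by
    have := W.homotopy (fun p => g (s1, θ1 - cl p.2 * θ1) - g (ρ, p.1)) (by fun_prop)
      (fun p h => by
        have := (hi _ _ _ _ (by linarith) (by linarith) (sub_eq_zero.mp h)).1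
        linarith) (fun t => by simp only [hp']) (c := c) (by simpa [cl_zero] using hB.neg)
    simpa [cl_one] using this
  have hC := W.torus (fun p => g (s1, p.1) - g (ρ, p.2)) (by fun_prop) (fun p h => by
    have := (hi _ _ _ _ (by linarith) (by linarith) (sub_eq_zero.mp h)).1
    linarith) (fun t => by simp only [hp']) hA' hB'
  have hD : W (fun θ => g (ρ, θ) - g (ρ, θ + π)) (c + c) := by
    have := W.homotopy (fun p => g (s1 - cl p.2 * (s1 - ρ), p.1) - g (ρ, p.1 + cl p.2 * π))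
      (by fun_prop) (fun p h => by
        have a := cl_nonneg p.2
        have b := cl_le p.2
        obtain ⟨e1, e2⟩ := hi _ _ _ _ (by nlinarith) (by linarith) (sub_eq_zero.mp h)
        have e3 : cl p.2 = 1 := by
          have : (1 - cl p.2) * (s1 - ρ) = 0 := by linarith
          rcases mul_eq_zero.mp this with h | h <;> linarith
        rw [e3, one_mul] at e2
        push_cast at e2
        rw [add_mul, exp_add_pi_mul_I] at e2
        exact exp_ne_zero (p.1 * I) (by linear_combination e2 / 2))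
      (fun t => by simp only [hp', zero_add]; rw [add_comm, hp]) (c := c + c)
      (by simpa [cl_zero] using hC)
    simpa [cl_one] using this
  refine hD.odd hc1 fun θ => ?_
  rw [add_assoc, ← two_mul, hp]
  ring

/-- The exterior of the open unit disc. -/
def Ext : Set ℂ := {z | 1 ≤ ‖z‖}

noncomputable def Ep (p : ℝ × ℝ) : Ext :=
  ⟨exp (max p.1 0 + p.2 * I), by
    simp only [Ext, mem_setOf_eq, norm_exp]
    simp⟩

theorem Ep_cont : Continuous Ep := by
  unfold Ep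
  fun_prop

theorem Ep_norm (s θ : ℝ) (hs : 0 ≤ s) : ‖(Ep (s, θ) : ℂ)‖ = Real.exp s := by
  simp [Ep, norm_exp, max_eq_left hs]

theorem Ep_surj (z : Ext) : z = Ep (Real.log ‖(z : ℂ)‖, arg z) := by
  have h1 : 1 ≤ ‖(z : ℂ)‖ := z.2
  have h0 : (z : ℂ) ≠ 0 := by intro h; rw [h] at h1; norm_num at h1
  apply Subtype.ext
  simp only [Ep, max_eq_left (Real.log_nonneg h1)]
  exact (exp_log h0).symm

theorem far (f : Ext → ℂ) (hf : Continuous f) (hi : Function.Injective f) (w : Ext) :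
    ∃ R ε : ℝ, 0 < ε ∧ ∀ z : Ext, R < ‖(z : ℂ)‖ → ε ≤ dist (f z) (f w) := by
  let g : ℝ × ℝ → ℂ := fun p => f (Ep p)
  have hg : Continuous g := hf.comp Ep_cont
  have hp : ∀ s θ, g (s, θ + 2 * π) = g (s, θ) := by
    intro s θ
    simp only [g, Ep]
    congr 2
    push_cast
    rw [add_mul, ← add_assoc, exp_periodic]
  have hgi : ∀ s θ s' θ', 0 ≤ s → 0 ≤ s' → g (s, θ) = g (s', θ') →
      s = s' ∧ exp (θ * I) = exp (θ' * I) := by
    intro s θ s' θ' hs hs' h
    have h1 := hi h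
    have h2 : s = s' := by
      have := congrArg (fun z : Ext => ‖(z : ℂ)‖) h1
      simp only [Ep_norm _ _ hs, Ep_norm _ _ hs'] at this
      exact Real.exp_injective this
    subst h2
    refine ⟨rfl, ?_⟩
    have := congrArg Subtype.val h1
    simp only [Ep, exp_add] at this
    exact mul_left_cancel₀ (exp_ne_zero _) this
  set s0 := Real.log ‖(w : ℂ)‖
  have hs0 : 0 ≤ s0 := Real.log_nonneg w.2
  have hw : f w = g (s0, arg w) := congrArg f (Ep_surj w)
  have hne : ∀ θ, g (s0 + 1, θ) - g (s0, arg w) ≠ 0 := fun θ h => by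
    have := (hgi _ _ _ _ (by linarith) hs0 (sub_eq_zero.mp h)).1
    linarith
  have hp' : ∀ s, g (s, 2 * π) = g (s, 0) := fun s => by simpa using hp s 0
  obtain ⟨c, hA, hc1⟩ := W.exists (fun θ => g (s0 + 1, θ) - g (s0, arg w)) (by fun_prop) hne
    (by simp only [hp'])
  have hJ : IsCompact (f '' {z : Ext | ‖(z : ℂ)‖ = Real.exp (s0 + 1)}) := by
    refine IsCompact.image ?_ hf
    rw [Subtype.isCompact_iff]
    refine Metric.isCompact_of_isClosed_isBounded ?_ ?_
    · refine IsClosed.isClosedMap_subtype_val (isClosed_le continuous_const continuous_norm) _ ?_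
      exact isClosed_eq (by fun_prop) continuous_const
    · refine (Metric.isBounded_closedBall (x := (0 : ℂ)) (r := Real.exp (s0 + 1))).subset ?_
      rintro _ ⟨z, hz, rfl⟩
      simpa using (show ‖(z : ℂ)‖ = _ from hz).le
  have hwJ : f w ∈ (f '' {z : Ext | ‖(z : ℂ)‖ = Real.exp (s0 + 1)})ᶜ := by
    rintro ⟨z, hz, hzw⟩
    rw [hi hzw] at hz
    have h1 : ‖(w : ℂ)‖ = Real.exp (s0 + 1) := hz
    have h2 : ‖(w : ℂ)‖ = Real.exp s0 :=
      (Real.exp_log (lt_of_lt_of_le one_pos (show 1 ≤ ‖(w : ℂ)‖ from w.2))).symm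
    have := Real.exp_injective (h1.symm.trans h2)
    linarith
  obtain ⟨ε, hε, hball⟩ := Metric.isOpen_iff.mp hJ.isClosed.isOpen_compl _ hwJ
  refine ⟨Real.exp (s0 + 1), ε, hε, fun z hz => ?_⟩
  by_contra hlt
  push Not at hlt
  have hz1 : s0 + 1 < Real.log ‖(z : ℂ)‖ := by
    rw [Real.lt_log_iff_exp_lt (lt_of_lt_of_le one_pos (show 1 ≤ ‖(z : ℂ)‖ from z.2))]
    exact hz
  have hzz : f z = g (Real.log ‖(z : ℂ)‖, arg z) := congrArg f (Ep_surj z)
  refine sepa g hg hp hgi s0 (arg w) (s0 + 1) _ (arg z) hs0 (by linarith) hz1 c hc1 hA ?_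
  have hcl := cl_cont
  have := W.homotopy (fun p => g (s0 + 1, p.1) - (f w + (cl p.2 : ℂ) * (f z - f w))) (by fun_prop)
    (fun p h => by
      refine hball (a := f w + (cl p.2 : ℂ) * (f z - f w)) ?_ ⟨Ep (s0 + 1, p.1),
        Ep_norm _ _ (by linarith), sub_eq_zero.mp h⟩
      rw [Metric.mem_ball, dist_eq_norm, add_sub_cancel_left, norm_mul, ← dist_eq_norm,
        norm_real, Real.norm_eq_abs, abs_of_nonneg (cl_nonneg _)]
      nlinarith [cl_le p.2, cl_nonneg p.2, dist_nonneg (x := f z) (y := f w)])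
    (fun t => by simp only [hp']) (c := c) (by simpa [cl_zero, hw] using hA)
  simpa [cl_one, hzz] using this

theorem ext_rigid (f : Ext → ℂ) (hf : Continuous f) (hi : Function.Injective f) :
    IsEmbedding f := by
  refine ⟨isInducing_iff_nhds.mpr fun w => le_antisymm (hf.tendsto w).le_comap ?_, hi⟩
  intro U hU
  obtain ⟨V, hVU, hV, hwV⟩ := mem_nhds_iff.mp hU
  obtain ⟨R, ε, hε, h⟩ := far f hf hi w
  have hK : IsCompact (f '' ({z : Ext | ‖(z : ℂ)‖ ≤ R} ∩ Vᶜ)) := by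
    refine IsCompact.image (IsCompact.inter_right ?_ hV.isClosed_compl) hf
    rw [Subtype.isCompact_iff]
    refine Metric.isCompact_of_isClosed_isBounded ?_ ?_
    · refine IsClosed.isClosedMap_subtype_val (isClosed_le continuous_const continuous_norm) _ ?_
      exact isClosed_le (by fun_prop) continuous_const
    · refine (Metric.isBounded_closedBall (x := (0 : ℂ)) (r := R)).subset ?_
      rintro _ ⟨z, hz, rfl⟩
      simpa using (show ‖(z : ℂ)‖ ≤ _ from hz)
  have hwK : f w ∈ (f '' ({z : Ext | ‖(z : ℂ)‖ ≤ R} ∩ Vᶜ))ᶜ := by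
    rintro ⟨z, hz, hzw⟩
    exact hz.2 (hi hzw ▸ hwV)
  refine mem_comap.mpr ⟨_, inter_mem (hK.isClosed.isOpen_compl.mem_nhds hwK)
    (Metric.ball_mem_nhds _ hε), fun z hz => hVU ?_⟩
  by_contra hzV
  by_cases hR : ‖(z : ℂ)‖ ≤ R
  · exact hz.1 ⟨z, ⟨hR, hzV⟩, rfl⟩
  · exact absurd (h z (not_le.mp hR)) (not_le.mpr hz.2)

theorem move_loc (W : Set ℂ) (a b : ℂ) (r : ℝ) (hr : 0 < r) (hab : dist b a < r)
    (hW : Metric.ball a (2 * r) ⊆ W) :
    ∃ k : ℂ → ℂ, Continuous k ∧ Function.Injective k ∧ (∀ z, z ∉ W → k z = z) ∧ k a = b := by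
  refine ⟨fun z => z + ((max 0 (1 - dist z a / (2 * r)) : ℝ) : ℂ) * (b - a), by fun_prop, ?_, ?_, ?_⟩
  · intro z w h
    by_contra hne
    have hd : 0 < dist z w := dist_pos.mpr hne
    have e : z - w = -(((max 0 (1 - dist z a / (2 * r)) - max 0 (1 - dist w a / (2 * r)) : ℝ) : ℂ) *
        (b - a)) := by
      push_cast
      simp only at h
      linear_combination h
    have h1 : |max 0 (1 - dist z a / (2 * r)) - max 0 (1 - dist w a / (2 * r))| ≤
        dist z w / (2 * r) := by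
      rw [max_comm 0, max_comm 0]
      refine (abs_max_sub_max_le_abs _ _ _).trans ?_
      rw [show 1 - dist z a / (2 * r) - (1 - dist w a / (2 * r)) = (dist w a - dist z a) / (2 * r) by
        ring, abs_div, abs_of_pos (by positivity : (0 : ℝ) < 2 * r)]
      gcongr
      rw [dist_comm z w]
      exact abs_dist_sub_le _ _ _
    have h2 : dist z w ≤ dist z w / (2 * r) * r := by
      conv_lhs => rw [dist_eq_norm, e, norm_neg, norm_mul, norm_real, Real.norm_eq_abs,
        ← dist_eq_norm]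
      exact mul_le_mul h1 hab.le dist_nonneg (by positivity)
    have h3 : dist z w / (2 * r) * r = dist z w / 2 := by field_simp
    linarith
  · intro z hz
    have : 2 * r ≤ dist z a := not_lt.mp fun h => hz (hW h)
    have h1 : 1 - dist z a / (2 * r) ≤ 0 := by
      rw [sub_nonpos, le_div_iff₀ (by positivity)]; linarith
    simp [max_eq_left h1]
  · simp

theorem move (W : Set ℂ) (hW : IsOpen W) (hc : IsPreconnected W) (a b : ℂ) (ha : a ∈ W)
    (hb : b ∈ W) :
    ∃ k : ℂ → ℂ, Continuous k ∧ Function.Injective k ∧ (∀ z, z ∉ W → k z = z) ∧ k a = b := by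
  refine hc.induction₂' (fun a b => ∃ k : ℂ → ℂ, Continuous k ∧ Function.Injective k ∧
    (∀ z, z ∉ W → k z = z) ∧ k a = b) ?_ ?_ ha hb
  · intro x hx
    obtain ⟨ε, hε, hball⟩ := Metric.isOpen_iff.mp hW x hx
    refine Filter.mem_of_superset (mem_nhdsWithin_of_mem_nhds
      (Metric.ball_mem_nhds x (show 0 < ε / 3 by positivity))) fun y hy => ⟨?_, ?_⟩
    · exact move_loc W x y (ε / 3) (by positivity) hy
        ((Metric.ball_subset_ball (by linarith)).trans hball)
    · refine move_loc W y x (ε / 3) (by positivity) (by rw [dist_comm]; exact hy)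
        (Subset.trans (fun z hz => ?_) hball)
      have h1 : dist z y < 2 * (ε / 3) := hz
      have h2 : dist y x < ε / 3 := hy
      have := dist_triangle z y x
      show dist z x < ε
      linarith
  · rintro x y z - - - ⟨k, k1, k2, k3, k4⟩ ⟨l, l1, l2, l3, l4⟩
    exact ⟨l ∘ k, l1.comp k1, l2.comp k2, fun z hz => by simp [k3 z hz, l3 z hz], by simp [k4, l4]⟩

theorem ext_conn (R : ℝ) : IsPreconnected {z : ℂ | R < ‖z‖} := by
  by_cases hR : R < 0
  · have : {z : ℂ | R < ‖z‖} = univ := eq_univ_of_forall fun z => hR.trans_le (norm_nonneg z)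
    rw [this]; exact isPreconnected_univ
  have : {z : ℂ | R < ‖z‖} = (fun p : ℝ × ℝ => (p.1 : ℂ) * exp (p.2 * I)) '' (Ioi R ×ˢ univ) := by
    ext z
    constructor
    · intro hz
      exact ⟨(‖z‖, arg z), ⟨hz, trivial⟩, norm_mul_exp_arg_mul_I z⟩
    · rintro ⟨p, ⟨hp, -⟩, rfl⟩
      have hp' : R < p.1 := hp
      simp only [mem_setOf_eq, norm_mul, norm_exp_ofReal_mul_I, mul_one, norm_real, Real.norm_eq_abs]
      exact hp'.trans_le (le_abs_self _)
  rw [this]
  exact (isPreconnected_Ioi.prod isPreconnected_univ).image _ (by fun_prop)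

theorem step (X : Set ℂ) (hY : IsPreconnected Xᶜ) (hb : ¬ Bornology.IsBounded Xᶜ)
    (hX : ¬ IsCompact X) (x0 : ℂ) (hx0 : x0 ∈ closure Xᶜ) (C : Set ℂ) (hC : IsCompact C)
    (hCX : C ⊆ X) (g : ℂ → ℂ) (hg : Continuous g) (hi : Function.Injective g) (ε : ℝ)
    (hε : 0 < ε) : ∃ (g' : ℂ → ℂ) (z : ℂ), Continuous g' ∧ Function.Injective g' ∧
      (∀ x ∈ C, g' x = g x) ∧ z ∈ X ∧ z ∉ C ∧ dist (g' z) (g x0) < ε := by
  obtain ⟨y, hy1, hy2⟩ := mem_closure_iff.mp hx0 (g ⁻¹' Metric.ball (g x0) ε)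
    (Metric.isOpen_ball.preimage hg) (Metric.mem_ball_self hε)
  have hyC : y ∈ Cᶜ := fun h => hy2 (hCX h)
  let W := connectedComponentIn Cᶜ y
  have hWo : IsOpen W := hC.isClosed.isOpen_compl.connectedComponentIn
  have hWc : IsPreconnected W := isPreconnected_connectedComponentIn
  have hWC : W ⊆ Cᶜ := connectedComponentIn_subset _ _
  have hYW : Xᶜ ⊆ W := hY.subset_connectedComponentIn hy2 (compl_subset_compl.mpr hCX)
  obtain ⟨z, hz1, hz2⟩ : ∃ z, z ∈ X ∧ z ∈ W := by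
    by_contra hno
    push Not at hno
    apply hX
    have hXW : X = Wᶜ := Subset.antisymm (fun z hz => hno z hz) (compl_subset_comm.mp hYW)
    obtain ⟨R, hR⟩ := hC.isBounded.subset_closedBall 0
    obtain ⟨u, hu1, hu2⟩ : ∃ u, u ∈ Xᶜ ∧ R < ‖u‖ := by
      by_contra hno'
      push Not at hno'
      exact hb ((Metric.isBounded_closedBall (x := (0 : ℂ)) (r := R)).subset fun u hu => by
        simpa using hno' u hu)
    have hE : {z : ℂ | R < ‖z‖} ⊆ W := by
      have h1 := (ext_conn R).subset_connectedComponentIn (F := Cᶜ) (x := u) hu2 (fun z hz hzC => by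
        have := hR hzC
        simp only [Metric.mem_closedBall, dist_zero_right] at this
        exact absurd hz (not_lt.mpr this))
      rw [← connectedComponentIn_eq (hYW hu1)] at h1
      exact h1
    refine Metric.isCompact_of_isClosed_isBounded (hXW ▸ hWo.isClosed_compl) ?_
    refine (Metric.isBounded_closedBall (x := (0 : ℂ)) (r := R)).subset fun z hz => ?_
    by_contra h
    simp only [Metric.mem_closedBall, dist_zero_right, not_le] at h
    exact hno z hz (hE h)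
  obtain ⟨k, k1, k2, k3, k4⟩ := move W hWo hWc z y hz2 (hYW hy2)
  refine ⟨g ∘ k, z, hg.comp k1, hi.comp k2, fun x hx => ?_, hz1, hWC hz2, ?_⟩
  · simp [k3 x fun h => hWC h hx]
  · simp only [Function.comp, k4]
    exact hy1

theorem not_rigid (X : Set ℂ) [LocallyCompactSpace X] (hY : IsPreconnected Xᶜ)
    (hb : ¬ Bornology.IsBounded Xᶜ) (hX : ¬ IsCompact X) (hO : ¬ IsOpen X) :
    ∃ f : X → ℂ, Continuous f ∧ Function.Injective f ∧ ¬ IsEmbedding f := by
  obtain ⟨x0, hx0X, hx0⟩ : ∃ x0 ∈ X, x0 ∈ closure Xᶜ := by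
    by_contra h
    push Not at h
    apply hO
    rw [← isClosed_compl_iff, ← closure_subset_iff_isClosed]
    intro z hz hzX
    exact h z hzX hz
  let K := CompactExhaustion.choice X
  let S := {p : (ℂ → ℂ) × Set ℂ // Continuous p.1 ∧ Function.Injective p.1 ∧ IsCompact p.2 ∧ p.2 ⊆ X}
  have hstep : ∀ (n : ℕ) (s : S), ∃ (s' : S) (z : ℂ), (∀ x ∈ s.1.2, s'.1.1 x = s.1.1 x) ∧
      s.1.2 ⊆ s'.1.2 ∧ Subtype.val '' K n ⊆ s'.1.2 ∧ z ∈ s'.1.2 ∧ z ∉ s.1.2 ∧
      dist (s'.1.1 z) (s.1.1 x0) < 1 / ((n : ℝ) + 1) := by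
    rintro n ⟨⟨g, C⟩, h1, h2, h3, h4⟩
    obtain ⟨g', z, a1, a2, a3, a4, a5, a6⟩ := step X hY hb hX x0 hx0 C h3 h4 g h1 h2
      (1 / ((n : ℝ) + 1)) (by positivity)
    refine ⟨⟨(g', insert z (C ∪ Subtype.val '' K n)), a1, a2,
      (h3.union ((K.isCompact n).image continuous_subtype_val)).insert z, ?_⟩, z, a3,
      fun x hx => Or.inr (Or.inl hx), fun x hx => Or.inr (Or.inr hx), Or.inl rfl, a5, a6⟩
    rintro x (rfl | hx | ⟨y, -, rfl⟩)
    exacts [a4, h4 hx, y.2]
  choose nx zz h1 h2 h3 h4 h5 h6 using hstep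
  let s : ℕ → S := fun n => Nat.rec ⟨(id, {x0}), continuous_id, Function.injective_id,
    isCompact_singleton, singleton_subset_iff.mpr hx0X⟩ (fun n t => nx n t) n
  have hs : ∀ n, s (n + 1) = nx n (s n) := fun n => rfl
  have hmono : ∀ m n, m ≤ n → (s m).1.2 ⊆ (s n).1.2 ∧ ∀ x ∈ (s m).1.2, (s n).1.1 x = (s m).1.1 x := by
    intro m n hmn
    induction n, hmn using Nat.le_induction with
    | base => exact ⟨Subset.rfl, fun _ _ => rfl⟩
    | succ n _ ih =>
      rw [hs]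
      exact ⟨ih.1.trans (h2 n _), fun x hx => (h1 n _ x (ih.1 hx)).trans (ih.2 x hx)⟩
  have hK : ∀ n (x : X), x ∈ K n → x.1 ∈ (s (n + 1)).1.2 := fun n x hx => h3 n _ ⟨x, hx, rfl⟩
  choose N hN using fun x : X => K.exists_mem x
  let f : X → ℂ := fun x => (s (N x + 1)).1.1 x
  have hf : ∀ n (x : X), x.1 ∈ (s n).1.2 → f x = (s n).1.1 x := by
    intro n x hx
    rw [← (hmono n (max n (N x + 1)) (le_max_left _ _)).2 x hx,
      (hmono (N x + 1) (max n (N x + 1)) (le_max_right _ _)).2 x (hK _ x (hN x))]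
  refine ⟨f, ?_, ?_, fun he => ?_⟩
  · rw [continuous_iff_continuousAt]
    intro x
    obtain ⟨n, hn⟩ := K.exists_mem_nhds x
    refine (((s (n + 1)).2.1.comp continuous_subtype_val).continuousAt (x := x)).congr ?_
    filter_upwards [hn] with y hy
    exact (hf (n + 1) y (hK n y hy)).symm
  · intro x y hxy
    rw [hf (max (N x + 1) (N y + 1)) x ((hmono _ _ (le_max_left _ _)).1 (hK _ x (hN x))),
      hf (max (N x + 1) (N y + 1)) y ((hmono _ _ (le_max_right _ _)).1 (hK _ y (hN y)))] at hxy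
    exact Subtype.ext ((s _).2.2.1 hxy)
  · let z : ℕ → X := fun n => ⟨zz n (s n), (s (n + 1)).2.2.2.2 (h4 n _)⟩
    have hx0s : ∀ n, x0 ∈ (s n).1.2 := fun n => (hmono 0 n (Nat.zero_le _)).1 rfl
    have hlim : Tendsto (f ∘ z) atTop (𝓝 (f ⟨x0, hx0X⟩)) := by
      rw [tendsto_iff_dist_tendsto_zero]
      refine squeeze_zero (fun _ => dist_nonneg) (fun n => ?_) tendsto_one_div_add_atTop_nhds_zero_nat
      rw [Function.comp, hf (n + 1) (z n) (h4 n _), hf n ⟨x0, hx0X⟩ (hx0s n)]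
      exact (h6 n (s n)).le
    have hz := he.tendsto_nhds_iff.mpr hlim
    obtain ⟨m, hm⟩ := K.exists_mem_nhds ⟨x0, hx0X⟩
    obtain ⟨n, hn1, hn2⟩ := ((hz.eventually hm).and (eventually_ge_atTop (m + 1))).exists
    exact h5 n (s n) ((hmono _ _ hn2).1 (hK m _ hn1))

end Pool.Agent.Lib.helper22.Ir
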