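import Mathlib

namespace Pool.Agent.Lib.helper22.LeeA

open Finset
open scoped InnerProductSpace

variable {E : Type*} [NormedAddCommGroup E] [InnerProductSpace ℂ E] [FiniteDimensional ℂ E]
variable {ι : Type*} [Fintype ι] [DecidableEq ι]

/-- singular data: `T` maps the orthonormal basis `u` to an orthogonal family of lengths `a`. -/
def SD (T : E →ₗ[ℂ] E) (u : OrthonormalBasis ι ℂ E) (a : ι → ℝ) : Prop :=
  (∀ i, 0 ≤ a i) ∧ (∀ i, ‖T (u i)‖ = a i) ∧ ∀ i j, i ≠ j → ⟪T (u i), T (u j)⟫_ℂ = 0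

lemma hs_le {κ : Type*} [Fintype κ] (T : E →ₗ[ℂ] E) (u : OrthonormalBasis ι ℂ E)
    (e : κ → E) (he : Orthonormal ℂ e) :
    ∑ k, ‖T (e k)‖ ^ 2 ≤ ∑ i, ‖T (u i)‖ ^ 2 := by
  have h1 : ∀ x : E, ‖T x‖ ^ 2 = ∑ l, ‖⟪x, (LinearMap.adjoint T) (u l)⟫_ℂ‖ ^ 2 := by
    intro x
    rw [← u.sum_sq_norm_inner_left (T x)]
    refine sum_congr rfl fun l _ => ?_
    rw [LinearMap.adjoint_inner_right]
  simp_rw [h1]
  rw [sum_comm, sum_comm (s := univ) (t := univ)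
    (f := fun i l => ‖⟪u i, (LinearMap.adjoint T) (u l)⟫_ℂ‖ ^ 2)]
  refine sum_le_sum fun l _ => ?_
  rw [u.sum_sq_norm_inner_right]
  exact he.sum_inner_products_le _

lemma hs_eq (T : E →ₗ[ℂ] E) (u v : OrthonormalBasis ι ℂ E) :
    ∑ k, ‖T (v k)‖ ^ 2 = ∑ i, ‖T (u i)‖ ^ 2 :=
  le_antisymm (hs_le T u v v.orthonormal) (hs_le T v u u.orthonormal)

omit [FiniteDimensional ℂ E] in
lemma norm_sum_sq (x : ι → E) (hx : ∀ i j, i ≠ j → ⟪x i, x j⟫_ℂ = 0) (c : ι → ℂ) :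
    ‖∑ i, c i • x i‖ ^ 2 = ∑ i, ‖c i‖ ^ 2 * ‖x i‖ ^ 2 := by
  have h : ⟪∑ i, c i • x i, ∑ i, c i • x i⟫_ℂ = ∑ i, ((‖c i‖ ^ 2 * ‖x i‖ ^ 2 : ℝ) : ℂ) := by
    rw [sum_inner]
    refine sum_congr rfl fun i _ => ?_
    rw [inner_sum, sum_eq_single i]
    · rw [inner_smul_left, inner_smul_right, inner_self_eq_norm_sq_to_K, ← mul_assoc,
        Complex.conj_mul']
      push_cast; rfl
    · intro j _ hj
      rw [inner_smul_left, inner_smul_right, hx i j (Ne.symm hj)]; simp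
    · simp
  rw [inner_self_eq_norm_sq_to_K] at h
  have h2 : ((‖∑ i, c i • x i‖ ^ 2 : ℝ) : ℂ) = ((∑ i, ‖c i‖ ^ 2 * ‖x i‖ ^ 2 : ℝ) : ℂ) := by
    push_cast at h ⊢; exact h
  exact_mod_cast h2

omit [FiniteDimensional ℂ E] in
lemma bessel (x : ι → E) (hx : ∀ i j, i ≠ j → ⟪x i, x j⟫_ℂ = 0) (h1 : ∀ i, ‖x i‖ ≤ 1) (y : E) :
    ∑ i, ‖⟪x i, y⟫_ℂ‖ ^ 2 ≤ ‖y‖ ^ 2 := by
  set N := ∑ i, ‖⟪x i, y⟫_ℂ‖ ^ 2 with hN
  set s := ∑ i, ⟪x i, y⟫_ℂ • x i with hs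
  have hs2 : ‖s‖ ^ 2 ≤ N := by
    rw [hs, norm_sum_sq x hx]
    refine sum_le_sum fun i _ => ?_
    have : ‖x i‖ ^ 2 ≤ 1 := by have := h1 i; have := norm_nonneg (x i); nlinarith
    have := sq_nonneg ‖⟪x i, y⟫_ℂ‖
    nlinarith
  have hsy : ⟪s, y⟫_ℂ = (N : ℂ) := by
    rw [hs, sum_inner, hN]
    push_cast
    refine sum_congr rfl fun i _ => ?_
    rw [inner_smul_left, Complex.conj_mul']
  have hN0 : 0 ≤ N := sum_nonneg fun i _ => sq_nonneg _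
  have h3 : N ≤ ‖s‖ * ‖y‖ := by
    have := norm_inner_le_norm (𝕜 := ℂ) s y
    rwa [hsy, Complex.norm_real, Real.norm_of_nonneg hN0] at this
  nlinarith [sq_nonneg (‖s‖ - ‖y‖)]

omit [FiniteDimensional ℂ E] [DecidableEq ι] in
lemma expand (T : E →ₗ[ℂ] E) (u : OrthonormalBasis ι ℂ E) (y : E) :
    T y = ∑ i, ⟪u i, y⟫_ℂ • T (u i) := by
  conv_lhs => rw [← u.sum_repr' y]
  simp [map_sum]

omit [FiniteDimensional ℂ E] in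
lemma SD.norm_sq {T : E →ₗ[ℂ] E} {u : OrthonormalBasis ι ℂ E} {a : ι → ℝ} (h : SD T u a) (y : E) :
    ‖T y‖ ^ 2 = ∑ i, ‖⟪u i, y⟫_ℂ‖ ^ 2 * a i ^ 2 := by
  rw [expand T u y, norm_sum_sq _ h.2.2]
  simp_rw [h.2.1]

omit [FiniteDimensional ℂ E] in
lemma SD.unit {T : E →ₗ[ℂ] E} {u : OrthonormalBasis ι ℂ E} {a : ι → ℝ} (h : SD T u a) :
    ∃ x : ι → E, (∀ i j, i ≠ j → ⟪x i, x j⟫_ℂ = 0) ∧ (∀ i, ‖x i‖ ≤ 1) ∧
      ∀ i, T (u i) = (a i : ℂ) • x i := by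
  refine ⟨fun i => ((a i : ℂ))⁻¹ • T (u i), fun i j hij => ?_, fun i => ?_, fun i => ?_⟩
  · simp only [inner_smul_left, inner_smul_right, h.2.2 i j hij, mul_zero]
  · rw [norm_smul, h.2.1, norm_inv, Complex.norm_real, Real.norm_of_nonneg (h.1 i)]
    exact inv_mul_le_one_of_le₀ le_rfl (h.1 i)
  · by_cases h0 : a i = 0
    · have : T (u i) = 0 := by rw [← norm_eq_zero, h.2.1, h0]
      simp [this]
    · rw [smul_smul, mul_inv_cancel₀ (by exact_mod_cast h0), one_smul]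

noncomputable def C : ℝ := (1 + √2) / 2

lemma C_one : 1 ≤ C := by
  have : (1 : ℝ) ≤ √2 := Real.one_le_sqrt.mpr (by norm_num)
  unfold C; linarith

lemma C_eq : 4 * C * (C - 1) = 1 := by
  have : √2 * √2 = (2 : ℝ) := Real.mul_self_sqrt (by norm_num)
  unfold C; nlinarith

/-- the linear case. -/
lemma lin {A B : E →ₗ[ℂ] E} {u v : OrthonormalBasis ι ℂ E} {a b : ι → ℝ}
    (hA : SD A u a) (hB : SD B v b) :
    ∑ i, ‖(A + B) (u i)‖ ^ 2 ≤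
      C * (∑ i, a i ^ 2 + ∑ j, b j ^ 2 + 2 * ∑ i, ∑ j, ‖⟪v j, u i⟫_ℂ‖ ^ 2 * (a i * b j)) := by
  obtain ⟨x, hx, hx1, hxA⟩ := hA.unit
  obtain ⟨y, hy, hy1, hyB⟩ := hB.unit
  have hC := C_one
  have hC2 := C_eq
  have e1 : ∀ i, ‖(A + B) (u i)‖ ^ 2 ≤ a i ^ 2 + ‖B (u i)‖ ^ 2 +
      2 * ∑ j, ‖⟪v j, u i⟫_ℂ‖ * (a i * b j) * ‖⟪x i, y j⟫_ℂ‖ := by
    intro i
    rw [LinearMap.add_apply, @norm_add_sq ℂ, hA.2.1]
    have : RCLike.re ⟪A (u i), B (u i)⟫_ℂ ≤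
        ∑ j, ‖⟪v j, u i⟫_ℂ‖ * (a i * b j) * ‖⟪x i, y j⟫_ℂ‖ := by
      refine (RCLike.re_le_norm _).trans ?_
      rw [expand B v (u i), inner_sum]
      refine (norm_sum_le _ _).trans (le_of_eq (sum_congr rfl fun j _ => ?_))
      rw [hxA, hyB, inner_smul_right, inner_smul_left, inner_smul_right]
      simp only [norm_mul, RCLike.norm_conj, Complex.norm_real, Real.norm_of_nonneg (hA.1 i),
        Real.norm_of_nonneg (hB.1 j)]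
      ring
    linarith
  have e2 : ∑ i, ‖B (u i)‖ ^ 2 = ∑ j, b j ^ 2 := by
    rw [hs_eq B v u]; simp_rw [hB.2.1]
  have e3 : ∀ i j, 2 * (‖⟪v j, u i⟫_ℂ‖ * (a i * b j) * ‖⟪x i, y j⟫_ℂ‖) ≤
      2 * C * (‖⟪v j, u i⟫_ℂ‖ ^ 2 * (a i * b j)) +
      (C - 1) * (a i ^ 2 * ‖⟪x i, y j⟫_ℂ‖ ^ 2) + (C - 1) * (b j ^ 2 * ‖⟪x i, y j⟫_ℂ‖ ^ 2) := by
    intro i j
    set p := ‖⟪v j, u i⟫_ℂ‖
    set q := ‖⟪x i, y j⟫_ℂ‖
    have hab : 0 ≤ a i * b j := mul_nonneg (hA.1 i) (hB.1 j)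
    have k1 : 2 * (p * q) ≤ 2 * C * p ^ 2 + 2 * (C - 1) * q ^ 2 := by
      have : 0 ≤ 2 * C * (p - 2 * (C - 1) * q) ^ 2 := by positivity
      have e : 2 * C * (p - 2 * (C - 1) * q) ^ 2 =
          2 * C * p ^ 2 - 2 * (4 * C * (C - 1)) * (p * q) +
            2 * (4 * C * (C - 1)) * (C - 1) * q ^ 2 := by ring
      rw [e, hC2] at this
      linarith
    have k2 : 2 * (a i * b j) ≤ a i ^ 2 + b j ^ 2 := by nlinarith [sq_nonneg (a i - b j)]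
    have k3 := mul_le_mul_of_nonneg_left k1 hab
    have k4 := mul_le_mul_of_nonneg_left k2
      (show 0 ≤ (C - 1) * q ^ 2 from mul_nonneg (by linarith) (sq_nonneg _))
    nlinarith
  have e4 : ∑ i, ∑ j, a i ^ 2 * ‖⟪x i, y j⟫_ℂ‖ ^ 2 ≤ ∑ i, a i ^ 2 := by
    refine sum_le_sum fun i _ => ?_
    rw [← mul_sum]
    have h1 := bessel y hy hy1 (x i)
    have h2 : ‖x i‖ ^ 2 ≤ 1 := by have := hx1 i; have := norm_nonneg (x i); nlinarith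
    have h3 : ∑ j, ‖⟪x i, y j⟫_ℂ‖ ^ 2 = ∑ j, ‖⟪y j, x i⟫_ℂ‖ ^ 2 :=
      sum_congr rfl fun j _ => by rw [norm_inner_symm]
    rw [h3]
    nlinarith [sq_nonneg (a i)]
  have e5 : ∑ i, ∑ j, b j ^ 2 * ‖⟪x i, y j⟫_ℂ‖ ^ 2 ≤ ∑ j, b j ^ 2 := by
    rw [sum_comm]
    refine sum_le_sum fun j _ => ?_
    rw [← mul_sum]
    have h1 := bessel x hx hx1 (y j)
    have h2 : ‖y j‖ ^ 2 ≤ 1 := by have := hy1 j; have := norm_nonneg (y j); nlinarith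
    nlinarith [sq_nonneg (b j)]
  have e6 : ∑ i, 2 * ∑ j, ‖⟪v j, u i⟫_ℂ‖ * (a i * b j) * ‖⟪x i, y j⟫_ℂ‖ ≤
      2 * C * ∑ i, ∑ j, ‖⟪v j, u i⟫_ℂ‖ ^ 2 * (a i * b j) +
      (C - 1) * ∑ i, ∑ j, a i ^ 2 * ‖⟪x i, y j⟫_ℂ‖ ^ 2 +
      (C - 1) * ∑ i, ∑ j, b j ^ 2 * ‖⟪x i, y j⟫_ℂ‖ ^ 2 := by
    simp only [mul_sum, ← sum_add_distrib]
    exact sum_le_sum fun i _ => sum_le_sum fun j _ => e3 i j
  have e7 := sum_le_sum fun i (_ : i ∈ univ) => e1 i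
  rw [sum_add_distrib, sum_add_distrib, e2] at e7
  have := mul_le_mul_of_nonneg_left e4 (show 0 ≤ C - 1 by linarith)
  have := mul_le_mul_of_nonneg_left e5 (show 0 ≤ C - 1 by linarith)
  nlinarith

end Pool.Agent.Lib.helper22.LeeA
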