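import Mathlib
import Pool.Agent.Lib.helper22.LeeA

namespace Pool.Agent.Lib.helper22.LeeB

open Finset Pool.Agent.Lib.helper22.LeeA
open scoped InnerProductSpace

variable {E : Type*} [NormedAddCommGroup E] [InnerProductSpace ℂ E] [FiniteDimensional ℂ E]
variable {ι : Type*} [Fintype ι] [DecidableEq ι]

omit [FiniteDimensional ℂ E] in
lemma cut {T : E →ₗ[ℂ] E} {u : OrthonormalBasis ι ℂ E} {a : ι → ℝ} (h : SD T u a) (r : ℝ) :
    ∃ T' : E →ₗ[ℂ] E, SD T' u (fun i => if a i ≤ r then a i else 0) ∧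
      ∀ x, (∀ i, r < a i → ⟪u i, x⟫_ℂ = 0) → T x = T' x := by
  set T' : E →ₗ[ℂ] E := u.toBasis.constr ℂ (fun i => if a i ≤ r then T (u i) else 0) with hT'
  have hu : ∀ i, T' (u i) = if a i ≤ r then T (u i) else 0 := by
    intro i
    exact u.toBasis.constr_basis ℂ (fun i => if a i ≤ r then T (u i) else 0) i
  refine ⟨T', ⟨fun i => ?_, fun i => ?_, fun i j hij => ?_⟩, fun x hx => ?_⟩
  · dsimp only; split_ifs
    · exact h.1 i
    · exact le_rfl
  · rw [hu]; dsimp only; split_ifs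
    · exact h.2.1 i
    · simp
  · rw [hu, hu]; split_ifs <;> simp [h.2.2 i j hij]
  · rw [expand T u x, expand T' u x]
    refine sum_congr rfl fun i _ => ?_
    rw [hu]; split_ifs with hi
    · rfl
    · rw [hx i (not_le.mp hi)]; simp

lemma trunc {A B : E →ₗ[ℂ] E} {u v w : OrthonormalBasis ι ℂ E} {a b z : ι → ℝ}
    (hA : SD A u a) (hB : SD B v b) (hZ : SD (A + B) w z) {r : ℝ} (hr : 0 ≤ r) :
    ∑ k, min (z k) r ^ 2 ≤
      C * (∑ i, min (a i) r ^ 2 + ∑ j, min (b j) r ^ 2 +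
        2 * ∑ i, ∑ j, ‖⟪v j, u i⟫_ℂ‖ ^ 2 * (min (a i) r * min (b j) r)) := by
  classical
  obtain ⟨A', hA', hAA⟩ := cut hA r
  obtain ⟨B', hB', hBB⟩ := cut hB r
  set I := univ.filter (fun i => r < a i) with hI
  set J := univ.filter (fun j => r < b j) with hJ
  set S : Finset E := I.image u ∪ J.image v with hS
  set L : Submodule ℂ E := Submodule.span ℂ (S : Set E) with hL
  have hLr : Module.finrank ℂ L ≤ I.card + J.card := by
    refine (finrank_span_finset_le_card S).trans ?_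
    exact (card_union_le _ _).trans (add_le_add card_image_le card_image_le)
  have hdim := L.finrank_add_finrank_orthogonal
  rw [Module.finrank_eq_card_basis u.toBasis] at hdim
  set d := Module.finrank ℂ Lᗮ with hd
  set e0 := stdOrthonormalBasis ℂ Lᗮ
  set e : Fin d → E := fun k => (e0 k : E) with he
  have heo : Orthonormal ℂ e := e0.orthonormal.comp_linearIsometry Lᗮ.subtypeₗᵢ
  have hek : ∀ k, (A + B) (e k) = (A' + B') (e k) := by
    intro k
    have hm : ∀ s ∈ S, ⟪s, e k⟫_ℂ = 0 := fun s hs =>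
      (e0 k).2 s (Submodule.subset_span hs)
    rw [LinearMap.add_apply, LinearMap.add_apply, hAA, hBB]
    · intro j hj
      exact hm _ (mem_union_right _ (mem_image_of_mem _ (by simp [hJ, hj])))
    · intro j hj
      exact hm _ (mem_union_left _ (mem_image_of_mem _ (by simp [hI, hj])))
  set κ : ι → ℝ := fun l => ∑ k, ‖⟪w l, e k⟫_ℂ‖ ^ 2 with hκ
  have hκ0 : ∀ l, 0 ≤ κ l := fun l => sum_nonneg fun _ _ => sq_nonneg _
  have hκ1 : ∀ l, κ l ≤ 1 := by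
    intro l
    have := heo.sum_inner_products_le (s := univ) (w l)
    rw [w.orthonormal.1 l] at this
    simp only [hκ]
    simp_rw [norm_inner_symm (w l)]
    simpa using this
  have hκs : ∑ l, κ l = d := by
    simp only [hκ]
    rw [sum_comm]
    simp_rw [w.sum_sq_norm_inner_right, heo.1]
    simp
  have h1 : ∑ l, z l ^ 2 * κ l = ∑ k, ‖(A + B) (e k)‖ ^ 2 := by
    simp_rw [hZ.norm_sq]
    rw [sum_comm]
    refine sum_congr rfl fun l _ => ?_
    simp only [hκ]; rw [mul_sum]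
    exact sum_congr rfl fun k _ => mul_comm _ _
  have h2 : ∑ k, ‖(A + B) (e k)‖ ^ 2 ≤ ∑ i, ‖(A' + B') (u i)‖ ^ 2 := by
    simp_rw [hek]; exact hs_le _ u e heo
  have h3 := lin hA' hB'
  have h4 : ∑ k, min (z k) r ^ 2 ≤ ∑ l, z l ^ 2 * κ l + r ^ 2 * (Fintype.card ι - d) := by
    have : r ^ 2 * ((Fintype.card ι : ℝ) - d) = ∑ l, r ^ 2 * (1 - κ l) := by
      rw [← mul_sum, sum_sub_distrib, hκs]; simp
    rw [this, ← sum_add_distrib]
    refine sum_le_sum fun l _ => ?_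
    have m0 : 0 ≤ min (z l) r := le_min (hZ.1 l) hr
    have m1 : min (z l) r ^ 2 ≤ z l ^ 2 := pow_le_pow_left₀ m0 (min_le_left _ _) 2
    have m2 : min (z l) r ^ 2 ≤ r ^ 2 := pow_le_pow_left₀ m0 (min_le_right _ _) 2
    have := mul_le_mul_of_nonneg_right m1 (hκ0 l)
    have := mul_le_mul_of_nonneg_right m2 (sub_nonneg.mpr (hκ1 l))
    nlinarith
  have h5 : (Fintype.card ι : ℝ) - d ≤ I.card + J.card := by
    have : Fintype.card ι ≤ I.card + J.card + d := by omega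
    have : (Fintype.card ι : ℝ) ≤ I.card + J.card + d := by exact_mod_cast this
    linarith
  have h6 : ∀ (c : ι → ℝ), ∑ i, min (c i) r ^ 2 =
      ∑ i, (if c i ≤ r then c i else 0) ^ 2 +
        r ^ 2 * ((univ.filter (fun i => r < c i)).card : ℝ) := by
    intro c
    rw [card_filter]
    push_cast
    rw [mul_sum, ← sum_add_distrib]
    refine sum_congr rfl fun i _ => ?_
    by_cases hi : c i ≤ r
    · simp [hi, not_lt.mpr hi]
    · have hi' := not_le.mp hi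
      simp [hi, hi', hi'.le]
  have h7 : ∑ i, ∑ j, ‖⟪v j, u i⟫_ℂ‖ ^ 2 *
        ((if a i ≤ r then a i else 0) * (if b j ≤ r then b j else 0)) ≤
      ∑ i, ∑ j, ‖⟪v j, u i⟫_ℂ‖ ^ 2 * (min (a i) r * min (b j) r) := by
    refine sum_le_sum fun i _ => sum_le_sum fun j _ => ?_
    refine mul_le_mul_of_nonneg_left ?_ (sq_nonneg _)
    have q : ∀ t : ℝ, 0 ≤ t → (if t ≤ r then t else 0) ≤ min t r := by
      intro t ht
      split_ifs with h
      · rw [min_eq_left h]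
      · exact le_min ht hr
    exact mul_le_mul (q _ (hA.1 i)) (q _ (hB.1 j)) (hB'.1 j) (le_min (hA.1 i) hr)
  rw [h6 a, h6 b]
  have hC := C_one
  have h8 := mul_le_mul_of_nonneg_left h5 (sq_nonneg r)
  have h9 := mul_le_mul_of_nonneg_left h7 (show 0 ≤ 2 * C by linarith)
  have h10 : 0 ≤ (C - 1) * (r ^ 2 * ((I.card : ℝ) + J.card)) :=
    mul_nonneg (by linarith) (by positivity)
  nlinarith

lemma rep (S : Finset ℝ) : ∀ (g : ℝ → ℝ) (T : ℝ), ConcaveOn ℝ (Set.Icc 0 T) g →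
    MonotoneOn g (Set.Icc 0 T) → (∀ t ∈ S, t ∈ Set.Icc 0 T) →
    ∃ ν : ℝ → ℝ, (∀ t, 0 ≤ ν t) ∧ ∀ t ∈ S, g t = g 0 + ∑ τ ∈ S, ν τ * min t τ := by
  classical
  induction S using Finset.induction_on_max with
  | empty => intro g T _ _ _; exact ⟨0, fun _ => le_rfl, by simp⟩
  | insert a S hlt ih =>
    intro g T hc hm hS
    have ha := hS a (mem_insert_self _ _)
    have haS : a ∉ S := fun h => lt_irrefl _ (hlt a h)
    obtain ⟨b, hb0, hba, hbS, hb⟩ : ∃ b, 0 ≤ b ∧ b ≤ a ∧ (∀ t ∈ S, t ≤ b) ∧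
        (b = 0 ∧ S = ∅ ∨ b ∈ S) := by
      rcases S.eq_empty_or_nonempty with h | h
      · exact ⟨0, le_rfl, ha.1, by simp [h], Or.inl ⟨rfl, h⟩⟩
      · exact ⟨S.max' h, (hS _ (mem_insert_of_mem (S.max'_mem h))).1,
          (hlt _ (S.max'_mem h)).le, fun t ht => S.le_max' t ht, Or.inr (S.max'_mem h)⟩
    set s := (g a - g b) / (a - b) with hs
    have hbT : b ∈ Set.Icc 0 T := ⟨hb0, hba.trans ha.2⟩
    have hs0 : 0 ≤ s := div_nonneg (sub_nonneg.mpr (hm hbT ha hba)) (sub_nonneg.mpr hba)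
    have hsub : Set.Icc 0 b ⊆ Set.Icc 0 T := Set.Icc_subset_Icc le_rfl hbT.2
    have hga : g a = g b + s * (a - b) := by
      rcases hba.eq_or_lt with h | h
      · rw [h]; simp
      · rw [hs, div_mul_cancel₀ _ (sub_pos.mpr h).ne']; ring
    have hc' : ConcaveOn ℝ (Set.Icc 0 b) (fun t => g t - s * t) := by
      refine (hc.subset hsub (convex_Icc _ _)).sub ?_
      refine ⟨convex_Icc _ _, fun x _ y _ p q _ _ _ => le_of_eq ?_⟩
      simp only [smul_eq_mul]; ring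
    have hm' : MonotoneOn (fun t => g t - s * t) (Set.Icc 0 b) := by
      intro x hx y hy hxy
      rcases hxy.eq_or_lt with h | h
      · rw [h]
      rcases hba.eq_or_lt with h' | h'
      · have : s = 0 := by rw [hs, h']; simp
        simp only [this, zero_mul, sub_zero]
        exact hm (hsub hx) (hsub hy) hxy
      have key : s ≤ (g y - g x) / (y - x) := by
        rcases hy.2.eq_or_lt with h2 | h2
        · rw [h2] at h ⊢
          exact hc.slope_anti_adjacent (hsub hx) ha h h'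
        · exact (hc.slope_anti_adjacent (hsub hy) ha h2 h').trans
            (hc.slope_anti_adjacent (hsub hx) hbT h h2)
      rw [le_div_iff₀ (sub_pos.mpr h)] at key
      dsimp only
      linarith
    obtain ⟨ν, hν0, hν⟩ := ih _ b hc' hm'
      (fun t ht => ⟨(hS t (mem_insert_of_mem ht)).1, hbS t ht⟩)
    refine ⟨Function.update ν a s, fun t => ?_, fun t ht => ?_⟩
    · rcases eq_or_ne t a with h | h
      · rw [h]; simpa using hs0
      · rw [Function.update_of_ne h]; exact hν0 t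
    · rw [sum_insert haS, Function.update_self]
      have hsum : ∑ τ ∈ S, Function.update ν a s τ * min t τ = ∑ τ ∈ S, ν τ * min t τ :=
        sum_congr rfl fun τ hτ => by
          rw [Function.update_of_ne (hlt τ hτ).ne]
      rw [hsum]
      rcases mem_insert.mp ht with h | h
      · subst h
        rw [min_self, hga]
        rcases hb with ⟨h1, h2⟩ | h1
        · simp [h1, h2]
        · have := hν b h1
          have e : ∑ τ ∈ S, ν τ * min t τ = ∑ τ ∈ S, ν τ * min b τ :=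
            sum_congr rfl fun τ hτ => by
              rw [min_eq_right (hlt τ hτ).le, min_eq_right (hbS τ hτ)]
          rw [e]
          linarith
      · have := hν t h
        rw [min_eq_left (hlt t h).le]
        linarith

lemma mono {f : ℝ → ℝ} (hf : ConcaveOn ℝ (Set.Ici 0) f) (h0 : ∀ x, 0 ≤ x → 0 ≤ f x) :
    MonotoneOn f (Set.Ici 0) := by
  intro x hx y hy hxy
  by_contra hlt
  have hlt := not_le.mp hlt
  have hxy' : x < y := lt_of_le_of_ne hxy (fun h => by rw [h] at hlt; exact lt_irrefl _ hlt)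
  set m := (f x - f y) / (y - x) with hm
  have hm0 : 0 < m := div_pos (by linarith) (by linarith)
  have hy0 : 0 ≤ f y := h0 y hy
  set z := y + (f y + 1) / m with hz
  have hyz : y < z := by
    have : 0 < (f y + 1) / m := by positivity
    linarith
  have hz0 : (0 : ℝ) ≤ z := le_trans hy hyz.le
  have key := hf.slope_anti_adjacent hx hz0 hxy' hyz
  have e : (f y - f x) / (y - x) = -m := by rw [hm]; ring
  rw [e, div_le_iff₀ (by linarith)] at key
  have e2 : m * (z - y) = f y + 1 := by rw [hz]; field_simp; ring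
  have := h0 z hz0
  nlinarith

lemma ratio {f : ℝ → ℝ} (hf : ConcaveOn ℝ (Set.Ici 0) f) (h0 : ∀ x, 0 ≤ x → 0 ≤ f x)
    {x y : ℝ} (hx : 0 ≤ x) (hxy : x < y) : x * f y ≤ y * f x := by
  have hy : 0 < y := lt_of_le_of_lt hx hxy
  have h1 : x / y ≤ 1 := (div_le_one hy).mpr hxy.le
  have := hf.2 (show (0 : ℝ) ∈ Set.Ici 0 from Set.mem_Ici.mpr le_rfl) (show y ∈ Set.Ici 0 from hy.le)
    (sub_nonneg.mpr h1) (div_nonneg hx hy.le) (by ring)
  simp only [smul_eq_mul, mul_zero, zero_add, div_mul_cancel₀ _ hy.ne'] at this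
  have h2 : 0 ≤ (1 - x / y) * f 0 := mul_nonneg (sub_nonneg.mpr h1) (h0 0 le_rfl)
  have h3 : x / y * f y ≤ f x := by linarith
  have h4 := mul_le_mul_of_nonneg_left h3 hy.le
  have e : y * (x / y * f y) = x * f y := by field_simp
  linarith

lemma conc {f : ℝ → ℝ} (hf : ConcaveOn ℝ (Set.Ici 0) f) (h0 : ∀ x, 0 ≤ x → 0 ≤ f x) :
    ConcaveOn ℝ (Set.Ici 0) (fun t => f (√t) ^ 2) := by
  refine concaveOn_of_slope_anti_adjacent (convex_Ici 0) ?_
  intro X Y Z hX hZ hXY hYZ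
  have hX' : (0 : ℝ) ≤ X := hX
  obtain ⟨x, hx, rfl⟩ : ∃ x, 0 ≤ x ∧ X = x ^ 2 := ⟨√X, Real.sqrt_nonneg _, (Real.sq_sqrt hX').symm⟩
  obtain ⟨y, hy, rfl⟩ : ∃ y, 0 ≤ y ∧ Y = y ^ 2 :=
    ⟨√Y, Real.sqrt_nonneg _, (Real.sq_sqrt (by linarith)).symm⟩
  obtain ⟨z, hz, rfl⟩ : ∃ z, 0 ≤ z ∧ Z = z ^ 2 :=
    ⟨√Z, Real.sqrt_nonneg _, (Real.sq_sqrt hZ).symm⟩
  simp only [Real.sqrt_sq hx, Real.sqrt_sq hy, Real.sqrt_sq hz]
  have hxy : x < y := lt_of_pow_lt_pow_left₀ 2 hy hXY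
  have hyz : y < z := lt_of_pow_lt_pow_left₀ 2 hz hYZ
  have s1 := hf.slope_anti_adjacent hx hz hxy hyz
  have s2 : 0 ≤ (f z - f y) / (z - y) :=
    div_nonneg (sub_nonneg.mpr (mono hf h0 hy hz hyz.le)) (by linarith)
  have r1 := ratio hf h0 hx hxy
  have r2 := ratio hf h0 hy hyz
  have r3 := ratio hf h0 hx (hxy.trans hyz)
  have p1 : 0 < x + y := by linarith
  have p2 : 0 < y + z := by linarith
  have s3 : (f z + f y) / (y + z) ≤ (f y + f x) / (x + y) := by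
    rw [div_le_div_iff₀ p2 p1]; nlinarith
  have s4 : 0 ≤ (f y - f x) / (y - x) := s2.trans s1
  have s5 : 0 ≤ (f z + f y) / (y + z) :=
    div_nonneg (add_nonneg (h0 z hz) (h0 y hy)) p2.le
  have e1 : (f z ^ 2 - f y ^ 2) / (z ^ 2 - y ^ 2) =
      (f z - f y) / (z - y) * ((f z + f y) / (y + z)) := by
    rw [div_mul_div_comm]; congr 1 <;> ring
  have e2 : (f y ^ 2 - f x ^ 2) / (y ^ 2 - x ^ 2) =
      (f y - f x) / (y - x) * ((f y + f x) / (x + y)) := by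
    rw [div_mul_div_comm]; congr 1 <;> ring
  rw [e1, e2]
  exact mul_le_mul s1 s3 s5 s4

theorem main {A B : E →ₗ[ℂ] E} {u v w : OrthonormalBasis ι ℂ E} {a b z : ι → ℝ}
    (hA : SD A u a) (hB : SD B v b) (hZ : SD (A + B) w z) {f : ℝ → ℝ}
    (hf : ConcaveOn ℝ (Set.Ici 0) f) (h0 : ∀ x, 0 ≤ x → 0 ≤ f x) :
    ∑ k, f (z k) ^ 2 ≤
      C * (∑ i, f (a i) ^ 2 + ∑ j, f (b j) ^ 2 +
        2 * ∑ i, ∑ j, ‖⟪v j, u i⟫_ℂ‖ ^ 2 * (f (a i) * f (b j))) := by
  classical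
  set S : Finset ℝ := univ.image (fun k => z k ^ 2) ∪ univ.image (fun k => a k ^ 2) ∪
    univ.image (fun k => b k ^ 2) with hS
  have hS0 : ∀ t ∈ S, 0 ≤ t := by
    intro t ht
    simp only [hS, mem_union, mem_image] at ht
    rcases ht with (⟨k, _, rfl⟩ | ⟨k, _, rfl⟩) | ⟨k, _, rfl⟩ <;> positivity
  obtain ⟨ν, hν0, hν⟩ := rep S (fun t => f (√t) ^ 2) (∑ t ∈ S, t)
    ((conc hf h0).subset Set.Icc_subset_Ici_self (convex_Icc _ _))
    (fun x hx y hy hxy => pow_le_pow_left₀ (h0 _ (Real.sqrt_nonneg _))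
      (mono hf h0 (Real.sqrt_nonneg _) (Real.sqrt_nonneg _) (Real.sqrt_le_sqrt hxy)) 2)
    (fun t ht => ⟨hS0 t ht, single_le_sum (f := fun t => t) hS0 ht⟩)
  have hrep : ∀ s, 0 ≤ s → s ^ 2 ∈ S →
      f s ^ 2 = f 0 ^ 2 + ∑ τ ∈ S, ν τ * min s (√τ) ^ 2 := by
    intro s hs hsS
    have := hν _ hsS
    simp only [Real.sqrt_sq hs, Real.sqrt_zero] at this
    rw [this]
    congr 1
    refine sum_congr rfl fun τ hτ => ?_
    congr 1
    rcases le_total s (√τ) with h | h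
    · rw [min_eq_left h, min_eq_left]
      exact (Real.le_sqrt hs (hS0 τ hτ)).mp h
    · rw [min_eq_right h, Real.sq_sqrt (hS0 τ hτ), min_eq_right]
      exact (Real.sqrt_le_left hs).mp h
  have hz : ∀ k, f (z k) ^ 2 = f 0 ^ 2 + ∑ τ ∈ S, ν τ * min (z k) (√τ) ^ 2 :=
    fun k => hrep _ (hZ.1 k) (by simp [hS])
  have ha : ∀ k, f (a k) ^ 2 = f 0 ^ 2 + ∑ τ ∈ S, ν τ * min (a k) (√τ) ^ 2 :=
    fun k => hrep _ (hA.1 k) (by simp [hS])
  have hb : ∀ k, f (b k) ^ 2 = f 0 ^ 2 + ∑ τ ∈ S, ν τ * min (b k) (√τ) ^ 2 :=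
    fun k => hrep _ (hB.1 k) (by simp [hS])
  have hcs : ∀ i j, ∑ τ ∈ S, ν τ * (min (a i) (√τ) * min (b j) (√τ)) ≤ f (a i) * f (b j) := by
    intro i j
    have h1 := sum_mul_sq_le_sq_mul_sq S (fun τ => √(ν τ) * min (a i) (√τ))
      (fun τ => √(ν τ) * min (b j) (√τ))
    have e1 : ∑ τ ∈ S, (√(ν τ) * min (a i) (√τ)) * (√(ν τ) * min (b j) (√τ)) =
        ∑ τ ∈ S, ν τ * (min (a i) (√τ) * min (b j) (√τ)) :=
      sum_congr rfl fun τ _ => by
        rw [mul_mul_mul_comm, Real.mul_self_sqrt (hν0 τ)]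
    have e2 : ∀ s : ℝ, ∑ τ ∈ S, (√(ν τ) * min s (√τ)) ^ 2 = ∑ τ ∈ S, ν τ * min s (√τ) ^ 2 :=
      fun s => sum_congr rfl fun τ _ => by rw [mul_pow, Real.sq_sqrt (hν0 τ)]
    rw [e1, e2, e2] at h1
    refine le_trans (le_abs_self _) (abs_le_of_sq_le_sq ?_
      (mul_nonneg (h0 _ (hA.1 i)) (h0 _ (hB.1 j))))
    refine h1.trans ?_
    rw [mul_pow]
    refine mul_le_mul ?_ ?_ (sum_nonneg fun τ _ => mul_nonneg (hν0 τ) (sq_nonneg _))
      (sq_nonneg _)
    · rw [ha]; nlinarith [sq_nonneg (f 0)]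
    · rw [hb]; nlinarith [sq_nonneg (f 0)]
  have hT : ∑ τ ∈ S, ν τ * ∑ k, min (z k) (√τ) ^ 2 ≤
      ∑ τ ∈ S, ν τ * (C * (∑ i, min (a i) (√τ) ^ 2 + ∑ j, min (b j) (√τ) ^ 2 +
        2 * ∑ i, ∑ j, ‖⟪v j, u i⟫_ℂ‖ ^ 2 * (min (a i) (√τ) * min (b j) (√τ)))) :=
    sum_le_sum fun τ _ =>
      mul_le_mul_of_nonneg_left (trunc hA hB hZ (Real.sqrt_nonneg τ)) (hν0 τ)
  have sw : ∀ c : ι → ℝ, ∑ τ ∈ S, ν τ * ∑ k, min (c k) (√τ) ^ 2 =
      ∑ k, ∑ τ ∈ S, ν τ * min (c k) (√τ) ^ 2 := by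
    intro c; simp_rw [mul_sum]; exact sum_comm
  have sw2 : ∑ τ ∈ S, ν τ * ∑ i, ∑ j, ‖⟪v j, u i⟫_ℂ‖ ^ 2 * (min (a i) (√τ) * min (b j) (√τ)) ≤
      ∑ i, ∑ j, ‖⟪v j, u i⟫_ℂ‖ ^ 2 * (f (a i) * f (b j)) := by
    simp_rw [mul_sum]
    rw [sum_comm]
    refine sum_le_sum fun i _ => ?_
    rw [sum_comm]
    refine sum_le_sum fun j _ => ?_
    refine le_trans (le_of_eq ?_) (mul_le_mul_of_nonneg_left (hcs i j) (sq_nonneg _))
    rw [mul_sum]
    exact sum_congr rfl fun τ _ => by ring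
  have e3 : ∑ τ ∈ S, ν τ * (C * (∑ i, min (a i) (√τ) ^ 2 + ∑ j, min (b j) (√τ) ^ 2 +
        2 * ∑ i, ∑ j, ‖⟪v j, u i⟫_ℂ‖ ^ 2 * (min (a i) (√τ) * min (b j) (√τ)))) =
      C * (∑ τ ∈ S, ν τ * ∑ k, min (a k) (√τ) ^ 2 + ∑ τ ∈ S, ν τ * ∑ k, min (b k) (√τ) ^ 2 +
        2 * ∑ τ ∈ S, ν τ * ∑ i, ∑ j,
          ‖⟪v j, u i⟫_ℂ‖ ^ 2 * (min (a i) (√τ) * min (b j) (√τ))) := by
    rw [mul_sum S, ← sum_add_distrib, ← sum_add_distrib, mul_sum S]
    exact sum_congr rfl fun τ _ => by ring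
  rw [e3, sw z, sw a, sw b] at hT
  simp_rw [hz, ha, hb, sum_add_distrib, sum_const, card_univ, nsmul_eq_mul]
  have hC := C_one
  have h9 := mul_le_mul_of_nonneg_left sw2 (show 0 ≤ 2 * C by linarith)
  have h10 : 0 ≤ (2 * C - 1) * ((Fintype.card ι : ℝ) * f 0 ^ 2) :=
    mul_nonneg (by linarith) (by positivity)
  nlinarith

end Pool.Agent.Lib.helper22.LeeB
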