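import Mathlib

set_option autoImplicit false

namespace Pool.Agent.Lib.helper22.LieA

open Polynomial Matrix TensorProduct

theorem det_affine {ι α : Type} [Fintype ι] [DecidableEq ι] [CommRing α] (A : Matrix ι ι α)
    (u v : ι → α) (s : α) :
    (A - s • vecMulVec u v).det = A.det + s * ((A - vecMulVec u v).det - A.det) := by
  let B : Matrix (ι ⊕ Unit) (ι ⊕ Unit) α := fromBlocks A (replicateCol Unit u) 0 1
  have key : ∀ c : α, (A - c • vecMulVec u v).det =
      c * (B.updateRow (Sum.inr ()) (Sum.elim v 0)).det +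
        (B.updateRow (Sum.inr ()) (Sum.elim 0 1)).det := by
    intro c
    rw [← det_updateRow_smul, ← det_updateRow_add]
    have : B.updateRow (Sum.inr ()) (c • Sum.elim v 0 + Sum.elim (0 : ι → α) (1 : Unit → α)) =
        fromBlocks A (replicateCol Unit u) (replicateRow Unit (c • v)) 1 := by
      ext i j
      rcases i with i | i <;> rcases j with j | j <;> simp [B, updateRow_apply]
    rw [this, det_fromBlocks_one₂₂, ← vecMulVec_eq, vecMulVec_smul]
  have h0 := key 0
  have h1 := key 1
  simp only [zero_smul, sub_zero, zero_mul, zero_add, one_smul, one_mul] at h0 h1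
  rw [key s, h1, h0]
  ring

theorem rank_one {ι F : Type} [Fintype ι] [DecidableEq ι] [Nonempty ι] [Field F] [IsAlgClosed F]
    (D : Matrix ι ι F) (u v : ι → F)
    (h : ∀ μ : F, D.charpoly.IsRoot μ → ¬ (D + vecMulVec u v).charpoly.IsRoot μ) :
    Irreducible (D.map C + (X : F[X]) • (vecMulVec u v).map C).charpoly := by
  rw [← MulEquiv.irreducible_iff (Bivariate.swap (R := F))]
  have hroot : ∀ d : F[X], ¬ IsUnit d → d ∣ (D + vecMulVec u v).charpoly - D.charpoly →
      d ∣ D.charpoly → False := by
    intro d hd h1 h2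
    have hd0 : d ≠ 0 := ne_zero_of_dvd_ne_zero D.charpoly_monic.ne_zero h2
    obtain ⟨μ, hμ⟩ := IsAlgClosed.exists_root d (fun h0 => hd (isUnit_iff_degree_eq_zero.2 h0))
    refine h μ (hμ.dvd h2) (hμ.dvd ?_)
    simpa using dvd_add h1 h2
  have e : Bivariate.swap (D.map C + (X : F[X]) • (vecMulVec u v).map C).charpoly =
      C ((D + vecMulVec u v).charpoly - D.charpoly) * X + C D.charpoly := by
    have e1 : ∀ M : Matrix ι ι F, C M.charpoly = (M.charmatrix.map (C : F[X] →+* F[X][X])).det := by
      intro M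
      rw [Matrix.charpoly, RingHom.map_det]; rfl
    have e2 : (D + vecMulVec u v).charmatrix.map (C : F[X] →+* F[X][X]) =
        D.charmatrix.map C - vecMulVec (fun i => C (C (u i))) (fun i => C (C (v i))) := by
      ext1 i j
      by_cases hij : i = j
      · subst hij; simp [vecMulVec_apply]; ring
      · simp [hij, vecMulVec_apply]; ring
    rw [map_sub, e1, e1, e2, mul_comm, add_comm _ (det _), ← det_affine, Matrix.charpoly,
      AlgEquiv.map_det]
    congr 1
    ext1 i j
    by_cases hij : i = j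
    · subst hij
      simp [vecMulVec_apply, Bivariate.swap_X, Bivariate.swap_Y, Bivariate.swap_C_C]; ring
    · simp [hij, vecMulVec_apply, Bivariate.swap_X, Bivariate.swap_C_C]; ring
  rw [e]
  have hnu : ¬ IsUnit D.charpoly := by
    rw [isUnit_iff_degree_eq_zero, charpoly_degree_eq_dim]
    exact_mod_cast Fintype.card_ne_zero
  apply irreducible_C_mul_X_add_C
  · intro h0
    exact hroot _ hnu (h0 ▸ dvd_zero _) dvd_rfl
  · intro d h1 h2
    by_contra hd
    exact hroot d hd h1 h2

theorem invariant {K V : Type} [Field K] [AddCommGroup V] [Module K V] [FiniteDimensional K V]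
    (T : Module.End K V) (hT : Irreducible T.charpoly) (W : Submodule K V)
    (hW : ∀ x ∈ W, T x ∈ W) (h0 : W ≠ ⊥) : W = ⊤ := by
  by_contra htop
  have hlt : Module.finrank K W < Module.finrank K V := Submodule.finrank_lt htop
  have hr : ∀ (g : K[X]) (w : W), ((aeval (T.restrict hW) g w : W) : V) = aeval T g w := by
    intro g
    induction g using Polynomial.induction_on' with
    | add p q hp hq => intro w; simp [hp, hq]
    | monomial n a =>
      intro w
      simp only [aeval_monomial, Module.End.pow_restrict n hW]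
      simp
  have hc : IsCoprime T.charpoly (T.restrict hW).charpoly := by
    rw [hT.coprime_iff_not_dvd]
    intro hd
    have := natDegree_le_of_dvd hd (LinearMap.charpoly_monic _).ne_zero
    rw [LinearMap.charpoly_natDegree, LinearMap.charpoly_natDegree] at this
    omega
  obtain ⟨a, b, hab⟩ := hc
  apply h0
  rw [eq_bot_iff]
  intro w hw
  have h1 := hr (T.restrict hW).charpoly ⟨w, hw⟩
  rw [LinearMap.aeval_self_charpoly] at h1
  have h2 := congrArg (fun g => aeval T g w) hab
  simp only [map_add, map_mul, LinearMap.aeval_self_charpoly, map_one, LinearMap.add_apply,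
    Module.End.mul_apply, Module.End.one_apply] at h2
  rw [← h1] at h2
  simpa using h2.symm

section tensor

variable {K A F : Type} [Field K] [Field A] [Field F] [Algebra K A] [Algebra K F]

theorem leibniz (d : A →ₗ[K] A) (hd : ∀ x y, d (x * y) = x * d y + d x * y) (x y : F ⊗[K] A) :
    d.baseChange F (x * y) = x * d.baseChange F y + d.baseChange F x * y := by
  induction x using TensorProduct.induction_on with
  | zero => simp
  | add a b ha hb => simp only [add_mul, map_add, ha, hb]; ring
  | tmul a b =>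
    induction y using TensorProduct.induction_on with
    | zero => simp
    | add a b ha hb => simp only [mul_add, map_add, ha, hb]; ring
    | tmul a' b' => simp [hd, tmul_add]

theorem simple (d : A →ₗ[K] A) (hd : ∀ x y, d (x * y) = x * d y + d x * y)
    (hk : ∀ x, d x = 0 → ∃ k, algebraMap K A k = x) (J : Ideal (F ⊗[K] A))
    (hJ : ∀ x ∈ J, d.baseChange F x ∈ J) (h0 : J ≠ ⊥) : J = ⊤ := by
  classical
  let ω := Module.Basis.ofVectorSpace K F
  let Φ := (TensorProduct.equivFinsuppOfBasisLeft (N := A) ω).symm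
  have hΦ : ∀ ξ, Φ ξ = ξ.sum fun i a => ω i ⊗ₜ[K] a := fun ξ =>
    TensorProduct.equivFinsuppOfBasisLeft_symm_apply ω ξ
  have d1 : d 1 = 0 := by simpa using hd 1 1
  have key : ∀ n (ξ : _ →₀ A), ξ.support.card ≤ n → ξ ≠ 0 → Φ ξ ∈ J → J = ⊤ := by
    intro n
    induction n with
    | zero => intro ξ h1 h2; simp [h2] at h1
    | succ n ih =>
      intro ξ h1 h2 h3
      obtain ⟨i, hi⟩ := Finsupp.support_nonempty_iff.2 h2
      have hi' := Finsupp.mem_support_iff.1 hi
      let ξ' := (ξ i)⁻¹ • ξ
      have e1 : Φ ξ' = (1 ⊗ₜ[K] (ξ i)⁻¹) * Φ ξ := by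
        rw [hΦ, hΦ, Finsupp.sum_smul_index' (by simp), Finsupp.mul_sum]
        simp
      have m1 : Φ ξ' ∈ J := e1 ▸ J.mul_mem_left _ h3
      let ξ'' := ξ'.mapRange d (map_zero d)
      have e2 : Φ ξ'' = d.baseChange F (Φ ξ') := by
        rw [hΦ, hΦ, Finsupp.sum_mapRange_index (by simp), map_finsuppSum]
        simp
      by_cases hz : ξ'' = 0
      · have hc : ∀ j, ∃ k, algebraMap K A k = ξ' j := fun j => hk _ (by
          simpa [ξ''] using DFunLike.congr_fun hz j)
        choose k hk using hc
        have e3 : Φ ξ' = (∑ j ∈ ξ'.support, k j • ω j) ⊗ₜ[K] 1 := by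
          rw [hΦ, Finsupp.sum, sum_tmul]
          refine Finset.sum_congr rfl fun j _ => ?_
          rw [← hk, smul_tmul, Algebra.algebraMap_eq_smul_one]
        have hne : (∑ j ∈ ξ'.support, k j • ω j) ≠ 0 := by
          intro h
          rw [h, zero_tmul, map_eq_zero_iff _ Φ.injective] at e3
          have := DFunLike.congr_fun e3 i
          simp [ξ', hi'] at this
        rw [Ideal.eq_top_iff_one]
        have := J.mul_mem_left ((∑ j ∈ ξ'.support, k j • ω j)⁻¹ ⊗ₜ[K] 1) m1
        rwa [e3, Algebra.TensorProduct.tmul_mul_tmul, inv_mul_cancel₀ hne, one_mul] at this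
      · refine ih ξ'' ?_ hz (e2 ▸ hJ _ m1)
        have : ξ''.support ⊆ ξ.support.erase i := by
          intro j hj
          rw [Finsupp.mem_support_iff] at hj
          refine Finset.mem_erase.2 ⟨?_, Finsupp.mem_support_iff.2 ?_⟩
          · rintro rfl
            simp [ξ'', ξ', hi', d1] at hj
          · intro h
            simp [ξ'', ξ', h] at hj
        have := Finset.card_le_card this
        rw [Finset.card_erase_of_mem hi] at this
        omega
  obtain ⟨x, hx, hx0⟩ := Submodule.exists_mem_ne_zero_of_ne_bot h0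
  refine key _ (Φ.symm x) le_rfl (by simpa using hx0) (by simpa using hx)

theorem socle {ι : Type} [Fintype ι] [CharP F 2] (e : Module.Basis ι K A) (ℓ : A →ₐ[K] F)
    (he : ∀ i, ∃ k, algebraMap K A k = e i * e i) :
    ∃ (η : F ⊗[K] A) (L : F ⊗[K] A →ₐ[F] F), η ≠ 0 ∧ ∀ b, b * η = L b • η := by
  classical
  let L : F ⊗[K] A →ₐ[F] F := Algebra.TensorProduct.lift (AlgHom.id F F) ℓ fun _ _ => Commute.all _ _
  let n : ι → F ⊗[K] A := fun i => 1 ⊗ₜ[K] e i - ℓ (e i) ⊗ₜ[K] 1
  have hn : ∀ i, n i * n i = 0 := by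
    intro i
    obtain ⟨k, hk⟩ := he i
    have h2 : (2 : F ⊗[K] A) = 0 := by
      have : (2 : F ⊗[K] A) = algebraMap F _ 2 := (map_ofNat _ 2).symm
      rw [this, CharTwo.two_eq_zero, map_zero]
    have h3 : ((1 : F) ⊗ₜ[K] e i) * (1 ⊗ₜ[K] e i) = (ℓ (e i) ⊗ₜ[K] (1 : A)) * (ℓ (e i) ⊗ₜ[K] 1) := by
      rw [Algebra.TensorProduct.tmul_mul_tmul, Algebra.TensorProduct.tmul_mul_tmul, ← map_mul ℓ, ← hk,
        AlgHom.commutes, one_mul, one_mul, Algebra.algebraMap_eq_smul_one,
        Algebra.algebraMap_eq_smul_one, smul_tmul]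
    simp only [n]
    linear_combination h3 + ((ℓ (e i) ⊗ₜ[K] (1 : A)) * (ℓ (e i) ⊗ₜ[K] 1) -
      ((1 : F) ⊗ₜ[K] e i) * (ℓ (e i) ⊗ₜ[K] (1 : A))) * h2
  have key : ∀ s : Finset ι, ∃ η : F ⊗[K] A, η ≠ 0 ∧ ∀ i ∈ s, n i * η = 0 := by
    intro s
    induction s using Finset.induction_on with
    | empty => exact ⟨1, one_ne_zero, by simp⟩
    | insert j s _ ih =>
      obtain ⟨η, h0, h1⟩ := ih
      by_cases h : n j * η = 0
      · exact ⟨η, h0, by simpa [h] using h1⟩
      · refine ⟨n j * η, h, fun i hi => ?_⟩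
        rcases Finset.mem_insert.1 hi with rfl | hi
        · rw [← mul_assoc, hn, zero_mul]
        · rw [mul_left_comm, h1 i hi, mul_zero]
  obtain ⟨η, h0, h1⟩ := key Finset.univ
  refine ⟨η, L, h0, fun b => ?_⟩
  have : LinearMap.mulRight F η = L.toLinearMap.smulRight η := by
    refine (Algebra.TensorProduct.basis F e).ext fun i => ?_
    have := h1 i (Finset.mem_univ _)
    simp only [n, sub_mul, sub_eq_zero] at this
    simp only [Algebra.TensorProduct.basis_apply, LinearMap.mulRight_apply, this,
      LinearMap.smulRight_apply, AlgHom.toLinearMap_apply, L, Algebra.TensorProduct.lift_tmul]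
    simp [Algebra.smul_def]
  exact LinearMap.congr_fun this b

theorem generic {ι : Type} [Fintype ι] [DecidableEq ι] [CharP F 2] [IsAlgClosed F]
    (e : Module.Basis ι K A) (ℓ : A →ₐ[K] F) (he : ∀ i, ∃ k, algebraMap K A k = e i * e i)
    (d : A →ₗ[K] A) (hd : ∀ x y, d (x * y) = x * d y + d x * y)
    (hk : ∀ x, d x = 0 → ∃ k, algebraMap K A k = x) (f : A) (hf : f ≠ 0) :
    ∃ c : ι → F, Irreducible
      (((LinearMap.toMatrix e e (d ∘ₗ LinearMap.mulLeft K f)).map (algebraMap K F)).map C +
        (X : F[X]) • (∑ i, c i • (LinearMap.toMatrix e e (LinearMap.mulLeft K (e i * f))).map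
          (algebraMap K F)).map C).charpoly := by
  obtain ⟨η, L, h0, hη⟩ := socle e ℓ he
  have : Nonempty ι := e.index_nonempty
  let b := Algebra.TensorProduct.basis F e
  have : Module.Finite F (F ⊗[K] A) := Module.Finite.of_basis b
  refine ⟨b.repr η, ?_⟩
  let f' : F ⊗[K] A := 1 ⊗ₜ f
  let g' : F ⊗[K] A := 1 ⊗ₜ f⁻¹
  have hfg : f' * g' = 1 := by
    simp [f', g', hf, Algebra.TensorProduct.one_def]
  have hm : ∀ a : A, (LinearMap.mulLeft K a).baseChange F = LinearMap.mulLeft F (1 ⊗ₜ a) := by
    intro a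
    ext x
    simp
  let ρ : F ⊗[K] A →ₗ[F] F ⊗[K] A :=
    (L.toLinearMap ∘ₗ LinearMap.mulLeft F f').smulRight η
  let D : Module.End F (F ⊗[K] A) := d.baseChange F ∘ₗ LinearMap.mulLeft F f'
  have e1 : (∑ i, b.repr η i • (LinearMap.toMatrix e e (LinearMap.mulLeft K (e i * f))).map
      (algebraMap K F)) = LinearMap.toMatrix b b ρ := by
    simp only [← LinearMap.toMatrix_baseChange, hm]
    simp only [← map_smul, ← map_sum]
    congr 1
    refine LinearMap.ext fun x => ?_
    simp only [ρ, LinearMap.smulRight_apply, LinearMap.comp_apply, LinearMap.mulLeft_apply,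
      AlgHom.toLinearMap_apply, ← hη, LinearMap.sum_apply, LinearMap.smul_apply]
    conv_rhs => rw [← b.sum_repr η, Finset.mul_sum]
    refine Finset.sum_congr rfl fun i _ => ?_
    have : ((1 : F) ⊗ₜ[K] (e i * f)) = b i * f' := by simp [b, f']
    rw [this, mul_smul_comm]
    congr 1
    ring
  have e2 : (LinearMap.toMatrix e e (d ∘ₗ LinearMap.mulLeft K f)).map (algebraMap K F) =
      LinearMap.toMatrix b b D := by
    rw [← LinearMap.toMatrix_baseChange, LinearMap.baseChange_comp, hm]
  have e3 := LinearMap.toMatrix_smulRight b b (L.toLinearMap ∘ₗ LinearMap.mulLeft F f') η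
  rw [e1, e2, e3]
  apply rank_one
  intro μ h1 h2
  rw [← e3, ← map_add, LinearMap.charpoly_toMatrix, ← Module.End.hasEigenvalue_iff_isRoot_charpoly]
    at h2
  rw [LinearMap.charpoly_toMatrix, ← Module.End.hasEigenvalue_iff_isRoot_charpoly] at h1
  obtain ⟨x, hx⟩ := h2.exists_hasEigenvector
  have hx1 : d.baseChange F (f' * x) + L (f' * x) • η = μ • x := hx.apply_eq_smul
  have lb := leibniz (F := F) d hd
  by_cases hL : L (f' * x) = 0
  · have := simple d hd hk (Ideal.span {f' * x}) (by
      intro y hy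
      obtain ⟨a, rfl⟩ := Ideal.mem_span_singleton'.1 hy
      rw [hL, zero_smul, add_zero] at hx1
      rw [lb, hx1]
      refine Ideal.mem_span_singleton'.2 ⟨a * (μ • g') + d.baseChange F a, ?_⟩
      rw [add_mul, mul_assoc a, smul_mul_assoc, ← mul_assoc g', mul_comm g', hfg, one_mul]) (by
      rw [Ne, Ideal.span_singleton_eq_bot]
      intro h
      apply hx.2
      rw [← one_mul x, ← hfg, mul_right_comm, h, zero_mul])
    rw [Ideal.eq_top_iff_one] at this
    obtain ⟨a, ha⟩ := Ideal.mem_span_singleton'.1 this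
    have := congrArg L ha
    rw [map_mul, hL, mul_zero, map_one] at this
    exact zero_ne_one this
  · let I := LinearMap.range (D - μ • (1 : Module.End F (F ⊗[K] A)))
    have hI : η ∈ I := by
      refine ⟨-(L (f' * x))⁻¹ • x, ?_⟩
      rw [map_smul]
      have : (D - μ • (1 : Module.End F (F ⊗[K] A))) x = -L (f' * x) • η := by
        simp only [D, LinearMap.sub_apply, LinearMap.comp_apply, LinearMap.mulLeft_apply,
          LinearMap.smul_apply, Module.End.one_apply, ← hx1]
        simp
      rw [this, smul_smul, neg_mul_neg, inv_mul_cancel₀ hL, one_smul]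
    let J : Ideal (F ⊗[K] A) :=
      { carrier := {y | ∀ a, a * y ∈ I}
        add_mem' := fun {y z} hy hz a => by rw [mul_add]; exact I.add_mem (hy a) (hz a)
        zero_mem' := fun a => by simp
        smul_mem' := fun c y hy a => by rw [smul_eq_mul, ← mul_assoc]; exact hy _ }
    have hJ := simple d hd hk J (by
      intro y hy a
      have h3 : a * d.baseChange F y = (D - μ • (1 : Module.End F (F ⊗[K] A))) (g' * (a * y)) +
          μ • ((g' * a) * y) - d.baseChange F a * y := by
        simp only [D, LinearMap.sub_apply, LinearMap.comp_apply, LinearMap.mulLeft_apply,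
          LinearMap.smul_apply, Module.End.one_apply]
        rw [← mul_assoc f', hfg, one_mul, lb, mul_assoc g']
        ring
      rw [h3]
      exact I.sub_mem (I.add_mem ⟨_, rfl⟩ (I.smul_mem _ (hy _))) (hy _)) (by
      intro h
      have : η ∈ J := fun a => by rw [hη]; exact I.smul_mem _ hI
      rw [h] at this
      exact h0 this)
    have hs : Function.Surjective (D - μ • (1 : Module.End F (F ⊗[K] A))) := by
      intro a
      have : (1 : F ⊗[K] A) ∈ J := by rw [hJ]; trivial
      have h4 := this a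
      rwa [mul_one] at h4
    rw [Module.End.hasEigenvalue_iff, Module.End.eigenspace_def] at h1
    exact h1 (LinearMap.ker_eq_bot.2 (LinearMap.injective_iff_surjective.2 hs))

end tensor

end Pool.Agent.Lib.helper22.LieA
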