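import Mathlib
import Pool.Agent.Lib.helper22.LieA

set_option autoImplicit false

namespace Pool.Agent.Lib.helper22.LieB

open Finset

abbrev σ := ℕ ⊕ (ℕ × Finset ℕ)
abbrev R := MvPolynomial σ (ZMod 2)
abbrev K := FractionRing R
abbrev Ω := AlgebraicClosure K

noncomputable def t (i : ℕ) : R := MvPolynomial.X (Sum.inl i)
noncomputable def s (n : ℕ) (I : Finset ℕ) : R := MvPolynomial.X (Sum.inr (n, I))
noncomputable def y (i : ℕ) : Ω := (IsAlgClosed.exists_eq_mul_self (algebraMap R Ω (t i))).choose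
theorem y_sq (i : ℕ) : algebraMap R Ω (t i) = y i * y i :=
  (IsAlgClosed.exists_eq_mul_self (algebraMap R Ω (t i))).choose_spec
noncomputable def Y (I : Finset ℕ) : Ω := ∏ i ∈ I, y i

theorem two : (2 : Ω) = 0 := CharTwo.two_eq_zero

theorem inj : Function.Injective (algebraMap R Ω) := by
  rw [IsScalarTower.algebraMap_eq R K Ω]
  exact (algebraMap K Ω).injective.comp (IsFractionRing.injective R K)

theorem YY (I J : Finset ℕ) :
    Y I * Y J = algebraMap R Ω (∏ i ∈ I ∩ J, t i) * Y (I \ J ∪ J \ I) := by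
  rw [Y, Y, Y, prod_union disjoint_sdiff_sdiff, ← prod_inter_mul_prod_sdiff I J,
    ← prod_inter_mul_prod_sdiff J I, inter_comm J I, map_prod]
  simp only [y_sq, prod_mul_distrib]
  ring

theorem pind (u : Finset ℕ) (c : Finset ℕ → R)
    (h : ∑ I ∈ u.powerset, c I ^ 2 * ∏ i ∈ I, t i = 0) : ∀ I ∈ u.powerset, c I = 0 := by
  induction u using Finset.induction_on generalizing c with
  | empty => simpa using h
  | insert n u hn ih =>
    have hd : ∀ c : Finset ℕ → R, MvPolynomial.pderiv (Sum.inl n : σ)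
        (∑ I ∈ u.powerset, c I ^ 2 * ∏ i ∈ I, t i) = 0 := by
      intro c
      rw [map_sum]
      refine sum_eq_zero fun I hI => ?_
      have h1 : MvPolynomial.pderiv (Sum.inl n : σ) (∏ i ∈ I, t i) = 0 := by
        have hI' : n ∉ I := fun h => hn (mem_powerset.1 hI h)
        clear hI
        induction I using Finset.induction_on with
        | empty => simp
        | insert j I hj ih =>
          rw [prod_insert hj, Derivation.leibniz, ih fun h => hI' (mem_insert_of_mem h), t,
            MvPolynomial.pderiv_X_of_ne]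
          · simp
          · intro h
            exact hI' (by simp [Sum.inl.inj h])
      rw [Derivation.leibniz, h1, Derivation.leibniz_pow]
      simp [CharTwo.two_eq_zero]
    rw [sum_powerset_insert hn] at h
    have e : ∑ I ∈ u.powerset, c (insert n I) ^ 2 * ∏ i ∈ insert n I, t i =
        t n * ∑ I ∈ u.powerset, c (insert n I) ^ 2 * ∏ i ∈ I, t i := by
      rw [mul_sum]
      refine sum_congr rfl fun I hI => ?_
      rw [prod_insert fun h => hn (mem_powerset.1 hI h)]
      ring
    rw [e] at h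
    have h2 := congrArg (MvPolynomial.pderiv (Sum.inl n : σ)) h
    rw [map_add, hd, Derivation.leibniz, hd (fun I => c (insert n I)), t,
      MvPolynomial.pderiv_X_self] at h2
    simp only [mul_zero, smul_eq_mul, mul_one, zero_add, map_zero] at h2
    rw [h2, mul_zero, add_zero] at h
    intro I hI
    rw [powerset_insert, mem_union, mem_image] at hI
    rcases hI with hI | ⟨J, hJ, rfl⟩
    · exact ih c h I hI
    · exact ih _ h2 J hJ

theorem Y_li : LinearIndependent K Y := by
  rw [← LinearIndependent.iff_fractionRing R K, linearIndependent_iff']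
  intro S g hg I hI
  have hsub : S ⊆ (S.biUnion id).powerset := fun J hJ =>
    mem_powerset.2 (subset_biUnion_of_mem id hJ)
  have := pind (S.biUnion id) (fun J => if J ∈ S then g J else 0) (by
    rw [← sum_subset hsub (fun J _ hJ => by simp [hJ])]
    apply inj
    have h2 := congrArg (· ^ 2) hg
    simp only [CharTwo.sum_sq] at h2
    rw [zero_pow two_ne_zero] at h2
    rw [map_sum, map_zero, ← h2]
    refine sum_congr rfl fun J hJ => ?_
    rw [if_pos hJ, Algebra.smul_def, mul_pow, sq (Y J), YY]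
    simp [Y]) I (hsub hI)
  simpa [hI] using this

noncomputable def a (n : ℕ) : Ω := ∑ I ∈ (range n).powerset, algebraMap R Ω (s n I) * Y I

theorem exists_D : ∃ D : Ω →ₗ[K] Ω, ∀ I, D (Y I) = Y I * ∑ i ∈ I, a i := by
  obtain ⟨D, hD⟩ := LinearMap.exists_extend
    ((Module.Basis.span Y_li).constr K fun I => Y I * ∑ i ∈ I, a i)
  refine ⟨D, fun I => ?_⟩
  have := LinearMap.congr_fun hD (Module.Basis.span Y_li I)
  rwa [Module.Basis.constr_basis, LinearMap.comp_apply, Submodule.subtype_apply,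
    Module.Basis.span_apply] at this

noncomputable def D : Ω →ₗ[K] Ω := exists_D.choose
theorem D_Y (I : Finset ℕ) : D (Y I) = Y I * ∑ i ∈ I, a i := exists_D.choose_spec I

section O
variable (S : Type) [CommRing S] [Algebra S Ω]

noncomputable def O (n : ℕ) : Submodule S Ω :=
  Submodule.span S (Set.range fun I : (range n).powerset => Y I)

theorem Y_mem {n : ℕ} {I : Finset ℕ} (h : I ⊆ range n) : Y I ∈ O S n :=
  Submodule.subset_span ⟨⟨I, mem_powerset.2 h⟩, rfl⟩

theorem O_mono {m n : ℕ} (h : m ≤ n) : O S m ≤ O S n := by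
  refine Submodule.span_le.2 ?_
  rintro _ ⟨I, rfl⟩
  exact Y_mem S ((mem_powerset.1 I.2).trans (range_mono h))

theorem O_one (n : ℕ) : (1 : Ω) ∈ O S n := by
  simpa [Y] using Y_mem S (empty_subset (range n))

variable {S}

theorem O_mul (ht : ∀ i, ∃ τ : S, algebraMap S Ω τ = algebraMap R Ω (t i)) {n : ℕ} {x z : Ω}
    (hx : x ∈ O S n) (hz : z ∈ O S n) : x * z ∈ O S n := by
  refine Submodule.span_induction₂ (p := fun x z _ _ => x * z ∈ O S n) ?_ ?_ ?_ ?_ ?_ ?_ ?_ hx hz
  · rintro _ _ ⟨I, rfl⟩ ⟨J, rfl⟩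
    choose τ hτ using ht
    rw [YY, map_prod]
    simp only [← hτ]
    rw [← map_prod, ← Algebra.smul_def]
    exact Submodule.smul_mem _ _ (Y_mem S (union_subset
      (sdiff_subset.trans (mem_powerset.1 I.2)) (sdiff_subset.trans (mem_powerset.1 J.2))))
  · simp
  · simp
  · intro x y z _ _ _ h1 h2
    rw [add_mul]; exact add_mem h1 h2
  · intro x y z _ _ _ h1 h2
    rw [mul_add]; exact add_mem h1 h2
  · intro r x y _ _ h
    rw [smul_mul_assoc]; exact Submodule.smul_mem _ _ h
  · intro r x y _ _ h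
    rw [mul_smul_comm]; exact Submodule.smul_mem _ _ h

theorem a_mem {n : ℕ} (hs : ∀ I, ∃ τ : S, algebraMap S Ω τ = algebraMap R Ω (s n I)) :
    a n ∈ O S n := by
  refine Submodule.sum_mem _ fun I hI => ?_
  obtain ⟨τ, hτ⟩ := hs I
  rw [← hτ, ← Algebra.smul_def]
  exact Submodule.smul_mem _ _ (Y_mem S (mem_powerset.1 hI))

theorem O_D (hS : ∀ r : S, ∃ k : K, algebraMap K Ω k = algebraMap S Ω r)
    (ht : ∀ i, ∃ τ : S, algebraMap S Ω τ = algebraMap R Ω (t i)) {n : ℕ}
    (hs : ∀ j < n, ∀ I, ∃ τ : S, algebraMap S Ω τ = algebraMap R Ω (s j I)) {x : Ω}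
    (hx : x ∈ O S n) : D x ∈ O S n := by
  induction hx using Submodule.span_induction with
  | mem x h =>
    obtain ⟨I, rfl⟩ := h
    rw [D_Y]
    refine O_mul ht (Y_mem S (mem_powerset.1 I.2)) (Submodule.sum_mem _ fun i hi => ?_)
    have := mem_range.1 (mem_powerset.1 I.2 hi)
    exact O_mono S this.le (a_mem (hs i this))
  | zero => simp
  | add x z _ _ h1 h2 => rw [map_add]; exact add_mem h1 h2
  | smul r x _ h =>
    obtain ⟨k, hk⟩ := hS r
    rw [Algebra.smul_def, ← hk, ← Algebra.smul_def, map_smul, Algebra.smul_def, hk,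
      ← Algebra.smul_def]
    exact Submodule.smul_mem _ _ h

end O

theorem hK (r : R) : ∃ τ : K, algebraMap K Ω τ = algebraMap R Ω r :=
  ⟨algebraMap R K r, (IsScalarTower.algebraMap_apply R K Ω r).symm⟩

theorem leib {n : ℕ} {x z : Ω} (hx : x ∈ O K n) (hz : z ∈ O K n) :
    D (x * z) = x * D z + D x * z := by
  refine Submodule.span_induction₂ (p := fun x z _ _ => D (x * z) = x * D z + D x * z)
    ?_ ?_ ?_ ?_ ?_ ?_ ?_ hx hz
  · rintro _ _ ⟨⟨I, _⟩, rfl⟩ ⟨⟨J, _⟩, rfl⟩
    have h := YY I J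
    obtain ⟨τ, hτ⟩ := hK (∏ i ∈ I ∩ J, t i)
    rw [← hτ, ← Algebra.smul_def] at h
    simp only
    rw [h, map_smul, D_Y, D_Y, D_Y, ← smul_mul_assoc, ← h, sum_union disjoint_sdiff_sdiff,
      ← sum_inter_add_sum_sdiff I J, ← sum_inter_add_sum_sdiff J I, inter_comm J I]
    linear_combination (-(Y I * Y J * ∑ i ∈ I ∩ J, a i)) * two
  · simp
  · simp
  · intro x y z _ _ _ h1 h2
    rw [add_mul, map_add, map_add, h1, h2]; ring
  · intro x y z _ _ _ h1 h2
    rw [mul_add, map_add, map_add, h1, h2]; ring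
  · intro r x y _ _ h
    rw [smul_mul_assoc, map_smul, map_smul, h, smul_add, smul_mul_assoc, smul_mul_assoc]
  · intro r x y _ _ h
    rw [mul_smul_comm, map_smul, map_smul, h, smul_add, mul_smul_comm, mul_smul_comm]

noncomputable def A (n : ℕ) : IntermediateField K Ω :=
  ((O K n).toSubalgebra (O_one K n) fun _ _ => O_mul fun _ => hK _).toIntermediateField
    fun x hx => Subalgebra.inv_mem_of_algebraic _ (x := ⟨x, hx⟩) (Algebra.IsAlgebraic.isAlgebraic x)

theorem mem_A {n : ℕ} {x : Ω} : x ∈ A n ↔ x ∈ O K n := Iff.rfl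

noncomputable def e (n : ℕ) : Module.Basis (range n).powerset K (A n) :=
  Module.Basis.mk (v := fun I => ⟨Y I, Y_mem K (mem_powerset.1 I.2)⟩)
    (LinearIndependent.of_comp (A n).val.toLinearMap (Y_li.comp _ Subtype.val_injective)) (by
      rintro ⟨x, hx⟩ -
      obtain ⟨c, rfl⟩ := (Submodule.mem_span_range_iff_exists_fun K).1 hx
      refine (Submodule.mem_span_range_iff_exists_fun K).2 ⟨c, Subtype.ext ?_⟩
      simp)

theorem e_apply (n : ℕ) (I : (range n).powerset) : (e n I : Ω) = Y I := by simp [e]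

instance (n : ℕ) : FiniteDimensional K (A n) := Module.Finite.of_basis (e n)

noncomputable def d (n : ℕ) : A n →ₗ[K] A n where
  toFun x := ⟨D x, O_D (fun r => ⟨r, rfl⟩) (fun _ => hK _) (fun _ _ _ => hK _) x.2⟩
  map_add' x z := Subtype.ext (by simp)
  map_smul' c x := Subtype.ext (by simp)

theorem d_apply (n : ℕ) (x : A n) : (d n x : Ω) = D x := rfl

noncomputable abbrev S (n : ℕ) : Subalgebra (ZMod 2) R :=
  MvPolynomial.supported (ZMod 2) {v : σ | ∀ I, v ≠ Sum.inr (n, I)}

theorem S_t (n i : ℕ) : ∃ τ : S n, algebraMap (S n) Ω τ = algebraMap R Ω (t i) :=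
  ⟨⟨t i, MvPolynomial.X_mem_supported.2 (by simp)⟩, rfl⟩

theorem S_s (n j : ℕ) (h : j < n) (I : Finset ℕ) :
    ∃ τ : S n, algebraMap (S n) Ω τ = algebraMap R Ω (s j I) :=
  ⟨⟨s j I, MvPolynomial.X_mem_supported.2 (by simp; omega)⟩, rfl⟩

theorem lift (n : ℕ) (φ : A n →ₗ[K] A n) (h : ∀ I, (φ (e n I) : Ω) ∈ O (S n) n) :
    ∃ M : Matrix (range n).powerset (range n).powerset R, (∀ I J, M I J ∈ S n) ∧
      M.map (algebraMap R K) = LinearMap.toMatrix (e n) (e n) φ := by
  choose c hc using fun J => (Submodule.mem_span_range_iff_exists_fun (S n)).1 (h J)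
  refine ⟨fun I J => c J I, fun I J => (c J I).2, ?_⟩
  ext1 I J
  have : φ (e n J) = ∑ I, algebraMap R K (c J I) • e n I := by
    apply Subtype.ext
    rw [← hc]
    simp [e_apply, Subalgebra.smul_def]
  rw [LinearMap.toMatrix_apply, this, Module.Basis.repr_sum_self]
  rfl

noncomputable def a' (n : ℕ) : A n := ⟨a n, a_mem fun _ => hK _⟩

noncomputable def T (n : ℕ) (f : A n) : Module.End K (A n) :=
  d n ∘ₗ LinearMap.mulLeft K f + LinearMap.mulLeft K (a' n * f)

theorem irr (n : ℕ) (hk : ∀ x ∈ A n, D x = 0 → ∃ k, algebraMap K Ω k = x) (f : A n)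
    (hf : (f : Ω) ∈ O (S n) n) (h0 : f ≠ 0) : Irreducible (T n f).charpoly := by
  obtain ⟨c, hc⟩ := LieA.generic (F := Ω) (e n) (A n).val (fun I => by
    obtain ⟨τ, hτ⟩ := hK (∏ i ∈ (I : Finset ℕ), t i)
    refine ⟨τ, Subtype.ext ?_⟩
    rw [IntermediateField.coe_mul, e_apply, YY, inter_self, ← hτ]
    simp [Y]) (d n) (fun x z => Subtype.ext (leib x.2 z.2))
    (fun x hx => by
      obtain ⟨k, hk⟩ := hk x x.2 (congrArg Subtype.val hx)
      exact ⟨k, Subtype.ext hk⟩) f h0
  have hY : ∀ I, (e n I : Ω) ∈ O (S n) n := fun I =>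
    e_apply n I ▸ Y_mem _ (mem_powerset.1 I.2)
  obtain ⟨M0, hM0, eM0⟩ := lift n (d n ∘ₗ LinearMap.mulLeft K f) fun I =>
    O_D (S := S n) (fun r => hK r) (S_t n) (S_s n) (O_mul (S_t n) hf (hY I))
  choose M hM eM using fun J => lift n (LinearMap.mulLeft K (e n J * f)) fun I =>
    O_mul (S_t n) (O_mul (S_t n) (hY J) hf) (hY I)
  let ι : R →+* Polynomial Ω := Polynomial.C.comp (algebraMap R Ω)
  let g : σ → Polynomial Ω := fun v => match v with
    | Sum.inl i => ι (t i)
    | Sum.inr (j, I) => if h : j = n ∧ I ∈ (range n).powerset then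
        Polynomial.C (c ⟨I, h.2⟩) * Polynomial.X else ι (s j I)
  let φ : R →+* Polynomial Ω := MvPolynomial.eval₂Hom (ι.comp MvPolynomial.C) g
  have hφ : ∀ r ∈ S n, φ r = ι r := by
    intro r hr
    refine MvPolynomial.hom_congr_vars (RingHom.ext_zmod _ _) (fun v hv _ => ?_) rfl
    have := MvPolynomial.mem_supported.1 hr hv
    rcases v with i | ⟨j, I⟩
    · simp [φ, g, t]
    · have hj : j ≠ n := by
        rintro rfl
        exact this I rfl
      simp [φ, g, s, hj]
  have hs : ∀ I : (range n).powerset, φ (s n I) = Polynomial.C (c I) * Polynomial.X := by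
    intro I
    simp only [φ, g, s, MvPolynomial.eval₂Hom_X']
    rw [dif_pos ⟨trivial, I.2⟩]
  let N := M0 + ∑ I : (range n).powerset, s n I • M I
  have e1 : N.map (algebraMap R K) = LinearMap.toMatrix (e n) (e n) (T n f) := by
    have : LinearMap.mulLeft K (a' n * f) = ∑ I : (range n).powerset,
        algebraMap R K (s n I) • LinearMap.mulLeft K (e n I * f) := by
      refine LinearMap.ext fun x => Subtype.ext ?_
      simp only [LinearMap.mulLeft_apply, LinearMap.sum_apply, LinearMap.smul_apply,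
        IntermediateField.coe_sum, IntermediateField.coe_smul, IntermediateField.coe_mul, e_apply,
        a', a, algebraMap_smul]
      rw [← sum_coe_sort, sum_mul, sum_mul]
      simp only [Algebra.smul_def, mul_assoc]
    rw [T, map_add, this, map_sum, ← eM0]
    simp only [map_smul, ← eM]
    ext1 I J
    simp only [N, Matrix.map_apply, Matrix.add_apply, Matrix.sum_apply, Matrix.smul_apply,
      smul_eq_mul, map_add, map_sum, map_mul]
  rw [← eM0] at hc
  simp only [← eM] at hc
  have e2 : N.map φ = ((M0.map (algebraMap R K)).map (algebraMap K Ω)).map Polynomial.C +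
      (Polynomial.X : Polynomial Ω) • (∑ I, c I • ((M I).map (algebraMap R K)).map
        (algebraMap K Ω)).map Polynomial.C := by
    ext1 I J
    have hι : ∀ r, ι r = Polynomial.C (algebraMap K Ω (algebraMap R K r)) := fun r => by
      rw [← IsScalarTower.algebraMap_apply]; rfl
    simp only [N, Matrix.map_apply, Matrix.add_apply, Matrix.sum_apply, Matrix.smul_apply,
      smul_eq_mul, map_add, map_sum, map_mul, hs, hφ _ (hM0 _ _), hφ _ (hM _ _ _), mul_sum, hι]
    refine congrArg _ (sum_congr rfl fun _ _ => ?_)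
    rw [mul_assoc, mul_left_comm]
  rw [← e2, Matrix.charpoly_map] at hc
  have := Polynomial.Monic.irreducible_of_irreducible_map φ _ N.charpoly_monic hc
  rwa [N.charpoly_monic.irreducible_iff_irreducible_map_fraction_map (K := K),
    ← Matrix.charpoly_map, e1, LinearMap.charpoly_toMatrix] at this

end Pool.Agent.Lib.helper22.LieB
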