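import Mathlib
import Pool.Agent.Lib.helper22.LieB

set_option autoImplicit false

namespace Pool.Agent.Lib.helper22.LieC

open Finset LieB

theorem A_mono {m n : ℕ} (h : m ≤ n) {x : Ω} (hx : x ∈ A m) : x ∈ A n := O_mono K h hx

theorem y_mem (n : ℕ) : y n ∈ A (n + 1) := by
  have : Y {n} ∈ O K (n + 1) := Y_mem K (by simp)
  rw [mem_A]
  simpa [Y] using this

theorem y_not (n : ℕ) : y n ∉ A n := by
  intro h
  have h1 := Y_li.notMem_span_image (s := {I | I ⊆ range n}) (x := {n}) (by simp)
  apply h1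
  have h2 : Y {n} ∈ O K n := by simpa [Y] using mem_A.1 h
  refine Submodule.span_mono ?_ h2
  rintro _ ⟨I, rfl⟩
  exact ⟨I, mem_powerset.1 I.2, rfl⟩

theorem y_ne (n : ℕ) : y n ≠ 0 := fun h => y_not n (h ▸ (A n).zero_mem)

theorem split {n : ℕ} {x : Ω} (hx : x ∈ A (n + 1)) : ∃ b c : A n, x = b + c * y n := by
  rw [mem_A] at hx
  induction hx using Submodule.span_induction with
  | mem x h =>
    obtain ⟨⟨I, hI⟩, rfl⟩ := h
    have h1 : I.erase n ⊆ range n := by
      intro i hi
      have := mem_range.1 (mem_powerset.1 hI (mem_of_mem_erase hi))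
      have := ne_of_mem_erase hi
      exact mem_range.2 (by omega)
    by_cases h : n ∈ I
    · exact ⟨0, ⟨_, Y_mem K h1⟩, by simp [Y, prod_erase_mul _ _ h]⟩
    · exact ⟨⟨_, Y_mem K h1⟩, 0, by simp [erase_eq_of_notMem h]⟩
  | zero => exact ⟨0, 0, by simp⟩
  | add x z _ _ h1 h2 =>
    obtain ⟨b, c, rfl⟩ := h1
    obtain ⟨b', c', rfl⟩ := h2
    exact ⟨b + b', c + c', by push_cast; ring⟩
  | smul r x _ h =>
    obtain ⟨b, c, rfl⟩ := h
    exact ⟨r • b, r • c, by simp⟩

theorem uniq {n : ℕ} {b c : A n} (h : (b : Ω) + c * y n = 0) : c = 0 := by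
  by_contra hc
  apply y_not n
  have hc' : (c : Ω) ≠ 0 := fun h => hc (Subtype.ext h)
  have : y n = (-b / c : A n) := by
    push_cast
    field_simp
    linear_combination h
  exact this ▸ Subtype.prop _

theorem D_y (n : ℕ) : D (y n) = y n * a n := by simpa [Y] using D_Y {n}

theorem T_apply (n : ℕ) (f b : A n) : D (f * (b * y n)) = T n f b * y n := by
  rw [← mul_assoc, leib (n := n + 1) (A_mono n.le_succ ((A n).mul_mem f.2 b.2)) (y_mem n), D_y]
  simp only [T, LinearMap.add_apply, LinearMap.comp_apply, LinearMap.mulLeft_apply,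
    IntermediateField.coe_add, IntermediateField.coe_mul, d_apply, a']
  ring

theorem a_ne (n : ℕ) : a n ≠ 0 := by
  intro h
  have := linearIndependent_iff'.1 Y_li (range n).powerset (fun I => algebraMap R K (s n I)) (by
    simp only [algebraMap_smul]
    simpa only [a, Algebra.smul_def] using h) ∅ (by simp)
  rw [map_eq_zero_iff _ (IsFractionRing.injective R K)] at this
  exact MvPolynomial.X_ne_zero _ this

theorem const (n : ℕ) : ∀ x ∈ A n, D x = 0 → ∃ k, algebraMap K Ω k = x := by
  induction n with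
  | zero =>
    intro x hx _
    obtain ⟨c, rfl⟩ := (Submodule.mem_span_range_iff_exists_fun K).1 hx
    refine ⟨∑ I, c I, ?_⟩
    rw [map_sum]
    refine sum_congr rfl fun I _ => ?_
    obtain ⟨I, hI⟩ := I
    have : I = ∅ := by simpa using hI
    subst this
    simp [Y, Algebra.smul_def]
  | succ n ih =>
    intro x hx h
    obtain ⟨b, c, rfl⟩ := split hx
    have h1 := T_apply n 1 c
    rw [IntermediateField.coe_one, one_mul] at h1
    rw [map_add, h1, ← d_apply] at h
    have h2 := uniq h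
    have h3 : LinearMap.ker (T n 1) = ⊥ := by
      by_contra h3
      have := LieA.invariant _ (irr n ih 1 (O_one _ n) one_ne_zero) _ (fun x hx => by
        rw [LinearMap.mem_ker] at hx ⊢
        rw [hx, map_zero]) h3
      have h4 : T n 1 1 = 0 := by
        rw [← LinearMap.mem_ker, this]; trivial
      have h5 := T_apply n 1 1
      rw [h4] at h5
      simp [D_y, y_ne, a_ne] at h5
    have h4 : c = 0 := by
      rw [← Submodule.mem_bot K, ← h3]; exact h2
    rw [h2] at h
    rw [h4]
    simpa using ih b b.2 (by simpa [d_apply] using h)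

theorem step (n : ℕ) (U : Submodule K Ω) (hU : ∀ x ∈ U, ∀ z ∈ U, D (x * z) ∈ U) (f : A n)
    (hf : (f : Ω) ∈ O (S n) n) (h0 : f ≠ 0) (hfU : (f : Ω) ∈ U) (w : Ω) (hw : w ∈ U)
    (hw1 : w ∈ A (n + 1)) (hw2 : w ∉ A n) (b : A n) : D b ∈ U := by
  have hT := irr n (const n) f hf h0
  let π : (A n × A n) →ₗ[K] Ω := (A n).val.toLinearMap.coprod
    (LinearMap.mulRight K (y n) ∘ₗ (A n).val.toLinearMap)
  have hπ : ∀ p, π p = p.1 + p.2 * y n := fun p => rfl
  let U' := U.comap π
  have h1 : U'.map (LinearMap.snd K _ _) = ⊤ := by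
    apply LieA.invariant _ hT
    · rintro _ ⟨p, hp, rfl⟩
      refine ⟨(d n (f * p.1), T n f p.2), ?_, rfl⟩
      have := hU _ hfU _ hp
      rw [hπ, mul_add, map_add, T_apply] at this
      exact this
    · obtain ⟨b, c, rfl⟩ := split hw1
      intro h
      have : c ∈ U'.map (LinearMap.snd K _ _) := ⟨(b, c), hw, rfl⟩
      rw [h, Submodule.mem_bot] at this
      simp [this] at hw2
  let W := U'.comap (LinearMap.inr K (A n) (A n))
  have hW : ∀ c, c ∈ W ↔ (c : Ω) * y n ∈ U := fun c => by simp [W, U', hπ]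
  have h2 : W = ⊤ := by
    apply LieA.invariant _ hT
    · intro c hc
      rw [hW] at hc ⊢
      rw [← T_apply]
      exact hU _ hfU _ hc
    · intro h
      have i1 : Function.Injective (LinearMap.fst K _ _ ∘ₗ U'.subtype) := by
        rw [← LinearMap.ker_eq_bot, eq_bot_iff]
        rintro ⟨⟨p, q⟩, hp⟩ h3
        have h4 : p = 0 := h3
        subst h4
        have : q ∈ W := hp
        rw [h, Submodule.mem_bot] at this
        subst this
        rfl
      have s1 : Function.Surjective (LinearMap.snd K _ _ ∘ₗ U'.subtype) := by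
        rw [← LinearMap.range_eq_top, LinearMap.range_comp, Submodule.range_subtype, h1]
      have r1 := LinearMap.finrank_le_finrank_of_injective i1
      have r2 := LinearMap.finrank_le_finrank_of_surjective s1
      have i2 := (LinearMap.injective_iff_surjective_of_finrank_eq_finrank (le_antisymm r1 r2)).2 s1
      have : (⟨(f, 0), by simpa [U', hπ] using hfU⟩ : U') = 0 := i2 (by simp)
      exact h0 (congrArg (fun p : U' => p.1.1) this)
  have h3 : ∀ c : A n, (c : Ω) * y n ∈ U := fun c => (hW c).1 (by rw [h2]; trivial)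
  have h4 := hU _ (h3 b) _ (h3 1)
  obtain ⟨τ, hτ⟩ := hK (t n)
  rw [y_sq] at hτ
  have h5 : τ ≠ 0 := by
    rintro rfl
    exact mul_ne_zero (y_ne n) (y_ne n) (by simpa using hτ.symm)
  rw [IntermediateField.coe_one, one_mul, mul_assoc, ← hτ, mul_comm, ← Algebra.smul_def,
    map_smul] at h4
  exact (U.smul_mem_iff h5).1 h4

theorem good {m : ℕ} {x : Ω} (hx : x ∈ A m) :
    ∃ k : K, k ≠ 0 ∧ ∃ N, ∀ n, N ≤ n → k • x ∈ O (S n) n := by
  obtain ⟨c, rfl⟩ := (Submodule.mem_span_range_iff_exists_fun K).1 hx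
  obtain ⟨q, hq⟩ := IsLocalization.exist_integer_multiples_of_finite (nonZeroDivisors R) c
  choose r hr using hq
  let g : σ → ℕ := Sum.elim (fun _ => 0) fun p => p.1 + 1
  refine ⟨algebraMap R K q, ?_, m + univ.sup fun I => (r I).vars.sup g, fun n hn => ?_⟩
  · rw [Ne, map_eq_zero_iff _ (IsFractionRing.injective R K)]
    exact nonZeroDivisors.coe_ne_zero q
  · rw [smul_sum]
    refine Submodule.sum_mem _ fun I _ => ?_
    have hrI : r I ∈ S n := by
      refine MvPolynomial.mem_supported.2 fun v hv J h => ?_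
      have h1 : g v ≤ (r I).vars.sup g := le_sup hv
      have h2 : (r I).vars.sup g ≤ univ.sup fun I => (r I).vars.sup g :=
        le_sup (f := fun I => (r I).vars.sup g) (mem_univ I)
      rw [h] at h1
      have h3 : g (Sum.inr (n, J)) = n + 1 := rfl
      omega
    have e : algebraMap R K q • c I • Y I = algebraMap (S n) Ω ⟨r I, hrI⟩ * Y I := by
      rw [smul_smul, ← Algebra.smul_def, ← hr, Algebra.smul_def,
        ← IsScalarTower.algebraMap_apply]
      rfl
    rw [e, ← Algebra.smul_def]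
    exact Submodule.smul_mem _ _ (O_mono _ (by omega) (Y_mem _ (mem_powerset.1 I.2)))

noncomputable def Ls : Submodule K Ω where
  carrier := {x | ∃ n, ∃ b ∈ A n, D b = x}
  add_mem' := by
    rintro _ _ ⟨m, b, hb, rfl⟩ ⟨n, c, hc, rfl⟩
    exact ⟨max m n, b + c, add_mem (A_mono (le_max_left _ _) hb) (A_mono (le_max_right _ _) hc),
      map_add _ _ _⟩
  zero_mem' := ⟨0, 0, zero_mem _, map_zero _⟩
  smul_mem' := by
    rintro k _ ⟨n, b, hb, rfl⟩
    exact ⟨n, k • b, (A n).smul_mem hb, map_smul _ _ _⟩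

def L : Type := Ls

noncomputable instance : AddCommGroup L := inferInstanceAs (AddCommGroup Ls)
noncomputable instance : Module K L := inferInstanceAs (Module K Ls)

noncomputable def v : L →ₗ[K] Ω := Ls.subtype

theorem v_inj : Function.Injective v := Subtype.val_injective

theorem lev (x : L) : ∃ n, v x ∈ A n := by
  obtain ⟨_, n, b, hb, rfl⟩ := x
  exact ⟨n, (d n ⟨b, hb⟩).2⟩

theorem lev2 (x z : L) : ∃ n, v x ∈ A n ∧ v z ∈ A n := by
  obtain ⟨m, h1⟩ := lev x
  obtain ⟨n, h2⟩ := lev z
  exact ⟨max m n, A_mono (le_max_left _ _) h1, A_mono (le_max_right _ _) h2⟩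

noncomputable instance : Bracket L L where
  bracket x z := ⟨D (v x * v z), by
    obtain ⟨n, h1, h2⟩ := lev2 x z
    exact ⟨n, _, mul_mem h1 h2, rfl⟩⟩

theorem v_br (x z : L) : v ⁅x, z⁆ = D (v x * v z) := rfl

noncomputable instance : LieRing L where
  add_lie x z w := v_inj (by simp only [v_br, map_add, add_mul])
  lie_add x z w := v_inj (by simp only [v_br, map_add, mul_add])
  lie_self x := v_inj (by
    obtain ⟨n, h⟩ := lev x
    rw [v_br, leib h h, map_zero]
    linear_combination (v x * D (v x)) * two)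
  leibniz_lie x z w := v_inj (by
    obtain ⟨m, h1, h2⟩ := lev2 x z
    obtain ⟨n, h3⟩ := lev w
    have h1 := A_mono (le_max_left m n) h1
    have h2 := A_mono (le_max_left m n) h2
    have h3 := A_mono (le_max_right m n) h3
    simp only [v_br, map_add]
    rw [← map_add, leib h2 h3, leib h1 h2, leib h1 h3]
    congr 1
    linear_combination (-(D (v x) * v z * v w)) * two)

noncomputable instance : LieAlgebra K L where
  lie_smul k x z := v_inj (by simp only [v_br, map_smul, mul_smul_comm])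

theorem proper (H : LieSubalgebra K L) (hH : H ≠ ⊤) : FiniteDimensional K H := by
  by_contra hfd
  let U := H.toSubmodule.map v
  have hU : ∀ x ∈ U, ∀ z ∈ U, D (x * z) ∈ U := by
    rintro _ ⟨x, hx, rfl⟩ _ ⟨z, hz, rfl⟩
    exact ⟨⁅x, z⁆, H.lie_mem hx hz, rfl⟩
  have hout : ∀ m, ∃ x ∈ H, v x ∉ A m := by
    intro m
    by_contra h
    push Not at h
    apply hfd
    let φ : H →ₗ[K] (A m).toSubalgebra.toSubmodule :=
      (v ∘ₗ H.toSubmodule.subtype).codRestrict _ fun x => h x x.2
    have : FiniteDimensional K (A m).toSubalgebra.toSubmodule :=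
      inferInstanceAs (FiniteDimensional K (A m))
    refine FiniteDimensional.of_injective φ fun p q hpq => ?_
    have h0 : (φ p).1 = (φ q).1 := congrArg Subtype.val hpq
    have h1 : v p = v q := h0
    exact Subtype.ext (v_inj h1)
  obtain ⟨f, hf, hf0⟩ := hout 0
  obtain ⟨m, hm⟩ := lev f
  obtain ⟨k, hk, N, hN⟩ := good hm
  apply hH
  rw [eq_top_iff]
  rintro ⟨_, j, b, hb, rfl⟩ -
  obtain ⟨w, hw, hw0⟩ := hout (m + N + j)
  have hex : ∃ n, v w ∈ A n := lev w
  classical
  have h1 := Nat.find_spec hex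
  have h2 : m + N + j < Nat.find hex := by
    by_contra h
    exact hw0 (A_mono (by omega) h1)
  obtain ⟨n, hn⟩ : ∃ n, Nat.find hex = n + 1 := ⟨Nat.find hex - 1, by omega⟩
  have h3 := Nat.find_min hex (m := n) (by omega)
  rw [hn] at h1
  obtain ⟨x, hx, e⟩ := step n U hU ⟨k • v f, (A n).smul_mem (A_mono (by omega) hm)⟩
    (hN n (by omega)) (by
      intro h
      have : k • v f = 0 := congrArg Subtype.val h
      rw [smul_eq_zero_iff_right hk] at this
      exact hf0 (this ▸ zero_mem _)) (U.smul_mem k ⟨f, hf, rfl⟩) _ ⟨w, hw, rfl⟩ h1 h3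
      ⟨b, A_mono (by omega) hb⟩
  have : x = ⟨D b, j, b, hb, rfl⟩ := v_inj e
  exact this ▸ hx

theorem not_fg : ¬ ∃ s : Set L, s.Finite ∧ LieSubalgebra.lieSpan K L s = ⊤ := by
  rintro ⟨s, hs, h⟩
  choose g hg using lev
  obtain ⟨n, hn⟩ := (hs.image g).bddAbove
  let H : LieSubalgebra K L :=
    { toSubmodule := (A n).toSubalgebra.toSubmodule.comap v
      lie_mem' := fun {x z} hx hz => (d n ⟨_, mul_mem hx hz⟩).2 }
  have h1 : LieSubalgebra.lieSpan K L s ≤ H :=
    LieSubalgebra.lieSpan_le.2 fun x hx => A_mono (hn ⟨x, hx, rfl⟩) (hg x)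
  rw [h] at h1
  have h2 : D (y n) ∈ A n := h1 (x := ⟨D (y n), n + 1, _, y_mem n, rfl⟩) trivial
  rw [D_y] at h2
  apply y_not n
  have := (A n).div_mem h2 (a' n).2
  rwa [a', mul_div_cancel_right₀ _ (a_ne n)] at this

theorem fg_of_fd {M : Type} [LieRing M] [LieAlgebra K M] (H : LieSubalgebra K M)
    [FiniteDimensional K H] : ∃ s : Set M, s.Finite ∧ LieSubalgebra.lieSpan K M s = H := by
  obtain ⟨s, hs⟩ : H.toSubmodule.FG := Module.Finite.iff_fg.1 ‹_›
  refine ⟨s, s.finite_toSet, le_antisymm (LieSubalgebra.lieSpan_le.2 fun x hx => ?_) fun x hx => ?_⟩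
  · have : x ∈ H.toSubmodule := hs ▸ Submodule.subset_span hx
    exact this
  · have : x ∈ Submodule.span K (s : Set M) := hs ▸ hx
    exact LieSubalgebra.submodule_span_le_lieSpan this

end Pool.Agent.Lib.helper22.LieC
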