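import Mathlib
import Pool.Agent.Lib.helper22.RivA

set_option autoImplicit false
open Cardinal Set

namespace Pool.Agent.Lib.helper22.Lt

open Pool.Agent.Lib.helper22.Riv

theorem closure_card {G : Type} [Group G] (s : Set G) {μ : Cardinal} (hμ : ℵ₀ ≤ μ) (hs : #s ≤ μ) :
    #(Subgroup.closure s) ≤ μ := by
  classical
  have h1 : (FreeGroup.lift (Subtype.val : s → G)).range = Subgroup.closure s := by
    rw [FreeGroup.range_lift_eq_closure, Subtype.range_coe]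
  have h2 : #(FreeGroup s) ≤ μ := by
    refine (mk_le_of_injective FreeGroup.toWord_injective).trans ((mk_list_le_max _).trans
      (max_le hμ ?_))
    simp only [mk_prod, lift_id, mk_fintype, Fintype.card_bool, Nat.cast_ofNat, lift_ofNat]
    exact mul_le_of_le hμ hs ((natCast_lt_aleph0 (n := 2)).le.trans hμ)
  rw [← h1]
  exact mk_range_le.trans h2

def lt {G : Type} [Group G] (g : G) (b : Bool) : G := if b then g else g⁻¹

theorem lt_not {G : Type} [Group G] (g : G) (b : Bool) : lt g (!b) = (lt g b)⁻¹ := by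
  cases b <;> simp [lt]

section PP
variable {X : Type} (H : Subgroup (Equiv.Perm X)) (g : Equiv.Perm X)

inductive RW : Equiv.Perm X → Bool → Prop
  | base {h : Equiv.Perm X} {b : Bool} : h ∈ H → RW (lt g b * h) b
  | step {w h : Equiv.Perm X} {b b' : Bool} : RW w b' → h ∈ H → (h ≠ 1 ∨ b = b') →
      RW (lt g b * h * w) b

theorem normal_form {w : Equiv.Perm X} (hw : w ∈ Subgroup.closure ((H : Set _) ∪ {g})) :
    w ∈ H ∨ ∃ h ∈ H, ∃ w' b, RW H g w' b ∧ w = h * w' := by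
  have a1 : ∀ x ∈ H, ∀ y, (y ∈ H ∨ ∃ h ∈ H, ∃ w' b, RW H g w' b ∧ y = h * w') →
      (x * y ∈ H ∨ ∃ h ∈ H, ∃ w' b, RW H g w' b ∧ x * y = h * w') := by
    rintro x hx y (hy | ⟨h, hh, w', b, h1, rfl⟩)
    · exact Or.inl (H.mul_mem hx hy)
    · exact Or.inr ⟨x * h, H.mul_mem hx hh, w', b, h1, (mul_assoc _ _ _).symm⟩
  have a2 : ∀ c, ∀ y, (y ∈ H ∨ ∃ h ∈ H, ∃ w' b, RW H g w' b ∧ y = h * w') →
      (lt g c * y ∈ H ∨ ∃ h ∈ H, ∃ w' b, RW H g w' b ∧ lt g c * y = h * w') := by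
    rintro c y (hy | ⟨h, hh, w', b, h1, rfl⟩)
    · exact Or.inr ⟨1, H.one_mem, _, c, RW.base hy, (one_mul _).symm⟩
    · by_cases hc : h ≠ 1 ∨ c = b
      · exact Or.inr ⟨1, H.one_mem, _, c, RW.step h1 hh hc, by rw [one_mul, mul_assoc]⟩
      · push Not at hc
        obtain ⟨rfl, hc⟩ := hc
        have hc' : c = !b := by cases b <;> cases c <;> simp_all
        subst hc'
        rw [lt_not]
        cases h1 with
        | base h2 => exact Or.inl (by simpa using h2)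
        | step h2 h3 h4 => exact Or.inr ⟨_, h3, _, _, h2, by simp [mul_assoc]⟩
  induction hw using Subgroup.closure_induction_left with
  | one => exact Or.inl H.one_mem
  | mul_left x hx y _ ih =>
    rcases hx with hx | rfl
    · exact a1 x hx y ih
    · exact a2 true y ih
  | inv_mul_cancel x hx y _ ih =>
    rcases hx with hx | rfl
    · exact a1 _ (H.inv_mem hx) y ih
    · exact a2 false y ih

variable {H g} {D : Set X} {ht : X → ℕ}

theorem pp_up (d1 : ∀ x ∈ D, ∀ h ∈ H, h x ∈ D ∧ ht (h x) = ht x)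
    (d2 : ∀ x ∈ D, ∀ b, lt g b x ∈ D ∧ ht (lt g b x) ≠ ht x)
    (d3 : ∀ x ∈ D, ∀ h ∈ H, ∀ b b', ht (lt g b x) < ht x → ht (lt g b' (h x)) < ht x →
      h = 1 ∧ b = b') {x : X} (hx : x ∈ D) (hup : ∀ h ∈ H, ∀ b, ¬ ht (lt g b (h x)) < ht x)
    {w : Equiv.Perm X} (hw : w ∈ Subgroup.closure ((H : Set _) ∪ {g})) :
    w ∈ H ∨ ht x < ht (w x) := by
  have key : ∀ w b, RW H g w b → w x ∈ D ∧ ht x < ht (w x) ∧ ht (lt g (!b) (w x)) < ht (w x) := by
    intro w b h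
    induction h with
    | @base h b hh =>
      have e1 := d1 x hx h hh
      have e2 := d2 _ e1.1 b
      have e3 := hup h hh b
      have e4 : ht x < ht (lt g b (h x)) := by omega
      refine ⟨e2.1, e4, ?_⟩
      rw [lt_not]
      simpa [e1.2] using e4
    | @step w h b b' _ hh hc ih =>
      have e1 := d1 _ ih.1 h hh
      have e2 := d2 _ e1.1 b
      have e3 : ¬ ht (lt g b (h (w x))) < ht (w x) := fun e => by
        obtain ⟨e5, e6⟩ := d3 _ ih.1 h hh _ _ ih.2.2 e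
        rcases hc with hc | hc
        · exact hc e5
        · rw [hc] at e6; simp at e6
      have e4 : ht (w x) < ht (lt g b (h (w x))) := by omega
      refine ⟨e2.1, ih.2.1.trans e4, ?_⟩
      rw [lt_not]
      simpa [e1.2] using e4
  rcases normal_form H g hw with h | ⟨h, hh, w', b, h1, rfl⟩
  · exact Or.inl h
  · obtain ⟨k1, k2, -⟩ := key w' b h1
    exact Or.inr (by rw [Equiv.Perm.mul_apply, (d1 _ k1 h hh).2]; exact k2)

theorem pp_free (d1 : ∀ x ∈ D, ∀ h ∈ H, h x ∈ D ∧ ht (h x) = ht x)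
    (d2 : ∀ x ∈ D, ∀ b, lt g b x ∈ D ∧ ht (lt g b x) ≠ ht x)
    (d3 : ∀ x ∈ D, ∀ h ∈ H, ∀ b b', ht (lt g b x) < ht x → ht (lt g b' (h x)) < ht x →
      h = 1 ∧ b = b') (hF : ∀ h ∈ H, ∀ x, h x = x → h = 1) (n : ℕ) :
    ∀ x ∈ D, ht x = n → ∀ w ∈ Subgroup.closure ((H : Set _) ∪ {g}), w x = x → w = 1 := by
  induction n using Nat.strong_induction_on with
  | _ n ih =>
  rintro x hx rfl w hw hfix
  by_cases hup : ∀ h ∈ H, ∀ b, ¬ ht (lt g b (h x)) < ht x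
  · rcases pp_up d1 d2 d3 hx hup hw with h | h
    · exact hF w h x hfix
    · rw [hfix] at h; exact absurd h (lt_irrefl _)
  · push Not at hup
    obtain ⟨h, hh, b, hlt⟩ := hup
    have m1 : lt g b * h ∈ Subgroup.closure ((H : Set _) ∪ {g}) := by
      refine mul_mem ?_ (Subgroup.subset_closure (Or.inl hh))
      have : g ∈ Subgroup.closure ((H : Set _) ∪ {g}) := Subgroup.subset_closure (Or.inr rfl)
      cases b
      · exact inv_mem this
      · exact this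
    have := ih _ hlt _ (d2 _ (d1 x hx h hh).1 b).1 rfl ((lt g b * h) * w * (lt g b * h)⁻¹)
      (mul_mem (mul_mem m1 hw) (inv_mem m1)) (by simp [hfix])
    exact conj_eq_one_iff.1 this

end PP

section Ext
variable {Y K : Type} [TopologicalSpace Y] [Group K] [TopologicalSpace K]

/-- free extension property of the group `K` with respect to the filtration `N` -/
def FE (N : ℕ → Subgroup K) : Prop :=
  ∀ (L : Subgroup K) (μ : Cardinal), ℵ₀ ≤ μ → μ < 𝔠 → #L ≤ μ → ∀ s ∈ L,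
    ∃ (t : ℕ → K) (L' : Subgroup K) (d : K → ℕ), (∀ n, s⁻¹ * t n ∈ N (n + 1)) ∧ L ≤ L' ∧
      (∀ n, t n ∈ L') ∧ #L' ≤ μ ∧ (∀ l ∈ L, ∀ u ∈ L', d (l * u) = d u) ∧ (∀ u ∈ L, d u = 0) ∧
      (∀ n b, ∀ u ∈ L', d (lt (t n) b * u) = d u + 2 ∨ d (lt (t n) b * u) + 2 = d u) ∧
      ∀ u ∈ L', ∀ l ∈ L, ∀ n b n' b', d (lt (t n) b * u) < d u →
        d (lt (t n') b' * (l * u)) < d u → l = 1 ∧ b = b'

structure St (H : Subgroup (Equiv.Perm (Y × K))) (L : Subgroup K) (μ : Cardinal) : Prop where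
  cH : #H ≤ μ
  cL : #L ≤ μ
  cont : ∀ h ∈ H, Continuous h
  lab : ∀ h ∈ H, ∀ x, (h x).2 * x.2⁻¹ ∈ L
  gen : ∀ h ∈ H, ∀ x : Y × K, x.2 ∉ L → (h x).2 = x.2 → h = 1
  free : ∀ h ∈ H, ∀ x, h x = x → h = 1

theorem piece [IsTopologicalGroup K] [CompactSpace K] [T2Space K] [CompactSpace Y] [T2Space Y]
    (N : ℕ → Subgroup K) (n0 : N 0 = ⊤) (n1 : Antitone N) (n2 : ∀ n, IsOpen (N n : Set K))
    (n3 : ∀ k, (∀ n, k ∈ N n) → k = 1) (U : ℕ → Set Y) (u0 : U 0 = Set.univ) (u1 : Antitone U)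
    (u2 : ∀ n, IsClopen (U n)) (y₀ : Y) (u3 : ∀ y, (∀ n, y ∈ U n) ↔ y = y₀) (k₀ : K)
    (r : ℕ → K) (hr : ∀ n, r n ∈ N (n + 1)) :
    ∃ e : Equiv.Perm (Y × K), Continuous e ∧ Continuous e.symm ∧ e (y₀, k₀) = (y₀, k₀) ∧
      ∀ x, x ≠ (y₀, k₀) → ∃ n, e x = (x.1, r n * x.2) := by
  classical
  let V : ℕ → Set (Y × K) := fun n => {x | x.1 ∈ U n ∧ x.2 * k₀⁻¹ ∈ N n}
  have v0 : ∀ x, x ∈ V 0 := fun x => ⟨by rw [u0]; trivial, by rw [n0]; trivial⟩
  have v1 : Antitone V := fun a b h x hx => ⟨u1 h hx.1, n1 h hx.2⟩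
  have v2 : ∀ n, IsClopen (V n) := fun n =>
    ((u2 n).preimage continuous_fst).inter (IsClopen.preimage
      ⟨(N n).isClosed_of_isOpen (n2 n), n2 n⟩ (f := fun x : Y × K => x.2 * k₀⁻¹) (by fun_prop))
  have v3 : ∀ x, (∀ n, x ∈ V n) ↔ x = (y₀, k₀) := fun x => by
    constructor
    · intro h
      exact Prod.ext ((u3 _).1 fun n => (h n).1) (mul_inv_eq_one.1 (n3 _ fun n => (h n).2))
    · rintro rfl n
      exact ⟨(u3 y₀).2 rfl n, by simp⟩
  have v4 : ∀ n, ∀ a ∈ N n, ∀ x : Y × K, (x.1, a * x.2) ∈ V n ↔ x ∈ V n := fun n a ha x => by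
    simp only [V, mem_ofPred_eq, mul_assoc]
    rw [(N n).mul_mem_cancel_left ha]
  let F : (ℕ → K) → Y × K → Y × K := fun r x =>
    if h : ∃ n, x ∉ V (n + 1) then (x.1, r (Nat.find h) * x.2) else x
  have f1 : ∀ r n x, x ∈ V n → x ∉ V (n + 1) → F r x = (x.1, r n * x.2) := fun r n x h1 h2 => by
    have h : ∃ n, x ∉ V (n + 1) := ⟨n, h2⟩
    have : Nat.find h = n := by
      rw [Nat.find_eq_iff]
      exact ⟨h2, fun m hm => not_not.2 (v1 hm h1)⟩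
    simp only [F, dif_pos h, this]
  have f2 : ∀ r, F r (y₀, k₀) = (y₀, k₀) := fun r => by
    simp only [F]
    rw [dif_neg]
    rintro ⟨n, hn⟩
    exact hn ((v3 _).2 rfl _)
  have f3 : ∀ x, x ≠ (y₀, k₀) → ∃ n, x ∈ V n ∧ x ∉ V (n + 1) := fun x hx => by
    by_contra hn
    push Not at hn
    exact hx ((v3 x).1 fun n => Nat.rec (v0 x) hn n)
  have f4 : ∀ r : ℕ → K, (∀ n, r n ∈ N (n + 1)) → ∀ x, F (fun n => (r n)⁻¹) (F r x) = x := by
    intro r hr x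
    by_cases hx : x = (y₀, k₀)
    · rw [hx, f2]; exact f2 fun n => (r n)⁻¹
    · obtain ⟨n, h1, h2⟩ := f3 x hx
      rw [f1 r n x h1 h2, f1 (fun n => (r n)⁻¹) n _ ((v4 n _ (n1 n.le_succ (hr n)) x).2 h1)
        (fun h => h2 ((v4 _ _ (hr n) x).1 h))]
      simp
  have f5 : ∀ r : ℕ → K, (∀ n, r n ∈ N (n + 1)) → Continuous (F r) := by
    intro r hr
    rw [continuous_iff_continuousAt]
    intro x
    by_cases hx : x = (y₀, k₀)
    · subst hx
      rw [ContinuousAt, f2, Filter.tendsto_def]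
      intro W hW
      obtain ⟨W', w1, w2, w3⟩ := mem_nhds_iff.1 hW
      obtain ⟨n, hn⟩ := exists_subset_nhds_of_compactSpace (V := V) v1.directed_ge
        (fun n => (v2 n).1) (U := W') (fun x hx => by
          rw [(v3 x).1 (mem_iInter.1 hx)]; exact w2.mem_nhds w3)
      refine Filter.mem_of_superset ((v2 n).2.mem_nhds ((v3 _).2 rfl n)) fun x hx => w1 (hn ?_)
      by_cases e : x = (y₀, k₀)
      · rw [e, f2]; exact (v3 _).2 rfl n
      · obtain ⟨m, h1, h2⟩ := f3 x e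
        rw [f1 r m x h1 h2]
        have : n ≤ m + 1 := by
          by_contra hlt
          exact h2 (v1 (not_le.1 hlt).le hx)
        exact (v4 n _ (n1 this (hr m)) x).2 hx
    · obtain ⟨n, h1, h2⟩ := f3 x hx
      have : F r =ᶠ[nhds x] fun x => (x.1, r n * x.2) :=
        Filter.mem_of_superset (((v2 n).2.inter (v2 (n + 1)).1.isOpen_compl).mem_nhds ⟨h1, h2⟩)
          fun z hz => f1 r n z hz.1 hz.2
      exact (ContinuousAt.congr (by fun_prop) this.symm)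
  have hr' : ∀ n, (r n)⁻¹ ∈ N (n + 1) := fun n => inv_mem (hr n)
  refine ⟨⟨F r, F fun n => (r n)⁻¹, f4 r hr, fun x => by simpa using f4 _ hr' x⟩, f5 r hr,
    f5 _ hr', f2 r, fun x hx => ?_⟩
  obtain ⟨n, h1, h2⟩ := f3 x hx
  exact ⟨n, f1 r n x h1 h2⟩

theorem ext_step [IsTopologicalGroup K] [CompactSpace K] [T2Space K] [CompactSpace Y] [T2Space Y]
    (N : ℕ → Subgroup K) (n0 : N 0 = ⊤) (n1 : Antitone N) (n2 : ∀ n, IsOpen (N n : Set K))
    (n3 : ∀ k, (∀ n, k ∈ N n) → k = 1) (hFE : FE N) (U : ℕ → Set Y) (u0 : U 0 = Set.univ)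
    (u1 : Antitone U) (u2 : ∀ n, IsClopen (U n)) (y₀ : Y) (u3 : ∀ y, (∀ n, y ∈ U n) ↔ y = y₀)
    (hom : ∀ y, ∃ η : Y ≃ₜ Y, η y₀ = y) {H : Subgroup (Equiv.Perm (Y × K))} {L : Subgroup K}
    {μ : Cardinal} (h0 : ℵ₀ ≤ μ) (hμ : μ < 𝔠) (hS : St H L μ) (x₁ : Y × K) :
    ∃ H' L', H ≤ H' ∧ L ≤ L' ∧ St H' L' μ ∧ ∃ h ∈ H', h (y₀, 1) = x₁ := by
  classical
  by_cases hx₁ : ∃ h ∈ H, h (y₀, 1) = x₁
  · exact ⟨H, L, le_rfl, le_rfl, hS, hx₁⟩
  let L₁ : Subgroup K := Subgroup.closure ((L : Set K) ∪ {x₁.2})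
  have l1 : L ≤ L₁ := fun k hk => Subgroup.subset_closure (Or.inl hk)
  have l2 : x₁.2 ∈ L₁ := Subgroup.subset_closure (Or.inr rfl)
  obtain ⟨t, L', d, t1, t2, t3, t4, t5, t6, t7, t8⟩ := hFE L₁ μ h0 hμ
    (closure_card _ h0 (U_le h0 hS.cL (by rw [mk_singleton]; exact one_le_aleph0.trans h0))) _ l2
  obtain ⟨e, e1, e2, e3, e4⟩ := piece N n0 n1 n2 n3 U u0 u1 u2 y₀ u3 1 _ t1
  obtain ⟨η, hη⟩ := hom x₁.1
  obtain ⟨g, g1, g2, gc, gc'⟩ : ∃ g : Equiv.Perm (Y × K), g (y₀, 1) = x₁ ∧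
      (∀ x, x ≠ (y₀, 1) → ∃ n, (g x).2 = t n * x.2) ∧ Continuous g ∧
      Continuous (g⁻¹ : Equiv.Perm (Y × K)) := by
    refine ⟨e.trans (η.toEquiv.prodCongr (Equiv.mulLeft x₁.2)), ?_, fun x hx => ?_, ?_, ?_⟩
    · show (η (e _).1, x₁.2 * (e _).2) = _
      rw [e3]; simp [hη]
    · obtain ⟨n, hn⟩ := e4 x hx
      refine ⟨n, ?_⟩
      show x₁.2 * (e _).2 = _
      rw [hn]; simp [← mul_assoc]
    · show Continuous fun x => (η (e x).1, x₁.2 * (e x).2)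
      exact (η.continuous.comp (continuous_fst.comp e1)).prodMk
        (continuous_const.mul (continuous_snd.comp e1))
    · show Continuous fun x : Y × K => e.symm (η.symm x.1, x₁.2⁻¹ * x.2)
      exact e2.comp ((η.symm.continuous.comp continuous_fst).prodMk
        (continuous_const.mul continuous_snd))
  clear e3 e4 e1 e2 hη
  have g3 : ∀ b x, (b = true ∧ x = (y₀, 1) ∧ lt g b x = x₁) ∨
      (b = false ∧ x = x₁ ∧ lt g b x = (y₀, 1)) ∨ ∃ n, (lt g b x).2 = lt (t n) b * x.2 := by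
    intro b x
    cases b
    · by_cases h : x = x₁
      · refine Or.inr (Or.inl ⟨rfl, h, ?_⟩)
        rw [h, ← g1]; simp [lt]
      · obtain ⟨n, hn⟩ := g2 (g⁻¹ x) fun e => h (by rw [← g1, ← e]; simp)
        refine Or.inr (Or.inr ⟨n, ?_⟩)
        simp only [Equiv.Perm.coe_inv, Equiv.apply_symm_apply] at hn
        simp [lt, hn]
    · by_cases h : x = (y₀, 1)
      · exact Or.inl ⟨rfl, h, by rw [h]; exact g1⟩
      · exact Or.inr (Or.inr (g2 x h))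
  have tl : ∀ n b, lt (t n) b ∈ L' := fun n b => by
    cases b
    · exact inv_mem (t3 n)
    · exact t3 n
  have hl : ∀ h ∈ H, ∀ x, ∃ l ∈ L, (h x).2 = l * x.2 := fun h hh x =>
    ⟨_, hS.lab h hh x, by simp⟩
  let ind : Y × K → ℕ := fun x => if ∃ h ∈ H, h x₁ = x then 1 else 0
  have i0 : ∀ x, ind x ≤ 1 := fun x => by simp only [ind]; split_ifs <;> simp
  have i1 : ind x₁ = 1 := if_pos ⟨1, H.one_mem, rfl⟩
  have i2 : ind (y₀, 1) = 0 := if_neg fun ⟨h, hh, e⟩ =>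
    hx₁ ⟨h⁻¹, H.inv_mem hh, by rw [← e]; simp⟩
  have i3 : ∀ h ∈ H, ∀ x, ind (h x) = ind x := fun h hh x => by
    refine if_congr ⟨fun ⟨h', hh', e⟩ => ⟨h⁻¹ * h', H.mul_mem (H.inv_mem hh) hh', ?_⟩,
      fun ⟨h', hh', e⟩ => ⟨h * h', H.mul_mem hh hh', ?_⟩⟩ rfl rfl
    · simp [e]
    · simp [e]
  have i4 : ∀ z : Y × K, z.2 ∉ L' → ind z = 0 := fun z hz => if_neg fun ⟨h, hh, e⟩ => by
    obtain ⟨l, h1, h2⟩ := hl h hh x₁
    exact hz (by rw [← e, h2]; exact t2 (L₁.mul_mem (l1 h1) l2))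
  clear_value ind L₁
  have main : ∀ κ, (κ = 1 ∨ κ ∉ L') →
      (∀ x ∈ {x : Y × K | x.2 * κ⁻¹ ∈ L'}, ∀ h ∈ H, h x ∈ {x : Y × K | x.2 * κ⁻¹ ∈ L'} ∧
        d ((h x).2 * κ⁻¹) + ind (h x) = d (x.2 * κ⁻¹) + ind x) ∧
      (∀ x ∈ {x : Y × K | x.2 * κ⁻¹ ∈ L'}, ∀ b, lt g b x ∈ {x : Y × K | x.2 * κ⁻¹ ∈ L'} ∧
        d ((lt g b x).2 * κ⁻¹) + ind (lt g b x) ≠ d (x.2 * κ⁻¹) + ind x) ∧
      (∀ x ∈ {x : Y × K | x.2 * κ⁻¹ ∈ L'}, ∀ b,
        d ((lt g b x).2 * κ⁻¹) + ind (lt g b x) < d (x.2 * κ⁻¹) + ind x →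
        (κ = 1 ∧ b = false ∧ x = x₁) ∨ ∃ n, d (lt (t n) b * (x.2 * κ⁻¹)) < d (x.2 * κ⁻¹)) := by
    intro κ hκ
    have k1 : ∀ x : Y × K, x.2 * κ⁻¹ ∈ L' → x.2 ∈ L₁ → κ = 1 := fun x h1 h2 =>
      hκ.resolve_right fun h => h (by simpa using L'.mul_mem (L'.inv_mem h1) (t2 h2))
    refine ⟨fun x hx h hh => ?_, fun x hx b => ?_, fun x hx b hd => ?_⟩
    · obtain ⟨l, h1, h2⟩ := hl h hh x
      simp only [mem_ofPred_eq, h2, mul_assoc, i3 h hh]
      exact ⟨L'.mul_mem (t2 (l1 h1)) hx, by rw [t5 l (l1 h1) _ hx]⟩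
    · rcases g3 b x with ⟨-, rfl, h⟩ | ⟨-, rfl, h⟩ | ⟨n, h⟩
      · obtain rfl := k1 _ hx L₁.one_mem
        simp only [mem_ofPred_eq, h, inv_one, mul_one, i1, i2, t6 _ l2, t6 _ L₁.one_mem]
        exact ⟨t2 l2, by simp⟩
      · obtain rfl := k1 _ hx l2
        simp only [mem_ofPred_eq, h, inv_one, mul_one, i1, i2, t6 _ l2, t6 _ L₁.one_mem]
        exact ⟨L'.one_mem, by simp⟩
      · simp only [mem_ofPred_eq, h, mul_assoc]
        refine ⟨L'.mul_mem (tl n b) hx, ?_⟩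
        have := i0 x
        have := i0 (lt g b x)
        rcases t7 n b _ hx with h | h <;> omega
    · rcases g3 b x with ⟨-, rfl, h⟩ | ⟨hb, rfl, h⟩ | ⟨n, h⟩
      · obtain rfl := k1 _ hx L₁.one_mem
        simp [h, i2, t6 _ L₁.one_mem] at hd
      · exact Or.inl ⟨k1 _ hx l2, hb, rfl⟩
      · refine Or.inr ⟨n, ?_⟩
        rw [h, mul_assoc] at hd
        have := i0 x
        rcases t7 n b _ hx with h | h <;> omega
  have main3 : ∀ κ, (κ = 1 ∨ κ ∉ L') → ∀ x ∈ {x : Y × K | x.2 * κ⁻¹ ∈ L'}, ∀ h ∈ H, ∀ b b',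
      d ((lt g b x).2 * κ⁻¹) + ind (lt g b x) < d (x.2 * κ⁻¹) + ind x →
      d ((lt g b' (h x)).2 * κ⁻¹) + ind (lt g b' (h x)) < d (x.2 * κ⁻¹) + ind x →
      h = 1 ∧ b = b' := by
    intro κ hκ x hx h hh b b' a1 a2
    obtain ⟨m1, -, m3⟩ := main κ hκ
    obtain ⟨c1, c2⟩ := m1 x hx h hh
    rw [← c2] at a2
    obtain ⟨l, h1, h2⟩ := hl h hh x
    have c3 : d ((h x).2 * κ⁻¹) = d (x.2 * κ⁻¹) := by rw [h2, mul_assoc, t5 l (l1 h1) _ hx]
    rcases m3 x hx b a1 with ⟨rfl, rfl, rfl⟩ | ⟨n, hn⟩ <;>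
      rcases m3 _ c1 b' a2 with ⟨k, rfl, e⟩ | ⟨n', hn'⟩
    · exact ⟨hS.free h hh _ e, rfl⟩
    · rw [c3] at hn'
      simp [t6 _ l2] at hn'
    · subst k
      rw [← c3, e] at hn
      simp [t6 _ l2] at hn
    · rw [c3, h2, mul_assoc] at hn'
      obtain ⟨rfl, e⟩ := t8 _ hx l (l1 h1) n b n' b' hn hn'
      refine ⟨hS.gen h hh x (fun hxL => ?_) (by rw [h2, one_mul]), e⟩
      rcases hκ with rfl | hκ
      · rw [inv_one, mul_one, t6 _ (l1 hxL)] at hn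
        simp at hn
      · exact hκ (by simpa using L'.mul_mem (L'.inv_mem hx) (t2 (l1 hxL)))
  have hg : g ∈ Subgroup.closure ((H : Set (Equiv.Perm (Y × K))) ∪ {g}) :=
    Subgroup.subset_closure (Or.inr rfl)
  have hH : H ≤ Subgroup.closure ((H : Set (Equiv.Perm (Y × K))) ∪ {g}) :=
    fun h hh => Subgroup.subset_closure (Or.inl hh)
  have hc : #(Subgroup.closure ((H : Set (Equiv.Perm (Y × K))) ∪ {g})) ≤ μ :=
    closure_card _ h0 (U_le h0 hS.cH (by rw [mk_singleton]; exact one_le_aleph0.trans h0))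
  refine ⟨_, L', hH, l1.trans t2, St.mk hc t4 (fun w hw => ?_) (fun w hw => ?_)
      (fun w hw x hx hfix => ?_) (fun w hw x hfix => ?_), g, hg, g1⟩
  · induction hw using Subgroup.closure_induction_left with
    | one => exact continuous_id
    | mul_left x hx y _ ih =>
      refine Continuous.comp (g := x) ?_ ih
      rcases hx with hx | rfl
      · exact hS.cont x hx
      · exact gc
    | inv_mul_cancel x hx y _ ih =>
      refine Continuous.comp (g := (x⁻¹ : Equiv.Perm _)) ?_ ih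
      rcases hx with hx | rfl
      · exact hS.cont _ (H.inv_mem hx)
      · exact gc'
  · have a1 : ∀ h ∈ H, ∀ x, (h x).2 * x.2⁻¹ ∈ L' := fun h hh x => t2 (l1 (hS.lab h hh x))
    have a2 : ∀ b x, (lt g b x).2 * x.2⁻¹ ∈ L' := fun b x => by
      rcases g3 b x with ⟨-, rfl, h⟩ | ⟨-, rfl, h⟩ | ⟨n, h⟩
      · rw [h]; simpa using t2 l2
      · rw [h]; simpa using t2 l2
      · rw [h]; simpa using tl n b
    have a3 : ∀ x y : Equiv.Perm (Y × K), (∀ z, (x z).2 * z.2⁻¹ ∈ L') →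
        (∀ z, (y z).2 * z.2⁻¹ ∈ L') → ∀ z, ((x * y) z).2 * z.2⁻¹ ∈ L' := fun x y h1 h2 z => by
      simpa [mul_assoc] using L'.mul_mem (h1 (y z)) (h2 z)
    induction hw using Subgroup.closure_induction_left with
    | one => simp
    | mul_left x hx y _ ih =>
      refine a3 _ _ ?_ ih
      rcases hx with hx | rfl
      · exact a1 x hx
      · exact a2 true
    | inv_mul_cancel x hx y _ ih =>
      refine a3 _ _ ?_ ih
      rcases hx with hx | rfl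
      · exact a1 _ (H.inv_mem hx)
      · exact a2 false
  · obtain ⟨m1, m2, m3⟩ := main x.2 (Or.inr hx)
    have hxD : x ∈ {z : Y × K | z.2 * x.2⁻¹ ∈ L'} := by simp
    have ix : ∀ z : Y × K, z.2 = x.2 → ind z = 0 := fun z hz => i4 z (hz ▸ hx)
    rcases pp_up (ht := fun z => d (z.2 * x.2⁻¹) + ind z) m1 m2 (main3 _ (Or.inr hx)) hxD
      (fun h hh b => by simp [ix x rfl, t6 _ L₁.one_mem]) hw with h | h
    · exact hS.gen w h x (fun h' => hx (t2 (l1 h'))) hfix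
    · simp [hfix, ix _ hfix, ix x rfl] at h
  · by_cases hx : x.2 ∈ L'
    · obtain ⟨m1, m2, -⟩ := main 1 (Or.inl rfl)
      exact pp_free (ht := fun z => d (z.2 * 1⁻¹) + ind z) m1 m2 (main3 _ (Or.inl rfl)) hS.free _ x
        (by simpa using hx) rfl w hw hfix
    · obtain ⟨m1, m2, -⟩ := main x.2 (Or.inr hx)
      exact pp_free (ht := fun z => d (z.2 * x.2⁻¹) + ind z) m1 m2 (main3 _ (Or.inr hx)) hS.free _ x
        (by simp) rfl w hw hfix

theorem simply_transitive [IsTopologicalGroup K] [CompactSpace K] [T2Space K] [CompactSpace Y]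
    [T2Space Y] (N : ℕ → Subgroup K) (n0 : N 0 = ⊤) (n1 : Antitone N)
    (n2 : ∀ n, IsOpen (N n : Set K)) (n3 : ∀ k, (∀ n, k ∈ N n) → k = 1) (hFE : FE N)
    (U : ℕ → Set Y) (u0 : U 0 = Set.univ) (u1 : Antitone U) (u2 : ∀ n, IsClopen (U n)) (y₀ : Y)
    (u3 : ∀ y, (∀ n, y ∈ U n) ↔ y = y₀) (hom : ∀ y, ∃ η : Y ≃ₜ Y, η y₀ = y)
    (hc : #(Y × K) ≤ 𝔠) : ∃ G : Subgroup (Equiv.Perm (Y × K)), (∀ h ∈ G, Continuous h) ∧
      (∀ h ∈ G, ∀ x, h x = x → h = 1) ∧ ∀ x, ∃ h ∈ G, h (y₀, 1) = x := by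
  classical
  obtain ⟨ι, lo, wf, e, hw⟩ : ∃ (ι : Type) (_ : LinearOrder ι) (_ : WellFoundedLT ι)
      (_ : ι ≃ Y × K), ∀ a : ι, #(Iio a) < 𝔠 := by
    obtain ⟨l, w, hw⟩ := small_order (Y × K)
    exact ⟨Y × K, l, w, Equiv.refl _, fun a => (hw a).trans_le hc⟩
  let Z := Subgroup (Equiv.Perm (Y × K)) × Subgroup K
  let m : ι → Cardinal := fun a => max ℵ₀ #(Iio a)
  let Q : ι → Set Z → Z → Prop := fun a S z =>
    (∀ z' ∈ S, z'.1 ≤ z.1 ∧ z'.2 ≤ z.2) ∧ St z.1 z.2 (m a) ∧ ∃ h ∈ z.1, h (y₀, 1) = e a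
  obtain ⟨F, hF⟩ := rec_ex (ι := ι) (X := Z) fun a S => Classical.epsilon (Q a S)
  have un : ∀ D : Set ι, (∀ a ∈ D, Q a (F '' Iio a) (F a)) → ∀ μ : Cardinal, ℵ₀ ≤ μ → #D ≤ μ →
      (∀ a ∈ D, m a ≤ μ) → ∃ H L, St H L μ ∧ ∀ a ∈ D, (F a).1 ≤ H ∧ (F a).2 ≤ L := by
    intro D hD μ h0 h1 h2
    rcases D.eq_empty_or_nonempty with rfl | hne
    · refine ⟨⊥, ⊥, ⟨?_, ?_, ?_, ?_, ?_, ?_⟩, by simp⟩
      · exact (lt_aleph0_of_finite _).le.trans h0
      · exact (lt_aleph0_of_finite _).le.trans h0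
      · intro h hh; rw [Subgroup.mem_bot.1 hh]; exact continuous_id
      · intro h hh x; rw [Subgroup.mem_bot.1 hh]; simp
      · intro h hh _ _ _; exact Subgroup.mem_bot.1 hh
      · intro h hh _ _; exact Subgroup.mem_bot.1 hh
    haveI := hne.to_subtype
    have mo : ∀ a b : D, a ≤ b → (F a).1 ≤ (F b).1 ∧ (F a).2 ≤ (F b).2 := fun a b h => by
      rcases h.eq_or_lt with rfl | h
      · exact ⟨le_rfl, le_rfl⟩
      · exact (hD b.1 b.2).1 _ ⟨a.1, h, rfl⟩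
    have d1 : Directed (· ≤ ·) fun a : D => (F a).1 :=
      Monotone.directed_le fun a b h => (mo a b h).1
    have d2 : Directed (· ≤ ·) fun a : D => (F a).2 :=
      Monotone.directed_le fun a b h => (mo a b h).2
    have l2 : ∀ a : D, (F a).2 ≤ ⨆ a : D, (F a).2 := le_iSup fun a : D => (F a).2
    refine ⟨⨆ a : D, (F a).1, ⨆ a : D, (F a).2, ⟨?_, ?_, ?_, ?_, ?_, ?_⟩,
      fun a ha => ⟨le_iSup (fun a : D => (F a).1) ⟨a, ha⟩, l2 ⟨a, ha⟩⟩⟩
    · refine le_trans (mk_le_mk_of_subset (t := ⋃ a ∈ D, ((F a).1 : Set _)) fun x hx => ?_)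
        (bU_le h0 h1 fun a ha => (hD a ha).2.1.cH.trans (h2 a ha))
      obtain ⟨a, ha⟩ := (Subgroup.mem_iSup_of_directed d1).1 hx
      exact mem_biUnion a.2 ha
    · refine le_trans (mk_le_mk_of_subset (t := ⋃ a ∈ D, ((F a).2 : Set _)) fun x hx => ?_)
        (bU_le h0 h1 fun a ha => (hD a ha).2.1.cL.trans (h2 a ha))
      obtain ⟨a, ha⟩ := (Subgroup.mem_iSup_of_directed d2).1 hx
      exact mem_biUnion a.2 ha
    · intro h hh
      obtain ⟨a, ha⟩ := (Subgroup.mem_iSup_of_directed d1).1 hh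
      exact (hD a.1 a.2).2.1.cont h ha
    · intro h hh x
      obtain ⟨a, ha⟩ := (Subgroup.mem_iSup_of_directed d1).1 hh
      exact l2 a ((hD a.1 a.2).2.1.lab h ha x)
    · intro h hh x hx
      obtain ⟨a, ha⟩ := (Subgroup.mem_iSup_of_directed d1).1 hh
      exact (hD a.1 a.2).2.1.gen h ha x fun h' => hx (l2 a h')
    · intro h hh
      obtain ⟨a, ha⟩ := (Subgroup.mem_iSup_of_directed d1).1 hh
      exact (hD a.1 a.2).2.1.free h ha
  have all : ∀ a, Q a (F '' Iio a) (F a) := by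
    intro a
    induction a using WellFoundedLT.induction with
    | ind a ih =>
      obtain ⟨H, L, h1, h2⟩ := un (Iio a) ih (m a) (le_max_left _ _) (le_max_right _ _)
        fun b hb => max_le_max le_rfl (mk_le_mk_of_subset (Iio_subset_Iio (le_of_lt hb)))
      obtain ⟨H', L', a1, a2, a3, a4⟩ := ext_step N n0 n1 n2 n3 hFE U u0 u1 u2 y₀ u3 hom
        (le_max_left _ _) (max_lt aleph0_lt_continuum (hw a)) h1 (e a)
      rw [hF a]
      refine Classical.epsilon_spec (p := Q a (F '' Iio a)) ⟨(H', L'), ?_, a3, a4⟩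
      rintro _ ⟨b, hb, rfl⟩
      exact ⟨(h2 b hb).1.trans a1, (h2 b hb).2.trans a2⟩
  obtain ⟨H, L, h1, h2⟩ := un Set.univ (fun a _ => all a) 𝔠 aleph0_le_continuum
    (by rw [mk_univ, mk_congr e]; exact hc)
    fun a _ => (max_lt aleph0_lt_continuum (hw a)).le
  refine ⟨H, h1.cont, h1.free, fun x => ?_⟩
  obtain ⟨h, hh, he⟩ := (all (e.symm x)).2.2
  exact ⟨h, (h2 _ trivial).1 hh, by simpa using he⟩

end Ext

end Pool.Agent.Lib.helper22.Lt
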