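import Mathlib
import Pool.Agent.Lib.helper22.LtA

set_option autoImplicit false
open Cardinal Set Polynomial Matrix
open scoped MatrixGroups

namespace Pool.Agent.Lib.helper22.Lt

section Poly
variable {R : Type} [CommRing R]

/-- unipotent element fixing the vector `(1, σ)` -/
def UU (σ a : R) : SL(2, R) :=
  ⟨!![1 + a * σ, -a; a * σ ^ 2, 1 - a * σ], by rw [det_fin_two_of]; ring⟩

theorem UU_coe (σ a : R) : (UU σ a).1 = !![1 + a * σ, -a; a * σ ^ 2, 1 - a * σ] := rfl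

theorem UU_inv (σ a : R) : (UU σ a)⁻¹ = UU σ (-a) := by
  ext i j
  show (adjugate (UU σ a).1) i j = (UU σ (-a)).1 i j
  rw [UU_coe, UU_coe, adjugate_fin_two_of]
  fin_cases i <;> fin_cases j <;> simp [sub_eq_add_neg]

theorem map_apply' {S : Type} [CommRing S] (f : R →+* S) (g : SL(2, R)) (i j : Fin 2) :
    SpecialLinearGroup.map f g i j = f (g i j) := rfl

theorem UU_map {S : Type} [CommRing S] (f : R →+* S) (σ a : R) :
    SpecialLinearGroup.map f (UU σ a) = UU (f σ) (f a) := by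
  ext i j
  rw [map_apply', UU_coe, UU_coe]
  fin_cases i <;> fin_cases j <;> simp

theorem UU_zero (σ : R) : UU σ 0 = 1 := by
  ext i j
  fin_cases i <;> fin_cases j <;> simp [UU]

theorem mul00 (g h : SL(2, R)) : (g * h) 0 0 = g 0 0 * h 0 0 + g 0 1 * h 1 0 := by
  simp [Matrix.mul_apply, Fin.sum_univ_two]

theorem mul10 (g h : SL(2, R)) : (g * h) 1 0 = g 1 0 * h 0 0 + g 1 1 * h 1 0 := by
  simp [Matrix.mul_apply, Fin.sum_univ_two]

theorem det2 (g : SL(2, R)) : g 0 0 * g 1 1 - g 0 1 * g 1 0 = 1 := by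
  have := g.det_coe
  rwa [det_fin_two] at this

noncomputable def cst : SL(2, R) →* SL(2, R[X]) := SpecialLinearGroup.map (C : R →+* R[X])

theorem cst_apply (l : SL(2, R)) (i j : Fin 2) : cst l i j = C (l i j) := rfl

/-- the first column has degree `d` with leading vector `(w0, w1)` -/
def Ld (g : SL(2, R[X])) (d : ℕ) (w0 w1 : R) : Prop :=
  (w0 ≠ 0 ∨ w1 ≠ 0) ∧ (g 0 0).natDegree ≤ d ∧ (g 1 0).natDegree ≤ d ∧ (g 0 0).coeff d = w0 ∧
    (g 1 0).coeff d = w1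

noncomputable def dg (g : SL(2, R[X])) : ℕ := max (g 0 0).natDegree (g 1 0).natDegree

theorem Ld.dg {g : SL(2, R[X])} {d : ℕ} {w0 w1 : R} (h : Ld g d w0 w1) : dg g = d := by
  obtain ⟨h0, h1, h2, h3, h4⟩ := h
  refine le_antisymm (max_le h1 h2) ?_
  rcases h0 with h0 | h0
  · exact (le_natDegree_of_ne_zero (h3 ▸ h0)).trans (le_max_left _ _)
  · exact (le_natDegree_of_ne_zero (h4 ▸ h0)).trans (le_max_right _ _)

theorem Ld.cst {g : SL(2, R[X])} {d : ℕ} {w0 w1 : R} (h : Ld g d w0 w1) (l : SL(2, R)) :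
    Ld (cst l * g) d (l 0 0 * w0 + l 0 1 * w1) (l 1 0 * w0 + l 1 1 * w1) := by
  obtain ⟨h0, h1, h2, h3, h4⟩ := h
  refine ⟨?_, ?_, ?_, ?_, ?_⟩
  · by_contra hc
    push Not at hc
    have e := det2 l
    rcases h0 with h0 | h0
    · apply h0
      linear_combination (-w0) * e + l 1 1 * hc.1 - l 0 1 * hc.2
    · apply h0
      linear_combination (-w1) * e - l 1 0 * hc.1 + l 0 0 * hc.2
  · rw [mul00, cst_apply, cst_apply]
    exact (natDegree_add_le _ _).trans (max_le ((natDegree_C_mul_le _ _).trans h1)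
      ((natDegree_C_mul_le _ _).trans h2))
  · rw [mul10, cst_apply, cst_apply]
    exact (natDegree_add_le _ _).trans (max_le ((natDegree_C_mul_le _ _).trans h1)
      ((natDegree_C_mul_le _ _).trans h2))
  · rw [mul00, cst_apply, cst_apply, coeff_add, coeff_C_mul, coeff_C_mul, h3, h4]
  · rw [mul10, cst_apply, cst_apply, coeff_add, coeff_C_mul, coeff_C_mul, h3, h4]

theorem ld_one [Nontrivial R] : Ld (1 : SL(2, R[X])) 0 1 0 := by
  refine ⟨Or.inl one_ne_zero, ?_, ?_, ?_, ?_⟩ <;> simp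

theorem ld_aux {p q : R[X]} {d : ℕ} (hp : p.natDegree ≤ d) (hq : q.natDegree ≤ d) :
    (p + q * X).natDegree ≤ d + 1 ∧ (p + q * X).coeff (d + 1) = q.coeff d := by
  constructor
  · refine (natDegree_add_le _ _).trans (max_le (hp.trans d.le_succ) ?_)
    exact natDegree_mul_le.trans (add_le_add hq natDegree_X_le)
  · rw [coeff_add, coeff_mul_X, coeff_eq_zero_of_natDegree_lt (Nat.lt_succ_of_le hp), zero_add]

theorem Ld.UU [IsDomain R] {g : SL(2, R[X])} {d : ℕ} {w0 w1 : R} (h : Ld g d w0 w1) {σ a : R}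
    (ha : a ≠ 0) (hσ : σ * w0 - w1 ≠ 0) :
    ∃ e : R, e ≠ 0 ∧ Ld (UU (C σ) (C a * X) * g) (d + 1) e (e * σ) := by
  obtain ⟨h0, h1, h2, h3, h4⟩ := h
  have hq : (C σ * g 0 0 - g 1 0).natDegree ≤ d :=
    (natDegree_sub_le _ _).trans (max_le ((natDegree_C_mul_le _ _).trans h1) h2)
  have e0 : (Lt.UU (C σ) (C a * X) * g) 0 0 = g 0 0 + (C a * (C σ * g 0 0 - g 1 0)) * X := by
    rw [mul00]; simp [Lt.UU]; ring
  have e1 : (Lt.UU (C σ) (C a * X) * g) 1 0 =
      g 1 0 + (C (a * σ) * (C σ * g 0 0 - g 1 0)) * X := by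
    rw [mul10]; simp [Lt.UU]; ring
  have a0 := ld_aux h1 ((natDegree_C_mul_le a _).trans hq)
  have a1 := ld_aux h2 ((natDegree_C_mul_le (a * σ) _).trans hq)
  refine ⟨a * (σ * w0 - w1), mul_ne_zero ha hσ, Or.inl (mul_ne_zero ha hσ), e0 ▸ a0.1, e1 ▸ a1.1,
    ?_, ?_⟩
  · rw [e0, a0.2, coeff_C_mul, coeff_sub, coeff_C_mul, h3, h4]
  · rw [e1, a1.2, coeff_C_mul, coeff_sub, coeff_C_mul, h3, h4]; ring

/-- the pairing of the covector of `σ` with `l` applied to `(1, σ')` -/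
def ph (σ : R) (l : SL(2, R)) (σ' : R) : R := σ * (l 0 0 + l 0 1 * σ') - (l 1 0 + l 1 1 * σ')

variable (Λ : Subgroup SL(2, R)) (σ : ℕ × Bool → R) (c : ℕ → R) (s : SL(2, R))

noncomputable def TT (n : ℕ) : SL(2, R[X]) :=
  UU (C (σ (n, true))) (C (c n) * X) * cst s * UU (C (σ (n, false))) (C (c n) * X)

inductive Red : SL(2, R[X]) → ℕ → Prop
  | base {l : SL(2, R)} : l ∈ Λ → Red (cst l) 0
  | step {l : SL(2, R)} {n : ℕ} {b : Bool} {g : SL(2, R[X])} {d : ℕ} {e : R} : l ∈ Λ → e ≠ 0 →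
      Red g d → Ld (lt (TT σ c s n) b * g) (d + 2) e (e * σ (n, b)) →
      Red (cst l * (lt (TT σ c s n) b * g)) (d + 2)

variable {Λ σ c s}

theorem Red.dg [Nontrivial R] {g : SL(2, R[X])} {d : ℕ} (h : Red Λ σ c s g d) : dg g = d := by
  cases h with
  | base h => simpa using (ld_one.cst _).dg
  | step h1 h2 h3 h4 => exact (h4.cst _).dg

theorem Red.cst {g : SL(2, R[X])} {d : ℕ} (h : Red Λ σ c s g d) {l : SL(2, R)} (hl : l ∈ Λ) :
    Red Λ σ c s (cst l * g) d := by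
  cases h with
  | base h => rw [← map_mul]; exact Red.base (Λ.mul_mem hl h)
  | step h1 h2 h3 h4 => rw [← mul_assoc, ← map_mul]; exact Red.step (Λ.mul_mem hl h1) h2 h3 h4

variable [IsDomain R] (hs : s ∈ Λ) (hc : ∀ n, c n ≠ 0)
  (G1 : ∀ l ∈ Λ, ∀ i j, ph (σ i) l (σ j) = 0 → l = 1 ∧ i = j)
  (G2 : ∀ l ∈ Λ, ∀ i, σ i * l 0 0 - l 1 0 ≠ 0)
include hs hc G1

theorem Ld.up {g : SL(2, R[X])} {d : ℕ} {w0 w1 : R} (h : Ld g d w0 w1) (n : ℕ) (b : Bool)
    (hσ : σ (n, !b) * w0 - w1 ≠ 0) :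
    ∃ e : R, e ≠ 0 ∧ Ld (lt (TT σ c s n) b * g) (d + 2) e (e * σ (n, b)) := by
  have key : ∀ l ∈ Λ, ∀ a : R, a ≠ 0 → ∃ e : R, e ≠ 0 ∧ Ld (Lt.UU (C (σ (n, b))) (C a * X) *
      (Lt.cst l * (Lt.UU (C (σ (n, !b))) (C a * X) * g))) (d + 2) e (e * σ (n, b)) := by
    intro l hl a ha
    obtain ⟨e, he, h1⟩ := h.UU ha hσ
    refine (h1.cst l).UU ha fun h2 => ?_
    have h3 : e * ph (σ (n, b)) l (σ (n, !b)) = 0 := by
      rw [← h2, ph]; ring
    have := (G1 l hl _ _ ((mul_eq_zero.1 h3).resolve_left he)).2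
    cases b <;> simp at this
  cases b
  · have := key s⁻¹ (Λ.inv_mem hs) (-c n) (neg_ne_zero.2 (hc n))
    simpa [lt, TT, UU_inv, mul_assoc] using this
  · have := key s hs (c n) (hc n)
    simpa [lt, TT, mul_assoc] using this

theorem up_or {g : SL(2, R[X])} {d : ℕ} {e : R} {j : ℕ × Bool} (he : e ≠ 0)
    (h : Ld g d e (e * σ j)) {l : SL(2, R)} (hl : l ∈ Λ) (n : ℕ) (b : Bool) :
    (∃ e : R, e ≠ 0 ∧ Ld (lt (TT σ c s n) b * (cst l * g)) (d + 2) e (e * σ (n, b))) ∨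
      (l = 1 ∧ (n, !b) = j) := by
  by_cases h2 : ph (σ (n, !b)) l (σ j) = 0
  · exact Or.inr (G1 l hl _ _ h2)
  · refine Or.inl ((h.cst l).up hs hc G1 n b fun h3 => mul_ne_zero he h2 ?_)
    rw [← h3, ph]; ring

include G2

theorem up_base {l : SL(2, R)} (hl : l ∈ Λ) (n : ℕ) (b : Bool) :
    ∃ e : R, e ≠ 0 ∧ Ld (lt (TT σ c s n) b * cst l) 2 e (e * σ (n, b)) := by
  have := (ld_one.cst l).up hs hc G1 n b (by simpa using G2 l hl _)
  simpa using this

theorem Red.lt {g : SL(2, R[X])} {d : ℕ} (h : Red Λ σ c s g d) (n : ℕ) (b : Bool) :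
    Red Λ σ c s (lt (TT σ c s n) b * g) (d + 2) ∨
      ∃ d', d = d' + 2 ∧ Red Λ σ c s (lt (TT σ c s n) b * g) d' := by
  have up : (∃ e : R, e ≠ 0 ∧ Ld (Lt.lt (TT σ c s n) b * g) (d + 2) e (e * σ (n, b))) →
      Red Λ σ c s (Lt.lt (TT σ c s n) b * g) (d + 2) := fun ⟨e, he, h1⟩ => by
    simpa using Red.step Λ.one_mem he h h1
  cases h with
  | base h => exact Or.inl (up (up_base hs hc G1 G2 h n b))
  | step h1 h2 h3 h4 =>
    rcases up_or hs hc G1 h2 h4 h1 n b with h | ⟨rfl, h⟩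
    · exact Or.inl (up h)
    · obtain ⟨rfl, rfl⟩ := Prod.ext_iff.1 h
      refine Or.inr ⟨_, rfl, ?_⟩
      simpa [lt_not] using h3

theorem Red.two {g : SL(2, R[X])} {d : ℕ} (h : Red Λ σ c s g d) {l : SL(2, R)} (hl : l ∈ Λ)
    {n n' : ℕ} {b b' : Bool} (h1 : Lt.dg (Lt.lt (TT σ c s n) b * g) < d)
    (h2 : Lt.dg (Lt.lt (TT σ c s n') b' * (Lt.cst l * g)) < d) : l = 1 ∧ b = b' := by
  cases h with
  | base h => exact absurd h1 (Nat.not_lt_zero _)
  | step k1 k2 k3 k4 =>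
    rcases up_or hs hc G1 k2 k4 k1 n b with ⟨e, -, h⟩ | ⟨rfl, h⟩
    · rw [h.dg] at h1; omega
    · rcases up_or hs hc G1 k2 k4 hl n' b' with ⟨e, -, h'⟩ | ⟨rfl, h'⟩
      · rw [map_one, one_mul, h'.dg] at h2; omega
      · refine ⟨rfl, ?_⟩
        have := (Prod.ext_iff.1 (h.trans h'.symm)).2
        simpa using this

theorem red_ex {g : SL(2, R[X])}
    (hg : g ∈ Subgroup.closure ((cst '' (Λ : Set SL(2, R))) ∪ range (TT σ c s))) :
    ∃ d, Red Λ σ c s g d := by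
  induction hg using Subgroup.closure_induction_left with
  | one => exact ⟨0, by simpa using Red.base Λ.one_mem⟩
  | mul_left x hx y _ ih =>
    obtain ⟨d, ih⟩ := ih
    rcases hx with ⟨l, hl, rfl⟩ | ⟨n, rfl⟩
    · exact ⟨d, ih.cst hl⟩
    · rcases ih.lt hs hc G1 G2 n true with h | ⟨d', -, h⟩
      exacts [⟨_, h⟩, ⟨_, h⟩]
  | inv_mul_cancel x hx y _ ih =>
    obtain ⟨d, ih⟩ := ih
    rcases hx with ⟨l, hl, rfl⟩ | ⟨n, rfl⟩
    · exact ⟨d, by simpa using ih.cst (Λ.inv_mem hl)⟩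
    · rcases ih.lt hs hc G1 G2 n false with h | ⟨d', -, h⟩
      exacts [⟨_, h⟩, ⟨_, h⟩]

omit hs hc G1 G2

theorem generic {ι : Type} (P : ι → R[X]) (hP : ∀ i, P i ≠ 0) {μ : Cardinal} (h0 : ℵ₀ ≤ μ)
    (hι : #ι ≤ μ) (hR : μ < #R) : ∃ ρ : R, ∀ i, (P i).eval ρ ≠ 0 := by
  by_contra hn
  push Not at hn
  have : (Set.univ : Set R) ⊆ ⋃ i, {x | IsRoot (P i) x} := fun x _ => mem_iUnion.2 (hn x)
  have h2 := (mk_le_mk_of_subset this).trans (mk_iUnion_le _)
  rw [mk_univ] at h2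
  refine absurd (h2.trans (mul_le_of_le h0 hι (ciSup_le' fun i => ?_))) (not_le.2 hR)
  exact (finite_setOf_isRoot (hP i)).lt_aleph0.le.trans h0

theorem sigma_ex (Λ : Subgroup SL(2, R))
    (hΛ : ∀ l ∈ Λ, l 0 1 = 0 → l 1 0 = 0 → l 0 0 = l 1 1 → l = 1)
    {μ : Cardinal} (h0 : ℵ₀ ≤ μ) (hι : #Λ ≤ μ) (hR : μ < #R) : ∃ σ : ℕ × Bool → R,
      (∀ l ∈ Λ, ∀ i j, ph (σ i) l (σ j) = 0 → l = 1 ∧ i = j) ∧
      ∀ l ∈ Λ, ∀ i, σ i * l 0 0 - l 1 0 ≠ 0 := by
  classical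
  obtain ⟨k, hk⟩ := exists_injective_nat (ℕ × Bool)
  let P : {x : Λ × ℕ × ℕ // x.1 ≠ 1 ∨ x.2.1 ≠ x.2.2} ⊕ Λ × ℕ → R[X] := fun x =>
    match x with
    | Sum.inl x => C (x.1.1.1 0 1) * X ^ (x.1.2.1 + x.1.2.2 + 2) + C (x.1.1.1 0 0) * X ^ (x.1.2.1 + 1)
        - C (x.1.1.1 1 1) * X ^ (x.1.2.2 + 1) - C (x.1.1.1 1 0)
    | Sum.inr x => C (x.1.1 0 0) * X ^ (x.2 + 1) - C (x.1.1 1 0)
  have hP : ∀ x, P x ≠ 0 := by
    rintro (⟨⟨l, i, j⟩, h⟩ | ⟨l, i⟩) e
    · have e0 := congrArg (coeff · 0) e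
      have e1 := congrArg (coeff · (i + 1)) e
      have e2 := congrArg (coeff · (i + j + 2)) e
      have e3 := det2 l.1
      simp only [P, coeff_sub, coeff_add, coeff_C_mul, coeff_X_pow, coeff_C, coeff_zero] at e0 e1 e2
      rw [if_neg (by omega), if_neg (by omega), if_neg (by omega), if_pos trivial] at e0
      rw [if_pos trivial, if_neg (by omega), if_neg (by omega), if_neg (by omega)] at e2
      rw [if_neg (by omega), if_pos trivial, if_neg (i.succ_ne_zero)] at e1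
      have f0 : l.1 1 0 = 0 := by simpa using e0
      by_cases hij : i = j
      · rw [if_pos (by omega)] at e1
        exact h.elim (fun h => h (Subtype.ext (hΛ l.1 l.2 (by simpa using e2) f0
          (by linear_combination e1)))) fun h => h hij
      · rw [if_neg (by omega)] at e1
        have f1 : l.1 0 0 = 0 := by simpa using e1
        rw [f0, f1] at e3
        simp at e3
    · have e0 := congrArg (coeff · 0) e
      have e1 := congrArg (coeff · (i + 1)) e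
      have e3 := det2 l.1
      simp only [P, coeff_sub, coeff_C_mul, coeff_X_pow, coeff_C, coeff_zero] at e0 e1
      have f0 : l.1 1 0 = 0 := by simpa using e0
      have f1 : l.1 0 0 = 0 := by simpa using e1
      rw [f0, f1] at e3
      simp at e3
  have c1 : #ℕ ≤ μ := by rwa [mk_nat]
  obtain ⟨ρ, hρ⟩ := generic P hP h0 (by
    rw [mk_sum, lift_id, lift_id]
    refine add_le_of_le h0 ((mk_subtype_le _).trans ?_) ?_
    · rw [mk_prod, lift_id, lift_id, mk_prod, lift_id]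
      exact mul_le_of_le h0 hι (mul_le_of_le h0 c1 c1)
    · rw [mk_prod, lift_id, lift_id]
      exact mul_le_of_le h0 hι c1) hR
  refine ⟨fun i => ρ ^ (k i + 1), fun l hl i j h => ?_, fun l hl i h => ?_⟩
  · by_contra hn
    refine hρ (Sum.inl ⟨(⟨l, hl⟩, k i, k j), ?_⟩) ?_
    · by_contra h2
      push Not at h2
      exact hn ⟨congrArg Subtype.val h2.1, hk h2.2⟩
    · rw [← h]
      simp [P, ph]
      ring
  · refine hρ (Sum.inr (⟨l, hl⟩, k i)) ?_
    rw [← h]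
    simp [P]
    ring

noncomputable def ev (τ : R) : SL(2, R[X]) →* SL(2, R) :=
  SpecialLinearGroup.map (evalRingHom τ)

theorem tau_ex (M : Subgroup SL(2, R[X])) {μ : Cardinal} (h0 : ℵ₀ ≤ μ) (hι : #M ≤ μ)
    (hR : μ < #R) : ∃ τ : R, ∀ g ∈ M, ev τ g = 1 → g = 1 := by
  classical
  have : ∀ g : {g : M // g ≠ 1}, ∃ i j, g.1.1 i j - (1 : SL(2, R[X])) i j ≠ 0 := fun g => by
    by_contra hn
    push Not at hn
    refine g.2 (Subtype.ext ?_)
    ext i j : 1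
    exact sub_eq_zero.1 (hn i j)
  choose i j hij using this
  obtain ⟨τ, hτ⟩ := generic _ hij h0 ((mk_subtype_le _).trans hι) hR
  refine ⟨τ, fun g hg h => by_contra fun hn => ?_⟩
  have hn' : (⟨g, hg⟩ : M) ≠ 1 := fun e => hn (congrArg Subtype.val e)
  refine hτ ⟨_, hn'⟩ ?_
  have h1 : ∀ (g : SL(2, R[X])) i j, (g i j).eval τ = ev τ g i j := fun _ _ _ => rfl
  rw [eval_sub, h1, h1, h, map_one, sub_self]

omit [IsDomain R] in
theorem ev_cst (τ : R) (l : SL(2, R)) : ev τ (cst l) = l := by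
  ext i j
  show (C (l i j)).eval τ = _
  simp

omit [IsDomain R] in
theorem ev_TT (τ : R) (n : ℕ) : ev τ (TT σ c s n) =
    UU (σ (n, true)) (c n * τ) * s * UU (σ (n, false)) (c n * τ) := by
  rw [TT, map_mul, map_mul, ev_cst]
  simp [ev, UU_map]

/-- the free extension property for suitable subgroups of `SL(2, R)` -/
theorem FE_of (hR : 𝔠 ≤ #R) (K : Subgroup SL(2, R))
    (hK : ∀ l ∈ K, l 0 1 = 0 → l 1 0 = 0 → l 0 0 = l 1 1 → l = 1) (N : ℕ → Subgroup K)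
    (hN : ∀ n, (N n).Normal) (c : ℕ → R) (hc : ∀ n, c n ≠ 0)
    (hU : ∀ n σ τ, ∃ h : UU σ (c n * τ) ∈ K, ⟨_, h⟩ ∈ N (n + 1)) : FE N := by
  classical
  intro L μ h0 hμ hL s hs
  let Λ : Subgroup SL(2, R) := L.map K.subtype
  have cΛ : #Λ ≤ μ := mk_image_le.trans hL
  have mΛ : ∀ l ∈ L, l.1 ∈ Λ := fun l hl => ⟨l, hl, rfl⟩
  obtain ⟨σ, G1, G2⟩ := sigma_ex Λ (by rintro _ ⟨l, -, rfl⟩; exact hK _ l.2) h0 cΛ (hμ.trans_le hR)
  let M := Subgroup.closure ((cst '' (Λ : Set SL(2, R))) ∪ range (TT σ c s.1))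
  have cM : #M ≤ μ := closure_card _ h0 (Riv.U_le h0 (mk_image_le.trans cΛ)
    (mk_range_le.trans (by rwa [mk_nat])))
  obtain ⟨τ, hτ⟩ := tau_ex M h0 cM (hμ.trans_le hR)
  have m1 : ∀ l ∈ L, cst l.1 ∈ M := fun l hl =>
    Subgroup.subset_closure (Or.inl ⟨_, mΛ l hl, rfl⟩)
  have m2 : ∀ n b, lt (TT σ c s.1 n) b ∈ M := fun n b => by
    have : TT σ c s.1 n ∈ M := Subgroup.subset_closure (Or.inr ⟨n, rfl⟩)
    cases b
    exacts [inv_mem this, this]
  let u : ℕ → Bool → K := fun n b => ⟨_, (hU n (σ (n, b)) τ).1⟩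
  let t : ℕ → K := fun n => u n true * s * u n false
  have ht : ∀ n b, ev τ (lt (TT σ c s.1 n) b) = (lt (t n) b).1 := fun n b => by
    cases b
    · show ev τ (TT σ c s.1 n)⁻¹ = _
      rw [map_inv, ev_TT]; rfl
    · exact ev_TT τ n
  let d : K → ℕ := fun k => if h : ∃ g ∈ M, ev τ g = k.1 then dg h.choose else 0
  have hd : ∀ g ∈ M, ∀ k : K, ev τ g = k.1 → d k = dg g := fun g hg k e => by
    have h : ∃ g ∈ M, ev τ g = k.1 := ⟨g, hg, e⟩
    have := hτ _ (M.mul_mem h.choose_spec.1 (M.inv_mem hg))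
      (by rw [map_mul, map_inv, h.choose_spec.2, e, mul_inv_cancel])
    simp only [d, dif_pos h]
    rw [mul_inv_eq_one.1 this]
  have hr : ∀ g ∈ M, Red Λ σ c s.1 g (dg g) := fun g hg => by
    obtain ⟨d, h⟩ := red_ex (mΛ s hs) hc G1 G2 hg
    rwa [h.dg]
  refine ⟨t, (M.map (ev τ)).comap K.subtype, d, fun n => ?_, fun l hl => ⟨_, m1 l hl, ev_cst _ _⟩,
    fun n => ⟨_, m2 n true, ht n true⟩, ?_, ?_, ?_, ?_, ?_⟩
  · have := (N (n + 1)).mul_mem ((hN _).conj_mem' _ (hU n (σ (n, true)) τ).2 s)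
      (hU n (σ (n, false)) τ).2
    simpa [t, u, mul_assoc] using this
  · exact (mk_preimage_of_injective _ _ Subtype.val_injective).trans (mk_image_le.trans cM)
  · rintro l hl k ⟨g, hg, e⟩
    rw [hd g hg k e, hd _ (M.mul_mem (m1 l hl) hg) _ (by rw [map_mul, ev_cst, e]; rfl)]
    exact ((hr g hg).cst (mΛ l hl)).dg
  · intro l hl
    rw [hd _ (m1 l hl) _ (ev_cst _ _)]
    exact (Red.base (σ := σ) (c := c) (s := s.1) (mΛ l hl)).dg
  · rintro n b k ⟨g, hg, e⟩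
    rw [hd g hg k e, hd _ (M.mul_mem (m2 n b) hg) _ (by rw [map_mul, ht, e]; rfl)]
    rcases (hr g hg).lt (mΛ s hs) hc G1 G2 n b with h | ⟨d', h1, h⟩
    · exact Or.inl h.dg
    · exact Or.inr (by rw [h.dg, h1])
  · rintro k ⟨g, hg, e⟩ l hl n b n' b' h1 h2
    rw [hd g hg k e, hd _ (M.mul_mem (m2 n b) hg) _ (by rw [map_mul, ht, e]; rfl)] at h1
    rw [hd g hg k e, hd _ (M.mul_mem (m2 n' b') (M.mul_mem (m1 l hl) hg)) _
      (by rw [map_mul, map_mul, ht, ev_cst, e]; rfl)] at h2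
    obtain ⟨h3, h4⟩ := (hr g hg).two (mΛ s hs) hc G1 G2 (mΛ l hl) h1 h2
    exact ⟨Subtype.ext h3, h4⟩

end Poly

section Padic

instance : Fact (Nat.Prime 3) := ⟨Nat.prime_three⟩

noncomputable def Gam (n : ℕ) : Subgroup SL(2, ℤ_[3]) :=
  (SpecialLinearGroup.map (PadicInt.toZModPow n)).ker

theorem mem_Gam {n : ℕ} {g : SL(2, ℤ_[3])} :
    g ∈ Gam n ↔ ∀ i j, (3 : ℤ_[3]) ^ n ∣ g i j - (1 : SL(2, ℤ_[3])) i j := by
  rw [Gam, MonoidHom.mem_ker, ← map_one (SpecialLinearGroup.map (PadicInt.toZModPow (p := 3) n))]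
  refine (Matrix.SpecialLinearGroup.ext_iff _ _).trans
    (forall_congr' fun i => forall_congr' fun j => ?_)
  rw [map_apply', map_apply', ← sub_eq_zero, ← map_sub, ← RingHom.mem_ker, PadicInt.ker_toZModPow,
    Ideal.mem_span_singleton]
  rfl

theorem Gam_open (n : ℕ) : IsOpen (Gam n : Set SL(2, ℤ_[3])) := by
  have h : IsOpen {x : ℤ_[3] | (3 : ℤ_[3]) ^ n ∣ x} := by
    have : {x : ℤ_[3] | (3 : ℤ_[3]) ^ n ∣ x} = Metric.closedBall 0 ((3 : ℝ) ^ (-n : ℤ)) := by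
      ext x
      rw [mem_closedBall_zero_iff]
      have := PadicInt.norm_le_pow_iff_mem_span_pow x n
      rw [Ideal.mem_span_singleton] at this
      exact this.symm
    rw [this]
    exact IsUltrametricDist.isOpen_closedBall _ (by positivity)
  have : (Gam n : Set SL(2, ℤ_[3])) = ⋂ i, ⋂ j, (fun g : SL(2, ℤ_[3]) =>
      g i j - (1 : SL(2, ℤ_[3])) i j) ⁻¹' {x : ℤ_[3] | (3 : ℤ_[3]) ^ n ∣ x} := by
    ext g; simp [mem_Gam]
  rw [this]
  refine isOpen_iInter_of_finite fun i => isOpen_iInter_of_finite fun j => h.preimage ?_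
  exact ((continuous_apply j).comp (SpecialLinearGroup.continuous_apply id continuous_id i)).sub
    continuous_const

theorem card_padic : #ℤ_[3] = 𝔠 := by
  refine le_antisymm ?_ ?_
  · have : Function.Injective fun (x : ℤ_[3]) (n : ℕ) => (PadicInt.toZModPow n x).val :=
      fun x y h => PadicInt.ext_of_toZModPow.1 fun n => ZMod.val_injective _ (congrFun h n)
    refine (mk_le_of_injective this).trans ?_
    simp
  · rw [← IsFractionRing.cardinalMk ℤ_[3] ℚ_[3]]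
    exact continuum_le_cardinal_of_nontriviallyNormedField _

theorem group_ex : ∃ (K : Type) (_ : Group K) (_ : TopologicalSpace K) (_ : IsTopologicalGroup K)
    (_ : CompactSpace K) (_ : T2Space K) (N : ℕ → Subgroup K), N 0 = ⊤ ∧ Antitone N ∧
    (∀ n, IsOpen (N n : Set K)) ∧ (∀ k, (∀ n, k ∈ N n) → k = 1) ∧ FE N ∧ #K ≤ 𝔠 := by
  have c0 : CompactSpace (Matrix (Fin 2) (Fin 2) ℤ_[3]) :=
    inferInstanceAs (CompactSpace (Fin 2 → Fin 2 → ℤ_[3]))
  have c1 : CompactSpace SL(2, ℤ_[3]) := SpecialLinearGroup.isClosedEmbedding_val.compactSpace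
  have c2 : CompactSpace (Gam 1) :=
    isCompact_iff_compactSpace.1 ((Gam 1).isClosed_of_isOpen (Gam_open 1)).isCompact
  refine ⟨Gam 1, inferInstance, inferInstance, inferInstance, c2, inferInstance,
    fun n => (Gam (n + 1)).subgroupOf (Gam 1), Subgroup.subgroupOf_self _, fun a b h g hg => ?_,
    fun n => (Gam_open (n + 1)).preimage continuous_subtype_val, fun k hk => ?_, ?_, ?_⟩
  · exact mem_Gam.2 fun i j => (pow_dvd_pow _ (by omega)).trans (mem_Gam.1 hg i j)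
  · refine Subtype.ext ?_
    ext i j : 1
    refine PadicInt.ext_of_toZModPow.1 fun n => ?_
    rw [← sub_eq_zero, ← map_sub, ← RingHom.mem_ker, PadicInt.ker_toZModPow,
      Ideal.mem_span_singleton]
    exact (pow_dvd_pow _ n.le_succ).trans (mem_Gam.1 (hk n) i j)
  · refine FE_of card_padic.ge _ (fun l hl h1 h2 h3 => ?_) _ (fun n => ?_) (fun n => 3 ^ (n + 2))
      (fun n => pow_ne_zero _ (by norm_num)) fun n σ τ => ?_
    · have e := det2 l
      rw [h1, h2, ← h3] at e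
      have e2 : (l 0 0 - 1) * (l 0 0 + 1) = 0 := by linear_combination e
      rcases mul_eq_zero.1 e2 with e3 | e3
      · ext i j : 1
        have e4 : l 0 0 = 1 := sub_eq_zero.1 e3
        fin_cases i <;> fin_cases j <;> simp [h1, h2, ← h3, e4]
      · exfalso
        have := mem_Gam.1 hl 0 0
        have e4 : l 0 0 - (1 : SL(2, ℤ_[3])) 0 0 = ((-2 : ℤ) : ℤ_[3]) := by
          simp; linear_combination e3
        rw [e4] at this
        have h5 := (PadicInt.pow_p_dvd_int_iff (p := 3) 1 (-2)).1 this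
        norm_num at h5
    · have : (Gam (n + 1)).Normal := MonoidHom.normal_ker _
      infer_instance
    · have : ∀ m ≤ n + 2, UU σ (3 ^ (n + 2) * τ) ∈ Gam m := fun m hm => mem_Gam.2 fun i j => by
        refine (pow_dvd_pow _ hm).trans ?_
        rw [UU_coe]
        fin_cases i <;> fin_cases j <;> simp [mul_assoc]
      exact ⟨this 1 (by omega), this _ le_rfl⟩
  · refine (mk_subtype_le _).trans ((mk_subtype_le _).trans ?_)
    show #(Fin 2 → Fin 2 → ℤ_[3]) ≤ _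
    simp only [← power_def, card_padic, mk_fintype, Fintype.card_fin]
    rw [power_natCast, power_natCast]
    simp [pow_two]

end Padic

end Pool.Agent.Lib.helper22.Lt
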