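import Mathlib

set_option autoImplicit false
open Cardinal Set Topology Filter

namespace Pool.Agent.Lib.helper22.Lt

section Abs
variable {Y : Type} [TopologicalSpace Y]

/-- `Z` minus the point `z` is a disjoint union of countably many open copies of the space -/
def Nice (Z : Set Y) (z : Y) : Prop :=
  z ∈ Z ∧ ∃ e : ℕ → Y → Y, (∀ n, IsOpenEmbedding (e n)) ∧
    (∀ n m x x', e n x = e m x' → n = m) ∧ ∀ y, (∃ n x, e n x = y) ↔ y ∈ Z ∧ y ≠ z

theorem glue [CompactSpace Y] [T2Space Y] {z z' : Y} {Z : Set Y} (hZ : IsClosed Z)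
    (h : Nice Set.univ z) (h' : Nice Z z') :
    ∃ φ : Y → Y, Continuous φ ∧ Function.Injective φ ∧ range φ = Z ∧ φ z = z' := by
  classical
  obtain ⟨-, e, e1, e2, e3⟩ := h
  obtain ⟨hz, f, f1, f2, f3⟩ := h'
  let φ : Y → Y := fun y => if h : ∃ n x, e n x = y then f h.choose h.choose_spec.choose else z'
  have p1 : ∀ n x, φ (e n x) = f n x := fun n x => by
    have h : ∃ m x', e m x' = e n x := ⟨n, x, rfl⟩
    have h1 := h.choose_spec.choose_spec
    have h2 := e2 _ _ _ _ h1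
    simp only [φ, dif_pos h]
    generalize h.choose_spec.choose = x' at h1
    generalize h.choose = m at h1 h2
    subst h2
    rw [(e1 m).injective h1]
  have p2 : φ z = z' := dif_neg fun h => ((e3 z).1 h).2 rfl
  have p3 : ∀ y, y = z ∨ ∃ n x, e n x = y := fun y =>
    or_iff_not_imp_left.2 fun h => (e3 y).2 ⟨trivial, h⟩
  have p4 : ∀ n x, f n x ∈ Z ∧ f n x ≠ z' := fun n x => (f3 _).1 ⟨n, x, rfl⟩
  refine ⟨φ, continuous_iff_continuousAt.2 fun y => ?_, fun y y' h => ?_, ?_, p2⟩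
  · rcases p3 y with rfl | ⟨n, x, rfl⟩
    · rw [ContinuousAt, p2, tendsto_def]
      intro W hW
      obtain ⟨O, o1, o2, o3⟩ := mem_nhds_iff.1 hW
      obtain ⟨t, ht⟩ := (hZ.inter o2.isClosed_compl).isCompact.elim_finite_subcover
        (fun n => range (f n)) (fun n => (f1 n).isOpen_range) (fun w hw => by
          obtain ⟨n, x, h⟩ := (f3 w).2 ⟨hw.1, fun h => hw.2 (h ▸ o3)⟩
          exact mem_iUnion.2 ⟨n, x, h⟩)
      have : IsClosed (⋃ n ∈ t, range (e n)) := isClosed_biUnion_finset fun n _ =>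
        (isCompact_range (e1 n).continuous).isClosed
      refine mem_of_superset (this.isOpen_compl.mem_nhds ?_) fun w hw => o1 ?_
      · simp only [mem_compl_iff, mem_iUnion, not_exists]
        rintro n - ⟨x, hx⟩
        exact ((e3 y).1 ⟨n, x, hx⟩).2 rfl
      · rcases p3 w with rfl | ⟨n, x, rfl⟩
        · rwa [p2]
        · rw [p1]
          by_contra hn
          obtain ⟨m, hm, x', hx⟩ := mem_iUnion₂.1 (ht ⟨(p4 n x).1, hn⟩)
          obtain rfl := f2 _ _ _ _ hx
          exact hw (mem_iUnion₂.2 ⟨m, hm, x, rfl⟩)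
    · rw [← (e1 n).continuousAt_iff]
      have : φ ∘ e n = f n := funext (p1 n)
      rw [this]
      exact (f1 n).continuous.continuousAt
  · rcases p3 y with rfl | ⟨n, x, rfl⟩ <;> rcases p3 y' with rfl | ⟨m, x', rfl⟩
    · rfl
    · rw [p1, p2] at h; exact absurd h.symm (p4 _ _).2
    · rw [p1, p2] at h; exact absurd h (p4 _ _).2
    · rw [p1, p1] at h
      obtain rfl := f2 _ _ _ _ h
      rw [(f1 n).injective h]
  · ext w
    constructor
    · rintro ⟨y, rfl⟩
      rcases p3 y with rfl | ⟨n, x, rfl⟩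
      · rwa [p2]
      · rw [p1]; exact (p4 _ _).1
    · intro hw
      by_cases h : w = z'
      · exact ⟨z, h ▸ p2⟩
      · obtain ⟨n, x, rfl⟩ := (f3 w).2 ⟨hw, h⟩
        exact ⟨_, p1 n x⟩

theorem oemb [CompactSpace Y] [T2Space Y] {φ : Y → Y} (h1 : Continuous φ)
    (h2 : Function.Injective φ) (h3 : IsOpen (range φ)) : IsOpenEmbedding φ :=
  ⟨(h1.isClosedEmbedding h2).isEmbedding, h3⟩

theorem Nice.add {Z Z' : Set Y} {z : Y} (h : Nice Z z) {b : Y → Y} (hb : IsOpenEmbedding b)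
    (h1 : ∀ x, b x ∉ Z) (h2 : ∀ y, y ∈ Z' ↔ y ∈ Z ∨ y ∈ range b) : Nice Z' z := by
  obtain ⟨hz, e, e1, e2, e3⟩ := h
  refine ⟨(h2 z).2 (Or.inl hz), fun n => Nat.casesOn n b e, ?_, ?_, fun y => ⟨?_, ?_⟩⟩
  · rintro (_ | n)
    exacts [hb, e1 n]
  · rintro (_ | n) (_ | m) x x' h
    · rfl
    · exact absurd ((e3 _).1 ⟨m, x', h.symm⟩).1 (h1 x)
    · exact absurd ((e3 _).1 ⟨n, x, h⟩).1 (h1 x')
    · exact congrArg _ (e2 _ _ _ _ h)
  · rintro ⟨_ | n, x, rfl⟩
    · exact ⟨(h2 _).2 (Or.inr ⟨x, rfl⟩), fun h => h1 x (by rw [show b x = z from h]; exact hz)⟩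
    · have := (e3 _).1 ⟨n, x, rfl⟩
      exact ⟨(h2 _).2 (Or.inl this.1), this.2⟩
  · rintro ⟨h3, h4⟩
    rcases (h2 y).1 h3 with h | ⟨x, h⟩
    · obtain ⟨n, x, h⟩ := (e3 y).2 ⟨h, h4⟩
      exact ⟨n + 1, x, h⟩
    · exact ⟨0, x, h⟩

theorem Nice.map {z : Y} (h : Nice Set.univ z) {a : Y → Y} (ha : IsOpenEmbedding a) :
    Nice (range a) (a z) := by
  obtain ⟨-, e, e1, e2, e3⟩ := h
  refine ⟨⟨z, rfl⟩, fun n => a ∘ e n, fun n => ha.comp (e1 n),
    fun n m x x' h => e2 _ _ _ _ (ha.injective h), fun y => ⟨?_, ?_⟩⟩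
  · rintro ⟨n, x, rfl⟩
    exact ⟨⟨_, rfl⟩, fun h => ((e3 _).1 ⟨n, x, rfl⟩).2 (ha.injective h)⟩
  · rintro ⟨⟨w, rfl⟩, h⟩
    obtain ⟨n, x, rfl⟩ := (e3 w).2 ⟨trivial, fun e => h (congrArg a e)⟩
    exact ⟨n, x, rfl⟩

theorem tele {A : Type} (a b : A → Y → Y) (ha : ∀ x, IsOpenEmbedding (a x))
    (hb : ∀ x, IsOpenEmbedding (b x)) (hab : ∀ x y, y ∈ range (b x) ↔ y ∉ range (a x))
    (R : (ℕ → A) → ℕ → Y → Prop) (r0 : ∀ c y, R c 0 y)
    (r1 : ∀ c n y, R c (n + 1) y ↔ ∃ y', a (c 0) y' = y ∧ R (fun i => c (i + 1)) n y')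
    (c : ℕ → A) {Z : Set Y} {z : Y} (hz : z ∈ Z) (hZ : ∀ y, (∃ n, ¬ R c n y) ↔ y ∈ Z ∧ y ≠ z) :
    Nice Z z := by
  classical
  have k1 : ∀ n c, ∃ e : Y → Y, IsOpenEmbedding e ∧
      ∀ y, y ∈ range e ↔ R c n y ∧ ¬ R c (n + 1) y := by
    intro n
    induction n with
    | zero => exact fun c => ⟨b (c 0), hb _, fun y => by simp [hab, r0, r1, -mem_range, mem_range.symm]⟩
    | succ n ih =>
      intro c
      obtain ⟨e, e1, e2⟩ := ih fun i => c (i + 1)
      refine ⟨a (c 0) ∘ e, (ha _).comp e1, fun y => ⟨?_, ?_⟩⟩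
      · rintro ⟨x, rfl⟩
        have := (e2 _).1 ⟨x, rfl⟩
        refine ⟨(r1 _ _ _).2 ⟨_, rfl, this.1⟩, fun h => ?_⟩
        obtain ⟨y', h1, h2⟩ := (r1 _ _ _).1 h
        exact this.2 ((ha _).injective h1 ▸ h2)
      · rintro ⟨h1, h2⟩
        obtain ⟨y', rfl, h3⟩ := (r1 _ _ _).1 h1
        obtain ⟨x, rfl⟩ := (e2 y').2 ⟨h3, fun h => h2 ((r1 _ _ _).2 ⟨_, rfl, h⟩)⟩
        exact ⟨x, rfl⟩
  have k2 : ∀ n c y, R c (n + 1) y → R c n y := by
    intro n
    induction n with
    | zero => exact fun c y _ => r0 c y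
    | succ n ih =>
      intro c y h
      obtain ⟨y', h1, h2⟩ := (r1 _ _ _).1 h
      exact (r1 _ _ _).2 ⟨y', h1, ih _ _ h2⟩
  have k3 : ∀ y, Antitone fun n => R c n y := fun y =>
    antitone_nat_of_succ_le fun n => k2 n c y
  choose e e1 e2 using k1
  refine ⟨hz, fun n => e n c, fun n => e1 n c, fun n m x x' h => ?_, fun y => ?_⟩
  · have h1 := (e2 n c _).1 ⟨x, rfl⟩
    have h2 := (e2 m c _).1 ⟨x', h.symm⟩
    by_contra hn
    rcases lt_or_gt_of_ne hn with h3 | h3
    · exact h1.2 (k3 _ h3 h2.1)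
    · exact h2.2 (k3 _ h3 h1.1)
  · rw [← hZ]
    constructor
    · rintro ⟨n, h⟩
      exact ⟨n + 1, ((e2 n c y).1 h).2⟩
    · rintro ⟨n, h⟩
      by_contra hn
      refine h (Nat.rec (r0 c y) (fun n ih => ?_) n)
      by_contra h2
      exact hn ⟨n, (e2 n c y).2 ⟨ih, h2⟩⟩

end Abs

/-- nonempty finite or infinite sequences of binary sequences -/
@[ext] structure YY where
  s : ℕ → Option (ℕ → Bool)
  h0 : s 0 ≠ none
  hs : ∀ n, s (n + 1) ≠ none → s n ≠ none

namespace YY

def S (n : ℕ) (f : ℕ → ℕ → Bool) (m : ℕ) (b : Bool) : Set YY :=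
  {y | (∀ j < n, y.s j = some (f j)) ∧ ∃ c, y.s n = some c ∧ c m = b}

noncomputable def emb (y : YY) (t : ℕ × (ℕ → ℕ → Bool) × ℕ × Bool) : Bool :=
  (S t.1 t.2.1 t.2.2.1 t.2.2.2).boolIndicator y

noncomputable instance : TopologicalSpace YY := TopologicalSpace.induced emb inferInstance

theorem clopen (n : ℕ) (f : ℕ → ℕ → Bool) (m : ℕ) (b : Bool) : IsClopen (S n f m b) :=
  (continuous_boolIndicator_iff_isClopen _).1
    ((continuous_apply (n, f, m, b)).comp (continuous_induced_dom (f := emb)))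

theorem cont {g : YY → YY} (h : ∀ n f m b, IsClopen (g ⁻¹' S n f m b)) : Continuous g :=
  continuous_induced_rng.2 (continuous_pi fun t =>
    (continuous_boolIndicator_iff_isClopen _).2 (h t.1 t.2.1 t.2.2.1 t.2.2.2))

theorem down (y : YY) {n j : ℕ} (h : y.s n ≠ none) (hj : j ≤ n) : y.s j ≠ none := by
  induction hj with
  | refl => exact h
  | step _ ih => exact ih (y.hs _ h)

theorem emb_inj : Function.Injective emb := by
  have key : ∀ y y' : YY, emb y = emb y' → ∀ n c, (∀ j < n, y.s j = y'.s j) → y.s n = some c →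
      y'.s n = some c := by
    intro y y' h n c h1 h2
    have h3 : ∀ m, y' ∈ S n (fun j => (y.s j).getD c) m (c m) := fun m => by
      have := congrFun h (n, fun j => (y.s j).getD c, m, c m)
      rw [mem_iff_boolIndicator]
      refine this.symm.trans ((mem_iff_boolIndicator _ _).1 ⟨fun j hj => ?_, c, h2, rfl⟩)
      obtain ⟨a, ha⟩ := Option.ne_none_iff_exists'.1 (y.down (n := n) (by simp [h2]) hj.le)
      simp [ha]
    obtain ⟨c', h4, -⟩ := (h3 0).2
    rw [h4]
    congr 1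
    funext m
    obtain ⟨c'', h5, h6⟩ := (h3 m).2
    rw [h4] at h5
    rw [Option.some.inj h5, h6]
  intro y y' h
  refine YY.ext (funext fun n => ?_)
  induction n using Nat.strong_induction_on with
  | _ n ih =>
  cases h1 : y.s n with
  | some c => exact (key y y' h n c ih h1).symm
  | none =>
    cases h2 : y'.s n with
    | none => rfl
    | some c => rw [key y' y h.symm n c (fun j hj => (ih j hj).symm) h2] at h1; exact h1.symm

instance : T2Space YY := (IsEmbedding.mk ⟨rfl⟩ emb_inj).t2Space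

instance : CompactSpace YY := by
  classical
  refine ⟨isCompact_iff_ultrafilter_le_nhds'.2 fun u _ => ?_⟩
  let c : ℕ → ℕ → Bool := fun n m => decide ({y : YY | ∃ a, y.s n = some a ∧ a m = true} ∈ u)
  let A : ℕ → Set YY := fun n => {y | (∀ j < n, y.s j = some (c j)) ∧ y.s n ≠ none}
  have a1 : ∀ {n j}, j ≤ n → A n ∈ u → A j ∈ u := fun {n j} h hA =>
    mem_of_superset hA fun y hy => ⟨fun i hi => hy.1 i (hi.trans_le h), y.down hy.2 h⟩
  have a0 : A 0 ∈ u := univ_mem' fun y => ⟨fun j hj => absurd hj (Nat.not_lt_zero _), y.h0⟩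
  let z : YY := ⟨fun n => if A n ∈ u then some (c n) else none, by simp [a0], fun n h => by
    have : A (n + 1) ∈ u := by simpa using h
    simp [a1 n.le_succ this]⟩
  have c1 : ∀ n m b, {y : YY | ∃ a, y.s n = some a ∧ a m = b} ∈ u → c n m = b := by
    intro n m b h
    cases b
    · refine decide_eq_false fun h' => ?_
      obtain ⟨y, ⟨a, h1, h2⟩, a', h3, h4⟩ := u.nonempty_of_mem (inter_mem h h')
      rw [h1] at h3
      rw [← Option.some.inj h3, h2] at h4
      exact absurd h4 (by simp)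
    · exact decide_eq_true h
  have key : ∀ n f m b, z ∈ S n f m b ↔ S n f m b ∈ u := by
    intro n f m b
    constructor
    · rintro ⟨h1, a, h2, h3⟩
      have h4 : A n ∈ u := by
        by_contra h
        simp [z, h] at h2
      have h5 : c n = a := by simpa [z, h4] using h2
      have h6 : ∀ j < n, c j = f j := fun j hj => by simpa [z, a1 hj.le h4] using h1 j hj
      have h7 : {y : YY | ∃ a, y.s n = some a ∧ a m = !b}ᶜ ∈ u :=
        Ultrafilter.compl_mem_iff_notMem.2 fun h => by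
          have := c1 _ _ _ h
          rw [h5, h3] at this
          simp at this
      refine mem_of_superset (inter_mem h4 h7) fun y hy => ⟨fun j hj => h6 j hj ▸ hy.1.1 j hj, ?_⟩
      obtain ⟨a, ha⟩ := Option.ne_none_iff_exists'.1 hy.1.2
      refine ⟨a, ha, ?_⟩
      by_contra h
      exact hy.2 ⟨a, ha, Bool.eq_not_iff.2 h⟩
    · intro h
      have h6 : ∀ j < n, c j = f j := fun j hj => funext fun i =>
        c1 _ _ _ (mem_of_superset h fun y hy => ⟨_, hy.1 j hj, rfl⟩)
      have h4 : A n ∈ u := mem_of_superset h fun y hy => ⟨fun j hj => h6 j hj ▸ hy.1 j hj, by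
        obtain ⟨a, ha, -⟩ := hy.2
        simp [ha]⟩
      refine ⟨fun j hj => by simp [z, a1 hj.le h4, h6 j hj], c n, by simp [z, h4], ?_⟩
      exact c1 _ _ _ (mem_of_superset h fun y hy => hy.2)
  refine ⟨z, trivial, ?_⟩
  rw [nhds_induced, ← map_le_iff_le_comap]
  refine tendsto_pi_nhds.2 fun t => ?_
  rw [nhds_discrete, tendsto_pure]
  by_cases h : z ∈ S t.1 t.2.1 t.2.2.1 t.2.2.2
  · exact mem_of_superset ((key _ _ _ _).1 h) fun y hy =>
      ((mem_iff_boolIndicator _ _).1 hy).trans ((mem_iff_boolIndicator _ _).1 h).symm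
  · exact mem_of_superset (Ultrafilter.compl_mem_iff_notMem.2 fun h' => h ((key _ _ _ _).2 h'))
      fun y hy => ((notMem_iff_boolIndicator _ _).1 hy).trans
        ((notMem_iff_boolIndicator _ _).1 h).symm

def hd (y : YY) : ℕ → Bool := (y.s 0).getD fun _ => true

theorem s0 (y : YY) : y.s 0 = some y.hd := by
  obtain ⟨a, ha⟩ := Option.ne_none_iff_exists'.1 y.h0
  simp [hd, ha]

/-- prepend a term -/
def io (c : ℕ → Bool) (y : YY) : YY :=
  ⟨fun n => Nat.casesOn n (some c) y.s, by simp, fun n => by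
    cases n with
    | zero => simp
    | succ n => exact y.hs n⟩

/-- replace the first term -/
def rp (y : YY) (c : ℕ → Bool) : YY :=
  ⟨fun n => Nat.casesOn n (some c) fun n => y.s (n + 1), by simp, fun n => by
    cases n with
    | zero => simp
    | succ n => exact y.hs (n + 1)⟩

/-- prepend a bit to the first term -/
def sg (b : Bool) (y : YY) : YY := y.rp fun i => Nat.casesOn i b y.hd

theorem ext' {y y' : YY} (h1 : y.hd = y'.hd) (h2 : ∀ n, y.s (n + 1) = y'.s (n + 1)) : y = y' := by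
  refine YY.ext (funext fun n => ?_)
  cases n with
  | zero => rw [s0, s0, h1]
  | succ n => exact h2 n

theorem clopen_const {p : Prop} : IsClopen {_y : YY | p} := by
  by_cases h : p
  · simpa [h] using isClopen_univ
  · simpa [h] using isClopen_empty

theorem mem_io {c : ℕ → Bool} {y : YY} : y ∈ range (io c) ↔ y.hd = c ∧ y.s 1 ≠ none := by
  constructor
  · rintro ⟨y, rfl⟩
    exact ⟨rfl, y.h0⟩
  · rintro ⟨h1, h2⟩
    exact ⟨⟨fun n => y.s (n + 1), h2, fun n => y.hs (n + 1)⟩, ext' h1.symm fun n => rfl⟩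

theorem io_emb (c : ℕ → Bool) : IsOpenEmbedding (io c) := by
  refine oemb (cont fun n f m b => ?_) (fun y y' h => YY.ext (funext fun n =>
    congrFun (congrArg YY.s h) (n + 1))) ?_
  · cases n with
    | zero =>
      convert clopen_const (p := c m = b)
      ext y; simp [S, io]
    | succ n =>
      convert (clopen_const (p := c = f 0)).inter (clopen n (fun j => f (j + 1)) m b)
      ext y
      simp only [S, mem_preimage, mem_ofPred_eq, mem_inter_iff, Nat.forall_lt_succ_left]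
      simp [io, and_assoc]
  · convert ((clopen 1 (fun _ => c) 0 true).union (clopen 1 (fun _ => c) 0 false)).2
    ext y
    rw [mem_io]
    cases h : y.s 1 <;> simp [S, s0, h, ← and_or_left]

theorem mem_sg {b : Bool} {y : YY} : y ∈ range (sg b) ↔ y.hd 0 = b := by
  constructor
  · rintro ⟨y, rfl⟩
    rfl
  · intro h
    refine ⟨y.rp fun i => y.hd (i + 1), ext' (funext fun i => ?_) fun n => rfl⟩
    cases i with
    | zero => exact h.symm
    | succ i => rfl

theorem sg_emb (b : Bool) : IsOpenEmbedding (sg b) := by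
  refine oemb (cont fun n f m b' => ?_) (fun y y' h => ext' (funext fun i =>
    congrFun (congrArg YY.hd h) (i + 1)) fun n => congrFun (congrArg YY.s h) (n + 1)) ?_
  · cases n with
    | zero =>
      cases m with
      | zero =>
        convert clopen_const (p := b = b')
        ext y; simp [S, sg, rp]
      | succ m =>
        convert clopen 0 f m b'
        ext y; simp [S, s0]; rfl
    | succ n =>
      convert (clopen_const (p := b = f 0 0)).inter
        (clopen (n + 1) (fun j => Nat.casesOn j (fun i => f 0 (i + 1)) fun j => f (j + 1)) m b')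
      ext y
      have : ((fun i => Nat.casesOn i b y.hd) = f 0) ↔ b = f 0 0 ∧ y.hd = fun i => f 0 (i + 1) :=
        ⟨fun h => ⟨congrFun h 0, funext fun i => congrFun h (i + 1)⟩, fun h => funext fun i => by
          cases i with
          | zero => exact h.1
          | succ i => exact congrFun h.2 i⟩
      simp only [S, mem_preimage, mem_ofPred_eq, mem_inter_iff, Nat.forall_lt_succ_left, s0,
        Option.some.injEq]
      exact ⟨fun h => ⟨(this.1 h.1.1).1, ⟨(this.1 h.1.1).2, h.1.2⟩, h.2⟩,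
        fun h => ⟨⟨this.2 ⟨h.1, h.2.1.1⟩, h.2.1.2⟩, h.2.2⟩⟩
  · convert (clopen 0 (fun _ _ => true) 0 b).2
    ext y
    rw [mem_sg]
    simp [S, s0]

/-- the sequence of length one -/
def pt (c : ℕ → Bool) : YY :=
  ⟨fun n => Nat.casesOn n (some c) fun _ => none, by simp, fun n h => absurd rfl h⟩

theorem eq_pt {y : YY} (h : y.s 1 = none) : y = pt y.hd :=
  ext' rfl fun n => by
    by_contra h'
    exact y.down h' (Nat.succ_le_succ n.zero_le) h

theorem nice_W (c : ℕ → Bool) : Nice (range (io c))ᶜ (pt c) := by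
  refine tele sg (fun b => sg !b) sg_emb (fun _ => sg_emb _) 
    (fun b y => by rw [mem_sg, mem_sg]; exact Bool.eq_not_iff)
    (fun c n y => ∀ i < n, y.hd i = c i) (fun c y i hi => absurd hi (Nat.not_lt_zero _))
    (fun c n y => ⟨fun h => ?_, ?_⟩) c (fun h => (mem_io.1 h).2 rfl) fun y => ⟨?_, ?_⟩
  · obtain ⟨y', rfl⟩ := mem_sg.2 (h 0 n.succ_pos)
    exact ⟨y', rfl, fun i hi => h (i + 1) (Nat.succ_lt_succ hi)⟩
  · rintro ⟨y', rfl, h⟩ i hi
    cases i with
    | zero => rfl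
    | succ i => exact h i (Nat.lt_of_succ_lt_succ hi)
  · rintro ⟨n, h⟩
    exact ⟨fun h' => h fun i _ => congrFun (mem_io.1 h').1 i, fun h' => h fun i _ => by
      rw [h']; rfl⟩
  · rintro ⟨h1, h2⟩
    by_contra hn
    push Not at hn
    have h3 : y.hd = c := funext fun i => hn (i + 1) i i.lt_succ_self
    refine h2 (h3 ▸ eq_pt ?_)
    by_contra h4
    exact h1 (mem_io.2 ⟨h3, h4⟩)

theorem nice_pt (c : ℕ → Bool) : Nice Set.univ (pt c) :=
  (nice_W c).add (io_emb c) (fun x h => h ⟨x, rfl⟩) fun y => iff_of_true trivial (em' _)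

theorem W_ex (c : ℕ → Bool) : ∃ b : YY → YY, IsOpenEmbedding b ∧ range b = (range (io c))ᶜ := by
  obtain ⟨φ, h1, h2, h3, -⟩ := glue (io_emb c).isOpen_range.isClosed_compl (nice_pt c) (nice_W c)
  exact ⟨φ, oemb h1 h2 (h3 ▸ (isCompact_range (io_emb c).continuous).isClosed.isOpen_compl), h3⟩

theorem nice_all (z : YY) : Nice Set.univ z := by
  choose b b1 b2 using W_ex
  by_cases h : ∃ n, z.s (n + 1) = none
  · obtain ⟨n, h⟩ := h
    induction n generalizing z with
    | zero => rw [eq_pt h]; exact nice_pt _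
    | succ n ih =>
      by_cases h1 : z.s 1 = none
      · rw [eq_pt h1]; exact nice_pt _
      · obtain ⟨y, hy⟩ := mem_io.2 ⟨rfl, h1⟩
        have h2 : y.s (n + 1) = none := by rw [← hy] at h; exact h
        rw [← hy]
        refine ((ih y h2).map (io_emb _)).add (b1 z.hd) (fun x hx => ?_) fun y => ?_
        · have : b z.hd x ∈ range (b z.hd) := ⟨x, rfl⟩
          rw [b2] at this
          exact this hx
        · rw [b2]; exact iff_of_true trivial (em _)
  · push Not at h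
    have h' : ∀ n, ∃ c, z.s n = some c := fun n =>
      Option.ne_none_iff_exists'.1 (z.down (h n) n.le_succ)
    choose c hc using h'
    refine tele io b io_emb b1 (fun x y => by rw [b2]; rfl)
      (fun c n y => (∀ j < n, y.s j = some (c j)) ∧ y.s n ≠ none)
      (fun c y => ⟨fun i hi => absurd hi (Nat.not_lt_zero _), y.h0⟩)
      (fun c n y => ⟨fun h => ?_, ?_⟩) c trivial fun y => ⟨?_, ?_⟩
    · have h0 := h.1 0 n.succ_pos
      rw [s0] at h0
      obtain ⟨y', rfl⟩ := mem_io.2 ⟨Option.some.inj h0, y.down h.2 (Nat.succ_le_succ n.zero_le)⟩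
      exact ⟨y', rfl, fun i hi => h.1 (i + 1) (Nat.succ_lt_succ hi), h.2⟩
    · rintro ⟨y', rfl, h⟩
      refine ⟨fun i hi => ?_, h.2⟩
      cases i with
      | zero => rfl
      | succ i => exact h.1 i (Nat.lt_of_succ_lt_succ hi)
    · rintro ⟨n, h⟩
      exact ⟨trivial, fun h' => h (h' ▸ ⟨fun j _ => hc j, by simp [hc]⟩)⟩
    · rintro ⟨-, h2⟩
      by_contra hn
      push Not at hn
      exact h2 (YY.ext (funext fun i => ((hn (i + 1)).1 i i.lt_succ_self).trans (hc i).symm))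

end YY

theorem space_ex : ∃ (Y : Type) (_ : TopologicalSpace Y) (_ : CompactSpace Y) (_ : T2Space Y)
    (U : ℕ → Set Y) (y₀ : Y), U 0 = Set.univ ∧ Antitone U ∧ (∀ n, IsClopen (U n)) ∧
    (∀ y, (∀ n, y ∈ U n) ↔ y = y₀) ∧ (∀ y, ∃ η : Y ≃ₜ Y, η y₀ = y) ∧ #Y ≤ 𝔠 ∧
    ∃ O : (ℕ → Bool) → Set Y, (∀ c, IsOpen (O c) ∧ (O c).Nonempty) ∧
      ∀ c c' y, y ∈ O c → y ∈ O c' → c = c' := by
  obtain ⟨-, e, e1, e2, e3⟩ := YY.nice_all (YY.pt fun _ => true)
  refine ⟨YY, inferInstance, inferInstance, inferInstance,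
    fun n => (⋃ j ∈ Finset.range n, range (e j))ᶜ, YY.pt fun _ => true, by simp, fun a b h => ?_,
    fun n => ?_, fun y => ?_, fun y => ?_, ?_, fun c => range (YY.io c),
    fun c => ⟨(YY.io_emb c).isOpen_range, _, YY.pt c, rfl⟩,
    fun c c' y h h' => (YY.mem_io.1 h).1.symm.trans (YY.mem_io.1 h').1⟩
  · exact compl_subset_compl.2 (biUnion_subset_biUnion_left (Finset.range_mono h))
  · exact (isClopen_biUnion_finset fun j _ =>
      ⟨(isCompact_range (e1 j).continuous).isClosed, (e1 j).isOpen_range⟩).compl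
  · rw [← not_iff_not, ← Ne, ← true_and (y ≠ _), ← show _ ↔ True ∧ _ from e3 y]
    simp only [mem_compl_iff, mem_iUnion, not_forall, not_not, Finset.mem_range, mem_range]
    exact ⟨fun ⟨_, j, _, h⟩ => ⟨j, h⟩, fun ⟨j, h⟩ => ⟨j + 1, j, j.lt_succ_self, h⟩⟩
  · obtain ⟨φ, h1, h2, h3, h4⟩ := glue isClosed_univ (YY.nice_all (YY.pt fun _ => true))
      (YY.nice_all y)
    exact ⟨Continuous.homeoOfEquivCompactToT2
      (f := Equiv.ofBijective φ ⟨h2, range_eq_univ.1 h3⟩) h1, h4⟩
  · refine (mk_le_of_injective (f := YY.s) fun y y' h => YY.ext h).trans ?_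
    simp [add_one_eq aleph0_le_continuum]

end Pool.Agent.Lib.helper22.Lt
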