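import Mathlib

set_option autoImplicit false

namespace Pool.Agent.Lib.helper22.Mk

open Set Filter Topology MeasureTheory

abbrev T : Type := UnitAddCircle

theorem exists_rep (t : T) : ∃ x : ℝ, (x : T) = t ∧ ‖t‖ = |x| := by
  induction t using QuotientAddGroup.induction_on with
  | H y =>
    refine ⟨y - round y, ?_, UnitAddCircle.norm_eq⟩
    rw [AddCircle.coe_sub]
    have : ((round y : ℝ) : T) = 0 := by
      rw [AddCircle.coe_eq_zero_iff]
      exact ⟨round y, by simp⟩
    rw [this, sub_zero]

theorem norm_coe_le (x : ℝ) : ‖(x : T)‖ ≤ |x| := QuotientAddGroup.norm_mk_le_norm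

theorem norm_two (t : T) (h : ‖t‖ ≤ 1 / 4) : ‖2 • t‖ = 2 * ‖t‖ := by
  obtain ⟨x, rfl, hx⟩ := exists_rep t
  rw [hx] at h ⊢
  rw [← AddCircle.coe_nsmul, (AddCircle.norm_coe_eq_abs_iff (1 : ℝ) one_ne_zero).mpr]
  · simp [abs_mul]
  · simp only [nsmul_eq_mul, abs_mul, Nat.cast_ofNat, abs_two, abs_one]
    linarith

theorem nss (k : ℕ) (t : T) (h : ∀ i ≤ k, ‖2 ^ i • t‖ ≤ 1 / 4) : 2 ^ k * ‖t‖ ≤ 1 / 4 := by
  induction k generalizing t with
  | zero => simpa using h 0 le_rfl
  | succ k ih =>
    have h1 := ih (2 • t) fun i hi => by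
      rw [← mul_nsmul', ← pow_succ]
      exact h (i + 1) (by omega)
    rw [norm_two t (by simpa using h 0 (Nat.zero_le _))] at h1
    rw [pow_succ]
    linarith

theorem cont_of_quarter {G : Type*} [AddCommGroup G] [TopologicalSpace G] [IsTopologicalAddGroup G]
    (ψ : G →+ T) (h : ∀ᶠ u in 𝓝 (0 : G), ‖ψ u‖ ≤ 1 / 4) : Continuous ψ := by
  refine continuous_of_continuousAt_zero ψ ?_
  rw [ContinuousAt, map_zero, Metric.tendsto_nhds]
  intro ε hε
  obtain ⟨k, hk⟩ := pow_unbounded_of_one_lt (1 / ε) (one_lt_two (α := ℝ))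
  have : ∀ᶠ u in 𝓝 (0 : G), ∀ i ∈ Finset.range (k + 1), ‖ψ (2 ^ i • u)‖ ≤ 1 / 4 := by
    rw [Finset.eventually_all]
    intro i _
    have hc : Tendsto (fun u : G => 2 ^ i • u) (𝓝 0) (𝓝 0) := by
      simpa using (continuous_nsmul (M := G) (2 ^ i)).tendsto 0
    exact hc.eventually h
  filter_upwards [this] with u hu
  have h1 := nss k (ψ u) fun i hi => by
    rw [← map_nsmul]; exact hu i (Finset.mem_range.mpr (by omega))
  rw [dist_zero_right]
  rw [div_lt_iff₀ hε] at hk
  by_contra hle
  push Not at hle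
  have : (2 : ℝ) ^ k * ε ≤ 2 ^ k * ‖ψ u‖ := by gcongr
  linarith

theorem sep {ι : Type*} [Fintype ι] (N : AddSubgroup (ι → T)) (hN : IsClosed (N : Set (ι → T)))
    (k : ι → T) (hk : k ∉ N) :
    ∃ c : ι → ℤ, (∀ y ∈ N, ∑ i, c i • y i = 0) ∧ ∑ i, c i • k i ≠ 0 := by
  by_contra hno
  push Not at hno
  haveI : CompactSpace N := isCompact_iff_compactSpace.mp hN.isCompact
  let ν : Measure N := Measure.addHaarMeasure ⊤
  haveI : IsProbabilityMeasure ν := ⟨by simpa using Measure.addHaarMeasure_self (K₀ := (⊤ : TopologicalSpace.PositiveCompacts N))⟩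
  have hint : ∀ (f : C(ι → T, ℂ)) (x : ι → T), Integrable (fun y : N => f (x + y)) ν := fun f x =>
    (Continuous.integrable_of_hasCompactSupport (by fun_prop) (HasCompactSupport.of_compactSpace _))
  let S : Submodule ℂ C(ι → T, ℂ) :=
    { carrier := {f | ∫ y : N, f (k + y) ∂ν = ∫ y : N, f (0 + y) ∂ν}
      add_mem' := fun {f g} hf hg => by
        simp only [mem_setOf_eq, ContinuousMap.add_apply] at hf hg ⊢
        rw [integral_add (hint f k) (hint g k), integral_add (hint f 0) (hint g 0), hf, hg]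
      zero_mem' := by simp
      smul_mem' := fun c f hf => by
        simp only [mem_setOf_eq, ContinuousMap.smul_apply] at hf ⊢
        rw [integral_smul, integral_smul, hf] }
  have hcont : ∀ x : ι → T, Continuous fun f : C(ι → T, ℂ) => ∫ y : N, f (x + y) ∂ν := by
    intro x
    refine LipschitzWith.continuous (K := 1) (LipschitzWith.of_dist_le_mul fun f g => ?_)
    rw [dist_eq_norm, ← integral_sub (hint f x) (hint g x)]
    refine (norm_integral_le_of_norm_le_const (C := dist f g) (Eventually.of_forall fun y => ?_)).trans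
      (by simp)
    rw [← dist_eq_norm]
    exact ContinuousMap.dist_apply_le_dist _
  have hS : IsClosed (S : Set C(ι → T, ℂ)) := isClosed_eq (hcont k) (hcont 0)
  have hF : ∀ (c : ι → ℤ) (x : ι → T),
      UnitAddTorus.mFourier c x = (AddCircle.toCircle (∑ i, c i • x i) : ℂ) := by
    intro c x
    have : ∀ s : Finset ι, ∏ i ∈ s, fourier (c i) (x i) =
        (AddCircle.toCircle (∑ i ∈ s, c i • x i) : ℂ) := by
      intro s
      classical
      induction s using Finset.induction_on with
      | empty => simp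
      | insert a s ha ih =>
        rw [Finset.prod_insert ha, Finset.sum_insert ha, ih, AddCircle.toCircle_add, fourier_apply]
        simp
    exact this Finset.univ
  have hFadd : ∀ (c : ι → ℤ) (x y : ι → T), UnitAddTorus.mFourier c (x + y) =
      UnitAddTorus.mFourier c x * UnitAddTorus.mFourier c y := by
    intro c x y
    simp only [hF, Pi.add_apply, smul_add, Finset.sum_add_distrib, AddCircle.toCircle_add,
      Circle.coe_mul]
  have hall : ∀ f, f ∈ S := by
    have h1 : Submodule.span ℂ (range (UnitAddTorus.mFourier (d := ι))) ≤ S := by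
      rw [Submodule.span_le]
      rintro _ ⟨c, rfl⟩
      show ∫ y : N, _ ∂ν = ∫ y : N, _ ∂ν
      simp only [hFadd, integral_const_mul]
      by_cases hc : ∀ y ∈ N, ∑ i, c i • y i = 0
      · rw [hF c k, hno c hc, hF c 0]
        simp
      · push Not at hc
        obtain ⟨y0, hy0, hne⟩ := hc
        have h2 := integral_add_left_eq_self (μ := ν)
          (fun y : N => UnitAddTorus.mFourier c (y : ι → T)) ⟨y0, hy0⟩
        simp only [AddSubgroup.coe_add, hFadd, integral_const_mul] at h2
        have h3 : UnitAddTorus.mFourier c y0 ≠ 1 := by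
          rw [hF]
          intro h
          apply hne
          apply AddCircle.injective_toCircle (T := 1) one_ne_zero
          rw [AddCircle.toCircle_zero]
          exact Circle.ext h
        have h4 : ∫ y : N, UnitAddTorus.mFourier c (y : ι → T) ∂ν = 0 := by
          by_contra h5
          exact h3 (mul_right_cancel₀ h5 (h2.trans (one_mul _).symm))
        rw [h4]; simp
    have h2 := Submodule.topologicalClosure_minimal _ h1 hS
    rw [UnitAddTorus.span_mFourier_closure_eq_top] at h2
    exact fun f => h2 trivial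
  obtain ⟨f, f0, f1, -⟩ := exists_continuous_zero_one_of_isClosed hN
    (hN.preimage (f := fun x => x - k) (by fun_prop)) (by
      rw [Set.disjoint_left]
      intro x hx hx'
      apply hk
      have := N.sub_mem hx hx'
      simpa using this)
  have h := hall ⟨fun x => (f x : ℂ), by fun_prop⟩
  have h' : ∫ y : N, (f (k + y) : ℂ) ∂ν = ∫ y : N, (f (0 + y) : ℂ) ∂ν := h
  have e1 : ∀ y : N, f (k + y) = 1 := fun y => f1 (by simp)
  have e0 : ∀ y : N, f (0 + y) = 0 := fun y => f0 (by simp)
  simp only [e1, e0] at h'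
  simp at h'

abbrev Om : Type := ℤ_[2]

abbrev A : Type := C(Om, T)

theorem approx (m : ℕ) (b : A) (hb : m • b = 0) (ε : ℝ) (hε : 0 < ε) :
    ∃ (n : ℕ) (j : Om → Fin n) (h : Fin n → T), Continuous j ∧ (∀ i, m • h i = 0) ∧
      ∀ x, dist (b x) (h (j x)) ≤ ε := by
  let b' : C(Om, {t : T // m • t = 0}) :=
    ⟨fun x => ⟨b x, by simpa using congrArg (fun f : A => f x) hb⟩, by fun_prop⟩
  obtain ⟨n, j, h, hj, hh⟩ := b'.exists_finite_approximation_of_mem_nhds_diagonal
    (S := {p | dist p.1 p.2 < ε}) ((isOpen_lt (by fun_prop) continuous_const).mem_nhdsSet.mpr (by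
      rintro ⟨p, q⟩ hpq
      have : p = q := hpq
      simp [this, hε]))
  exact ⟨n, j, fun i => (h i).1, hj, fun i => (h i).2, fun x => (hh x).le⟩

theorem A_div (n : ℕ) (hn : n ≠ 0) (b : A) : ∃ g : A, n • g = b := by
  obtain ⟨r, j, h, hj, -, hh⟩ := approx 0 b (by simp) (1 / 4) (by norm_num)
  choose x hx _ using fun i => exists_rep (h i)
  have hc : Continuous fun z => b z - h (j z) :=
    b.continuous.sub (continuous_of_discreteTopology.comp hj)
  have hl : Continuous fun z => ((AddCircle.equivIco 1 (-(1 / 2)) (b z - h (j z)) : ℝ)) := by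
    rw [continuous_iff_continuousAt]
    intro z
    refine continuousAt_subtype_val.comp (ContinuousAt.comp (f := fun z => b z - h (j z))
      (AddCircle.continuousAt_equivIco _ _ ?_) hc.continuousAt)
    intro he
    have h1 := hh z
    rw [dist_eq_norm, he, AddCircle.coe_neg, norm_neg, AddCircle.norm_half_period_eq] at h1
    norm_num at h1
  have hx' : Continuous fun z => x (j z) := continuous_of_discreteTopology.comp hj
  have hg : Continuous fun z =>
      (((x (j z) + (AddCircle.equivIco 1 (-(1 / 2)) (b z - h (j z)) : ℝ)) / n : ℝ) : T) :=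
    (AddCircle.continuous_mk' 1).comp ((hx'.add hl).div_const _)
  refine ⟨⟨_, hg⟩, ?_⟩
  ext z
  show n • (((x (j z) + (AddCircle.equivIco 1 (-(1 / 2)) (b z - h (j z)) : ℝ)) / n : ℝ) : T) = b z
  rw [← AddCircle.coe_nsmul, nsmul_eq_mul, mul_div_cancel₀ _ (by exact_mod_cast hn),
    AddCircle.coe_add, hx, AddCircle.coe_equivIco]
  simp

theorem A_baer : Module.Baer ℤ A := by
  classical
  letI : DivisibleBy A ℕ := divisibleByOfSMulRightSurj A ℕ fun {n} hn b => A_div n hn b
  letI : DivisibleBy A ℤ := AddGroup.divisibleByIntOfDivisibleByNat A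
  exact Module.Baer.of_divisible A

theorem ext_hom {M N D : Type*} [AddCommGroup M] [AddCommGroup N] [AddCommGroup D]
    (hD : Module.Baer ℤ D) (f : M →+ N) (g : M →+ D) (h : f.ker ≤ g.ker) :
    ∃ e : N →+ D, ∀ x, e (f x) = g x := by
  obtain ⟨e, he⟩ := hD.extension_property_addMonoidHom (QuotientAddGroup.kerLift f)
    (QuotientAddGroup.kerLift_injective f) (QuotientAddGroup.lift f.ker g h)
  exact ⟨e, fun x => DFunLike.congr_fun he (QuotientAddGroup.mk x)⟩

noncomputable instance : MeasurableSpace Om := borel _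
instance : BorelSpace Om := ⟨rfl⟩

noncomputable def nu : Measure Om := Measure.addHaarMeasure ⊤

instance : IsProbabilityMeasure nu :=
  ⟨by simpa [nu] using Measure.addHaarMeasure_self (K₀ := (⊤ : TopologicalSpace.PositiveCompacts Om))⟩

theorem nu_atom (x : Om) : nu {x} = 0 := by
  haveI : (𝓝[≠] (0 : Om)).NeBot := by
    refine mem_closure_iff_nhdsWithin_neBot.mp (mem_closure_of_tendsto (b := atTop)
      (f := fun n : ℕ => (2 : Om) ^ n) ?_ (Eventually.of_forall fun n => ?_))
    · refine tendsto_pow_atTop_nhds_zero_of_norm_lt_one ?_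
      have := PadicInt.norm_p (p := 2)
      simp only [Nat.cast_ofNat] at this
      rw [this]; norm_num
    · exact pow_ne_zero _ two_ne_zero
  haveI : nu.IsAddHaarMeasure := Measure.isAddHaarMeasure_addHaarMeasure _
  exact measure_singleton x

noncomputable def pn (f : A) : ℝ := ∫ x, ‖f x‖ ∂nu

theorem pint (f : A) : Integrable (fun x => ‖f x‖) nu :=
  Continuous.integrable_of_hasCompactSupport (by fun_prop) (HasCompactSupport.of_compactSpace _)

theorem pn_add (f g : A) : pn (f + g) ≤ pn f + pn g := by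
  rw [pn, pn, pn, ← integral_add (pint f) (pint g)]
  exact integral_mono (pint _) ((pint f).add (pint g)) fun x => norm_add_le _ _

theorem pn_neg (f : A) : pn (-f) = pn f := by simp [pn]

theorem pn_le (f : A) : pn f ≤ ‖f‖ := by
  have := integral_mono (pint f) (integrable_const ‖f‖) fun x => f.norm_coe_le_norm x
  simpa [pn] using this

theorem pn_const (c : T) : pn (ContinuousMap.const Om c) = ‖c‖ := by simp [pn]

theorem decomp (δ : ℝ) (hδ : 0 < δ) (m : ℕ) (b : A) (hb : m • b = 0) :
    ∃ (n : ℕ) (f : Fin n → A), ∑ i, f i = b ∧ (∀ i, m • f i = 0) ∧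
      ∀ i (c : ℕ), pn (c • f i) ≤ δ := by
  classical
  have h1 : ∀ x : Om, ∃ U : TopologicalSpace.Opens Om, x ∈ U ∧ nu U < ENNReal.ofReal δ := by
    intro x
    obtain ⟨U, hU1, hU2, hU3⟩ := Set.exists_isOpen_lt_of_lt (μ := nu) {x} (ENNReal.ofReal δ)
      (by rw [nu_atom]; simpa using hδ)
    exact ⟨⟨U, hU2⟩, hU1 rfl, hU3⟩
  choose U hU1 hU2 using h1
  have hc : TopologicalSpace.IsOpenCover U := by
    rw [TopologicalSpace.IsOpenCover, eq_top_iff]
    intro x _
    exact TopologicalSpace.Opens.mem_iSup.mpr ⟨x, hU1 x⟩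
  obtain ⟨n, W, hW1, hW2, hW3⟩ := hc.exists_finite_nonempty_disjoint_clopen_cover
  let f : Fin n → A := fun i => ⟨(W i : Set Om).indicator b,
    (W i).isClopen.continuous_indicator b.continuous⟩
  refine ⟨n, f, ?_, fun i => ?_, fun i c => ?_⟩
  · ext x
    obtain ⟨i, hi⟩ := mem_iUnion.mp (hW2 (mem_univ x))
    rw [ContinuousMap.sum_apply, Finset.sum_eq_single i]
    · simp [f, hi]
    · intro j _ hji
      have hd : Disjoint (W j) (W i) := hW3 hji
      have : x ∉ (W j : Set Om) := fun h => by
        have h2 : x ∈ W j ⊓ W i := ⟨h, hi⟩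
        rw [hd.eq_bot] at h2
        exact h2
      simp [f, this]
    · simp
  · ext x
    have := congrArg (fun f : A => f x) hb
    by_cases h : x ∈ (W i : Set Om)
    · simpa [f, h] using this
    · simp [f, h]
  · obtain ⟨-, y, hy⟩ := hW1 i
    have hm : MeasurableSet (W i : Set Om) := (W i).isClopen.isOpen.measurableSet
    have h2 : pn (c • f i) ≤ ∫ x, (W i : Set Om).indicator (fun _ => (1 : ℝ)) x ∂nu := by
      refine integral_mono (pint _) ((integrable_const 1).indicator hm) fun x => ?_
      by_cases h : x ∈ (W i : Set Om)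
      · simp only [indicator_of_mem h]
        exact (AddCircle.norm_le_half_period 1 one_ne_zero).trans (by norm_num)
      · simp [f, h]
    rw [integral_indicator_const _ hm, smul_eq_mul, mul_one] at h2
    exact h2.trans (ENNReal.toReal_le_of_le_ofReal hδ.le ((measure_mono hy).trans (hU2 y).le))

end Pool.Agent.Lib.helper22.Mk
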