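import Mathlib

set_option autoImplicit false

namespace Pool.Agent.Lib.helper22.NFree

structure PI {G : Type} [Lattice G] (I : Set G) : Prop where
  down : ∀ {a b}, a ≤ b → b ∈ I → a ∈ I
  sup : ∀ {a b}, a ∈ I → b ∈ I → a ⊔ b ∈ I
  prime : ∀ {a b}, a ⊓ b ∈ I → a ∈ I ∨ b ∈ I

section abel
variable {G : Type} [CommGroup G] [Lattice G] [MulLeftMono G]

def St (I : Set G) (g : G) : Prop := ∀ z ∈ I, z * g ∈ I

theorem disj (u v : G) : u / (u ⊓ v) ⊓ v / (u ⊓ v) = 1 := by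
  rw [div_eq_mul_inv, div_eq_mul_inv, ← inf_mul, mul_inv_cancel]

theorem lemA {I : Set G} (hI : PI I) {u v m : G} (h : u ⊓ v = 1) (hm : m ∈ I) (hv : m * v ∉ I) :
    St I u := by
  intro z hz
  have hw := hI.sup hz hm
  have : (z ⊔ m) * u ⊓ (z ⊔ m) * v ∈ I := by rwa [← mul_inf, h, mul_one]
  rcases hI.prime this with h1 | h1
  · exact hI.down (mul_le_mul_left le_sup_left _) h1
  · exact absurd (hI.down (mul_le_mul_left le_sup_right _) h1) hv

theorem abel {p q r s : Set G} (hp : PI p) (hq : PI q) (hr : PI r) (hs : PI s) (pr : p ⊆ r)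
    (qr : q ⊆ r) (qs : q ⊆ s) {x y z : G} (x1 : x ∈ p) (x2 : x ∉ s) (z1 : z ∈ s) (z2 : z ∉ r)
    (y1 : y ∈ q) (y2 : y ∉ p) : False := by
  have mono : ∀ {I : Set G}, PI I → ∀ {g h : G}, h ≤ g → St I g → St I h :=
    fun hI g h hg hS z hz => hI.down (mul_le_mul_right hg _) (hS z hz)
  have mul : ∀ {I : Set G} {g h : G}, St I g → St I h → St I (g * h) :=
    fun hg hh z hz => mul_assoc z _ _ ▸ hh _ (hg z hz)
  have hac := disj x z
  have mp : x ⊓ z ∈ p := hp.down inf_le_left x1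
  have ms : x ⊓ z ∈ s := hs.down inf_le_right z1
  have ma : (x ⊓ z) * (x / (x ⊓ z)) ∉ s := by rwa [mul_div_cancel]
  have mc : (x ⊓ z) * (z / (x ⊓ z)) ∉ r := by rwa [mul_div_cancel]
  generalize x / (x ⊓ z) = a at *
  generalize z / (x ⊓ z) = c at *
  generalize x ⊓ z = m at *
  have ra : St r a := lemA hr hac (pr mp) mc
  have sc : St s c := lemA hs (inf_comm a c ▸ hac) ms ma
  have pd : St p (m / (m ⊓ y)) :=
    lemA hp (disj m y) (hp.down inf_le_left mp) (by rwa [mul_div_cancel])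
  have yd : m ≤ y * (m / (m ⊓ y)) := by
    have := mul_le_mul_left (inf_le_right : m ⊓ y ≤ y) (m / (m ⊓ y))
    rwa [mul_div_cancel] at this
  generalize m / (m ⊓ y) = d at *
  have rd : St r (d / (d ⊓ c)) := lemA hr (disj d c)
    (hr.down (mul_le_mul_right inf_le_left _) (pr (pd m mp))) (by rwa [mul_assoc, mul_div_cancel])
  have sk : St s (d ⊓ c) := mono hs inf_le_right sc
  have dk : d / (d ⊓ c) * (d ⊓ c) = d := div_mul_cancel _ _
  generalize d / (d ⊓ c) = e at *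
  generalize d ⊓ c = k at *
  have h1 : y * (e * a) ∉ s := fun h => ma (hs.down (by
    rw [show y * (e * a) * k = y * (e * k) * a by ac_rfl, dk]
    exact mul_le_mul_left yd _) (sk _ h))
  have h2 : y * (k * c) ∉ r := fun h => mc (hr.down (by
    rw [show y * (k * c) * e = y * (e * k) * c by ac_rfl, dk]
    exact mul_le_mul_left yd _) (rd _ h))
  have h3 := mul rd ra
  have h4 := mul sk sc
  generalize e * a = α at *
  generalize k * c = γ at *
  have : y * (α / (α ⊓ γ)) ⊓ y * (γ / (α ⊓ γ)) ∈ q := by rwa [← mul_inf, disj, mul_one]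
  rcases hq.prime this with h | h
  · have := mono hs (inf_le_right (a := α)) h4 _ (qs h)
    rw [mul_assoc, div_mul_cancel] at this
    exact h1 this
  · have := mono hr (inf_le_left (b := γ)) h3 _ (qr h)
    rw [mul_assoc, div_mul_cancel] at this
    exact h2 this

end abel

theorem mx_mono (f g : ℚ ≃o ℚ) : StrictMono fun t => max (f t) (g t) := fun _ _ h =>
  max_lt_max (f.strictMono h) (g.strictMono h)

theorem mx_inv (f g : ℚ ≃o ℚ) (t : ℚ) :
    max (f (min (f.symm t) (g.symm t))) (g (min (f.symm t) (g.symm t))) = t := by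
  rcases le_total (f.symm t) (g.symm t) with h | h
  · rw [min_eq_left h, f.apply_symm_apply, max_eq_left (g.le_symm_apply.1 h)]
  · rw [min_eq_right h, g.apply_symm_apply, max_eq_right (f.le_symm_apply.1 h)]

def mx (f g : ℚ ≃o ℚ) : ℚ ≃o ℚ where
  toFun t := max (f t) (g t)
  invFun t := min (f.symm t) (g.symm t)
  left_inv _ := (mx_mono f g).injective (mx_inv f g _)
  right_inv := mx_inv f g
  map_rel_iff' := (mx_mono f g).le_iff_le

def aff (a : ℚ) (ha : 0 < a) (b : ℚ) : ℚ ≃o ℚ := (OrderIso.mulLeft₀ a ha).trans (OrderIso.addRight b)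

def base : Set (ℚ ≃o ℚ) := {1, aff (1 / 2) (by norm_num) 2, aff 3 (by norm_num) 6, aff 3 (by norm_num) 3}

def lev : ℕ → Set (ℚ ≃o ℚ)
  | 0 => base
  | n + 1 => lev n ∪ Set.image2 (· * ·) (lev n) (lev n) ∪ (·⁻¹) '' lev n ∪ Set.image2 mx (lev n) (lev n)

theorem lev_count (n : ℕ) : (lev n).Countable := by
  induction n with
  | zero => exact Set.Finite.countable (by simp [lev, base])
  | succ n ih => exact ((ih.union (ih.image2 ih _)).union (ih.image _)).union (ih.image2 ih _)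

theorem lev_mono : Monotone lev :=
  monotone_nat_of_le_succ fun _ _ h => Or.inl (Or.inl (Or.inl h))

theorem both {f g : ℚ ≃o ℚ} (hf : f ∈ ⋃ n, lev n) (hg : g ∈ ⋃ n, lev n) :
    ∃ n, f ∈ lev n ∧ g ∈ lev n := by
  obtain ⟨m, hm⟩ := Set.mem_iUnion.1 hf
  obtain ⟨n, hn⟩ := Set.mem_iUnion.1 hg
  exact ⟨max m n, lev_mono (le_max_left _ _) hm, lev_mono (le_max_right _ _) hn⟩

def Hs : Subgroup (ℚ ≃o ℚ) where
  carrier := ⋃ n, lev n
  mul_mem' hf hg := by
    obtain ⟨n, h1, h2⟩ := both hf hg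
    exact Set.mem_iUnion.2 ⟨n + 1, Or.inl (Or.inl (Or.inr ⟨_, h1, _, h2, rfl⟩))⟩
  one_mem' := Set.mem_iUnion.2 ⟨0, Or.inl rfl⟩
  inv_mem' hf := by
    obtain ⟨n, h1⟩ := Set.mem_iUnion.1 hf
    exact Set.mem_iUnion.2 ⟨n + 1, Or.inl (Or.inr ⟨_, h1, rfl⟩)⟩

theorem mx_mem {f g : ℚ ≃o ℚ} (hf : f ∈ Hs) (hg : g ∈ Hs) : mx f g ∈ Hs := by
  obtain ⟨n, h1, h2⟩ := both hf hg
  exact Set.mem_iUnion.2 ⟨n + 1, Or.inr ⟨_, h1, _, h2, rfl⟩⟩

def H : Type := Hs

instance : Group H := inferInstanceAs (Group Hs)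

instance : Countable H := (Set.countable_iUnion lev_count).to_subtype

instance : Lattice H where
  le f g := ∀ t, f.1 t ≤ g.1 t
  le_refl _ _ := le_rfl
  le_trans _ _ _ h1 h2 t := (h1 t).trans (h2 t)
  le_antisymm _ _ h1 h2 := Subtype.ext (OrderIso.ext (funext fun t => le_antisymm (h1 t) (h2 t)))
  sup f g := ⟨mx f.1 g.1, mx_mem f.2 g.2⟩
  le_sup_left _ _ _ := le_max_left _ _
  le_sup_right _ _ _ := le_max_right _ _
  sup_le _ _ _ h1 h2 t := max_le (h1 t) (h2 t)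
  inf f g := ⟨(mx f.1⁻¹ g.1⁻¹)⁻¹, Hs.inv_mem (mx_mem (Hs.inv_mem f.2) (Hs.inv_mem g.2))⟩
  inf_le_left _ _ _ := min_le_left _ _
  inf_le_right _ _ _ := min_le_right _ _
  le_inf _ _ _ h1 h2 t := le_min (h1 t) (h2 t)

instance : MulLeftMono H := ⟨fun f _ _ h t => f.1.monotone (h t)⟩
instance : MulRightMono H := ⟨fun f _ _ h t => h (f.1 t)⟩

theorem not_abel (G : Type) [CommGroup G] [Lattice G] [MulLeftMono G] (φ : H ≃o G) : False := by
  let I : ℚ → ℚ → Set G := fun u c => {g | (φ.symm g).1 u ≤ c}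
  have hI : ∀ u c, PI (I u c) := fun u c =>
    ⟨fun h hb => (φ.symm.monotone h u).trans hb,
     fun ha hb => by
      simp only [I, Set.mem_ofPred_eq, φ.symm.map_sup]
      exact max_le ha hb,
     fun h => by
      simp only [I, Set.mem_ofPred_eq, φ.symm.map_inf] at h
      exact min_le_iff.1 h⟩
  let x : H := ⟨aff (1 / 2) (by norm_num) 2, Set.mem_iUnion.2 ⟨0, by simp [lev, base]⟩⟩
  let z : H := ⟨aff 3 (by norm_num) 6, Set.mem_iUnion.2 ⟨0, by simp [lev, base]⟩⟩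
  let y : H := ⟨aff 3 (by norm_num) 3, Set.mem_iUnion.2 ⟨0, by simp [lev, base]⟩⟩
  refine abel (hI 0 2) (hI (-1) 0) (hI (-1) 2) (hI (-2) 0) (x := φ x) (y := φ y) (z := φ z)
    (fun g h => ((φ.symm g).1.monotone (by norm_num)).trans h)
    (fun g (h : _ ≤ (0 : ℚ)) => h.trans (zero_le_two : (0 : ℚ) ≤ 2))
    (fun g h => ((φ.symm g).1.monotone (by norm_num)).trans h) ?_ ?_ ?_ ?_ ?_ ?_ <;>
  simp only [I, Set.mem_ofPred_eq, OrderIso.symm_apply_apply, x, y, z, aff] <;> norm_num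

end Pool.Agent.Lib.helper22.NFree
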