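import Mathlib

set_option autoImplicit false

namespace H22T

open Set Filter Topology Ordinal

universe u v

/-- upper semi-continuity of a set-valued map -/
def USC {Y : Type u} {X : Type v} [TopologicalSpace Y] [TopologicalSpace X] (F : Y → Set X) :
    Prop :=
  ∀ U : Set X, IsOpen U → IsOpen {y | F y ⊆ U}

/-- every usc map from a closed set with nonempty closed values extends to the whole space -/
def SetSelfTietze (X : Type u) [TopologicalSpace X] : Prop :=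
  ∀ A : Set X, IsClosed A → ∀ f : A → Set X, (∀ a, (f a).Nonempty ∧ IsClosed (f a)) → USC f →
    ∃ F : X → Set X, (∀ x, (F x).Nonempty ∧ IsClosed (F x)) ∧ USC F ∧ ∀ a : A, F a = f a

/-- the Tychonoff plank `[0,ω₁] × [0,ω]` -/
abbrev Plank : Type 1 := Icc (0 : Ordinal.{0}) ω₁ × Icc (0 : Ordinal.{0}) ω

theorem sep {X : Type u} [TopologicalSpace X] [T2Space X] (h : SetSelfTietze X) {p q : X}
    (hpq : p ≠ q) {B C : Set X} (hB : IsClosed B) (hC : IsClosed C) :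
    ∃ U V : Set X, IsOpen U ∧ IsOpen V ∧ B \ C ⊆ U ∧ C \ B ⊆ V ∧ Disjoint U V := by
  obtain ⟨F, h1, h2, h3⟩ := h (B ∪ C) (hB.union hC)
    (fun a => {x | (a.1 ∈ B ∧ x = p) ∨ (a.1 ∈ C ∧ x = q)}) (by
      rintro ⟨a, ha⟩
      refine ⟨?_, (((finite_singleton q).insert p).subset ?_).isClosed⟩
      · rcases ha with ha | ha
        · exact ⟨p, Or.inl ⟨ha, rfl⟩⟩
        · exact ⟨q, Or.inr ⟨ha, rfl⟩⟩
      · rintro x (hx | hx)
        · exact Or.inl hx.2
        · exact Or.inr hx.2) (by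
      intro U _
      have : {a : ↥(B ∪ C) | {x | (a.1 ∈ B ∧ x = p) ∨ (a.1 ∈ C ∧ x = q)} ⊆ U} =
          Subtype.val ⁻¹' ((Bᶜ ∪ {_x | p ∈ U}) ∩ (Cᶜ ∪ {_x | q ∈ U})) := by
        ext a
        constructor
        · intro ha
          refine ⟨?_, ?_⟩
          · by_cases hb : a.1 ∈ B
            · exact Or.inr (ha (Or.inl ⟨hb, rfl⟩))
            · exact Or.inl hb
          · by_cases hb : a.1 ∈ C
            · exact Or.inr (ha (Or.inr ⟨hb, rfl⟩))
            · exact Or.inl hb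
        · rintro ⟨k1, k2⟩ x (⟨hx, rfl⟩ | ⟨hx, rfl⟩)
          · exact k1.resolve_left fun h => h hx
          · exact k2.resolve_left fun h => h hx
      rw [this]
      exact ((hB.isOpen_compl.union isOpen_const).inter
        (hC.isOpen_compl.union isOpen_const)).preimage continuous_subtype_val)
  obtain ⟨P, Q, hP, hQ, hp, hq, hd⟩ := t2_separation hpq
  refine ⟨_, _, h2 P hP, h2 Q hQ, fun a ha => ?_, fun a ha => ?_, ?_⟩
  · show F a ⊆ P
    rw [h3 ⟨a, Or.inl ha.1⟩]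
    rintro x (hx | hx)
    · exact hx.2 ▸ hp
    · exact absurd hx.1 ha.2
  · show F a ⊆ Q
    rw [h3 ⟨a, Or.inr ha.1⟩]
    rintro x (hx | hx)
    · exact absurd hx.1 ha.2
    · exact hx.2 ▸ hq
  · rw [Set.disjoint_left]
    intro a ha hb
    obtain ⟨x, hx⟩ := (h1 a).1
    exact Set.disjoint_left.1 hd (ha hx) (hb hx)

theorem not_plank : ¬ SetSelfTietze Plank := by
  intro h
  let t1 : Icc (0 : Ordinal.{0}) ω₁ := ⟨ω₁, zero_le, le_rfl⟩
  let z1 : Icc (0 : Ordinal.{0}) ω₁ := ⟨0, le_rfl, zero_le⟩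
  let t0 : Icc (0 : Ordinal.{0}) ω := ⟨ω, zero_le, le_rfl⟩
  let nn : ℕ → Icc (0 : Ordinal.{0}) ω := fun n => ⟨n, zero_le, (natCast_lt_omega0 n).le⟩
  have hz : z1 < t1 := omega_pos 1
  have hn : ∀ n, nn n < t0 := fun n => natCast_lt_omega0 n
  obtain ⟨U, V, hU, hV, h1, h2, hd⟩ := sep h (p := (z1, t0)) (q := (t1, t0))
    (fun he => hz.ne (congrArg Prod.fst he)) (B := Prod.fst ⁻¹' {t1}) (C := Prod.snd ⁻¹' {t0})
    (isClosed_singleton.preimage continuous_fst) (isClosed_singleton.preimage continuous_snd)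
  have a1 : ∀ n, ∃ l < t1, Ioc l t1 ⊆ (fun x => (x, nn n)) ⁻¹' U := fun n =>
    exists_Ioc_subset_of_mem_nhds ((hU.preimage (Continuous.prodMk_left _)).mem_nhds
      (h1 ⟨rfl, (hn n).ne⟩)) ⟨z1, hz⟩
  choose l hl hl' using a1
  have a2 : ⨆ n, (l n).1 < ω₁ := iSup_lt_omega_one hl
  have a3 : Order.succ (⨆ n, (l n).1) < ω₁ := (Cardinal.isSuccLimit_omega 1).succ_lt a2
  let α : Icc (0 : Ordinal.{0}) ω₁ := ⟨Order.succ (⨆ n, (l n).1), zero_le, a3.le⟩
  have a4 : α < t1 := a3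
  obtain ⟨m, hm, hm'⟩ := exists_Ioc_subset_of_mem_nhds
    ((hV.preimage (Continuous.prodMk_right α)).mem_nhds
      (h2 (show (α, t0) ∈ Prod.snd ⁻¹' {t0} \ Prod.fst ⁻¹' {t1} from ⟨rfl, a4.ne⟩))) ⟨nn 0, hn 0⟩
  obtain ⟨k, hk⟩ := lt_omega0.1 (show m.1 < ω from hm)
  refine Set.disjoint_left.1 hd (hl' (k + 1) ⟨?_, a4.le⟩) (hm' ⟨?_, (hn _).le⟩)
  · exact Order.lt_succ_of_le (Ordinal.le_iSup (fun n => (l n).1) (k + 1))
  · show m.1 < ((k + 1 : ℕ) : Ordinal)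
    rw [hk]
    exact_mod_cast Nat.lt_succ_self k

end H22T
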