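import Mathlib

set_option autoImplicit false

namespace H22P

open Set Filter Topology TopologicalSpace

/-- the moves of a player in rounds `0, …, n - 1`, the latest first -/
def hist {α : Type} (U : ℕ → α) : ℕ → List α
  | 0 => []
  | n + 1 => U n :: hist U n

/-- a move of Alice: a set `Y` and an assignment `x ↦ V x` -/
abbrev Move (X : Type) : Type := Set X × (X → Set X)

section Defs

variable {X : Type} [TopologicalSpace X]

/-- the part of `X` not yet covered before round `n` -/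
def rest (a : ℕ → Move X) (D : ℕ → Set X) (n : ℕ) : Set X :=
  (⋃ k < n, ⋃ x ∈ D k, (a k).2 x)ᶜ

/-- Alice's move in round `n` is legal -/
def LegalA (a : ℕ → Move X) (D : ℕ → Set X) (n : ℕ) : Prop :=
  (∀ x ∈ (a n).1, IsOpen ((a n).2 x) ∧ x ∈ (a n).2 x) ∧ (a n).1 ⊆ rest a D n ∧
    rest a D n ⊆ ⋃ x ∈ (a n).1, (a n).2 x

/-- Bob's move in round `n` is legal -/
def LegalB (a : ℕ → Move X) (D : ℕ → Set X) (n : ℕ) : Prop :=
  D n ⊆ (a n).1 ∧ IsClosed (D n) ∧ IsDiscrete (D n)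

/-- Bob's choices cover the space -/
def Covers (a : ℕ → Move X) (D : ℕ → Set X) : Prop :=
  ⋃ n, ⋃ x ∈ D n, (a n).2 x = univ

end Defs

/-- Bob has a winning strategy in PONAG -/
def BobWins (X : Type) [TopologicalSpace X] : Prop :=
  ∃ σ : List (Move X) → Set X, ∀ (a : ℕ → Move X) (D : ℕ → Set X),
    (∀ n, D n = σ (hist a (n + 1))) →
      (∀ n, (∀ k ≤ n, LegalA a D k) → LegalB a D n) ∧ ((∀ n, LegalA a D n) → Covers a D)

/-- Alice has a winning strategy in PONAG -/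
def AliceWins (X : Type) [TopologicalSpace X] : Prop :=
  ∃ τ : List (Set X) → Move X, ∀ (a : ℕ → Move X) (D : ℕ → Set X),
    (∀ n, a n = τ (hist D n)) →
      (∀ n, (∀ k < n, LegalB a D k) → LegalA a D n) ∧ ((∀ n, LegalB a D n) → ¬ Covers a D)

/-- every base has a locally finite subfamily that covers -/
def TotallyParacompact (X : Type) [TopologicalSpace X] : Prop :=
  ∀ B : Set (Set X), IsTopologicalBasis B →
    ∃ C ⊆ B, ⋃₀ C = univ ∧ LocallyFinite fun U : C => (U : Set X)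

theorem not_alice {X : Type} [TopologicalSpace X] (h : BobWins X) : ¬ AliceWins X := by
  obtain ⟨σ, hσ⟩ := h
  rintro ⟨τ, hτ⟩
  let s : ℕ → List (Move X) × List (Set X) := fun n =>
    Nat.rec ([], []) (fun _ p => (τ p.2 :: p.1, σ (τ p.2 :: p.1) :: p.2)) n
  let a : ℕ → Move X := fun n => τ (s n).2
  let D : ℕ → Set X := fun n => σ (a n :: (s n).1)
  have e : ∀ n, hist a n = (s n).1 ∧ hist D n = (s n).2 := by
    intro n
    induction n with
    | zero => exact ⟨rfl, rfl⟩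
    | succ n ih => simp only [hist, ih.1, ih.2]; exact ⟨rfl, rfl⟩
  obtain ⟨h1, h2⟩ := hσ a D fun n => by simp only [hist, (e n).1]; rfl
  obtain ⟨h3, h4⟩ := hτ a D fun n => by rw [(e n).2]
  have hB : ∀ n, LegalB a D n := by
    intro n
    induction n using Nat.strong_induction_on with
    | _ n ih => exact h1 n fun k hk => h3 k fun j hj => ih j (hj.trans_le hk)
  exact h4 hB (h2 fun n => h3 n fun k _ => hB k)

theorem discrete_of {X : Type} [TopologicalSpace X] {D : Set X}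
    (h : ∀ E ⊆ D, IsClosed E) : IsDiscrete D := by
  refine ⟨discreteTopology_iff_forall_isClosed.2 fun s => ?_⟩
  have := (h (Subtype.val '' s) (by rintro _ ⟨x, -, rfl⟩; exact x.2)).preimage
    (continuous_subtype_val (p := (· ∈ D)))
  rwa [preimage_image_eq _ Subtype.val_injective] at this

abbrev N : Type := ℕ → Bool
abbrev K : Type := Set N
abbrev T : Type := ℕ × Finset ℕ

theorem pair_surj : ∃ e : N → N × N, Function.Surjective e := by
  refine ⟨fun x => (fun i => x (2 * i), fun i => x (2 * i + 1)), fun p =>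
    ⟨fun i => if i % 2 = 0 then p.1 (i / 2) else p.2 (i / 2), ?_⟩⟩
  ext i
  · simp
  · have h1 : (2 * i + 1) % 2 = 1 := by omega
    have h2 : (2 * i + 1) / 2 = i := by omega
    simp [h1, h2]

def Big (S : Set K) : Prop := ∃ f : N → K, (range f)ᶜ ⊆ S

theorem big_inter {S : N → Set K} (h : ∀ x, Big (S x)) : Big (⋂ x, S x) := by
  choose f hf using h
  obtain ⟨e, he⟩ := pair_surj
  refine ⟨fun z => f (e z).1 (e z).2, fun ξ hξ => mem_iInter.2 fun x => hf x ?_⟩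
  rintro ⟨y, rfl⟩
  obtain ⟨z, hz⟩ := he (x, y)
  exact hξ ⟨z, by simp [hz]⟩

theorem big_ne {S : Set K} (h : Big S) : S.Nonempty := by
  obtain ⟨f, hf⟩ := h
  by_contra hne
  apply Function.cantor_surjective f
  intro ξ
  by_contra hξ
  exact hne ⟨ξ, hf hξ⟩

def G : Filter K where
  sets := {S | Big S}
  univ_sets := ⟨fun _ => ∅, subset_univ _⟩
  sets_of_superset := fun ⟨f, hf⟩ h => ⟨f, hf.trans h⟩
  inter_sets := by
    intro S S' h h'
    obtain ⟨f, hf⟩ := big_inter (S := fun x => if x 0 = true then S else S') fun x => by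
      split_ifs
      · exact h
      · exact h'
    refine ⟨f, fun ξ hξ => ⟨?_, ?_⟩⟩
    · simpa using mem_iInter.1 (hf hξ) fun _ => true
    · simpa using mem_iInter.1 (hf hξ) fun _ => false

def res (x : N) (n : ℕ) : T := (n, (Finset.range n).filter fun i => x i = true)

theorem res_ne {x y : N} (h : x ≠ y) : ∀ᶠ n in atTop, ∀ m, res x n ≠ res y m := by
  obtain ⟨i, hi⟩ := Function.ne_iff.1 h
  filter_upwards [eventually_gt_atTop i] with n hn m he
  obtain ⟨rfl, h2⟩ := Prod.mk.inj he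
  have := Finset.ext_iff.1 h2 i
  simp only [Finset.mem_filter, Finset.mem_range, hn, true_and] at this
  exact hi (Bool.eq_iff_iff.2 this)

def X : Type := N ⊕ (T × K)

def l (x : N) : X := Sum.inl x
def r (t : T) (ξ : K) : X := Sum.inr (t, ξ)

theorem l_ne_r (x : N) (t : T) (ξ : K) : l x ≠ r t ξ := Sum.inl_ne_inr
theorem l_inj {x y : N} (h : l x = l y) : x = y := Sum.inl.inj h
theorem r_inj {t t' : T} {ξ ξ' : K} (h : r t ξ = r t' ξ') : t = t' ∧ ξ = ξ' :=
  Prod.mk.inj (Sum.inr.inj h)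
theorem casesX (z : X) : (∃ x, z = l x) ∨ ∃ t ξ, z = r t ξ := by
  rcases z with x | ⟨t, ξ⟩
  · exact Or.inl ⟨x, rfl⟩
  · exact Or.inr ⟨t, ξ, rfl⟩

instance : TopologicalSpace X where
  IsOpen U := ∀ x, l x ∈ U → ∀ᶠ p : ℕ × K in atTop ×ˢ G, r (res x p.1) p.2 ∈ U
  isOpen_univ := fun _ _ => Eventually.of_forall fun _ => mem_univ _
  isOpen_inter := fun _ _ hU hV x h => (hU x h.1).and (hV x h.2)
  isOpen_sUnion := by
    rintro S hS x ⟨U, hU, h⟩
    exact (hS U hU x h).mono fun p hp => ⟨U, hU, hp⟩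

theorem open_iff (U : Set X) :
    IsOpen U ↔ ∀ x, l x ∈ U → ∀ᶠ p : ℕ × K in atTop ×ˢ G, r (res x p.1) p.2 ∈ U := Iff.rfl

theorem closed_small {D : Set X} (f : N → K) (h : ∀ t ξ, r t ξ ∈ D → ξ ∈ range f) :
    IsClosed D := by
  refine ⟨fun x _ => ?_⟩
  have : ∀ᶠ ξ in G, ξ ∉ range f := ⟨f, Subset.rfl⟩
  exact (tendsto_snd.eventually this).mono fun p hp hD => hp (h _ _ hD)

theorem open_r (t : T) (ξ : K) : IsOpen ({r t ξ} : Set X) :=
  fun _ hx => absurd (mem_singleton_iff.1 hx) (l_ne_r _ _ _)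

instance : T1Space X := by
  refine ⟨fun z => ?_⟩
  rcases casesX z with ⟨x, rfl⟩ | ⟨t, ξ, rfl⟩
  · exact closed_small (fun _ => ∅) fun t ξ h => absurd (mem_singleton_iff.1 h).symm (l_ne_r _ _ _)
  · exact closed_small (fun _ => ξ) fun t' ξ' h => ⟨fun _ => true, (r_inj h).2.symm⟩

/-- a clopen neighbourhood of `l x` inside an open set -/
theorem exists_clopen {U : Set X} (hU : IsOpen U) {x : N} (hx : l x ∈ U) :
    ∃ V, IsClopen V ∧ l x ∈ V ∧ V ⊆ U ∧ ∀ y, l y ∈ V → y = x := by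
  let V : Set X := {z | z ∈ U ∧ (z = l x ∨ ∃ n ξ, z = r (res x n) ξ)}
  have h1 : ∀ y, l y ∈ V → y = x := by
    rintro y ⟨-, h | ⟨n, ξ, h⟩⟩
    · exact l_inj h
    · exact absurd h (l_ne_r _ _ _)
  refine ⟨V, ⟨⟨fun y hy => ?_⟩, fun y hy => ?_⟩, ⟨hx, Or.inl rfl⟩, fun z hz => hz.1, h1⟩
  · have hne : y ≠ x := by
      rintro rfl
      exact hy ⟨hx, Or.inl rfl⟩
    refine (tendsto_fst.eventually (res_ne hne)).mono ?_
    rintro p hp ⟨-, h | ⟨n, ξ, h⟩⟩
    · exact l_ne_r _ _ _ h.symm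
    · exact hp n (r_inj h).1
  · obtain rfl := h1 y hy
    exact (hU y hx).mono fun p hp => ⟨hp, Or.inr ⟨_, _, rfl⟩⟩

instance : RegularSpace X := by
  refine RegularSpace.of_exists_mem_nhds_isClosed_subset fun z s hs => ?_
  obtain ⟨U, h1, h2, h3⟩ := mem_nhds_iff.1 hs
  rcases casesX z with ⟨x, rfl⟩ | ⟨t, ξ, rfl⟩
  · obtain ⟨V, hV, h4, h5, -⟩ := exists_clopen h2 h3
    exact ⟨V, hV.isOpen.mem_nhds h4, hV.isClosed, h5.trans h1⟩
  · exact ⟨_, (open_r t ξ).mem_nhds rfl, isClosed_singleton, singleton_subset_iff.2 (h1 h3)⟩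

instance : T3Space X := {}

instance : Infinite X := Infinite.of_injective (fun n : ℕ => r (n, ∅) ∅) fun _ _ h =>
  (Prod.mk.inj (r_inj h).1).1

theorem bob : BobWins X := by
  classical
  have : ∀ (m : Move X) (x : N), ∃ y, l x ∈ ⋃ y ∈ m.1, m.2 y → y ∈ m.1 ∧ l x ∈ m.2 y := by
    intro m x
    by_cases h : l x ∈ ⋃ y ∈ m.1, m.2 y
    · obtain ⟨y, h1, h2⟩ := mem_iUnion₂.1 h
      exact ⟨y, fun _ => ⟨h1, h2⟩⟩
    · exact ⟨l x, fun h' => absurd h' h⟩
  choose y hy using this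
  let σ : List (Move X) → Set X := fun L =>
    match L with
    | [] => ∅
    | [m] => range (y m)
    | m :: _ :: _ => m.1
  refine ⟨σ, fun a D hD => ?_⟩
  have h0 : D 0 = range (y (a 0)) := hD 0
  have hs : ∀ n, D (n + 1) = (a (n + 1)).1 := fun n => hD (n + 1)
  have hy0 : LegalA a D 0 → ∀ x, y (a 0) x ∈ (a 0).1 ∧ l x ∈ (a 0).2 (y (a 0) x) :=
    fun h x => hy _ _ (h.2.2 (by simp [rest]))
  refine ⟨fun n hn => ?_, fun h => ?_⟩
  · have hA := hn 0 (Nat.zero_le _)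
    suffices hc : D n ⊆ (a n).1 ∧ ∀ E ⊆ D n, IsClosed E from
      ⟨hc.1, hc.2 _ Subset.rfl, discrete_of hc.2⟩
    rcases n with _ | n
    · rw [h0]
      refine ⟨by rintro _ ⟨x, rfl⟩; exact (hy0 hA x).1, fun E hE => ?_⟩
      refine closed_small (fun x => Sum.elim (fun _ => ∅) (fun p : T × K => p.2) (y (a 0) x))
        fun t ξ h => ?_
      obtain ⟨x, hx⟩ := hE h
      exact ⟨x, by simp only [hx]; rfl⟩
    · rw [hs]
      refine ⟨Subset.rfl, fun E hE => ⟨fun x _ => ?_⟩⟩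
      refine ((hA.1 _ (hy0 hA x).1).1 x (hy0 hA x).2).mono fun p hp hpE => ?_
      apply (hn (n + 1) le_rfl).2.1 (hE hpE)
      exact mem_iUnion₂.2 ⟨0, Nat.succ_pos n, mem_iUnion₂.2 ⟨_, h0 ▸ ⟨x, rfl⟩, hp⟩⟩
  · rw [Covers, eq_univ_iff_forall]
    intro z
    by_cases hz : z ∈ rest a D 1
    · exact mem_iUnion.2 ⟨1, by rw [hs 0]; exact (h 1).2.2 hz⟩
    · obtain ⟨k, -, hk⟩ := mem_iUnion₂.1 (not_not.1 hz)
      exact mem_iUnion.2 ⟨k, hk⟩

theorem not_tp : ¬ TotallyParacompact X := by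
  intro H
  obtain ⟨C, hC, hcov, hlf⟩ := H {U | IsOpen U ∧ ∀ x y, l x ∈ U → l y ∈ U → x = y} (by
    refine isTopologicalBasis_of_isOpen_of_nhds (fun U hU => hU.1) fun z U hz hU => ?_
    rcases casesX z with ⟨x, rfl⟩ | ⟨t, ξ, rfl⟩
    · obtain ⟨V, hV, h4, h5, h6⟩ := exists_clopen hU hz
      exact ⟨V, ⟨hV.isOpen, fun a b ha hb => (h6 a ha).trans (h6 b hb).symm⟩, h4, h5⟩
    · exact ⟨_, ⟨open_r t ξ, fun a b ha => absurd (mem_singleton_iff.1 ha) (l_ne_r _ _ _)⟩, rfl,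
        singleton_subset_iff.2 hz⟩)
  have h1 : ∀ x : N, ∃ (U : C) (n : ℕ) (S : Set K), l x ∈ (U : Set X) ∧ Big S ∧
      ∀ ξ ∈ S, r (res x n) ξ ∈ (U : Set X) := by
    intro x
    obtain ⟨U, hU, hx⟩ : l x ∈ ⋃₀ C := hcov ▸ mem_univ _
    obtain ⟨pa, ha, pb, hb, hab⟩ := eventually_prod_iff.1 ((hC hU).1 x hx)
    obtain ⟨n, hn⟩ := ha.exists
    exact ⟨⟨U, hU⟩, n, {ξ | pb ξ}, hx, hb, fun ξ hξ => hab hn hξ⟩
  choose U n S hU hS hr using h1
  obtain ⟨ξ, hξ⟩ := big_ne (big_inter hS)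
  have hinj : Function.Injective U := fun x y h => (hC (U y).2).2 x y (h ▸ hU x) (hU y)
  have hfin : ∀ t : T, {x | res x (n x) = t}.Finite := by
    intro t
    refine ((hlf.point_finite (r t ξ)).preimage hinj.injOn).subset ?_
    rintro x rfl
    exact hr x ξ (mem_iInter.1 hξ x)
  have hc : (univ : Set N).Countable :=
    (countable_iUnion fun t => (hfin t).countable).mono fun x _ =>
      mem_iUnion.2 ⟨res x (n x), rfl⟩
  have : Countable N := countable_univ_iff.1 hc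
  have h2 : Cardinal.mk N ≤ Cardinal.aleph0 := Cardinal.mk_le_aleph0
  simp only [Cardinal.mk_pi, Cardinal.prod_const, Cardinal.mk_bool, Cardinal.mk_nat] at h2
  simp at h2
  exact absurd h2 (not_le.2 Cardinal.aleph0_lt_continuum)

end H22P
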