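import Mathlib

namespace Pool.Agent.Lib.helper22.Pyth

open Polynomial

abbrev B := Polynomial GaussianInt

def chi : GaussianInt →+* ZMod 2 := Zsqrtd.lift ⟨1, by decide⟩

lemma chi_apply (z : GaussianInt) : chi z = z.re + z.im := by simp [chi]

noncomputable def psi : B →+* ZMod 2 := chi.comp constantCoeff

noncomputable def m : Ideal B := RingHom.ker psi

instance m_max : m.IsMaximal :=
  RingHom.ker_isMaximal_of_surjective psi fun x => ⟨(x.val : B), by simp⟩

lemma mem_m (f : B) : f ∈ m ↔ (2 : ℤ) ∣ (f.coeff 0).re + (f.coeff 0).im := by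
  rw [m, RingHom.mem_ker, psi, RingHom.comp_apply, chi_apply, constantCoeff_apply, ← Int.cast_add]
  exact ZMod.intCast_zmod_eq_zero_iff_dvd _ 2

lemma m_eq : m = Ideal.span {C (⟨1, 1⟩ : GaussianInt), X} := by
  apply le_antisymm
  · intro f hf
    obtain ⟨k, hk⟩ := (mem_m f).mp hf
    refine Ideal.mem_span_pair.mpr ⟨C ⟨k, (f.coeff 0).im - k⟩, f.divX, ?_⟩
    rw [← C_mul, add_comm]
    conv_rhs => rw [← divX_mul_X_add f]
    congr 2
    ext <;> simp <;> omega
  · rw [Ideal.span_le]
    rintro f (rfl | rfl) <;> simp [mem_m]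

lemma height_m : m.height = 2 := by
  apply le_antisymm
  · have := Ideal.height_le_card_of_mem_minimalPrimes_span_finset (p := m)
      (s := {C (⟨1, 1⟩ : GaussianInt), X}) (by
        rw [Finset.coe_pair, ← m_eq, Ideal.minimalPrimes_eq_subsingleton_self]; rfl)
    exact this.trans (by exact_mod_cast Finset.card_le_two)
  · haveI : (Ideal.span {X} : Ideal B).IsPrime :=
      (Ideal.span_singleton_prime X_ne_zero).mpr prime_X
    have h1 : (⊥ : Ideal B) < Ideal.span {X} := by simp [bot_lt_iff_ne_bot]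
    have h2 : Ideal.span {X} < m := by
      refine lt_of_le_of_ne (by rw [m_eq]; exact Ideal.span_mono (by simp)) fun e => ?_
      have : C (⟨1, 1⟩ : GaussianInt) ∈ Ideal.span {X} := by rw [e]; simp [mem_m]
      rw [Ideal.mem_span_singleton, X_dvd_iff, coeff_C_zero] at this
      exact absurd this (by decide)
    have h3 := Ideal.height_add_one_le_of_lt_of_isPrime h1
    have h4 := Ideal.height_add_one_le_of_lt_of_isPrime h2
    rw [Ideal.height_bot, zero_add] at h3
    exact le_trans (by rw [← one_add_one_eq_two]; gcongr) h4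

lemma arith (p q a b c d : ℤ) (h0 : ¬ (2 : ℤ) ∣ p + q)
    (h : (⟨p, q⟩ : GaussianInt) ^ 2 * ⟨2, 2⟩ = ⟨a, b⟩ ^ 2 + ⟨c, d⟩ ^ 2) : False := by
  have h1 := congrArg Zsqrtd.re h
  have h2 := congrArg Zsqrtd.im h
  simp only [sq, Zsqrtd.re_mul, Zsqrtd.im_mul, Zsqrtd.re_add, Zsqrtd.im_add] at h1 h2
  have h3 : a * b + c * d = p * p - q * q + 2 * p * q := by linarith
  have h4 : a * a - b * b + c * c - d * d = 2 * (p * p - q * q) - 4 * p * q := by linarith
  have key : ∀ p q a b c d : ZMod 4, a * b + c * d = p * p - q * q + 2 * p * q →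
      a * a - b * b + c * c - d * d = 2 * (p * p - q * q) - 4 * p * q → 2 * (p + q) = 0 := by
    decide +kernel
  have h5 := key p q a b c d (by exact_mod_cast congrArg (Int.cast : ℤ → ZMod 4) h3)
    (by exact_mod_cast congrArg (Int.cast : ℤ → ZMod 4) h4)
  have h6 : ((2 * (p + q) : ℤ) : ZMod 4) = 0 := by exact_mod_cast h5
  have := (ZMod.intCast_zmod_eq_zero_iff_dvd _ 4).mp h6
  omega

abbrev R := Localization.AtPrime m

lemma notsq (f g : R) : algebraMap B R (C ⟨2, 2⟩) ≠ f ^ 2 + g ^ 2 := by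
  intro h
  obtain ⟨a, b, s, h1, h2⟩ := IsLocalization.surj₂ m.primeCompl R f g
  have hinj : Function.Injective (algebraMap B R) :=
    IsLocalization.injective R m.primeCompl_le_nonZeroDivisors
  have h3 : (s : B) ^ 2 * C ⟨2, 2⟩ = a ^ 2 + b ^ 2 := by
    apply hinj
    simp only [map_mul, map_pow, map_add]
    rw [h, ← h1, ← h2]; ring
  have h4 := congrArg constantCoeff h3
  simp only [map_mul, map_pow, map_add, constantCoeff_apply, coeff_C_zero] at h4
  exact arith _ _ _ _ _ _ (fun e => s.2 ((mem_m _).mpr e)) h4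

lemma sumsq : IsSumSq (algebraMap B R (C ⟨2, 2⟩)) := by
  have : algebraMap B R (C ⟨2, 2⟩) = algebraMap B R (C ⟨1, 1⟩) * algebraMap B R (C ⟨1, 1⟩) +
      (1 * 1 + (1 * 1 + 0)) := by
    rw [← map_mul, ← C_mul, show (⟨2, 2⟩ : GaussianInt) = ⟨1, 1⟩ * ⟨1, 1⟩ + 1 + 1 by decide]
    simp only [map_add, map_one]; ring
  rw [this]
  exact .sq_add _ (.sq_add _ (.sq_add _ .zero))

lemma emb : ∃ φ : GaussianInt →+* R, Function.Injective φ :=
  ⟨(algebraMap B R).comp C,
    (IsLocalization.injective R m.primeCompl_le_nonZeroDivisors).comp C_injective⟩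

lemma two {S : Type} [CommRing S] [IsDomain S] (ψ : GaussianInt →+* S)
    (hinj : Function.Injective ψ) (x : FractionRing S) :
    ∃ f : Fin 2 → FractionRing S, x = ∑ i, f i ^ 2 := by
  set φ : GaussianInt →+* FractionRing S := (algebraMap S (FractionRing S)).comp ψ with hφ
  have h1 : Function.Injective φ := (IsFractionRing.injective S (FractionRing S)).comp hinj
  have h2 : (2 : FractionRing S) ≠ 0 := fun e => by
    have : φ 2 = φ 0 := by rw [map_ofNat, map_zero, e]
    exact absurd (h1 this) (by decide)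
  have h3 : φ ⟨0, 1⟩ ^ 2 = -1 := by
    rw [← map_pow, show (⟨0, 1⟩ : GaussianInt) ^ 2 = -1 by decide, map_neg, map_one]
  refine ⟨![(x + 1) / 2, φ ⟨0, 1⟩ * ((x - 1) / 2)], ?_⟩
  simp only [Fin.sum_univ_two, Matrix.cons_val_zero, Matrix.cons_val_one, mul_pow, h3]
  field_simp
  ring

lemma dim : ringKrullDim R = 2 := by
  rw [IsLocalization.AtPrime.ringKrullDim_eq_height m R, height_m]; rfl

lemma gens : ∃ a b : R, IsLocalRing.maximalIdeal R = Ideal.span {a, b} := by
  refine ⟨algebraMap B R (C ⟨1, 1⟩), algebraMap B R X, ?_⟩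
  rw [← Localization.AtPrime.map_eq_maximalIdeal, ← Set.image_pair, ← Ideal.map_span, ← m_eq]

end Pool.Agent.Lib.helper22.Pyth
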