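import Mathlib
import Pool.Agent.Lib.helper22.RayA

set_option autoImplicit false

namespace Pool.Agent.Lib.helper22.Ray

open Set Filter Topology

universe u v

variable {T : Type u} [PartialOrder T] {e : Prop}

lemma IsOrderTree.ht_lt (h : IsOrderTree T) {a b : T} (hab : a < b) : h.ht a < h.ht b :=
  @IsWellFounded.rank_lt_of_rel T a b _ h.wf hab

lemma IsOrderTree.ht_le (h : IsOrderTree T) {a b : T} (hab : a ≤ b) : h.ht a ≤ h.ht b := by
  rcases eq_or_lt_of_le hab with rfl | h1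
  · exact le_rfl
  · exact (h.ht_lt h1).le

lemma IsOrderTree.ht_eq (h : IsOrderTree T) (a : T) :
    h.ht a = ⨆ b : {b // b < a}, Order.succ (h.ht b) :=
  @IsWellFounded.rank_eq T _ h.wf a

lemma IsOrderTree.pred (h : IsOrderTree T) (c : T) : ∀ o ≤ h.ht c, ∃ p ≤ c, h.ht p = o := by
  induction c using h.wf.wf.induction with
  | _ c ih =>
    intro o ho
    rcases eq_or_lt_of_le ho with rfl | h1
    · exact ⟨c, le_rfl, rfl⟩
    · rw [h.ht_eq, Ordinal.lt_iSup_iff] at h1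
      obtain ⟨b, hb⟩ := h1
      obtain ⟨p, hp, hp'⟩ := ih b.1 b.2 o (Order.lt_succ_iff.1 hb)
      exact ⟨p, hp.trans b.2.le, hp'⟩

lemma chain_Iic (h : IsOrderTree T) (t : T) : IsChain (· ≤ ·) (Iic t) :=
  fun _ ha _ hb _ => h.comp ha hb

lemma low_countable {h : IsOrderTree T} (hA : Aronszajn h) (b : T) :
    {t | h.ht t ≤ h.ht b}.Countable := by
  refine ((hA.2.2.2 _ (chain_Iic h b)).biUnion fun p _ => hA.2.2.1 (h.ht p)).mono ?_
  intro t ht
  obtain ⟨p, hp, hp'⟩ := h.pred b _ ht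
  exact mem_biUnion hp hp'.symm

lemma uncountable {h : IsOrderTree T} (hA : Aronszajn h) : ¬ (univ : Set T).Countable := by
  intro hc
  have : (Iio (Ordinal.omega.{u} 1)).Countable :=
    (hc.image h.ht).mono fun o ho => by
      obtain ⟨t, ht⟩ := hA.2.1 o ho
      exact ⟨t, trivial, ht⟩
  rw [← Cardinal.le_aleph0_iff_set_countable, Cardinal.mk_Iio_ordinal] at this
  simp at this

lemma split {h : IsOrderTree T} (hA : Aronszajn h) (B : Set T) (s b : T)
    (hs : ¬ {c ∈ B | s ≤ c}.Countable) :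
    ∃ s', s < s' ∧ ¬ {c ∈ B | s' ≤ c}.Countable ∧ ¬ s' ≤ b := by
  obtain ⟨c0, -, hc0⟩ : ∃ c0 ∈ {c ∈ B | s ≤ c},
      c0 ∉ {t | h.ht t ≤ h.ht b} ∪ {t | h.ht t ≤ h.ht s} := by
    by_contra hne
    push Not at hne
    exact hs (((low_countable hA b).union (low_countable hA s)).mono hne)
  simp only [mem_union, mem_ofPred_eq, not_or, not_le] at hc0
  by_contra hne
  push Not at hne
  refine hs (((low_countable hA c0).union (((hA.2.2.1 (h.ht c0)).mono
    (inter_subset_left (t := Ioi s))).biUnion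
      (t := fun p _ => {c ∈ B | p ≤ c}) fun p hp => ?_)).mono ?_)
  · by_contra h1
    have := h.ht_le (hne p hp.2 h1)
    rw [show h.ht p = h.ht c0 from hp.1] at this
    exact absurd hc0.1 (not_lt.2 this)
  · intro c hc
    by_cases h1 : h.ht c ≤ h.ht c0
    · exact Or.inl h1
    · obtain ⟨p, hp, hp'⟩ := h.pred c _ (not_le.1 h1).le
      refine Or.inr (mem_biUnion (show p ∈ {t | h.ht t = h.ht c0} ∩ Ioi s from ⟨hp', ?_⟩) ⟨hc.1, hp⟩)
      rcases h.comp hp hc.2 with h2 | h2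
      · have := h.ht_le h2
        rw [hp'] at this
        exact absurd hc0.2 (not_lt.2 this)
      · refine lt_of_le_of_ne h2 ?_
        rintro rfl
        exact absurd hc0.2 (by rw [hp']; exact lt_irrefl _)

lemma seq {h : IsOrderTree T} (hA : Aronszajn h) (B : Set T) (s0 : T)
    (hs : ¬ {c ∈ B | s0 ≤ c}.Countable) :
    ∃ s b : ℕ → T, s 0 = s0 ∧ StrictMono s ∧ ∀ n, b n ∈ B ∧ s n ≤ b n ∧ ¬ s (n + 1) ≤ b n := by
  have : ∀ x : {s // ¬ {c ∈ B | s ≤ c}.Countable}, ∃ y : {s // ¬ {c ∈ B | s ≤ c}.Countable},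
      ∃ b, x.1 < y.1 ∧ b ∈ B ∧ x.1 ≤ b ∧ ¬ y.1 ≤ b := by
    intro x
    obtain ⟨b, hb⟩ : {c ∈ B | x.1 ≤ c}.Nonempty := by
      by_contra hne
      rw [not_nonempty_iff_eq_empty] at hne
      exact x.2 (hne ▸ countable_empty)
    obtain ⟨s', h1, h2, h3⟩ := split hA B x.1 b x.2
    exact ⟨⟨s', h2⟩, b, h1, hb.1, hb.2, h3⟩
  choose f g hf using this
  refine ⟨fun n => (f^[n] ⟨s0, hs⟩).1, fun n => g (f^[n] ⟨s0, hs⟩), rfl,
    strictMono_nat_of_lt_succ fun n => ?_, fun n => ?_⟩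
  · simp only [Function.iterate_succ_apply']
    exact (hf _).1
  · simp only [Function.iterate_succ_apply']
    exact (hf _).2

def seqRay (h : IsOrderTree T) (s : ℕ → T) (hs : StrictMono s) : RaySp e T :=
  ⟨{t | ∃ n, t ≤ s n}, fun _ _ hab ⟨n, hn⟩ => ⟨n, hab.trans hn⟩,
    fun _ ⟨m, hm⟩ _ ⟨n, hn⟩ _ => h.comp (hm.trans (hs.monotone (le_max_left m n)))
      (hn.trans (hs.monotone (le_max_right m n))),
    fun _ ⟨n, hn⟩ => ⟨s (n + 1), ⟨n + 1, le_rfl⟩, hn.trans_lt (hs (Nat.lt_succ_self n))⟩,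
    Or.inr ⟨s 0, 0, le_rfl⟩⟩

lemma accum {h : IsOrderTree T} (hA : Aronszajn h) {A B : Set T} (hanti : IsAntichain (· ≤ ·) A)
    (hBA : B ⊆ A) (hB : ¬ B.Countable) (ρ : T → RaySp e T) (hρ : ∀ a ∈ A, a ∈ (ρ a).1) :
    ∃ b : ℕ → T, (∀ n, b n ∈ B) ∧ ∃ R : RaySp e T, (∀ a ∈ A, a ∉ R.1) ∧
      Tendsto (fun n => ρ (b n)) atTop (𝓝 R) := by
  obtain ⟨r, hr⟩ := h.root
  obtain ⟨s, b, -, hs, hb⟩ := seq hA B r (by simpa [hr] using hB)
  have hanti' : ∀ x ∈ A, ∀ y ∈ A, x ≤ y → x = y := fun x hx y hy hxy => by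
    by_contra hne
    exact hanti hx hy hne hxy
  have k : ∀ n, ¬ b n ≤ s (n + 1) := by
    intro n h1
    have := hanti' _ (hBA (hb n).1) _ (hBA (hb (n + 1)).1) (h1.trans (hb (n + 1)).2.1)
    exact (hb n).2.2 (this ▸ (hb (n + 1)).2.1)
  refine ⟨b, fun n => (hb n).1, seqRay h s hs, ?_, tendsto_ray fun t => ?_⟩
  · rintro a ha ⟨n, hn⟩
    have := hanti' a ha _ (hBA (hb n).1) (hn.trans (hb n).2.1)
    exact k n (this ▸ hn.trans (hs.monotone (Nat.le_succ n)))
  · by_cases ht : t ∈ (seqRay (e := e) h s hs).1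
    · obtain ⟨n, hn⟩ := id ht
      filter_upwards [eventually_ge_atTop n] with m hm
      exact iff_of_true ((ρ (b m)).lower (hn.trans ((hs.monotone hm).trans (hb m).2.1))
        (hρ _ (hBA (hb m).1))) ht
    · by_cases h1 : ∃ m, t ∈ (ρ (b m)).1
      · obtain ⟨m, hm⟩ := h1
        filter_upwards [eventually_gt_atTop m] with n hn
        refine iff_of_false (fun h2 => ?_) ht
        have h3 : s (m + 1) ≤ t := by
          rcases (ρ (b n)).comp h2 ((ρ (b n)).lower ((hs.monotone hn).trans (hb n).2.1)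
            (hρ _ (hBA (hb n).1))) with h4 | h4
          · exact absurd ⟨m + 1, h4⟩ ht
          · exact h4
        rcases (ρ (b m)).comp ((ρ (b m)).lower h3 hm) (hρ _ (hBA (hb m).1)) with h4 | h4
        · exact (hb m).2.2 h4
        · exact k m h4
      · push Not at h1
        exact Eventually.of_forall fun n => iff_of_false (h1 n) ht

lemma big_antichain {h : IsOrderTree T} (hA : Aronszajn h) (hS : Special T) :
    ∃ A : Set T, IsAntichain (· ≤ ·) A ∧ ¬ A.Countable ∧ ∀ a ∈ A, ∃ R : RaySp e T, a ∈ R.1 := by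
  obtain ⟨A, h1, h2⟩ := hS
  have hbig : ¬ {t : T | ¬ {c ∈ (univ : Set T) | t ≤ c}.Countable}.Countable := by
    intro hc
    obtain ⟨c0, hc0⟩ : ∃ c0, c0 ∉ ⋃ t ∈ {t : T | ¬ {c ∈ (univ : Set T) | t ≤ c}.Countable},
        {x | h.ht x ≤ h.ht t} := by
      by_contra hne
      push Not at hne
      exact uncountable hA ((hc.biUnion fun t _ => low_countable hA t).mono fun x _ => hne x)
    refine uncountable hA (((low_countable hA c0).union ((hA.2.2.1 (h.ht c0)).biUnion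
      (t := fun p _ => {c ∈ (univ : Set T) | p ≤ c}) fun p hp => ?_)).mono ?_)
    · by_contra h3
      exact hc0 (mem_biUnion h3 (le_of_eq (Eq.symm hp)))
    · intro c _
      by_cases h3 : h.ht c ≤ h.ht c0
      · exact Or.inl h3
      · obtain ⟨p, hp, hp'⟩ := h.pred c _ (not_le.1 h3).le
        exact Or.inr (mem_biUnion hp' ⟨trivial, hp⟩)
  obtain ⟨n, hn⟩ : ∃ n, ¬ (A n ∩ {t : T | ¬ {c ∈ (univ : Set T) | t ≤ c}.Countable}).Countable := by
    by_contra hne
    push Not at hne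
    refine hbig ((countable_iUnion hne).mono fun t ht => ?_)
    obtain ⟨n, hn⟩ := mem_iUnion.1 (h2.symm ▸ mem_univ t : t ∈ ⋃ n, A n)
    exact mem_iUnion.2 ⟨n, hn, ht⟩
  refine ⟨_, (h1 n).subset inter_subset_left, hn, fun a ha => ?_⟩
  obtain ⟨s, b, h3, hs, -⟩ := seq hA univ a ha.2
  exact ⟨seqRay h s hs, 0, h3.ge⟩

theorem not_sep {h : IsOrderTree T} (hA : Aronszajn h) (hS : Special T) :
    ¬ Sep (RaySp e T × RaySp e T) := by
  intro hsep
  obtain ⟨A, h1, h2, h3⟩ := big_antichain (e := e) hA hS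
  obtain ⟨a0, ha0⟩ : A.Nonempty := by
    by_contra hne
    rw [not_nonempty_iff_eq_empty] at hne
    exact h2 (hne ▸ countable_empty)
  have : Nonempty (RaySp e T) := ⟨(h3 a0 ha0).choose⟩
  choose! ρ hρ using h3
  obtain ⟨b, hb, R, hR, hlim⟩ := accum hA h1 Subset.rfl h2 ρ hρ
  have hF : IsClosed {Q : RaySp e T | ∀ a ∈ A, a ∉ Q.1} := by
    have : {Q : RaySp e T | ∀ a ∈ A, a ∉ Q.1} = ⋂ a ∈ A, {Q : RaySp e T | a ∈ Q.1}ᶜ := by
      ext Q; simp
    rw [this]
    exact isClosed_biInter fun a _ => (clopen_cone a).compl.isClosed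
  obtain ⟨U, hU, hUF⟩ := katetov hsep R (fun n => ρ (b n))
    (mem_closure_of_tendsto hlim (Eventually.of_forall fun n => ⟨n, rfl⟩))
    (fun n hn => hR _ (hb n) (hn ▸ hρ _ (hb n))) hF
  obtain ⟨n, hn⟩ : ∃ n, ¬ {a ∈ A | ρ a ∉ U n}.Countable := by
    by_contra hne
    push Not at hne
    refine h2 ((countable_iUnion hne).mono fun a ha => ?_)
    by_contra h4
    simp only [mem_iUnion, mem_ofPred_eq, not_exists, not_and, not_not] at h4
    exact hUF _ (fun n => h4 n ha) a ha (hρ a ha)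
  obtain ⟨b', hb', R', hR', hlim'⟩ := accum hA h1 (fun a ha => ha.1) hn ρ hρ
  obtain ⟨m, hm⟩ := (hlim'.eventually ((hU n).1.mem_nhds ((hU n).2 hR'))).exists
  exact (hb' m).2 hm

theorem not_raySpace {h : IsOrderTree T} (hA : Aronszajn h) (hS : Special T) :
    ¬ IsRaySpace.{v} e (RaySp e T × RaySp e T) := by
  rintro ⟨T', _, h', ⟨f⟩⟩
  exact not_sep hA hS (Sep.homeo f (sep_ray h'))

theorem aron_firstCountable {h : IsOrderTree T} (hA : Aronszajn h) :
    FirstCountableTopology (RaySp e T) := by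
  refine firstCountable h (fun R => hA.2.2.2 _ R.2.2.1) fun R => ?_
  by_cases hne : {v | IsTop' R.1 v}.Nonempty
  · obtain ⟨v0, hv0⟩ := hne
    refine (low_countable hA v0).mono fun v hv => ?_
    show h.ht v ≤ h.ht v0
    rw [h.ht_eq v]
    exact Ordinal.iSup_le fun b => Order.succ_le_of_lt (h.ht_lt (hv0.2.2 _ (hv.2.1 _ b.2)))
  · rw [not_nonempty_iff_eq_empty] at hne
    rw [hne]; exact countable_empty

end Pool.Agent.Lib.helper22.Ray
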