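import Mathlib
import Pool.Agent.Lib.helper22.RayB

set_option autoImplicit false

namespace Pool.Agent.Lib.helper22.Ray

open Set

abbrev W : Type := (Cardinal.aleph 1).ord.ToType

lemma W_Iio (a : W) : (Iio a).Countable := by
  have := Cardinal.mk_Iio_toType_ord_lt a
  rwa [Cardinal.lt_aleph_one_iff, Cardinal.le_aleph0_iff_set_countable] at this

lemma W_Iic (a : W) : (Iic a).Countable := by
  rw [← Iio_insert]; exact (W_Iio a).insert a

lemma W_code : ∃ c : W → W → ℕ, ∀ β, InjOn (c β) (Iio β) := by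
  choose c hc using fun β => countable_iff_exists_injOn.1 (W_Iio β)
  exact ⟨c, hc⟩

lemma W_e : ∃ e : W → W → ℕ, (∀ β k, {ξ | ξ ≤ β ∧ e β ξ ≤ k}.Finite) ∧
    ∀ β α, α ≤ β → {ξ | ξ ≤ α ∧ e α ξ ≠ e β ξ}.Finite := by
  classical
  obtain ⟨c, hc⟩ := W_code
  have : ∀ β ξ : W, ξ < β → ∃ γ, ξ ≤ γ ∧ γ < β ∧ ∀ γ', ξ ≤ γ' → γ' < β → c β γ ≤ c β γ' := by
    intro β ξ h
    obtain ⟨γ, h1, h2⟩ := (measure (c β)).wf.has_min {γ | ξ ≤ γ ∧ γ < β} ⟨ξ, le_rfl, h⟩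
    exact ⟨γ, h1.1, h1.2, fun γ' h3 h4 => not_lt.1 (h2 γ' ⟨h3, h4⟩)⟩
  choose g hg using this
  let e : W → W → ℕ := (wellFounded_lt (α := W)).fix fun β ih ξ =>
    if h : ξ < β then max (c β (g β ξ h)) (ih (g β ξ h) (hg β ξ h).2.1 ξ) else 0
  have he : ∀ β ξ (h : ξ < β), e β ξ = max (c β (g β ξ h)) (e (g β ξ h) ξ) := by
    intro β ξ h
    simp only [e]
    rw [WellFounded.fix_eq]
    simp only [dif_pos h]
  have hfin : ∀ β k, {γ | γ < β ∧ c β γ ≤ k}.Finite := fun β k =>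
    Finite.of_finite_image ((finite_Iic k).subset (by rintro _ ⟨y, hy, rfl⟩; exact hy.2))
      ((hc β).mono fun γ hγ => hγ.1)
  have h1 : ∀ β k, {ξ | ξ ≤ β ∧ e β ξ ≤ k}.Finite := by
    intro β
    induction β using (wellFounded_lt (α := W)).induction with
    | _ β ih =>
      intro k
      refine (((hfin β k).biUnion' (t := fun γ _ => {ξ | ξ ≤ γ ∧ e γ ξ ≤ k})
        fun γ hγ => ih γ hγ.1 k).insert β).subset ?_
      rintro ξ ⟨h2, h3⟩
      rcases eq_or_lt_of_le h2 with h | h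
      · exact Or.inl h
      · rw [he β ξ h, max_le_iff] at h3
        exact Or.inr (mem_biUnion (show g β ξ h ∈ {γ | γ < β ∧ c β γ ≤ k} from
          ⟨(hg β ξ h).2.1, h3.1⟩) ⟨(hg β ξ h).1, h3.2⟩)
  refine ⟨e, h1, fun β => ?_⟩
  induction β using (wellFounded_lt (α := W)).induction with
  | _ β ih =>
    intro α hα
    rcases eq_or_lt_of_le hα with rfl | hα
    · simp
    have h2 : ∀ γ < β, {ξ | ξ ≤ α ∧ ξ ≤ γ ∧ e α ξ ≠ e γ ξ}.Finite := by
      intro γ hγ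
      rcases le_total α γ with h | h
      · exact (ih γ hγ α h).subset fun ξ hξ => ⟨hξ.1, hξ.2.2⟩
      · exact (ih α hα γ h).subset fun ξ hξ => ⟨hξ.2.1, hξ.2.2.symm⟩
    refine ((hfin β (c β α)).biUnion' (t := fun γ _ => {ξ | ξ ≤ γ ∧ e γ ξ ≤ c β α} ∪
      {ξ | ξ ≤ α ∧ ξ ≤ γ ∧ e α ξ ≠ e γ ξ}) fun γ hγ => (h1 γ _).union (h2 γ hγ.1)).subset ?_
    rintro ξ ⟨h3, h4⟩
    have h : ξ < β := h3.trans_lt hα
    have h5 := (hg β ξ h).2.2 α h3 hα
    refine mem_biUnion (show g β ξ h ∈ {γ | γ < β ∧ c β γ ≤ c β α} from ⟨(hg β ξ h).2.1, h5⟩) ?_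
    by_cases h6 : e (g β ξ h) ξ ≤ c β α
    · exact Or.inl ⟨(hg β ξ h).1, h6⟩
    · refine Or.inr ⟨h3, (hg β ξ h).1, ?_⟩
      rw [he β ξ h, max_eq_right (by omega)] at h4
      exact h4

noncomputable def w0 : W := (wellFounded_lt (α := W)).min univ (by
  have : Nonempty W := Ordinal.nonempty_toType_iff.2 (by simp [(Ordinal.omega_pos 1).ne'])
  exact univ_nonempty)

lemma w0_le (a : W) : w0 ≤ a := (wellFounded_lt (α := W)).min_le (mem_univ a)

def AT (e : W → W → ℕ) : Type :=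
  {p : W × (W → ℕ) // (∀ ξ, p.1 < ξ → p.2 ξ = 0) ∧ p.2 w0 = 0 ∧
    {ξ | ξ ≤ p.1 ∧ p.2 ξ ≠ e p.1 ξ}.Finite}

instance (e : W → W → ℕ) : PartialOrder (AT e) where
  le s t := s.1.1 ≤ t.1.1 ∧ ∀ ξ ≤ s.1.1, s.1.2 ξ = t.1.2 ξ
  le_refl _ := ⟨le_rfl, fun _ _ => rfl⟩
  le_trans _ _ _ h1 h2 := ⟨h1.1.trans h2.1, fun ξ h => (h1.2 ξ h).trans (h2.2 ξ (h.trans h1.1))⟩
  le_antisymm s t h1 h2 := by
    have := le_antisymm h1.1 h2.1
    refine Subtype.ext (Prod.ext this (funext fun ξ => ?_))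
    rcases le_or_gt ξ s.1.1 with h | h
    · exact h1.2 ξ h
    · rw [s.2.1 ξ h, t.2.1 ξ (this ▸ h)]

lemma AT.le_def {e : W → W → ℕ} {s t : AT e} :
    s ≤ t ↔ s.1.1 ≤ t.1.1 ∧ ∀ ξ ≤ s.1.1, s.1.2 ξ = t.1.2 ξ := Iff.rfl

lemma AT.lt_fst {e : W → W → ℕ} {s t : AT e} (h : s < t) : s.1.1 < t.1.1 := by
  refine lt_of_le_of_ne h.le.1 fun h1 => h.not_ge ⟨h1.ge, fun ξ hξ => (h.le.2 ξ (h1 ▸ hξ)).symm⟩

lemma AT.comp {e : W → W → ℕ} {a b t : AT e} (ha : a ≤ t) (hb : b ≤ t) (h : a.1.1 ≤ b.1.1) :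
    a ≤ b := ⟨h, fun ξ hξ => (ha.2 ξ hξ).trans (hb.2 ξ (hξ.trans h)).symm⟩

lemma AT.tree (e : W → W → ℕ) : IsOrderTree (AT e) := by
  refine ⟨⟨⟨(w0, fun _ => 0), fun _ _ => rfl, rfl, (finite_singleton w0).subset
    fun ξ hξ => le_antisymm hξ.1 (w0_le ξ)⟩, fun t => ⟨w0_le _, fun ξ hξ => ?_⟩⟩, fun t => ?_⟩
  · rw [le_antisymm hξ (w0_le ξ), t.2.2.1]
  · have hwf : WellFounded ((· < ·) : Iic t → Iic t → Prop) :=
      Subrelation.wf (fun {a b} (h : a < b) => AT.lt_fst (show a.1 < b.1 from h))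
        (InvImage.wf (fun a : Iic t => a.1.1.1) wellFounded_lt)
    have tri : ∀ a b : Iic t, ¬ a < b → ¬ b < a → a = b := by
      intro a b h1 h2
      rcases le_total a.1.1.1 b.1.1.1 with h | h
      · exact (eq_or_lt_of_le (show a ≤ b from AT.comp a.2 b.2 h)).resolve_right h1
      · exact ((eq_or_lt_of_le (show b ≤ a from AT.comp b.2 a.2 h)).resolve_right h2).symm
    exact { wf := hwf, trichotomous := tri }

theorem exists_aronszajn : ∃ (T : Type) (_ : PartialOrder T) (h : IsOrderTree T),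
    Aronszajn h ∧ Special T := by
  classical
  obtain ⟨e, h1, h2⟩ := W_e
  have hT := AT.tree e
  have res : ∀ (t : AT e) (ξ : W), ξ < t.1.1 → ∃ s : AT e, s < t ∧ s.1.1 = ξ := by
    intro t ξ hξ
    refine ⟨⟨(ξ, fun η => if η ≤ ξ then t.1.2 η else 0), fun η hη => if_neg (not_le.2 hη),
      by simp [w0_le, t.2.2.1], (t.2.2.2.union (h2 _ ξ hξ.le)).subset ?_⟩,
      lt_of_le_of_ne ⟨hξ.le, fun η hη => if_pos hη⟩ ?_, rfl⟩
    · rintro η ⟨h3, h4⟩
      simp only [if_pos (show η ≤ ξ from h3)] at h4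
      by_cases h5 : t.1.2 η = e t.1.1 η
      · exact Or.inr ⟨h3, fun h6 => h4 (h5.trans h6.symm)⟩
      · exact Or.inl ⟨h3.trans hξ.le, h5⟩
    · intro h
      exact hξ.ne (congrArg (fun s : AT e => s.1.1) h)
  have hht : ∀ t : AT e, hT.ht t = IsWellFounded.rank (α := W) (· < ·) t.1.1 := by
    intro t
    induction t using hT.wf.wf.induction with
    | _ t ih =>
      rw [hT.ht_eq, IsWellFounded.rank_eq]
      refine le_antisymm (Ordinal.iSup_le fun b => ?_) (Ordinal.iSup_le fun b => ?_)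
      · rw [ih b.1 b.2]
        exact Ordinal.le_iSup (fun b : {b // b < t.1.1} =>
          Order.succ (IsWellFounded.rank (α := W) (· < ·) b.1)) ⟨_, AT.lt_fst b.2⟩
      · obtain ⟨s, hs, hs'⟩ := res t b.1 b.2
        rw [← hs', ← ih s hs]
        exact Ordinal.le_iSup (fun b : {b // b < t} => Order.succ (hT.ht b.1)) ⟨s, hs⟩
  have hsp : Special (AT e) := by
    let col : AT e → ℕ × ℕ := fun t =>
      (t.1.2 t.1.1, {ξ | ξ ≤ t.1.1 ∧ t.1.2 ξ = t.1.2 t.1.1}.ncard)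
    refine ⟨fun n => {t | Encodable.encode (col t) = n}, fun n s hs t ht hst hle => ?_,
      eq_univ_of_forall fun t => mem_iUnion.2 ⟨_, rfl⟩⟩
    have h3 : col s = col t := Encodable.encode_injective (hs.trans ht.symm)
    have h4 : s.1.2 s.1.1 = t.1.2 t.1.1 := congrArg Prod.fst h3
    have h5 : {ξ | ξ ≤ s.1.1 ∧ s.1.2 ξ = s.1.2 s.1.1}.ncard =
      {ξ | ξ ≤ t.1.1 ∧ t.1.2 ξ = t.1.2 t.1.1}.ncard := congrArg Prod.snd h3
    have h6 : {ξ | ξ ≤ t.1.1 ∧ t.1.2 ξ = t.1.2 t.1.1}.Finite := by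
      refine (t.2.2.2.union (h1 t.1.1 (t.1.2 t.1.1))).subset ?_
      rintro η ⟨h7, h8⟩
      by_cases h9 : t.1.2 η = e t.1.1 η
      · exact Or.inr ⟨h7, by rw [← h9, h8]⟩
      · exact Or.inl ⟨h7, h9⟩
    have h7 := AT.lt_fst (lt_of_le_of_ne hle hst)
    refine (ncard_lt_ncard ⟨?_, fun h8 => ?_⟩ h6).ne h5
    · rintro η ⟨h8, h9⟩
      exact ⟨h8.trans h7.le, by rw [← hle.2 η h8, h9, h4]⟩
    · exact absurd (h8 ⟨le_rfl, rfl⟩).1 (not_le.2 h7)
  refine ⟨AT e, inferInstance, hT, ⟨fun t => ?_, fun o ho => ?_, fun o => ?_, fun C hC => ?_⟩, hsp⟩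
  · rw [hht, IsWellFounded.rank_eq_typein, ← Cardinal.ord_aleph]
    exact Ordinal.typein_lt_self _
  · rw [← Cardinal.ord_aleph, ← Ordinal.type_toType (Cardinal.aleph 1).ord] at ho
    obtain ⟨α, hα⟩ := Ordinal.typein_surj (α := W) (· < ·) ho
    refine ⟨⟨(α, fun η => if η ≤ α ∧ η ≠ w0 then e α η else 0),
      fun η hη => if_neg fun h => absurd h.1 (not_le.2 hη), by simp,
      (finite_singleton w0).subset ?_⟩, ?_⟩
    · rintro η ⟨h3, h4⟩
      by_contra h5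
      exact h4 (if_pos ⟨h3, h5⟩)
    · refine (hht _).trans ?_
      rw [IsWellFounded.rank_eq_typein]
      exact hα
  · by_cases hne : {t | hT.ht t = o}.Nonempty
    · obtain ⟨t0, ht0⟩ := hne
      have h3 : ∀ t ∈ {t | hT.ht t = o}, t.1.1 = t0.1.1 := by
        intro t ht
        have : hT.ht t = hT.ht t0 := ht.trans ht0.symm
        rw [hht, hht] at this
        exact WellFoundedLT.rank_strictMono.injective this
      let G : AT e → Set (W × ℕ) := fun t =>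
        (fun ξ => (ξ, t.1.2 ξ)) '' {ξ | ξ ≤ t.1.1 ∧ t.1.2 ξ ≠ e t.1.1 ξ}
      refine MapsTo.countable_of_injOn (f := G)
        (t := {S | S.Finite ∧ S ⊆ Iic t0.1.1 ×ˢ univ}) ?_ ?_
        (countable_ofPred_finite_subset ((W_Iic _).prod countable_univ))
      · intro t ht
        refine ⟨t.2.2.2.image _, ?_⟩
        rintro _ ⟨ξ, hξ, rfl⟩
        exact ⟨h3 t ht ▸ hξ.1, trivial⟩
      · have key : ∀ s ∈ {t | hT.ht t = o}, ∀ t ∈ {t | hT.ht t = o}, G s = G t → s ≤ t := by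
          intro s hs t ht hG
          have h4 : s.1.1 = t.1.1 := (h3 s hs).trans (h3 t ht).symm
          refine ⟨h4.le, fun ξ hξ => ?_⟩
          by_cases h5 : s.1.2 ξ = e s.1.1 ξ
          · by_cases h6 : t.1.2 ξ = e t.1.1 ξ
            · rw [h5, h6, h4]
            · have : (ξ, t.1.2 ξ) ∈ G s := hG ▸ ⟨ξ, ⟨h4 ▸ hξ, h6⟩, rfl⟩
              obtain ⟨η, hη, h7⟩ := this
              obtain ⟨rfl, h8⟩ := Prod.mk.inj h7
              exact h8
          · have : (ξ, s.1.2 ξ) ∈ G t := hG ▸ ⟨ξ, ⟨hξ, h5⟩, rfl⟩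
            obtain ⟨η, hη, h7⟩ := this
            obtain ⟨rfl, h8⟩ := Prod.mk.inj h7
            exact h8.symm
        exact fun s hs t ht hG => le_antisymm (key s hs t ht hG) (key t ht s hs hG.symm)
    · rw [not_nonempty_iff_eq_empty] at hne
      rw [hne]; exact countable_empty
  · obtain ⟨A, hA, hA'⟩ := hsp
    have : C = ⋃ n, C ∩ A n := by rw [← inter_iUnion, hA', inter_univ]
    rw [this]
    refine countable_iUnion fun n => Set.Subsingleton.countable fun a ha b hb => ?_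
    by_contra hab
    rcases hC ha.1 hb.1 hab with h | h
    · exact hA n ha.2 hb.2 hab h
    · exact hA n hb.2 ha.2 (Ne.symm hab) h

end Pool.Agent.Lib.helper22.Ray
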