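import Mathlib
import Pool.Agent.Lib.helper22.RayC

set_option autoImplicit false

namespace Pool.Agent.Lib.helper22.Stat

open Set Pool.Agent.Lib.helper22.Ray

lemma W_unc : ¬ (univ : Set W).Countable := by
  rw [← Cardinal.le_aleph0_iff_set_countable, Cardinal.mk_univ, Cardinal.mk_ord_toType]
  simp

lemma W_bdd {A : Set W} (hA : A.Countable) : ∃ b, ∀ a ∈ A, a < b := by
  by_contra hne
  push Not at hne
  refine W_unc ((hA.biUnion fun a _ => W_Iic a).mono fun b _ => ?_)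
  obtain ⟨a, ha, h⟩ := hne b
  exact mem_biUnion ha h

def Lim (δ : W) : Prop := w0 < δ ∧ ∀ a < δ, ∃ b < δ, a < b

def Cl (f : W → W) (δ : W) : Prop := Lim δ ∧ ∀ a < δ, f a < δ

lemma Cl_nonempty (f : W → W) : ∃ δ, Cl f δ := by
  have : ∀ x : W, ∃ y, x < y ∧ ∀ a ≤ x, f a < y := by
    intro x
    obtain ⟨b, hb⟩ := W_bdd (((W_Iic x).image f).insert x)
    exact ⟨b, hb x (Or.inl rfl), fun a ha => hb _ (Or.inr ⟨a, ha, rfl⟩)⟩
  choose g hg using this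
  obtain ⟨δ, h1, h2⟩ := (wellFounded_lt (α := W)).has_min {b | ∀ n, g^[n] w0 < b} (by
    obtain ⟨b, hb⟩ := W_bdd (countable_range fun n => g^[n] w0)
    exact ⟨b, fun n => hb _ ⟨n, rfl⟩⟩)
  have key : ∀ a < δ, ∃ n, a ≤ g^[n] w0 := by
    intro a ha
    by_contra hne
    push Not at hne
    exact h2 a hne ha
  refine ⟨δ, ⟨h1 0, fun a ha => ?_⟩, fun a ha => ?_⟩
  · obtain ⟨n, hn⟩ := key a ha
    refine ⟨_, h1 (n + 1), ?_⟩
    rw [Function.iterate_succ_apply']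
    exact hn.trans_lt (hg _).1
  · obtain ⟨n, hn⟩ := key a ha
    refine lt_trans ((hg _).2 a hn) ?_
    have := h1 (n + 1)
    rwa [Function.iterate_succ_apply'] at this

lemma exists_stat : ∃ S : Set W, ∀ f, (∃ δ ∈ S, Cl f δ) ∧ ∃ δ ∉ S, Cl f δ := by
  by_contra hne
  push Not at hne
  have h1 : ∀ S : Set W, ∃ f, (∀ δ, Cl f δ → δ ∈ S) ∨ ∀ δ, Cl f δ → δ ∉ S := by
    intro S
    obtain ⟨f, hf⟩ := hne S
    by_cases h : ∃ δ ∈ S, Cl f δ
    · exact ⟨f, Or.inl fun δ hδ => by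
        by_contra h2
        exact hf h δ h2 hδ⟩
    · exact ⟨f, Or.inr fun δ hδ h2 => h ⟨δ, h2, hδ⟩⟩
  obtain ⟨ι⟩ : Nonempty (W ↪ (ℕ → Bool)) := by
    rw [← Cardinal.le_def, Cardinal.mk_ord_toType]
    simpa using Cardinal.aleph_one_le_continuum
  choose f hf using fun n => h1 {δ | ι δ n = true}
  have : ∀ a, ∃ b, ∀ n, f n a < b := by
    intro a
    obtain ⟨b, hb⟩ := W_bdd (countable_range fun n => f n a)
    exact ⟨b, fun n => hb _ ⟨n, rfl⟩⟩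
  choose g hg using this
  obtain ⟨δ1, h2⟩ := Cl_nonempty g
  obtain ⟨δ2, h3⟩ := Cl_nonempty fun a => max (g a) δ1
  have h4 : δ1 < δ2 := (le_max_right _ _).trans_lt (h3.2 w0 h3.1.1)
  refine h4.ne (ι.injective (funext fun n => ?_))
  have e1 : Cl (f n) δ1 := ⟨h2.1, fun a ha => (hg a n).trans (h2.2 a ha)⟩
  have e2 : Cl (f n) δ2 := ⟨h3.1, fun a ha => (hg a n).trans
    ((le_max_left _ _).trans_lt (h3.2 a ha))⟩
  rcases hf n with h | h
  · exact (h _ e1).trans (h _ e2).symm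
  · have a1 : ι δ1 n ≠ true := h _ e1
    have a2 : ι δ2 n ≠ true := h _ e2
    simp only [ne_eq, Bool.not_eq_true] at a1 a2
    rw [a1, a2]

lemma exists_ladder : ∃ c : W → Set W, ∀ δ, c δ ⊆ Iio δ ∧ (∀ a < δ, (c δ ∩ Iic a).Finite) ∧
    ∀ a < δ, ∃ b ∈ c δ, a ≤ b := by
  obtain ⟨k, hk⟩ := W_code
  refine ⟨fun δ => {a | a < δ ∧ ∀ b < δ, a ≤ b → k δ a ≤ k δ b}, fun δ =>
    ⟨fun a ha => ha.1, fun a ha => ?_, fun a ha => ?_⟩⟩
  · refine Finite.of_finite_image ((finite_Iic (k δ a)).subset ?_) ((hk δ).mono fun x hx => hx.1.1)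
    rintro _ ⟨y, hy, rfl⟩
    exact hy.1.2 a ha hy.2
  · obtain ⟨γ, h1, h2⟩ := (measure (k δ)).wf.has_min {γ | a ≤ γ ∧ γ < δ} ⟨a, le_rfl, ha⟩
    exact ⟨γ, ⟨h1.2, fun b hb h => not_lt.1 (h2 b ⟨h1.1.trans h, hb⟩)⟩, h1.1⟩

noncomputable def S : Set W := exists_stat.choose
noncomputable def c : W → Set W := exists_ladder.choose
lemma hS (f : W → W) : (∃ δ ∈ S, Cl f δ) ∧ ∃ δ ∉ S, Cl f δ := exists_stat.choose_spec f
lemma hc (δ : W) : c δ ⊆ Iio δ ∧ (∀ a < δ, (c δ ∩ Iic a).Finite) ∧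
    ∀ a < δ, ∃ b ∈ c δ, a ≤ b := exists_ladder.choose_spec δ

def X : Type := {d : Set W // d.Finite ∨ ∃ δ ∈ S, Lim δ ∧ d = c δ}

def B (x : X) (α : W) : Set X := {y | ∀ ξ < α, (ξ ∈ y.1 ↔ ξ ∈ x.1)}

lemma B_self (x : X) (α : W) : x ∈ B x α := fun _ _ => Iff.rfl
lemma B_mono (x : X) {α β : W} (h : α ≤ β) : B x β ⊆ B x α :=
  fun _ hy ξ hξ => hy ξ (hξ.trans_le h)

instance : TopologicalSpace X where
  IsOpen U := ∀ x ∈ U, ∃ α, B x α ⊆ U
  isOpen_univ := fun _ _ => ⟨w0, subset_univ _⟩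
  isOpen_inter := fun s t hs ht x hx => by
    obtain ⟨α, h1⟩ := hs x hx.1
    obtain ⟨β, h2⟩ := ht x hx.2
    exact ⟨max α β, subset_inter ((B_mono x (le_max_left _ _)).trans h1)
      ((B_mono x (le_max_right _ _)).trans h2)⟩
  isOpen_sUnion := fun T hT x ⟨t, ht, hx⟩ => by
    obtain ⟨α, h⟩ := hT t ht x hx
    exact ⟨α, h.trans (subset_sUnion_of_mem ht)⟩

lemma B_open (x : X) (α : W) : IsOpen (B x α) :=
  fun _ hy => ⟨α, fun _ hz ξ hξ => (hz ξ hξ).trans (hy ξ hξ)⟩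

lemma B_closed (x : X) (α : W) : IsClosed (B x α) :=
  ⟨fun _ hy => ⟨α, fun _ hz h => hy fun ξ hξ => (hz ξ hξ).symm.trans (h ξ hξ)⟩⟩

lemma avoid {Z : Set X} (hZ : Z.Countable) (x : X) : ∃ α, ∀ z ∈ Z, z ∈ B x α → z = x := by
  have : ∀ z : X, ∃ ξ, z ≠ x → ¬ (ξ ∈ z.1 ↔ ξ ∈ x.1) := by
    intro z
    by_cases h : z = x
    · exact ⟨w0, fun h' => absurd h h'⟩
    · by_contra hne
      push Not at hne
      exact h (Subtype.ext (Set.ext fun ξ => (hne ξ).2))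
  choose g hg using this
  obtain ⟨α, hα⟩ := W_bdd (hZ.image g)
  refine ⟨α, fun z hz h => ?_⟩
  by_contra h1
  exact hg z h1 (h _ (hα _ ⟨z, hz, rfl⟩))

instance : T2Space X := by
  refine ⟨fun x y hxy => ?_⟩
  obtain ⟨α, hα⟩ := avoid (countable_singleton y) x
  exact ⟨B x α, (B x α)ᶜ, B_open x α, (B_closed x α).isOpen_compl, B_self x α,
    fun h => hxy (hα y rfl h).symm, disjoint_compl_right⟩

instance : RegularSpace X := by
  refine RegularSpace.of_exists_mem_nhds_isClosed_subset fun x s hs => ?_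
  obtain ⟨t, h1, h2, h3⟩ := mem_nhds_iff.1 hs
  obtain ⟨α, h4⟩ := h2 x h3
  exact ⟨B x α, (B_open x α).mem_nhds (B_self x α), B_closed x α, h4.trans h1⟩

lemma finite_of_cover {K : Set X} (h : ∀ g : X → W, ∃ E : Set X, E.Finite ∧ K ⊆ ⋃ x ∈ E, B x (g x)) :
    K.Finite := by
  by_contra hinf
  obtain ⟨Z, h1, h2, h3⟩ := Set.Infinite.exists_subset_countable_infinite hinf
  choose g hg using avoid h2
  obtain ⟨E, h4, h5⟩ := h g
  refine h3 (h4.subset fun z hz => ?_)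
  obtain ⟨x, hx, h6⟩ := mem_iUnion₂.1 (h5 (h1 hz))
  rw [hg x z hz h6]; exact hx

lemma compact_finite {K : Set X} (hK : IsCompact K) : K.Finite := by
  refine finite_of_cover fun g => ?_
  obtain ⟨t, -, h⟩ := hK.elim_nhds_subcover (fun x => B x (g x))
    fun x _ => (B_open _ _).mem_nhds (B_self _ _)
  exact ⟨t, t.finite_toSet, h⟩

def XX (a : W) : Set X := {x | x.1 ⊆ Iic a}

lemma XX_mono {a b : W} (h : a ≤ b) : XX a ⊆ XX b := fun _ hx _ hy => (hx hy).trans h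

lemma XX_countable (a : W) : (XX a).Countable := by
  refine countable_of_injective_of_countable_image (f := Subtype.val) Subtype.val_injective.injOn
    (((countable_ofPred_finite_subset (W_Iic a)).union ((W_Iic a).image c)).mono ?_)
  rintro _ ⟨x, hx, rfl⟩
  rcases x.2 with h | ⟨δ, -, h1, h2⟩
  · exact Or.inl ⟨h, hx⟩
  · refine Or.inr ⟨δ, ?_, h2.symm⟩
    by_contra h3
    obtain ⟨b, h4, h5⟩ := h1.2 a (not_le.1 h3)
    obtain ⟨y, h6, h7⟩ := (hc δ).2.2 b h4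
    exact absurd (hx (h2 ▸ h6)) (not_le.2 (h5.trans_le h7))

lemma fin_bdd {δ : W} (hδ : w0 < δ) {A : Set W} (hA : A.Finite) (h : A ⊆ Iio δ) :
    ∃ a < δ, A ⊆ Iic a := by
  obtain ⟨a, ha, h1⟩ := (hA.insert w0).exists_maximal (insert_nonempty _ _)
  refine ⟨a, ?_, fun y hy => ?_⟩
  · rcases ha with rfl | ha
    · exact hδ
    · exact h ha
  · by_contra h2
    exact h2 (h1 (Or.inr hy) (not_le.1 h2).le)

lemma restrict {δ : W} (h1 : Lim δ) (h2 : δ ∉ S) (x : X) :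
    ∃ y : X, (∃ a < δ, y ∈ XX a) ∧ x ∈ B y δ := by
  have fin : (x.1 ∩ Iio δ).Finite → ∃ y : X, (∃ a < δ, y ∈ XX a) ∧ x ∈ B y δ := fun h =>
    ⟨⟨_, Or.inl h⟩, fin_bdd h1.1 h inter_subset_right,
      fun ξ hξ => ⟨fun h => ⟨h, hξ⟩, fun h => h.1⟩⟩
  rcases x.2 with h | ⟨γ, h3, -, h4⟩
  · exact fin (h.inter_of_left _)
  · rcases lt_trichotomy γ δ with h | h | h
    · exact ⟨x, ⟨γ, h, fun y hy => Iio_subset_Iic_self ((hc γ).1 (h4 ▸ hy))⟩, B_self _ _⟩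
    · exact absurd (h ▸ h3) h2
    · exact fin (((hc γ).2.1 δ h).subset fun y hy => ⟨h4 ▸ hy.1, Iio_subset_Iic_self hy.2⟩)

lemma lindelof (g : X → W) : ∃ Z : Set X, Z.Countable ∧ ∀ x, ∃ z ∈ Z, x ∈ B z (g z) := by
  choose f hf using fun a => W_bdd ((XX_countable a).image g)
  obtain ⟨δ, h1, h2⟩ := (hS f).2
  refine ⟨XX δ, XX_countable δ, fun x => ?_⟩
  obtain ⟨y, ⟨a, ha, hy⟩, hx⟩ := restrict h2.1 h1 x
  exact ⟨y, XX_mono ha.le hy, B_mono y ((hf a _ ⟨y, hy, rfl⟩).trans (h2.2 a ha)).le hx⟩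

lemma X_bdd (x : X) : ∃ a, x ∈ XX a := by
  rcases x.2 with h | ⟨γ, -, -, h4⟩
  · obtain ⟨b, hb⟩ := W_bdd h.countable
    exact ⟨b, fun y hy => (hb y hy).le⟩
  · exact ⟨γ, fun y hy => Iio_subset_Iic_self ((hc γ).1 (h4 ▸ hy))⟩

lemma list_countable {α : Type} {T : Set α} (hT : T.Countable) :
    {l : List α | ∀ x ∈ l, x ∈ T}.Countable := by
  have := hT.to_subtype
  refine (countable_range fun l : List T => l.map Subtype.val).mono fun l hl => ?_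
  lift l to List T using hl
  exact ⟨l, rfl⟩

end Pool.Agent.Lib.helper22.Stat
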