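import Mathlib
import Pool.Agent.Lib.helper22.Stat
import Pool.Agent.Lib.helper22.InjCh

set_option autoImplicit false

namespace Pool.Agent.Lib.helper22.RSTree

open Set Cardinal Pool.Agent.Lib.helper22.Ray Pool.Agent.Lib.helper22.Stat

lemma mkW : #W = ℵ₁ := by simp [W]

section
variable {N Λ : Type} (ch : N → Λ → N) (H : N → Λ → W) (b : W → Cardinal.{0})

/-- ranked failure of the `k`-bounded splitting condition -/
inductive Bad (k : W) : Ordinal.{0} → N → Prop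
  | mk (ρ : Ordinal.{0}) (t : N) (i : W) (hi : i < k) (A : Set Λ) (hA : #A ≤ b i)
      (r : Λ → Ordinal.{0}) (hr : ∀ α, α ∉ A → H t α < k → r α < ρ)
      (h : ∀ α, α ∉ A → H t α < k → Bad k (r α) (ch t α)) : Bad k ρ t

/-- a bounded subtree with large splitting (Rubin-Shelah argument) -/
theorem rs (hb : ∀ i, ℵ₁ * b i < #Λ) (F : W → W) (x0 : W) (root : N) :
    ∃ (k : W) (e : ℕ → W) (S : Set N), root ∈ S ∧ Monotone e ∧ e 0 = x0 ∧ (∀ n, e n < k) ∧
      (∀ i < k, ∃ n, i < e n) ∧ (∀ i < k, F i < k) ∧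
      ∀ t ∈ S, ∀ i < k, b i < #{α | ch t α ∈ S ∧ H t α < k} := by
  classical
  have inv : ∀ k t, ∃ (i : W) (A : Set Λ), #A ≤ b i ∧ ∀ ρ, Bad ch H b k ρ t →
      i < k ∧ ∀ α, α ∉ A → H t α < k → ∃ ρ' < ρ, Bad ch H b k ρ' (ch t α) := by
    intro k t
    by_cases h : ∃ ρ, Bad ch H b k ρ t
    · obtain ⟨ρ, h1, h2⟩ := (wellFounded_lt (α := Ordinal.{0})).has_min _ h
      cases h1 with
      | mk _ _ i hi A hA r hr h =>
        refine ⟨i, A, hA, fun ρ' h' => ⟨hi, fun α hα hH => ⟨r α, ?_, h α hα hH⟩⟩⟩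
        exact (hr α hα hH).trans_le (not_lt.1 (h2 ρ' h'))
    · exact ⟨x0, ∅, by simp, fun ρ h' => (h ⟨ρ, h'⟩).elim⟩
  choose I A hA hI using inv
  have pk : ∀ t i, ∃ α, ∀ k, I k t = i → α ∉ A k t := by
    intro t i
    by_contra hn
    push Not at hn
    have h1 : (Set.univ : Set Λ) ⊆ ⋃ k : {k // I k t = i}, A k.1 t := fun α _ => by
      obtain ⟨k, h, h'⟩ := hn α
      exact mem_iUnion.2 ⟨⟨k, h⟩, h'⟩
    have h2 := (mk_le_mk_of_subset h1).trans mk_iUnion_le_sum_mk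
    have h3 : (sum fun k : {k // I k t = i} => #(A k.1 t)) ≤ sum fun _ : {k // I k t = i} => b i :=
      sum_le_sum _ _ fun k => by simpa [k.2] using hA k.1 t
    rw [sum_const'] at h3
    have h4 : #{k // I k t = i} ≤ ℵ₁ := mkW ▸ mk_subtype_le _
    rw [mk_univ] at h2
    exact absurd (h2.trans (h3.trans (mul_le_mul_left h4 _))) (not_le.2 (hb i))
  choose pick hpick using pk
  have step : ∀ p : {p : Set N × W // p.1.Countable}, ∃ q : {p : Set N × W // p.1.Countable},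
      p.1.1 ⊆ q.1.1 ∧ p.1.2 < q.1.2 ∧ ∀ i ≤ p.1.2, F i < q.1.2 ∧ ∀ t ∈ p.1.1,
        ch t (pick t i) ∈ q.1.1 ∧ H t (pick t i) < q.1.2 := by
    rintro ⟨⟨D, x⟩, hD⟩
    have c1 := (hD.prod (W_Iic x)).image fun p => ch p.1 (pick p.1 p.2)
    have c2 := (hD.prod (W_Iic x)).image fun p => H p.1 (pick p.1 p.2)
    obtain ⟨y, hy⟩ := W_bdd ((c2.union ((W_Iic x).image F)).insert x)
    exact ⟨⟨⟨_, y⟩, hD.union c1⟩, subset_union_left, hy _ (Or.inl rfl), fun i hi =>
      ⟨hy _ (Or.inr (Or.inr ⟨i, hi, rfl⟩)), fun t ht => ⟨Or.inr ⟨(t, i), ⟨ht, hi⟩, rfl⟩,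
        hy _ (Or.inr (Or.inl ⟨(t, i), ⟨ht, hi⟩, rfl⟩))⟩⟩⟩
  choose g hg1 hg2 hg3 using step
  let q : ℕ → {p : Set N × W // p.1.Countable} := fun n =>
    g^[n] ⟨({root}, x0), countable_singleton _⟩
  have hq : ∀ n, q (n + 1) = g (q n) := fun n => Function.iterate_succ_apply' _ _ _
  have m1 : StrictMono fun n => (q n).1.2 := strictMono_nat_of_lt_succ fun n => hq n ▸ hg2 _
  have m2 : Monotone fun n => (q n).1.1 := monotone_nat_of_le_succ fun n => hq n ▸ hg1 _
  obtain ⟨k, h1, h2⟩ := (wellFounded_lt (α := W)).has_min {x | ∀ n, (q n).1.2 < x} (by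
    obtain ⟨x, hx⟩ := W_bdd (countable_range fun n => (q n).1.2)
    exact ⟨x, fun n => hx _ ⟨n, rfl⟩⟩)
  have key : ∀ a < k, ∃ n, a ≤ (q n).1.2 := by
    intro a ha
    by_contra hne
    push Not at hne
    exact h2 a hne ha
  have nb : ∀ ρ n, ∀ t ∈ (q n).1.1, ¬ Bad ch H b k ρ t := by
    intro ρ
    induction ρ using WellFoundedLT.induction with
    | ind ρ ih =>
      intro n t ht hB
      obtain ⟨hi, h⟩ := hI k t ρ hB
      obtain ⟨m, hm⟩ := key _ hi
      have := (hg3 (q (max m n)) (I k t) (hm.trans (m1.monotone (le_max_left _ _)))).2 t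
        (m2 (le_max_right _ _) ht)
      rw [← hq] at this
      obtain ⟨ρ', h3, h4⟩ := h _ (hpick t _ k rfl) (this.2.trans (h1 _))
      exact ih ρ' h3 _ _ this.1 h4
  refine ⟨k, fun n => (q n).1.2, {t | ∀ ρ, ¬ Bad ch H b k ρ t}, fun ρ => nb ρ 0 _ rfl,
    m1.monotone, rfl, h1, fun i hi => ?_, fun i hi => ?_, fun t ht i hi => ?_⟩
  · obtain ⟨n, hn⟩ := key i hi
    exact ⟨n + 1, hn.trans_lt (m1 n.lt_succ_self)⟩
  · obtain ⟨n, hn⟩ := key i hi
    exact (hg3 (q n) i hn).1.trans (hq n ▸ h1 _)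
  · by_contra hn
    push Not at hn
    have : ∀ α, ∃ ρ, α ∉ {α | ch t α ∈ {t | ∀ ρ, ¬ Bad ch H b k ρ t} ∧ H t α < k} →
        H t α < k → Bad ch H b k ρ (ch t α) := by
      intro α
      by_cases h : ∃ ρ, Bad ch H b k ρ (ch t α)
      · obtain ⟨ρ, h⟩ := h
        exact ⟨ρ, fun _ _ => h⟩
      · exact ⟨0, fun h1 h2 => (h1 ⟨fun ρ h' => h ⟨ρ, h'⟩, h2⟩).elim⟩
    choose r hr using this
    refine ht (⨆ α, r α + 1) (Bad.mk _ t i hi _ hn r (fun α _ _ => ?_) hr)
    exact (Order.lt_add_one_iff.2 le_rfl).trans_le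
      (Ordinal.le_iSup (fun α => r α + 1) α)

end

/-- Bernstein-type colouring for uniformly continuous injections -/
theorem bern {M : Type} (lev : M → W) (k : W) (h1 : ℵ₁ ≤ #{m | lev m < k})
    (h2 : ∀ i < k, 2 ^ #{m | lev m < i} ≤ #{m | lev m < k})
    (h3 : ∀ i < k, ∃ j < k, i < j) :
    ∃ β : Set M → Set W, ∀ g : Set M → Set M, (∀ y, g y ⊆ {m | lev m < k}) →
      InjOn g (𝒫 {m | lev m < k}) →
      (∀ i < k, ∃ j < k, ∀ y y', y ∩ {m | lev m < j} = y' ∩ {m | lev m < j} →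
        g y ∩ {m | lev m < i} = g y' ∩ {m | lev m < i}) → ∀ c, ∃ y, β (g y) = c := by
  classical
  set a := #{m | lev m < k} with ha
  have ha0 : ℵ₀ ≤ a := aleph0_le_aleph 1 |>.trans h1
  let 𝓕 := {g : Set M → Set M | (∀ y, g y ⊆ {m | lev m < k}) ∧ InjOn g (𝒫 {m | lev m < k}) ∧
      (∀ i < k, ∃ j < k, ∀ y y', y ∩ {m | lev m < j} = y' ∩ {m | lev m < j} →
        g y ∩ {m | lev m < i} = g y' ∩ {m | lev m < i})}
  let B : Set (Set M) := ⋃ i : Iio k, 𝒫 {m | lev m < i.1}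
  have hB : #B ≤ a := by
    refine mk_iUnion_le_sum_mk.trans ((sum_le_sum _ (fun _ => a) fun i => ?_).trans ?_)
    · rw [mk_powerset]
      exact h2 _ i.2
    · rw [sum_const']
      exact (mul_le_mul_left ((le_aleph0_iff_set_countable.2 (W_Iio k)).trans ha0) _).trans
        (mul_eq_self ha0).le
  have hF : #𝓕 ≤ 2 ^ a := by
    have : #𝓕 ≤ #(B → 𝒫 {m | lev m < k}) := by
      refine mk_le_of_injective (f := fun g y => ⟨g.1 y.1, g.2.1 _⟩) fun g g' e => ?_
      refine Subtype.ext (funext fun y => ?_)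
      have key : ∀ i < k, g.1 y ∩ {m | lev m < i} = g'.1 y ∩ {m | lev m < i} := by
        intro i hi
        obtain ⟨j, hj, H⟩ := g.2.2.2 i hi
        obtain ⟨j', hj', H'⟩ := g'.2.2.2 i hi
        have e1 := congrArg Subtype.val (congrFun e ⟨y ∩ {m | lev m < max j j'},
          mem_iUnion.2 ⟨⟨_, max_lt hj hj'⟩, inter_subset_right⟩⟩)
        simp only at e1
        rw [H y (y ∩ {m | lev m < max j j'}), H' y (y ∩ {m | lev m < max j j'}), e1]
        · ext m
          simp only [mem_inter_iff, mem_ofPred_eq, lt_max_iff]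
          tauto
        · ext m
          simp only [mem_inter_iff, mem_ofPred_eq, lt_max_iff]
          tauto
      ext m
      constructor
      · intro hm
        obtain ⟨j, hj, h⟩ := h3 _ (g.2.1 y hm)
        exact ((key j hj).subset ⟨hm, h⟩).1
      · intro hm
        obtain ⟨j, hj, h⟩ := h3 _ (g'.2.1 y hm)
        exact ((key j hj).superset ⟨hm, h⟩).1
    rw [← power_def, mk_powerset] at this
    refine this.trans ((power_le_power_left (power_ne_zero _ two_ne_zero) hB).trans ?_)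
    rw [← power_mul, mul_eq_self ha0]
  obtain ⟨p, hp1, hp2⟩ := inj_choice (fun x : 𝓕 × Set W => x.1.1 '' 𝒫 {m | lev m < k}) (by
    intro x
    rw [mk_image_eq_of_injOn _ _ x.1.2.2.1, mk_powerset, mk_prod, lift_id, lift_id, mk_set, mkW]
    refine (mul_le_mul' hF (power_le_power_left (by simp) h1)).trans ?_
    rw [← power_add, add_eq_self ha0])
  refine ⟨Function.extend p Prod.snd fun _ => ∅, fun g g1 g2 g3 c => ?_⟩
  obtain ⟨y, -, hy⟩ := hp2 (⟨g, g1, g2, g3⟩, c)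
  exact ⟨y, by rw [show g y = p (⟨g, g1, g2, g3⟩, c) from hy, hp1.extend_apply]⟩

section
variable {Λ : Type} [LinearOrder Λ]

abbrev Nd (Λ : Type) := ℕ × (ℕ → Λ ×ₗ ℕ)

def pt (t : Nd Λ) (α : Λ) (j : ℕ) : Lex (ℕ → Λ ×ₗ ℕ) :=
  toLex (Function.update t.2 t.1 (toLex (α, j)))

def cone (t : Nd Λ) : Set (Lex (ℕ → Λ ×ₗ ℕ)) := {u | ∀ m < t.1, u m = t.2 m}

def chl (t : Nd Λ) (α : Λ) : Nd Λ := (t.1 + 1, Function.update t.2 t.1 (toLex (α, 1)))

lemma lt_of {t : Nd Λ} {u v : Lex (ℕ → Λ ×ₗ ℕ)} (hu : u ∈ cone t) (hv : v ∈ cone t)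
    (h : u t.1 < v t.1) : u < v :=
  ⟨t.1, fun j hj => (hu j hj).trans (hv j hj).symm, h⟩

omit [LinearOrder Λ] in
lemma pt_mem (t : Nd Λ) (α : Λ) (j : ℕ) : pt t α j ∈ cone t := fun _ hm =>
  Function.update_of_ne hm.ne _ _

omit [LinearOrder Λ] in
lemma pt_val (t : Nd Λ) (α : Λ) (j : ℕ) : pt t α j t.1 = toLex (α, j) :=
  Function.update_self _ _ _

omit [LinearOrder Λ] in
lemma chl_mem {t : Nd Λ} {α : Λ} {u : Lex (ℕ → Λ ×ₗ ℕ)} (h : u ∈ cone (chl t α)) :
    u ∈ cone t ∧ u t.1 = toLex (α, 1) :=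
  ⟨fun m hm => (h m (Nat.lt_succ_of_lt hm)).trans (Function.update_of_ne hm.ne _ _),
    (h t.1 (Nat.lt_succ_self _)).trans (Function.update_self _ _ _)⟩

lemma lx1 {α α' : Λ} (h : α < α') (i j : ℕ) : toLex (α, i) < toLex (α', j) :=
  Prod.Lex.toLex_lt_toLex.2 (Or.inl h)

lemma lx2 (α : Λ) {i j : ℕ} (h : i < j) : toLex (α, i) < toLex (α, j) :=
  Prod.Lex.toLex_lt_toLex.2 (Or.inr ⟨rfl, h⟩)

theorem core {M : Type} (lev : M → W) (x0 : W) (h1 : ℵ₁ ≤ #{m | lev m < x0})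
    (h2 : ∀ i, ∃ j, 2 ^ #{m | lev m < i} ≤ #{m | lev m < j})
    (h3 : ∀ i, ℵ₁ * 2 ^ #{m | lev m < i} < #Λ) :
    ∃ c : Set M → Set W, ∀ c₀ (f : Lex (ℕ → Λ ×ₗ ℕ) → Set M), StrictMono f →
      ¬ ∀ x, c (f x) = c₀ := by
  classical
  have hβ : ∀ k, ∃ β : Set M → Set W, ℵ₁ ≤ #{m | lev m < k} →
      (∀ i < k, 2 ^ #{m | lev m < i} ≤ #{m | lev m < k}) → (∀ i < k, ∃ j < k, i < j) →
      ∀ g : Set M → Set M, (∀ y, g y ⊆ {m | lev m < k}) →
      InjOn g (𝒫 {m | lev m < k}) →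
      (∀ i < k, ∃ j < k, ∀ y y', y ∩ {m | lev m < j} = y' ∩ {m | lev m < j} →
        g y ∩ {m | lev m < i} = g y' ∩ {m | lev m < i}) → ∀ c, ∃ y, β (g y) = c := by
    intro k
    by_cases h : ℵ₁ ≤ #{m | lev m < k} ∧
      (∀ i < k, 2 ^ #{m | lev m < i} ≤ #{m | lev m < k}) ∧ (∀ i < k, ∃ j < k, i < j)
    · obtain ⟨β, hβ⟩ := bern lev k h.1 h.2.1 h.2.2
      exact ⟨β, fun _ _ _ => hβ⟩
    · exact ⟨fun _ => ∅, fun a b c => (h ⟨a, b, c⟩).elim⟩
  choose β hβ using hβ
  have hc : ∀ x : Set M, ∃ c, ∀ k, β k (x ∩ {m | lev m < k}) ≠ c := by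
    intro x
    by_contra hn
    push Not at hn
    exact Function.cantor_surjective (fun k => β k (x ∩ {m | lev m < k})) hn
  choose c hc using hc
  refine ⟨c, fun c₀ f hf hcf => ?_⟩
  have mono : ∀ {i j : W}, i ≤ j → {m | lev m < i} ⊆ {m | lev m < j} :=
    fun h m hm => lt_of_lt_of_le hm h
  have hw : ∀ (t : Nd Λ) α, ∃ w, w ∈ f (pt t α 3) ∧ w ∉ f (pt t α 2) := fun t α =>
    exists_of_ssubset (hf (lt_of (pt_mem t α 2) (pt_mem t α 3) (by
      rw [pt_val, pt_val]; exact lx2 _ (by norm_num))))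
  choose w hw1 hw2 using hw
  choose F hF using h2
  have hne : Nonempty Λ := mk_ne_zero_iff.1 (zero_le.trans_lt (h3 x0)).ne'
  obtain ⟨α0⟩ := hne
  obtain ⟨k, e, S, hr, em, e0, ek, ecof, hFk, hS⟩ := rs chl (fun t α => lev (w t α))
    (fun i => 2 ^ #{m | lev m < i}) h3 F x0 (0, fun _ => toLex (α0, 0))
  let cst : W → Nd Λ → Prop := fun i t => ∀ u ∈ cone t, ∀ v ∈ cone t,
    f u ∩ {m | lev m < i} = f v ∩ {m | lev m < i}
  have nc : ∀ i t, #{α | ¬ cst i (chl t α)} ≤ 2 ^ #{m | lev m < i} := by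
    intro i t
    have key : ∀ α α', α < α' → f (pt t α 0) ∩ {m | lev m < i} = f (pt t α' 0) ∩ {m | lev m < i} →
        cst i (chl t α) := by
      intro α α' h E
      have : ∀ u ∈ cone (chl t α), f u ∩ {m | lev m < i} = f (pt t α 0) ∩ {m | lev m < i} := by
        intro u hu
        obtain ⟨u1, u2⟩ := chl_mem hu
        have a1 := hf.monotone (lt_of (pt_mem t α 0) u1 (by
          rw [pt_val, u2]; exact lx2 _ (by norm_num))).le
        have a2 := hf.monotone (lt_of u1 (pt_mem t α' 0) (by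
          rw [pt_val, u2]; exact lx1 h _ _)).le
        exact Subset.antisymm (E ▸ inter_subset_inter_left _ a2) (inter_subset_inter_left _ a1)
      exact fun u hu v hv => (this u hu).trans (this v hv).symm
    rw [← mk_powerset]
    refine mk_le_of_injective (f := fun α => ⟨f (pt t α.1 0) ∩ {m | lev m < i},
      inter_subset_right⟩) fun α α' E => ?_
    have E' := congrArg Subtype.val E
    rcases lt_trichotomy α.1 α'.1 with h | h | h
    · exact (α.2 (key _ _ h E')).elim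
    · exact Subtype.ext h
    · exact (α'.2 (key _ _ h E'.symm)).elim
  have hε : ∀ (t : Nd Λ) (n : ℕ), ∃ ε : Set M → Λ, t ∈ S → InjOn ε (𝒫 {m | lev m < e n}) ∧
      ∀ y ∈ 𝒫 {m | lev m < e n}, chl t (ε y) ∈ S ∧ lev (w t (ε y)) < k ∧
        cst (e n) (chl t (ε y)) := by
    intro t n
    by_cases ht : t ∈ S
    · have a0 : ℵ₀ ≤ 2 ^ #{m | lev m < e n} := ((aleph0_le_aleph 1).trans (h1.trans
        (mk_le_mk_of_subset (mono (e0 ▸ em (Nat.zero_le n)))))).trans (cantor _).le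
      have : #(𝒫 {m | lev m < e n}) ≤
          #{α | chl t α ∈ S ∧ lev (w t α) < k ∧ cst (e n) (chl t α)} := by
        rw [mk_powerset]
        by_contra hn
        push Not at hn
        have s1 : {α | chl t α ∈ S ∧ lev (w t α) < k} ⊆
            {α | chl t α ∈ S ∧ lev (w t α) < k ∧ cst (e n) (chl t α)} ∪
              {α | ¬ cst (e n) (chl t α)} := fun α hα => by
          by_cases h : cst (e n) (chl t α)
          · exact Or.inl ⟨hα.1, hα.2, h⟩
          · exact Or.inr h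
        exact absurd (((mk_le_mk_of_subset s1).trans (mk_union_le _ _)).trans
          ((add_le_add hn.le (nc _ _)).trans (add_eq_self a0).le)) (not_le.2 (hS t ht _ (ek n)))
      obtain ⟨j⟩ := (le_def _ _).1 this
      refine ⟨fun y => if h : y ∈ 𝒫 {m | lev m < e n} then (j ⟨y, h⟩).1 else α0,
        fun _ => ⟨fun y hy y' hy' E => ?_, fun y hy => ?_⟩⟩
      · simp only [dif_pos hy, dif_pos hy'] at E
        exact congrArg Subtype.val (j.injective (Subtype.ext E))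
      · simp only [dif_pos hy]
        exact (j ⟨y, hy⟩).2
    · exact ⟨fun _ => α0, fun h => (ht h).elim⟩
  choose ε hε using hε
  let nd : Set M → ℕ → Nd Λ := fun y n => Nat.rec (0, fun _ => toLex (α0, 0))
    (fun n t => chl t (ε t n (y ∩ {m | lev m < e n}))) n
  have nds : ∀ y n, nd y (n + 1) = chl (nd y n) (ε (nd y n) n (y ∩ {m | lev m < e n})) :=
    fun _ _ => rfl
  have nd1 : ∀ y n, (nd y n).1 = n := fun y n => by
    induction n with
    | zero => rfl
    | succ n ih => rw [nds]; exact congrArg (· + 1) ih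
  have ndS : ∀ y n, nd y n ∈ S := fun y n => by
    induction n with
    | zero => exact hr
    | succ n ih => exact ((hε _ n ih).2 _ inter_subset_right).1
  have ndE : ∀ y y' n, (∀ m < n, y ∩ {x | lev x < e m} = y' ∩ {x | lev x < e m}) →
      nd y n = nd y' n := fun y y' n => by
    induction n with
    | zero => exact fun _ => rfl
    | succ n ih =>
      intro h
      rw [nds, nds, ih fun m hm => h m (Nat.lt_succ_of_lt hm), h n n.lt_succ_self]
  let br : Set M → Lex (ℕ → Λ ×ₗ ℕ) := fun y => toLex fun m => (nd y (m + 1)).2 m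
  have hbr : ∀ y n, br y ∈ cone (nd y n) := fun y n => by
    induction n with
    | zero => exact fun m hm => absurd hm (Nat.not_lt_zero _)
    | succ n ih =>
      intro m hm
      rcases Nat.lt_succ_iff_lt_or_eq.1 (hm.trans_eq (nd1 y (n + 1))) with h | rfl
      · rw [ih m (h.trans_eq (nd1 y n).symm), nds]
        exact (Function.update_of_ne (h.trans_eq (nd1 y n).symm).ne _ _).symm
      · rfl
  refine Exists.elim (hβ k (h1.trans (mk_le_mk_of_subset (mono (e0 ▸ (ek 0).le))))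
    (fun i hi => (hF i).trans (mk_le_mk_of_subset (mono (hFk i hi).le)))
    (fun i hi => let ⟨n, hn⟩ := ecof i hi; ⟨_, ek n, hn⟩)
    (fun y => f (br y) ∩ {m | lev m < k}) (fun _ => inter_subset_right) ?_ ?_ c₀)
    fun y hy => hc _ k (hy.trans (hcf _).symm)
  · intro y hy y' hy' E
    by_contra hne
    have ex : ∃ n, y ∩ {x | lev x < e n} ≠ y' ∩ {x | lev x < e n} := by
      by_contra hn
      push Not at hn
      refine hne (Subset.antisymm (fun m hm => ?_) fun m hm => ?_)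
      · obtain ⟨n, h⟩ := ecof _ (hy hm)
        exact ((hn n).subset ⟨hm, h⟩).1
      · obtain ⟨n, h⟩ := ecof _ (hy' hm)
        exact ((hn n).superset ⟨hm, h⟩).1
    have e1 := ndE y y' (Nat.find ex) fun m hm => not_not.1 (Nat.find_min ex hm)
    have e2 := Nat.find_spec ex
    set n := Nat.find ex
    have key : ∀ z z' : Set M, nd z n = nd z' n →
        ε (nd z n) n (z ∩ {m | lev m < e n}) < ε (nd z n) n (z' ∩ {m | lev m < e n}) →
        f (br z) ∩ {m | lev m < k} ≠ f (br z') ∩ {m | lev m < k} := by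
      intro z z' h hlt E
      obtain ⟨u1, u2⟩ := chl_mem (nds z n ▸ hbr z (n + 1))
      obtain ⟨v1, v2⟩ := chl_mem (nds z' n ▸ hbr z' (n + 1))
      rw [← h] at v1 v2
      have a1 := hf.monotone (lt_of u1 (pt_mem _ (ε (nd z n) n (z ∩ {m | lev m < e n})) 2) (by
        rw [pt_val, u2]; exact lx2 _ (by norm_num))).le
      have a2 := hf.monotone (lt_of (pt_mem _ (ε (nd z n) n (z ∩ {m | lev m < e n})) 3) v1 (by
        rw [pt_val, v2]; exact lx1 hlt _ _)).le
      exact hw2 _ _ (a1 (E.superset ⟨a2 (hw1 _ _),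
        ((hε _ n (ndS z n)).2 _ inter_subset_right).2.1⟩).1)
    rcases lt_trichotomy (ε (nd y n) n (y ∩ {m | lev m < e n}))
      (ε (nd y n) n (y' ∩ {m | lev m < e n})) with h | h | h
    · exact key y y' e1 h E
    · exact e2 ((hε _ n (ndS y n)).1 inter_subset_right inter_subset_right h)
    · exact key y' y e1.symm (e1 ▸ h) E.symm
  · intro i hi
    obtain ⟨n, hn⟩ := ecof i hi
    refine ⟨e n, ek n, fun y y' E => ?_⟩
    have e1 := ndE y y' (n + 1) fun m hm => by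
      have := mono (em (Nat.lt_succ_iff.1 hm))
      rw [← inter_eq_self_of_subset_right this, ← inter_assoc, ← inter_assoc, E]
    have e2 := ((hε _ n (ndS y n)).2 _ (inter_subset_right (s := y))).2.2 _ (hbr y (n + 1)) _
      (by rw [← nds, e1]; exact hbr y' (n + 1))
    have s1 := mono hi.le
    have s2 := mono hn.le
    rw [inter_assoc, inter_assoc, inter_eq_self_of_subset_right s1,
      ← inter_eq_self_of_subset_right s2, ← inter_assoc, ← inter_assoc, e2]

end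

end Pool.Agent.Lib.helper22.RSTree
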