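import Mathlib
import Pool.Agent.Lib.helper22.RayA

set_option autoImplicit false

namespace Pool.Agent.Lib.helper22.Ray

open Set Filter Topology

universe u v

lemma IsOrderTree.of {T : Type u} [PartialOrder T] (root : ∃ r : T, ∀ t, r ≤ t)
    (comp : ∀ a b t : T, a ≤ t → b ≤ t → a ≤ b ∨ b ≤ a)
    (wf : WellFounded ((· < ·) : T → T → Prop)) : IsOrderTree T := by
  refine ⟨root, fun t => ?_⟩
  have hwf : WellFounded ((· < ·) : Iic t → Iic t → Prop) := InvImage.wf Subtype.val wf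
  have tri : ∀ a b : Iic t, ¬ a < b → ¬ b < a → a = b := by
    intro a b h1 h2
    rcases comp a.1 b.1 t a.2 b.2 with h | h
    · exact (eq_or_lt_of_le (show a ≤ b from h)).resolve_right h1
    · exact ((eq_or_lt_of_le (show b ≤ a from h)).resolve_right h2).symm
  exact { wf := hwf, trichotomous := tri }

lemma cont_into {X : Type v} [TopologicalSpace X] {T : Type u} [PartialOrder T] {e : Prop}
    (f : X → RaySp e T) (h : ∀ t, IsClopen {x | t ∈ (f x).1}) : Continuous f := by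
  refine continuous_induced_rng.2 (continuous_pi fun t => continuous_discrete_rng.2 fun b => ?_)
  cases b
  · convert (h t).compl.isOpen using 1
    ext x; simp [chi]
  · convert (h t).isOpen using 1
    ext x; simp [chi]

variable {T : Type u} [PartialOrder T]

def LeA (A : Set T) (s t : T) : Prop := s ≤ t ∧ ∀ a ∈ A, s < a → ¬ a ≤ t

structure Cut (T : Type u) [PartialOrder T] : Type u where
  A : Set T
  H : T → Set T
  tree : IsOrderTree T
  h1 : ∀ s t, LeA A s t → H s = H t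
  h2 : ∀ s t, s ∈ H t → H s = ∅
  h3 : ∀ r s t, LeA A r s → s ∈ H t → r ∈ H t
  h4 : ∀ r s t, r ∈ H t → s ∈ H t → LeA A r s ∨ LeA A s r

lemma LeA.refl (A : Set T) (s : T) : LeA A s s := ⟨le_rfl, fun _ _ h => h.not_ge⟩

lemma LeA.trans (h : IsOrderTree T) {A : Set T} {r s t : T} (h1 : LeA A r s) (h2 : LeA A s t) :
    LeA A r t := by
  refine ⟨h1.1.trans h2.1, fun a ha h3 h4 => ?_⟩
  rcases h.comp h4 h2.1 with h5 | h5
  · exact h1.2 a ha h3 h5
  · rcases eq_or_lt_of_le h5 with rfl | h6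
    · exact h1.2 _ ha h3 le_rfl
    · exact h2.2 a ha h6 h4

lemma LeA.comp (h : IsOrderTree T) {A : Set T} {r s t : T} (h1 : LeA A r t) (h2 : LeA A s t) :
    LeA A r s ∨ LeA A s r := by
  rcases h.comp h1.1 h2.1 with h3 | h3
  · exact Or.inl ⟨h3, fun a ha h4 h5 => h1.2 a ha h4 (h5.trans h2.1)⟩
  · exact Or.inr ⟨h3, fun a ha h4 h5 => h2.2 a ha h4 (h5.trans h1.1)⟩

def Cut.F (_ : Cut T) : Type u := T

instance (c : Cut T) : PartialOrder c.F where
  le s t := LeA c.A s t ∨ s ∈ c.H t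
  le_refl s := Or.inl (LeA.refl _ _)
  le_trans r s t h1 h2 := by
    rcases h1 with h1 | h1 <;> rcases h2 with h2 | h2
    · exact Or.inl (h1.trans c.tree h2)
    · exact Or.inr (c.h3 _ _ _ h1 h2)
    · exact Or.inr (c.h1 _ _ h2 ▸ h1)
    · rw [c.h2 _ _ h2] at h1; exact absurd h1 (notMem_empty _)
  le_antisymm s t h1 h2 := by
    rcases h1 with h1 | h1 <;> rcases h2 with h2 | h2
    · exact le_antisymm (α := T) h1.1 h2.1
    · have := c.h2 _ _ h2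
      rw [c.h1 _ _ h1, this] at h2; exact absurd h2 (notMem_empty _)
    · have := c.h2 _ _ h1
      rw [c.h1 _ _ h2, this] at h1; exact absurd h1 (notMem_empty _)
    · rw [c.h2 _ _ h2] at h1; exact absurd h1 (notMem_empty _)

def Cut.up (c : Cut T) (t : T) : c.F := t
def Cut.dn (c : Cut T) (t : c.F) : T := t

lemma Cut.le_def (c : Cut T) (s t : T) : c.up s ≤ c.up t ↔ LeA c.A s t ∨ s ∈ c.H t := Iff.rfl

lemma Cut.wf (c : Cut T) : WellFounded ((· < ·) : c.F → c.F → Prop) := by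
  have lt : ∀ s t : T, c.up s < c.up t → (s < t ∧ c.H s = c.H t) ∨ s ∈ c.H t := by
    intro s t h
    rcases h.le with h1 | h1
    · exact Or.inl ⟨lt_of_le_of_ne h1.1 h.ne, c.h1 _ _ h1⟩
    · exact Or.inr h1
  have a1 : ∀ t : T, c.H t = ∅ → Acc ((· < ·) : c.F → c.F → Prop) (c.up t) := by
    intro t
    induction t using c.tree.wf.wf.induction with
    | _ t ih =>
      intro ht
      refine ⟨_, fun s hs => ?_⟩
      rcases lt s t hs with h | h
      · exact ih s h.1 (h.2.trans ht)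
      · rw [ht] at h; exact absurd h (notMem_empty _)
  refine ⟨fun t => ?_⟩
  induction t using c.tree.wf.wf.induction with
  | _ t ih =>
    refine ⟨_, fun s hs => ?_⟩
    rcases lt s t hs with h | h
    · exact ih s h.1
    · exact a1 s (c.h2 _ _ h)

lemma Cut.comp (c : Cut T) (a b t : c.F) (ha : a ≤ t) (hb : b ≤ t) : a ≤ b ∨ b ≤ a := by
  rcases ha with h1 | h1 <;> rcases hb with h2 | h2
  · exact (h1.comp c.tree h2).imp Or.inl Or.inl
  · exact Or.inr (Or.inr (c.h1 _ _ h1 ▸ h2))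
  · exact Or.inl (Or.inr (c.h1 _ _ h2 ▸ h1))
  · exact (c.h4 _ _ _ h1 h2).imp Or.inl Or.inl

lemma Cut.newTree (c : Cut T) : IsOrderTree (WithBot c.F) := by
  have : WellFoundedLT c.F := ⟨c.wf⟩
  refine IsOrderTree.of ⟨⊥, fun _ => bot_le⟩ (fun a b t ha hb => ?_) wellFounded_lt
  induction a with
  | bot => exact Or.inl bot_le
  | coe a =>
    induction b with
    | bot => exact Or.inr bot_le
    | coe b =>
      induction t with
      | bot => simp at ha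
      | coe t =>
        simp only [WithBot.coe_le_coe] at ha hb ⊢
        exact c.comp a b t ha hb

def tail (A Q : Set T) : Set T := {t ∈ Q | ∀ a ∈ A, a ∈ Q → ¬ t < a}

lemma tail_le {A : Set T} {Q : RaySp False T} {s t : T} (hs : s ∈ tail A Q.1) (ht : t ∈ Q.1)
    (hst : s ≤ t) : LeA A s t ∧ t ∈ tail A Q.1 :=
  ⟨⟨hst, fun a ha h1 h2 => hs.2 a ha (Q.lower h2 ht) h1⟩,
    ht, fun a ha h1 h2 => hs.2 a ha h1 (hst.trans_lt h2)⟩

lemma tail_comp {A : Set T} {Q : RaySp False T} {s t : T} (hs : s ∈ tail A Q.1)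
    (ht : t ∈ tail A Q.1) : LeA A s t ∨ LeA A t s :=
  (Q.comp hs.1 ht.1).imp (fun h => (tail_le hs ht.1 h).1) fun h => (tail_le ht hs.1 h).1

lemma tail_lower {A : Set T} {Q : RaySp False T} {s t : T} (ht : t ∈ tail A Q.1)
    (hst : LeA A s t) : s ∈ tail A Q.1 := by
  refine ⟨Q.lower hst.1 ht.1, fun a ha h1 h2 => ?_⟩
  rcases Q.comp h1 ht.1 with h3 | h3
  · exact hst.2 a ha h2 h3
  · rcases eq_or_lt_of_le h3 with rfl | h4
    · exact hst.2 _ ha h2 le_rfl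
    · exact ht.2 a ha h1 h4

lemma tail_above {A : Set T} {Q : RaySp False T} {s t : T} (hs : s ∈ tail A Q.1) (ht : t ∈ Q.1) :
    ∃ z ∈ tail A Q.1, t ≤ z := by
  rcases Q.comp hs.1 ht with h | h
  · exact ⟨t, (tail_le hs ht h).2, le_rfl⟩
  · exact ⟨s, hs, h⟩

def Cut.P0 (c : Cut T) (Q : Set T) : Set T :=
  {t | t ∈ tail c.A Q ∨ ∃ t' ∈ tail c.A Q, t ∈ c.H t'}

def Cut.Y (c : Cut T) (Q : Set T) : Set (WithBot c.F) :=
  insert ⊥ ((fun t => (c.up t : WithBot c.F)) '' c.P0 Q)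

lemma Cut.mem_Y (c : Cut T) (Q : Set T) (t : T) : (c.up t : WithBot c.F) ∈ c.Y Q ↔ t ∈ c.P0 Q := by
  refine ⟨?_, fun h => Or.inr ⟨t, h, rfl⟩⟩
  rintro (h | ⟨s, hs, h⟩)
  · exact absurd h WithBot.coe_ne_bot
  · have : s = t := WithBot.coe_injective h
    exact this ▸ hs

lemma Cut.H_tail (c : Cut T) {Q : RaySp False T} {s t : T} (hs : s ∈ tail c.A Q.1)
    (ht : t ∈ tail c.A Q.1) : c.H s = c.H t :=
  (tail_comp hs ht).elim (c.h1 _ _) fun h => (c.h1 _ _ h).symm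

lemma Cut.Y_ray (c : Cut T) (Q : RaySp False T) (hQ : (tail c.A Q.1).Nonempty) :
    IsRay False (c.Y Q.1) := by
  refine ⟨?_, ?_, ?_, Or.inr ⟨⊥, mem_insert _ _⟩⟩
  · intro b a hab hb
    induction a with
    | bot => exact mem_insert _ _
    | coe a =>
      induction b with
      | bot => simp at hab
      | coe b =>
        have h1 : c.up a ≤ c.up b := WithBot.coe_le_coe.1 hab
        refine (c.mem_Y _ a).2 ?_
        rcases (c.mem_Y _ b).1 hb with h2 | ⟨t, h2, h3⟩ <;> rcases h1 with h1 | h1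
        · exact Or.inl (tail_lower h2 h1)
        · exact Or.inr ⟨b, h2, h1⟩
        · exact Or.inr ⟨t, h2, c.h3 _ _ _ h1 h3⟩
        · rw [show c.H (c.up b) = ∅ from c.h2 _ _ h3] at h1; exact absurd h1 (notMem_empty _)
  · rintro a (rfl | ⟨a, ha, rfl⟩) b hb _
    · exact Or.inl bot_le
    rcases hb with rfl | ⟨b, hb, rfl⟩
    · exact Or.inr bot_le
    simp only [WithBot.coe_le_coe, c.le_def]
    rcases ha with ha | ⟨s, hs, ha⟩ <;> rcases hb with hb | ⟨t, ht, hb⟩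
    · exact (tail_comp ha hb).imp Or.inl Or.inl
    · exact Or.inr (Or.inr (c.H_tail ht ha ▸ hb))
    · exact Or.inl (Or.inr (c.H_tail hs hb ▸ ha))
    · exact (c.h4 _ _ t (c.H_tail hs ht ▸ ha) hb).imp Or.inl Or.inl
  · rintro a (rfl | ⟨a, ha, rfl⟩)
    · obtain ⟨t, ht⟩ := hQ
      exact ⟨_, (c.mem_Y _ t).2 (Or.inl ht), WithBot.bot_lt_coe _⟩
    rcases ha with ha | ⟨s, hs, ha⟩
    · obtain ⟨b, hb, hab⟩ := Q.2.2.2.1 a ha.1
      exact ⟨_, (c.mem_Y _ b).2 (Or.inl (tail_le ha hb hab.le).2), WithBot.coe_lt_coe.2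
        (lt_of_le_of_ne (Or.inl (tail_le ha hb hab.le).1) hab.ne)⟩
    · refine ⟨_, (c.mem_Y _ s).2 (Or.inl hs), WithBot.coe_lt_coe.2
        (lt_of_le_of_ne (Or.inr ha) fun h => ?_)⟩
      have h1 : a = s := h
      have h2 := c.h2 _ _ ha
      rw [← h1, h2] at ha
      exact notMem_empty _ ha

lemma Cut.Y_inj (c : Cut T) {Q Q' : RaySp False T} (hQ : (tail c.A Q.1).Nonempty)
    (hQ' : (tail c.A Q'.1).Nonempty) (h : c.Y Q.1 = c.Y Q'.1) : Q = Q' := by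
  have key : ∀ Q Q' : RaySp False T, (tail c.A Q.1).Nonempty → c.Y Q.1 = c.Y Q'.1 → Q.1 ⊆ Q'.1 := by
    rintro Q Q' ⟨t, ht⟩ h y hy
    obtain ⟨z, hz, hyz⟩ := tail_above ht hy
    rcases (c.mem_Y _ z).1 (h ▸ (c.mem_Y _ z).2 (Or.inl hz)) with h1 | ⟨s, h1, h2⟩
    · exact Q'.lower hyz h1.1
    · rcases (c.mem_Y _ s).1 (h.symm ▸ (c.mem_Y _ s).2 (Or.inl h1)) with h3 | ⟨r, -, h3⟩
      · have := c.h2 _ _ h2
        rw [c.H_tail h3 hz, this] at h2
        exact absurd h2 (notMem_empty _)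
      · rw [c.h2 _ _ h3] at h2
        exact absurd h2 (notMem_empty _)
  exact Subtype.ext (Subset.antisymm (key Q Q' hQ h) (key Q' Q hQ' h.symm))

lemma Cut.Y_surj (c : Cut T) (Y : RaySp False (WithBot c.F)) :
    ∃ Q : RaySp False T, (tail c.A Q.1).Nonempty ∧ c.Y Q.1 = Y.1 := by
  have hbot : ⊥ ∈ Y.1 := by
    obtain ⟨y, hy⟩ := Y.2.2.2.2.resolve_left id
    exact Y.lower bot_le hy
  have hc : ∀ s t : T, (c.up s : WithBot c.F) ∈ Y.1 → (c.up t : WithBot c.F) ∈ Y.1 →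
      c.up s ≤ c.up t ∨ c.up t ≤ c.up s := fun s t hs ht => by
    simpa only [WithBot.coe_le_coe] using Y.comp hs ht
  have hn : ∀ y ∈ Y.1, ∃ t : T, (c.up t : WithBot c.F) ∈ Y.1 ∧ y < c.up t := by
    intro y hy
    obtain ⟨b, hb, h⟩ := Y.2.2.2.1 y hy
    induction b with
    | bot => simp at h
    | coe b => exact ⟨b, hb, h⟩
  obtain ⟨t0, h0, h1⟩ : ∃ t0 : T, (c.up t0 : WithBot c.F) ∈ Y.1 ∧
      ∀ t : T, (c.up t : WithBot c.F) ∈ Y.1 → t0 ∉ c.H t := by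
    by_cases h : ∃ t : T, (c.up t : WithBot c.F) ∈ Y.1 ∧ (c.H t).Nonempty
    · obtain ⟨t, h1, h2⟩ := h
      exact ⟨t, h1, fun s _ h3 => by rw [c.h2 _ _ h3] at h2; exact not_nonempty_empty h2⟩
    · obtain ⟨t, ht, -⟩ := hn _ hbot
      exact ⟨t, ht, fun s hs h3 => h ⟨s, hs, t, h3⟩⟩
  have h2 : ∀ s t : T, LeA c.A t0 s → (c.up t : WithBot c.F) ∈ Y.1 → c.up s ≤ c.up t →
      LeA c.A s t := fun s t h3 h4 h5 => h5.resolve_right fun h6 => h1 t h4 (c.h3 _ _ _ h3 h6)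
  have h3 : ∀ s t : T, LeA c.A t0 s → LeA c.A t0 t → (c.up s : WithBot c.F) ∈ Y.1 →
      (c.up t : WithBot c.F) ∈ Y.1 → ∃ z : T, LeA c.A t0 z ∧ (c.up z : WithBot c.F) ∈ Y.1 ∧
        s ≤ z ∧ t ≤ z := by
    intro s t a1 a2 a3 a4
    rcases hc s t a3 a4 with h | h
    · exact ⟨t, a2, a4, (h2 s t a1 a4 h).1, le_rfl⟩
    · exact ⟨s, a1, a3, le_rfl, (h2 t s a2 a3 h).1⟩
  let Q : RaySp False T := ⟨{y | ∃ z : T, LeA c.A t0 z ∧ (c.up z : WithBot c.F) ∈ Y.1 ∧ y ≤ z},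
    fun _ _ hab ⟨z, a1, a2, a3⟩ => ⟨z, a1, a2, hab.trans a3⟩,
    fun a ⟨s, a1, a2, a3⟩ b ⟨t, b1, b2, b3⟩ _ => by
      obtain ⟨z, -, -, z1, z2⟩ := h3 s t a1 b1 a2 b2
      exact c.tree.comp (a3.trans z1) (b3.trans z2),
    fun a ⟨s, a1, a2, a3⟩ => by
      obtain ⟨t, t1, t2⟩ := hn _ a2
      have t3 : c.up s < c.up t := WithBot.coe_lt_coe.1 t2
      have t4 := h2 s t a1 t1 t3.le
      exact ⟨t, ⟨t, a1.trans c.tree t4, t1, le_rfl⟩, a3.trans_lt (lt_of_le_of_ne t4.1 t3.ne)⟩,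
    Or.inr ⟨t0, t0, LeA.refl _ _, h0, le_rfl⟩⟩
  have ht0 : t0 ∈ tail c.A Q.1 := ⟨⟨t0, LeA.refl _ _, h0, le_rfl⟩,
    fun a ha ⟨z, z1, _, z3⟩ h => z1.2 a ha h z3⟩
  have ht : ∀ t ∈ tail c.A Q.1, (c.up t : WithBot c.F) ∈ Y.1 := by
    intro t ht
    obtain ⟨z, z1, z2, z3⟩ := ht.1
    exact Y.lower (WithBot.coe_le_coe.2 (Or.inl (tail_le ht ⟨z, z1, z2, le_rfl⟩ z3).1)) z2
  refine ⟨Q, ⟨t0, ht0⟩, Subset.antisymm ?_ fun y hy => ?_⟩
  · rintro y (rfl | ⟨t, h4 | ⟨s, h4, h5⟩, rfl⟩)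
    · exact hbot
    · exact ht t h4
    · exact Y.lower (WithBot.coe_le_coe.2 (Or.inr h5)) (ht s h4)
  · induction y with
    | bot => exact mem_insert _ _
    | coe y =>
      refine (c.mem_Y _ y).2 ?_
      rcases hc y t0 hy h0 with (h4 | h4) | h4
      · exact Or.inl (tail_lower ht0 h4)
      · exact Or.inr ⟨t0, ht0, h4⟩
      · have h5 := h2 t0 y (LeA.refl _ _) hy h4
        exact Or.inl (tail_le ht0 ⟨y, h5, hy, le_rfl⟩ h5.1).2

end Pool.Agent.Lib.helper22.Ray
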