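import Mathlib
import Pool.Agent.Lib.helper22.RayD

set_option autoImplicit false

namespace Pool.Agent.Lib.helper22.Ray

open Set Filter Topology

universe u v

variable {T : Type u} [PartialOrder T]

section defs
variable (K : Set (RaySp False T))

def TK : Set T := {t | ∃ R ∈ K, t ∈ R.1}
def A0 : Set T := {a ∈ TK K | (∃ a' ∈ TK K, a' ≠ a ∧ Iio a' = Iio a) ∨ ∃ R ∈ K, R.1 = Iio a}
def Good (R : RaySp False T) (t : T) : Prop := R ∈ K ∧ t ∈ R.1 ∧ ∀ a ∈ A0 K, a ∈ R.1 → ¬ t < a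
def LimN (v : T) : Prop := ∀ a < v, ∃ b < v, a < b
def Cand (R : RaySp False T) (v : T) : Prop := LimN v ∧ v ∈ R.1 ∧ ∃ s < v, Good K R s
def Top (R : RaySp False T) (v : T) : Prop := Cand K R v ∧ ∀ v' < v, ¬ Cand K R v'
def A1 : Set T := {t | ∃ R, Good K R t ∧ ∀ v ≤ t, ¬ Cand K R v}
def A2 : Set T := {w | ∃ R v, Top K R v ∧ Iio w = Iio v}
def AA : Set T := A0 K ∪ A1 K ∪ A2 K
def DD (R : RaySp False T) (v t : T) : Prop := (∃ s ≤ t, Good K R s) ∧ ¬ v ≤ t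
def HH (t : T) : Set T := {s | ∃ R v, Top K R v ∧ DD K R v t ∧ s ∈ R.1 ∧ v ≤ s}
end defs

variable {K : Set (RaySp False T)}

lemma Good.up {R : RaySp False T} {s t : T} (h : Good K R s) (ht : t ∈ R.1) (hst : s ≤ t) :
    Good K R t := ⟨h.1, ht, fun a ha h1 h2 => h.2.2 a ha h1 (hst.trans_lt h2)⟩

lemma Good.tk {R : RaySp False T} {s : T} (h : Good K R s) : s ∈ TK K := ⟨R, h.1, h.2.1⟩

lemma first_out (h : IsOrderTree T) (R : RaySp False T) {b : T} (hb : b ∉ R.1) :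
    ∃ w ≤ b, w ∉ R.1 ∧ ∀ u < w, u ∈ R.1 := by
  obtain ⟨w, hw, hmin⟩ := h.wf.wf.has_min {x | x ≤ b ∧ x ∉ R.1} ⟨b, le_rfl, hb⟩
  refine ⟨w, hw.1, hw.2, fun u hu => ?_⟩
  by_contra h3
  exact hmin u ⟨hu.le.trans hw.1, h3⟩ hu

lemma G1 (h : IsOrderTree T) {R : RaySp False T} {t b : T} (hg : Good K R t) (hb : b ∈ TK K)
    (htb : t ≤ b) : b ∈ R.1 ∨ ∀ u ∈ R.1, u < b := by
  by_cases hbR : b ∈ R.1
  · exact Or.inl hbR
  right
  obtain ⟨w, h1, h2, h3⟩ := first_out h R hbR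
  have htw : t < w := by
    rcases h.comp htb h1 with h4 | h4
    · exact lt_of_le_of_ne h4 fun h5 => h2 (h5 ▸ hg.2.1)
    · exact absurd (R.lower h4 hg.2.1) h2
  by_contra hne
  have : {u | u ∈ R.1 ∧ ¬ u < w}.Nonempty := by
    by_contra h4
    refine hne fun u hu => ?_
    by_contra h5
    exact h4 ⟨u, hu, fun h6 => h5 (h6.trans_le h1)⟩
  obtain ⟨a, ha, hmin⟩ := h.wf.wf.has_min _ this
  have e : Iio w = Iio a := by
    ext x
    refine ⟨fun hx => ?_, fun hx => ?_⟩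
    · rcases R.comp (h3 x hx) ha.1 with h4 | h4
      · exact lt_of_le_of_ne h4 fun h5 => ha.2 (h5 ▸ hx)
      · exact absurd (h4.trans_lt hx) ha.2
    · by_contra h4
      exact hmin x ⟨R.lower (le_of_lt hx) ha.1, h4⟩ hx
  obtain ⟨Q, hQ, hbQ⟩ := hb
  refine hg.2.2 a ⟨⟨R, hg.1, ha.1⟩, Or.inl ⟨w, ⟨Q, hQ, Q.lower h1 hbQ⟩,
    fun h4 => h2 (h4 ▸ ha.1), e⟩⟩ ha.1 ?_
  have : t ∈ Iio w := htw
  rwa [e] at this

lemma G2 (h : IsOrderTree T) {R Q : RaySp False T} {t : T} (h1 : Good K R t) (h2 : Good K Q t) :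
    R = Q := by
  have key : ∀ R Q : RaySp False T, Good K R t → Good K Q t → Q.1 ⊆ R.1 := by
    intro R Q h1 h2 b hb
    by_contra hbR
    rcases Q.comp hb h2.2.1 with h3 | h3
    · exact hbR (R.lower h3 h1.2.1)
    obtain ⟨w, w1, w2, w3⟩ := first_out h R hbR
    have h4 := (G1 h h1 ⟨Q, h2.1, hb⟩ h3).resolve_left hbR
    have h5 : ∀ u ∈ R.1, u < w := by
      intro u hu
      rcases h.comp (h4 u hu).le w1 with h6 | h6
      · exact lt_of_le_of_ne h6 fun h7 => w2 (h7 ▸ hu)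
      · exact absurd (R.lower h6 hu) w2
    exact h2.2.2 w ⟨⟨Q, h2.1, Q.lower w1 hb⟩, Or.inr ⟨R, h1.1, Set.ext fun x =>
      ⟨h5 x, w3 x⟩⟩⟩ (Q.lower w1 hb) (h5 t h1.2.1)
  exact Subtype.ext (Subset.antisymm (key Q R h2 h1) (key R Q h1 h2))

lemma Top.uniq {R : RaySp False T} {v v' : T} (h1 : Top K R v) (h2 : Top K R v') : v = v' := by
  rcases R.comp h1.1.2.1 h2.1.2.1 with h | h
  · by_contra h3
    exact h2.2 v (lt_of_le_of_ne h h3) h1.1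
  · by_contra h3
    exact h1.2 v' (lt_of_le_of_ne h (Ne.symm h3)) h2.1

lemma Cand.top (h : IsOrderTree T) {R : RaySp False T} {v : T} (h1 : Cand K R v) :
    ∃ w ≤ v, Top K R w := by
  obtain ⟨w, hw, hmin⟩ := h.wf.wf.has_min {w | w ≤ v ∧ Cand K R w} ⟨v, le_rfl, h1⟩
  exact ⟨w, hw.1, hw.2, fun x hx h2 => hmin x ⟨hx.le.trans hw.1, h2⟩ hx⟩

lemma Top.good {R : RaySp False T} {v a : T} (h1 : Top K R v) (ha : a ∈ R.1) (hva : v ≤ a) :
    Good K R a := by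
  obtain ⟨s, hs, hg⟩ := h1.1.2.2
  exact hg.up ha (hs.le.trans hva)

lemma Top.mem {R : RaySp False T} {v : T} (h1 : Top K R v) : v ∈ AA K := Or.inr ⟨R, v, h1, rfl⟩

lemma Top.a1 {R : RaySp False T} {v s : T} (h1 : Top K R v) (hs : Good K R s) (hv : ¬ v ≤ s) :
    s ∈ AA K := by
  have : s < v := by
    rcases R.comp hs.2.1 h1.1.2.1 with h | h
    · exact lt_of_le_of_ne h fun h2 => hv h2.ge
    · exact absurd h hv
  exact Or.inl (Or.inr ⟨R, hs, fun w hw => h1.2 w (hw.trans_lt this)⟩)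

lemma F1 (h : IsOrderTree T) {R : RaySp False T} {v a : T} (h1 : Top K R v) (ha : a ∈ R.1)
    (hva : v < a) : a ∉ AA K := by
  rintro ((h2 | ⟨Q, h2, h3⟩) | ⟨Q, w, h2, h3⟩)
  · exact (h1.good h1.1.2.1 le_rfl).2.2 a h2 ha hva
  · obtain rfl := G2 h h2 (h1.good ha hva.le)
    exact h3 v hva.le h1.1
  · have hvw : v < w := by
      have : v ∈ Iio a := hva
      rwa [h3] at this
    obtain ⟨s, hs, hg⟩ := h2.1.2.2
    have hsa : s < a := by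
      have : s ∈ Iio w := hs
      rwa [← h3] at this
    have : Q = R := by
      rcases h.comp hs.le hvw.le with h4 | h4
      · exact G2 h (hg.up (Q.lower hvw.le h2.1.2.1) h4) (h1.good h1.1.2.1 le_rfl)
      · exact G2 h hg (h1.good (R.lower hsa.le ha) h4)
    subst this
    exact hvw.ne (h1.uniq h2)

lemma DD.eq (h : IsOrderTree T) {R Q : RaySp False T} {v t : T} (h1 : Top K R v)
    (h2 : DD K R v t) (h3 : Good K Q t) : R = Q := by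
  obtain ⟨⟨s, hs, hg⟩, h4⟩ := h2
  rcases G1 h hg h3.tk hs with h5 | h5
  · exact G2 h (hg.up h5 hs) h3
  · exact absurd (h5 v h1.1.2.1).le h4

lemma DD.uniq (h : IsOrderTree T) {R Q : RaySp False T} {v w t : T} (h1 : Top K R v)
    (h2 : DD K R v t) (h3 : Top K Q w) (h4 : DD K Q w t) : R = Q := by
  obtain ⟨⟨s, hs, hg⟩, h5⟩ := h2
  obtain ⟨⟨s', hs', hg'⟩, h6⟩ := h4
  rcases h.comp hs hs' with h7 | h7
  · exact DD.eq h h1 ⟨⟨s, h7, hg⟩, fun h8 => h5 (h8.trans hs')⟩ hg'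
  · exact (DD.eq h h3 ⟨⟨s', h7, hg'⟩, fun h8 => h6 (h8.trans hs)⟩ hg).symm

lemma DD.iff (h : IsOrderTree T) {R : RaySp False T} {v s t : T} (h1 : Top K R v)
    (hst : LeA (AA K) s t) : DD K R v s ↔ DD K R v t := by
  refine ⟨fun ⟨⟨g, g1, g2⟩, h2⟩ => ⟨⟨g, g1.trans hst.1, g2⟩, fun h3 => ?_⟩,
    fun ⟨⟨g, g1, g2⟩, h2⟩ => ⟨⟨g, ?_, g2⟩, fun h3 => h2 (h3.trans hst.1)⟩⟩
  · rcases h.comp h3 hst.1 with h4 | h4
    · exact h2 h4
    · exact hst.2 v h1.mem (lt_of_le_of_ne h4 fun h5 => h2 h5.ge) h3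
  · rcases h.comp g1 hst.1 with h4 | h4
    · exact h4
    · rcases eq_or_lt_of_le h4 with h5 | h5
      · exact h5.ge
      · exact absurd g1 (hst.2 g (h1.a1 g2 fun h6 => h2 (h6.trans g1)) h5)

lemma HH_empty (h : IsOrderTree T) {R : RaySp False T} {v s : T} (h1 : Top K R v) (hs : s ∈ R.1)
    (hv : v ≤ s) : HH K s = ∅ := by
  refine eq_empty_of_forall_notMem ?_
  rintro x ⟨Q, w, h2, h3, -⟩
  obtain rfl := DD.eq h h2 h3 (h1.good hs hv)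
  exact h3.2 (h1.uniq h2 ▸ hv)

def mkCut (h : IsOrderTree T) (K : Set (RaySp False T)) : Cut T where
  A := AA K
  H := HH K
  tree := h
  h1 := fun s t hst => Set.ext fun _ =>
    ⟨fun ⟨R, v, h1, h2, h3⟩ => ⟨R, v, h1, (DD.iff h h1 hst).1 h2, h3⟩,
      fun ⟨R, v, h1, h2, h3⟩ => ⟨R, v, h1, (DD.iff h h1 hst).2 h2, h3⟩⟩
  h2 := fun _ _ ⟨_, _, h1, _, h3, h4⟩ => HH_empty h h1 h3 h4
  h3 := fun r s _ hrs ⟨R, v, h1, h2, h3, h4⟩ => ⟨R, v, h1, h2, R.lower hrs.1 h3, by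
    rcases h.comp h4 hrs.1 with h5 | h5
    · exact h5
    · rcases eq_or_lt_of_le h5 with h6 | h6
      · exact h6.ge
      · exact absurd h4 (hrs.2 v h1.mem h6)⟩
  h4 := fun r s t ⟨R, v, h1, h2, h3, h4⟩ ⟨Q, w, k1, k2, k3, k4⟩ => by
    obtain rfl := DD.uniq h h1 h2 k1 k2
    obtain rfl := h1.uniq k1
    exact (R.comp h3 k3).imp
      (fun h5 => ⟨h5, fun a ha h6 h7 => F1 h h1 (R.lower h7 k3) (h4.trans_lt h6) ha⟩)
      fun h5 => ⟨h5, fun a ha h6 h7 => F1 h h1 (R.lower h7 h3) (k4.trans_lt h6) ha⟩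

lemma ray_bound (Q : RaySp False T) {a : Set T} (ha : a.Finite) (haQ : a ⊆ Q.1) :
    ∃ s ∈ Q.1, ∀ x ∈ a, x < s := by
  induction a, ha using Set.Finite.induction_on with
  | empty => obtain ⟨s, hs⟩ := Q.2.2.2.2.resolve_left id; exact ⟨s, hs, by simp⟩
  | @insert x a _ _ ih =>
    obtain ⟨s, hs, h1⟩ := ih ((subset_insert _ _).trans haQ)
    obtain ⟨y, hy, hxy⟩ := Q.2.2.2.1 x (haQ (mem_insert _ _))
    rcases Q.comp hs hy with h2 | h2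
    · refine ⟨y, hy, ?_⟩
      rintro z (rfl | hz)
      · exact hxy
      · exact (h1 z hz).trans_le h2
    · refine ⟨s, hs, ?_⟩
      rintro z (rfl | hz)
      · exact hxy.trans_le h2
      · exact h1 z hz

lemma nbhd (h : IsOrderTree T) (hK : IsClosed K) {Q : RaySp False T} (hQ : Q ∉ K) {t : T}
    (ht : t ∈ Q.1) : ∃ s ∈ Q.1, t < s ∧ ∃ V : Set T, V.Finite ∧ (∀ w ∈ V, IsTop' Q.1 w) ∧
      ∀ R ∈ K, s ∈ R.1 → ∃ w ∈ V, w ∈ R.1 := by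
  obtain ⟨a, V, h1, h2, h3, h4, h5⟩ := basis h Q (hK.isOpen_compl.mem_nhds hQ)
  obtain ⟨s, hs, h6⟩ := ray_bound Q (h1.insert t) (insert_subset ht h3)
  refine ⟨s, hs, h6 t (mem_insert _ _), V, h2, h4, fun R hR hsR => ?_⟩
  by_contra hne
  push Not at hne
  exact h5 (show R ∈ N a V from ⟨fun x hx => R.lower (h6 x (Or.inr hx)).le hsR, hne⟩) hR

lemma nbhd_tk {Q : RaySp False T} {s b : T} {V : Set T} (h4 : ∀ w ∈ V, IsTop' Q.1 w)
    (h5 : ∀ R ∈ K, s ∈ R.1 → ∃ w ∈ V, w ∈ R.1) (hb : b ∈ TK K) (hsb : s ≤ b) :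
    b ∈ Q.1 ∨ ∃ w ∈ V, w ≤ b := by
  obtain ⟨R, hR, hbR⟩ := hb
  obtain ⟨w, hw, hwR⟩ := h5 R hR (R.lower hsb hbR)
  rcases R.comp hwR hbR with h | h
  · exact Or.inr ⟨w, hw, h⟩
  · rcases eq_or_lt_of_le h with h1 | h1
    · exact Or.inr ⟨w, hw, h1.ge⟩
    · exact Or.inl ((h4 w hw).2.1 b h1)

lemma tail_x {R Q : RaySp False T} {v : T} (h1 : Top K R v) (hQ : Q.1 = Iio v) :
    tail (AA K) Q.1 = ∅ := by
  refine eq_empty_of_forall_notMem fun t ht => ?_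
  obtain ⟨s, hs, hg⟩ := h1.1.2.2
  obtain ⟨y, hy, h2⟩ := ray_bound Q (toFinite {t, s}) (by
    rintro _ (rfl | rfl)
    · exact ht.1
    · rw [hQ]; exact hs)
  have hyv : y < v := by rwa [hQ] at hy
  exact ht.2 y (h1.a1 (hg.up (R.lower hyv.le h1.1.2.1) (h2 s (by simp)).le) hyv.not_ge) hy
    (h2 t (by simp))

lemma tail_R (h : IsOrderTree T) {R : RaySp False T} {v : T} (h1 : Top K R v) (t : T) :
    t ∈ tail (AA K) R.1 ↔ t ∈ R.1 ∧ v ≤ t := by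
  refine ⟨fun ht => ⟨ht.1, ?_⟩, fun ht => ⟨ht.1, fun a ha h2 h3 => F1 h h1 h2 (ht.2.trans_lt h3) ha⟩⟩
  rcases R.comp h1.1.2.1 ht.1 with h2 | h2
  · exact h2
  · rcases eq_or_lt_of_le h2 with h3 | h3
    · exact h3.ge
    · exact absurd h3 (ht.2 v h1.mem h1.1.2.1)

lemma open_tail (h : IsOrderTree T) (hK : IsClosed K) {Q : RaySp False T} (hQ : Q ∉ K) {t : T}
    (ht : t ∈ tail (AA K) Q.1) : ∀ᶠ Q' in 𝓝 Q, t ∈ tail (AA K) Q'.1 := by
  obtain ⟨s, hs, hts, V, h1, h2, h3⟩ := nbhd h hK hQ ht.1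
  have : (N {s} V : Set (RaySp False T)) ∈ 𝓝 Q :=
    (open_N (finite_singleton s) h1).mem_nhds ⟨by simpa, fun w hw => (h2 w hw).1⟩
  filter_upwards [this] with Q' hQ'
  have hsQ' : s ∈ Q'.1 := hQ'.1 rfl
  refine ⟨Q'.lower hts.le hsQ', fun a ha haQ' hta => ?_⟩
  have haQ : a ∉ Q.1 := fun h4 => ht.2 a ha h4 hta
  have hsa : s < a := by
    rcases Q'.comp hsQ' haQ' with h4 | h4
    · exact lt_of_le_of_ne h4 fun h5 => haQ (h5 ▸ hs)
    · exact absurd (Q.lower h4 hs) haQ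
  have hatk : a ∉ TK K := fun h4 => by
    rcases nbhd_tk h2 h3 h4 hsa.le with h5 | ⟨w, hw, h5⟩
    · exact haQ h5
    · exact hQ'.2 w hw (Q'.lower h5 haQ')
  rcases ha with (h4 | ⟨R, h4, -⟩) | ⟨R, v, h4, h5⟩
  · exact hatk h4.1
  · exact hatk h4.tk
  · have hsv : s < v := by
      have : s ∈ Iio a := hsa
      rwa [h5] at this
    rcases nbhd_tk h2 h3 (h4.good h4.1.2.1 le_rfl).tk hsv.le with h6 | ⟨w, hw, h6⟩
    · exact ht.2 v h4.mem h6 (hts.trans hsv)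
    · rcases eq_or_lt_of_le h6 with rfl | h7
      · have := tail_x h4 (Q := Q) (Set.ext fun x => ⟨(h2 w hw).2.2 x, (h2 w hw).2.1 x⟩)
        rw [this] at ht
        exact notMem_empty _ ht
      · have : w ∈ Iio v := h7
        rw [← h5] at this
        exact hQ'.2 w hw (Q'.lower (le_of_lt this) haQ')

lemma tail_U (h : IsOrderTree T) (hK : IsClosed K) {Q : RaySp False T} (hQ : Q ∉ K)
    (hx : ¬ ∃ R v, Top K R v ∧ Q.1 = Iio v) : (tail (AA K) Q.1).Nonempty := by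
  obtain ⟨t, ht⟩ := Q.2.2.2.2.resolve_left id
  obtain ⟨s, hs, -, V, -, h2, h3⟩ := nbhd h hK hQ ht
  by_cases h4 : ∃ R g, Good K R g ∧ g ∈ Q.1 ∧ s ≤ g
  · obtain ⟨R, g, g1, g2, g3⟩ := h4
    obtain ⟨w, hw, hwR⟩ := h3 R g1.1 (R.lower g3 g1.2.1)
    obtain ⟨v, hv, htop⟩ := Cand.top h (show Cand K R w from ⟨fun a ha => by
      obtain ⟨b, hb, hab⟩ := Q.2.2.2.1 a ((h2 w hw).2.1 a ha)
      exact ⟨b, (h2 w hw).2.2 b hb, hab⟩, hwR, g, (h2 w hw).2.2 g g2, g1⟩)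
    rcases eq_or_lt_of_le hv with rfl | h5
    · exact absurd ⟨R, v, htop, Set.ext fun x => ⟨(h2 v hw).2.2 x, (h2 v hw).2.1 x⟩⟩ hx
    · exact ⟨v, (h2 w hw).2.1 v h5, fun a ha h6 h7 =>
        F1 h htop (R.lower ((h2 w hw).2.2 a h6).le hwR) h7 ha⟩
  · refine ⟨s, hs, fun a ha haQ hsa => ?_⟩
    rcases ha with (⟨-, ⟨a', k1, k2, k3⟩ | ⟨R, k1, k2⟩⟩ | ⟨R, k1, -⟩) | ⟨R, v, k1, k2⟩
    · have hsa' : s < a' := by
        have : s ∈ Iio a := hsa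
        rwa [← k3] at this
      have e1 : ¬ a < a' := fun h5 => by
        have : a ∈ Iio a' := h5
        rw [k3] at this
        exact lt_irrefl a this
      rcases nbhd_tk h2 h3 k1 hsa'.le with h5 | ⟨w, hw, h5⟩
      · rcases Q.comp h5 haQ with h6 | h6
        · have : a' ∈ Iio a := lt_of_le_of_ne h6 k2
          rw [← k3] at this
          exact lt_irrefl a' this
        · exact e1 (lt_of_le_of_ne h6 k2.symm)
      · exact e1 (((h2 w hw).2.2 a haQ).trans_le h5)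
    · obtain ⟨w, hw, hwR⟩ := h3 R k1 (by rw [k2]; exact hsa)
      rw [k2] at hwR
      exact (h2 w hw).1 (Q.lower (le_of_lt hwR) haQ)
    · exact h4 ⟨R, a, k1, haQ, hsa.le⟩
    · obtain ⟨g, g1, g2⟩ := k1.1.2.2
      have hga : g < a := by
        have : g ∈ Iio v := g1
        rwa [← k2] at this
      have hsv : s < v := by
        have : s ∈ Iio a := hsa
        rwa [k2] at this
      rcases h.comp hga.le hsa.le with h5 | h5
      · exact h4 ⟨R, s, g2.up (R.lower hsv.le k1.1.2.1) h5, hs, le_rfl⟩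
      · exact h4 ⟨R, g, g2, Q.lower hga.le haQ, h5⟩

lemma tail_K (h : IsOrderTree T) {Q : RaySp False T} (hQ : Q ∈ K)
    (ht : (tail (AA K) Q.1).Nonempty) : ∃ v, Top K Q v := by
  obtain ⟨t, ht⟩ := ht
  obtain ⟨b, hb, htb⟩ := Q.2.2.2.1 t ht.1
  have hg : Good K Q t := ⟨hQ, ht.1, fun a ha => ht.2 a (Or.inl (Or.inl ha))⟩
  by_contra hne
  refine ht.2 b (Or.inl (Or.inr ⟨Q, hg.up hb htb.le, fun v _ hv => ?_⟩)) hb htb
  obtain ⟨w, -, hw⟩ := hv.top h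
  exact hne ⟨w, hw⟩

def FF (K : Set (RaySp False T)) (t : T) (Q : RaySp False T) : Prop :=
  ∃ R v, Top K R v ∧ t ∈ R.1 ∧ v ≤ t ∧ (∃ s ∈ Q.1, Good K R s) ∧ v ∉ Q.1

lemma clopen_FF (h : IsOrderTree T) (t : T) : IsClopen {Q | FF K t Q} := by
  by_cases h1 : ∃ R v, Top K R v ∧ t ∈ R.1 ∧ v ≤ t
  · obtain ⟨R, v, h1, h2, h3⟩ := h1
    obtain ⟨m, hm, hmin⟩ := h.wf.wf.has_min {s | Good K R s} ⟨t, h1.good h2 h3⟩
    convert (clopen_cone (e := False) m).inter (clopen_cone (e := False) v).compl using 1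
    ext Q
    refine ⟨?_, fun hQ => ⟨R, v, h1, h2, h3, ⟨m, hQ.1, hm⟩, hQ.2⟩⟩
    rintro ⟨R', v', k1, k2, k3, ⟨s, k4, k5⟩, k6⟩
    obtain rfl := G2 h (h1.good h2 h3) (k1.good k2 k3)
    obtain rfl := h1.uniq k1
    refine ⟨?_, k6⟩
    rcases R.comp hm.2.1 k5.2.1 with h4 | h4
    · exact Q.lower h4 k4
    · rcases eq_or_lt_of_le h4 with rfl | h5
      · exact k4
      · exact absurd h5 (hmin s k5)
  · convert isClopen_empty
    exact eq_empty_of_forall_notMem fun Q ⟨R, v, k1, k2, k3, _⟩ => h1 ⟨R, v, k1, k2, k3⟩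

theorem quasi (h : IsOrderTree T) (hK : IsClosed K) :
    ∃ f : {Q // Q ∉ K} → RaySp False (WithBot (mkCut h K).F),
      Continuous f ∧ Function.Bijective f := by
  let c := mkCut h K
  have : ∀ Q : {Q // Q ∉ K}, ∃ Z : RaySp False T, (tail (AA K) Z.1).Nonempty ∧
      ((Z = Q.1 ∧ ¬ ∃ R v, Top K R v ∧ Q.1.1 = Iio v) ∨ ∃ v, Top K Z v ∧ Q.1.1 = Iio v) := by
    intro Q
    by_cases hx : ∃ R v, Top K R v ∧ Q.1.1 = Iio v
    · obtain ⟨R, v, h1, h2⟩ := hx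
      exact ⟨R, ⟨v, (tail_R h h1 v).2 ⟨h1.1.2.1, le_rfl⟩⟩, Or.inr ⟨v, h1, h2⟩⟩
    · exact ⟨Q.1, tail_U h hK Q.2 hx, Or.inl ⟨rfl, hx⟩⟩
  choose β hβ1 hβ2 using this
  have sameR : ∀ {R R' Q : RaySp False T} {v v' : T}, Top K R v → Q.1 = Iio v → Top K R' v' →
      (∃ s ∈ Q.1, Good K R' s) → v' ∉ Q.1 → R' = R := by
    rintro R R' Q v v' h1 h2 h3 ⟨s, h4, h5⟩ h6
    obtain ⟨g, g1, g2⟩ := h1.1.2.2
    have hsv : s < v := by rwa [h2] at h4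
    rcases h.comp hsv.le g1.le with h7 | h7
    · exact DD.eq h h3 ⟨⟨s, h7, h5⟩, fun h8 => h6 (by rw [h2]; exact h8.trans_lt g1)⟩ g2
    · exact G2 h h5 (g2.up (R.lower hsv.le h1.1.2.1) h7)
  have form : ∀ (Q : {Q // Q ∉ K}) (t : T),
      t ∈ c.P0 (β Q).1 ↔ t ∈ tail (AA K) Q.1.1 ∨ FF K t Q.1 := by
    intro Q t
    rcases hβ2 Q with ⟨h1, -⟩ | ⟨v, h1, h2⟩
    · have h3 := hβ1 Q
      rw [h1] at h3 ⊢
      refine or_congr Iff.rfl ⟨?_, ?_⟩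
      · rintro ⟨t', k1, R, v, k2, ⟨⟨s, k3, k4⟩, k5⟩, k6, k7⟩
        refine ⟨R, v, k2, k6, k7, ⟨s, Q.1.lower k3 k1.1, k4⟩, fun k8 => ?_⟩
        rcases Q.1.comp k8 k1.1 with k9 | k9
        · exact k5 k9
        · exact k1.2 v k2.mem k8 (lt_of_le_of_ne k9 fun k10 => k5 k10.ge)
      · rintro ⟨R, v, k1, k2, k3, ⟨s, k4, k5⟩, k6⟩
        obtain ⟨y, hy⟩ := h3
        obtain ⟨z, hz, hsz⟩ := tail_above hy k4
        exact ⟨z, hz, R, v, k1, ⟨⟨s, hsz, k5⟩, fun k7 => k6 (Q.1.lower k7 hz.1)⟩, k2, k3⟩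
    · rw [tail_x h1 h2]
      refine ⟨?_, ?_⟩
      · rintro (k1 | ⟨t', k1, k2⟩)
        · obtain ⟨g, g1, g2⟩ := h1.1.2.2
          have := (tail_R h h1 t).1 k1
          exact Or.inr ⟨_, v, h1, this.1, this.2, ⟨g, by rw [h2]; exact g1, g2⟩,
            by rw [h2]; exact lt_irrefl v⟩
        · have := (tail_R h h1 t').1 k1
          have e : c.H t' = ∅ := HH_empty h h1 this.1 this.2
          rw [e] at k2
          exact absurd k2 (notMem_empty _)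
      · rintro (k1 | ⟨R, w, k1, k2, k3, k4, k5⟩)
        · exact absurd k1 (notMem_empty _)
        · obtain rfl := sameR h1 h2 k1 k4 k5
          exact Or.inl ((tail_R h k1 t).2 ⟨k2, k3⟩)
  refine ⟨fun Q => ⟨c.Y (β Q).1, c.Y_ray _ (hβ1 Q)⟩, cont_into _ fun y => ?_, ?_, ?_⟩
  · induction y with
    | bot =>
      convert isClopen_univ
      exact eq_univ_of_forall fun Q => mem_insert _ _
    | coe t =>
      have e : {Q : {Q // Q ∉ K} | (t : WithBot c.F) ∈ c.Y (β Q).1} =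
          {Q : {Q // Q ∉ K} | c.dn t ∈ tail (AA K) Q.1.1} ∪
            Subtype.val ⁻¹' {Q | FF K (c.dn t) Q} :=
        Set.ext fun Q => (c.mem_Y _ t).trans (form Q t)
      refine e ▸ IsClopen.union ⟨?_, ?_⟩ ((clopen_FF h _).preimage continuous_subtype_val)
      · have : {Q : {Q // Q ∉ K} | c.dn t ∈ tail (AA K) Q.1.1} = Subtype.val ⁻¹'
            ({Q | c.dn t ∈ Q.1} ∩ ⋂ a ∈ {a ∈ AA K | c.dn t < a}, {Q | a ∈ Q.1}ᶜ) := by
          ext Q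
          simp only [tail, mem_ofPred_eq, mem_preimage, mem_inter_iff, mem_iInter, mem_compl_iff]
          exact and_congr Iff.rfl ⟨fun k a ha k1 => k a ha.1 k1 ha.2, fun k a ha k1 k2 => k a ⟨ha, k2⟩ k1⟩
        rw [this]
        exact ((clopen_cone _).isClosed.inter (isClosed_biInter fun a _ =>
          (clopen_cone a).compl.isClosed)).preimage continuous_subtype_val
      · exact isOpen_iff_mem_nhds.2 fun Q hQ =>
          continuous_subtype_val.continuousAt.eventually (open_tail h hK Q.2 hQ)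
  · intro Q Q' hQ
    have e : β Q = β Q' := c.Y_inj (hβ1 Q) (hβ1 Q') (congrArg Subtype.val hQ)
    rcases hβ2 Q with ⟨h1, -⟩ | ⟨v, h1, h2⟩ <;> rcases hβ2 Q' with ⟨h3, -⟩ | ⟨w, h3, h4⟩
    · exact Subtype.ext (h1.symm.trans (e.trans h3))
    · exact absurd (h1 ▸ e ▸ (h3.good h3.1.2.1 le_rfl).1) Q.2
    · exact absurd (h3 ▸ e ▸ (h1.good h1.1.2.1 le_rfl).1) Q'.2
    · rw [e] at h1
      exact Subtype.ext (Subtype.ext (h2.trans (h1.uniq h3 ▸ h4.symm)))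
  · intro Y
    obtain ⟨Z, h1, h2⟩ := c.Y_surj Y
    suffices ∃ Q, β Q = Z by
      obtain ⟨Q, rfl⟩ := this
      exact ⟨Q, Subtype.ext h2⟩
    by_cases hZ : Z ∈ K
    · obtain ⟨v, hv⟩ := tail_K h hZ h1
      obtain ⟨g, g1, g2⟩ := hv.1.2.2
      let Q : RaySp False T := ⟨Iio v, isLowerSet_Iio v,
        fun a ha b hb _ => h.comp (le_of_lt ha) (le_of_lt hb), hv.1.1, Or.inr ⟨g, g1⟩⟩
      have hQ : Q ∉ K := fun k => g2.2.2 v ⟨⟨Z, hZ, hv.1.2.1⟩, Or.inr ⟨Q, k, rfl⟩⟩ hv.1.2.1 g1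
      refine ⟨⟨Q, hQ⟩, ?_⟩
      rcases hβ2 ⟨Q, hQ⟩ with ⟨-, k⟩ | ⟨w, k1, k2⟩
      · exact absurd ⟨Z, v, hv, rfl⟩ k
      · exact (sameR k1 k2 hv ⟨g, g1, g2⟩ (lt_irrefl v)).symm
    · refine ⟨⟨Z, hZ⟩, ?_⟩
      rcases hβ2 ⟨Z, hZ⟩ with ⟨k, -⟩ | ⟨w, k1, k2⟩
      · exact k
      · have h3 : (tail (AA K) Z.1).Nonempty := h1
        rw [tail_x k1 k2] at h3
        exact absurd h3 not_nonempty_empty

end Pool.Agent.Lib.helper22.Ray
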