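import Mathlib

set_option autoImplicit false

namespace Pool.Agent.Lib.H22Re

open Classical SimpleGraph Finset

variable {V : Type} [Fintype V]

def del (H : SimpleGraph V) (x : V) : SimpleGraph V where
  Adj u v := H.Adj u v ∧ u ≠ x ∧ v ≠ x
  symm := ⟨fun _ _ h => ⟨h.1.symm, h.2.2, h.2.1⟩⟩
  loopless := ⟨fun u h => H.loopless.1 u h.1⟩

omit [Fintype V] in
lemma del_le (H : SimpleGraph V) (x : V) : del H x ≤ H := fun _ _ h => h.1

omit [Fintype V] in
lemma reach_del {H : SimpleGraph V} {x y w : V} (q : H.Walk y w) (hx : x ∉ q.support) :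
    ∀ e ∈ q.edges, e ∈ (del H x).edgeSet := by
  intro e he
  induction e using Sym2.ind with
  | _ a b =>
    refine ⟨q.adj_of_mem_edges he, ?_, ?_⟩
    · rintro rfl; exact hx (q.fst_mem_support_of_mem_edges he)
    · rintro rfl; exact hx (q.snd_mem_support_of_mem_edges he)

omit [Fintype V] in
lemma reach_supp {H : SimpleGraph V} {y w u : V} (q : H.Walk y w) (hu : u ∈ q.support) :
    H.Reachable u y := (Reachable.symm ⟨q.takeUntil u hu⟩)

lemma L1 (H : SimpleGraph V) (hH : ∃ u v, H.Adj u v) :
    ∃ x y, H.Adj x y ∧ ∀ u, H.Adj x u → (del H x).Reachable u y := by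
  obtain ⟨u0, v0, h0⟩ := hH
  haveI : Nonempty V := ⟨u0⟩
  obtain ⟨x, w, p, hp, hm⟩ := Walk.exists_isPath_forall_isPath_length_le_length H
  cases p with
  | nil =>
    have := hm u0 v0 (Path.singleton h0).1 (Path.singleton h0).2
    simp [Path.singleton] at this
  | @cons _ y _ hxy q =>
    have hq := (Walk.cons_isPath_iff _ _).1 hp
    refine ⟨x, y, hxy, fun u hu => ?_⟩
    have hs : u ∈ (Walk.cons hxy q).support := by
      by_contra hn
      have := hm u w (Walk.cons hu.symm (Walk.cons hxy q)) ((Walk.cons_isPath_iff _ _).2 ⟨hp, hn⟩)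
      simp at this
    rw [Walk.support_cons, List.mem_cons] at hs
    have hs' := hs.resolve_left hu.ne'
    exact reach_supp (q.transfer _ (reach_del q hq.2)) (by rwa [Walk.support_transfer])

lemma L2 (H : SimpleGraph V) (hH : ∃ u v, H.Adj u v)
    (h2 : ∀ u v, H.Adj u v → ∃ w, w ≠ v ∧ H.Adj u w) :
    ∃ a b z, H.Adj a b ∧ H.Adj b z ∧ z ≠ a ∧ ∀ u, u ≠ a → u ≠ b → (H.Adj a u ∨ H.Adj b u) →
      (del (del H a) b).Reachable u z := by
  obtain ⟨u0, v0, h0⟩ := hH
  haveI : Nonempty V := ⟨u0⟩
  obtain ⟨a, w, p, hp, hm⟩ := Walk.exists_isPath_forall_isPath_length_le_length H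
  cases p with
  | nil =>
    have := hm u0 v0 (Path.singleton h0).1 (Path.singleton h0).2
    simp [Path.singleton] at this
  | @cons _ b _ hab q0 =>
    have hq0 := (Walk.cons_isPath_iff _ _).1 hp
    have key : ∀ {a' : V} (h : H.Adj a' b), a' ∉ q0.support → ∀ u, H.Adj a' u → u ∈ q0.support := by
      intro a' h ha' u hu
      by_contra hn
      have hp' : (Walk.cons h q0).IsPath := (Walk.cons_isPath_iff _ _).2 ⟨hq0.1, ha'⟩
      have hn' : u ∉ (Walk.cons h q0).support := by
        rw [Walk.support_cons, List.mem_cons, not_or]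
        exact ⟨hu.ne', hn⟩
      have := hm u w (Walk.cons hu.symm (Walk.cons h q0)) ((Walk.cons_isPath_iff _ _).2 ⟨hp', hn'⟩)
      simp at this
    cases q0 with
    | nil =>
      obtain ⟨c, hc, hc'⟩ := h2 a _ hab
      have := key hab hq0.2 c hc'
      simp at this
      exact absurd this hc
    | @cons _ z _ hbz q =>
      have hq := (Walk.cons_isPath_iff _ _).1 hq0.1
      have haq : a ∉ q.support := fun h => hq0.2 (by simp [h])
      have hr : ∀ u ∈ q.support, (del (del H a) b).Reachable u z := by
        intro u hu
        have h1 := reach_del q haq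
        have h2 := reach_del (x := b) (q.transfer _ h1) (by rw [Walk.support_transfer]; exact hq.2)
        exact reach_supp ((q.transfer _ h1).transfer _ h2)
          (by rwa [Walk.support_transfer, Walk.support_transfer])
      refine ⟨a, b, z, hab, hbz, fun h => haq (h ▸ q.start_mem_support), ?_⟩
      intro u hua hub hu
      by_cases huq : u ∈ q.support
      · exact hr u huq
      · have hu0 : u ∉ (Walk.cons hbz q).support := by
          rw [Walk.support_cons, List.mem_cons, not_or]
          exact ⟨hub, huq⟩
        rcases hu with hu | hu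
        · exact absurd (key hab hq0.2 u hu) hu0
        · obtain ⟨c, hc, hc'⟩ := h2 u b hu.symm
          have h3 := key hu.symm hu0 c hc'
          rw [Walk.support_cons, List.mem_cons] at h3
          have h4 := h3.resolve_left hc
          have h5 : (del (del H a) b).Adj u c :=
            ⟨⟨hc', hua, fun h => haq (h ▸ h4)⟩, hub, hc⟩
          exact h5.reachable.trans (hr c h4)

/-- Boundaries of edge sets over the field with two elements. -/
def Bd (H : SimpleGraph V) : AddSubgroup (V → ZMod 2) :=
  AddSubgroup.closure {t | ∃ x y, H.Adj x y ∧ t = Pi.single x 1 + Pi.single y 1}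

omit [Fintype V] in
lemma two0 (t : V → ZMod 2) : t + t = 0 := by
  ext v
  have : ∀ x : ZMod 2, x + x = 0 := by decide
  exact this _

omit [Fintype V] in
lemma bd_reach {H : SimpleGraph V} {x y : V} (h : H.Reachable x y) :
    (Pi.single x 1 + Pi.single y 1 : V → ZMod 2) ∈ Bd H := by
  obtain ⟨p⟩ := h
  induction p with
  | nil => rw [two0]; exact zero_mem _
  | @cons a b c hab q ih =>
    have h1 : (Pi.single a 1 + Pi.single b 1 : V → ZMod 2) ∈ Bd H :=
      AddSubgroup.subset_closure ⟨a, b, hab, rfl⟩
    have h2 := add_mem h1 ih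
    have e : (Pi.single a 1 + Pi.single b 1 + (Pi.single b 1 + Pi.single c 1) : V → ZMod 2) =
        Pi.single a 1 + Pi.single c 1 + (Pi.single b 1 + Pi.single b 1) := by abel
    rwa [e, two0, add_zero] at h2

noncomputable def push (φ : V → V) : (V → ZMod 2) →+ (V → ZMod 2) where
  toFun t := ∑ v, Pi.single (φ v) (t v)
  map_zero' := by simp
  map_add' s t := by simp [Pi.single_add, Finset.sum_add_distrib]

lemma push_single (φ : V → V) (x : V) : push φ (Pi.single x 1) = Pi.single (φ x) 1 := by
  show (∑ v, Pi.single (φ v) ((Pi.single x 1 : V → ZMod 2) v) : V → ZMod 2) = _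
  rw [Finset.sum_eq_single x]
  · simp
  · intro b _ hb; simp [hb]
  · simp

lemma push_apply (φ : V → V) (t : V → ZMod 2) (w : V) :
    push φ t w = ∑ v, if φ v = w then t v else 0 := by
  show (∑ v, Pi.single (φ v) (t v) : V → ZMod 2) w = _
  rw [Finset.sum_apply]
  refine Finset.sum_congr rfl fun v _ => ?_
  by_cases h : φ v = w
  · subst h; simp
  · rw [if_neg h, Pi.single_eq_of_ne (Ne.symm h)]

lemma bd_push {H H' : SimpleGraph V} (φ : V → V)
    (h : ∀ u v, H.Adj u v → H'.Reachable (φ u) (φ v)) {t : V → ZMod 2} (ht : t ∈ Bd H) :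
    push φ t ∈ Bd H' := by
  have : Bd H ≤ (Bd H').comap (push φ) := by
    rw [Bd, AddSubgroup.closure_le]
    rintro _ ⟨x, y, hxy, rfl⟩
    show push φ _ ∈ Bd H'
    rw [map_add, push_single, push_single]
    exact bd_reach (h x y hxy)
  exact this ht

/-- parity vector of an edge set -/
noncomputable def par (J : Finset (Sym2 V)) : V → ZMod 2 :=
  fun v => ((J.filter (v ∈ ·)).card : ZMod 2)

omit [Fintype V] in
lemma par_insert {J : Finset (Sym2 V)} {x y : V} (hxy : x ≠ y) (h : s(x, y) ∉ J) :
    par (insert s(x, y) J) = par J + (Pi.single x 1 + Pi.single y 1) := by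
  ext v
  simp only [par, Pi.add_apply, filter_insert]
  by_cases hv : v ∈ s(x, y)
  · rw [if_pos hv, card_insert_of_notMem (fun h' => h (mem_filter.1 h').1)]
    rcases Sym2.mem_iff.1 hv with rfl | rfl
    · simp [hxy]
    · simp [hxy.symm]
  · rw [if_neg hv]
    rw [Sym2.mem_iff, not_or] at hv
    simp [hv.1, hv.2]

omit [Fintype V] in
lemma par_mem {H : SimpleGraph V} (J : Finset (Sym2 V)) (hJ : ∀ e ∈ J, e ∈ H.edgeSet) :
    par J ∈ Bd H := by
  induction J using Finset.induction_on with
  | empty =>
    have : par (∅ : Finset (Sym2 V)) = 0 := by ext v; simp [par]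
    rw [this]; exact zero_mem _
  | insert e J he ih =>
    induction e using Sym2.ind with
    | _ x y =>
      have hxy : H.Adj x y := hJ _ (mem_insert_self _ _)
      rw [par_insert hxy.ne he]
      exact add_mem (ih fun e h => hJ e (mem_insert_of_mem h)) (bd_reach hxy.reachable)

lemma J1 (m : ℕ) : ∀ (S : Finset V) (H : SimpleGraph V) (t : V → ZMod 2), S.card = m →
    (∀ u v, H.Adj u v → u ∈ S) → t ∈ Bd H → S.Nonempty →
    ∃ J : Finset (Sym2 V), (∀ e ∈ J, e ∈ H.edgeSet) ∧ J.card + 1 ≤ S.card ∧ par J = t := by
  induction m with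
  | zero => intro S H t h _ _ hS; rw [← card_pos] at hS; omega
  | succ m ih =>
    intro S H t hm hS ht hne
    by_cases hH : ∃ u v, H.Adj u v
    · obtain ⟨x, y, hxy, hr⟩ := L1 H hH
      have hx := hS x y hxy
      have hy := hS y x hxy.symm
      have hp := bd_push (H' := del H x) (fun v => if v = x then y else v) (by
        intro u v huv
        by_cases hu : u = x
        · subst hu
          simp only [if_true, huv.ne', if_false]
          exact (hr v huv).symm
        · by_cases hv : v = x
          · subst hv
            simp only [if_true, hu, if_false]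
            exact hr u huv.symm
          · simp only [hu, hv, if_false]
            exact Adj.reachable ⟨huv, hu, hv⟩) ht
      obtain ⟨J, h1, h2, h3⟩ := ih (S.erase x) (del H x) _ (by rw [card_erase_of_mem hx]; omega)
        (fun u v h => mem_erase.2 ⟨h.2.1, hS u v h.1⟩) hp ⟨y, mem_erase.2 ⟨hxy.ne', hy⟩⟩
      rw [card_erase_of_mem hx] at h2
      have e : ∀ w, push (fun v => if v = x then y else v) t w =
          (if w = x then 0 else t w) + if w = y then t x else 0 := by
        intro w
        rw [push_apply, ← Finset.add_sum_erase _ _ (mem_univ x), add_comm]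
        congr 1
        · by_cases hw : w = x
          · rw [if_pos hw]
            refine Finset.sum_eq_zero fun v hv => ?_
            have := (mem_erase.1 hv).1
            simp [this, hw]
          · rw [if_neg hw, Finset.sum_eq_single w]
            · simp [hw]
            · intro b hb hbw
              have := (mem_erase.1 hb).1
              simp [this, hbw]
            · intro h; exact absurd (mem_erase.2 ⟨hw, mem_univ _⟩) h
        · simp [eq_comm]
      have z2 : ∀ a : ZMod 2, a = 0 ∨ a = 1 := by decide
      rcases z2 (t x) with h0 | h0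
      · refine ⟨J, fun e he => edgeSet_mono (del_le H x) (h1 e he), by omega, ?_⟩
        rw [h3]
        ext w
        rw [e]
        by_cases hw : w = x
        · simp [hw, h0]
        · simp [hw, h0]
      · have hn : s(x, y) ∉ J := fun h => (h1 _ h).2.1 rfl
        refine ⟨insert s(x, y) J, ?_, by rw [card_insert_of_notMem hn]; omega, ?_⟩
        · intro e he
          rcases mem_insert.1 he with rfl | he
          · exact hxy
          · exact edgeSet_mono (del_le H x) (h1 e he)
        · rw [par_insert hxy.ne hn, h3]
          ext w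
          simp only [Pi.add_apply]
          rw [e]
          by_cases hw : w = x
          · subst hw
            simp [hxy.ne, h0]
          · by_cases hw' : w = y
            · subst hw'
              have : (1 : ZMod 2) + 1 = 0 := by decide
              simp [hw, h0, add_assoc, this]
            · simp [hw, hw']
    · have e : Bd H = ⊥ := by
        rw [Bd, AddSubgroup.closure_eq_bot_iff]
        rintro _ ⟨x, y, hxy, rfl⟩
        exact absurd ⟨x, y, hxy⟩ hH
      rw [e, AddSubgroup.mem_bot] at ht
      refine ⟨∅, by simp, by simp; omega, ?_⟩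
      rw [ht]; ext v; simp [par]

noncomputable def ind (S : Finset V) : V → ZMod 2 := fun v => if v ∈ S then 1 else 0

noncomputable def dg (H : SimpleGraph V) (v : V) : ℕ := (univ.filter (H.Adj v)).card

lemma dg_del (H : SimpleGraph V) (x v : V) (hv : v ≠ x) : dg H v ≤ dg (del H x) v + 1 := by
  refine le_trans (card_le_card (t := insert x (univ.filter ((del H x).Adj v))) ?_)
    (card_insert_le _ _)
  intro u hu
  by_cases h : u = x
  · simp [h]
  · exact mem_insert_of_mem (mem_filter.2 ⟨mem_univ _, (mem_filter.1 hu).2, hv, h⟩)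

lemma J2 (j : ℕ) : ∀ (S : Finset V) (H : SimpleGraph V),
    (∀ u v, H.Adj u v → u ∈ S) → ind S ∈ Bd H → S.Nonempty → (∀ v ∈ S, 2 * j + 1 ≤ dg H v) →
    ∃ J : Finset (Sym2 V), (∀ e ∈ J, e ∈ H.edgeSet) ∧ J.card + j + 1 ≤ S.card ∧
      par J = ind S := by
  induction j with
  | zero => intro S H h1 h2 h3 _; exact J1 _ S H _ rfl h1 h2 h3
  | succ j ih =>
    intro S H hS ht hne hd
    have hH : ∃ u v, H.Adj u v := by
      obtain ⟨u, hu⟩ := hne
      obtain ⟨v, hv⟩ := card_pos.1 (lt_of_lt_of_le (by omega) (hd u hu))
      exact ⟨u, v, (mem_filter.1 hv).2⟩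
    obtain ⟨a, b, z, hab, hbz, hza, hr⟩ := L2 H hH (by
      intro u v huv
      obtain ⟨w, hw, hw'⟩ := exists_mem_ne (lt_of_lt_of_le (by omega) (hd u (hS u v huv))) v
      exact ⟨w, hw', (mem_filter.1 hw).2⟩)
    have ha := hS a b hab
    have hb := hS b a hab.symm
    have hz := hS z b hbz.symm
    have hb' : b ∈ S.erase a := mem_erase.2 ⟨hab.ne', hb⟩
    have hp := bd_push (H' := del (del H a) b) (fun v => if v = a ∨ v = b then z else v) (by
      intro u v huv
      by_cases hu : u = a ∨ u = b
      · by_cases hv : v = a ∨ v = b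
        · simp only [hu, hv, if_true]; rfl
        · simp only [hu, hv, if_true, if_false]
          rw [not_or] at hv
          refine (hr v hv.1 hv.2 ?_).symm
          rcases hu with rfl | rfl
          · exact Or.inl huv
          · exact Or.inr huv
      · by_cases hv : v = a ∨ v = b
        · simp only [hu, hv, if_true, if_false]
          rw [not_or] at hu
          refine hr u hu.1 hu.2 ?_
          rcases hv with rfl | rfl
          · exact Or.inl huv.symm
          · exact Or.inr huv.symm
        · simp only [hu, hv, if_false]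
          rw [not_or] at hu hv
          exact Adj.reachable ⟨⟨huv, hu.1, hv.1⟩, hu.2, hv.2⟩) ht
    have e0 : ind S = ind ((S.erase a).erase b) + (Pi.single a 1 + Pi.single b 1) := by
      ext w
      simp only [ind, Pi.add_apply, mem_erase]
      by_cases h1 : w = a
      · subst h1; simp [ha, hab.ne]
      · by_cases h2 : w = b
        · subst h2; simp [hb, h1]
        · simp [h1, h2]
    have e1 : push (fun v => if v = a ∨ v = b then z else v) (ind S) =
        ind ((S.erase a).erase b) := by
      rw [e0, map_add, map_add, push_single, push_single]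
      simp only [true_or, or_true, if_true]
      rw [two0, add_zero]
      ext w
      rw [push_apply, Finset.sum_eq_single w]
      · by_cases hw : w = a ∨ w = b
        · rcases hw with rfl | rfl <;> simp [ind]
        · simp [hw]
      · intro v _ hv
        by_cases hw : v = a ∨ v = b
        · rcases hw with rfl | rfl <;> simp [ind]
        · simp [hw, hv]
      · simp
    rw [e1] at hp
    obtain ⟨J, h1, h2, h3⟩ := ih ((S.erase a).erase b) (del (del H a) b)
      (fun u v h => mem_erase.2 ⟨h.2.1, mem_erase.2 ⟨h.1.2.1, hS u v h.1.1⟩⟩) hp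
      ⟨z, mem_erase.2 ⟨hbz.ne', mem_erase.2 ⟨hza, hz⟩⟩⟩ (by
        intro v hv
        have hv1 := mem_erase.1 hv
        have hv2 := mem_erase.1 hv1.2
        have := hd v hv2.2
        have := dg_del H a v hv2.1
        have := dg_del (del H a) b v hv1.1
        omega)
    rw [card_erase_of_mem hb', card_erase_of_mem ha] at h2
    have hn : s(a, b) ∉ J := fun h => (h1 _ h).1.2.1 rfl
    refine ⟨insert s(a, b) J, ?_, by rw [card_insert_of_notMem hn]; omega, ?_⟩
    · intro e he
      rcases mem_insert.1 he with rfl | he
      · exact hab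
      · exact edgeSet_mono ((del_le _ b).trans (del_le H a)) (h1 e he)
    · rw [par_insert hab.ne hn, h3, ← e0]

end Pool.Agent.Lib.H22Re
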