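import Mathlib
import Pool.Agent.Lib.helper22.ReA

set_option autoImplicit false

namespace Pool.Agent.Lib.H22Re

open Classical SimpleGraph Finset

variable {V : Type} [Fintype V]

lemma inc_le (F : SimpleGraph V) (v : V) (A : Finset (Sym2 V))
    (h : ∀ e ∈ A, e ∈ F.edgeSet ∧ v ∈ e) : A.card ≤ dg F v := by
  refine le_trans (card_le_card (t := (univ.filter (F.Adj v)).image (fun u => s(v, u))) ?_)
    card_image_le
  intro e he
  obtain ⟨h1, h2⟩ := h e he
  obtain ⟨u, rfl⟩ := Sym2.mem_iff_exists.1 h2
  exact mem_image.2 ⟨u, mem_filter.2 ⟨mem_univ _, h1⟩, rfl⟩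

lemma orient (F : SimpleGraph V) (hev : ∀ v, Even (dg F v)) :
    ∃ R : V → V → Prop, (∀ u v, R u v → F.Adj u v) ∧ (∀ u v, F.Adj u v → R u v ∨ R v u) ∧
      (∀ u v, R u v → ¬ R v u) ∧ (∀ v, 2 * (univ.filter (R v)).card = dg F v) ∧
      ∀ v, 2 * (univ.filter (fun u => R u v)).card = dg F v := by
  let t : F.edgeSet → Finset (Σ _ : V, ℕ) := fun e =>
    (univ.filter (· ∈ e.1)).sigma (fun v => range (dg F v / 2))
  obtain ⟨f, hf, hft⟩ := (Finset.all_card_le_biUnion_card_iff_exists_injective t).1 (by
    intro s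
    let U : Finset V := univ.filter (fun v => ∃ e ∈ s, v ∈ e.1)
    have h1 : U.sigma (fun v => range (dg F v / 2)) ⊆ s.biUnion t := by
      intro p hp
      rw [mem_sigma] at hp
      obtain ⟨e, he, hv⟩ := (mem_filter.1 hp.1).2
      exact mem_biUnion.2 ⟨e, he, mem_sigma.2 ⟨mem_filter.2 ⟨mem_univ _, hv⟩, hp.2⟩⟩
    refine le_trans ?_ (card_le_card h1)
    rw [card_sigma]
    simp only [card_range]
    have h2 : ∑ e ∈ s, (U.filter (· ∈ e.1)).card = ∑ v ∈ U, (s.filter (fun e => v ∈ e.1)).card := by
      simp only [card_filter]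
      exact Finset.sum_comm
    have h3 : ∀ e ∈ s, (U.filter (· ∈ e.1)).card = 2 := by
      rintro ⟨e, he'⟩ he
      induction e using Sym2.ind with
      | _ x y =>
        have hxy : F.Adj x y := he'
        rw [← card_pair hxy.ne]
        congr 1
        ext v
        simp only [U, mem_filter, mem_univ, true_and, mem_insert, mem_singleton]
        constructor
        · exact fun h => Sym2.mem_iff.1 h.2
        · exact fun h => ⟨⟨_, he, Sym2.mem_iff.2 h⟩, Sym2.mem_iff.2 h⟩
    have h4 : ∀ v ∈ U, (s.filter (fun e => v ∈ e.1)).card ≤ 2 * (dg F v / 2) := by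
      intro v _
      have := inc_le F v ((s.filter (fun e => v ∈ e.1)).map (Function.Embedding.subtype _)) (by
        intro e he
        obtain ⟨e', he', rfl⟩ := mem_map.1 he
        exact ⟨e'.2, (mem_filter.1 he').2⟩)
      rw [card_map] at this
      obtain ⟨r, hr⟩ := hev v
      omega
    rw [Finset.sum_congr rfl h3] at h2
    have h5 := Finset.sum_le_sum h4
    rw [← h2, ← Finset.mul_sum, sum_const, smul_eq_mul] at h5
    omega)
  obtain ⟨R, hR⟩ : ∃ R : V → V → Prop,
      ∀ u v, R u v ↔ ∃ h : F.Adj u v, (f ⟨s(u, v), h⟩).1 = u := ⟨_, fun _ _ => Iff.rfl⟩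
  have hR1 : ∀ u v, R u v → F.Adj u v := fun u v h => ((hR u v).1 h).1
  have hsw : ∀ u v (h : F.Adj u v), f ⟨s(v, u), h.symm⟩ = f ⟨s(u, v), h⟩ := by
    intro u v h
    congr 1
    exact Subtype.ext Sym2.eq_swap
  have hR2 : ∀ u v, F.Adj u v → R u v ∨ R v u := by
    intro u v h
    have := (mem_filter.1 (mem_sigma.1 (hft ⟨s(u, v), h⟩)).1).2
    rcases Sym2.mem_iff.1 this with h' | h'
    · exact Or.inl ((hR _ _).2 ⟨h, h'⟩)
    · exact Or.inr ((hR _ _).2 ⟨h.symm, by rw [hsw u v h]; exact h'⟩)
  have hR3 : ∀ u v, R u v → ¬ R v u := by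
    intro u v a1 a2
    obtain ⟨h, h1⟩ := (hR _ _).1 a1
    obtain ⟨h', h2⟩ := (hR _ _).1 a2
    rw [hsw u v h, h1] at h2
    exact h.ne h2
  have hout : ∀ v, 2 * (univ.filter (R v)).card ≤ dg F v := by
    intro v
    have : (univ.filter (R v)).card ≤ (range (dg F v / 2)).card := by
      refine card_le_card_of_injOn
        (fun u => if h : F.Adj v u then (f ⟨s(v, u), h⟩).2 else 0) ?_ ?_
      · intro u hu
        obtain ⟨h, h1⟩ := (hR _ _).1 (mem_filter.1 (mem_coe.1 hu)).2
        have := (mem_sigma.1 (hft ⟨s(v, u), h⟩)).2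
        simp only [h, dif_pos]
        rw [h1] at this
        exact mem_coe.2 this
      · intro u hu u' hu' he
        obtain ⟨h, h1⟩ := (hR _ _).1 (mem_filter.1 (mem_coe.1 hu)).2
        obtain ⟨h', h1'⟩ := (hR _ _).1 (mem_filter.1 (mem_coe.1 hu')).2
        simp only [h, h', dif_pos] at he
        have e : f ⟨s(v, u), h⟩ = f ⟨s(v, u'), h'⟩ :=
          Sigma.ext (h1.trans h1'.symm) (heq_of_eq he)
        have e2 := congrArg Subtype.val (hf e)
        exact Sym2.congr_right.1 e2
    rw [card_range] at this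
    omega
  have hsum : ∀ v, (univ.filter (R v)).card + (univ.filter (fun u => R u v)).card = dg F v := by
    intro v
    rw [← card_union_of_disjoint]
    · unfold dg
      congr 1
      ext u
      simp only [mem_union, mem_filter, mem_univ, true_and]
      exact ⟨fun h => h.elim (hR1 _ _) (fun h => (hR1 _ _ h).symm), hR2 v u⟩
    · rw [Finset.disjoint_left]
      intro u h1 h2
      exact hR3 _ _ (mem_filter.1 h1).2 (mem_filter.1 h2).2
  have hsw2 : ∑ v, (univ.filter (R v)).card = ∑ v, (univ.filter (fun u => R u v)).card := by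
    simp only [card_filter]
    exact Finset.sum_comm
  have htot : ∑ v, 2 * (univ.filter (R v)).card = ∑ v, dg F v := by
    rw [← Finset.sum_congr rfl (fun v _ => hsum v), Finset.sum_add_distrib, ← hsw2,
      ← Finset.mul_sum]
    ring
  have heq := (Finset.sum_eq_sum_iff_of_le (fun v _ => hout v)).1 htot
  refine ⟨R, hR1, hR2, hR3, fun v => heq v (mem_univ _), fun v => ?_⟩
  have := heq v (mem_univ _)
  have := hsum v
  omega

lemma birk (k : ℕ) : ∀ A : V → V → ℕ, (∀ u, ∑ v, A u v = k) → (∀ v, ∑ u, A u v = k) →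
    ∃ σ : ℕ → Equiv.Perm V, ∀ u v, A u v = ((range k).filter (fun i => σ i u = v)).card := by
  induction k with
  | zero =>
    intro A h1 _
    refine ⟨fun _ => 1, fun u v => ?_⟩
    have := (Finset.sum_eq_zero_iff.1 (h1 u)) v (mem_univ _)
    rw [this, range_zero, filter_empty, card_empty]
  | succ k ih =>
    intro A h1 h2
    obtain ⟨f, hf, hfA⟩ := (Fintype.all_card_le_filter_rel_iff_exists_injective
      (fun u v => 0 < A u v)).1 (by
        intro S
        set N := univ.filter (fun b => ∃ a ∈ S, 0 < A a b) with hN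
        have e1 : ∑ u ∈ S, ∑ v ∈ N, A u v = S.card * (k + 1) := by
          rw [← smul_eq_mul, ← sum_const]
          refine Finset.sum_congr rfl fun u hu => ?_
          rw [← h1 u]
          refine Finset.sum_subset (subset_univ _) fun v _ hv => ?_
          by_contra h
          exact hv (mem_filter.2 ⟨mem_univ _, u, hu, Nat.pos_of_ne_zero h⟩)
        have e2 : ∑ v ∈ N, ∑ u ∈ S, A u v ≤ N.card * (k + 1) := by
          rw [← smul_eq_mul, ← sum_const]
          refine Finset.sum_le_sum fun v _ => ?_
          rw [← h2 v]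
          exact Finset.sum_le_sum_of_subset (subset_univ _)
        rw [Finset.sum_comm, e1] at e2
        exact Nat.le_of_mul_le_mul_right e2 (by omega))
    let τ : Equiv.Perm V := Equiv.ofBijective f (Finite.injective_iff_bijective.1 hf)
    have hτ : ∀ u, τ u = f u := fun _ => rfl
    have hA : ∀ u v, A u v = (A u v - if τ u = v then 1 else 0) + if τ u = v then 1 else 0 := by
      intro u v
      by_cases h : τ u = v
      · have := hfA u
        rw [← hτ, h] at this
        simp only [h, if_true]; omega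
      · simp [h]
    obtain ⟨σ, hσ⟩ := ih (fun u v => A u v - if τ u = v then 1 else 0) (by
      intro u
      have := h1 u
      rw [Finset.sum_congr rfl (fun v _ => hA u v), Finset.sum_add_distrib] at this
      simp only [sum_ite_eq, mem_univ, if_true] at this
      omega) (by
      intro v
      have := h2 v
      rw [Finset.sum_congr rfl (fun u _ => hA u v), Finset.sum_add_distrib] at this
      have e : ∑ u, (if τ u = v then 1 else 0) = 1 := by
        simp only [← Equiv.eq_symm_apply, sum_ite_eq', mem_univ, if_true]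
      omega)
    refine ⟨fun i => if i = k then τ else σ i, fun u v => ?_⟩
    rw [hA u v, hσ u v, range_add_one, filter_insert]
    have e : (range k).filter (fun i => (if i = k then τ else σ i) u = v) =
        (range k).filter (fun i => σ i u = v) := by
      refine filter_congr fun i hi => ?_
      rw [if_neg (mem_range.1 hi).ne]
    rw [e]
    by_cases h : τ u = v
    · simp only [h, if_true]
      rw [card_insert_of_notMem (by simp)]
    · simp [h]

/-- An even graph of maximum degree at most `2k` splits into `k` graphs with degrees 0 or 2. -/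
lemma petersen (F : SimpleGraph V) (k : ℕ) (hev : ∀ v, Even (dg F v)) (hk : ∀ v, dg F v ≤ 2 * k) :
    ∃ c : Sym2 V → ℕ, (∀ e ∈ F.edgeSet, c e < k) ∧ ∀ i w,
      {e | e ∈ F.edgeSet ∧ c e = i ∧ w ∈ e}.ncard = 0 ∨
      {e | e ∈ F.edgeSet ∧ c e = i ∧ w ∈ e}.ncard = 2 := by
  obtain ⟨R, h1, h2, h3, h4, h5⟩ := orient F hev
  have hirr : ∀ u, ¬ R u u := fun u h => h3 u u h h
  obtain ⟨σ, hσ⟩ := birk k
    (fun u v => (if R u v then 1 else 0) + if u = v then k - dg F u / 2 else 0) (by
      intro u
      rw [Finset.sum_add_distrib, ← card_filter]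
      simp only [sum_ite_eq, mem_univ, if_true]
      have : 2 * (univ.filter (fun v => R u v)).card = dg F u := h4 u
      have := hk u
      omega) (by
      intro v
      rw [Finset.sum_add_distrib, ← card_filter]
      simp only [sum_ite_eq', mem_univ, if_true]
      have := h5 v
      have := hk v
      omega)
  let P : Sym2 V → ℕ → Prop := fun e i => i < k ∧ ∃ u v, R u v ∧ e = s(u, v) ∧ σ i u = v
  have hone : ∀ u v, R u v → ∃ i, (range k).filter (fun i => σ i u = v) = {i} := by
    intro u v h
    have := hσ u v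
    simp only [h, if_true, (h1 u v h).ne, if_false] at this
    exact card_eq_one.1 this.symm
  have hex : ∀ e ∈ F.edgeSet, ∃ i, P e i := by
    intro e he
    induction e using Sym2.ind with
    | _ x y =>
      have aux : ∀ u v, R u v → ∃ i, P s(u, v) i := by
        intro u v h
        obtain ⟨i, hi⟩ := hone u v h
        have : i ∈ (range k).filter (fun i => σ i u = v) := by rw [hi]; simp
        exact ⟨i, mem_range.1 (mem_filter.1 this).1, u, v, h, rfl, (mem_filter.1 this).2⟩
      rcases h2 x y he with h | h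
      · exact aux x y h
      · rw [Sym2.eq_swap]; exact aux y x h
  have huniq : ∀ e i j, P e i → P e j → i = j := by
    rintro e i j ⟨hi, u, v, h, rfl, hs⟩ ⟨hj, u', v', h', he, hs'⟩
    rcases Sym2.eq_iff.1 he with ⟨rfl, rfl⟩ | ⟨rfl, rfl⟩
    · obtain ⟨l, hl⟩ := hone _ _ h
      have a1 : i ∈ ({l} : Finset ℕ) := hl ▸ mem_filter.2 ⟨mem_range.2 hi, hs⟩
      have a2 : j ∈ ({l} : Finset ℕ) := hl ▸ mem_filter.2 ⟨mem_range.2 hj, hs'⟩
      rw [mem_singleton.1 a1, mem_singleton.1 a2]
    · exact absurd h' (h3 _ _ h)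
  have hmove : ∀ i < k, ∀ u, σ i u ≠ u → R u (σ i u) := by
    intro i hi u hu
    have := hσ u (σ i u)
    have hp : 0 < ((range k).filter (fun j => σ j u = σ i u)).card :=
      card_pos.2 ⟨i, mem_filter.2 ⟨mem_range.2 hi, rfl⟩⟩
    by_contra hn
    simp only [hn, if_false, Ne.symm hu] at this
    omega
  let c : Sym2 V → ℕ := fun e => if h : ∃ i, P e i then h.choose else 0
  have hc : ∀ e ∈ F.edgeSet, P e (c e) := by
    intro e he
    have h := hex e he
    simp only [c, dif_pos h]
    exact h.choose_spec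
  refine ⟨c, fun e he => (hc e he).1, fun i w => ?_⟩
  by_cases hi : i < k ∧ σ i w ≠ w
  · right
    have hw := hmove i hi.1 w hi.2
    have hne : σ i ((σ i).symm w) ≠ (σ i).symm w := by
      intro h
      simp only [Equiv.apply_symm_apply] at h
      apply hi.2
      conv_lhs => rw [h]
      simp
    have hw' := hmove i hi.1 _ hne
    rw [Equiv.apply_symm_apply] at hw'
    rw [Set.ncard_eq_two]
    refine ⟨s(w, σ i w), s((σ i).symm w, w), ?_, ?_⟩
    · intro h
      rcases Sym2.eq_iff.1 h with ⟨_, h'⟩ | ⟨_, h'⟩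
      · exact hi.2 h'
      · rw [h'] at hw
        exact h3 _ _ hw hw'
    · ext e
      simp only [Set.mem_setOf_eq, Set.mem_insert_iff, Set.mem_singleton_iff]
      constructor
      · rintro ⟨he, rfl, hwe⟩
        obtain ⟨-, u, v, -, he', hs⟩ := hc e he
        rw [he'] at hwe
        rcases Sym2.mem_iff.1 hwe with rfl | rfl
        · left; rw [hs]; exact he'
        · right
          have : (σ (c e)).symm w = u := by rw [Equiv.symm_apply_eq]; exact hs.symm
          rw [this]; exact he'
      · rintro (rfl | rfl)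
        · have he : s(w, σ i w) ∈ F.edgeSet := h1 _ _ hw
          exact ⟨he, huniq _ _ _ (hc _ he) ⟨hi.1, _, _, hw, rfl, rfl⟩, by simp⟩
        · have he : s((σ i).symm w, w) ∈ F.edgeSet := h1 _ _ hw'
          exact ⟨he, huniq _ _ _ (hc _ he) ⟨hi.1, _, _, hw', rfl, by simp⟩, by simp⟩
  · left
    rw [Set.ncard_eq_zero (Set.toFinite _), Set.eq_empty_iff_forall_notMem]
    rintro e ⟨he, rfl, hwe⟩
    obtain ⟨hlt, u, v, huv, he', hs⟩ := hc e he
    apply hi
    refine ⟨hlt, fun h => ?_⟩
    rw [he'] at hwe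
    rcases Sym2.mem_iff.1 hwe with rfl | rfl
    · rw [h] at hs
      exact (h1 _ _ huv).ne hs
    · exact (h1 _ _ huv).ne ((σ (c e)).injective (hs.trans h.symm))

end Pool.Agent.Lib.H22Re
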