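import Mathlib
import Pool.Agent.Lib.helper22.RivA

set_option autoImplicit false
open Cardinal Set Order

namespace Pool.Agent.Lib.helper22.Riv

structure Sys (P : Type) where
  N : P → Set P
  K : Cardinal.{0} → Set P
  refl : ∀ x, x ∈ N x
  symm : ∀ x y, y ∈ N x → x ∈ N y
  k1 : ∀ x i j, x ∈ K i → i ≤ j → j.IsRegular → #(N x ∩ K j : Set P) < j
  k2 : ∀ x i, x ∉ K i → ∃ j, i ≤ j ∧ j.IsRegular ∧ j ≤ #(N x ∩ K j : Set P)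

variable {P : Type} (Γ : Sys P)

theorem Sys.mono {i j : Cardinal.{0}} (h : i ≤ j) : Γ.K i ⊆ Γ.K j := by
  intro x hx
  by_contra hn
  obtain ⟨k, h1, h2, h3⟩ := Γ.k2 x j hn
  exact absurd (Γ.k1 x i k hx (h.trans h1) h2) (not_lt.2 h3)

def Sys.Ob (S : Set P) (y : P) : Prop := ∃ h ∈ S, ∃ h' ∈ S, h ≠ h' ∧ h ∈ Γ.N y ∧ h' ∈ Γ.N y

def Sys.Ind (S : Set P) : Prop := ∀ h ∈ S, ∀ h' ∈ S, h ≠ h' → h' ∉ Γ.N h

def Sys.St (S : Set P) (μ : Cardinal.{0}) : Prop :=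
  Γ.Ind S ∧ #S ≤ μ ∧ S ⊆ Γ.K μ ∧ ∀ y, Γ.Ob S y → y ∈ Γ.K (succ μ) → (S ∩ Γ.N y).Infinite

theorem Sys.Ob.mono {Γ : Sys P} {S S' : Set P} {y : P} (h : Γ.Ob S y) (hs : S ⊆ S') :
    Γ.Ob S' y := by
  obtain ⟨a, ha, b, hb, h⟩ := h
  exact ⟨a, hs ha, b, hs hb, h⟩

theorem inf_mono {S S' T : Set P} (h : (S ∩ T).Infinite) (hs : S ⊆ S') : (S' ∩ T).Infinite :=
  h.mono (inter_subset_inter_left _ hs)

/-- thinning at one regular level -/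
theorem Sys.thin {μ : Cardinal.{0}} (hμ : μ.IsRegular) (S : Set P) (hS : #S < μ)
    (hK : S ⊆ Γ.K μ) (Z : Set P) (R : Set (Set P)) (hR : #R ≤ μ)
    (hT : ∀ T ∈ R, μ ≤ #(T ∩ Γ.K μ ∩ Z : Set P)) :
    ∃ H : Set P, H ⊆ Γ.K μ ∩ Z ∧ #H ≤ μ ∧ (∀ T ∈ R, (H ∩ T).Infinite) ∧
      ∀ h ∈ H, ∀ h' ∈ S ∪ H, (h' ∈ S ∨ h ≠ h') → ∀ y ∈ Γ.K μ, h ∈ Γ.N y → h' ∉ Γ.N y := by
  classical
  obtain ⟨ι, l, w, e, hw⟩ : ∃ (ι : Type) (_ : LinearOrder ι) (_ : WellFoundedLT ι)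
      (_ : ι ≃ R × ℕ), ∀ a : ι, #(Iio a) < #(R × ℕ) := by
    obtain ⟨l, w, hw⟩ := small_order (R × ℕ)
    exact ⟨R × ℕ, l, w, Equiv.refl _, hw⟩
  have hc : #(R × ℕ) ≤ μ := by
    simp only [mk_prod, lift_id, mk_nat, lift_uzero]
    exact mul_le_of_le hμ.1 hR hμ.1
  let Ex : Set P → Set P := fun Y => ⋃ h ∈ Y, ⋃ y ∈ Γ.N h ∩ Γ.K μ, Γ.N y ∩ Γ.K μ
  have hEx : ∀ Y, Y ⊆ Γ.K μ → #Y < μ → #(Ex Y) < μ := fun Y h1 h2 =>
    bU_lt hμ h2 fun h hh => bU_lt hμ (Γ.k1 h μ μ (h1 hh) le_rfl hμ) fun y hy =>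
      Γ.k1 y μ μ hy.2 le_rfl hμ
  have hne : ∀ a : ι, ((e a).1.1 ∩ Γ.K μ ∩ Z).Nonempty := fun a => by
    rw [← nonempty_coe_sort, ← mk_ne_zero_iff]
    exact (hμ.pos.trans_le (hT _ (e a).1.2)).ne'
  let F : ι → Set P → P := fun a Y =>
    if h : (((e a).1.1 ∩ Γ.K μ ∩ Z) \ Ex (S ∪ Y)).Nonempty then h.some else (hne a).some
  obtain ⟨g, hg⟩ := rec_ex F
  have g1 : ∀ a, g a ∈ (e a).1.1 ∩ Γ.K μ ∩ Z := fun a => by
    rw [hg a]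
    by_cases h : (((e a).1.1 ∩ Γ.K μ ∩ Z) \ Ex (S ∪ g '' Iio a)).Nonempty
    · simp only [F, dif_pos h]; exact h.some_mem.1
    · simp only [F, dif_neg h]; exact (hne a).some_mem
  have g2 : ∀ a, g a ∉ Ex (S ∪ g '' Iio a) := fun a => by
    have h : (((e a).1.1 ∩ Γ.K μ ∩ Z) \ Ex (S ∪ g '' Iio a)).Nonempty := by
      rw [diff_nonempty]
      intro hs
      refine absurd ((hT _ (e a).1.2).trans (mk_le_mk_of_subset hs)) (not_le.2 (hEx _ ?_ ?_))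
      · rintro x (hx | ⟨b, -, rfl⟩)
        · exact hK hx
        · exact (g1 b).1.2
      · exact U_lt hμ.1 hS (mk_image_le.trans_lt ((hw a).trans_le hc))
    have := h.some_mem.2
    rw [hg a]
    simp only [F, dif_pos h]; exact this
  have g3 : ∀ a, ∀ h' ∈ S ∪ g '' Iio a, ∀ y ∈ Γ.K μ, g a ∈ Γ.N y → h' ∉ Γ.N y :=
    fun a h' hh y hy h1 h2 =>
      g2 a (mem_biUnion hh (mem_biUnion ⟨Γ.symm _ _ h2, hy⟩ ⟨h1, (g1 a).1.2⟩))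
  have ginj : Function.Injective g := by
    have : ∀ a b, b < a → g a ≠ g b := fun a b hab he =>
      g3 a (g b) (Or.inr ⟨b, hab, rfl⟩) (g a) (g1 a).1.2 (Γ.refl _) (he ▸ Γ.refl _)
    intro a b he
    rcases lt_trichotomy a b with h | h | h
    · exact absurd he.symm (this b a h)
    · exact h
    · exact absurd he (this a b h)
  refine ⟨range g, ?_, mk_range_le.trans ((mk_congr e).trans_le hc), fun T hTR => ?_, ?_⟩
  · rintro _ ⟨a, rfl⟩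
    exact ⟨(g1 a).1.2, (g1 a).2⟩
  · refine Set.infinite_of_injective_forall_mem (f := fun n : ℕ => g (e.symm (⟨T, hTR⟩, n)))
      (fun n k h => by simpa using ginj h) fun n => ⟨⟨_, rfl⟩, by
        simpa using (g1 (e.symm (⟨T, hTR⟩, n))).1.1⟩
  · rintro _ ⟨a, rfl⟩ h' hh hne y hy h1
    rcases hh with hh | ⟨b, rfl⟩
    · exact g3 a h' (Or.inl hh) y hy h1
    · rcases hne with hne | hne
      · exact g3 a _ (Or.inl hne) y hy h1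
      · rcases lt_trichotomy a b with h | h | h
        · exact fun h2 => g3 b (g a) (Or.inr ⟨a, h, rfl⟩) y hy h2 h1
        · exact absurd (congrArg g h) hne
        · exact g3 a _ (Or.inr ⟨b, h, rfl⟩) y hy h1

/-- the level lemma -/
theorem Sys.level {μ : Cardinal.{0}} (hμ : μ.IsRegular) (S : Set P) (hI : Γ.Ind S) (hS : #S < μ)
    (hK : S ⊆ Γ.K μ) (hO : ∀ y, Γ.Ob S y → y ∈ Γ.K μ → (S ∩ Γ.N y).Infinite)
    (R : Set (Set P)) (hR : #R ≤ μ) (hT : ∀ T ∈ R, μ ≤ #(T ∩ Γ.K μ : Set P)) :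
    ∃ S', S ⊆ S' ∧ Γ.St S' μ ∧ ∀ T ∈ R, (S' ∩ T).Infinite := by
  classical
  have : ∀ T : Set P, ∃ V : Set P, #V ≤ μ ∧
      (μ ≤ #(T ∩ Γ.K μ : Set P) → V ⊆ T ∩ Γ.K μ ∧ #V = μ) := by
    intro T
    by_cases h : μ ≤ #(T ∩ Γ.K μ : Set P)
    · obtain ⟨V, h1, h2⟩ := le_mk_iff_exists_subset.1 h
      exact ⟨V, h2.le, fun _ => ⟨h1, h2⟩⟩
    · exact ⟨∅, by simp, fun h' => absurd h' h⟩
  choose sub hs1 hs2 using this
  let F : P → Set P := fun x =>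
    (if x ∈ Γ.K μ then Γ.N x ∩ Γ.K (succ μ) else ∅) ∪ sub (Γ.N x)
  have hF : ∀ x, #(F x) ≤ μ := fun x => by
    refine U_le hμ.1 ?_ (hs1 _)
    split_ifs with h
    · exact lt_succ_iff.1 (Γ.k1 x μ _ h (le_succ μ) (isRegular_succ hμ.1))
    · simp
  obtain ⟨Z, z1, z2, z3⟩ := closure_ex hμ.1 F hF (S ∪ ⋃ T ∈ R, sub T)
    (U_le hμ.1 hS.le (bU_le hμ.1 hR fun T _ => hs1 T))
  let R' : Set (Set P) := R ∪ Γ.N '' {y | y ∈ Z ∧ μ ≤ #(Γ.N y ∩ Γ.K μ : Set P)}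
  have hR' : #R' ≤ μ := U_le hμ.1 hR
    (mk_image_le.trans ((mk_le_mk_of_subset fun y hy => hy.1).trans z2))
  obtain ⟨H, h1, h2, h3, h4⟩ := Γ.thin hμ S hS hK Z R' hR' (by
    rintro T (hTR | ⟨y, ⟨hy, hy2⟩, rfl⟩)
    · obtain ⟨e1, e2⟩ := hs2 T (hT T hTR)
      exact e2.ge.trans (mk_le_mk_of_subset fun x hx =>
        ⟨e1 hx, z1 (Or.inr (mem_biUnion hTR hx))⟩)
    · obtain ⟨e1, e2⟩ := hs2 _ hy2
      exact e2.ge.trans (mk_le_mk_of_subset fun x hx => ⟨e1 hx, z3 y hy (Or.inr hx)⟩))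
  have hKS : S ∪ H ⊆ Γ.K μ := union_subset hK fun x hx => (h1 hx).1
  have key : ∀ a ∈ S ∪ H, ∀ b ∈ S ∪ H, a ≠ b → ∀ y ∈ Γ.K μ, a ∈ Γ.N y → b ∈ Γ.N y →
      a ∈ S ∧ b ∈ S := by
    intro a ha b hb hab y hy g1 g2
    refine ⟨?_, ?_⟩
    · rcases ha with ha | ha
      · exact ha
      · exact absurd g2 (h4 a ha b hb (Or.inr hab) y hy g1)
    · rcases hb with hb | hb
      · exact hb
      · exact absurd g1 (h4 b hb a ha (Or.inr hab.symm) y hy g2)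
  refine ⟨S ∪ H, subset_union_left, ⟨?_, U_le hμ.1 hS.le h2, hKS, ?_⟩,
    fun T hTR => inf_mono (h3 T (Or.inl hTR)) subset_union_right⟩
  · intro a ha b hb hab hN
    obtain ⟨e1, e2⟩ := key a ha b hb hab a (hKS ha) (Γ.refl a) hN
    exact hI a e1 b e2 hab hN
  · rintro y ⟨a, ha, b, hb, hab, g1, g2⟩ hy
    by_cases hyK : y ∈ Γ.K μ
    · obtain ⟨e1, e2⟩ := key a ha b hb hab y hyK g1 g2
      exact inf_mono (hO y ⟨a, e1, b, e2, hab, g1, g2⟩ hyK) subset_union_left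
    · obtain ⟨j, j1, j2, j3⟩ := Γ.k2 y μ hyK
      have hj : j = μ := by
        refine le_antisymm ?_ j1
        by_contra hn
        exact absurd (Γ.k1 y _ j hy (succ_le_of_lt (not_le.1 hn)) j2) (not_lt.2 j3)
      subst hj
      have haZ : a ∈ Z := by
        rcases ha with ha | ha
        · exact z1 (Or.inl ha)
        · exact (h1 ha).2
      have hyZ : y ∈ Z := z3 a haZ (Or.inl (by
        rw [if_pos (hKS ha)]; exact ⟨Γ.symm _ _ g1, hy⟩))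
      exact inf_mono (h3 _ (Or.inr ⟨y, ⟨hyZ, j3⟩, rfl⟩)) subset_union_right

end Pool.Agent.Lib.helper22.Riv
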