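import Mathlib
import Pool.Agent.Lib.helper22.RivB

set_option autoImplicit false
open Cardinal Set Order

namespace Pool.Agent.Lib.helper22.Riv

variable {P : Type} (Γ : Sys P)

def Sys.Cl (μ : Cardinal.{0}) : Prop :=
  ∀ ρ, ℵ₀ ≤ ρ → ρ ≤ μ → ∀ S, Γ.St S ρ → ∀ R : Set (Set P), #R ≤ ρ →
    (∀ T ∈ R, ∃ l : Cardinal.{0}, l.IsRegular ∧ ρ < l ∧ l ≤ μ ∧ l ≤ #(T ∩ Γ.K l : Set P)) →
    ∃ S', S ⊆ S' ∧ Γ.St S' μ ∧ ∀ T ∈ R, (S' ∩ T).Infinite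

theorem Sys.clm' {μ : Cardinal.{0}} (hμ : μ.IsRegular) (ih : ∀ ν < μ, Γ.Cl ν) {ρ : Cardinal.{0}}
    (h0 : ℵ₀ ≤ ρ) (hρ : ρ < μ) {S : Set P} (hS : Γ.St S ρ) (R : Set (Set P)) (hR : #R ≤ ρ)
    (hT : ∀ T ∈ R, ∃ l : Cardinal.{0}, l.IsRegular ∧ ρ < l ∧ l < μ ∧ l ≤ #(T ∩ Γ.K l : Set P)) :
    ∃ ρ', ρ ≤ ρ' ∧ ρ' < μ ∧ ∃ S', S ⊆ S' ∧ Γ.St S' ρ' ∧ ∀ T ∈ R, (S' ∩ T).Infinite := by
  choose! l hl using hT
  have h1 : ⨆ T : R, l T.1 < μ :=
    iSup_lt_of_isRegular hμ (hR.trans_lt hρ) fun T => (hl T.1 T.2).2.2.1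
  refine ⟨max ρ (⨆ T : R, l T.1), le_max_left _ _, max_lt hρ h1, ?_⟩
  refine ih _ (max_lt hρ h1) ρ h0 (le_max_left _ _) S hS R hR fun T hTR =>
    ⟨l T, (hl T hTR).1, (hl T hTR).2.1, ?_, (hl T hTR).2.2.2⟩
  exact (le_ciSup (f := fun T : R => l T.1) bddAbove_of_small ⟨T, hTR⟩).trans (le_max_right _ _)

theorem Sys.astep {μ : Cardinal.{0}} (hμ : μ.IsRegular) (ih : ∀ ν < μ, Γ.Cl ν) {ρ : Cardinal.{0}}
    (h0 : ℵ₀ ≤ ρ) (hρ : ρ < μ) {S : Set P} (hS : Γ.St S ρ) :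
    ∃ ρ', ρ ≤ ρ' ∧ ρ' < μ ∧ ∃ S', S ⊆ S' ∧ Γ.St S' ρ' ∧
      ∀ y, Γ.Ob S y → y ∈ Γ.K μ → (S' ∩ Γ.N y).Infinite := by
  let O : Set P := {y | Γ.Ob S y ∧ y ∈ Γ.K μ}
  have hO : #O < μ := by
    refine lt_of_le_of_lt (mk_le_mk_of_subset ?_) (bU_lt (s := S) (t := fun h => Γ.N h ∩ Γ.K μ) hμ
      (hS.2.1.trans_lt hρ) fun h hh => Γ.k1 h ρ μ (hS.2.2.1 hh) hρ.le hμ)
    rintro y ⟨⟨a, ha, b, hb, -, g1, -⟩, hy⟩
    exact mem_biUnion ha ⟨Γ.symm _ _ g1, hy⟩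
  have h1 : max ρ #O < μ := max_lt hρ hO
  obtain ⟨S₁, a1, a2, -⟩ := ih _ h1 ρ h0 (le_max_left _ _) S hS ∅ (by simp) (by simp)
  obtain ⟨ρ', b1, b2, S', b3, b4, b5⟩ := Γ.clm' hμ ih (h0.trans (le_max_left _ _)) h1 a2
    (Γ.N '' {y | y ∈ O ∧ y ∉ Γ.K (succ (max ρ #O))})
    (mk_image_le.trans ((mk_le_mk_of_subset fun y hy => hy.1).trans (le_max_right _ _))) (by
      rintro _ ⟨y, ⟨hy, hy2⟩, rfl⟩
      obtain ⟨j, j1, j2, j3⟩ := Γ.k2 y _ hy2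
      refine ⟨j, j2, (lt_succ _).trans_le j1, ?_, j3⟩
      by_contra hn
      exact absurd (Γ.k1 y μ j hy.2 (not_lt.1 hn) j2) (not_lt.2 j3))
  refine ⟨ρ', (le_max_left _ _).trans b1, b2, S', a1.trans b3, b4, fun y hy hyK => ?_⟩
  by_cases h : y ∈ Γ.K (succ (max ρ #O))
  · exact inf_mono (a2.2.2.2 y (hy.mono a1) h) b3
  · exact b5 _ ⟨y, ⟨⟨hy, hyK⟩, h⟩, rfl⟩

theorem Sys.areg {μ : Cardinal.{0}} (hμ : μ.IsRegular) (ih : ∀ ν < μ, Γ.Cl ν) : Γ.Cl μ := by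
  intro ρ h0 hρ S hS R hR hT
  rcases hρ.eq_or_lt with rfl | hρ
  · exact ⟨S, Subset.rfl, hS, fun T h => by
      obtain ⟨l, -, h1, h2, -⟩ := hT T h
      exact absurd h1 (not_lt.2 h2)⟩
  obtain ⟨ρ₀, a1, a2, S₀, a3, a4, a5⟩ := Γ.clm' hμ ih h0 hρ hS
    {T | T ∈ R ∧ ¬ μ ≤ #(T ∩ Γ.K μ : Set P)}
    ((mk_le_mk_of_subset fun T h => h.1).trans hR) (by
      rintro T ⟨h1, h2⟩
      obtain ⟨l, l1, l2, l3, l4⟩ := hT T h1
      refine ⟨l, l1, l2, lt_of_le_of_ne l3 ?_, l4⟩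
      rintro rfl
      exact h2 l4)
  let X := {p : Cardinal.{0} × Set P // ℵ₀ ≤ p.1 ∧ p.1 < μ ∧ Γ.St p.2 p.1}
  have step : ∀ p : X, ∃ q : X, p.1.2 ⊆ q.1.2 ∧
      ∀ y, Γ.Ob p.1.2 y → y ∈ Γ.K μ → (q.1.2 ∩ Γ.N y).Infinite := by
    rintro ⟨⟨r, Y⟩, h1, h2, h3⟩
    obtain ⟨r', b1, b2, Y', b3, b4, b5⟩ := Γ.astep hμ ih h1 h2 h3
    exact ⟨⟨⟨r', Y'⟩, h1.trans b1, b2, b4⟩, b3, b5⟩
  choose f hf using step
  let p : ℕ → X := fun n => f^[n] ⟨⟨ρ₀, S₀⟩, h0.trans a1, a2, a4⟩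
  have hp : ∀ n, p (n + 1) = f (p n) := fun n => Function.iterate_succ_apply' _ _ _
  have pm : Monotone fun n => (p n).1.2 :=
    monotone_nat_of_le_succ fun n => by rw [hp]; exact (hf _).1
  let S₁ : Set P := ⋃ n ∈ (univ : Set ℕ), (p n).1.2
  have two : ∀ a ∈ S₁, ∀ b ∈ S₁, ∃ n, a ∈ (p n).1.2 ∧ b ∈ (p n).1.2 := by
    intro a ha b hb
    simp only [S₁, mem_iUnion] at ha hb
    obtain ⟨n, -, hn⟩ := ha
    obtain ⟨k, -, hk⟩ := hb
    exact ⟨max n k, pm (le_max_left _ _) hn, pm (le_max_right _ _) hk⟩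
  have sub : ∀ n, (p n).1.2 ⊆ S₁ := fun n x hx => mem_biUnion (mem_univ n) hx
  obtain ⟨S', c1, c2, c3⟩ := Γ.level hμ S₁ (fun a ha b hb hab => by
      obtain ⟨n, h1, h2⟩ := two a ha b hb
      exact (p n).2.2.2.1 a h1 b h2 hab)
    (bU_lt hμ (by simpa using h0.trans_lt hρ) fun n _ => (p n).2.2.2.2.1.trans_lt (p n).2.2.1)
    (iUnion₂_subset fun n _ => (p n).2.2.2.2.2.1.trans (Γ.mono (p n).2.2.1.le))
    (by
      rintro y ⟨a, ha, b, hb, hab⟩ hy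
      obtain ⟨n, h1, h2⟩ := two a ha b hb
      have := (hf (p n)).2 y ⟨a, h1, b, h2, hab⟩ hy
      rw [← hp] at this
      exact inf_mono this (sub _))
    {T | T ∈ R ∧ μ ≤ #(T ∩ Γ.K μ : Set P)}
    ((mk_le_mk_of_subset fun T h => h.1).trans (hR.trans hρ.le)) fun T h => h.2
  have s0 : S₀ ⊆ S' := (sub 0).trans c1
  refine ⟨S', a3.trans s0, c2, fun T h => ?_⟩
  by_cases h' : μ ≤ #(T ∩ Γ.K μ : Set P)
  · exact c3 T ⟨h, h'⟩
  · exact inf_mono (a5 T ⟨h, h'⟩) s0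

theorem Sys.asing {μ : Cardinal.{0}} (hμ : ¬ μ.IsRegular) (ih : ∀ ν < μ, Γ.Cl ν) : Γ.Cl μ := by
  classical
  intro ρ h0 hρ S hS R hR hT
  rcases hρ.eq_or_lt with rfl | hρ
  · exact ⟨S, Subset.rfl, hS, fun T h => by
      obtain ⟨l, -, h1, h2, -⟩ := hT T h
      exact absurd h1 (not_lt.2 h2)⟩
  obtain ⟨ι, lo, wf, m, m1, m2, m3, m4⟩ := sing_ex (h0.trans hρ.le) hμ
  obtain ⟨idx, i1, i2⟩ := idx_ex P
  set σ := max ρ #ι with hσ
  have σ0 : ℵ₀ ≤ σ := h0.trans (le_max_left _ _)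
  have σμ : σ < μ := max_lt hρ m1
  obtain ⟨S₀, a1, a2, a3⟩ := ih σ σμ ρ h0 (le_max_left _ _) S hS
    {T | T ∈ R ∧ ∃ l : Cardinal.{0}, l.IsRegular ∧ ρ < l ∧ l ≤ σ ∧ l ≤ #(T ∩ Γ.K l : Set P)}
    ((mk_le_mk_of_subset fun T h => h.1).trans hR) fun T h => h.2
  let D : Option ι → Set ι := fun o => o.elim univ Iio
  have hD : ∀ o a b, a ∈ D o → b < a → b ∈ D o := by
    rintro (_ | c) a b h1 h2
    · trivial
    · exact lt_trans h2 h1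
  let bs : Option ι → Cardinal.{0} := fun o => max σ (⨆ a : D o, m a.1)
  have b1 : ∀ o, σ ≤ bs o := fun o => le_max_left _ _
  have b2 : ∀ o, ∀ a ∈ D o, m a ≤ bs o := fun o a ha =>
    (le_ciSup (f := fun a : D o => m a.1) bddAbove_of_small ⟨a, ha⟩).trans (le_max_right _ _)
  have b3 : ∀ o c, σ ≤ c → (∀ a ∈ D o, m a ≤ c) → bs o ≤ c := fun o c h1 h2 =>
    max_le h1 (ciSup_le' fun a => h2 a.1 a.2)
  let tp : ι → Cardinal.{0} := fun a => max (bs (some a)) (m a)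
  have t1 : ∀ o, ∀ a ∈ D o, tp a ≤ bs o := fun o a ha =>
    max_le (b3 _ _ (b1 o) fun b hb => b2 o b (hD o a b ha hb)) (b2 o a ha)
  have t2 : ∀ a, tp a < μ := fun a => max_lt (max_lt σμ (m3 a)) (m2 a)
  have t3 : ∀ a, bs (some a) ≤ tp a := fun a => le_max_left _ _
  have b4 : ∀ o (l : Cardinal.{0}), l.IsRegular → σ < l → l ≤ bs o → ∃ a ∈ D o, l ≤ m a := by
    intro o l hl h1 h2
    by_contra hn
    push Not at hn
    refine absurd h2 (not_le.2 (max_lt h1 (iSup_lt_of_isRegular hl ?_ fun a => hn a.1 a.2)))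
    exact (mk_set_le _).trans_lt ((le_max_right _ _).trans_lt h1)
  have b5 : ∀ o (l : Cardinal.{0}), l.IsRegular → σ < l → l ≤ bs o →
      ∃ a ∈ D o, bs (some a) < l ∧ l ≤ m a := by
    intro o l hl h1 h2
    obtain ⟨a, ha, hmin⟩ := (wellFounded_lt (α := ι)).has_min {a | a ∈ D o ∧ l ≤ m a}
      (b4 o l hl h1 h2)
    refine ⟨a, ha.1, ?_, ha.2⟩
    by_contra hn
    obtain ⟨b, hb, hb2⟩ := b4 (some a) l hl h1 (not_lt.1 hn)
    exact hmin b ⟨hD o a b ha.1 hb, hb2⟩ hb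
  have bμ : bs none = μ := by
    refine le_antisymm (b3 _ _ σμ.le fun a _ => (m2 a).le) ?_
    by_contra hn
    have h1 : succ (bs none) < μ := by
      refine lt_of_le_of_ne (succ_le_of_lt (not_le.1 hn)) fun h => hμ ?_
      rw [← h]
      exact isRegular_succ (σ0.trans (b1 _))
    obtain ⟨a, ha⟩ := m4 _ h1
    exact absurd (ha.trans (b2 none a trivial)) (not_le.2 (lt_succ _))
  let Y : P → Option ι → Set P := fun h o => Γ.N h ∩ Γ.K (succ (bs o))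
  let Rq : ι → Set P → Set (Set P) := fun a U =>
    {T | T ∈ R ∪ ⋃ h ∈ U, ⋃ o ∈ (univ : Set (Option ι)),
        Γ.N '' {y | y ∈ Y h o ∧ idx (Y h o) y < bs (some a)} ∧
      ∃ l : Cardinal.{0}, l.IsRegular ∧ bs (some a) < l ∧ l ≤ tp a ∧ l ≤ #(T ∩ Γ.K l : Set P)}
  let Q : ι → Set P → Set P → Prop := fun a U S' =>
    U ⊆ S' ∧ Γ.St S' (tp a) ∧ ∀ T ∈ Rq a U, (S' ∩ T).Infinite
  obtain ⟨G, hG⟩ := rec_ex (ι := ι) (X := Set P)
    fun a 𝒢 => Classical.epsilon (Q a (S₀ ∪ ⋃₀ 𝒢))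
  let U : Option ι → Set P := fun o => S₀ ∪ ⋃₀ (G '' D o)
  have hG' : ∀ a, (∃ S', Q a (U (some a)) S') → Q a (U (some a)) (G a) := fun a h => by
    rw [hG a]; exact Classical.epsilon_spec h
  have GU : ∀ o, ∀ a ∈ D o, G a ⊆ U o := fun o a ha x hx => Or.inr ⟨G a, ⟨a, ha, rfl⟩, hx⟩
  have key : ∀ o, (∀ a ∈ D o, Q a (U (some a)) (G a)) → Γ.St (U o) (bs o) := by
    intro o hQ
    have Gm : ∀ a ∈ D o, ∀ b, b ≤ a → G b ⊆ G a := fun a ha b hb => by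
      rcases hb.eq_or_lt with rfl | hb
      · exact Subset.rfl
      · exact (GU (some a) b hb).trans (hQ a ha).1
    have G0 : ∀ a ∈ D o, S₀ ⊆ G a := fun a ha => subset_union_left.trans (hQ a ha).1
    have two : ∀ x ∈ U o, ∀ x' ∈ U o, (x ∈ S₀ ∧ x' ∈ S₀) ∨ ∃ a ∈ D o, x ∈ G a ∧ x' ∈ G a := by
      rintro x (hx | ⟨_, ⟨a, ha, rfl⟩, hx⟩) x' (hx' | ⟨_, ⟨b, hb, rfl⟩, hx'⟩)
      · exact Or.inl ⟨hx, hx'⟩
      · exact Or.inr ⟨b, hb, G0 b hb hx, hx'⟩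
      · exact Or.inr ⟨a, ha, hx, G0 a ha hx'⟩
      · rcases le_total a b with h | h
        · exact Or.inr ⟨b, hb, Gm b hb a h hx, hx'⟩
        · exact Or.inr ⟨a, ha, hx, Gm a ha b h hx'⟩
    have UK : U o ⊆ Γ.K (bs o) := by
      rintro x (hx | ⟨_, ⟨a, ha, rfl⟩, hx⟩)
      · exact Γ.mono (b1 o) (a2.2.2.1 hx)
      · exact Γ.mono (t1 o a ha) ((hQ a ha).2.1.2.2.1 hx)
    refine ⟨fun x hx x' hx' hne => ?_, ?_, UK, ?_⟩
    · rcases two x hx x' hx' with h | ⟨a, ha, h⟩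
      · exact a2.1 x h.1 x' h.2 hne
      · exact (hQ a ha).2.1.1 x h.1 x' h.2 hne
    · refine U_le (σ0.trans (b1 o)) (a2.2.1.trans (b1 o)) ?_
      rw [sUnion_image]
      exact bU_le (σ0.trans (b1 o)) ((mk_set_le _).trans ((le_max_right _ _).trans (b1 o)))
        fun a ha => (hQ a ha).2.1.2.1.trans (t1 o a ha)
    · rintro y ⟨x, hx, x', hx', hne, g1, g2⟩ hy
      by_cases hσy : y ∈ Γ.K (succ σ) ∧ x ∈ S₀ ∧ x' ∈ S₀
      · exact inf_mono (a2.2.2.2 y ⟨x, hσy.2.1, x', hσy.2.2, hne, g1, g2⟩ hσy.1)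
          subset_union_left
      have hex : ∃ a ∈ D o, x ∈ G a ∧ x' ∈ G a := by
        rcases two x hx x' hx' with h | h
        · have h1 : y ∉ Γ.K (succ σ) := fun h' => hσy ⟨h', h⟩
          have h2 : ¬ bs o ≤ σ := fun h' => h1 (Γ.mono (succ_le_succ h') hy)
          have : ∃ a, a ∈ D o := by
            by_contra hn
            push Not at hn
            exact h2 (b3 o σ le_rfl fun a ha => absurd ha (hn a))
          obtain ⟨a, ha⟩ := this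
          exact ⟨a, ha, G0 a ha h.1, G0 a ha h.2⟩
        · exact h
      have hyY : y ∈ Y x o := ⟨Γ.symm _ _ g1, hy⟩
      have hidx : idx (Y x o) y < bs o := (i1 _ y hyY).trans_le (lt_succ_iff.1
        (Γ.k1 x (bs o) _ (UK hx) (le_succ _) (isRegular_succ (σ0.trans (b1 o)))))
      have hex2 : ∃ a ∈ D o, x ∈ G a ∧ x' ∈ G a ∧ idx (Y x o) y < tp a := by
        obtain ⟨a, ha, h1, h2⟩ := hex
        by_cases h3 : idx (Y x o) y < tp a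
        · exact ⟨a, ha, h1, h2, h3⟩
        · have : ∃ b ∈ D o, idx (Y x o) y < m b := by
            by_contra hn
            push Not at hn
            exact absurd (b3 o _ (((b1 _).trans (t3 a)).trans (not_lt.1 h3)) hn) (not_le.2 hidx)
          obtain ⟨b, hb, h4⟩ := this
          have hab : a ≤ b := by
            by_contra hn
            have : m b ≤ tp a := (b2 (some a) b (not_le.1 hn)).trans (t3 a)
            exact h3 (h4.trans_le this)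
          exact ⟨b, hb, Gm b hb a hab h1, Gm b hb a hab h2, h4.trans_le (le_max_right _ _)⟩
      obtain ⟨a, ha, h1, h2, h3⟩ := hex2
      by_cases hyK : y ∈ Γ.K (succ (tp a))
      · exact inf_mono ((hQ a ha).2.1.2.2.2 y ⟨x, h1, x', h2, hne, g1, g2⟩ hyK) (GU o a ha)
      obtain ⟨l, l1, l2, l3⟩ := Γ.k2 y _ hyK
      have l4 : l ≤ bs o := by
        by_contra hn
        exact absurd (Γ.k1 y _ l hy (succ_le_of_lt (not_le.1 hn)) l2) (not_lt.2 l3)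
      have l5 : tp a < l := (lt_succ _).trans_le l1
      obtain ⟨b, hb, e1, e2⟩ := b5 o l l2 (((b1 _).trans (t3 a)).trans_lt l5) l4
      have hab : a < b := by
        by_contra hn
        rcases (not_lt.1 hn).eq_or_lt with rfl | hn
        · exact absurd (e2.trans (le_max_right _ _)) (not_le.2 l5)
        · exact absurd (e2.trans ((b2 (some a) b hn).trans (t3 a))) (not_le.2 l5)
      refine inf_mono ((hQ b hb).2.2 _ ⟨Or.inr ?_, l, l2, e1, e2.trans (le_max_right _ _), l3⟩)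
        (GU o b hb)
      exact mem_biUnion (GU (some b) a hab h1) (mem_biUnion (mem_univ o)
        ⟨y, ⟨hyY, h3.trans_le (t1 (some b) a hab)⟩, rfl⟩)
  have all : ∀ a, Q a (U (some a)) (G a) := by
    intro a
    induction a using WellFoundedLT.induction with
    | ind a iha =>
      have hst := key (some a) iha
      have c0 : ℵ₀ ≤ bs (some a) := σ0.trans (b1 _)
      refine hG' a (ih (tp a) (t2 a) (bs (some a)) c0 (t3 a) _ hst (Rq a (U (some a))) ?_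
        fun T h => h.2)
      refine (mk_le_mk_of_subset fun T h => h.1).trans (U_le c0
        (hR.trans ((le_max_left _ _).trans (b1 _))) (bU_le c0 hst.2.1 fun h _ => bU_le c0 ?_
          fun o _ => mk_image_le.trans (i2 _ _ c0)))
      rw [mk_univ, mk_option]
      exact add_le_of_le c0 ((le_max_right _ _).trans (b1 _)) (one_le_aleph0.trans c0)
  refine ⟨U none, a1.trans subset_union_left, bμ ▸ key none fun a _ => all a, fun T h => ?_⟩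
  obtain ⟨l, l1, l2, l3, l4⟩ := hT T h
  by_cases hl : l ≤ σ
  · exact inf_mono (a3 T ⟨h, l, l1, l2, hl, l4⟩) subset_union_left
  · obtain ⟨a, -, e1, e2⟩ := b5 none l l1 (not_le.1 hl) (bμ ▸ l3)
    exact inf_mono ((all a).2.2 T ⟨Or.inl h, l, l1, e1, e2.trans (le_max_right _ _), l4⟩)
      (GU none a trivial)

theorem Sys.cl (μ : Cardinal.{0}) : Γ.Cl μ := by
  induction μ using WellFoundedLT.induction with
  | ind μ ih =>
    by_cases h : μ.IsRegular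
    · exact Γ.areg h ih
    · exact Γ.asing h ih

theorem Sys.main [Infinite P] : ∃ S : Set P, S.Infinite ∧ Γ.Ind S ∧
    ∀ y, Γ.Ob S y → (S ∩ Γ.N y).Infinite := by
  have : ∃ j : Cardinal.{0}, j.IsRegular ∧ j ≤ #(univ ∩ Γ.K j : Set P) := by
    by_cases h : ∀ x, x ∈ Γ.K ℵ₀
    · refine ⟨ℵ₀, isRegular_aleph0, ?_⟩
      rw [univ_inter, eq_univ_of_forall h, mk_univ]
      exact aleph0_le_mk P
    · push Not at h
      obtain ⟨x, hx⟩ := h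
      obtain ⟨j, -, j2, j3⟩ := Γ.k2 x _ hx
      exact ⟨j, j2, j3.trans (mk_le_mk_of_subset (inter_subset_inter_left _ (subset_univ _)))⟩
  obtain ⟨j, hj, hj2⟩ := this
  obtain ⟨S₀, -, a2, a3⟩ := Γ.level hj ∅ (fun _ h => h.elim) (by simpa using hj.pos)
    (empty_subset _) (fun y ⟨_, h, _⟩ => h.elim) {Set.univ}
    (by rw [mk_singleton]; exact one_le_aleph0.trans hj.1) (by rintro T rfl; exact hj2)
  obtain ⟨S, b1, b2, -⟩ := Γ.cl (max j #P) j hj.1 (le_max_left _ _) S₀ a2 ∅ (by simp) (by simp)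
  refine ⟨S, ((a3 univ rfl).mono inter_subset_left).mono b1, b2.1, fun y hy => b2.2.2.2 y hy ?_⟩
  by_contra hn
  obtain ⟨l, l1, -, l3⟩ := Γ.k2 y _ hn
  exact absurd ((l1.trans l3).trans ((mk_set_le _).trans (le_max_right j _)))
    (not_le.2 (lt_succ _))

end Pool.Agent.Lib.helper22.Riv
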