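import Mathlib

set_option autoImplicit false

namespace H22S

open Set Filter Topology

universe u

/-- selectively highly divergent -/
def SHD (X : Type u) [TopologicalSpace X] : Prop :=
  ∀ U : ℕ → Set X, (∀ n, IsOpen (U n) ∧ (U n).Nonempty) →
    ∃ x : ℕ → X, (∀ n, x n ∈ U n) ∧
      ∀ φ : ℕ → ℕ, StrictMono φ → ∀ p : X, ¬ Tendsto (x ∘ φ) atTop (𝓝 p)

/-- the nonempty finite subsets of `X` -/
def PR (X : Type u) : Type u := {A : Set X // A.Finite ∧ A.Nonempty}

/-- the Pixley-Roy topology: the sets `[F,V]` form a local base at `F` -/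
instance (X : Type u) [TopologicalSpace X] : TopologicalSpace (PR X) where
  IsOpen W := ∀ F ∈ W, ∃ V : Set X, IsOpen V ∧ F.1 ⊆ V ∧
    {H : PR X | F.1 ⊆ H.1 ∧ H.1 ⊆ V} ⊆ W
  isOpen_univ := fun _ _ => ⟨univ, isOpen_univ, subset_univ _, subset_univ _⟩
  isOpen_inter := by
    intro W W' h h' F hF
    obtain ⟨V, h1, h2, h3⟩ := h F hF.1
    obtain ⟨V', k1, k2, k3⟩ := h' F hF.2
    exact ⟨V ∩ V', h1.inter k1, subset_inter h2 k2, fun H hH =>
      ⟨h3 ⟨hH.1, hH.2.trans inter_subset_left⟩, k3 ⟨hH.1, hH.2.trans inter_subset_right⟩⟩⟩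
  isOpen_sUnion := by
    rintro S hS F ⟨W, hW, hF⟩
    obtain ⟨V, h1, h2, h3⟩ := hS W hW F hF
    exact ⟨V, h1, h2, h3.trans (subset_sUnion_of_mem hW)⟩

theorem PR_open {X : Type u} [TopologicalSpace X] (F : PR X) {V : Set X} (hV : IsOpen V) :
    IsOpen {H : PR X | F.1 ⊆ H.1 ∧ H.1 ⊆ V} :=
  fun _ hH => ⟨V, hV, hH.2, fun _ hG => ⟨hH.1.trans hG.1, hG.2⟩⟩

theorem PR_tend {X : Type u} [TopologicalSpace X] {H : ℕ → PR X} {F : PR X}
    (h : Tendsto H atTop (𝓝 F)) {V : Set X} (hV : IsOpen V) (hF : F.1 ⊆ V) :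
    ∀ᶠ n in atTop, F.1 ⊆ (H n).1 ∧ (H n).1 ⊆ V :=
  h.eventually ((PR_open F hV).mem_nhds ⟨Subset.rfl, hF⟩)

abbrev I : Type := Set ℕ × ℝ
/-- the Cantor cube of weight continuum -/
abbrev K : Type := I → Bool
/-- the Sigma-product -/
def D : Set K := {x | {i | x i = true}.Countable}

theorem cyl {U : Set K} (hU : IsOpen U) {y : K} (hy : y ∈ U) :
    ∃ T : Finset I, ∀ z : K, (∀ i ∈ T, z i = y i) → z ∈ U := by
  obtain ⟨T, u, h1, h2⟩ := isOpen_pi_iff.1 hU y hy
  exact ⟨T, fun z hz => h2 fun i hi => by rw [hz i hi]; exact (h1 i hi).2⟩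

theorem avoid {C : Set I} (hC : C.Countable) (A : Set ℕ) : ∃ t : ℝ, (A, t) ∉ C := by
  by_contra h
  push Not at h
  exact Cardinal.not_countable_real ((hC.image Prod.snd).mono fun t _ =>
    (mem_image _ _ _).2 ⟨(A, t), h t, rfl⟩)

theorem shd_K : SHD K := by
  classical
  intro U hU
  choose y hy using fun n => (hU n).2
  choose T hT using fun n => cyl (hU n).1 (hy n)
  refine ⟨fun n i => if i ∈ T n then y n i else decide (n ∈ i.1),
    fun n => hT n _ fun i hi => if_pos hi, fun φ hφ p hp => ?_⟩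
  obtain ⟨t, ht⟩ := avoid (countable_iUnion fun n => (T n).countable_toSet)
    (range fun k => φ (2 * k))
  have h1 := tendsto_pi_nhds.1 hp (range fun k => φ (2 * k), t)
  rw [nhds_discrete, tendsto_pure, eventually_atTop] at h1
  obtain ⟨N, hN⟩ := h1
  have hn : ∀ n, (range fun k => φ (2 * k), t) ∉ T n := fun n h => ht (mem_iUnion.2 ⟨n, h⟩)
  have h2 := (hN (2 * N) (by omega)).trans (hN (2 * N + 1) (by omega)).symm
  simp only [Function.comp, if_neg (hn _), decide_eq_decide] at h2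
  obtain ⟨k, hk⟩ := h2.1 ⟨N, rfl⟩
  have := hφ.injective hk
  omega

theorem dense_D : Dense D := by
  classical
  rw [dense_iff_inter_open]
  rintro U hU ⟨y, hy⟩
  obtain ⟨T, hT⟩ := cyl hU hy
  refine ⟨fun i => if i ∈ T then y i else false, hT _ fun i hi => if_pos hi,
    T.countable_toSet.mono fun i hi => ?_⟩
  by_contra h
  have h' : i ∉ T := h
  simp [h'] at hi

theorem not_shd_D : ¬ SHD D := by
  classical
  intro h
  obtain ⟨x, -, hx⟩ := h (fun _ => univ) fun _ =>
    ⟨isOpen_univ, ⟨⟨fun _ => false, by simp [D]⟩, mem_univ _⟩⟩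
  let S : Set I := ⋃ n, {i | (x n).1 i = true}
  have hS : S.Countable := countable_iUnion fun n => (x n).2
  have := hS.to_subtype
  obtain ⟨a, -, φ, hφ, ha⟩ := (isCompact_univ (X := S → Bool)).tendsto_subseq
    (x := fun n (i : S) => (x n).1 i) fun _ => mem_univ _
  refine hx φ hφ ⟨fun i => if h : i ∈ S then a ⟨i, h⟩ else false, hS.mono fun i hi => ?_⟩ ?_
  · by_contra h
    simp [h] at hi
  · rw [tendsto_subtype_rng, tendsto_pi_nhds]
    intro i
    by_cases hi : i ∈ S
    · simp only [dif_pos hi]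
      exact tendsto_pi_nhds.1 ha ⟨i, hi⟩
    · simp only [dif_neg hi]
      refine tendsto_const_nhds.congr fun n => ?_
      by_contra h
      exact hi (mem_iUnion.2 ⟨φ n, by simpa using h⟩)

theorem not_compact_D : ¬ CompactSpace D := by
  intro h
  have h1 : IsClosed D := (isCompact_iff_compactSpace.2 h).isClosed
  have h2 : (fun _ => true) ∈ D := h1.closure_eq ▸ dense_D _
  obtain ⟨t, ht⟩ := avoid h2 ∅
  exact ht rfl

theorem shd_beta : SHD (StoneCech D) := by
  intro U hU
  let π : StoneCech D → K := stoneCechExtend (continuous_subtype_val (p := (· ∈ D)))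
  have hπ : Continuous π := continuous_stoneCechExtend _
  have hπ' : ∀ d : D, π (stoneCechUnit d) = d := fun d =>
    congrFun (stoneCechExtend_extends (continuous_subtype_val (p := (· ∈ D)))) d
  have : ∀ n, ∃ C : Set K, (IsOpen C ∧ C.Nonempty) ∧ C ⊆ π '' U n := by
    intro n
    obtain ⟨q, hq⟩ := (hU n).2
    obtain ⟨N, h1, h2, h3⟩ := exists_mem_nhds_isClosed_subset ((hU n).1.mem_nhds hq)
    obtain ⟨C, hC, hC'⟩ := isOpen_induced_iff.1
      (isOpen_interior.preimage (continuous_stoneCechUnit (α := D)) (t := interior N))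
    obtain ⟨d, hd⟩ := denseRange_stoneCechUnit.exists_mem_open isOpen_interior
      ⟨q, mem_interior_iff_mem_nhds.2 h1⟩
    refine ⟨C, ⟨hC, d.1, (hC'.symm ▸ hd : d ∈ Subtype.val ⁻¹' C)⟩, ?_⟩
    refine (dense_D.open_subset_closure_inter hC).trans ((closure_minimal ?_
      (h2.isCompact.image hπ).isClosed).trans (image_mono h3))
    rintro z ⟨hz, hzD⟩
    have : (⟨z, hzD⟩ : D) ∈ stoneCechUnit ⁻¹' interior N := hC' ▸ hz
    exact ⟨_, interior_subset this, hπ' _⟩
  choose C hC hC' using this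
  obtain ⟨z, hz, hz'⟩ := shd_K C hC
  choose x hx hx' using fun n => hC' n (hz n)
  refine ⟨x, hx, fun φ hφ p hp => hz' φ hφ (π p) ?_⟩
  refine ((hπ.tendsto p).comp hp).congr fun n => hx' _

theorem shd_PR : SHD (PR D) := by
  classical
  intro U hU
  choose F hF using fun n => (hU n).2
  choose V hV hFV hVU using fun n => (hU n).1 _ (hF n)
  choose y hy using fun n => (F n).2.2
  choose W hW hW' using fun n => isOpen_induced_iff.1 (hV n)
  choose T hT using fun n => cyl (hW n) (show y n ∈ Subtype.val ⁻¹' W n by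
    rw [hW' n]; exact hFV n (hy n))
  let C : Set I := (⋃ n, (T n : Set I)) ∪ ⋃ n, ⋃ z ∈ (F n).1, {i | z.1 i = true}
  have hC : C.Countable := (countable_iUnion fun n => (T n).countable_toSet).union
    (countable_iUnion fun n => (F n).2.1.countable.biUnion fun z _ => z.2)
  choose t ht using avoid hC
  let x : ℕ → D := fun n => ⟨fun i => if i ∈ T n then (y n).1 i else
      decide (i = (∅, t ∅) ∨ i = ({n}, t {n})), by
    refine (((T n).countable_toSet.insert (∅, t ∅)).insert ({n}, t {n})).mono fun i hi => ?_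
    by_cases h : i ∈ T n
    · exact Or.inr (Or.inr h)
    · simp only [mem_ofPred_eq, if_neg h, decide_eq_true_eq] at hi
      exact hi.elim (fun h => Or.inr (Or.inl h)) Or.inl⟩
  have hnT : ∀ A n, (A, t A) ∉ T n := fun A n h => ht A (Or.inl (mem_iUnion.2 ⟨n, h⟩))
  have hxV : ∀ n, x n ∈ V n := fun n => by
    rw [← hW' n]
    exact hT n _ fun i hi => if_pos hi
  have hx0 : ∀ n, (x n).1 (∅, t ∅) = true := fun n => by simp [x, hnT]
  have hxi : ∀ m n, x m = x n → m = n := by
    intro m n h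
    have h1 : (x m).1 ({m}, t {m}) = true := by simp [x, hnT]
    rw [h] at h1
    simp only [x, if_neg (hnT _ _), decide_eq_true_eq, Prod.mk.injEq] at h1
    rcases h1 with h1 | h1
    · exact absurd h1.1 (singleton_ne_empty m)
    · exact singleton_injective h1.1
  refine ⟨fun n => ⟨insert (x n) (F n).1, (F n).2.1.insert _, insert_nonempty _ _⟩,
    fun n => hVU n ⟨subset_insert _ _, insert_subset (hxV n) (hFV n)⟩, fun φ hφ G hG => ?_⟩
  have hO : IsOpen {z : D | z.1 (∅, t ∅) = false} :=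
    (isOpen_discrete {false}).preimage (f := fun z : D => z.1 (∅, t ∅))
      ((continuous_apply (∅, t ∅)).comp continuous_subtype_val)
  have hGO : G.1 ⊆ {z : D | z.1 (∅, t ∅) = false} := by
    intro z hz
    obtain ⟨N, hN⟩ := eventually_atTop.1 (PR_tend hG isOpen_univ (subset_univ _))
    have key : ∀ n, z ∈ (F n).1 → z.1 (∅, t ∅) = false := by
      intro n hn
      by_contra h
      exact ht ∅ (Or.inr (mem_iUnion.2 ⟨n, mem_biUnion hn (by simpa using h)⟩))
    rcases (hN N le_rfl).1 hz with h1 | h1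
    · rcases (hN (N + 1) (Nat.le_succ N)).1 hz with h2 | h2
      · have := hφ.injective (hxi _ _ (h1.symm.trans h2))
        omega
      · exact key _ h2
    · exact key _ h1
  obtain ⟨n, hn⟩ := (PR_tend hG hO hGO).exists
  have : (x (φ n)).1 (∅, t ∅) = false := hn.2 (mem_insert _ _)
  rw [hx0] at this
  exact Bool.noConfusion this

end H22S
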