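import Mathlib

set_option autoImplicit false

namespace Pool.Agent.Lib.helper22.Selector

open Set Cardinal

universe u

variable {L : Type u} [LinearOrder L]

/-- stationary sets, in terms of closure points -/
def Stat (T : Set L) : Prop := ∀ g : L → L, ∃ δ ∈ T, (∃ y, y < δ) ∧ ∀ x < δ, g x < δ

theorem Stat.mono {S T : Set L} (h : Stat S) (hST : S ⊆ T) : Stat T := fun g =>
  let ⟨δ, h1, h2⟩ := h g
  ⟨δ, hST h1, h2⟩

theorem not_stat_iUnion {κ : Cardinal.{u}} (hκ : ℵ₀ < κ)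
    (hb : ∀ ι : Type u, #ι < κ → ∀ f : ι → L, ∃ b, ∀ i, f i < b) {T : ℕ → Set L}
    (h : ∀ n, ¬ Stat (T n)) : ¬ Stat (⋃ n, T n) := by
  intro hs
  simp only [Stat] at h
  push Not at h
  choose g hg using h
  choose G hG using fun x => hb (ULift.{u} ℕ) (by simpa using hκ) fun n => g n.down x
  obtain ⟨δ, h1, h2, h3⟩ := hs G
  obtain ⟨n, hn⟩ := mem_iUnion.1 h1
  obtain ⟨x, h4, h5⟩ := hg n δ hn h2
  exact absurd ((hG x ⟨n⟩).trans (h3 x h4)) (not_lt.2 h5)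

theorem split [WellFoundedLT L] [Nonempty L] {κ : Cardinal.{u}} (hκ : ℵ₀ < κ)
    (hb : ∀ ι : Type u, #ι < κ → ∀ f : ι → L, ∃ b, ∀ i, f i < b) (hs : ∀ b : L, #(Iic b) < κ) :
    ∃ (S : Set L) (T : L → Set L), κ ≤ #S ∧ (∀ η ∈ S, Stat (T η)) ∧
      ∀ η η' δ, δ ∈ T η → δ ∈ T η' → η = η' := by
  have hc : ∀ δ : L, ∃ c : ℕ → L, (∃ β : ℕ → L, (∀ k, β k < δ) ∧ IsLUB (range β) δ) →
      (∀ k, c k < δ) ∧ IsLUB (range c) δ := by
    intro δ
    by_cases h : ∃ β : ℕ → L, (∀ k, β k < δ) ∧ IsLUB (range β) δ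
    · exact ⟨h.choose, fun _ => h.choose_spec⟩
    · exact ⟨fun _ => δ, fun h' => absurd h' h⟩
  choose c hc using hc
  let T : ℕ → L → Set L := fun n η => {δ | c δ n = η}
  suffices h : ∃ n, κ ≤ #{η | Stat (T n η)} by
    obtain ⟨n, h⟩ := h
    exact ⟨_, T n, h, fun _ h => h, fun η η' δ h h' => Eq.trans (Eq.symm h) h'⟩
  by_contra hn
  push Not at hn
  choose ξ hξ using fun n => hb _ (hn n) Subtype.val
  have hN : #(ULift.{u} ℕ) < κ := by simpa using hκ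
  obtain ⟨x, hx⟩ := hb _ hN fun n => ξ n.down
  have hg : ∀ n η, ∃ g : L → L, x < η → ∀ δ ∈ T n η, (∃ y, y < δ) → ∃ y < δ, δ ≤ g y := by
    intro n η
    by_cases h : Stat (T n η)
    · exact ⟨id, fun h' => absurd ((hξ n ⟨η, h⟩).trans (hx ⟨n⟩)) h'.le.not_gt⟩
    · simp only [Stat] at h
      push Not at h
      obtain ⟨g, h⟩ := h
      exact ⟨g, fun _ => h⟩
  choose g hg using hg
  have hG : ∀ b : L, ∃ G, b < G ∧ ∀ n η, η ≤ b → ∀ y ≤ b, g n η y < G := by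
    intro b
    obtain ⟨G, hG⟩ := hb (Option (ULift.{u} ℕ × Iic b × Iic b)) (by
        rw [mk_option, mk_prod, mk_prod, lift_id, lift_id, lift_id]
        exact add_lt_of_lt hκ.le (mul_lt_of_lt hκ.le hN (mul_lt_of_lt hκ.le (hs b) (hs b)))
          (one_lt_aleph0.trans hκ))
      fun o => o.elim b fun t => g t.1.down t.2.1.1 t.2.2.1
    exact ⟨G, hG none, fun n η hη y hy => hG (some (⟨n⟩, ⟨η, hη⟩, ⟨y, hy⟩))⟩
  choose G hG1 hG2 using hG
  let β : ℕ → L := fun k => G^[k] x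
  have hβ : ∀ k, β (k + 1) = G (β k) := fun k => Function.iterate_succ_apply' G k x
  have hm : StrictMono β := strictMono_nat_of_lt_succ fun k => hβ k ▸ hG1 _
  obtain ⟨b, hb'⟩ := hb _ hN fun n => β n.down
  obtain ⟨δ, d1, d2⟩ := wellFounded_lt.has_min (upperBounds (range β)) ⟨b, by
    rintro _ ⟨k, rfl⟩
    exact (hb' ⟨k⟩).le⟩
  have hδ : IsLUB (range β) δ := ⟨d1, fun y hy => not_lt.1 (d2 y hy)⟩
  have hlt : ∀ k, β k < δ := fun k => (hm k.lt_succ_self).trans_le (hδ.1 ⟨_, rfl⟩)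
  obtain ⟨c1, c2⟩ := hc δ ⟨β, hlt, hδ⟩
  obtain ⟨_, ⟨n, rfl⟩, hn', -⟩ := c2.exists_between (hlt 0)
  obtain ⟨y, h1, h2⟩ := hg n _ hn' δ rfl ⟨_, hlt 0⟩
  obtain ⟨_, ⟨m, rfl⟩, hm', -⟩ := hδ.exists_between (max_lt (c1 n) h1)
  exact absurd ((hG2 _ n _ (max_lt_iff.1 hm').1.le y (max_lt_iff.1 hm').2.le).trans
    (hβ m ▸ hlt (m + 1))) (not_lt.2 h2)

theorem main : ∃ N : Set (Set ℝ),
      (∀ A ∈ N, A ⊆ Icc (0:ℝ) 1) ∧
      (∀ J : Set ℝ, J.OrdConnected → J ⊆ Icc (0:ℝ) 1 → J ∈ N) ∧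
      (∀ A ∈ N, Icc (0:ℝ) 1 \ A ∈ N) ∧
      (∀ f : ℕ → Set ℝ, (∀ n, f n ∈ N) → (⋃ n, f n) ∈ N) ∧
      (∀ P : Set (Set ℝ), (∀ p ∈ P, ∃ x ∈ p, ∃ y ∈ p, x ≠ y) → P.PairwiseDisjoint id →
          ⋃₀ P = Icc (0:ℝ) 1 → ∃ S ∈ N, ∀ p ∈ P, ∃! x, x ∈ S ∧ x ∈ p) ∧
      ∃ A : Set ℝ, A ⊆ Icc (0:ℝ) 1 ∧ A ∉ N := by
  let κ : Cardinal.{0} := (𝔠 : Cardinal.{0}).ord.cof
  have hr : κ.IsRegular := isRegular_cof (isSuccLimit_ord aleph0_le_continuum)
  have hκ : ℵ₀ < κ := lt_cof_ord_power (a := ℵ₀) (b := 2) le_rfl one_lt_two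
  have hκc : κ ≤ 𝔠 := Ordinal.cof_ord_le _
  have h2 : 𝔠 < 2 ^ κ := by
    have := lt_power_cof_ord (c := 𝔠) aleph0_le_continuum
    rwa [← two_power_aleph0, ← power_mul, two_power_aleph0, mul_eq_right hκ.le hκ.le aleph0_ne_zero]
      at this
  let L := κ.ord.ToType
  have hL : #L = κ := mk_ord_toType _
  have : Nonempty L := mk_ne_zero_iff.1 (hL ▸ hr.pos.ne')
  have hs : ∀ b : L, #(Iic b) < κ := fun b => by
    rw [← Iio_insert]
    exact (mk_insert_le).trans_lt (add_lt_of_lt hκ.le (mk_Iio_ord_toType b)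
      (one_lt_aleph0.trans hκ))
  have hb : ∀ ι : Type, #ι < κ → ∀ f : ι → L, ∃ b, ∀ i, f i < b := by
    intro ι hι f
    by_contra h
    push Not at h
    have h1 : #L ≤ #(Σ i : ι, Iic (f i)) := by
      choose g hg using h
      exact mk_le_of_injective (f := fun b => ⟨g b, b, hg b⟩) fun a b h =>
        congrArg (fun t : Σ i : ι, Iic (f i) => t.2.1) h
    rw [hL, mk_sigma] at h1
    exact absurd h1 (not_le.2 (sum_lt_of_isRegular hr hι fun i => hs _))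
  obtain ⟨e'⟩ : Nonempty (L ↪ Icc (0:ℝ) 1) := by
    rw [← Cardinal.le_def, hL, mk_Icc_real zero_lt_one]
    exact hκc
  let e : L → ℝ := fun x => (e' x).1
  have he : Function.Injective e := Subtype.val_injective.comp e'.injective
  have h0 : ¬ Stat (∅ : Set L) := fun h => (h id).choose_spec.1
  refine ⟨{A | A ⊆ Icc 0 1 ∧ ∃ B, MeasurableSet B ∧ ¬ Stat {x | ¬ (e x ∈ A ↔ e x ∈ B)}},
    fun A hA => hA.1, fun J h1 h2 => ⟨h2, J, h1.measurableSet, by simpa using h0⟩, ?_, ?_, ?_, ?_⟩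
  · rintro A ⟨-, B, h1, h3⟩
    refine ⟨diff_subset, Bᶜ, h1.compl, fun h => h3 (h.mono fun x hx h4 => hx ?_)⟩
    rw [mem_diff, mem_compl_iff, h4]
    exact and_iff_right (e' x).2
  · intro f hf
    choose h1 B h3 h4 using hf
    refine ⟨iUnion_subset h1, ⋃ n, B n, MeasurableSet.iUnion h3, fun h =>
      not_stat_iUnion hκ hb h4 (h.mono fun x hx => ?_)⟩
    by_contra h5
    simp only [mem_iUnion, mem_ofPred_eq, not_exists, not_not] at h5
    exact hx (by simp only [mem_iUnion, h5])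
  · intro P h1 h3 h4
    have : ∀ p : P, ∃ s ∈ p.1, ∀ b, e b = s → ∃ a < b, e a ∈ p.1 := by
      intro p
      by_cases h : ∃ x ∈ p.1, x ∉ range e
      · obtain ⟨x, h5, h6⟩ := h
        exact ⟨x, h5, fun b hb => absurd ⟨b, hb⟩ h6⟩
      · push Not at h
        obtain ⟨x, hx, y, hy, hne⟩ := h1 p.1 p.2
        obtain ⟨a, rfl⟩ := h x hx
        obtain ⟨b, rfl⟩ := h y hy
        rcases lt_trichotomy a b with h5 | h5 | h5
        · exact ⟨_, hy, fun c hc => ⟨a, he hc ▸ h5, hx⟩⟩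
        · exact absurd (congrArg e h5) hne
        · exact ⟨_, hx, fun c hc => ⟨b, he hc ▸ h5, hy⟩⟩
    choose s s1 s2 using this
    have uq : ∀ (p q : P) x, x ∈ p.1 → x ∈ q.1 → p = q := fun p q x hp hq =>
      Subtype.ext (h3.elim_set p.2 q.2 x hp hq)
    refine ⟨range s, ⟨?_, ∅, MeasurableSet.empty, fun h => ?_⟩, fun p hp =>
      ⟨s ⟨p, hp⟩, ⟨⟨_, rfl⟩, s1 ⟨p, hp⟩⟩, ?_⟩⟩
    · rintro _ ⟨p, rfl⟩
      exact h4.subset ⟨p.1, p.2, s1 p⟩
    · have : ∀ a : L, ∃ b, ∀ (p : P) c, e a ∈ p.1 → s p = e c → b = c := by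
        intro a
        by_cases h : ∃ (p : P) (c : L), e a ∈ p.1 ∧ s p = e c
        · obtain ⟨p, c, h5, h6⟩ := h
          exact ⟨c, fun q d h7 h8 => he (h6.symm.trans (uq p q _ h5 h7 ▸ h8))⟩
        · exact ⟨a, fun p c h5 h6 => absurd ⟨p, c, h5, h6⟩ h⟩
      choose g hg using this
      obtain ⟨δ, h5, -, h6⟩ := h g
      obtain ⟨p, hp⟩ : e δ ∈ range s := by simpa using h5
      obtain ⟨a, h7, h8⟩ := s2 p δ hp.symm
      exact (h6 a h7).ne (hg a p δ h8 hp)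
    · rintro _ ⟨⟨q, rfl⟩, hq⟩
      rw [uq q ⟨p, hp⟩ _ (s1 q) hq]
  · by_contra hn
    simp only [not_exists, not_and, not_not] at hn
    obtain ⟨S, T, k1, k2, k3⟩ := split hκ hb hs
    have : ∀ W : Set S, ∃ B : {B : Set ℝ | MeasurableSet B},
        ¬ Stat {x | ¬ ((∃ η ∈ W, x ∈ T η.1) ↔ e x ∈ B.1)} := by
      intro W
      obtain ⟨-, B, h1, h3⟩ := hn (e '' {x | ∃ η ∈ W, x ∈ T η.1}) (by
        rintro _ ⟨x, -, rfl⟩
        exact (e' x).2)
      exact ⟨⟨B, h1⟩, by simpa only [he.mem_set_image, mem_ofPred_eq] using h3⟩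
    choose B hB using this
    have key : ∀ V W, B V = B W → V ⊆ W := by
      intro V W h η hη
      by_contra h1
      refine not_stat_iUnion hκ hb (T := fun n => {x | ¬ ((∃ η ∈ (if n = 0 then V else W),
        x ∈ T η.1) ↔ e x ∈ (B (if n = 0 then V else W)).1)}) (fun n => hB _)
        ((k2 η.1 η.2).mono fun x hx => ?_)
      by_cases h3 : e x ∈ (B V).1
      · refine mem_iUnion.2 ⟨1, fun h4 => ?_⟩
        obtain ⟨ζ, h5, h6⟩ := h4.2 (h ▸ h3)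
        exact h1 (Subtype.ext (k3 _ _ x h6 hx) ▸ h5)
      · exact mem_iUnion.2 ⟨0, fun h4 => h3 (h4.1 ⟨η, hη, hx⟩)⟩
    have h1 := mk_le_of_injective (f := B) fun V W h => (key V W h).antisymm (key W V h.symm)
    have h3 : #{B : Set ℝ | MeasurableSet B} ≤ 𝔠 := by
      have := MeasurableSpace.cardinal_measurableSet_le_continuum (s := range (Iio : ℝ → Set ℝ))
        (mk_range_le.trans mk_real.le)
      rwa [← borel_eq_generateFrom_Iio, ← BorelSpace.measurable_eq] at this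
    rw [mk_set] at h1
    exact absurd ((power_le_power_left two_ne_zero k1).trans (h1.trans h3)) (not_le.2 h2)

end Pool.Agent.Lib.helper22.Selector
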