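import Mathlib

set_option autoImplicit false

namespace Pool.Agent.Lib.H22Star

open Finset Classical

/-- The disjoint union of stars `K_{1, m i}`: `⟨i, none⟩` is the centre of the `i`-th star. -/
def stars {n : ℕ} (m : Fin n → ℕ) : SimpleGraph (Σ i : Fin n, Option (Fin (m i))) :=
  SimpleGraph.fromRel fun u v => u.1 = v.1 ∧ u.2 = none ∧ v.2 ≠ none

/-- Equitable `k`-choosability. -/
def EqChoosable {V : Type} (k : ℕ) (G : SimpleGraph V) : Prop :=
  ∀ L : V → Finset ℕ, (∀ v, (L v).card = k) → ∃ c : V → ℕ, (∀ v, c v ∈ L v) ∧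
    (∀ u v, G.Adj u v → c u ≠ c v) ∧ ∀ x, {v | c v = x}.ncard ≤ (Nat.card V + k - 1) / k

lemma greedy {V : Type} [Fintype V] (W : V → Finset ℕ) (cap : ℕ) (hV : Fintype.card V ≤ 2 * cap)
    (hW : ∀ v, (W v).Nonempty) (hF : ∀ x, (univ.filter (fun v => W v = {x})).card ≤ cap) :
    ∃ c : V → ℕ, (∀ v, c v ∈ W v) ∧ ∀ x, (univ.filter (fun v => c v = x)).card ≤ cap := by
  have key : ∀ U : Finset V, ∃ c : V → ℕ, (∀ v, c v ∈ W v) ∧
      ∀ x, (univ.filter (fun v => (v ∈ U ∨ (W v).card = 1) ∧ c v = x)).card ≤ cap := by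
    intro U
    induction U using Finset.induction_on with
    | empty =>
      choose c hc using hW
      refine ⟨c, hc, fun x => le_trans (card_le_card fun v hv => ?_) (hF x)⟩
      obtain ⟨h1, h2⟩ := (mem_filter.1 hv).2
      obtain ⟨a, ha⟩ := card_eq_one.1 (h1.resolve_left (notMem_empty _))
      have := hc v
      rw [ha, mem_singleton] at this
      exact mem_filter.2 ⟨mem_univ _, by rw [ha, ← this, h2]⟩
    | insert v0 U hv0 ih =>
      obtain ⟨c, hc, h⟩ := ih
      by_cases h1 : (W v0).card = 1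
      · refine ⟨c, hc, fun x => le_trans (card_le_card fun v hv => ?_) (h x)⟩
        obtain ⟨h2, h3⟩ := (mem_filter.1 hv).2
        refine mem_filter.2 ⟨mem_univ _, ?_, h3⟩
        rcases h2 with h2 | h2
        · rcases mem_insert.1 h2 with rfl | h2
          · exact Or.inr h1
          · exact Or.inl h2
        · exact Or.inr h2
      · obtain ⟨p, hp, q, hq, hpq⟩ := one_lt_card.1 (by have := (hW v0).card_pos; omega : 1 < (W v0).card)
        have hs : (univ.filter (fun v => (v ∈ U ∨ (W v).card = 1) ∧ c v = p)).card +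
            (univ.filter (fun v => (v ∈ U ∨ (W v).card = 1) ∧ c v = q)).card < 2 * cap := by
          rw [← card_union_of_disjoint (disjoint_filter.2 fun v _ a b => hpq (a.2.symm.trans b.2))]
          refine lt_of_lt_of_le (card_lt_card (ssubset_univ_iff.2 fun e => ?_)) hV
          have : v0 ∈ (univ : Finset V) := mem_univ _
          rw [← e] at this
          simp [hv0, h1] at this
        obtain ⟨r, hr, hr'⟩ : ∃ r ∈ W v0,
            (univ.filter (fun v => (v ∈ U ∨ (W v).card = 1) ∧ c v = r)).card < cap := by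
          by_contra hh
          push Not at hh
          have := hh p hp
          have := hh q hq
          omega
        refine ⟨Function.update c v0 r, fun v => ?_, fun x => ?_⟩
        · by_cases e : v = v0
          · subst e; simpa using hr
          · rw [Function.update_of_ne e]; exact hc v
        · by_cases e : x = r
          · subst e
            refine le_trans (card_le_card (t := insert v0 (univ.filter
              (fun v => (v ∈ U ∨ (W v).card = 1) ∧ c v = x))) fun v hv => ?_)
              ((card_insert_le _ _).trans hr')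
            by_cases e : v = v0
            · simp [e]
            · simpa [e] using hv
          · refine le_trans (card_le_card fun v hv => ?_) (h x)
            by_cases e' : v = v0
            · subst e'
              simp [Ne.symm e] at hv
            · simpa [e'] using hv
  obtain ⟨c, h1, h2⟩ := key univ
  exact ⟨c, h1, fun x => by simpa using h2 x⟩

lemma pe {a b c d : ℕ} (h : ({a, b} : Finset ℕ) = {c, d}) : (a = c ∧ b = d) ∨ (a = d ∧ b = c) := by
  have : ({a, b} : Set ℕ) = {c, d} := by simpa using congrArg (fun s : Finset ℕ => (s : Set ℕ)) h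
  exact Set.pair_eq_pair_iff.1 this

def Gi (T : Finset ℕ) (c x : ℕ) : ℕ := if c ≠ x ∧ T = {c, x} then 1 else 0

def Fo {m : ℕ} (T : Fin m → Finset ℕ) (c x : ℕ) : ℕ :=
  (if c = x then 1 else 0) + ∑ j, Gi (T j) c x

lemma gi_cases (T : Finset ℕ) (c x : ℕ) : Gi T c x = 0 ∨ (Gi T c x = 1 ∧ c ≠ x ∧ T = {c, x}) := by
  unfold Gi; split_ifs with h
  · exact Or.inr ⟨rfl, h⟩
  · exact Or.inl rfl

lemma sum_le {m : ℕ} (f : Fin m → ℕ) (h : ∀ j, f j ≤ 1) : ∑ j, f j ≤ m := by
  simpa using Finset.sum_le_card_nsmul univ f 1 fun j _ => h j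

lemma fo_self {m : ℕ} (T : Fin m → Finset ℕ) (c : ℕ) : Fo T c c = 1 := by simp [Fo, Gi]

lemma fo_le {m : ℕ} (hm : 1 ≤ m) (T : Fin m → Finset ℕ) (c x : ℕ) : Fo T c x ≤ m := by
  by_cases h : c = x
  · rw [h, fo_self]; exact hm
  · rw [Fo, if_neg h, zero_add]
    exact sum_le _ fun j => by rcases gi_cases (T j) c x with h | h <;> omega

lemma pairB {m : ℕ} (hm : 1 ≤ m) (T : Fin m → Finset ℕ) (c x d y : ℕ)
    (h1 : ¬ (c = d ∧ x = y)) (h2 : ¬ (c ≠ d ∧ x = d ∧ y = c)) : Fo T c x + Fo T d y ≤ m + 1 := by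
  by_cases a : c = x
  · have := fo_le hm T d y
    rw [a, fo_self]; omega
  by_cases b : d = y
  · have := fo_le hm T c x
    rw [b, fo_self]; omega
  rw [Fo, Fo, if_neg a, if_neg b, zero_add, zero_add, ← Finset.sum_add_distrib]
  refine (sum_le _ fun j => ?_).trans (Nat.le_succ _)
  rcases gi_cases (T j) c x with e | ⟨e, -, e'⟩ <;> rcases gi_cases (T j) d y with f | ⟨f, -, f'⟩ <;>
    try omega
  have := pe (e'.symm.trans f')
  omega

lemma quadB {m : ℕ} (T : Fin m → Finset ℕ) (p q x y : ℕ) (hpq : p ≠ q) (hxy : x ≠ y)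
    (h1 : ¬ (p = x ∧ q = y)) (h2 : ¬ (p = y ∧ q = x)) :
    Fo T p x + Fo T q x + Fo T p y + Fo T q y ≤ m + 1 := by
  have : ∑ j, (Gi (T j) p x + Gi (T j) q x + Gi (T j) p y + Gi (T j) q y) ≤ m := by
    refine sum_le _ fun j => ?_
    have k : ∀ a b c d, T j = {a, b} → T j = {c, d} → (a = c ∧ b = d) ∨ (a = d ∧ b = c) :=
      fun a b c d e f => pe (e.symm.trans f)
    rcases gi_cases (T j) p x with e1 | ⟨e1, n1, f1⟩ <;>
    rcases gi_cases (T j) q x with e2 | ⟨e2, n2, f2⟩ <;>
    rcases gi_cases (T j) p y with e3 | ⟨e3, n3, f3⟩ <;>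
    rcases gi_cases (T j) q y with e4 | ⟨e4, n4, f4⟩ <;>
    first
      | omega
      | (have := k _ _ _ _ f1 f2; omega)
      | (have := k _ _ _ _ f1 f3; omega)
      | (have := k _ _ _ _ f1 f4; omega)
      | (have := k _ _ _ _ f2 f3; omega)
      | (have := k _ _ _ _ f2 f4; omega)
      | (have := k _ _ _ _ f3 f4; omega)
  simp only [Finset.sum_add_distrib] at this
  unfold Fo
  split_ifs <;> omega

lemma card_stars {n : ℕ} (m : Fin n → ℕ) :
    Nat.card (Σ i : Fin n, Option (Fin (m i))) = ∑ i, (m i + 1) := by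
  simp

/-- Reduction to a choice of centre colours. -/
lemma reduce {n : ℕ} (m : Fin n → ℕ)
    (H : ∀ (T : ∀ i, Fin (m i) → Finset ℕ) (P : Fin n → Bool → ℕ), (∀ i, P i false ≠ P i true) →
      ∃ a : Fin n → Bool, ∀ x, ∑ i, Fo (T i) (P i (a i)) x ≤ (∑ i, (m i + 1) + 1) / 2) :
    EqChoosable 2 (stars m) := by
  intro L hL
  have hP : ∀ i, ∃ P : Bool → ℕ, P false ≠ P true ∧ ∀ b, P b ∈ L ⟨i, none⟩ := by
    intro i
    obtain ⟨p, q, hpq, e⟩ := card_eq_two.1 (hL ⟨i, none⟩)
    exact ⟨fun b => if b then q else p, by simpa using hpq, fun b => by cases b <;> simp [e]⟩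
  choose P hP1 hP2 using hP
  obtain ⟨a, ha⟩ := H (fun i j => L ⟨i, some j⟩) P hP1
  let W : (Σ i : Fin n, Option (Fin (m i))) → Finset ℕ := fun v => match v with
    | ⟨i, none⟩ => {P i (a i)}
    | ⟨i, some j⟩ => (L ⟨i, some j⟩).erase (P i (a i))
  obtain ⟨c, hc, hx⟩ := greedy W ((∑ i, (m i + 1) + 1) / 2)
    (by rw [← Nat.card_eq_fintype_card, card_stars]; omega) (by
      rintro ⟨i, _ | j⟩
      · simp [W]
      · rw [← card_pos]
        have := pred_card_le_card_erase (s := L ⟨i, some j⟩) (a := P i (a i))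
        rw [hL] at this
        exact this) (by
      intro x
      refine le_trans ?_ (ha x)
      rw [card_filter, Fintype.sum_sigma]
      refine Finset.sum_le_sum fun i _ => ?_
      rw [Fintype.sum_option, Fo]
      refine add_le_add (by simp [W]) (Finset.sum_le_sum fun j _ => ?_)
      split_ifs with h
      · have h' : (L ⟨i, some j⟩).erase (P i (a i)) = {x} := h
        have hx : x ∈ (L ⟨i, some j⟩).erase (P i (a i)) := by rw [h']; simp
        have hm : P i (a i) ∈ L ⟨i, some j⟩ := by
          by_contra hn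
          rw [erase_eq_of_notMem hn] at h'
          have := hL ⟨i, some j⟩
          rw [h'] at this
          simp at this
        rw [Gi, if_pos ⟨(ne_of_mem_erase hx).symm, by rw [← insert_erase hm, h']⟩]
      · exact Nat.zero_le _)
  refine ⟨c, ?_, ?_, fun x => ?_⟩
  · rintro ⟨i, _ | j⟩
    · have := hc ⟨i, none⟩
      rw [mem_singleton.1 this]; exact hP2 i _
    · exact mem_of_mem_erase (hc ⟨i, some j⟩)
  · have key : ∀ u v : (Σ i : Fin n, Option (Fin (m i))),
        (u.1 = v.1 ∧ u.2 = none ∧ v.2 ≠ none) → c u ≠ c v := by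
      rintro ⟨i, u⟩ ⟨j, v⟩ ⟨h1, h2, h3⟩
      simp only at h1 h2 h3
      subst h1 h2
      cases v with
      | none => exact absurd rfl h3
      | some v =>
        rw [mem_singleton.1 (hc ⟨i, none⟩)]
        exact (ne_of_mem_erase (hc ⟨i, some v⟩)).symm
    intro u v h
    rcases ((SimpleGraph.fromRel_adj _ _ _).1 h).2 with h | h
    · exact key u v h
    · exact (key v u h).symm
  · rw [card_stars]
    have := hx x
    rw [← Set.ncard_coe_finset] at this
    simpa using this

/-- Two colours suffice to describe a bad list assignment. -/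
lemma two_col {n : ℕ} (m : Fin n → ℕ) (hm : ∀ i, 1 ≤ m i) (T : ∀ i, Fin (m i) → Finset ℕ)
    (P : Fin n → Bool → ℕ) (hP : ∀ i, P i false ≠ P i true) (cap : ℕ)
    (hcap : ∑ i, (m i + 1) ≤ 2 * cap + 1)
    (H : ∀ a : Fin n → Bool, ∃ x, cap < ∑ i, Fo (T i) (P i (a i)) x) :
    ∃ (A : Fin n → Bool) (gx gy : Fin n → ℕ),
      (∀ i, A i = false → 2 * (gx i + gy i) ≤ m i + 1) ∧ ∀ S : Fin n → Bool,
      cap < ∑ i, (if A i then (if S i then m i else 1) else gx i) ∨
      cap < ∑ i, (if A i then (if S i then 1 else m i) else gy i) := by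
  choose X hX using H
  have inj : ∀ i b b', P i b = P i b' → b = b' := by
    intro i b b' h
    have := hP i
    cases b <;> cases b' <;> simp_all
  have K : ∀ a b : Fin n → Bool, (∀ i, a i = b i → X a ≠ X b) →
      ∃ i, a i ≠ b i ∧ X a = P i (b i) ∧ X b = P i (a i) := by
    intro a b h
    by_contra hn
    push Not at hn
    have h1 := Finset.sum_le_sum (s := univ) fun i _ => pairB (hm i) (T i) (P i (a i)) (X a)
      (P i (b i)) (X b) (fun h' => h i (inj _ _ _ h'.1) h'.2)
      (fun h' => hn i (fun e => h'.1 (by rw [e])) h'.2.1 h'.2.2)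
    rw [Finset.sum_add_distrib] at h1
    have := hX a
    have := hX b
    omega
  set a0 : Fin n → Bool := fun _ => false
  set a1 : Fin n → Bool := fun _ => true
  set x := X a0 with hx
  set y := X a1 with hy
  have hxy : x ≠ y := by
    obtain ⟨i, -, h1, h2⟩ := K a0 a1 (by simp [a0, a1])
    intro e
    exact hP i (h2.symm.trans (e.symm.trans h1))
  have two : ∀ a, X a = x ∨ X a = y := by
    intro c
    by_contra hz
    rw [not_or] at hz
    let σ : ℕ → ℕ := fun u => if u = x then y else if u = y then X c else x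
    have s1 : ∀ u, σ u ≠ u ∧ σ (σ u) ≠ u ∧ ∃ b, X b = σ u := by
      intro u
      by_cases e1 : u = x
      · subst e1; exact ⟨by simp [σ, hxy.symm], by simp [σ, hxy.symm, hz.1], a1, by simp [σ, hy]⟩
      · by_cases e2 : u = y
        · subst e2
          exact ⟨by simp [σ, e1, hz.2], by simp [σ, e1, hz.1, hz.2, hxy], c, by simp [σ, e1]⟩
        · exact ⟨by simp [σ, e1, e2, Ne.symm e1], by simp [σ, e1, e2, Ne.symm e2], a0,
            by simp only [σ, if_neg e1, if_neg e2]; rfl⟩
    let a : Fin n → Bool := fun i => if h : ∃ s, P i (!s) = σ (P i s) then h.choose else false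
    obtain ⟨t1, t2, b, hb⟩ := s1 (X a)
    obtain ⟨i, h1, h2, h3⟩ := K a b (fun _ _ => by rw [hb]; exact t1.symm)
    have e : a i = !(b i) := by cases ha : a i <;> cases hb : b i <;> simp_all
    have hex : ∃ s, P i (!s) = σ (P i s) := ⟨b i, by rw [← e, ← h3, ← h2, hb]⟩
    have h4 : P i (!(a i)) = σ (P i (a i)) := by
      simp only [a, dif_pos hex]; exact hex.choose_spec
    rw [← h3, hb, e, Bool.not_not, ← h2] at h4
    exact t2 h4.symm
  let A : Fin n → Bool := fun i => decide (∃ s, P i s = x ∧ P i (!s) = y)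
  let mn : Fin n → ℕ → Bool := fun i z => decide (Fo (T i) (P i true) z ≤ Fo (T i) (P i false) z)
  have hmn : ∀ i z, 2 * Fo (T i) (P i (mn i z)) z ≤
      Fo (T i) (P i false) z + Fo (T i) (P i true) z := by
    intro i z
    by_cases h : Fo (T i) (P i true) z ≤ Fo (T i) (P i false) z
    · simp only [mn, h, decide_true]; omega
    · simp only [mn, h, decide_false]; omega
  refine ⟨A, fun i => Fo (T i) (P i (mn i x)) x, fun i => Fo (T i) (P i (mn i y)) y,
    fun i hi => ?_, fun S => ?_⟩
  · have h1 : ¬ ∃ s, P i s = x ∧ P i (!s) = y := by simpa [A] using hi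
    have := quadB (T i) _ _ x y (hP i) hxy (fun h => h1 ⟨false, h⟩) (fun h => h1 ⟨true, h.2, h.1⟩)
    have := hmn i x
    have := hmn i y
    beta_reduce
    omega
  · let ch : ℕ → Fin n → Bool := fun z i =>
      if h : ∃ s, P i s = x ∧ P i (!s) = y then (if S i then !h.choose else h.choose) else mn i z
    have e : X (ch x) = X (ch y) := by
      by_contra hne
      obtain ⟨i, h1, h2, h3⟩ := K (ch x) (ch y) (fun _ _ => hne)
      have e : ch y i = !(ch x i) := by cases ha : ch x i <;> cases hb : ch y i <;> simp_all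
      have hex : ∃ s, P i s = x ∧ P i (!s) = y := by
        rcases two (ch x) with b1 | b1 <;> rcases two (ch y) with b2 | b2
        · exact absurd (b1.trans b2.symm) hne
        · exact ⟨ch y i, h2.symm.trans b1, by rw [e, Bool.not_not]; exact h3.symm.trans b2⟩
        · exact ⟨ch x i, h3.symm.trans b2, by rw [← e]; exact h2.symm.trans b1⟩
        · exact absurd (b1.trans b2.symm) hne
      exact h1 (by simp only [ch, dif_pos hex])
    rcases two (ch x) with b | b
    · left
      have := hX (ch x)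
      rw [b] at this
      refine lt_of_lt_of_le this (Finset.sum_le_sum fun i _ => ?_)
      by_cases hex : ∃ s, P i s = x ∧ P i (!s) = y
      · simp only [ch, A, dif_pos hex, hex, decide_true, if_true]
        split_ifs
        · exact fo_le (hm i) _ _ _
        · rw [hex.choose_spec.1, fo_self]
      · simp only [ch, A, dif_neg hex, hex, decide_false]; simp
    · right
      have := hX (ch y)
      rw [← e, b] at this
      refine lt_of_lt_of_le this (Finset.sum_le_sum fun i _ => ?_)
      by_cases hex : ∃ s, P i s = x ∧ P i (!s) = y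
      · simp only [ch, A, dif_pos hex, hex, decide_true, if_true]
        split_ifs
        · rw [hex.choose_spec.2, fo_self]
        · exact fo_le (hm i) _ _ _
      · simp only [ch, A, dif_neg hex, hex, decide_false]; simp

end Pool.Agent.Lib.H22Star
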