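import Mathlib
import Pool.Agent.Lib.helper22.StarA

set_option autoImplicit false

namespace Pool.Agent.Lib.H22Star

open Finset Classical

lemma quarter (m r : ℕ) (hr : r < 4) (Q : Fin m → Prop) (h : ∀ j : Fin m, j.val % 4 = r → Q j) :
    m / 4 ≤ (univ.filter Q).card := by
  have : (univ : Finset (Fin (m / 4))).card ≤ (univ.filter Q).card := by
    refine card_le_card_of_injOn (fun t => ⟨4 * t.val + r, by have := t.2; omega⟩) ?_ ?_
    · intro t _
      exact mem_coe.2 (mem_filter.2 ⟨mem_univ _, h _ (by simp; omega)⟩)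
    · intro t _ t' _ e
      simp only [Fin.mk.injEq] at e
      exact Fin.ext (by omega)
  simpa using this

lemma nec {n : ℕ} (m : Fin n → ℕ) (h : EqChoosable 2 (stars m)) (J : Fin n → Bool) :
    ∃ S : Fin n → Bool,
      ∑ i, (if J i then m i / 4 else if S i then m i else 1) ≤ (∑ i, (m i + 1) + 1) / 2 ∧
      ∑ i, (if J i then m i / 4 else if S i then 1 else m i) ≤ (∑ i, (m i + 1) + 1) / 2 := by
  obtain ⟨c, h1, h2, h3⟩ := h (fun v => match v with
    | ⟨i, none⟩ => if J i then {3, 4} else {1, 2}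
    | ⟨i, some j⟩ => if J i then {3 + j.val % 4 / 2, 1 + j.val % 2} else {1, 2}) (by
      rintro ⟨i, _ | j⟩
      · simp only; split_ifs <;> rfl
      · simp only; split_ifs
        · exact card_pair (by omega)
        · rfl)
  have hadj : ∀ i j, c ⟨i, none⟩ ≠ c ⟨i, some j⟩ := fun i j =>
    h2 _ _ ((SimpleGraph.fromRel_adj _ _ _).2 ⟨by simp, Or.inl ⟨rfl, rfl, by simp⟩⟩)
  have hc : ∀ x, ∑ i, ((if c ⟨i, none⟩ = x then 1 else 0) +
      (univ.filter (fun j => c ⟨i, some j⟩ = x)).card) ≤ (∑ i, (m i + 1) + 1) / 2 := by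
    intro x
    have := h3 x
    rw [card_stars] at this
    have e : {v | c v = x}.ncard = (univ.filter (fun v => c v = x)).card := by
      rw [← Set.ncard_coe_finset]; simp
    rw [e, card_filter, Fintype.sum_sigma] at this
    simp only [Fintype.sum_option] at this
    simp only [card_filter]
    exact this
  have key : ∀ x y : ℕ, (x = 1 ∧ y = 2 ∨ x = 2 ∧ y = 1) → ∀ i,
      (if J i then m i / 4 else if c ⟨i, none⟩ = y then m i else 1) ≤
      (if c ⟨i, none⟩ = x then 1 else 0) + (univ.filter (fun j => c ⟨i, some j⟩ = x)).card := by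
    intro x y hxy i
    have a1 := h1 ⟨i, none⟩
    have a2 := fun j => h1 ⟨i, some j⟩
    cases hJ : J i
    · simp only [hJ, Bool.false_eq_true, if_false, mem_insert, mem_singleton] at a1 a2 ⊢
      by_cases e : c ⟨i, none⟩ = y
      · rw [if_pos e, filter_true_of_mem fun j _ => by
          have := a2 j; have := hadj i j; omega]
        simp
      · rw [if_neg e, if_pos (by omega)]; omega
    · simp only [hJ, if_true, mem_insert, mem_singleton] at a1 a2 ⊢
      have := quarter (m i) (2 * (c ⟨i, none⟩ - 3) + (x - 1)) (by omega)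
        (fun j => c ⟨i, some j⟩ = x) (fun j hj => by
          have := a2 j
          have := hadj i j
          omega)
      refine le_trans ?_ (Nat.le_add_left _ _)
      exact le_trans this (le_of_eq (by congr))
  refine ⟨fun i => decide (c ⟨i, none⟩ = 2), le_trans (Finset.sum_le_sum fun i _ => ?_) (hc 1),
    le_trans (Finset.sum_le_sum fun i _ => ?_) (hc 2)⟩
  · simpa using key 1 2 (by omega) i
  · refine le_trans (le_of_eq ?_) (key 2 1 (by omega) i)
    have a1 := h1 ⟨i, none⟩
    cases hJ : J i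
    · simp only [hJ, Bool.false_eq_true, if_false, mem_insert, mem_singleton] at a1 ⊢
      rcases a1 with a1 | a1 <;> simp [a1]
    · simp

lemma ar4s (a b c d k : ℕ) (hk : k = (a + b + c + d + 4 + 1) / 2) (h1 : b ≤ a) (h2 : c ≤ b)
    (h3 : d ≤ c) (k0 : a + b / 4 + c / 4 + d / 4 ≤ k)
    (p3 : a + b + d / 4 ≤ k ∨ a + c + d / 4 ≤ k ∨ b + c + d / 4 ≤ k)
    (z : (a + b ≤ k ∧ c + d ≤ k) ∨ (a + c ≤ k ∧ b + d ≤ k) ∨ (a + d ≤ k ∧ b + c ≤ k) ∨
      b + c + d ≤ k ∨ a + c + d ≤ k ∨ a + b + d ≤ k ∨ a + b + c ≤ k) : a ≤ 200 := by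
  omega

lemma ar4 (a b c d k : ℕ) (hk : k = (a + b + c + d + 4 + 1) / 2)
    (k0 : a + b / 4 + c / 4 + d / 4 ≤ k) (k1 : a / 4 + b + c / 4 + d / 4 ≤ k)
    (k2 : a / 4 + b / 4 + c + d / 4 ≤ k) (k3 : a / 4 + b / 4 + c / 4 + d ≤ k)
    (p0 : b + c + a / 4 ≤ k ∨ b + d + a / 4 ≤ k ∨ c + d + a / 4 ≤ k)
    (p1 : a + c + b / 4 ≤ k ∨ a + d + b / 4 ≤ k ∨ c + d + b / 4 ≤ k)
    (p2 : a + b + c / 4 ≤ k ∨ a + d + c / 4 ≤ k ∨ b + d + c / 4 ≤ k)
    (p3 : a + b + d / 4 ≤ k ∨ a + c + d / 4 ≤ k ∨ b + c + d / 4 ≤ k)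
    (z : (a + b ≤ k ∧ c + d ≤ k) ∨ (a + c ≤ k ∧ b + d ≤ k) ∨ (a + d ≤ k ∧ b + c ≤ k) ∨
      b + c + d ≤ k ∨ a + c + d ≤ k ∨ a + b + d ≤ k ∨ a + b + c ≤ k) :
    a ≤ 200 ∧ b ≤ 200 ∧ c ≤ 200 ∧ d ≤ 200 := by
  have W : ∀ a b c d : ℕ, k = (a + b + c + d + 4 + 1) / 2 → b ≤ a → c ≤ b → d ≤ c →
      a + b / 4 + c / 4 + d / 4 ≤ k →
      (a + b + d / 4 ≤ k ∨ a + c + d / 4 ≤ k ∨ b + c + d / 4 ≤ k) →
      ((a + b ≤ k ∧ c + d ≤ k) ∨ (a + c ≤ k ∧ b + d ≤ k) ∨ (a + d ≤ k ∧ b + c ≤ k) ∨
      b + c + d ≤ k ∨ a + c + d ≤ k ∨ a + b + d ≤ k ∨ a + b + c ≤ k) → a ≤ 200 :=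
    fun a b c d => ar4s a b c d k
  rcases le_total a b with _ | _
  · rcases le_total b c with _ | _
    · rcases le_total c d with _ | _
      · have := W d c b a (by clear W k0 k1 k2 k3 p0 p1 p2 p3 z; omega) ‹_› ‹_› ‹_›
          (by clear * - k3; omega) (by clear * - p0; omega) (by clear * - z; omega)
        clear W hk k0 k1 k2 k3 p0 p1 p2 p3 z
        omega
      · rcases le_total b d with _ | _
        · have := W c d b a (by clear W k0 k1 k2 k3 p0 p1 p2 p3 z; omega) ‹_› ‹_› ‹_›
            (by clear * - k2; omega) (by clear * - p0; omega) (by clear * - z; omega)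
          clear W hk k0 k1 k2 k3 p0 p1 p2 p3 z
          omega
        · rcases le_total a d with _ | _
          · have := W c b d a (by clear W k0 k1 k2 k3 p0 p1 p2 p3 z; omega) ‹_› ‹_› ‹_›
              (by clear * - k2; omega) (by clear * - p0; omega) (by clear * - z; omega)
            clear W hk k0 k1 k2 k3 p0 p1 p2 p3 z
            omega
          · have := W c b a d (by clear W k0 k1 k2 k3 p0 p1 p2 p3 z; omega) ‹_› ‹_› ‹_›
              (by clear * - k2; omega) (by clear * - p3; omega) (by clear * - z; omega)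
            clear W hk k0 k1 k2 k3 p0 p1 p2 p3 z
            omega
    · rcases le_total a c with _ | _
      · rcases le_total b d with _ | _
        · have := W d b c a (by clear W k0 k1 k2 k3 p0 p1 p2 p3 z; omega) ‹_› ‹_› ‹_›
            (by clear * - k3; omega) (by clear * - p0; omega) (by clear * - z; omega)
          clear W hk k0 k1 k2 k3 p0 p1 p2 p3 z
          omega
        · rcases le_total c d with _ | _
          · have := W b d c a (by clear W k0 k1 k2 k3 p0 p1 p2 p3 z; omega) ‹_› ‹_› ‹_›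
              (by clear * - k1; omega) (by clear * - p0; omega) (by clear * - z; omega)
            clear W hk k0 k1 k2 k3 p0 p1 p2 p3 z
            omega
          · rcases le_total a d with _ | _
            · have := W b c d a (by clear W k0 k1 k2 k3 p0 p1 p2 p3 z; omega) ‹_› ‹_› ‹_›
                (by clear * - k1; omega) (by clear * - p0; omega) (by clear * - z; omega)
              clear W hk k0 k1 k2 k3 p0 p1 p2 p3 z
              omega
            · have := W b c a d (by clear W k0 k1 k2 k3 p0 p1 p2 p3 z; omega) ‹_› ‹_› ‹_›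
                (by clear * - k1; omega) (by clear * - p3; omega) (by clear * - z; omega)
              clear W hk k0 k1 k2 k3 p0 p1 p2 p3 z
              omega
      · rcases le_total b d with _ | _
        · have := W d b a c (by clear W k0 k1 k2 k3 p0 p1 p2 p3 z; omega) ‹_› ‹_› ‹_›
            (by clear * - k3; omega) (by clear * - p2; omega) (by clear * - z; omega)
          clear W hk k0 k1 k2 k3 p0 p1 p2 p3 z
          omega
        · rcases le_total a d with _ | _
          · have := W b d a c (by clear W k0 k1 k2 k3 p0 p1 p2 p3 z; omega) ‹_› ‹_› ‹_›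
              (by clear * - k1; omega) (by clear * - p2; omega) (by clear * - z; omega)
            clear W hk k0 k1 k2 k3 p0 p1 p2 p3 z
            omega
          · rcases le_total c d with _ | _
            · have := W b a d c (by clear W k0 k1 k2 k3 p0 p1 p2 p3 z; omega) ‹_› ‹_› ‹_›
                (by clear * - k1; omega) (by clear * - p2; omega) (by clear * - z; omega)
              clear W hk k0 k1 k2 k3 p0 p1 p2 p3 z
              omega
            · have := W b a c d (by clear W k0 k1 k2 k3 p0 p1 p2 p3 z; omega) ‹_› ‹_› ‹_›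
                (by clear * - k1; omega) (by clear * - p3; omega) (by clear * - z; omega)
              clear W hk k0 k1 k2 k3 p0 p1 p2 p3 z
              omega
  · rcases le_total a c with _ | _
    · rcases le_total c d with _ | _
      · have := W d c a b (by clear W k0 k1 k2 k3 p0 p1 p2 p3 z; omega) ‹_› ‹_› ‹_›
          (by clear * - k3; omega) (by clear * - p1; omega) (by clear * - z; omega)
        clear W hk k0 k1 k2 k3 p0 p1 p2 p3 z
        omega
      · rcases le_total a d with _ | _
        · have := W c d a b (by clear W k0 k1 k2 k3 p0 p1 p2 p3 z; omega) ‹_› ‹_› ‹_›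
            (by clear * - k2; omega) (by clear * - p1; omega) (by clear * - z; omega)
          clear W hk k0 k1 k2 k3 p0 p1 p2 p3 z
          omega
        · rcases le_total b d with _ | _
          · have := W c a d b (by clear W k0 k1 k2 k3 p0 p1 p2 p3 z; omega) ‹_› ‹_› ‹_›
              (by clear * - k2; omega) (by clear * - p1; omega) (by clear * - z; omega)
            clear W hk k0 k1 k2 k3 p0 p1 p2 p3 z
            omega
          · have := W c a b d (by clear W k0 k1 k2 k3 p0 p1 p2 p3 z; omega) ‹_› ‹_› ‹_›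
              (by clear * - k2; omega) (by clear * - p3; omega) (by clear * - z; omega)
            clear W hk k0 k1 k2 k3 p0 p1 p2 p3 z
            omega
    · rcases le_total b c with _ | _
      · rcases le_total a d with _ | _
        · have := W d a c b (by clear W k0 k1 k2 k3 p0 p1 p2 p3 z; omega) ‹_› ‹_› ‹_›
            (by clear * - k3; omega) (by clear * - p1; omega) (by clear * - z; omega)
          clear W hk k0 k1 k2 k3 p0 p1 p2 p3 z
          omega
        · rcases le_total c d with _ | _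
          · have := W a d c b (by clear W k0 k1 k2 k3 p0 p1 p2 p3 z; omega) ‹_› ‹_› ‹_›
              (by clear * - k0; omega) (by clear * - p1; omega) (by clear * - z; omega)
            clear W hk k0 k1 k2 k3 p0 p1 p2 p3 z
            omega
          · rcases le_total b d with _ | _
            · have := W a c d b (by clear W k0 k1 k2 k3 p0 p1 p2 p3 z; omega) ‹_› ‹_› ‹_›
                (by clear * - k0; omega) (by clear * - p1; omega) (by clear * - z; omega)
              clear W hk k0 k1 k2 k3 p0 p1 p2 p3 z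
              omega
            · have := W a c b d (by clear W k0 k1 k2 k3 p0 p1 p2 p3 z; omega) ‹_› ‹_› ‹_›
                (by clear * - k0; omega) (by clear * - p3; omega) (by clear * - z; omega)
              clear W hk k0 k1 k2 k3 p0 p1 p2 p3 z
              omega
      · rcases le_total a d with _ | _
        · have := W d a b c (by clear W k0 k1 k2 k3 p0 p1 p2 p3 z; omega) ‹_› ‹_› ‹_›
            (by clear * - k3; omega) (by clear * - p2; omega) (by clear * - z; omega)
          clear W hk k0 k1 k2 k3 p0 p1 p2 p3 z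
          omega
        · rcases le_total b d with _ | _
          · have := W a d b c (by clear W k0 k1 k2 k3 p0 p1 p2 p3 z; omega) ‹_› ‹_› ‹_›
              (by clear * - k0; omega) (by clear * - p2; omega) (by clear * - z; omega)
            clear W hk k0 k1 k2 k3 p0 p1 p2 p3 z
            omega
          · rcases le_total c d with _ | _
            · have := W a b d c (by clear W k0 k1 k2 k3 p0 p1 p2 p3 z; omega) ‹_› ‹_› ‹_›
                (by clear * - k0; omega) (by clear * - p2; omega) (by clear * - z; omega)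
              clear W hk k0 k1 k2 k3 p0 p1 p2 p3 z
              omega
            · have := W a b c d (by clear W k0 k1 k2 k3 p0 p1 p2 p3 z; omega) ‹_› ‹_› ‹_›
                (by clear * - k0; omega) (by clear * - p3; omega) (by clear * - z; omega)
              clear W hk k0 k1 k2 k3 p0 p1 p2 p3 z
              omega

lemma bound2 (m : Fin 2 → ℕ) (h : EqChoosable 2 (stars m)) : ∀ i, m i ≤ 200 := by
  have N := nec m h
  generalize hk : (∑ i, (m i + 1) + 1) / 2 = k at N
  have k0 : m 0 + m 1 / 4 ≤ k := by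
    obtain ⟨S, h1, h2⟩ := N ![false, true]
    clear * - h1 h2
    simp only [Fin.sum_univ_two, Matrix.cons_val, if_true, Bool.false_eq_true, if_false] at h1 h2
    split_ifs at h1 h2 <;> omega
  have k1 : m 0 / 4 + m 1 ≤ k := by
    obtain ⟨S, h1, h2⟩ := N ![true, false]
    clear * - h1 h2
    simp only [Fin.sum_univ_two, Matrix.cons_val, if_true, Bool.false_eq_true, if_false] at h1 h2
    split_ifs at h1 h2 <;> omega
  rw [Fin.sum_univ_two] at hk
  intro i
  fin_cases i <;> simp only [Fin.zero_eta, Fin.mk_one, Fin.reduceFinMk, Fin.isValue] <;> omega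

lemma bound3 (m : Fin 3 → ℕ) (h : EqChoosable 2 (stars m)) : ∀ i, m i ≤ 200 := by
  have N := nec m h
  generalize hk : (∑ i, (m i + 1) + 1) / 2 = k at N
  have k0 : m 0 + m 1 / 4 + m 2 / 4 ≤ k := by
    obtain ⟨S, h1, h2⟩ := N ![false, true, true]
    clear * - h1 h2
    simp only [Fin.sum_univ_three, Matrix.cons_val, if_true, Bool.false_eq_true, if_false] at h1 h2
    split_ifs at h1 h2 <;> omega
  have k1 : m 0 / 4 + m 1 + m 2 / 4 ≤ k := by
    obtain ⟨S, h1, h2⟩ := N ![true, false, true]
    clear * - h1 h2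
    simp only [Fin.sum_univ_three, Matrix.cons_val, if_true, Bool.false_eq_true, if_false] at h1 h2
    split_ifs at h1 h2 <;> omega
  have k2 : m 0 / 4 + m 1 / 4 + m 2 ≤ k := by
    obtain ⟨S, h1, h2⟩ := N ![true, true, false]
    clear * - h1 h2
    simp only [Fin.sum_univ_three, Matrix.cons_val, if_true, Bool.false_eq_true, if_false] at h1 h2
    split_ifs at h1 h2 <;> omega
  have z : m 0 + m 1 ≤ k ∨ m 0 + m 2 ≤ k ∨ m 1 + m 2 ≤ k := by
    obtain ⟨S, h1, h2⟩ := N ![false, false, false]
    clear * - h1 h2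
    simp only [Fin.sum_univ_three, Matrix.cons_val, if_true, Bool.false_eq_true, if_false] at h1 h2
    split_ifs at h1 h2 <;> omega
  rw [Fin.sum_univ_three] at hk
  intro i
  fin_cases i <;> simp only [Fin.zero_eta, Fin.mk_one, Fin.reduceFinMk, Fin.isValue] <;> omega

lemma bound4 (m : Fin 4 → ℕ) (h : EqChoosable 2 (stars m)) : ∀ i, m i ≤ 200 := by
  have N := nec m h
  generalize hk : (∑ i, (m i + 1) + 1) / 2 = k at N
  have k0 : m 0 + m 1 / 4 + m 2 / 4 + m 3 / 4 ≤ k := by
    obtain ⟨S, h1, h2⟩ := N ![false, true, true, true]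
    clear * - h1 h2
    simp only [Fin.sum_univ_four, Matrix.cons_val, if_true, Bool.false_eq_true, if_false] at h1 h2
    split_ifs at h1 h2 <;> omega
  have k1 : m 0 / 4 + m 1 + m 2 / 4 + m 3 / 4 ≤ k := by
    obtain ⟨S, h1, h2⟩ := N ![true, false, true, true]
    clear * - h1 h2
    simp only [Fin.sum_univ_four, Matrix.cons_val, if_true, Bool.false_eq_true, if_false] at h1 h2
    split_ifs at h1 h2 <;> omega
  have k2 : m 0 / 4 + m 1 / 4 + m 2 + m 3 / 4 ≤ k := by
    obtain ⟨S, h1, h2⟩ := N ![true, true, false, true]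
    clear * - h1 h2
    simp only [Fin.sum_univ_four, Matrix.cons_val, if_true, Bool.false_eq_true, if_false] at h1 h2
    split_ifs at h1 h2 <;> omega
  have k3 : m 0 / 4 + m 1 / 4 + m 2 / 4 + m 3 ≤ k := by
    obtain ⟨S, h1, h2⟩ := N ![true, true, true, false]
    clear * - h1 h2
    simp only [Fin.sum_univ_four, Matrix.cons_val, if_true, Bool.false_eq_true, if_false] at h1 h2
    split_ifs at h1 h2 <;> omega
  have p0 : m 1 + m 2 + m 0 / 4 ≤ k ∨ m 1 + m 3 + m 0 / 4 ≤ k ∨ m 2 + m 3 + m 0 / 4 ≤ k := by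
    obtain ⟨S, h1, h2⟩ := N ![true, false, false, false]
    clear * - h1 h2
    simp only [Fin.sum_univ_four, Matrix.cons_val, if_true, Bool.false_eq_true, if_false] at h1 h2
    split_ifs at h1 h2 <;> omega
  have p1 : m 0 + m 2 + m 1 / 4 ≤ k ∨ m 0 + m 3 + m 1 / 4 ≤ k ∨ m 2 + m 3 + m 1 / 4 ≤ k := by
    obtain ⟨S, h1, h2⟩ := N ![false, true, false, false]
    clear * - h1 h2
    simp only [Fin.sum_univ_four, Matrix.cons_val, if_true, Bool.false_eq_true, if_false] at h1 h2
    split_ifs at h1 h2 <;> omega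
  have p2 : m 0 + m 1 + m 2 / 4 ≤ k ∨ m 0 + m 3 + m 2 / 4 ≤ k ∨ m 1 + m 3 + m 2 / 4 ≤ k := by
    obtain ⟨S, h1, h2⟩ := N ![false, false, true, false]
    clear * - h1 h2
    simp only [Fin.sum_univ_four, Matrix.cons_val, if_true, Bool.false_eq_true, if_false] at h1 h2
    split_ifs at h1 h2 <;> omega
  have p3 : m 0 + m 1 + m 3 / 4 ≤ k ∨ m 0 + m 2 + m 3 / 4 ≤ k ∨ m 1 + m 2 + m 3 / 4 ≤ k := by
    obtain ⟨S, h1, h2⟩ := N ![false, false, false, true]
    clear * - h1 h2
    simp only [Fin.sum_univ_four, Matrix.cons_val, if_true, Bool.false_eq_true, if_false] at h1 h2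
    split_ifs at h1 h2 <;> omega
  have z : (m 0 + m 1 ≤ k ∧ m 2 + m 3 ≤ k) ∨ (m 0 + m 2 ≤ k ∧ m 1 + m 3 ≤ k) ∨ (m 0 + m 3 ≤ k ∧ m 1 + m 2 ≤ k) ∨ m 1 + m 2 + m 3 ≤ k ∨ m 0 + m 2 + m 3 ≤ k ∨ m 0 + m 1 + m 3 ≤ k ∨ m 0 + m 1 + m 2 ≤ k := by
    obtain ⟨S, h1, h2⟩ := N ![false, false, false, false]
    clear * - h1 h2
    simp only [Fin.sum_univ_four, Matrix.cons_val, if_true, Bool.false_eq_true, if_false] at h1 h2
    split_ifs at h1 h2 <;> omega
  rw [Fin.sum_univ_four] at hk
  have := ar4 (m 0) (m 1) (m 2) (m 3) k (by clear * - hk; omega) k0 k1 k2 k3 p0 p1 p2 p3 z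
  clear * - this
  intro i
  fin_cases i <;> simp only [Fin.zero_eta, Fin.mk_one, Fin.reduceFinMk, Fin.isValue] <;> omega

end Pool.Agent.Lib.H22Star
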