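import Mathlib

set_option autoImplicit false

namespace Pool.Agent.Lib.helper22.TopCh

open Set Filter Finsupp

/-- Rationals with odd denominator. -/
def Z2 : Subring ℚ where
  carrier := {q | ∃ m d : ℤ, Odd d ∧ q = m / d}
  mul_mem' := by
    rintro _ _ ⟨m, d, hd, rfl⟩ ⟨m', d', hd', rfl⟩
    exact ⟨m * m', d * d', hd.mul hd', by push_cast; rw [div_mul_div_comm]⟩
  one_mem' := ⟨1, 1, odd_one, by simp⟩
  add_mem' := by
    rintro _ _ ⟨m, d, hd, rfl⟩ ⟨m', d', hd', rfl⟩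
    have h1 : (d : ℚ) ≠ 0 := by exact_mod_cast (by rintro rfl; simp at hd : d ≠ 0)
    have h2 : (d' : ℚ) ≠ 0 := by exact_mod_cast (by rintro rfl; simp at hd' : d' ≠ 0)
    exact ⟨m * d' + d * m', d * d', hd.mul hd', by push_cast; rw [div_add_div _ _ h1 h2]⟩
  zero_mem' := ⟨0, 1, odd_one, by simp⟩
  neg_mem' := by
    rintro _ ⟨m, d, hd, rfl⟩
    exact ⟨-m, d, hd, by push_cast; rw [neg_div]⟩

theorem half_not : (1 / 2 : ℚ) ∉ Z2 := by
  rintro ⟨m, d, hd, h⟩
  have h1 : (d : ℚ) ≠ 0 := by exact_mod_cast (by rintro rfl; simp at hd : d ≠ 0)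
  field_simp at h
  have : d = 2 * m := by exact_mod_cast h
  obtain ⟨k, hk⟩ := hd
  omega

theorem decomp (q : ℚ) : ∃ (s d : ℕ), Odd d ∧ q.den = 2 ^ s * d := by
  obtain ⟨s, d, hd, h⟩ := Nat.exists_eq_two_pow_mul_odd q.den_nz
  exact ⟨s, d, hd, h⟩

theorem exists_half (a : ℚ) (ha : a ∉ Z2) : ∃ b ∈ Z2, b * a = 1 / 2 := by
  obtain ⟨s, d, hd, h⟩ := decomp a
  have hd0 : (d : ℚ) ≠ 0 := by exact_mod_cast (by rintro rfl; simp at hd : d ≠ 0)
  cases s with
  | zero =>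
    exfalso
    apply ha
    refine ⟨a.num, d, by exact_mod_cast hd, ?_⟩
    rw [pow_zero, one_mul] at h
    rw [← h]
    exact_mod_cast (Rat.num_div_den a).symm
  | succ s =>
    have hodd : Odd a.num := by
      rw [← Int.natAbs_odd, ← Nat.coprime_two_right]
      refine Nat.Coprime.coprime_dvd_right ?_ a.reduced
      rw [h, pow_succ]
      exact Dvd.intro_left _ (by ring : (2 ^ s * d) * 2 = 2 ^ s * 2 * d)
    have hn : (a.num : ℚ) ≠ 0 := by exact_mod_cast (by intro e; simp [e] at hodd : a.num ≠ 0)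
    refine ⟨((2 ^ s * d : ℤ) : ℚ) / (a.num : ℤ), ⟨_, _, hodd, rfl⟩, ?_⟩
    have e : a = a.num / (2 ^ (s + 1) * d) := by
      conv_lhs => rw [← Rat.num_div_den a, h]
      push_cast
      rfl
    conv_lhs => enter [2]; rw [e]
    push_cast
    field_simp
    ring

theorem all_of_half (R : Subring ℚ) (h1 : Z2 ≤ R) (h2 : (1 / 2 : ℚ) ∈ R) (q : ℚ) : q ∈ R := by
  obtain ⟨s, d, hd, h⟩ := decomp q
  have hd0 : (d : ℚ) ≠ 0 := by exact_mod_cast (by rintro rfl; simp at hd : d ≠ 0)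
  have e : q = (1 / 2) ^ s * ((q.num : ℚ) / ((d : ℤ) : ℚ)) := by
    conv_lhs => rw [← Rat.num_div_den q, h]
    push_cast
    rw [one_div, inv_pow]
    field_simp
  rw [e]
  exact R.mul_mem (R.pow_mem h2 s) (h1 ⟨_, _, by exact_mod_cast hd, rfl⟩)

abbrev W : Type := ℕ →₀ ℚ
abbrev Γ : Type := W ≃ₗ[ℚ] W

open Classical in
/-- The transvection `x ↦ x + φ x • u` (identity unless `φ u = 0`). -/
noncomputable def T (u : W) (φ : W →ₗ[ℚ] ℚ) : Γ :=
  if h : φ u = 0 then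
    { (LinearMap.id + φ.smulRight u : W →ₗ[ℚ] W) with
      invFun := fun x => x - φ x • u
      left_inv := fun x => by simp [h]
      right_inv := fun x => by simp [h] }
  else 1

theorem T_apply {u : W} {φ : W →ₗ[ℚ] ℚ} (h : φ u = 0) (x : W) : T u φ x = x + φ x • u := by
  rw [T, dif_pos h]
  rfl

theorem T_add {u v : W} {φ : W →ₗ[ℚ] ℚ} (h : φ u = 0) (h' : φ v = 0) :
    T (u + v) φ = T u φ * T v φ := by
  refine LinearEquiv.ext fun x => ?_
  have h2 : φ (u + v) = 0 := by rw [map_add, h, h', add_zero]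
  rw [LinearEquiv.mul_apply, T_apply h, T_apply h', T_apply h2]
  simp only [map_add, map_smul, h', smul_eq_mul, mul_zero, add_zero, smul_add]
  abel

theorem T_zero (φ : W →ₗ[ℚ] ℚ) : T 0 φ = 1 := by
  refine LinearEquiv.ext fun x => ?_
  rw [T_apply (map_zero φ)]
  simp

theorem T_neg {u : W} {φ : W →ₗ[ℚ] ℚ} (h : φ u = 0) : T (-u) φ = (T u φ)⁻¹ := by
  rw [eq_inv_iff_mul_eq_one, ← T_add (by rw [map_neg, h, neg_zero]) h, neg_add_cancel, T_zero]

theorem T_conj (g : Γ) {u : W} {φ : W →ₗ[ℚ] ℚ} (h : φ u = 0) :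
    g * T u φ * g⁻¹ = T (g u) (φ ∘ₗ (g⁻¹ : Γ).toLinearMap) := by
  refine LinearEquiv.ext fun x => ?_
  have h2 : (φ ∘ₗ (g⁻¹ : Γ).toLinearMap) (g u) = 0 := by
    show φ (g.symm (g u)) = 0
    rw [g.symm_apply_apply, h]
  rw [T_apply h2, LinearEquiv.mul_apply, LinearEquiv.mul_apply, T_apply h, map_add, map_smul]
  show g (g.symm x) + _ = _
  rw [g.apply_symm_apply]
  rfl

theorem T_comm {u v : W} {φ ψ : W →ₗ[ℚ] ℚ} (h : φ u = 0) (h' : ψ v = 0) (h'' : ψ u = 0) :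
    T u φ * T v ψ * (T u φ)⁻¹ * (T v ψ)⁻¹ = T (φ v • u) ψ := by
  have h3 : ψ (φ v • u) = 0 := by rw [map_smul, h'', smul_zero]
  have : T u φ * T v ψ = T (φ v • u) ψ * T v ψ * T u φ := by
    refine LinearEquiv.ext fun x => ?_
    simp only [LinearEquiv.mul_apply, T_apply h, T_apply h', T_apply h3, map_add, map_smul, h',
      h'', smul_eq_mul, mul_zero, add_zero, add_smul, smul_smul, zero_smul, zero_mul]
    abel
  rw [this]
  group

/-- Elementary transvections. -/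
noncomputable def t (i j : ℕ) (a : ℚ) : Γ := T (single i a) (lapply j)

theorem lap_single {i j : ℕ} (h : i ≠ j) (a : ℚ) : (lapply j : W →ₗ[ℚ] ℚ) (single i a) = 0 := by
  simp [single_apply, h]

theorem t_apply {i j : ℕ} (h : i ≠ j) (a : ℚ) (x : W) (p : ℕ) :
    t i j a x p = x p + if i = p then x j * a else 0 := by
  rw [t, T_apply (lap_single h a)]
  by_cases e : i = p <;> simp [single_apply, e]

theorem t_add {i j : ℕ} (h : i ≠ j) (a b : ℚ) : t i j (a + b) = t i j a * t i j b := by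
  rw [t, single_add, T_add (lap_single h a) (lap_single h b)]
  rfl

theorem t_neg {i j : ℕ} (h : i ≠ j) (a : ℚ) : t i j (-a) = (t i j a)⁻¹ := by
  rw [t, single_neg, T_neg (lap_single h a)]
  rfl

theorem t_zero (i j : ℕ) : t i j 0 = 1 := by
  rw [t, single_zero, T_zero]

theorem t_T_comm {l p k : ℕ} (h1 : l ≠ p) (h2 : l ≠ k) (b : ℚ) {v : W} (hv : v k = 0) :
    t l p b * T v (lapply k) * (t l p b)⁻¹ * (T v (lapply k))⁻¹ = t l k (b * v p) := by
  rw [t, T_comm (lap_single h1 b) (by simpa using hv) (lap_single h2 b), t]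
  congr 1
  simp [mul_comm]

theorem t_comm {i k j : ℕ} (h1 : i ≠ k) (h2 : k ≠ j) (h3 : i ≠ j) (a b : ℚ) :
    t i k a * t k j b * (t i k a)⁻¹ * (t k j b)⁻¹ = t i j (a * b) := by
  have := t_T_comm h1 h3 a (v := single k b) (by simp [single_apply, h2])
  rw [single_eq_same] at this
  exact this

/-- Permutation matrices. -/
noncomputable def P (π : Equiv.Perm ℕ) : Γ := Finsupp.domLCongr π

theorem P_apply (π : Equiv.Perm ℕ) (x : W) (p : ℕ) : P π x p = x (π.symm p) := by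
  simp [P]

theorem P_single (π : Equiv.Perm ℕ) (q : ℕ) (a : ℚ) : P π (single q a) = single (π q) a := by
  simp [P]

theorem P_mul (π ρ : Equiv.Perm ℕ) : P (π * ρ) = P π * P ρ := by
  refine LinearEquiv.ext fun x => Finsupp.ext fun p => ?_
  rw [LinearEquiv.mul_apply, P_apply, P_apply, P_apply]
  rfl

theorem P_one : P 1 = 1 := by
  refine LinearEquiv.ext fun x => Finsupp.ext fun p => ?_
  rw [P_apply]
  rfl

theorem P_inv (π : Equiv.Perm ℕ) : P π⁻¹ = (P π)⁻¹ := by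
  rw [eq_inv_iff_mul_eq_one, ← P_mul, inv_mul_cancel, P_one]

theorem P_conj_t (π : Equiv.Perm ℕ) {i j : ℕ} (h : i ≠ j) (a : ℚ) :
    P π * t i j a * (P π)⁻¹ = t (π i) (π j) a := by
  rw [t, T_conj _ (lap_single h a), P_single, t]
  have : (lapply j : W →ₗ[ℚ] ℚ) ∘ₗ ((P π)⁻¹ : Γ).toLinearMap = lapply (π j) := by
    refine LinearMap.ext fun x => ?_
    rw [← P_inv]
    exact P_apply _ _ _
  rw [this]

end Pool.Agent.Lib.helper22.TopCh
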