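import Pool.Agent.Lib.helper22.TopChA

set_option autoImplicit false

namespace Pool.Agent.Lib.helper22.TopCh

open Set Filter Finsupp

def PG (n : ℕ) : Set Γ :=
  {g | ∃ π : Equiv.Perm ℕ, (∀ i ≤ n, π i = i) ∧ (∃ M, ∀ i, M < i → π i = i) ∧ g = P π}

def TH (n : ℕ) : Set Γ := {g | ∃ i j a, n < i ∧ n < j ∧ i ≠ j ∧ g = t i j a}
def TG (n : ℕ) : Set Γ := {g | ∃ i j a, n < i ∧ (n < j ∨ j = 0) ∧ i ≠ j ∧ g = t i j a}

noncomputable def HH (n : ℕ) : Subgroup Γ := Subgroup.closure (PG n ∪ TH n)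
noncomputable def GG (n : ℕ) : Subgroup Γ := Subgroup.closure (PG n ∪ TG n)

theorem HH_le (n : ℕ) : HH n ≤ GG n := by
  refine Subgroup.closure_mono (union_subset_union_right _ ?_)
  rintro _ ⟨i, j, a, h1, h2, h3, rfl⟩
  exact ⟨i, j, a, h1, Or.inl h2, h3, rfl⟩

theorem PG_anti {m n : ℕ} (h : m ≤ n) : PG n ⊆ PG m := by
  rintro _ ⟨π, h1, h2, rfl⟩
  exact ⟨π, fun i hi => h1 i (hi.trans h), h2, rfl⟩

theorem HH_anti : Antitone HH := by
  intro m n h
  refine Subgroup.closure_mono (union_subset_union (PG_anti h) ?_)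
  rintro _ ⟨i, j, a, h1, h2, h3, rfl⟩
  exact ⟨i, j, a, by omega, by omega, h3, rfl⟩

theorem GG_anti : Antitone GG := by
  intro m n h
  refine Subgroup.closure_mono (union_subset_union (PG_anti h) ?_)
  rintro _ ⟨i, j, a, h1, h2, h3, rfl⟩
  exact ⟨i, j, a, by omega, by omega, h3, rfl⟩

theorem t_mem_HH {n i j : ℕ} (h1 : n < i) (h2 : n < j) (h3 : i ≠ j) (a : ℚ) : t i j a ∈ HH n :=
  Subgroup.subset_closure (Or.inr ⟨i, j, a, h1, h2, h3, rfl⟩)

theorem t_mem_GG {n i : ℕ} (h1 : n < i) (a : ℚ) : t i 0 a ∈ GG n :=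
  Subgroup.subset_closure (Or.inr ⟨i, 0, a, h1, Or.inr rfl, by omega, rfl⟩)

theorem inv_apply_of {g : Γ} {x y : W} (h : g x = y) : g⁻¹ y = x := by
  rw [← h]
  exact g.symm_apply_apply x

theorem apply_inv (g : Γ) (x : W) : g (g⁻¹ x) = x := g.apply_symm_apply x

theorem GG_coord {n : ℕ} {g : Γ} (hg : g ∈ GG n) : ∀ (x : W) (p : ℕ), p ≤ n → g x p = x p := by
  induction hg using Subgroup.closure_induction with
  | mem g hg =>
    rcases hg with ⟨π, h1, _, rfl⟩ | ⟨i, j, a, h1, _, h3, rfl⟩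
    · intro x p hp
      rw [P_apply, (Equiv.symm_apply_eq π).2 (h1 p hp).symm]
    · intro x p hp
      rw [t_apply h3, if_neg (by omega), add_zero]
  | one => intro x p _; rfl
  | mul g h _ _ ihg ihh =>
    intro x p hp
    rw [LinearEquiv.mul_apply, ihg _ p hp, ihh _ p hp]
  | inv g _ ih =>
    intro x p hp
    rw [← ih (g⁻¹ x) p hp, apply_inv]

theorem t_single {i j q : ℕ} (h : i ≠ j) (hq : q ≠ j) (a : ℚ) :
    t i j a (single q 1) = single q 1 := by
  ext p
  rw [t_apply h, single_eq_of_ne' hq]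
  simp

theorem HH_fix {n : ℕ} {g : Γ} (hg : g ∈ HH n) : ∀ q ≤ n, g (single q 1) = single q 1 := by
  induction hg using Subgroup.closure_induction with
  | mem g hg =>
    rcases hg with ⟨π, h1, _, rfl⟩ | ⟨i, j, a, h1, h2, h3, rfl⟩
    · intro q hq
      rw [P_single, h1 q hq]
    · intro q hq
      exact t_single h3 (by omega) a
  | one => intro q _; rfl
  | mul g h _ _ ihg ihh =>
    intro q hq
    rw [LinearEquiv.mul_apply, ihh q hq, ihg q hq]
  | inv g _ ih =>
    intro q hq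
    exact inv_apply_of (ih q hq)

/-- Finitary support bound. -/
def Fi (g : Γ) (M : ℕ) : Prop :=
  (∀ (x : W) (p : ℕ), M < p → g x p = x p) ∧ ∀ q, M < q → g (single q 1) = single q 1

theorem Fi.inv {g : Γ} {M : ℕ} (h : Fi g M) : Fi g⁻¹ M :=
  ⟨fun x p hp => by rw [← h.1 (g⁻¹ x) p hp, apply_inv], fun q hq => inv_apply_of (h.2 q hq)⟩

theorem GG_fin {g : Γ} (hg : g ∈ GG 0) : ∃ M, Fi g M := by
  induction hg using Subgroup.closure_induction with
  | mem g hg =>
    rcases hg with ⟨π, _, ⟨M, hM⟩, rfl⟩ | ⟨i, j, a, h1, _, h3, rfl⟩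
    · refine ⟨M, fun x p hp => ?_, fun q hq => ?_⟩
      · rw [P_apply, (Equiv.symm_apply_eq π).2 (hM p hp).symm]
      · rw [P_single, hM q hq]
    · refine ⟨i + j, fun x p hp => ?_, fun q hq => t_single h3 (by omega) a⟩
      rw [t_apply h3, if_neg (by omega), add_zero]
  | one => exact ⟨0, fun _ _ _ => rfl, fun _ _ => rfl⟩
  | mul g h _ _ ihg ihh =>
    obtain ⟨M, h1, h2⟩ := ihg
    obtain ⟨N, h3, h4⟩ := ihh
    refine ⟨M + N, fun x p hp => ?_, fun q hq => ?_⟩
    · rw [LinearEquiv.mul_apply, h1 _ p (by omega), h3 _ p (by omega)]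
    · rw [LinearEquiv.mul_apply, h4 q (by omega), h2 q (by omega)]
  | inv g _ ih =>
    obtain ⟨M, h⟩ := ih
    exact ⟨M, h.inv⟩

theorem ext_single {g h : Γ} (e : ∀ q, g (single q 1) = h (single q 1)) : g = h := by
  apply LinearEquiv.toLinearMap_injective
  refine Finsupp.lhom_ext' fun q => LinearMap.ext_ring ?_
  exact e q

theorem lap_comp {g : Γ} {j : ℕ} (h : ∀ x : W, g x j = x j) :
    (lapply j : W →ₗ[ℚ] ℚ) ∘ₗ g.toLinearMap = lapply j := LinearMap.ext fun x => h x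

theorem commute_far {x : Γ} (hx : x ∈ GG 0) {M : ℕ} (hM : Fi x M) {g : Γ} (hg : g ∈ GG M) :
    x * g * x⁻¹ = g := by
  induction hg using Subgroup.closure_induction with
  | mem g hg =>
    rcases hg with ⟨π, h1, _, rfl⟩ | ⟨i, j, a, h1, h2, h3, rfl⟩
    · rw [mul_inv_eq_iff_eq_mul]
      refine ext_single fun q => ?_
      have hπ : ∀ p, M < p → M < π p := by
        intro p hp
        by_contra h
        have := π.injective (h1 (π p) (not_lt.1 h))
        omega
      rw [LinearEquiv.mul_apply, LinearEquiv.mul_apply, P_single]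
      by_cases hq : M < q
      · rw [hM.2 q hq, hM.2 _ (hπ q hq), P_single]
      · rw [h1 q (not_lt.1 hq)]
        ext p
        rw [P_apply]
        by_cases hp : M < p
        · have hp' : M < π.symm p := by
            by_contra h
            have := h1 _ (not_lt.1 h)
            rw [Equiv.apply_symm_apply] at this
            omega
          rw [hM.1 _ p hp, hM.1 _ _ hp', single_eq_of_ne (by omega), single_eq_of_ne (by omega)]
        · rw [(Equiv.symm_apply_eq π).2 (h1 p (not_lt.1 hp)).symm]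
    · rw [t, T_conj _ (lap_single h3 a), lap_comp]
      · congr 1
        rw [← smul_single_one, map_smul, hM.2 i h1]
      · intro y
        rcases h2 with h2 | rfl
        · exact hM.inv.1 y j h2
        · exact GG_coord ((GG 0).inv_mem hx) y 0 le_rfl
  | one => simp
  | mul g h _ _ ihg ihh =>
    calc x * (g * h) * x⁻¹ = (x * g * x⁻¹) * (x * h * x⁻¹) := by group
      _ = g * h := by rw [ihg, ihh]
  | inv g _ ih =>
    calc x * g⁻¹ * x⁻¹ = (x * g * x⁻¹)⁻¹ := by group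
      _ = g⁻¹ := by rw [ih]

theorem GG_decomp {n : ℕ} {g : Γ} (hg : g ∈ GG n) :
    ∃ v : W, ∃ h ∈ HH n, (∀ p ≤ n, v p = 0) ∧ g = T v (lapply 0) * h := by
  have hconj : ∀ h ∈ HH n, ∀ v : W, v 0 = 0 →
      h * T v (lapply 0) = T (h v) (lapply 0) * h := by
    intro h hh v hv
    have := T_conj h (u := v) (φ := lapply 0) hv
    rw [lap_comp (fun y => GG_coord ((GG n).inv_mem (HH_le n hh)) y 0 (Nat.zero_le _))] at this
    rw [← this]
    group
  induction hg using Subgroup.closure_induction with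
  | mem g hg =>
    rcases hg with hg | ⟨i, j, a, h1, h2, h3, rfl⟩
    · exact ⟨0, g, Subgroup.subset_closure (Or.inl hg), fun _ _ => rfl, by rw [T_zero, one_mul]⟩
    · rcases h2 with h2 | rfl
      · exact ⟨0, _, t_mem_HH h1 h2 h3 a, fun _ _ => rfl, by rw [T_zero, one_mul]⟩
      · exact ⟨single i a, 1, (HH n).one_mem, fun p hp => single_eq_of_ne (by omega),
          by rw [mul_one, t]⟩
  | one => exact ⟨0, 1, (HH n).one_mem, fun _ _ => rfl, by rw [T_zero, one_mul]⟩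
  | mul g g' _ _ ihg ihh =>
    obtain ⟨v, h, hh, hv, rfl⟩ := ihg
    obtain ⟨v', h', hh', hv', rfl⟩ := ihh
    have hc : ∀ p ≤ n, h v' p = 0 := fun p hp => by
      rw [GG_coord (HH_le n hh) v' p hp, hv' p hp]
    refine ⟨v + h v', h * h', (HH n).mul_mem hh hh', fun p hp => ?_, ?_⟩
    · rw [Finsupp.add_apply, hv p hp, hc p hp, add_zero]
    · rw [T_add (φ := lapply 0) (hv 0 (Nat.zero_le _)) (hc 0 (Nat.zero_le _))]
      calc T v (lapply 0) * h * (T v' (lapply 0) * h')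
          = T v (lapply 0) * (h * T v' (lapply 0)) * h' := by group
        _ = _ := by rw [hconj h hh v' (hv' 0 (Nat.zero_le _))]; group
  | inv g _ ih =>
    obtain ⟨v, h, hh, hv, rfl⟩ := ih
    have hh' := (HH n).inv_mem hh
    refine ⟨h⁻¹ (-v), h⁻¹, hh', fun p hp => ?_, ?_⟩
    · rw [GG_coord (HH_le n hh') _ p hp, Finsupp.neg_apply, hv p hp, neg_zero]
    · rw [← hconj _ hh' (-v) (by rw [Finsupp.neg_apply, hv 0 (Nat.zero_le _), neg_zero]),
        T_neg (φ := lapply 0) (hv 0 (Nat.zero_le _)), mul_inv_rev]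

/-- The lattices. -/
def La (i : ℕ) : Set W := {x | (∀ p, x p ∈ Z2) ∧ x 0 / 2 ^ i ∈ Z2}

def Pr (s : ℕ) (g : Γ) : Prop := ∀ i, s ≤ i → ∀ x ∈ La i, g x ∈ La i

def LL (s : ℕ) : Subgroup Γ where
  carrier := {g | Pr s g ∧ Pr s g⁻¹}
  mul_mem' := by
    rintro g h ⟨h1, h2⟩ ⟨h3, h4⟩
    refine ⟨fun i hi x hx => h1 i hi _ (h3 i hi x hx), fun i hi x hx => ?_⟩
    rw [mul_inv_rev]
    exact h4 i hi _ (h2 i hi x hx)
  one_mem' := ⟨fun _ _ _ hx => hx, fun _ _ _ hx => hx⟩
  inv_mem' := by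
    rintro g ⟨h1, h2⟩
    exact ⟨h2, by rwa [inv_inv]⟩

theorem LL_mono : Monotone LL := by
  rintro s s' h g ⟨h1, h2⟩
  exact ⟨fun i hi => h1 i (h.trans hi), fun i hi => h2 i (h.trans hi)⟩

theorem t_Pr {s i j : ℕ} (h0 : 0 < i) (h : i ≠ j) {a : ℚ}
    (ha : a ∈ Z2 ∨ (j = 0 ∧ a * 2 ^ s ∈ Z2)) : Pr s (t i j a) := by
  intro k hk x hx
  refine ⟨fun p => ?_, ?_⟩
  · rw [t_apply h]
    refine Z2.add_mem (hx.1 p) ?_
    split_ifs
    · rcases ha with ha | ⟨rfl, ha⟩
      · exact Z2.mul_mem (hx.1 j) ha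
      · obtain ⟨d, rfl⟩ := Nat.exists_eq_add_of_le hk
        have : x 0 * a = (x 0 / 2 ^ (s + d)) * (a * 2 ^ s) * 2 ^ d := by
          field_simp
          ring
        rw [this]
        exact Z2.mul_mem (Z2.mul_mem hx.2 ha) (Z2.pow_mem (natCast_mem Z2 2) d)
    · exact Z2.zero_mem
  · rw [t_apply h, if_neg (by omega), add_zero]
    exact hx.2

theorem t_LL {s i j : ℕ} (h0 : 0 < i) (h : i ≠ j) {a : ℚ}
    (ha : a ∈ Z2 ∨ (j = 0 ∧ a * 2 ^ s ∈ Z2)) : t i j a ∈ LL s := by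
  refine ⟨t_Pr h0 h ha, ?_⟩
  rw [← t_neg h]
  refine t_Pr h0 h ?_
  rcases ha with ha | ⟨h1, ha⟩
  · exact Or.inl (Z2.neg_mem ha)
  · exact Or.inr ⟨h1, by rw [neg_mul]; exact Z2.neg_mem ha⟩

theorem P_Pr (s : ℕ) {π : Equiv.Perm ℕ} (h : π 0 = 0) : Pr s (P π) := by
  intro k _ x hx
  refine ⟨fun p => ?_, ?_⟩
  · rw [P_apply]
    exact hx.1 _
  · rw [P_apply, (Equiv.symm_apply_eq π).2 h.symm]
    exact hx.2

theorem P_LL (s : ℕ) {π : Equiv.Perm ℕ} (h : π 0 = 0) : P π ∈ LL s := by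
  refine ⟨P_Pr s h, ?_⟩
  rw [← P_inv]
  exact P_Pr s ((Equiv.symm_apply_eq π).2 h.symm)

theorem t_not_LL0 {i j : ℕ} (h0 : 0 < j) (h : i ≠ j) : t i j (1 / 2) ∉ LL 0 := by
  intro hh
  have hx : (single j 1 : W) ∈ La 0 := by
    refine ⟨fun p => ?_, ?_⟩
    · rw [single_apply]
      split_ifs
      · exact Z2.one_mem
      · exact Z2.zero_mem
    · rw [single_eq_of_ne (by omega), zero_div]
      exact Z2.zero_mem
  have := (hh.1 0 le_rfl _ hx).1 i
  rw [t_apply h, single_eq_of_ne h, if_pos rfl, single_eq_same, zero_add, one_mul] at this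
  exact half_not this

theorem t_not_LL {i : ℕ} (h0 : 0 < i) (s : ℕ) : t i 0 (1 / 2 ^ (s + 1)) ∉ LL s := by
  intro hh
  have hx : (single 0 (2 ^ s) : W) ∈ La s := by
    refine ⟨fun p => ?_, ?_⟩
    · rw [single_apply]
      split_ifs
      · exact Z2.pow_mem (natCast_mem Z2 2) s
      · exact Z2.zero_mem
    · rw [single_eq_same, div_self (by positivity)]
      exact Z2.one_mem
  have := (hh.1 s le_rfl _ hx).1 i
  rw [t_apply (by omega), single_eq_of_ne (by omega), if_pos rfl, single_eq_same, zero_add] at this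
  apply half_not
  convert this using 1
  field_simp
  ring

theorem Pr_of_entries {g : Γ} (hg : g ∈ GG 0) (h : ∀ q p, g (single q 1) p ∈ Z2) : Pr 0 g := by
  intro k _ x hx
  refine ⟨fun p => ?_, ?_⟩
  · have e : g x = ∑ q ∈ x.support, x q • g (single q 1) := by
      conv_lhs => rw [← Finsupp.sum_single x, Finsupp.sum, map_sum]
      refine Finset.sum_congr rfl fun q _ => ?_
      rw [← map_smul, smul_single_one]
    rw [e, Finsupp.finset_sum_apply]
    exact Z2.sum_mem fun q _ => Z2.mul_mem (hx.1 q) (h q p)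
  · rw [GG_coord hg x 0 le_rfl]
    exact hx.2

theorem countable_G : Countable (GG 0) := by
  have h : ((GG 0 : Subgroup Γ) : Set Γ) ⊆ ⋃ M : ℕ, {g | Fi g M} := by
    intro g hg
    exact mem_iUnion.2 (GG_fin hg)
  have h2 : ∀ M : ℕ, {g : Γ | Fi g M}.Countable := by
    intro M
    refine Set.MapsTo.countable_of_injOn (f := fun (g : Γ) (q : Fin (M + 1)) => g (single q 1))
      (mapsTo_univ _ _) ?_ countable_univ
    intro g hg g' hg' e
    refine ext_single fun q => ?_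
    by_cases hq : M < q
    · rw [hg.2 q hq, hg'.2 q hq]
    · exact congrFun e ⟨q, by omega⟩
  exact ((countable_iUnion h2).mono h).to_subtype

end Pool.Agent.Lib.helper22.TopCh
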