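import Pool.Agent.Lib.helper22.TopChB

set_option autoImplicit false

namespace Pool.Agent.Lib.helper22.TopCh

open Set Filter Finsupp

/-- A filter on `Γ` closed under products and inverses. -/
structure GF (𝓕 : Filter Γ) : Prop where
  mul : Tendsto (fun p : Γ × Γ => p.1 * p.2) (𝓕 ×ˢ 𝓕) 𝓕
  inv : Tendsto (fun g : Γ => g⁻¹) 𝓕 𝓕

namespace GF

variable {𝓕 : Filter Γ} (h : GF 𝓕)
include h

theorem tmul {α : Type} {l : Filter α} {f g : α → Γ} (hf : Tendsto f l 𝓕) (hg : Tendsto g l 𝓕) :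
    Tendsto (fun x => f x * g x) l 𝓕 := h.mul.comp (hf.prodMk hg)

theorem tinv {α : Type} {l : Filter α} {f : α → Γ} (hf : Tendsto f l 𝓕) :
    Tendsto (fun x => (f x)⁻¹) l 𝓕 := h.inv.comp hf

theorem two {f : Γ × Γ → Γ} (hf : Tendsto f (𝓕 ×ˢ 𝓕) 𝓕) {U : Set Γ} (hU : U ∈ 𝓕) :
    ∃ N ∈ 𝓕, ∀ a ∈ N, ∀ b ∈ N, f (a, b) ∈ U := by
  have _ := h
  obtain ⟨N, hN, hs⟩ := mem_prod_self_iff.1 (hf hU)
  exact ⟨N, hN, fun a ha b hb => hs (mk_mem_prod ha hb)⟩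

theorem conj {U : Set Γ} (hU : U ∈ 𝓕) : ∃ N ∈ 𝓕, ∀ a ∈ N, ∀ b ∈ N, a * b * a⁻¹ ∈ U :=
  h.two (f := fun p => p.1 * p.2 * p.1⁻¹)
    (h.tmul (h.tmul tendsto_fst tendsto_snd) (h.tinv tendsto_fst)) hU

theorem comm {U : Set Γ} (hU : U ∈ 𝓕) : ∃ N ∈ 𝓕, ∀ a ∈ N, ∀ b ∈ N, a * b * a⁻¹ * b⁻¹ ∈ U :=
  h.two (f := fun p => p.1 * p.2 * p.1⁻¹ * p.2⁻¹)
    (h.tmul (h.tmul (h.tmul tendsto_fst tendsto_snd) (h.tinv tendsto_fst)) (h.tinv tendsto_snd)) hU

theorem div {U : Set Γ} (hU : U ∈ 𝓕) : ∃ N ∈ 𝓕, ∀ a ∈ N, ∀ b ∈ N, a * b⁻¹ ∈ U :=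
  h.two (f := fun p => p.1 * p.2⁻¹) (h.tmul tendsto_fst (h.tinv tendsto_snd)) hU

theorem mul' {U : Set Γ} (hU : U ∈ 𝓕) : ∃ N ∈ 𝓕, ∀ a ∈ N, ∀ b ∈ N, a * b ∈ U :=
  h.two (f := fun p => p.1 * p.2) h.mul hU

end GF

noncomputable def KK (n : ℕ) : Subgroup Γ := HH n ⊓ LL 0

theorem KK_anti : Antitone KK := fun _ _ h => inf_le_inf_right _ (HH_anti h)

theorem t_mem_KK {n i j : ℕ} (h1 : n < i) (h2 : n < j) (h3 : i ≠ j) {a : ℚ} (ha : a ∈ Z2) :
    t i j a ∈ KK n := ⟨t_mem_HH h1 h2 h3 a, t_LL (by omega) h3 (Or.inl ha)⟩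

theorem P_mem_KK {n : ℕ} {π : Equiv.Perm ℕ} (h1 : ∀ i ≤ n, π i = i) (h2 : ∃ M, ∀ i, M < i → π i = i) :
    P π ∈ KK n :=
  ⟨Subgroup.subset_closure (Or.inl ⟨π, h1, h2, rfl⟩), P_LL 0 (h1 0 (Nat.zero_le _))⟩

def shf (n m i : ℕ) : ℕ :=
  if n < i ∧ i ≤ n + m then i + m else if n + m < i ∧ i ≤ n + 2 * m then i - m else i

theorem shf_inv (n m : ℕ) : Function.Involutive (shf n m) := by
  intro i
  unfold shf
  split_ifs <;> omega

def sh (n m : ℕ) : Equiv.Perm ℕ := (shf_inv n m).toPerm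

theorem sh_apply (n m i : ℕ) : sh n m i = shf n m i := rfl

theorem sh_symm (n m i : ℕ) : (sh n m).symm i = shf n m i := rfl

theorem sh_low {n m i : ℕ} (h : i ≤ n) : sh n m i = i := by
  rw [sh_apply]
  unfold shf
  split_ifs <;> omega

theorem sh_mid {n m i : ℕ} (h : n < i) (h' : i ≤ n + m) : sh n m i = i + m := by
  rw [sh_apply]
  unfold shf
  split_ifs <;> omega

theorem sh_high {n m i : ℕ} (h : n + 2 * m < i) : sh n m i = i := by
  rw [sh_apply]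
  unfold shf
  split_ifs <;> omega

theorem sh_sh (n m i : ℕ) : sh n m (sh n m i) = i := shf_inv n m i

/-- Spreading lemma. -/
theorem spread {𝓕 : Filter Γ} (h : GF 𝓕) (hK : ∀ U ∈ 𝓕, ∃ r, (KK r : Set Γ) ⊆ U)
    (S : ℕ → Set Γ)
    (hS : ∀ n, ∀ g ∈ S n, Tendsto (fun m => P (sh n m) * g * (P (sh n m))⁻¹) atTop 𝓕)
    {U : Set Γ} (hU : U ∈ 𝓕) : ∃ n, (Subgroup.closure (PG n ∪ S n) : Set Γ) ⊆ U := by
  obtain ⟨N, hN, hNU⟩ := h.conj hU
  obtain ⟨n, hn⟩ := hK N hN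
  refine ⟨n, fun g hg => ?_⟩
  have ht : Tendsto (fun m => P (sh n m) * g * (P (sh n m))⁻¹) atTop 𝓕 := by
    induction hg using Subgroup.closure_induction with
    | mem g hg =>
      rcases hg with ⟨ρ, h1, ⟨M, hM⟩, rfl⟩ | hg
      · intro V hV
        obtain ⟨r, hr⟩ := hK V hV
        refine mem_map.2 (mem_atTop_sets.2 ⟨r + M + 1, fun m hm => hr ?_⟩)
        show P (sh n m) * P ρ * (P (sh n m))⁻¹ ∈ KK r
        rw [← P_inv, ← P_mul, ← P_mul]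
        refine P_mem_KK (fun i hi => ?_) ⟨n + 2 * m + M, fun i hi => ?_⟩
        · show sh n m (ρ (sh n m i)) = i
          by_cases hin : i ≤ n
          · rw [sh_low hin, h1 i hin, sh_low hin]
          · rw [hM (sh n m i) (by rw [sh_mid (by omega) (by omega)]; omega), sh_sh]
        · show sh n m (ρ (sh n m i)) = i
          rw [sh_high (by omega : n + 2 * m < i), hM i (by omega), sh_high (by omega)]
      · exact hS n g hg
    | one =>
      intro V hV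
      obtain ⟨r, hr⟩ := hK V hV
      refine mem_map.2 (univ_mem' fun m => hr ?_)
      show P (sh n m) * 1 * (P (sh n m))⁻¹ ∈ KK r
      rw [mul_one, mul_inv_cancel]
      exact (KK r).one_mem
    | mul g g' _ _ ihg ihh =>
      refine (h.tmul ihg ihh).congr fun m => ?_
      group
    | inv g _ ih =>
      refine (h.tinv ih).congr fun m => ?_
      group
  obtain ⟨m, hm⟩ := (ht.eventually hN).exists
  have h1 : (P (sh n m))⁻¹ ∈ N :=
    hn ((KK n).inv_mem (P_mem_KK (fun i hi => sh_low hi) ⟨n + 2 * m, fun i hi => sh_high hi⟩))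
  have := hNU _ h1 _ hm
  convert this using 1
  group

/-- `t i j a` tends to one as `i ≠ j` go to infinity. -/
def Cv (𝓕 : Filter Γ) (a : ℚ) : Prop :=
  ∀ U ∈ 𝓕, ∃ r, ∀ i j, r < i → r < j → i ≠ j → t i j a ∈ U

theorem Cv.tend {𝓕 : Filter Γ} {a : ℚ} (h : Cv 𝓕 a) {n i j : ℕ} (h1 : n < i) (h2 : n < j)
    (h3 : i ≠ j) : Tendsto (fun m => P (sh n m) * t i j a * (P (sh n m))⁻¹) atTop 𝓕 := by
  intro V hV
  obtain ⟨r, hr⟩ := h V hV
  refine mem_map.2 (mem_atTop_sets.2 ⟨r + i + j, fun m hm => ?_⟩)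
  show P (sh n m) * t i j a * (P (sh n m))⁻¹ ∈ V
  rw [P_conj_t _ h3, sh_mid h1 (by omega), sh_mid h2 (by omega)]
  exact hr _ _ (by omega) (by omega) (by omega)

theorem coverKH {𝓕 : Filter Γ} (h : GF 𝓕) (hK : ∀ U ∈ 𝓕, ∃ r, (KK r : Set Γ) ⊆ U)
    (hH : ∀ r, (HH r : Set Γ) ∈ 𝓕) (hn : (LL 0 : Set Γ) ∉ 𝓕) {U : Set Γ} (hU : U ∈ 𝓕) :
    ∃ n, (HH n : Set Γ) ⊆ U := by
  have hZ : ∀ a ∈ Z2, Cv 𝓕 a := by
    intro a ha V hV
    obtain ⟨r, hr⟩ := hK V hV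
    exact ⟨r, fun i j h1 h2 h3 => hr (t_mem_KK h1 h2 h3 ha)⟩
  let R : Subring ℚ :=
    { carrier := {a | Cv 𝓕 a}
      mul_mem' := by
        intro a b ha hb V hV
        obtain ⟨N, hN, hNV⟩ := h.comm hV
        obtain ⟨r, hr⟩ := ha N hN
        obtain ⟨r', hr'⟩ := hb N hN
        refine ⟨r + r', fun i j h1 h2 h3 => ?_⟩
        rw [← t_comm (k := i + j + 1) (by omega) (by omega) h3]
        exact hNV _ (hr _ _ (by omega) (by omega) (by omega)) _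
          (hr' _ _ (by omega) (by omega) (by omega))
      one_mem' := hZ 1 Z2.one_mem
      add_mem' := by
        intro a b ha hb V hV
        obtain ⟨N, hN, hNV⟩ := h.mul' hV
        obtain ⟨r, hr⟩ := ha N hN
        obtain ⟨r', hr'⟩ := hb N hN
        refine ⟨r + r', fun i j h1 h2 h3 => ?_⟩
        rw [t_add h3]
        exact hNV _ (hr _ _ (by omega) (by omega) h3) _ (hr' _ _ (by omega) (by omega) h3)
      zero_mem' := hZ 0 Z2.zero_mem
      neg_mem' := by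
        intro a ha V hV
        obtain ⟨r, hr⟩ := ha _ (h.inv hV)
        refine ⟨r, fun i j h1 h2 h3 => ?_⟩
        rw [t_neg h3]
        exact hr i j h1 h2 h3 }
  have hhalf : Cv 𝓕 (1 / 2) := by
    intro V hV
    obtain ⟨N1, hN1, h1⟩ := h.comm hV
    obtain ⟨N2, hN2, h2⟩ := h.comm hN1
    obtain ⟨N3, hN3, h3⟩ := h.comm hN2
    obtain ⟨N4, hN4, h4⟩ := h.conj hN3
    obtain ⟨r, hr⟩ := hK _ (inter_mem (inter_mem hN1 hN2) (inter_mem hN3 hN4))
    have hg : ∃ g ∈ N4, g ∈ HH r ∧ ¬ Pr 0 g := by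
      by_contra hc
      push Not at hc
      apply hn
      filter_upwards [hN4, h.inv hN4, hH r] with g g1 g2 g3
      exact ⟨hc g g1 g3, hc g⁻¹ g2 ((HH r).inv_mem g3)⟩
    obtain ⟨g, hg4, hgH, hgP⟩ := hg
    have hg0 : g ∈ GG 0 := GG_anti (Nat.zero_le r) (HH_le r hgH)
    have hent : ∃ q p, g (single q 1) p ∉ Z2 := by
      by_contra hc
      push Not at hc
      exact hgP (Pr_of_entries hg0 hc)
    obtain ⟨q, p, hqp⟩ := hent
    have hs : ∀ q p : ℕ, (single q (1 : ℚ) : W) p ∈ Z2 := by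
      intro q p
      rw [single_apply]
      split_ifs
      · exact Z2.one_mem
      · exact Z2.zero_mem
    have hq : r < q := by
      by_contra hc
      rw [HH_fix hgH q (not_lt.1 hc)] at hqp
      exact hqp (hs _ _)
    have hp : r < p := by
      by_contra hc
      rw [GG_coord (HH_le r hgH) _ p (not_lt.1 hc)] at hqp
      exact hqp (hs _ _)
    obtain ⟨M, hM⟩ := GG_fin hg0
    obtain ⟨b, hb, hb2⟩ := exists_half _ hqp
    refine ⟨r, fun i j hi hj hij => ?_⟩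
    obtain ⟨k, hk⟩ : ∃ k, k = M + q + p + i + j + 1 := ⟨_, rfl⟩
    have hc : g * t q k 1 * g⁻¹ = T (g (single q 1)) (lapply k) := by
      rw [t, T_conj _ (lap_single (by omega) 1), lap_comp (fun y => hM.inv.1 y k (by omega))]
    have hc3 : T (g (single q 1)) (lapply k) ∈ N3 := by
      rw [← hc]
      exact h4 _ hg4 _ (hr (t_mem_KK hq (by omega) (by omega) Z2.one_mem)).2.2
    have hy : t (k + 1) k (1 / 2) ∈ N2 := by
      rw [← hb2, ← t_T_comm (p := p) (by omega) (by omega) b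
        (by rw [hM.1 _ k (by omega), single_eq_of_ne (by omega)])]
      exact h3 _ (hr (t_mem_KK (by omega) hp (by omega) hb)).2.1 _ hc3
    have hy1 : t i k (1 / 2) ∈ N1 := by
      rw [← one_mul (1 / 2 : ℚ), ← t_comm (k := k + 1) (by omega) (by omega) (by omega)]
      exact h2 _ (hr (t_mem_KK hi (by omega) (by omega) Z2.one_mem)).1.2 _ hy
    rw [← mul_one (1 / 2 : ℚ), ← t_comm (k := k) (by omega) (by omega) hij]
    exact h1 _ hy1 _ (hr (t_mem_KK (by omega) hj (by omega) Z2.one_mem)).1.1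
  have hall : ∀ a, Cv 𝓕 a := all_of_half R hZ hhalf
  refine spread h hK TH ?_ hU
  rintro n _ ⟨i, j, a, h1, h2, h3, rfl⟩
  exact (hall a).tend h1 h2 h3

theorem HH_of_fix {n : ℕ} {g : Γ} (hg : g ∈ GG n) (h0 : g (single 0 1) = single 0 1) :
    g ∈ HH n := by
  obtain ⟨v, h, hh, hv, rfl⟩ := GG_decomp hg
  rw [LinearEquiv.mul_apply, HH_fix hh 0 (Nat.zero_le _),
    T_apply (φ := lapply 0) (hv 0 (Nat.zero_le _))] at h0
  have : v = 0 := by simpa using h0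
  rw [this, T_zero, one_mul]
  exact hh

theorem coverHG {𝓕 : Filter Γ} (h : GF 𝓕) (hH : ∀ U ∈ 𝓕, ∃ r, (HH r : Set Γ) ⊆ U)
    (hG : ∀ r, (GG r : Set Γ) ∈ 𝓕) (hn : {g : Γ | g (single 0 1) = single 0 1} ∉ 𝓕)
    {U : Set Γ} (hU : U ∈ 𝓕) : ∃ n, (GG n : Set Γ) ⊆ U := by
  have hK : ∀ U ∈ 𝓕, ∃ r, (KK r : Set Γ) ⊆ U := by
    intro V hV
    obtain ⟨r, hr⟩ := hH V hV
    exact ⟨r, fun g hg => hr hg.1⟩
  have hall : ∀ a, Cv 𝓕 a := by
    intro a V hV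
    obtain ⟨r, hr⟩ := hH V hV
    exact ⟨r, fun i j h1 h2 h3 => hr (t_mem_HH h1 h2 h3 a)⟩
  have h0 : ∀ a : ℚ, ∀ V ∈ 𝓕, ∃ r, ∀ i, r < i → t i 0 a ∈ V := by
    intro a V hV
    obtain ⟨N1, hN1, h1⟩ := h.comm hV
    obtain ⟨N2, hN2, h2⟩ := h.comm hN1
    obtain ⟨N3, hN3, h3⟩ := h.div hN2
    obtain ⟨r, hr⟩ := hH _ (inter_mem (inter_mem hN1 hN2) hN3)
    have hg : ∃ g ∈ N3, g ∈ GG r ∧ g (single 0 1) ≠ single 0 1 := by
      by_contra hc
      push Not at hc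
      apply hn
      filter_upwards [hN3, hG r] with g g1 g3
      exact hc g g1 g3
    obtain ⟨g, hg3, hgG, hg0⟩ := hg
    obtain ⟨v, k, hk, hv, rfl⟩ := GG_decomp hgG
    have hT : T v (lapply 0) ∈ N2 := by
      have := h3 _ hg3 _ (hr hk).2
      rwa [mul_inv_cancel_right] at this
    have hv0 : ∃ p, v p ≠ 0 := by
      by_contra hc
      push Not at hc
      have : v = 0 := Finsupp.ext hc
      rw [this, T_zero, one_mul] at hg0
      exact hg0 (HH_fix hk 0 (Nat.zero_le _))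
    obtain ⟨p, hp⟩ := hv0
    have hpr : r < p := by
      by_contra hc
      exact hp (hv p (not_lt.1 hc))
    refine ⟨r, fun i hi => ?_⟩
    have hy : t (i + p + 1) 0 a ∈ N1 := by
      rw [← div_mul_cancel₀ a hp, ← t_T_comm (p := p) (by omega) (by omega) _
        (hv 0 (Nat.zero_le _))]
      exact h2 _ (hr (t_mem_HH (by omega) hpr (by omega) _)).1.2 _ hT
    rw [← one_mul a, ← t_comm (k := i + p + 1) (by omega) (by omega) (by omega)]
    exact h1 _ (hr (t_mem_HH hi (by omega) (by omega) _)).1.1 _ hy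
  refine spread h hK TG ?_ hU
  rintro n _ ⟨i, j, a, h1, h2, h3, rfl⟩
  rcases h2 with h2 | rfl
  · exact (hall a).tend h1 h2 h3
  · intro V hV
    obtain ⟨r, hr⟩ := h0 a V hV
    refine mem_map.2 (mem_atTop_sets.2 ⟨r + i, fun m hm => ?_⟩)
    show P (sh n m) * t i 0 a * (P (sh n m))⁻¹ ∈ V
    rw [P_conj_t _ h3, sh_mid h1 (by omega), sh_low (Nat.zero_le _)]
    exact hr _ (by omega)

end Pool.Agent.Lib.helper22.TopCh
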