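import Mathlib

set_option autoImplicit false

namespace Pool.Agent.Lib.helper22.Tp

open Finset

theorem kiss {ι : Type} (x : ι → EuclideanSpace ℝ (Fin 3)) (r : ι → ℝ) (hr : ∀ v, 0 < r v)
    (hd : ∀ u v, u ≠ v → r u + r v ≤ dist (x u) (x v)) (u : ι) (T : Finset ι)
    (hT : ∀ v ∈ T, dist (x u) (x v) = r u + r v ∧ r u ≤ r v) : T.card ≤ 125 := by
  classical
  let z : ι → EuclideanSpace ℝ (Fin 3) := fun v => (r u + r v)⁻¹ • (x v - x u)
  have hpos : ∀ v, 0 < r u + r v := fun v => add_pos (hr u) (hr v)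
  have hz : ∀ v ∈ T, ‖z v‖ = 1 := by
    intro v hv
    simp only [z, norm_smul, norm_inv, Real.norm_eq_abs, abs_of_pos (hpos v)]
    rw [← dist_eq_norm, dist_comm, (hT v hv).1]
    exact inv_mul_cancel₀ (hpos v).ne'
  have hx : ∀ v, x v - x u = (r u + r v) • z v := by
    intro v
    simp only [z, smul_smul, mul_inv_cancel₀ (hpos v).ne', one_smul]
  have hsep : ∀ v ∈ T, ∀ w ∈ T, v ≠ w → 1 ≤ ‖z v - z w‖ := by
    intro v hv w hw hvw
    have h1 := hd v w hvw
    have h2 : x v - x w = (r v - r u) • z v + (2 * r u) • (z v - z w) - (r w - r u) • z w := by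
      have : x v - x w = (x v - x u) - (x w - x u) := by abel
      rw [this, hx v, hx w]
      module
    have h3 : ‖x v - x w‖ ≤ (r v - r u) + 2 * r u * ‖z v - z w‖ + (r w - r u) := by
      rw [h2]
      refine (norm_sub_le _ _).trans (add_le_add ((norm_add_le _ _).trans (add_le_add ?_ ?_)) ?_)
      · rw [norm_smul, hz v hv, Real.norm_eq_abs, abs_of_nonneg (by linarith [(hT v hv).2])]; simp
      · rw [norm_smul, Real.norm_eq_abs, abs_of_pos (by linarith [hr u])]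
      · rw [norm_smul, hz w hw, Real.norm_eq_abs, abs_of_nonneg (by linarith [(hT w hw).2])]; simp
    rw [dist_eq_norm] at h1
    have := hr u
    nlinarith
  have hinj : Set.InjOn z T := by
    intro v hv w hw h
    by_contra hvw
    have := hsep v hv w hw hvw
    rw [h, sub_self, norm_zero] at this
    linarith
  rw [← Finset.card_image_of_injOn hinj]
  have := Besicovitch.card_le_of_separated (T.image z) (by
    intro c hc
    obtain ⟨v, hv, rfl⟩ := Finset.mem_image.mp hc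
    rw [hz v hv]; norm_num) (by
    intro c hc d hd' hcd
    obtain ⟨v, hv, rfl⟩ := Finset.mem_image.mp hc
    obtain ⟨w, hw, rfl⟩ := Finset.mem_image.mp hd'
    exact hsep v hv w hw (fun h => hcd (by rw [h])))
  simpa using this

abbrev V : Type := Σ n : ℕ, Fin (n + 1)

def G : SimpleGraph V where
  Adj u v := u.1 + 1 = v.1 ∨ v.1 + 1 = u.1
  symm := ⟨fun _ _ h => h.symm⟩
  loopless := ⟨fun _ h => by omega⟩

def lev (N : ℕ) : Finset V := (range N).sigma (fun _ => univ)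

theorem mem_lev (N : ℕ) (v : V) : v ∈ lev N ↔ v.1 < N := by simp [lev]

theorem G_conn : G.Connected := by
  have h : ∀ n (i : Fin (n + 1)), G.Reachable ⟨0, 0⟩ ⟨n, i⟩ := by
    intro n
    induction n with
    | zero => intro i; have : i = 0 := Subsingleton.elim (α := Fin 1) _ _; subst this; rfl
    | succ n ih =>
      intro i
      exact (ih 0).trans (SimpleGraph.Adj.reachable (Or.inl rfl))
  exact ⟨fun u v => (h u.1 u.2).symm.trans (h v.1 v.2)⟩

theorem G_lf (v : V) : (G.neighborSet v).Finite := by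
  refine (lev (v.1 + 2)).finite_toSet.subset fun w hw => ?_
  have : v.1 + 1 = w.1 ∨ w.1 + 1 = v.1 := hw
  simp only [mem_coe, mem_lev]
  omega

theorem layer (n : ℕ) (f : V → ℝ) :
    (((n : ℝ) + 1) * ((∑ i : Fin (n + 1), f ⟨n, i⟩) / (n + 1) -
      (∑ j : Fin (n + 1 + 1), f ⟨n + 1, j⟩) / (n + 1 + 1))) ^ 2 ≤
      ∑ q : Fin (n + 1) × Fin (n + 1 + 1), (f ⟨n, q.1⟩ - f ⟨n + 1, q.2⟩) ^ 2 := by
  have h := sq_sum_le_card_mul_sum_sq (s := (univ : Finset (Fin (n + 1) × Fin (n + 1 + 1))))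
    (f := fun q => f ⟨n, q.1⟩ - f ⟨n + 1, q.2⟩)
  have h1 : ∑ q : Fin (n + 1) × Fin (n + 1 + 1), (f ⟨n, q.1⟩ - f ⟨n + 1, q.2⟩) =
      ((n : ℝ) + 1 + 1) * (∑ i : Fin (n + 1), f ⟨n, i⟩) -
        (n + 1) * (∑ j : Fin (n + 1 + 1), f ⟨n + 1, j⟩) := by
    rw [Finset.sum_sub_distrib, Fintype.sum_prod_type, Fintype.sum_prod_type_right]
    simp [Finset.mul_sum]
  rw [h1] at h
  simp only [card_univ, Fintype.card_prod, Fintype.card_fin] at h
  push_cast at h
  set A := ∑ i : Fin (n + 1), f ⟨n, i⟩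
  set B := ∑ j : Fin (n + 1 + 1), f ⟨n + 1, j⟩
  set E := ∑ q : Fin (n + 1) × Fin (n + 1 + 1), (f ⟨n, q.1⟩ - f ⟨n + 1, q.2⟩) ^ 2
  have hE : 0 ≤ E := Finset.sum_nonneg fun _ _ => sq_nonneg _
  have hn : (0 : ℝ) ≤ n := Nat.cast_nonneg n
  have e : ((n : ℝ) + 1) * (A / (n + 1) - B / (n + 1 + 1)) =
      (((n : ℝ) + 1 + 1) * A - (n + 1) * B) / (n + 1 + 1) := by
    field_simp
  rw [e, div_pow, div_le_iff₀ (by positivity)]
  nlinarith

theorem sum_inv_sq (N : ℕ) : ∑ n ∈ range N, (1 / ((n : ℝ) + 1)) ^ 2 ≤ 2 - 2 / ((N : ℝ) + 1) := by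
  induction N with
  | zero => simp
  | succ N ih =>
    rw [sum_range_succ]
    push_cast
    have hn : (0 : ℝ) ≤ N := Nat.cast_nonneg N
    have : (1 / ((N : ℝ) + 1)) ^ 2 ≤ 2 / ((N : ℝ) + 1) - 2 / ((N : ℝ) + 1 + 1) := by
      rw [div_sub_div _ _ (by positivity) (by positivity), div_pow, div_le_div_iff₀ (by positivity)
        (by positivity)]
      nlinarith
    linarith

theorem G_trans (f : V → ℝ) (hf : (Function.support f).Finite) (h0 : f ⟨0, 0⟩ = 1) :
    (1 / 2 : ℝ) ≤ ∑' p : {p : V × V // G.Adj p.1 p.2}, (f p.1.1 - f p.1.2) ^ 2 := by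
  classical
  obtain ⟨N, hN⟩ : ∃ N, ∀ v : V, N ≤ v.1 → f v = 0 := by
    obtain ⟨M, hM⟩ := (hf.image (fun v : V => v.1)).bddAbove
    refine ⟨M + 1, fun v hv => ?_⟩
    by_contra h
    have := hM ⟨v, h, rfl⟩
    simp only at this
    omega
  have hsum : Summable (fun p : {p : V × V // G.Adj p.1 p.2} => (f p.1.1 - f p.1.2) ^ 2) := by
    refine summable_of_hasFiniteSupport ?_
    refine Set.Finite.subset (Set.Finite.preimage Subtype.val_injective.injOn
      (lev (N + 1) ×ˢ lev (N + 1)).finite_toSet) ?_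
    intro p hp
    have hadj : p.1.1.1 + 1 = p.1.2.1 ∨ p.1.2.1 + 1 = p.1.1.1 := p.2
    simp only [Set.mem_preimage, coe_product, Set.mem_prod, mem_coe, mem_lev]
    by_contra hc
    apply hp
    have h1 : N ≤ p.1.1.1 := by omega
    have h2 : N ≤ p.1.2.1 := by omega
    simp [hN _ h1, hN _ h2]
  let e : (Σ n : ℕ, Fin (n + 1) × Fin (n + 1 + 1)) → {p : V × V // G.Adj p.1 p.2} :=
    fun q => ⟨(⟨q.1, q.2.1⟩, ⟨q.1 + 1, q.2.2⟩), Or.inl rfl⟩
  have he : Function.Injective e := by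
    rintro ⟨n, i, j⟩ ⟨m, i', j'⟩ h
    have hn : n = m := congrArg (fun p : {p : V × V // G.Adj p.1 p.2} => p.1.1.1) h
    subst hn
    have h1 : (⟨n, i⟩ : V) = ⟨n, i'⟩ := congrArg (fun p : {p : V × V // G.Adj p.1 p.2} => p.1.1) h
    have h2 : (⟨n + 1, j⟩ : V) = ⟨n + 1, j'⟩ :=
      congrArg (fun p : {p : V × V // G.Adj p.1 p.2} => p.1.2) h
    rw [eq_of_heq (Sigma.mk.inj h1).2, eq_of_heq (Sigma.mk.inj h2).2]
  refine le_trans ?_ (hsum.sum_le_tsum (((range N).sigma (fun _ => univ)).map ⟨e, he⟩)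
    (fun _ _ => sq_nonneg _))
  rw [Finset.sum_map, Finset.sum_sigma]
  simp only [Function.Embedding.coeFn_mk, e]
  let a : ℕ → ℝ := fun n => (∑ i : Fin (n + 1), f ⟨n, i⟩) / (n + 1)
  have ha0 : a 0 = 1 := by simp [a, h0]
  have haN : a N = 0 := by
    simp only [a]
    rw [Finset.sum_eq_zero fun i _ => hN _ le_rfl, zero_div]
  have htel : ∑ n ∈ range N, (a n - a (n + 1)) = 1 := by
    rw [Finset.sum_range_sub', ha0, haN, sub_zero]
  have hcs := Finset.sum_mul_sq_le_sq_mul_sq (range N) (fun n => 1 / ((n : ℝ) + 1))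
    (fun n => ((n : ℝ) + 1) * (a n - a (n + 1)))
  have h1 : ∑ n ∈ range N, 1 / ((n : ℝ) + 1) * (((n : ℝ) + 1) * (a n - a (n + 1))) = 1 := by
    refine Eq.trans (Finset.sum_congr rfl fun n _ => ?_) htel
    have hn : (0 : ℝ) ≤ n := Nat.cast_nonneg n
    field_simp
  rw [h1] at hcs
  have h2 : ∑ n ∈ range N, (((n : ℝ) + 1) * (a n - a (n + 1))) ^ 2 ≤
      ∑ n ∈ range N, ∑ q : Fin (n + 1) × Fin (n + 1 + 1), (f ⟨n, q.1⟩ - f ⟨n + 1, q.2⟩) ^ 2 := by
    refine Finset.sum_le_sum fun n _ => ?_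
    have := layer n f
    simp only [a]
    push_cast
    exact this
  have h3 := sum_inv_sq N
  have h4 : (0 : ℝ) ≤ 2 / ((N : ℝ) + 1) := by positivity
  have h5 : 0 ≤ ∑ n ∈ range N, (((n : ℝ) + 1) * (a n - a (n + 1))) ^ 2 :=
    Finset.sum_nonneg fun _ _ => sq_nonneg _
  nlinarith

/-- harmonic sums -/
noncomputable def Hs (n : ℕ) : ℝ := ∑ k ∈ range n, 1 / ((k : ℝ) + 1)

theorem half {W : Type} (ℓ : W → V) (hℓ : Function.Injective ℓ) (R : W → W → Prop)
    (hR : ∀ u (T : Finset W), (∀ v ∈ T, R u v) → T.card ≤ 125) (N : ℕ) (s : Finset (W × W))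
    (hs : ∀ p ∈ s, R p.1 p.2) :
    ∑ p ∈ s, (if (ℓ p.1).1 < N + 1 then (2 / (((ℓ p.1).1 : ℝ) + 1)) ^ 2 else 0) ≤
      500 * Hs (N + 1) := by
  classical
  let g : V → ℝ := fun v => if v.1 < N + 1 then (2 / ((v.1 : ℝ) + 1)) ^ 2 else 0
  have hg : ∀ v, 0 ≤ g v := fun v => by simp only [g]; split_ifs <;> positivity
  have h1 : ∑ p ∈ s, g (ℓ p.1) ≤ 125 * ∑ u ∈ s.image Prod.fst, g (ℓ u) := by
    rw [← Finset.sum_fiberwise_of_maps_to (s := s) (t := s.image Prod.fst) (g := Prod.fst)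
      (fun p hp => mem_image_of_mem _ hp), Finset.mul_sum]
    refine Finset.sum_le_sum fun u _ => ?_
    rw [Finset.sum_congr rfl (g := fun _ => g (ℓ u)) (fun p hp => by rw [(mem_filter.mp hp).2]),
      sum_const, nsmul_eq_mul]
    refine mul_le_mul_of_nonneg_right ?_ (hg _)
    have hc : (s.filter (fun p => p.1 = u)).card = ((s.filter (fun p => p.1 = u)).image Prod.snd).card := by
      rw [Finset.card_image_of_injOn]
      intro p hp q hq h
      exact Prod.ext ((mem_filter.mp hp).2.trans (mem_filter.mp hq).2.symm) h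
    rw [hc]
    have := hR u ((s.filter (fun p => p.1 = u)).image Prod.snd) (by
      intro v hv
      obtain ⟨p, hp, rfl⟩ := mem_image.mp hv
      rw [← (mem_filter.mp hp).2]
      exact hs p (mem_filter.mp hp).1)
    exact_mod_cast this
  have h2 : ∑ u ∈ s.image Prod.fst, g (ℓ u) ≤ ∑ v ∈ lev (N + 1), g v := by
    rw [← Finset.sum_image (s := s.image Prod.fst) (g := ℓ) (f := g) hℓ.injOn,
      ← Finset.sum_filter_add_sum_filter_not _ (fun v : V => v.1 < N + 1)]
    rw [Finset.sum_eq_zero (s := filter (fun v : V => ¬ v.1 < N + 1) _) (fun v hv => by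
      simp only [g, if_neg (mem_filter.mp hv).2]), add_zero]
    refine Finset.sum_le_sum_of_subset_of_nonneg (fun v hv => ?_) (fun v _ _ => hg v)
    exact (mem_lev _ _).mpr (mem_filter.mp hv).2
  have h3 : ∑ v ∈ lev (N + 1), g v = 4 * Hs (N + 1) := by
    rw [lev, Finset.sum_sigma, Hs, Finset.mul_sum]
    refine Finset.sum_congr rfl fun n hn => ?_
    simp only [g, if_pos (mem_range.mp hn), sum_const, card_univ, Fintype.card_fin, nsmul_eq_mul]
    have hn : (0 : ℝ) ≤ n := Nat.cast_nonneg n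
    push_cast
    field_simp
    ring
  have : ∑ p ∈ s, g (ℓ p.1) ≤ 500 * Hs (N + 1) := by linarith
  exact this

theorem recur {W : Type} (ℓ : W → V) (hℓ : Function.Injective ℓ) (A : W → W → Prop)
    (hA : ∀ u v, A u v → G.Adj (ℓ u) (ℓ v)) (hAs : ∀ u v, A u v → A v u) (r : W → ℝ)
    (hR : ∀ u (T : Finset W), (∀ v ∈ T, A u v ∧ r u ≤ r v) → T.card ≤ 125) (o : W) (c : ℝ)
    (hc : 0 < c) : ∃ f : W → ℝ, (Function.support f).Finite ∧ f o = 1 ∧
      ∑' p : {p : W × W // A p.1 p.2}, (f p.1.1 - f p.1.2) ^ 2 < c := by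
  classical
  set B := Hs (ℓ o).1 with hB
  have hB0 : 0 ≤ B := Finset.sum_nonneg fun _ _ => by positivity
  obtain ⟨N, hN1, hN2⟩ : ∃ N, (ℓ o).1 ≤ N ∧ 2 * B + 1 + (2000 / c + 1) ≤ Hs N := by
    have := (Real.tendsto_sum_range_one_div_nat_succ_atTop.eventually_ge_atTop
      (2 * B + 1 + (2000 / c + 1))).and (Filter.eventually_ge_atTop (ℓ o).1)
    obtain ⟨N, h1, h2⟩ := this.exists
    exact ⟨N, h2, h1⟩
  set S := Hs N - B with hS
  have hc' : 0 < 2000 / c := by positivity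
  have hS0 : 0 < S := by linarith
  let φ : ℕ → ℝ := fun n => if n ≤ N then (Hs N - Hs n) / S else 0
  have hφ : ∀ n, (φ n - φ (n + 1)) ^ 2 = (if n < N then (1 / ((n : ℝ) + 1)) ^ 2 else 0) / S ^ 2 := by
    intro n
    simp only [φ]
    rcases lt_trichotomy n N with h | h | h
    · rw [if_pos h.le, if_pos (by omega), if_pos h, ← div_pow, ← sub_div]
      simp [Hs, sum_range_succ]
    · subst h; simp
    · rw [if_neg (by omega), if_neg (by omega), if_neg (by omega)]; simp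
  let g : V → ℝ := fun v => if v.1 < N + 1 then (2 / ((v.1 : ℝ) + 1)) ^ 2 else 0
  have hg : ∀ v, 0 ≤ g v := fun v => by simp only [g]; split_ifs <;> positivity
  have hb : ∀ u v : V, u.1 + 1 = v.1 → (φ u.1 - φ v.1) ^ 2 ≤ g u / S ^ 2 ∧
      (φ u.1 - φ v.1) ^ 2 ≤ g v / S ^ 2 := by
    intro u v h
    rw [← h, hφ]
    have hn : (0 : ℝ) ≤ u.1 := Nat.cast_nonneg _
    constructor
    · refine div_le_div_of_nonneg_right ?_ (by positivity)
      split_ifs with h1
      · simp only [g, if_pos (show u.1 < N + 1 by omega)]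
        gcongr; norm_num
      · exact hg u
    · refine div_le_div_of_nonneg_right ?_ (by positivity)
      split_ifs with h1
      · simp only [g, if_pos (show v.1 < N + 1 by omega), ← h]
        push_cast
        gcongr ?_ ^ 2
        rw [div_le_div_iff₀ (by positivity) (by positivity)]
        linarith
      · exact hg v
  have hb' : ∀ u v : V, G.Adj u v → (φ u.1 - φ v.1) ^ 2 ≤ g u / S ^ 2 ∧
      (φ u.1 - φ v.1) ^ 2 ≤ g v / S ^ 2 := by
    rintro u v (h | h)
    · exact hb u v h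
    · rw [← neg_sub, neg_sq]; exact (hb v u h).symm
  refine ⟨fun w => φ (ℓ w).1, ?_, ?_, ?_⟩
  · refine Set.Finite.subset (Set.Finite.preimage hℓ.injOn (lev (N + 1)).finite_toSet) ?_
    intro w hw
    simp only [Set.mem_preimage, mem_coe, mem_lev]
    by_contra h
    apply hw
    simp only [φ, if_neg (show ¬ (ℓ w).1 ≤ N by omega)]
  · simp only [φ, if_pos hN1]
    exact div_self hS0.ne'
  · have hH : Hs (N + 1) ≤ 2 * S := by
      have : Hs (N + 1) = Hs N + 1 / ((N : ℝ) + 1) := by simp [Hs, sum_range_succ]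
      have h2 : 1 / ((N : ℝ) + 1) ≤ 1 := by
        rw [div_le_one (by positivity)]; linarith [(Nat.cast_nonneg N : (0 : ℝ) ≤ N)]
      linarith
    have hlt : 1000 * Hs (N + 1) / S ^ 2 < c := by
      rw [div_lt_iff₀ (by positivity)]
      have h1 : 2000 / c < S := by linarith
      rw [div_lt_iff₀ hc] at h1
      nlinarith
    refine lt_of_le_of_lt (Real.tsum_le_of_sum_le (fun _ => sq_nonneg _) fun s => ?_) hlt
    let s1 := (s.filter (fun p => r p.1.1 ≤ r p.1.2)).map (Function.Embedding.subtype _)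
    let s2 := ((s.filter (fun p => ¬ r p.1.1 ≤ r p.1.2)).map (Function.Embedding.subtype _)).map
      (Equiv.prodComm W W).toEmbedding
    have e1 := half ℓ hℓ (fun u v => A u v ∧ r u ≤ r v) hR N s1 (by
      intro p hp
      obtain ⟨q, hq, rfl⟩ := mem_map.mp hp
      exact ⟨q.2, (mem_filter.mp hq).2⟩)
    have e2 := half ℓ hℓ (fun u v => A u v ∧ r u ≤ r v) hR N s2 (by
      intro p hp
      obtain ⟨q', hq', rfl⟩ := mem_map.mp hp
      obtain ⟨q, hq, rfl⟩ := mem_map.mp hq'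
      exact ⟨hAs _ _ q.2, (not_le.mp (mem_filter.mp hq).2).le⟩)
    simp only [s1, s2, Finset.sum_map] at e1 e2
    rw [← Finset.sum_filter_add_sum_filter_not s (fun p => r p.1.1 ≤ r p.1.2)]
    have f1 : ∑ p ∈ s.filter (fun p => r p.1.1 ≤ r p.1.2), (φ (ℓ p.1.1).1 - φ (ℓ p.1.2).1) ^ 2 ≤
        500 * Hs (N + 1) / S ^ 2 := by
      refine le_trans (Finset.sum_le_sum fun p _ => (hb' _ _ (hA _ _ p.2)).1) ?_
      rw [← Finset.sum_div]
      exact div_le_div_of_nonneg_right e1 (by positivity)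
    have f2 : ∑ p ∈ s.filter (fun p => ¬ r p.1.1 ≤ r p.1.2), (φ (ℓ p.1.1).1 - φ (ℓ p.1.2).1) ^ 2 ≤
        500 * Hs (N + 1) / S ^ 2 := by
      refine le_trans (Finset.sum_le_sum fun p _ => (hb' _ _ (hA _ _ p.2)).2) ?_
      rw [← Finset.sum_div]
      exact div_le_div_of_nonneg_right e2 (by positivity)
    have : 1000 * Hs (N + 1) / S ^ 2 = 500 * Hs (N + 1) / S ^ 2 + 500 * Hs (N + 1) / S ^ 2 := by ring
    linarith

end Pool.Agent.Lib.helper22.Tp
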