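import Mathlib

set_option autoImplicit false

namespace Pool.Agent.Lib.helper22.UTower

open Set Filter Topology

def A : ℕ → Type
  | 0 => ℕ → ℕ
  | n + 1 => {q : Ultrafilter (A n) // ∀ a, ({a}ᶜ : Set (A n)) ∈ q}

def Tw : Type := Σ n, A n

def mk (n : ℕ) (a : A n) : Tw := ⟨n, a⟩
def lev (x : Tw) : ℕ := x.1
def uf {n : ℕ} (q : A (n + 1)) : Ultrafilter (A n) := q.1

lemma mk_inj (n : ℕ) : Function.Injective (mk n) := sigma_mk_injective
@[simp] lemma lev_mk (n : ℕ) (a : A n) : lev (mk n a) = n := rfl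

instance : TopologicalSpace Tw where
  IsOpen U := ∀ n (q : A (n + 1)), mk (n + 1) q ∈ U → mk n ⁻¹' U ∈ uf q
  isOpen_univ := fun _ _ _ => univ_mem
  isOpen_inter := fun _ _ hs ht n q h => inter_mem (hs n q h.1) (ht n q h.2)
  isOpen_sUnion := fun S hS n q h => by
    obtain ⟨t, ht, hp⟩ := h
    exact mem_of_superset (hS t ht n q hp) fun a ha => ⟨t, ht, ha⟩

lemma isOpen_iff (U : Set Tw) :
    IsOpen U ↔ ∀ n (q : A (n + 1)), mk (n + 1) q ∈ U → mk n ⁻¹' U ∈ uf q := Iff.rfl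

instance : T1Space Tw := by
  refine ⟨fun x => ⟨?_⟩⟩
  intro n q _
  by_cases h : ∃ a, mk n a = x
  · obtain ⟨a, rfl⟩ := h
    exact mem_of_superset (q.2 a) fun b hb h => hb (mk_inj n h)
  · exact mem_of_superset univ_mem fun b _ hb => h ⟨b, hb⟩

lemma open_low (j : ℕ) (S : Set Tw) (hS : ∀ x ∈ S, lev x ≤ j) :
    IsOpen ({x | lev x < j} ∪ S) := by
  intro n q h
  refine mem_of_superset univ_mem fun b _ => Or.inl ?_
  rcases h with h | h
  · have : n + 1 < j := h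
    show n < j
    omega
  · have : n + 1 ≤ j := hS _ h
    show n < j
    omega

lemma dich (j : ℕ) (B : Set Tw) : ∀ (m : ℕ) (a : A m),
    (∃ V, IsOpen V ∧ mk m a ∈ V ∧ ∀ y ∈ V, lev y = j → y ∈ B) ∨
    (∃ V, IsOpen V ∧ mk m a ∈ V ∧ ∀ y ∈ V, lev y = j → y ∉ B) := by
  have low : ∀ x : Tw, lev x ≤ j →
      (∃ V, IsOpen V ∧ x ∈ V ∧ ∀ y ∈ V, lev y = j → y ∈ B) ∨
      (∃ V, IsOpen V ∧ x ∈ V ∧ ∀ y ∈ V, lev y = j → y ∉ B) := by
    intro x hx
    have ho := open_low j {x} (by simpa using hx)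
    by_cases hB : x ∈ B
    · refine Or.inl ⟨_, ho, Or.inr rfl, ?_⟩
      rintro y (hy | rfl) h
      · exact absurd h (ne_of_lt hy)
      · exact hB
    · refine Or.inr ⟨_, ho, Or.inr rfl, ?_⟩
      rintro y (hy | rfl) h
      · exact absurd h (ne_of_lt hy)
      · exact hB
  have step : ∀ (C : Set Tw) (m : ℕ) (q : A (m + 1)), j < m + 1 →
      {b : A m | ∃ V, IsOpen V ∧ mk m b ∈ V ∧ ∀ y ∈ V, lev y = j → y ∈ C} ∈ uf q →
      ∃ V, IsOpen V ∧ mk (m + 1) q ∈ V ∧ ∀ y ∈ V, lev y = j → y ∈ C := by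
    intro C m q hj h
    let W : Set Tw := ⋃₀ {V | IsOpen V ∧ ∀ y ∈ V, lev y = j → y ∈ C}
    have hW : IsOpen W := isOpen_sUnion fun V hV => hV.1
    refine ⟨insert (mk (m + 1) q) W, ?_, mem_insert _ _, ?_⟩
    · intro n r hr
      rcases hr with hr | hr
      · have hn : n = m := by
          have := congrArg lev hr
          simpa using this
        subst hn
        have := mk_inj _ hr
        subst this
        refine mem_of_superset h ?_
        rintro b ⟨V, h1, h2, h3⟩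
        exact Or.inr ⟨V, ⟨h1, h3⟩, h2⟩
      · exact mem_of_superset (hW n r hr) fun b hb => Or.inr hb
    · rintro y (rfl | ⟨V, hV, hy⟩) hl
      · simp at hl; omega
      · exact hV.2 y hy hl
  intro m
  induction m with
  | zero => intro a; exact low _ (Nat.zero_le _)
  | succ m ih =>
    intro q
    by_cases hj : m + 1 ≤ j
    · exact low _ hj
    · rcases (uf q).mem_or_compl_mem
        {b : A m | ∃ V, IsOpen V ∧ mk m b ∈ V ∧ ∀ y ∈ V, lev y = j → y ∈ B} with h | h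
      · exact Or.inl (step B m q (by omega) h)
      · refine Or.inr (step Bᶜ m q (by omega) (mem_of_superset h ?_))
        intro b hb
        exact (ih b).resolve_left hb

lemma shrink (j : ℕ) (F : Set Tw) (hF : F.Finite) : ∀ Z : Set Tw, Z.Infinite →
    (∀ z ∈ Z, lev z = j) → ∃ Z' ⊆ Z, Z'.Infinite ∧ ∃ V, IsOpen V ∧ F ⊆ V ∧ ∀ z ∈ Z', z ∉ V := by
  induction F, hF using Set.Finite.induction_on with
  | empty => intro Z hZ _; exact ⟨Z, Subset.rfl, hZ, ∅, isOpen_empty, Subset.rfl, by simp⟩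
  | @insert x s _ _ ih =>
    intro Z hZ hl
    obtain ⟨Y, hY, hYi, V, hV, hsV, hYV⟩ := ih Z hZ hl
    let f : ℕ ↪ Y := hYi.natEmbedding Y
    have hf : Function.Injective fun n => (f n : Tw) :=
      fun a b h => f.injective (Subtype.ext h)
    have h1 : Function.Injective fun n => (f (2 * n) : Tw) := fun a b h => by
      have := hf h
      omega
    have h2 : Function.Injective fun n => (f (2 * n + 1) : Tw) := fun a b h => by
      have := hf h
      omega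
    rcases dich j (range fun n => (f (2 * n) : Tw)) x.1 x.2 with ⟨W, hW, hx, h⟩ | ⟨W, hW, hx, h⟩
    · refine ⟨range fun n => (f (2 * n + 1) : Tw), ?_, infinite_range_of_injective h2, V ∪ W,
        hV.union hW, ?_, ?_⟩
      · rintro _ ⟨n, rfl⟩; exact hY (f _).2
      · rintro y (rfl | hy)
        · exact Or.inr hx
        · exact Or.inl (hsV hy)
      · rintro _ ⟨n, rfl⟩ (hz | hz)
        · exact hYV _ (f _).2 hz
        · obtain ⟨k, hk⟩ := h _ hz (hl _ (hY (f _).2))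
          have := hf hk
          omega
    · refine ⟨range fun n => (f (2 * n) : Tw), ?_, infinite_range_of_injective h1, V ∪ W,
        hV.union hW, ?_, ?_⟩
      · rintro _ ⟨n, rfl⟩; exact hY (f _).2
      · rintro y (rfl | hy)
        · exact Or.inr hx
        · exact Or.inl (hsV hy)
      · rintro _ ⟨n, rfl⟩ (hz | hz)
        · exact hYV _ (f _).2 hz
        · exact h _ hz (hl _ (hY (f _).2)) ⟨n, rfl⟩

theorem compact_finite {K : Set Tw} (hK : IsCompact K) : K.Finite := by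
  classical
  obtain ⟨N, hN⟩ : ∃ N, ∀ x ∈ K, lev x < N := by
    obtain ⟨t, -, h⟩ := hK.elim_nhds_subcover (fun x => {y | lev y < lev x + 1}) (by
      intro x _
      have := open_low (lev x + 1) ∅ (by simp)
      rw [union_empty] at this
      exact this.mem_nhds (by simp))
    refine ⟨t.sup fun x => lev x + 1, fun x hx => ?_⟩
    obtain ⟨y, hy, h'⟩ := mem_iUnion₂.1 (h hx)
    exact lt_of_lt_of_le h' (Finset.le_sup (f := fun x => lev x + 1) hy)
  have : ∀ d j, j + d = N → {x ∈ K | j ≤ lev x}.Finite := by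
    intro d
    induction d with
    | zero =>
      intro j hj
      refine finite_empty.subset ?_
      rintro x ⟨h1, h2⟩
      have := hN x h1
      omega
    | succ d ih =>
      intro j hj
      have hF := ih (j + 1) (by omega)
      have : {x ∈ K | lev x = j}.Finite := by
        by_contra hinf
        obtain ⟨Z, hZ, hZi, V, hV, hFV, hZV⟩ := shrink j _ hF _ hinf fun z hz => hz.2
        obtain ⟨t, -, h⟩ := hK.elim_nhds_subcover
          (fun x => if lev x ≤ j then {y | lev y < j} ∪ {x} else V) (by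
            intro x hx
            split_ifs with h
            · exact (open_low j {x} (by simpa using h)).mem_nhds (Or.inr rfl)
            · exact hV.mem_nhds (hFV ⟨hx, by omega⟩))
        refine hZi (t.finite_toSet.subset fun z hz => ?_)
        obtain ⟨y, hy, h'⟩ := mem_iUnion₂.1 (h (hZ hz).1)
        split_ifs at h' with h2
        · rcases h' with h' | h'
          · exact absurd (hZ hz).2 (ne_of_lt h')
          · have : z = y := h'
            rw [this]; exact hy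
        · exact absurd h' (hZV z hz)
      refine (hF.union this).subset ?_
      rintro x ⟨h1, h2⟩
      rcases eq_or_lt_of_le h2 with h | h
      · exact Or.inr ⟨h1, h.symm⟩
      · exact Or.inl ⟨h1, h⟩
  exact (this N 0 (by simp)).subset fun x hx => ⟨hx, Nat.zero_le _⟩

lemma conv (n : ℕ) (u : Ultrafilter Tw) (h : {x | lev x ≤ n} ∈ u) : ∃ x, (u : Filter Tw) ≤ 𝓝 x := by
  by_cases hp : ∃ x, ({x} : Set Tw) ∈ u
  · obtain ⟨x, hx⟩ := hp
    obtain ⟨y, -, rfl⟩ := Ultrafilter.eq_pure_of_finite_mem (finite_singleton x) hx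
    exact ⟨y, pure_le_nhds y⟩
  obtain ⟨m, hm⟩ : ∃ m, range (mk m) ∈ u := by
    have : (⋃ m ∈ Iic n, range (mk m)) ∈ u :=
      mem_of_superset h fun x hx => mem_biUnion hx ⟨x.2, rfl⟩
    obtain ⟨m, -, hm⟩ := (Ultrafilter.finite_biUnion_mem_iff (finite_Iic n)).1 this
    exact ⟨m, hm⟩
  let q : Ultrafilter (A m) := u.comap (mk_inj m) hm
  have hq : ∀ a, ({a}ᶜ : Set (A m)) ∈ q := by
    intro a
    have : ({mk m a}ᶜ : Set Tw) ∈ u := Ultrafilter.compl_mem_iff_notMem.2 fun h => hp ⟨_, h⟩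
    exact ⟨_, this, fun b hb h => hb (by rw [show b = a from h]; rfl)⟩
  refine ⟨mk (m + 1) ⟨q, hq⟩, le_nhds_iff.2 fun s hs hso => ?_⟩
  obtain ⟨t, ht, hts⟩ := hso m _ hs
  refine mem_of_superset (inter_mem ht hm) ?_
  rintro _ ⟨h1, a, rfl⟩
  exact hts h1

lemma markov_aux (n : ℕ) (𝒰 : Set (Set Tw)) (h1 : ∀ U ∈ 𝒰, IsOpen U)
    (h2 : ∀ F : Set Tw, F.Finite → ∃ U ∈ 𝒰, F ⊆ U) :
    ∃ 𝓕 : Set (Set Tw), 𝓕.Finite ∧ 𝓕 ⊆ 𝒰 ∧
      ∀ t : Fin n → Tw, (∀ i, lev (t i) ≤ n) → ∃ U ∈ 𝓕, ∀ i, t i ∈ U := by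
  classical
  by_contra hne
  push Not at hne
  have : ∀ 𝓕 : Finset 𝒰, ∃ t : Fin n → Tw, (∀ i, lev (t i) ≤ n) ∧
      ∀ U ∈ 𝓕, ∃ i, t i ∉ U.1 := by
    intro 𝓕
    obtain ⟨t, ht, h⟩ := hne (Subtype.val '' (𝓕 : Set 𝒰)) (𝓕.finite_toSet.image _)
      (by rintro _ ⟨U, -, rfl⟩; exact U.2)
    exact ⟨t, ht, fun U hU => h _ ⟨U, hU, rfl⟩⟩
  choose t ht h using this
  let W : Ultrafilter (Finset 𝒰) := Ultrafilter.of atTop
  have hW : (W : Filter (Finset 𝒰)) ≤ atTop := Ultrafilter.of_le _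
  have : ∀ i, ∃ x, ((W.map fun 𝓕 => t 𝓕 i : Ultrafilter Tw) : Filter Tw) ≤ 𝓝 x := fun i =>
    conv n _ (Ultrafilter.mem_map.2 (mem_of_superset univ_mem fun 𝓕 _ => ht 𝓕 i))
  choose x hx using this
  obtain ⟨U, hU, hxU⟩ := h2 (range x) (finite_range x)
  have e1 : ∀ᶠ 𝓕 in (W : Filter (Finset 𝒰)), ∀ i, t 𝓕 i ∈ U :=
    eventually_all.2 fun i => hx i ((h1 U hU).mem_nhds (hxU ⟨i, rfl⟩))
  have e2 : ∀ᶠ 𝓕 in (W : Filter (Finset 𝒰)), {(⟨U, hU⟩ : 𝒰)} ≤ 𝓕 := hW (eventually_ge_atTop _)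
  obtain ⟨𝓕, h3, h4⟩ := (e1.and e2).exists
  obtain ⟨i, hi⟩ := h 𝓕 ⟨U, hU⟩ (h4 (Finset.mem_singleton_self _))
  exact hi (h3 i)

/-- a Markov strategy in the game with finite selections -/
theorem markov : ∃ σ : Set (Set Tw) → ℕ → Set (Set Tw), ∀ 𝒰 : ℕ → Set (Set Tw),
    (∀ n, (∀ U ∈ 𝒰 n, IsOpen U) ∧ ∀ K : Set Tw, IsCompact K → ∃ U ∈ 𝒰 n, K ⊆ U) →
    (∀ n, (σ (𝒰 n) n).Finite ∧ σ (𝒰 n) n ⊆ 𝒰 n) ∧
      ∀ K : Set Tw, IsCompact K → ∃ n, ∃ U ∈ σ (𝒰 n) n, K ⊆ U := by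
  have : ∀ (𝒰 : Set (Set Tw)) (n : ℕ), ∃ 𝓕 : Set (Set Tw),
      ((∀ U ∈ 𝒰, IsOpen U) ∧ ∀ K : Set Tw, IsCompact K → ∃ U ∈ 𝒰, K ⊆ U) →
      𝓕.Finite ∧ 𝓕 ⊆ 𝒰 ∧
      ∀ t : Fin n → Tw, (∀ i, lev (t i) ≤ n) → ∃ U ∈ 𝓕, ∀ i, t i ∈ U := by
    intro 𝒰 n
    by_cases h : (∀ U ∈ 𝒰, IsOpen U) ∧ ∀ K : Set Tw, IsCompact K → ∃ U ∈ 𝒰, K ⊆ U
    · obtain ⟨𝓕, h'⟩ := markov_aux n 𝒰 h.1 fun F hF => h.2 F hF.isCompact
      exact ⟨𝓕, fun _ => h'⟩
    · exact ⟨∅, fun h' => absurd h' h⟩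
  choose σ hσ using this
  refine ⟨σ, fun 𝒰 h => ⟨fun n => ⟨(hσ _ n (h n)).1, (hσ _ n (h n)).2.1⟩, fun K hK => ?_⟩⟩
  have hF := compact_finite hK
  let l := hF.toFinset.toList
  let n := l.length + hF.toFinset.sup lev
  let x0 : Tw := mk 0 fun _ => 0
  obtain ⟨U, hU, hU'⟩ := (hσ _ n (h n)).2.2 (fun i => l.getD i x0) (by
    intro i
    by_cases hi : (i : ℕ) < l.length
    · rw [List.getD_eq_getElem _ _ hi]
      have : l[(i : ℕ)] ∈ hF.toFinset := Finset.mem_toList.1 (List.getElem_mem hi)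
      exact (Finset.le_sup (f := lev) this).trans (Nat.le_add_left _ _)
    · rw [List.getD_eq_default _ _ (not_lt.1 hi)]
      exact Nat.zero_le _)
  refine ⟨n, U, hU, fun x hx => ?_⟩
  have : x ∈ l := Finset.mem_toList.2 (hF.mem_toFinset.2 hx)
  obtain ⟨i, hi, rfl⟩ := List.getElem_of_mem this
  have := hU' ⟨i, lt_of_lt_of_le hi (Nat.le_add_right _ _)⟩
  rwa [List.getD_eq_getElem _ _ hi] at this

/-- a sequence of k-covers with no covering selection -/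
theorem noRoth : ∃ 𝒰 : ℕ → Set (Set Tw),
    (∀ n, (∀ U ∈ 𝒰 n, IsOpen U) ∧ ∀ K : Set Tw, IsCompact K → ∃ U ∈ 𝒰 n, K ⊆ U) ∧
    ∀ U : ℕ → Set Tw, (∀ n, U n ∈ 𝒰 n) → ∃ x, ∀ n, x ∉ U n := by
  let W : ℕ → ℕ → Set Tw := fun n s =>
    ⋃₀ {V | IsOpen V ∧ ∀ a : ℕ → ℕ, mk 0 a ∈ V → a n ≠ s}
  refine ⟨fun n => range (W n), fun n => ⟨?_, fun K hK => ?_⟩, fun U hU => ?_⟩
  · rintro _ ⟨s, rfl⟩
    exact isOpen_sUnion fun V hV => hV.1
  · by_contra hne
    push Not at hne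
    have : ∀ s, ∃ x ∈ K, x ∉ W n s := fun s => not_subset.1 (hne _ ⟨s, rfl⟩)
    choose x hx hx' using this
    have hinj : Function.Injective x := by
      intro s s' hss
      by_contra hs
      rcases dich 0 {y | ∃ a : ℕ → ℕ, y = mk 0 a ∧ a n = s} (x s).1 (x s).2 with
        ⟨V, hV, h1, h⟩ | ⟨V, hV, h1, h⟩
      · refine hx' s' ⟨V, ⟨hV, fun a ha => ?_⟩, hss ▸ h1⟩
        obtain ⟨b, hb, hb'⟩ := h _ ha rfl
        have : a = b := mk_inj 0 hb
        rw [this, hb']; exact hs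
      · exact hx' s ⟨V, ⟨hV, fun a ha h' => h _ ha rfl ⟨a, rfl, h'⟩⟩, h1⟩
    exact infinite_of_injective_forall_mem hinj hx (compact_finite hK)
  · choose s hs using hU
    refine ⟨mk 0 s, fun n h => ?_⟩
    rw [← hs n] at h
    obtain ⟨V, hV, h⟩ := h
    exact hV.2 s h rfl

end Pool.Agent.Lib.helper22.UTower
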