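import Mathlib

set_option autoImplicit false

namespace Pool.Agent.Lib.helper22.Ultra

open Filter

/-- The ultrapower by `W` is an enlargement for subsets of `X`: every family of subsets of `X`
with the finite intersection property has a common element in the star-images of its members
(the star-image of `A` in the ultrapower `Germ W X` is the set of classes of maps that lie in `A`
for `W`-almost every index). -/
def IsEnlarging {I : Type} (W : Ultrafilter I) (X : Type) : Prop :=
  ∀ 𝒜 : Set (Set X), (∀ T : Finset (Set X), (T : Set (Set X)) ⊆ 𝒜 → (⋂₀ (T : Set (Set X))).Nonempty) →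
    ∃ g : Germ (W : Filter I) X, ∀ A ∈ 𝒜, Germ.LiftPred (fun a => a ∈ A) g

/-- the monad of an ultrafilter `F` on the positive integers in the ultrapower by `W` -/
def monad {I : Type} (W : Ultrafilter I) (F : Ultrafilter ℕ+) : Set (Germ (W : Filter I) ℕ+) :=
  {x | ∀ A ∈ F, Germ.LiftPred (fun a => a ∈ A) x}

/-- `F ~∣ G`: for every `A ∈ F` the set of multiples of elements of `A` lies in `G` -/
def TildeDvd (F G : Ultrafilter ℕ+) : Prop :=
  ∀ A ∈ F, {n : ℕ+ | ∃ a ∈ A, a ∣ n} ∈ G

/-- tensor (Fubini) product of ultrafilters -/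
def tens {α β : Type} (G : Ultrafilter α) (U : Ultrafilter β) : Ultrafilter (α × β) :=
  G.bind (fun a => U.map (Prod.mk a))

theorem eventually_tens {α β : Type} (G : Ultrafilter α) (U : Ultrafilter β) (p : α × β → Prop) :
    (∀ᶠ z in (tens G U : Filter (α × β)), p z) ↔
      ∀ᶠ a in (G : Filter α), ∀ᶠ b in (U : Filter β), p (a, b) := by
  change (∀ᶠ z in Filter.bind (G : Filter α) (fun a => Filter.map (Prod.mk a) (U : Filter β)), p z) ↔ _
  rw [Filter.eventually_bind]
  simp only [Filter.eventually_map]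

theorem IsEnlarging.tens {α β X : Type} (G : Ultrafilter α) {U : Ultrafilter β}
    (h : IsEnlarging U X) : IsEnlarging (tens G U) X := by
  intro 𝒜 hA
  obtain ⟨g, hg⟩ := h 𝒜 hA
  induction g using Germ.inductionOn with
  | h g =>
    refine ⟨((fun z : α × β => g z.2 : α × β → X) : Germ _ X), fun A hA => ?_⟩
    have := hg A hA
    rw [Germ.liftPred_coe] at this ⊢
    rw [eventually_tens]
    exact Filter.Eventually.of_forall fun _ => this

theorem exists_enlarging0 (X : Type) :
    ∃ U : Ultrafilter (Finset (Set X)), IsEnlarging U X := by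
  classical
  refine ⟨Ultrafilter.of atTop, fun 𝒜 hA => ?_⟩
  have h1 : ∀ s : Finset (Set X), ∃ x : X, ∀ A ∈ s, A ∈ 𝒜 → x ∈ A := by
    intro s
    obtain ⟨x, hx⟩ := hA (s.filter (· ∈ 𝒜)) (by intro A hA; simpa using (Finset.mem_filter.1 hA).2)
    exact ⟨x, fun A h1 h2 => hx A (by simp [h1, h2])⟩
  choose g hg using h1
  refine ⟨(g : Germ _ X), fun A hA => ?_⟩
  rw [Germ.liftPred_coe]
  refine Ultrafilter.of_le atTop ?_
  filter_upwards [eventually_ge_atTop ({A} : Finset (Set X))] with s hs
  exact hg s A (hs (Finset.mem_singleton_self A)) hA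

theorem IsEnlarging.of_inj {I X Y : Type} {U : Ultrafilter I} (h : IsEnlarging U X)
    (e : Y → X) (he : Function.Injective e) : IsEnlarging U Y := by
  classical
  intro 𝒜 hA
  have hY : Nonempty Y := by
    obtain ⟨y, _⟩ := hA ∅ (by simp)
    exact ⟨y⟩
  obtain ⟨g, hg⟩ := h (Set.image e '' 𝒜) (by
    intro T hT
    obtain ⟨T', h1, h2⟩ := Finset.subset_set_image_iff.1 hT
    obtain ⟨y, hy⟩ := hA T' h1
    refine ⟨e y, fun B hB => ?_⟩
    rw [← h2] at hB
    obtain ⟨A, hA, rfl⟩ := Finset.mem_image.1 hB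
    exact ⟨y, hy A hA, rfl⟩)
  induction g using Germ.inductionOn with
  | h g =>
    refine ⟨((fun i => Function.invFun e (g i) : I → Y) : Germ _ Y), fun A hA => ?_⟩
    have := hg _ ⟨A, hA, rfl⟩
    rw [Germ.liftPred_coe] at this ⊢
    filter_upwards [this] with i hi
    obtain ⟨y, hy, h2⟩ := hi
    rw [← h2, Function.leftInverse_invFun he y]
    exact hy

theorem exists_enlarging (X : Type) :
    ∃ (J : Type) (U : Ultrafilter J), IsEnlarging U X ∧ IsEnlarging U ℕ+ := by
  obtain ⟨U, hU⟩ := exists_enlarging0 (X ⊕ ℕ+)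
  exact ⟨_, U, hU.of_inj _ Sum.inl_injective, hU.of_inj _ Sum.inr_injective⟩

/-- a map into a finite set is almost everywhere constant -/
theorem const_of_finite {J Y : Type} (U : Ultrafilter J) (g : J → Y) (S : Set Y) (hS : S.Finite)
    (h : ∀ᶠ j in (U : Filter J), g j ∈ S) : ∃ y ∈ S, ∀ᶠ j in (U : Filter J), g j = y := by
  obtain ⟨y, hy, h2⟩ := (U.map g).eq_pure_of_finite_mem hS h
  refine ⟨y, hy, ?_⟩
  have : {y} ∈ U.map g := by rw [h2]; simp
  exact this

theorem dvd_coe {I : Type} (W : Ultrafilter I) (f g : I → ℕ+)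
    (h : (f : Germ (W : Filter I) ℕ+) ∣ (g : Germ (W : Filter I) ℕ+)) :
    ∀ᶠ i in (W : Filter I), f i ∣ g i := by
  obtain ⟨z, hz⟩ := h
  induction z using Germ.inductionOn with
  | h z =>
    rw [← Germ.coe_mul, Germ.coe_eq] at hz
    filter_upwards [hz] with i hi
    exact ⟨z i, hi⟩

/-- a map that strictly decreases almost everywhere cannot fix an ultrafilter -/
theorem no_fix (G : Ultrafilter ℕ) (f : ℕ → ℕ) (h : ∀ᶠ n in (G : Filter ℕ), f n < n) :
    G.map f ≠ G := by
  intro hG
  let c : ℕ → Bool := fun n => Nat.strongRec (motive := fun _ => Bool)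
    (fun n ih => if hn : f n < n then !(ih (f n) hn) else true) n
  have hc : ∀ n, f n < n → c n = !(c (f n)) := by
    intro n hn
    simp only [c]
    rw [Nat.strongRec_eq]
    simp [hn]
  obtain ⟨b, _, hb⟩ := const_of_finite G c Set.univ Set.finite_univ (by simp)
  have hb2 : ∀ᶠ n in (G : Filter ℕ), c (f n) = b := by
    have : {n | c n = b} ∈ G.map f := by rw [hG]; exact hb
    exact this
  obtain ⟨n, h1, h2, h3⟩ := (h.and (hb.and hb2)).exists
  rw [hc n h1, h3] at h2
  simp at h2

end Pool.Agent.Lib.helper22.Ultra
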