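import Mathlib

set_option autoImplicit false

namespace Pool.Agent.Lib.helper22.Univ

open Set

abbrev Tp := ℕ → ℕ → ℕ → Prop

def Fty (t : Tp) : Prop := ∃ n, ∀ a b c, t a b c ↔ t (min a n) (min b n) (min c n)

lemma Fty_count : {t | Fty t}.Countable := by
  refine (countable_iUnion fun n : ℕ => (finite_range
    fun (s : Fin (n + 1) → Fin (n + 1) → Fin (n + 1) → Prop) => (fun a b c =>
      s ⟨min a n, by omega⟩ ⟨min b n, by omega⟩ ⟨min c n, by omega⟩ : Tp)).countable).mono ?_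
  rintro t ⟨n, h⟩
  refine mem_iUnion.2 ⟨n, fun a b c => t a b c, ?_⟩
  funext a b c
  exact propext (h a b c).symm

lemma ex_en : ∃ en : ℕ → Tp × ℕ × Tp, ∀ t i s, Fty t → Fty s → ∀ n, ∃ r > n, en r = (t, i, s) := by
  have := (Fty_count.prod ((countable_univ (α := ℕ)).prod Fty_count))
  obtain ⟨f, hf⟩ := this.exists_eq_range ⟨(fun _ _ _ => True, 0, fun _ _ _ => True),
    ⟨0, by simp⟩, trivial, ⟨0, by simp⟩⟩
  refine ⟨fun r => f (Nat.unpair r).1, fun t i s ht hs n => ?_⟩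
  obtain ⟨k, hk⟩ : (t, i, s) ∈ range f := hf ▸ ⟨ht, trivial, hs⟩
  exact ⟨Nat.pair k (n + 1), Nat.right_le_pair _ _, by simp [hk]⟩

noncomputable def en : ℕ → Tp × ℕ × Tp := ex_en.choose

section
variable {A B : Type} (G : ℕ → Prop) (g : ℕ → A → A) (g' : ℕ → B → B)

def le (x y : A) : Prop := ∃ i, g i y = x

noncomputable def rk (x : A) : ℕ := sInf {i | g i x = x}

def tp (v : A) : Tp := fun i k m => g k (g i v) = g m v

def Ok (w : A) : Prop :=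
  (∀ i, i < rk g w → rk g (g i w) < rk g w) ∧ (∀ i, rk g w ≤ i → g i w = w) ∧
  (∀ i k, ∃ m, g m w = g k (g i w)) ∧
  ∀ x u r, le g x w → x ≠ w → le g u x → r ≤ rk g x → G r → tp g u = (en r).2.2 →
    ∃ v, le g v w ∧ tp g v = (en r).1 ∧ g (en r).2.1 v = u

def Pre (D : Set A) : Prop :=
  (∀ w ∈ D, ∀ i, g i w ∈ D) ∧ (∀ w ∈ D, Ok G g w) ∧
  (∀ z ∈ D, ∀ z' ∈ D, ∃ m ∈ D, ∀ x, (le g x z ∧ le g x z') ↔ le g x m) ∧
  ∀ x ∈ D, ∀ y ∈ D, rk g x = 0 → le g x y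

variable {G g g'}

lemma Ok.refl {w : A} (h : Ok G g w) : le g w w := ⟨_, h.2.1 _ le_rfl⟩

lemma Ok.trans {x y w : A} (h : Ok G g w) (h1 : le g x y) (h2 : le g y w) : le g x w := by
  obtain ⟨k, rfl⟩ := h1
  obtain ⟨i, rfl⟩ := h2
  exact h.2.2.1 i k

lemma Ok.rk_lt {x w : A} (h : Ok G g w) (h1 : le g x w) (h2 : x ≠ w) : rk g x < rk g w := by
  obtain ⟨i, rfl⟩ := h1
  exact h.1 i (not_le.1 fun h' => h2 (h.2.1 i h'))

lemma Ok.rk_le {x w : A} (h : Ok G g w) (h1 : le g x w) : rk g x ≤ rk g w := by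
  by_cases h2 : x = w
  · rw [h2]
  · exact (h.rk_lt h1 h2).le

lemma Pre.mem {D : Set A} (h : Pre G g D) {x y : A} (hy : y ∈ D) (h1 : le g x y) : x ∈ D := by
  obtain ⟨i, rfl⟩ := h1
  exact h.1 y hy i

lemma Pre.mono {D D' : Set A} (h : Pre G g D) (h1 : D' ⊆ D) (h2 : ∀ w ∈ D', ∀ i, g i w ∈ D') :
    Pre G g D' := by
  refine ⟨h2, fun w hw => h.2.1 w (h1 hw), fun z hz z' hz' => ?_,
    fun x hx y hy => h.2.2.2 x (h1 hx) y (h1 hy)⟩
  obtain ⟨m, hm, H⟩ := h.2.2.1 z (h1 hz) z' (h1 hz')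
  obtain ⟨i, hi⟩ := ((H m).2 (h.2.1 m hm).refl).1
  exact ⟨m, hi ▸ h2 z hz i, H⟩

lemma Pre.congr {G' : ℕ → Prop} {D : Set A} (h : Pre G g D)
    (h1 : ∀ x ∈ D, ∀ r ≤ rk g x, G' r → G r) : Pre G' g D :=
  ⟨h.1, fun w hw => ⟨(h.2.1 w hw).1, (h.2.1 w hw).2.1, (h.2.1 w hw).2.2.1,
    fun x u r a b c d e f => (h.2.1 w hw).2.2.2 x u r a b c d (h1 x (h.mem hw a) r d e) f⟩, h.2.2⟩

lemma Pre.fty {D : Set A} (h : Pre G g D) {v : A} (hv : v ∈ D) : Fty (tp g v) := by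
  have key : ∀ y, le g y v → ∀ k, g (min k (rk g v)) y = g k y := by
    intro y hy k
    rcases le_total k (rk g v) with h' | h'
    · rw [min_eq_left h']
    · have := (h.2.1 v hv).rk_le hy
      rw [min_eq_right h', (h.2.1 y (h.mem hv hy)).2.1 _ this,
        (h.2.1 y (h.mem hv hy)).2.1 _ (this.trans h')]
  refine ⟨rk g v, fun a b c => ?_⟩
  simp only [tp]
  rw [key v (h.2.1 v hv).refl, key v (h.2.1 v hv).refl, key _ ⟨a, rfl⟩]

lemma Pre.bot {D : Set A} (h : Pre G g D) (x : A) (hx : x ∈ D) : ∃ b ∈ D, rk g b = 0 := by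
  induction hn : rk g x using Nat.strong_induction_on generalizing x with
  | h n ih =>
    rcases Nat.eq_zero_or_pos n with rfl | h0
    · exact ⟨x, hx, hn⟩
    · exact ih _ (hn ▸ (h.2.1 x hx).1 0 (hn ▸ h0)) _ (h.1 x hx 0) rfl

lemma tp_eq {D : Set A} {D' : Set B} (h : Pre G g D) (h' : Pre G g' D') {v : A} {v' : B}
    (hv : v ∈ D) (hv' : v' ∈ D') (e : tp g v = tp g' v') {i m : ℕ} (H : g i v = g m v) :
    g' i v' = g' m v' := by
  have h1 : tp g v i (max (rk g (g i v)) (rk g' (g' i v'))) m :=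
    ((h.2.1 _ (h.1 v hv i)).2.1 _ (le_max_left _ _)).trans H
  rw [e] at h1
  exact ((h'.2.1 _ (h'.1 v' hv' i)).2.1 _ (le_max_right _ _)).symm.trans h1

section emb
variable {e : A → B} (he : Function.Injective e) (hh : ∀ i a, g' i (e a) = e (g i a))
include he hh

lemma le_emb {a b : A} : le g' (e a) (e b) ↔ le g a b := by
  simp only [le, hh, he.eq_iff]

omit he in
lemma le_emb' {y : B} {b : A} (h : le g' y (e b)) : ∃ a, e a = y := by
  obtain ⟨i, rfl⟩ := h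
  exact ⟨_, (hh i b).symm⟩

lemma rk_emb (a : A) : rk g' (e a) = rk g a := by
  simp only [rk, hh, he.eq_iff]

lemma tp_emb (a : A) : tp g' (e a) = tp g a := by
  funext i k m
  simp only [tp, hh, he.eq_iff]

lemma Ok_emb (a : A) : Ok G g' (e a) ↔ Ok G g a := by
  simp only [Ok, hh, rk_emb he hh, he.eq_iff]
  refine and_congr Iff.rfl (and_congr Iff.rfl (and_congr Iff.rfl ⟨fun H x u r a b c d f t => ?_,
    fun H x u r a b c d f t => ?_⟩))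
  · obtain ⟨v, h1, h2, h3⟩ := H (e x) (e u) r ((le_emb he hh).2 a) (he.ne b) ((le_emb he hh).2 c)
      (by rwa [rk_emb he hh]) f (by rwa [tp_emb he hh])
    obtain ⟨v, rfl⟩ := le_emb' hh h1
    exact ⟨v, (le_emb he hh).1 h1, tp_emb he hh v ▸ h2, he (by rwa [← hh])⟩
  · obtain ⟨x, rfl⟩ := le_emb' hh a
    obtain ⟨u, rfl⟩ := le_emb' hh c
    obtain ⟨v, h1, h2, h3⟩ := H x u r ((le_emb he hh).1 a) (fun h => b (congrArg e h))
      ((le_emb he hh).1 c) (by rwa [rk_emb he hh] at d) f (by rwa [tp_emb he hh] at t)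
    exact ⟨e v, (le_emb he hh).2 h1, (tp_emb he hh v).trans h2, by rw [hh, h3]⟩

lemma meet_emb {z z' m : A} : (∀ x, (le g' x (e z) ∧ le g' x (e z')) ↔ le g' x (e m)) ↔
    ∀ x, (le g x z ∧ le g x z') ↔ le g x m := by
  refine ⟨fun H x => ?_, fun H x => ⟨fun h => ?_, fun h => ?_⟩⟩
  · simpa only [le_emb he hh] using H (e x)
  · obtain ⟨x, rfl⟩ := le_emb' hh h.1
    simpa only [le_emb he hh, H] using h
  · obtain ⟨x, rfl⟩ := le_emb' hh h
    simpa only [le_emb he hh, H] using h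

lemma Pre_emb : Pre G g' (range e) ↔ Pre G g univ := by
  simp only [Pre, forall_mem_range, exists_range_iff, Ok_emb he hh, meet_emb he hh, rk_emb he hh,
    le_emb he hh, hh, mem_range_self, mem_univ, true_and, forall_true_left, implies_true]

end emb
end

/-- `GG r`: the `r`-th extension task is realised by some small good structure -/
def GG : ℕ → Prop := Nat.lt_wfRel.wf.fix fun r prev => ∃ (A : Type) (g : ℕ → A → A) (v : A),
  Pre (fun r' => ∃ h : r' < r, prev r' h) g univ ∧ (∀ a, le g a v) ∧ rk g v < r ∧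
    tp g v = (en r).1 ∧ tp g (g (en r).2.1 v) = (en r).2.2

lemma GG_iff (r : ℕ) : GG r ↔ ∃ (A : Type) (g : ℕ → A → A) (v : A),
    Pre GG g univ ∧ (∀ a, le g a v) ∧ rk g v < r ∧
    tp g v = (en r).1 ∧ tp g (g (en r).2.1 v) = (en r).2.2 := by
  rw [GG, WellFounded.fix_eq]
  refine exists₃_congr fun A g v => ⟨fun h => ⟨h.1.congr fun x _ r' hr hG => ⟨?_, hG⟩, h.2⟩,
    fun h => ⟨h.1.congr fun x _ r' _ hG => hG.2, h.2⟩⟩
  exact (hr.trans ((h.1.2.1 v trivial).rk_le (h.2.1 x))).trans_lt h.2.2.1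

def KK {A : Type} (g : ℕ → A → A) (j : A → A → A) : Prop :=
  Pre GG g univ ∧ ∀ x y, le g x (j x y) ∧ le g y (j x y) ∧
    ∀ z, le g x z → le g y z → le g (j x y) z

section
variable {A B : Type} {g : ℕ → A → A} {g' : ℕ → B → B} {j : A → A → A} {j' : B → B → B}

lemma KK.emb (h : KK g' j') {e : A → B} (he : Function.Injective e)
    (hh : ∀ i a, g' i (e a) = e (g i a)) (hj : ∀ a b, j' (e a) (e b) = e (j a b)) : KK g j := by
  refine ⟨(Pre_emb he hh).1 (h.1.mono (subset_univ _) ?_), fun x y => ?_⟩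
  · rintro _ ⟨a, rfl⟩ i
    exact ⟨_, (hh i a).symm⟩
  · obtain ⟨h1, h2, h3⟩ := h.2 (e x) (e y)
    rw [hj] at h1 h2 h3
    exact ⟨(le_emb he hh).1 h1, (le_emb he hh).1 h2, fun z a b =>
      (le_emb he hh).1 (h3 _ ((le_emb he hh).2 a) ((le_emb he hh).2 b))⟩

lemma KK.loc (h : ∀ x y z : B, ∃ (A : Type) (g : ℕ → A → A) (j : A → A → A) (e : A → B),
    KK g j ∧ Function.Injective e ∧ (∀ i a, g' i (e a) = e (g i a)) ∧
    (∀ a b, j' (e a) (e b) = e (j a b)) ∧ x ∈ range e ∧ y ∈ range e ∧ z ∈ range e) :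
    KK g' j' := by
  refine ⟨⟨fun _ _ _ => trivial, fun w _ => ?_, fun z _ z' _ => ?_, fun x _ y _ => ?_⟩,
    fun x y => ⟨?_, ?_, fun z => ?_⟩⟩
  · obtain ⟨A, g, j, e, hK, he, hh, -, ⟨a, rfl⟩, -⟩ := h w w w
    exact (Ok_emb he hh a).2 (hK.1.2.1 a trivial)
  · obtain ⟨A, g, j, e, hK, he, hh, -, ⟨a, rfl⟩, ⟨b, rfl⟩, -⟩ := h z z' z
    obtain ⟨m, -, hm⟩ := hK.1.2.2.1 a trivial b trivial
    exact ⟨e m, trivial, (meet_emb he hh).2 hm⟩
  · obtain ⟨A, g, j, e, hK, he, hh, -, ⟨a, rfl⟩, ⟨b, rfl⟩, -⟩ := h x y x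
    rw [rk_emb he hh, le_emb he hh]
    exact hK.1.2.2.2 a trivial b trivial
  · obtain ⟨A, g, j, e, hK, he, hh, hj, ⟨a, rfl⟩, ⟨b, rfl⟩, -⟩ := h x y x
    rw [hj, le_emb he hh]
    exact (hK.2 a b).1
  · obtain ⟨A, g, j, e, hK, he, hh, hj, ⟨a, rfl⟩, ⟨b, rfl⟩, -⟩ := h x y x
    rw [hj, le_emb he hh]
    exact (hK.2 a b).2.1
  · obtain ⟨A, g, j, e, hK, he, hh, hj, ⟨a, rfl⟩, ⟨b, rfl⟩, ⟨c, rfl⟩⟩ := h x y z
    rw [hj, le_emb he hh, le_emb he hh, le_emb he hh]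
    exact (hK.2 a b).2.2 c

lemma KK.up [Infinite A] (h : KK g j) (x : A) : ∃ y, le g x y ∧ x ≠ y := by
  have : ((fun i => g i x) '' Iic (rk g x)).Finite := (finite_Iic _).image _
  obtain ⟨y, hy⟩ := this.exists_notMem
  refine ⟨j x y, (h.2 x y).1, fun e => hy ?_⟩
  obtain ⟨i, hi⟩ := (h.2 x y).2.1
  rw [← e] at hi
  rcases le_total i (rk g x) with h' | h'
  · exact ⟨i, h', hi⟩
  · exact ⟨_, mem_Iic.2 le_rfl, by
      rw [← hi, (h.1.2.1 x trivial).2.1 i h']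
      exact (h.1.2.1 x trivial).2.1 _ le_rfl⟩

lemma KK.high [Infinite A] (h : KK g j) (x : A) (n : ℕ) : ∃ y, le g x y ∧ n ≤ rk g y := by
  induction n with
  | zero => exact ⟨x, (h.1.2.1 x trivial).refl, Nat.zero_le _⟩
  | succ n ih =>
    obtain ⟨y, h1, h2⟩ := ih
    obtain ⟨z, h3, h4⟩ := h.up y
    exact ⟨z, (h.1.2.1 z trivial).trans h1 h3, h2.trans_lt ((h.1.2.1 z trivial).rk_lt h3 h4)⟩

lemma KK.ext [Infinite B] (h : KK g j) (h' : KK g' j') {x : A} {x' : B} (e : tp g x = tp g' x')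
    (y : A) : ∃ z z' i, tp g z = tp g' z' ∧ g i z = x ∧ g' i z' = x' ∧ le g y z := by
  obtain ⟨i, hi⟩ := (h.2 x y).1
  set z := j x y
  obtain ⟨r, hr, er⟩ := ex_en.choose_spec (tp g z) i (tp g x) (h.1.fty trivial)
    (h.1.fty trivial) (rk g z)
  change en r = _ at er
  have hG : GG r := by
    have hz := h.1.2.1 z trivial
    let g0 : ℕ → {a // le g a z} → {a // le g a z} := fun k a =>
      ⟨g k a.1, hz.trans ⟨k, rfl⟩ a.2⟩
    have hh : ∀ k a, g k (Subtype.val a) = Subtype.val (g0 k a) := fun _ _ => rfl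
    have he := Subtype.val_injective (p := fun a => le g a z)
    refine (GG_iff r).2 ⟨_, g0, ⟨z, hz.refl⟩, (Pre_emb he hh).1 (h.1.mono (subset_univ _) ?_),
      fun a => (le_emb he hh).1 a.2, by rwa [← rk_emb he hh], by rw [← tp_emb he hh, er],
      by rw [← tp_emb he hh, er, ← hh, hi]⟩
    rintro _ ⟨a, rfl⟩ k
    exact ⟨g0 k a, rfl⟩
  obtain ⟨x1, h1, h2⟩ := h'.high x' r
  obtain ⟨w, h3, h4⟩ := h'.up x1
  obtain ⟨v, -, h5, h6⟩ := (h'.1.2.1 w trivial).2.2.2 x1 x' r h3 h4 h1 h2 hG (by rw [er, e])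
  rw [er] at h5 h6
  exact ⟨z, v, i, h5.symm, hi, h6, (h.2 x y).2.1⟩

lemma KK.jeq (h : KK g j) (h' : KK g' j') (e : A ≃ B) (hh : ∀ i a, g' i (e a) = e (g i a))
    (a b : A) : j' (e a) (e b) = e (j a b) := by
  have l := fun a b => le_emb (a := a) (b := b) e.injective hh
  have h1 : le g' (j' (e a) (e b)) (e (j a b)) :=
    (h'.2 _ _).2.2 _ ((l _ _).2 (h.2 a b).1) ((l _ _).2 (h.2 a b).2.1)
  obtain ⟨c, hc⟩ := e.surjective (j' (e a) (e b))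
  have h2 : le g' (e (j a b)) (j' (e a) (e b)) := by
    obtain ⟨u, v, -⟩ := h'.2 (e a) (e b)
    rw [← hc] at u v ⊢
    exact (l _ _).2 ((h.2 a b).2.2 c ((l _ _).1 u) ((l _ _).1 v))
  by_contra hn
  exact absurd ((h'.1.2.1 _ trivial).rk_lt h1 hn) (not_lt.2 ((h'.1.2.1 _ trivial).rk_le h2))

theorem KK.iso [Countable A] [Countable B] [Infinite A] [Infinite B] (h : KK g j)
    (h' : KK g' j') : ∃ e : A ≃ B, ∀ i a, g' i (e a) = e (g i a) := by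
  classical
  let P := {p : A × B // tp g p.1 = tp g' p.2}
  have tr : ∀ (p : P) i k, ∃ m, g m p.1.1 = g k (g i p.1.1) ∧ g' m p.1.2 = g' k (g' i p.1.2) := by
    intro p i k
    obtain ⟨m, hm⟩ := (h.1.2.1 p.1.1 trivial).2.2.1 i k
    have : tp g p.1.1 i k m := hm.symm
    rw [p.2] at this
    exact ⟨m, hm, Eq.symm this⟩
  letI : Preorder P :=
    { le := fun p q => ∃ i, g i q.1.1 = p.1.1 ∧ g' i q.1.2 = p.1.2
      le_refl := fun p => ⟨max (rk g p.1.1) (rk g' p.1.2),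
        (h.1.2.1 _ trivial).2.1 _ (le_max_left _ _), (h'.1.2.1 _ trivial).2.1 _ (le_max_right _ _)⟩
      le_trans := fun p q r ⟨k, a, b⟩ ⟨i, c, d⟩ => by
        obtain ⟨m, h1, h2⟩ := tr r i k
        exact ⟨m, by rw [h1, c, a], by rw [h2, d, b]⟩ }
  obtain ⟨b, -, hb⟩ := h.1.bot (Classical.arbitrary A) trivial
  obtain ⟨b', -, hb'⟩ := h'.1.bot (Classical.arbitrary B) trivial
  have p0 : P := ⟨(b, b'), by
    funext i k m
    simp only [tp, (h.1.2.1 b trivial).2.1 _ (hb ▸ Nat.zero_le _),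
      (h'.1.2.1 b' trivial).2.1 _ (hb' ▸ Nat.zero_le _)]⟩
  let 𝒟 : A ⊕ B → Order.Cofinal P := fun s => match s with
    | .inl a => ⟨{p | le g a p.1.1}, fun p => by
        obtain ⟨z, z', i, h1, h2, h3, h4⟩ := h.ext h' p.2 a
        exact ⟨⟨(z, z'), h1⟩, h4, i, h2, h3⟩⟩
    | .inr a => ⟨{p | le g' a p.1.2}, fun p => by
        obtain ⟨z, z', i, h1, h2, h3, h4⟩ := h'.ext h p.2.symm a
        exact ⟨⟨(z', z), h1.symm⟩, h4, i, h3, h2⟩⟩
  letI := Encodable.ofCountable (A ⊕ B)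
  let I := Order.idealOfCofinals p0 𝒟
  let R : A → B → Prop := fun a a' => ∃ p ∈ I, ∃ i, g i p.1.1 = a ∧ g' i p.1.2 = a'
  have key : ∀ a a' c c', R a a' → R c c' → (a = c ↔ a' = c') := by
    rintro _ _ _ _ ⟨p, hp, i, rfl, rfl⟩ ⟨q, hq, k, rfl, rfl⟩
    obtain ⟨s, -, ⟨i1, a1, a2⟩, ⟨k1, b1, b2⟩⟩ := I.directed p hp q hq
    obtain ⟨m, h1, h2⟩ := tr s i1 i
    obtain ⟨n, h3, h4⟩ := tr s k1 k
    rw [← a1, ← a2, ← b1, ← b2, ← h1, ← h2, ← h3, ← h4]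
    exact ⟨tp_eq h.1 h'.1 trivial trivial s.2, tp_eq h'.1 h.1 trivial trivial s.2.symm⟩
  have t1 : ∀ a, ∃ a', R a a' := fun a => by
    obtain ⟨p, ⟨i, hi⟩, hp⟩ := Order.cofinal_meets_idealOfCofinals p0 𝒟 (.inl a)
    exact ⟨_, p, hp, i, hi, rfl⟩
  have t2 : ∀ a', ∃ a, R a a' := fun a => by
    obtain ⟨p, ⟨i, hi⟩, hp⟩ := Order.cofinal_meets_idealOfCofinals p0 𝒟 (.inr a)
    exact ⟨_, p, hp, i, rfl, hi⟩
  choose f hf using t1
  refine ⟨Equiv.ofBijective f ⟨fun a c e => (key _ _ _ _ (hf a) (hf c)).2 e, fun a' => ?_⟩,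
    fun k a => ?_⟩
  · obtain ⟨a, ha⟩ := t2 a'
    exact ⟨a, (key _ _ _ _ (hf a) ha).1 rfl⟩
  · refine (key (g k a) _ _ _ ?_ (hf (g k a))).1 rfl
    obtain ⟨p, hp, i, h1, h2⟩ := hf a
    obtain ⟨m, h3, h4⟩ := tr p i k
    exact ⟨p, hp, m, by rw [h3, h1], by rw [h4, h2]; rfl⟩

end

end Pool.Agent.Lib.helper22.Univ
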