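import Mathlib
import Pool.Agent.Lib.helper22.UnivA

set_option autoImplicit false

namespace Pool.Agent.Lib.helper22.Univ

open Set

inductive Tm (X : Type) : Type
  | mk (s : Finset X) (c : ℕ) (n : ℕ) (f : Fin n → Tm X) : Tm X

variable {X : Type}

def Tm.supp : Tm X → Finset X
  | .mk s _ _ _ => s

def Tm.tag : Tm X → ℕ
  | .mk _ c _ _ => c

def gT (i : ℕ) : Tm X → Tm X
  | .mk s c n f => if h : i < n then f ⟨i, h⟩ else .mk s c n f

lemma ne_child (x : Tm X) : ∀ s c n f k, x = .mk s c n f → f k ≠ x := by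
  induction x with
  | mk s' c' n' f' ih =>
    intro s c n f k h e
    cases h
    exact ih k _ _ _ _ k e rfl

lemma rk_mk (s : Finset X) (c n : ℕ) (f : Fin n → Tm X) : rk gT (.mk s c n f) = n := by
  have : {i | gT i (.mk s c n f) = .mk s c n f} = Ici n := by
    ext i
    simp only [gT, mem_ofPred_eq, mem_Ici]
    split_ifs with h
    · exact iff_of_false (ne_child _ _ _ _ _ _ rfl) (not_le.2 h)
    · exact iff_of_true rfl (not_lt.1 h)
  rw [rk, this, csInf_Ici]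

def Ext (s : Finset X) (r : ℕ) (D D' : Set (Tm X)) : Prop :=
  D ⊆ D' ∧ D'.Finite ∧ Pre GG gT D' ∧ ∀ z ∈ D', z ∉ D → z.supp = s ∧ rk gT z < r ∧
    ∃ u ∈ D, ∀ x ∈ D, le gT x z → le gT x u

lemma Ext.trans {s : Finset X} {r r' : ℕ} {D D' D'' : Set (Tm X)} (h : Ext s r D D')
    (h' : Ext s r' D' D'') (hr : r' ≤ r) : Ext s r D D'' := by
  refine ⟨h.1.trans h'.1, h'.2.1, h'.2.2.1, fun z hz hn => ?_⟩
  by_cases h1 : z ∈ D'
  · exact h.2.2.2 z h1 hn
  · obtain ⟨a, b, u, hu, H⟩ := h'.2.2.2 z hz h1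
    refine ⟨a, b.trans_le hr, ?_⟩
    by_cases h2 : u ∈ D
    · exact ⟨u, h2, fun x hx hl => H x (h.1 hx) hl⟩
    · obtain ⟨-, -, u', hu', H'⟩ := h.2.2.2 u hu h2
      exact ⟨u', hu', fun x hx hl => H' x hx (H x (h.1 hx) hl)⟩

lemma one_step (s : Finset X) {r : ℕ} (hG : GG r) {D : Set (Tm X)} (hD : D.Finite)
    (hP : Pre GG gT D) {u : Tm X} (hu : u ∈ D) (ht : tp gT u = (en r).2.2) :
    ∃ D', Ext s r D D' ∧ ∃ v ∈ D', tp gT v = (en r).1 ∧ gT (en r).2.1 v = u := by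
  classical
  obtain ⟨A, g, v, hA, hv, hr, t1, t2⟩ := (GG_iff r).1 hG
  set u0 := g (en r).2.1 v with hu0
  have et : tp g u0 = tp gT u := t2.trans ht.symm
  have ok := fun a => hA.2.1 a trivial
  choose idx hidx using hv
  obtain ⟨c, hc⟩ := (hD.image Tm.tag).bddAbove
  let φ : A → Tm X := (InvImage.wf (rk g) Nat.lt_wfRel.wf).fix fun a ih =>
    if h : le g a u0 then gT h.choose u
    else .mk s (c + 1 + idx a) (rk g a) fun k => ih (g k a) ((ok a).1 k k.2)
  have p1 : ∀ i, φ (g i u0) = gT i u := fun i => by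
    have h : le g (g i u0) u0 := ⟨i, rfl⟩
    simp only [φ]
    rw [WellFounded.fix_eq, dif_pos h]
    exact tp_eq hA hP trivial hu et h.choose_spec
  have p2 : ∀ a, ¬ le g a u0 → φ a = .mk s (c + 1 + idx a) (rk g a) fun k => φ (g k a) :=
    fun a h => by
      simp only [φ]
      rw [WellFounded.fix_eq, dif_neg h]
  have p3 : ∀ a, le g a u0 → le gT (φ a) u := by
    rintro _ ⟨i, rfl⟩
    exact ⟨i, (p1 i).symm⟩
  have p4 : ∀ a, φ a ∈ D → le g a u0 := fun a h => by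
    by_contra hn
    have := hc ⟨_, h, rfl⟩
    rw [p2 a hn, Tm.tag] at this
    omega
  have hh : ∀ k a, gT k (φ a) = φ (g k a) := by
    intro k a
    by_cases h : le g a u0
    · obtain ⟨i, rfl⟩ := h
      obtain ⟨m, hm⟩ := (ok u0).2.2.1 i k
      have : tp g u0 i k m := hm.symm
      rw [et] at this
      rw [← hm, p1, p1]
      exact this
    · by_cases hk : k < rk g a
      · rw [p2 a h, gT, dif_pos hk]
      · rw [(ok a).2.1 k (not_lt.1 hk), p2 a h, gT, dif_neg hk]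
  have he : Function.Injective φ := by
    intro a b e
    by_cases h : le g a u0
    · have h' := p4 b (e ▸ hP.mem hu (p3 a h))
      obtain ⟨i, rfl⟩ := h
      obtain ⟨k, rfl⟩ := h'
      rw [p1, p1] at e
      exact tp_eq hP hA hu trivial et.symm e
    · have h' : ¬ le g b u0 := fun h' => h (p4 a (e ▸ hP.mem hu (p3 b h')))
      have := congrArg Tm.tag e
      rw [p2 a h, p2 b h', Tm.tag, Tm.tag] at this
      rw [← hidx a, ← hidx b, show idx a = idx b by omega]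
  have pu : φ u0 = u := by
    have := p1 (max (rk g u0) (rk gT u))
    rwa [(ok u0).2.1 _ (le_max_left _ _), (hP.2.1 u hu).2.1 _ (le_max_right _ _)] at this
  have hR := (Pre_emb he hh).2 hA
  have mix : ∀ z ∈ D, ∀ a, ∃ m ∈ D ∪ range φ, ∀ x, (le gT x z ∧ le gT x (φ a)) ↔ le gT x m := by
    intro z hz a
    obtain ⟨m, -, hm⟩ := hA.2.2.1 a trivial u0 trivial
    have hm' := (meet_emb he hh).2 hm
    obtain ⟨m', h1, h2⟩ := hP.2.2.1 z hz (φ m) (hP.mem hu (p3 m ((hm m).2 (ok m).refl).2))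
    refine ⟨m', Or.inl h1, fun x => ?_⟩
    rw [← h2, ← hm', pu]
    refine ⟨fun h => ⟨h.1, h.2, ?_⟩, fun h => ⟨h.1, h.2.1⟩⟩
    obtain ⟨y, rfl⟩ := le_emb' hh h.2
    exact p3 y (p4 y (hP.mem hz h.1))
  obtain ⟨b, -, hb⟩ := hA.bot v trivial
  have hb1 : φ b ∈ D := hP.mem hu (p3 b (hA.2.2.2 b trivial u0 trivial hb))
  have hb2 : rk gT (φ b) = 0 := (rk_emb he hh b).trans hb
  have hb3 : ∀ x ∈ D ∪ range φ, rk gT x = 0 → x = φ b := by
    rintro x (hx | hx) h0
    · by_contra hn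
      have := (hP.2.1 _ hb1).rk_lt (hP.2.2.2 x hx _ hb1 h0) hn
      omega
    · by_contra hn
      have := (hR.2.1 _ ⟨b, rfl⟩).rk_lt (hR.2.2.2 x hx _ ⟨b, rfl⟩ h0) hn
      omega
  have hfin : (range φ).Finite := by
    refine ((finite_Iic (rk g v)).image fun i => φ (g i v)).subset ?_
    rintro _ ⟨a, rfl⟩
    rcases le_total (idx a) (rk g v) with h' | h'
    · exact ⟨idx a, h', congrArg φ (hidx a)⟩
    · exact ⟨_, mem_Iic.2 le_rfl, congrArg φ (by
        rw [← hidx a, (ok v).2.1 _ h', (ok v).2.1 _ le_rfl])⟩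
  refine ⟨D ∪ range φ, ⟨subset_union_left, hD.union hfin, ⟨?_, ?_, ?_, ?_⟩, ?_⟩,
    φ v, Or.inr ⟨v, rfl⟩, (tp_emb he hh v).trans t1, by rw [hh, ← hu0, pu]⟩
  · rintro w (h | h) i
    · exact Or.inl (hP.1 w h i)
    · exact Or.inr (hR.1 w h i)
  · rintro w (h | h)
    · exact hP.2.1 w h
    · exact hR.2.1 w h
  · rintro z (h | ⟨a, rfl⟩) z' (h' | ⟨a', rfl⟩)
    · obtain ⟨m, h1, h2⟩ := hP.2.2.1 z h z' h'
      exact ⟨m, Or.inl h1, h2⟩
    · exact mix z h a'
    · obtain ⟨m, h1, h2⟩ := mix z' h' a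
      exact ⟨m, h1, fun x => and_comm.trans (h2 x)⟩
    · obtain ⟨m, h1, h2⟩ := hR.2.2.1 _ ⟨a, rfl⟩ _ ⟨a', rfl⟩
      exact ⟨m, Or.inr h1, h2⟩
  · rintro x hx y (h | h) h0
    · exact hb3 x hx h0 ▸ hP.2.2.2 _ hb1 y h hb2
    · exact hb3 x hx h0 ▸ hR.2.2.2 _ ⟨b, rfl⟩ y h hb2
  · rintro z (h | ⟨a, rfl⟩) hn
    · exact (hn h).elim
    · have h : ¬ le g a u0 := fun h => hn (hP.mem hu (p3 a h))
      refine ⟨by rw [p2 a h, Tm.supp], ?_, u, hu, fun x hx hl => ?_⟩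
      · rw [rk_emb he hh]
        exact ((ok v).rk_le ⟨_, hidx a⟩).trans_lt hr
      · obtain ⟨y, rfl⟩ := le_emb' hh hl
        exact p3 y (p4 y hx)

lemma many_step (s : Finset X) {r : ℕ} (hG : GG r) {D : Set (Tm X)} (hD : D.Finite)
    (hP : Pre GG gT D) (U : Set (Tm X)) (hU : U.Finite) : U ⊆ D →
    ∃ D', Ext s r D D' ∧ ∀ u ∈ U, tp gT u = (en r).2.2 →
      ∃ v ∈ D', tp gT v = (en r).1 ∧ gT (en r).2.1 v = u := by
  induction U, hU using Set.Finite.induction_on with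
  | empty => exact fun _ => ⟨D, ⟨Subset.rfl, hD, hP, fun z h h' => (h' h).elim⟩, by simp⟩
  | @insert u U _ _ ih =>
    intro h
    obtain ⟨D', h1, h2⟩ := ih ((subset_insert _ _).trans h)
    by_cases ht : tp gT u = (en r).2.2
    · obtain ⟨D'', h3, h4⟩ := one_step s hG h1.2.1 h1.2.2.1 (h1.1 (h (mem_insert _ _))) ht
      refine ⟨D'', h1.trans h3 le_rfl, ?_⟩
      rintro u' (rfl | h5) ht'
      · exact h4
      · obtain ⟨v, h6, h7⟩ := h2 u' h5 ht'
        exact ⟨v, h3.1 h6, h7⟩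
    · refine ⟨D', h1, ?_⟩
      rintro u' (rfl | h5) ht'
      · exact (ht ht').elim
      · exact h2 u' h5 ht'

lemma saturate (s : Finset X) {D : Set (Tm X)} (hD : D.Finite) (hP : Pre GG gT D) :
    ∃ R D', Ext s R D D' ∧ ∀ x ∈ D', ∀ u r, le gT u x → r ≤ rk gT x → GG r →
      tp gT u = (en r).2.2 → ∃ v ∈ D', tp gT v = (en r).1 ∧ gT (en r).2.1 v = u := by
  obtain ⟨R, hR⟩ := (hD.image (rk gT)).bddAbove
  have : ∀ k, k ≤ R + 1 → ∃ D', Ext s (R + 1) D D' ∧ ∀ x ∈ D', ∀ u r, R + 1 - k ≤ r → le gT u x →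
      r ≤ rk gT x → GG r → tp gT u = (en r).2.2 →
      ∃ v ∈ D', tp gT v = (en r).1 ∧ gT (en r).2.1 v = u := by
    intro k
    induction k with
    | zero =>
      refine fun _ => ⟨D, ⟨Subset.rfl, hD, hP, fun z h h' => (h' h).elim⟩, fun x hx u r a _ b => ?_⟩
      have := hR ⟨x, hx, rfl⟩
      omega
    | succ k ih =>
      intro hk
      obtain ⟨D', h1, h2⟩ := ih (by omega)
      by_cases hG : GG (R - k)
      · obtain ⟨D'', h3, h4⟩ := many_step s hG h1.2.1 h1.2.2.1 D' h1.2.1 Subset.rfl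
        refine ⟨D'', h1.trans h3 (by omega), fun x hx u r a b c d e => ?_⟩
        have hx' : x ∈ D' := by
          by_contra hn
          have := (h3.2.2.2 x hx hn).2.1
          omega
        by_cases hr : r = R - k
        · subst hr
          exact h4 u (h1.2.2.1.mem hx' b) e
        · obtain ⟨v, h5, h6⟩ := h2 x hx' u r (by omega) b c d e
          exact ⟨v, h3.1 h5, h6⟩
      · refine ⟨D', h1, fun x hx u r a b c d e => h2 x hx u r ?_ b c d e⟩
        have : r ≠ R - k := fun h => hG (h ▸ d)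
        omega
  obtain ⟨D', h1, h2⟩ := this (R + 1) le_rfl
  exact ⟨R + 1, D', h1, fun x hx u r => h2 x hx u r (by omega)⟩

def Spec (b : ℕ) (s : Finset X) (D : Set (Tm X)) (w : Tm X) : Prop :=
  w.supp = s ∧ rk gT w % 2 = b % 2 ∧ Pre GG gT {x | le gT x w} ∧ le gT w w ∧
    (∀ x ∈ D, le gT x w) ∧ ∀ z, le gT z w → z ∉ D → z.supp = s ∧
      (z ≠ w → ∃ u ∈ D, ∀ x ∈ D, le gT x z → le gT x u)

lemma complete (b : ℕ) (s : Finset X) {D : Set (Tm X)} (hD : D.Finite) (hP : Pre GG gT D)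
    (hne : D.Nonempty) : ∃ w, Spec b s D w := by
  obtain ⟨R, D', h1, h2⟩ := saturate s hD hP
  obtain ⟨f, hf⟩ := h1.2.1.countable.exists_eq_range (hne.mono h1.1)
  have hi : ∀ x : D', ∃ i, f i = x := fun x => hf.subset x.2
  choose idx hidx using hi
  haveI := h1.2.1.to_subtype
  obtain ⟨n0, hn0⟩ := (finite_range fun x : D' => max (idx x) (rk gT x.1)).bddAbove
  have hn : ∀ x : D', idx x < 2 * (n0 + 1) + b ∧ rk gT x.1 < 2 * (n0 + 1) + b := fun x => by
    have := hn0 ⟨x, rfl⟩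
    simp only [sup_le_iff] at this
    omega
  let w : Tm X := .mk s 0 (2 * (n0 + 1) + b) fun k => f k
  have rw' : rk gT w = 2 * (n0 + 1) + b := rk_mk _ _ _ _
  have g1 : ∀ i, i < 2 * (n0 + 1) + b → gT i w = f i := fun i h => dif_pos h
  have g2 : ∀ i, 2 * (n0 + 1) + b ≤ i → gT i w = w := fun i h => dif_neg (not_lt.2 h)
  have fD : ∀ i, f i ∈ D' := fun i => hf ▸ mem_range_self i
  have l1 : ∀ x ∈ D', le gT x w := fun x hx =>
    ⟨idx ⟨x, hx⟩, (g1 _ (hn _).1).trans (hidx _)⟩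
  have l2 : ∀ x, le gT x w → x ≠ w → x ∈ D' := by
    rintro _ ⟨i, rfl⟩ h
    rcases lt_or_ge i (2 * (n0 + 1) + b) with h' | h'
    · exact g1 i h' ▸ fD i
    · exact (h (g2 i h')).elim
  have lw : le gT w w := ⟨_, g2 _ le_rfl⟩
  have hP' := h1.2.2.1
  have cl : ∀ x, le gT x w → ∀ i, le gT (gT i x) w := fun x hx i => by
    by_cases h : x = w
    · exact h ▸ ⟨i, by rw [h]⟩
    · exact l1 _ (hP'.1 x (l2 x hx h) i)
  have okw : Ok GG gT w := by
    refine ⟨fun i hi => ?_, fun i hi => g2 i (rw' ▸ hi), fun i k => cl _ ⟨i, rfl⟩ k,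
      fun x u r a b c d e t => ?_⟩
    · rw [rw'] at hi ⊢
      rw [g1 i hi]
      exact (hn ⟨_, fD i⟩).2
    · obtain ⟨v, h3, h4⟩ := h2 x (l2 x a b) u r c d e t
      exact ⟨v, l1 v h3, h4⟩
  have ok : ∀ x, le gT x w → Ok GG gT x := fun x hx => by
    by_cases h : x = w
    · exact h ▸ okw
    · exact hP'.2.1 x (l2 x hx h)
  refine ⟨w, rfl, by rw [rw']; omega, ⟨cl, ok, fun z hz z' hz' => ?_, fun x hx y hy h0 => ?_⟩, lw,
    fun x hx => l1 x (h1.1 hx), fun z hz hn' => ?_⟩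
  · by_cases h : z = w
    · exact ⟨z', hz', fun x => ⟨fun a => a.2, fun a => ⟨h ▸ okw.trans a hz', a⟩⟩⟩
    · by_cases h' : z' = w
      · exact ⟨z, hz, fun x => ⟨fun a => a.1, fun a => ⟨a, h' ▸ okw.trans a hz⟩⟩⟩
      · obtain ⟨m, h3, h4⟩ := hP'.2.2.1 z (l2 z hz h) z' (l2 z' hz' h')
        exact ⟨m, l1 m h3, h4⟩
  · by_cases h : y = w
    · exact h ▸ hx
    · refine hP'.2.2.2 x (l2 x hx fun e => ?_) y (l2 y hy h) h0
      rw [e, rw'] at h0
      omega
  · by_cases h : z = w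
    · exact ⟨h ▸ rfl, fun h' => (h' h).elim⟩
    · obtain ⟨a, -, c⟩ := h1.2.2.2 z (l2 z hz h) hn'
      exact ⟨a, fun _ => c⟩

lemma Ok.fin {A : Type} {g : ℕ → A → A} {w : A} (h : Ok GG g w) : {x | le g x w}.Finite := by
  refine ((finite_Iic (rk g w)).image fun i => g i w).subset ?_
  rintro _ ⟨i, rfl⟩
  rcases le_total i (rk g w) with h' | h'
  · exact ⟨i, h', rfl⟩
  · exact ⟨_, mem_Iic.2 le_rfl, (h.2.1 _ le_rfl).trans (h.2.1 _ h').symm⟩

lemma exists_join {A : Type} {g : ℕ → A → A} (h : Pre GG g univ)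
    (hd : ∀ x y, ∃ z, le g x z ∧ le g y z) : ∃ j, KK g j := by
  have : ∀ x y, ∃ z, le g x z ∧ le g y z ∧ ∀ z', le g x z' → le g y z' → le g z z' := by
    intro x y
    obtain ⟨z, h1, h2⟩ := (InvImage.wf (rk g) Nat.lt_wfRel.wf).has_min
      {z | le g x z ∧ le g y z} (hd x y)
    refine ⟨z, h1.1, h1.2, fun z' a b => ?_⟩
    obtain ⟨m, -, hm⟩ := h.2.2.1 z trivial z' trivial
    have h3 := (hm m).2 (h.2.1 m trivial).refl
    by_cases e : m = z
    · exact e ▸ h3.2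
    · exact (h2 m ⟨(hm x).1 ⟨h1.1, a⟩, (hm y).1 ⟨h1.2, b⟩⟩
        ((h.2.1 z trivial).rk_lt h3.1 e)).elim
  choose j hj using this
  exact ⟨j, h, hj⟩

def b0 : Tm X := .mk ∅ 0 0 Fin.elim0

lemma b0_g (i : ℕ) : gT i (b0 : Tm X) = b0 := rfl

lemma b0_le {x : Tm X} (h : le gT x b0) : x = b0 := by
  obtain ⟨i, rfl⟩ := h
  rfl

lemma b0_rk : rk gT (b0 : Tm X) = 0 := rk_mk _ _ _ _

lemma b0_ok : Ok GG gT (b0 : Tm X) :=
  ⟨fun i h => by simp [b0_rk] at h, fun _ _ => rfl, fun _ _ => ⟨0, rfl⟩,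
    fun _ _ _ a b => (b (b0_le a)).elim⟩

def DD (w : Finset X → Tm X) (S : Set (Finset X)) : Set (Tm X) :=
  {x | x = b0 ∨ ∃ t ∈ S, le gT x (w t)}

section
variable {b : ℕ} {w : Finset X → Tm X} {S : Set (Finset X)} (hS : ∀ t ∈ S, ∀ t' ⊆ t, t' ∈ S)
  (hw : ∀ t ∈ S, Spec b t (DD w {t' | t' ⊂ t}) (w t))
include hS hw

lemma w_mono {t t' : Finset X} (ht : t ∈ S) (h : t' ⊆ t) : le gT (w t') (w t) := by
  rcases h.eq_or_ssubset with rfl | h'
  · exact (hw _ ht).2.2.2.1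
  · exact (hw _ ht).2.2.2.2.1 _ (Or.inr ⟨t', h', (hw _ (hS _ ht _ h)).2.2.2.1⟩)

lemma w_supp (t : Finset X) : t ∈ S → ∀ x, le gT x (w t) → x.supp ⊆ t ∧ le gT x (w x.supp) := by
  induction t using Finset.strongInduction with
  | H t ih =>
    intro ht x hx
    by_cases h : x ∈ DD w {t' | t' ⊂ t}
    · rcases h with rfl | ⟨t', h1, h2⟩
      · exact ⟨Finset.empty_subset _, (hw _ (hS _ ht _ (Finset.empty_subset _))).2.2.2.2.1 _
          (Or.inl rfl)⟩
      · obtain ⟨a, c⟩ := ih t' h1 (hS _ ht _ h1.subset) x h2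
        exact ⟨a.trans h1.subset, c⟩
    · have := ((hw _ ht).2.2.2.2.2 x hx h).1
      rw [this]
      exact ⟨Finset.Subset.rfl, hx⟩

lemma DD_pre [DecidableEq X] : Pre GG gT (DD w S) := by
  have P := fun t ht => (hw t ht).2.2.1
  have okw := fun t ht => (P t ht).2.1 _ (hw t ht).2.2.2.1
  have bw : ∀ t ∈ S, le gT b0 (w t) := fun t ht => (hw t ht).2.2.2.2.1 _ (Or.inl rfl)
  have bl : ∀ y ∈ DD w S, le gT b0 y := by
    rintro y (rfl | ⟨t, ht, h⟩)
    · exact b0_ok.refl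
    · exact (P t ht).2.2.2 _ (bw t ht) y h b0_rk
  refine ⟨?_, ?_, ?_, ?_⟩
  · rintro x (rfl | ⟨t, ht, h⟩) i
    · exact Or.inl rfl
    · exact Or.inr ⟨t, ht, (P t ht).1 x h i⟩
  · rintro x (rfl | ⟨t, ht, h⟩)
    · exact b0_ok
    · exact (P t ht).2.1 x h
  · intro z hz z' hz'
    rcases id hz with rfl | ⟨t, ht, h⟩
    · exact ⟨b0, hz, fun x => ⟨fun a => a.1, fun a => ⟨a, b0_le a ▸ bl _ hz'⟩⟩⟩
    rcases id hz' with rfl | ⟨t', ht', h'⟩
    · exact ⟨b0, hz', fun x => ⟨fun a => a.2, fun a => ⟨b0_le a ▸ bl _ hz, a⟩⟩⟩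
    have hp := hS _ ht (t ∩ t') Finset.inter_subset_left
    obtain ⟨m, h1, h2⟩ := (P t ht).2.2.1 z h _ (w_mono hS hw ht Finset.inter_subset_left (t' := t ∩ t'))
    have h3 := ((h2 m).2 ((P t ht).2.1 m h1).refl).2
    obtain ⟨m', h4, h5⟩ := (P t' ht').2.2.1 m ((okw t' ht').trans h3
      (w_mono hS hw ht' Finset.inter_subset_right)) z' h'
    refine ⟨m', Or.inr ⟨t', ht', h4⟩, fun x => ?_⟩
    rw [← h5, ← h2]
    refine ⟨fun a => ⟨⟨a.1, ?_⟩, a.2⟩, fun a => ⟨a.1.1, a.2⟩⟩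
    obtain ⟨a1, a2⟩ := w_supp hS hw t ht x ((okw t ht).trans a.1 h)
    obtain ⟨a3, -⟩ := w_supp hS hw t' ht' x ((okw t' ht').trans a.2 h')
    exact (okw _ hp).trans a2 (w_mono hS hw hp (Finset.subset_inter a1 a3))
  · rintro x (rfl | ⟨t, ht, h⟩) y hy h0
    · exact bl y hy
    · exact b0_le ((P t ht).2.2.2 x h _ (bw t ht) h0) ▸ bl y hy

end

lemma exists_w [DecidableEq X] (b : ℕ) :
    ∃ w : Finset X → Tm X, ∀ t, Spec b t (DD w {t' | t' ⊂ t}) (w t) := by
  classical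
  let w : Finset X → Tm X := Finset.strongInduction fun s prev =>
    Classical.epsilon (h := ⟨b0⟩) (Spec b s {x | x = b0 ∨ ∃ t, ∃ h : t ⊂ s, le gT x (prev t h)})
  refine ⟨w, fun t => ?_⟩
  induction t using Finset.strongInduction with
  | H t ih =>
    have e : w t = Classical.epsilon (h := ⟨b0⟩) (Spec b t (DD w {t' | t' ⊂ t})) := by
      simp only [w]
      rw [Finset.strongInduction_eq]
      simp only [DD, mem_ofPred_eq, exists_prop]
    rw [e]
    refine Classical.epsilon_spec (complete b t ?_ (DD_pre (fun t1 h1 t2 h2 =>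
      Finset.ssubset_of_subset_of_ssubset h2 h1) ih) ⟨b0, Or.inl rfl⟩)
    have : {t' | t' ⊂ t}.Finite := (t.powerset.finite_toSet).subset fun t' h => by
      simpa using h.subset
    refine ((this.biUnion fun t' h => ((ih t' h).2.2.1.2.1 _ (ih t' h).2.2.2.1).fin).insert b0).subset
      ?_
    rintro x (rfl | ⟨t', h1, h2⟩)
    · exact Or.inl rfl
    · exact Or.inr (mem_biUnion h1 h2)

theorem big (X : Type) [Infinite X] (b : ℕ) : ∃ (A : Type) (g : ℕ → A → A) (j : A → A → A)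
    (sp : A → Finset X) (p : X → A), KK g j ∧ Cardinal.mk A = Cardinal.mk X ∧
      (∀ s, {x | sp x = s}.Finite) ∧ (∀ a, sp (p a) = {a}) ∧
      ∀ x y, ¬ sp x ⊆ sp y → ¬ sp y ⊆ sp x → rk g (j x y) % 2 = b % 2 := by
  classical
  obtain ⟨w, hw⟩ := exists_w (X := X) b
  have hS : ∀ t ∈ (univ : Set (Finset X)), ∀ t' ⊆ t, t' ∈ (univ : Set (Finset X)) :=
    fun _ _ _ _ => trivial
  have hP := DD_pre hS fun t _ => hw t
  have mono := fun t t' => w_mono hS (fun t _ => hw t) (t := t) (t' := t') trivial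
  have supp := fun t => w_supp hS (fun t _ => hw t) t trivial
  have okw := fun t => (hw t).2.2.1.2.1 _ (hw t).2.2.2.1
  have mem : ∀ x ∈ DD w univ, le gT x (w x.supp) := by
    rintro x (rfl | ⟨t, -, h⟩)
    · exact (hw _).2.2.2.2.1 _ (Or.inl rfl)
    · exact (supp t x h).2
  let A := DD w univ
  let g : ℕ → A → A := fun k a => ⟨gT k a.1, hP.1 _ a.2 k⟩
  have hh : ∀ k a, gT k (Subtype.val a) = Subtype.val (g k a) := fun _ _ => rfl
  have he := Subtype.val_injective (p := fun a => a ∈ A)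
  have hA : Pre GG g univ := (Pre_emb he hh).1 (by rwa [Subtype.range_coe])
  let W : Finset X → A := fun t => ⟨w t, Or.inr ⟨t, trivial, (hw t).2.2.2.1⟩⟩
  have up : ∀ (x : A) t, x.1.supp ⊆ t → le g x (W t) := fun x t h =>
    (le_emb he hh).1 ((okw t).trans (mem _ x.2) (mono _ _ h))
  obtain ⟨j, hj⟩ := exists_join hA fun x y => ⟨W (x.1.supp ∪ y.1.supp),
    up x _ Finset.subset_union_left, up y _ Finset.subset_union_right⟩
  refine ⟨A, g, j, fun x => x.1.supp, fun a => W {a}, hj, le_antisymm ?_ ?_, fun s => ?_,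
    fun a => (hw _).1, fun x y h1 h2 => ?_⟩
  · have : Cardinal.mk A ≤ Cardinal.mk (Finset X × ℕ) :=
      Cardinal.mk_le_of_surjective (f := fun q => g q.2 (W q.1)) fun x => by
        obtain ⟨i, hi⟩ := up x _ Finset.Subset.rfl
        exact ⟨(_, i), hi⟩
    simpa [Cardinal.mul_eq_left (Cardinal.aleph0_le_mk X) (Cardinal.aleph0_le_mk X)] using this
  · refine Cardinal.mk_le_of_injective (f := fun a => W {a}) fun a a' e => ?_
    have := congrArg (fun x : A => x.1.supp) e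
    simp only [W, (hw _).1] at this
    exact Finset.singleton_injective this
  · refine ((okw s).fin.preimage he.injOn).subset fun x hx => ?_
    have := mem _ x.2
    rwa [show x.1.supp = s from hx] at this
  · obtain ⟨a1, a2, a3⟩ := hj.2 x y
    have a4 := (le_emb he hh).2 (a3 (W (x.1.supp ∪ y.1.supp)) (up x _ Finset.subset_union_left)
      (up y _ Finset.subset_union_right))
    rw [← le_emb he hh] at a1 a2
    have nD : ∀ u ∈ DD w {t' | t' ⊂ x.1.supp ∪ y.1.supp}, le gT x.1 u → le gT y.1 u → False := by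
      rintro u (rfl | ⟨t, h3, h4⟩) a c
      · exact h1 (show x.1.supp ⊆ _ by rw [b0_le a]; exact Finset.empty_subset _)
      · exact h3.not_subset (Finset.union_subset (supp t _ ((okw t).trans a h4)).1
          (supp t _ ((okw t).trans c h4)).1)
    rw [← rk_emb he hh]
    by_cases e : (j x y).1 = w (x.1.supp ∪ y.1.supp)
    · rw [e]
      exact (hw _).2.1
    · obtain ⟨u, h3, h4⟩ := ((hw _).2.2.2.2.2 _ a4 fun h => nD _ h a1 a2).2 e
      refine (nD u h3 (h4 _ (Or.inr ⟨_, ?_, mem _ x.2⟩) a1)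
        (h4 _ (Or.inr ⟨_, ?_, mem _ y.2⟩) a2)).elim
      · exact ⟨Finset.subset_union_left, fun h => h2 (Finset.subset_union_right.trans h)⟩
      · exact ⟨Finset.subset_union_right, fun h => h1 (Finset.subset_union_left.trans h)⟩

theorem two (X : Type) [Uncountable X] : ∃ (A B : Type) (g : ℕ → A → A) (j : A → A → A)
    (g' : ℕ → B → B) (j' : B → B → B), KK g j ∧ KK g' j' ∧ Cardinal.mk A = Cardinal.mk X ∧
      Cardinal.mk B = Cardinal.mk X ∧ ∀ e : A ≃ B, ¬ ∀ i a, g' i (e a) = e (g i a) := by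
  obtain ⟨A, g, j, sp, p, h1, h2, -, h4, h5⟩ := big X 0
  obtain ⟨B, g', j', sp', -, k1, k2, k3, -, k5⟩ := big X 1
  refine ⟨A, B, g, j, g', j', h1, k1, h2, k2, fun e hh => ?_⟩
  have pi : Function.Injective p := fun a a' h => by
    have := congrArg sp h
    rw [h4, h4] at this
    exact Finset.singleton_injective this
  have : ∃ a a', (sp' (e (p a))).card = (sp' (e (p a'))).card ∧ sp' (e (p a)) ≠ sp' (e (p a')) := by
    by_contra hn
    push Not at hn
    refine not_countable_univ (α := X) ((countable_iUnion fun n : ℕ =>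
      (?_ : {a | (sp' (e (p a))).card = n}.Finite).countable).mono fun a _ =>
        mem_iUnion.2 ⟨(sp' (e (p a))).card, rfl⟩)
    rcases eq_empty_or_nonempty {a | (sp' (e (p a))).card = n} with h | ⟨a, ha⟩
    · rw [h]
      exact finite_empty
    · exact ((k3 (sp' (e (p a)))).preimage (e.injective.comp pi).injOn).subset fun a' ha' =>
        hn a' a (ha'.trans ha.symm)
  obtain ⟨a, a', c1, c2⟩ := this
  have ne : a ≠ a' := fun h => c2 (by rw [h])
  have e1 := h5 (p a) (p a') (by simpa [h4] using ne) (by simpa [h4] using ne.symm)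
  have e2 := k5 (e (p a)) (e (p a')) (fun h => c2 (Finset.eq_of_subset_of_card_le h c1.ge))
    fun h => c2 (Finset.eq_of_subset_of_card_le h c1.le).symm
  rw [h1.jeq k1 e hh, rk_emb e.injective hh] at e2
  omega

end Pool.Agent.Lib.helper22.Univ
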