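import Mathlib

set_option autoImplicit false

namespace H22ZS

open Set Filter Topology TopologicalSpace

section Defs

variable (Y Z : Type) [TopologicalSpace Y] [TopologicalSpace Z]

/-- `O_Z(Y)`: preimages of open sets of `Z` under continuous maps. -/
def OZ : Set (Set Y) := {W | ∃ f : C(Y, Z), ∃ U : Set Z, IsOpen U ∧ W = f ⁻¹' U}

/-- `H` is open in `τ_1^Z` (`Z`-Scott open). -/
def Tau1 (H : Set (Set Y)) : Prop :=
  (∀ W ∈ H, IsOpen W) ∧ (∀ W ∈ H, W ∈ OZ Y Z → ∀ V : Set Y, IsOpen V → W ⊆ V → V ∈ H) ∧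
    ∀ F : Set (Set Y), F ⊆ OZ Y Z → ⋃₀ F ∈ H → ∃ G ⊆ F, G.Finite ∧ ⋃₀ G ∈ H

/-- The topology on `C(Y,Z)` with subbasis the sets `(H,U)`, `H` in a given class, `U` open. -/
@[reducible] def tOf (P : Set (Set Y) → Prop) : TopologicalSpace C(Y, Z) :=
  generateFrom {S | ∃ (H : Set (Set Y)) (U : Set Z), P H ∧ IsOpen U ∧ S = {f : C(Y, Z) | f ⁻¹' U ∈ H}}

/-- The topology `t_1^Z`. -/
@[reducible] def t1Z : TopologicalSpace C(Y, Z) := tOf Y Z (Tau1 Y Z)

end Defs

theorem mem_OZ_bool {Y : Type} [TopologicalSpace Y] {W : Set Y} :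
    W ∈ OZ Y Bool ↔ IsClopen W := by
  constructor
  · rintro ⟨f, U, -, rfl⟩
    exact (isClopen_discrete U).preimage f.continuous
  · intro hW
    classical
    refine ⟨⟨W.boolIndicator, (continuous_boolIndicator_iff_isClopen W).2 hW⟩, {true}, isOpen_discrete _, ?_⟩
    exact (Set.preimage_boolIndicator_true W).symm

/-- The Arens-Fort space. -/
def AF : Type := Option (ℕ × ℕ)

def pt (n k : ℕ) : AF := some (n, k)
def inf : AF := none

theorem pt_ne (n k : ℕ) : pt n k ≠ inf := Option.some_ne_none _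
theorem pt_inj {n k m l : ℕ} (h : pt n k = pt m l) : n = m ∧ k = l :=
  Prod.mk.inj (Option.some.inj h)
theorem casesAF (x : AF) : x = inf ∨ ∃ n k, x = pt n k := by
  rcases x with _ | ⟨n, k⟩
  · exact Or.inl rfl
  · exact Or.inr ⟨n, k, rfl⟩

instance : TopologicalSpace AF where
  IsOpen U := inf ∈ U → ∀ᶠ n in atTop, ∀ᶠ k in atTop, pt n k ∈ U
  isOpen_univ := fun _ => Eventually.of_forall fun _ => Eventually.of_forall fun _ => mem_univ _
  isOpen_inter := fun U V hU hV h => ((hU h.1).and (hV h.2)).mono fun _ hn => hn.1.and hn.2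
  isOpen_sUnion := by
    rintro S hS ⟨U, hU, h⟩
    exact (hS U hU h).mono fun n hn => hn.mono fun k hk => ⟨U, hU, hk⟩

theorem open_iff (U : Set AF) :
    IsOpen U ↔ (inf ∈ U → ∀ᶠ n in atTop, ∀ᶠ k in atTop, pt n k ∈ U) := Iff.rfl

theorem clopen_of {W : Set AF} (h1 : inf ∉ W) (h2 : ∀ᶠ n in atTop, ∀ᶠ k in atTop, pt n k ∉ W) :
    IsClopen W :=
  ⟨⟨fun _ => h2⟩, fun h => absurd h h1⟩

theorem clopen_pt (n k : ℕ) : IsClopen ({pt n k} : Set AF) := by
  refine clopen_of (fun h => pt_ne _ _ (mem_singleton_iff.1 h).symm) ?_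
  filter_upwards [eventually_gt_atTop n] with m hm
  exact Eventually.of_forall fun l h => hm.ne' (pt_inj h).1

/-- the function that is `false` exactly on the clopen set `W`. -/
noncomputable def chi (W : Set AF) (hW : IsClopen W) : C(AF, Bool) :=
  ⟨Wᶜ.boolIndicator, (continuous_boolIndicator_iff_isClopen _).2 hW.compl⟩

theorem chi_true {W : Set AF} (hW : IsClopen W) {x : AF} (hx : x ∉ W) : chi W hW x = true :=
  (Set.mem_iff_boolIndicator Wᶜ x).1 hx

theorem chi_false {W : Set AF} (hW : IsClopen W) {x : AF} (hx : x ∈ W) : chi W hW x = false :=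
  (Set.notMem_iff_boolIndicator Wᶜ x).1 (fun h => h hx)

def seg (n m : ℕ) : Set AF := {x | ∃ k < m, x = pt n k}
def col (n : ℕ) : Set AF := {x | ∃ k, x = pt n k}

theorem clopen_seg (n m : ℕ) : IsClopen (seg n m) := by
  refine clopen_of (fun ⟨k, _, h⟩ => pt_ne _ _ h.symm) ?_
  filter_upwards [eventually_gt_atTop n] with j hj
  exact Eventually.of_forall fun l ⟨k, _, h⟩ => hj.ne' (pt_inj h).1

theorem clopen_col (n : ℕ) : IsClopen (col n) := by
  refine clopen_of (fun ⟨k, h⟩ => pt_ne _ _ h.symm) ?_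
  filter_upwards [eventually_gt_atTop n] with j hj
  exact Eventually.of_forall fun l ⟨k, h⟩ => hj.ne' (pt_inj h).1

noncomputable def g (n m : ℕ) : C(AF, Bool) := chi (seg n m) (clopen_seg n m)
noncomputable def h (n : ℕ) : C(AF, Bool) := chi (col n) (clopen_col n)
def one : C(AF, Bool) := ContinuousMap.const AF true

theorem open_pre (f : C(AF, Bool)) (U : Set Bool) : IsOpen (f ⁻¹' U) :=
  (isOpen_discrete U).preimage f.continuous

theorem fin_sub {H : Set (Set AF)} (hH : Tau1 AF Bool H) {W0 : Set AF} (hW0 : IsClopen W0)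
    {W : Set AF} (hW : W ∈ H) (hinf : inf ∈ W → inf ∈ W0) (hsub : W0 ⊆ W) :
    ∃ T : Set (ℕ × ℕ), T.Finite ∧ (∀ p ∈ T, pt p.1 p.2 ∈ W) ∧
      ∀ V, IsOpen V → W0 ⊆ V → (∀ p ∈ T, pt p.1 p.2 ∈ V) → V ∈ H := by
  let F : Set (Set AF) := insert W0 {S | ∃ n k, pt n k ∈ W ∧ S = {pt n k}}
  have hcl : ∀ S ∈ F, IsClopen S := by
    rintro S (rfl | ⟨n, k, -, rfl⟩)
    · exact hW0
    · exact clopen_pt n k
  have hun : ⋃₀ F = W := by
    apply Subset.antisymm
    · rintro x ⟨S, (rfl | ⟨n, k, hnk, rfl⟩), hx⟩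
      · exact hsub hx
      · rwa [mem_singleton_iff.1 hx]
    · intro x hx
      rcases casesAF x with rfl | ⟨n, k, rfl⟩
      · exact ⟨W0, Or.inl rfl, hinf hx⟩
      · exact ⟨_, Or.inr ⟨n, k, hx, rfl⟩, rfl⟩
  obtain ⟨G, hGF, hGfin, hG⟩ := hH.2.2 F (fun S hS => mem_OZ_bool.2 (hcl S hS)) (hun ▸ hW)
  refine ⟨{p | pt p.1 p.2 ∈ W ∧ ({pt p.1 p.2} : Set AF) ∈ G}, ?_, fun p hp => hp.1, ?_⟩
  · refine (hGfin.preimage (f := fun p : ℕ × ℕ => ({pt p.1 p.2} : Set AF)) ?_).subset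
      fun p hp => hp.2
    intro p _ q _ hpq
    have := pt_inj (singleton_injective hpq)
    exact Prod.ext this.1 this.2
  · intro V hV h1 h2
    refine hH.2.1 _ hG (mem_OZ_bool.2 ?_) V hV ?_
    · rw [sUnion_eq_biUnion]
      exact hGfin.isClopen_biUnion fun S hS => hcl S (hGF hS)
    · rintro x ⟨S, hS, hx⟩
      rcases hGF hS with rfl | ⟨n, k, hnk, rfl⟩
      · exact h1 hx
      · rw [mem_singleton_iff.1 hx]
        exact h2 (n, k) ⟨hnk, hS⟩

theorem tend_one (m : ℕ → ℕ) :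
    Tendsto (fun n => g n (m n)) atTop (@nhds _ (t1Z AF Bool) one) := by
  rw [tendsto_nhds_generateFrom_iff]
  rintro _ ⟨H, U, hH, -, rfl⟩ h1
  change one ⁻¹' U ∈ H at h1
  by_cases ht : true ∈ U
  · have hB : IsClopen (⋃ n, seg n (m n)) := by
      refine clopen_of (fun hx => ?_) (Eventually.of_forall fun n => ?_)
      · obtain ⟨n, k, -, hk⟩ := mem_iUnion.1 hx
        exact pt_ne _ _ hk.symm
      · filter_upwards [eventually_ge_atTop (m n)] with k hk hx
        obtain ⟨j, l, hl, he⟩ := mem_iUnion.1 hx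
        obtain ⟨rfl, rfl⟩ := pt_inj he
        omega
    obtain ⟨T, hT, -, hT2⟩ := fin_sub hH hB.compl h1 (fun _ hx => by
      obtain ⟨n, k, -, hk⟩ := mem_iUnion.1 hx
      exact pt_ne _ _ hk.symm) (fun x _ => ht)
    obtain ⟨N, hN⟩ := (hT.image Prod.fst).bddAbove
    filter_upwards [eventually_gt_atTop N] with n hn
    refine hT2 _ (open_pre _ U) (fun x hx => ?_) (fun p hp => ?_)
    · show g n (m n) x ∈ U
      rw [g, chi_true _ (fun hs => hx (mem_iUnion.2 ⟨n, hs⟩))]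
      exact ht
    · show g n (m n) _ ∈ U
      rw [g, chi_true]
      · exact ht
      · rintro ⟨k, -, he⟩
        have := hN ⟨p, hp, rfl⟩
        have := (pt_inj he).1
        omega
  · refine Eventually.of_forall fun n => ?_
    exact hH.2.1 _ h1 ⟨one, U, isOpen_discrete U, rfl⟩ _ (open_pre _ U) fun x hx => absurd hx ht

theorem tend_h (n : ℕ) : Tendsto (g n) atTop (@nhds _ (t1Z AF Bool) (h n)) := by
  rw [tendsto_nhds_generateFrom_iff]
  rintro _ ⟨H, U, hH, -, rfl⟩ h1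
  change h n ⁻¹' U ∈ H at h1
  have hout : ∀ m x, x ∉ col n → g n m x = h n x := by
    intro m x hx
    rw [g, h, chi_true _ hx, chi_true]
    rintro ⟨k, -, he⟩
    exact hx ⟨k, he⟩
  obtain ⟨T, hT, hT1, hT2⟩ := fin_sub hH
    (((isClopen_discrete U).preimage (h n).continuous).inter (clopen_col n).compl) h1
    (fun hx => ⟨hx, fun ⟨k, hk⟩ => pt_ne _ _ hk.symm⟩) inter_subset_left
  obtain ⟨N, hN⟩ := (hT.image Prod.snd).bddAbove
  filter_upwards [eventually_gt_atTop N] with m hm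
  refine hT2 _ (open_pre _ U) (fun x hx => ?_) (fun p hp => ?_)
  · show g n m x ∈ U
    rw [hout m x hx.2]
    exact hx.1
  · show g n m _ ∈ U
    have h2 : h n (pt p.1 p.2) ∈ U := hT1 p hp
    by_cases hc : pt p.1 p.2 ∈ col n
    · rw [h, chi_false _ hc] at h2
      rw [g, chi_false]
      · exact h2
      · obtain ⟨k, hk⟩ := hc
        refine ⟨k, ?_, hk⟩
        have := hN ⟨p, hp, rfl⟩
        have := (pt_inj hk).2
        omega
    · rw [hout m _ hc]
      exact h2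

theorem not_regular : ¬ @RegularSpace _ (t1Z AF Bool) := by
  intro hreg
  let _ := t1Z AF Bool
  let H0 : Set (Set AF) := {W | IsOpen W ∧ inf ∈ W ∧ ∀ n, ∃ k, pt n k ∈ W}
  have hH0 : Tau1 AF Bool H0 := by
    refine ⟨fun W hW => hW.1, fun W hW _ V hV hWV =>
      ⟨hV, hWV hW.2.1, fun n => (hW.2.2 n).imp fun k hk => hWV hk⟩, ?_⟩
    rintro F hF ⟨-, ⟨W0, hW0, hi⟩, hc⟩
    have hop : ∀ S ∈ F, IsOpen S := fun S hS => (mem_OZ_bool.1 (hF hS)).isOpen
    obtain ⟨N, hN⟩ := eventually_atTop.1 (hop W0 hW0 hi)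
    choose k S hS hk using hc
    have hsub : insert W0 (S '' Iio N) ⊆ F := by
      rintro _ (rfl | ⟨n, -, rfl⟩)
      · exact hW0
      · exact hS n
    refine ⟨insert W0 (S '' Iio N), hsub, ((finite_Iio N).image S).insert W0,
      isOpen_sUnion fun t ht => hop t (hsub ht), ⟨W0, Or.inl rfl, hi⟩, fun n => ?_⟩
    by_cases hn : n < N
    · exact ⟨k n, S n, Or.inr ⟨n, hn, rfl⟩, hk n⟩
    · obtain ⟨l, hl⟩ := (hN n (not_lt.1 hn)).exists
      exact ⟨l, W0, Or.inl rfl, hl⟩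
  have hO : IsOpen {f : C(AF, Bool) | f ⁻¹' {true} ∈ H0} :=
    isOpen_generateFrom_of_mem ⟨H0, {true}, hH0, isOpen_discrete _, rfl⟩
  have h1 : one ∈ {f : C(AF, Bool) | f ⁻¹' {true} ∈ H0} :=
    ⟨open_pre _ _, rfl, fun n => ⟨0, rfl⟩⟩
  obtain ⟨N, hN, hNc, hNO⟩ := exists_mem_nhds_isClosed_subset (hO.mem_nhds h1)
  have h2 : ∀ n, ∃ m, g n m ∉ N := by
    intro n
    have : h n ∉ N := by
      intro hn
      obtain ⟨k, hk⟩ := (hNO hn).2.2 n
      have h3 : h n (pt n k) = true := hk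
      rw [h, chi_false _ (show pt n k ∈ col n from ⟨k, rfl⟩)] at h3
      exact Bool.false_ne_true h3
    exact ((tend_h n).eventually (hNc.isOpen_compl.mem_nhds this)).exists
  choose m hm using h2
  obtain ⟨n, hn⟩ := ((tend_one m).eventually hN).exists
  exact hm n hn

end H22ZS
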